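import Pool.Agent.H13.AugZarDefs

set_option autoImplicit false

namespace Pool.Agent.H13.AugZar

open Finset

lemma card_le_of_noC4 {m n : ℕ} (E : Finset (Fin m × Fin n)) (h : ¬ HasC4 E) :
    E.card ≤ n + (univ.filter (fun p : Fin m × Fin m => p.1 < p.2)).card := by
  classical
  -- cells that are lowest in their column, and the others
  set A := E.filter (fun c => ∀ i, (i, c.2) ∈ E → c.1 ≤ i) with hA
  set B := E.filter (fun c => ¬ ∀ i, (i, c.2) ∈ E → c.1 ≤ i) with hB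
  have hAB : A.card + B.card = E.card := by
    rw [hA, hB, card_filter_add_card_filter_not]
  have h1 : A.card ≤ n := by
    have : A.card ≤ (univ : Finset (Fin n)).card := by
      apply card_le_card_of_injOn (fun c => c.2) (fun _ _ => mem_coe.2 (mem_univ _))
      rintro ⟨a, b⟩ hc ⟨a', b'⟩ hc' hb
      simp only [hA, coe_filter, Set.mem_ofPred_eq] at hc hc' hb
      subst hb
      rw [le_antisymm (hc.2 a' hc'.1) (hc'.2 a hc.1)]
    simpa using this
  have h2 : B.card ≤ (univ.filter (fun p : Fin m × Fin m => p.1 < p.2)).card := by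
    have ex : ∀ c ∈ B, ∃ i, (i, c.2) ∈ E ∧ i < c.1 ∧ ∀ i', (i', c.2) ∈ E → i ≤ i' := by
      intro c hc
      simp only [hB, mem_filter, not_forall, not_le] at hc
      obtain ⟨-, i, hi, hlt⟩ := hc
      obtain ⟨i0, h0, hmin⟩ := exists_min_image (univ.filter (fun i => (i, c.2) ∈ E)) id
        ⟨i, by simp [hi]⟩
      simp only [mem_filter, mem_univ, true_and, id] at h0 hmin
      exact ⟨i0, h0, lt_of_le_of_lt (hmin i hi) hlt, hmin⟩
    have ex' : ∀ c : Fin m × Fin n, ∃ i, c ∈ B →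
        (i, c.2) ∈ E ∧ i < c.1 ∧ ∀ i', (i', c.2) ∈ E → i ≤ i' := by
      intro c
      by_cases hc : c ∈ B
      · obtain ⟨i, hi⟩ := ex c hc
        exact ⟨i, fun _ => hi⟩
      · exact ⟨c.1, fun h => absurd h hc⟩
    choose g hg using ex'
    apply card_le_card_of_injOn (fun c => (g c, c.1))
    · intro c hc
      simp only [coe_filter, mem_univ, true_and, Set.mem_ofPred_eq]
      exact (hg c hc).2.1
    · rintro ⟨a, b⟩ hc ⟨a', b'⟩ hc' hb
      simp only [Prod.mk.injEq] at hb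
      obtain ⟨h3, rfl⟩ := hb
      by_contra hne
      have hbb : b ≠ b' := fun hh => hne (by rw [hh])
      have k1 := hg _ hc
      have k2 := hg _ hc'
      rw [← h3] at k2
      exact h ⟨g (a, b), a, b, b', k1.2.1.ne, hbb, k1.1, k2.1, (mem_filter.1 hc).1, (mem_filter.1 hc').1⟩
  omega

section
variable (a : ℕ)

abbrev col (j : Fin ((3 * a) * (3 * a))) : Fin (3 * a) × Fin (3 * a) := finProdFinEquiv.symm j

def E1 : Finset (Fin (3 * a) × Fin ((3 * a) * (3 * a))) :=
  univ.filter (fun c => c.1 = (col a c.2).1 ∨ (c.1 = (col a c.2).2 ∧ (col a c.2).1 < (col a c.2).2))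

def cell (t s : Fin a) (y : Fin (3 * a)) (r : Fin 3) : Fin (3 * a) × Fin ((3 * a) * (3 * a)) :=
  (⟨3 * t.1 + r.1, by omega⟩, finProdFinEquiv ((⟨3 * s.1 + r.1, by omega⟩ : Fin (3 * a)), y))

lemma cell_inj {t s t' s' : Fin a} {y y' : Fin (3 * a)} {r r' : Fin 3}
    (h : cell a t s y r = cell a t' s' y' r') : t = t' ∧ s = s' ∧ y = y' ∧ r = r' := by
  simp only [cell, Prod.mk.injEq, EmbeddingLike.apply_eq_iff_eq, Fin.mk.injEq] at h
  refine ⟨Fin.ext ?_, Fin.ext ?_, h.2.2, Fin.ext ?_⟩ <;> omega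

def edge (x : Fin a × Fin a × Fin (3 * a)) : Finset (Fin (3 * a) × Fin ((3 * a) * (3 * a))) :=
  univ.image (cell a x.1 x.2.1 x.2.2)

def idx : Finset (Fin a × Fin a × Fin (3 * a)) :=
  univ.filter (fun x => x.2.1 ≠ x.1 ∧ x.2.2.1 / 3 ≠ x.1.1)

def G0 : Aug (3 * a) ((3 * a) * (3 * a)) where
  E1 := E1 a
  E2 := ∅
  E3 := (idx a).image (edge a)
  card2 := by simp
  card3 := by
    intro e he
    obtain ⟨x, -, rfl⟩ := mem_image.1 he
    rw [edge, card_image_of_injective _ (fun r r' h => (cell_inj a h).2.2.2)]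
    simp

lemma edge_inj : Function.Injective (edge a) := by
  rintro ⟨t, s, y⟩ ⟨t', s', y'⟩ h
  have : cell a t s y 0 ∈ edge a (t', s', y') := by
    rw [← h]; exact mem_image.2 ⟨0, mem_univ _, rfl⟩
  obtain ⟨r, -, hr⟩ := mem_image.1 this
  obtain ⟨h1, h2, h3, -⟩ := cell_inj a hr
  simp only at h1 h2 h3
  rw [h1, h2, h3]

lemma mem_edges {e : Finset (Fin (3 * a) × Fin ((3 * a) * (3 * a)))}
    (he : e ∈ (G0 a).E2 ∪ (G0 a).E3) : ∃ x ∈ idx a, edge a x = e := by
  simpa [G0] using he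

lemma cell_facts {x : Fin a × Fin a × Fin (3 * a)} (hx : x ∈ idx a)
    {c : Fin (3 * a) × Fin ((3 * a) * (3 * a))} (hc : c ∈ edge a x) :
    c.1.1 / 3 = x.1.1 ∧ (col a c.2).1.1 / 3 = x.2.1.1 ∧ (col a c.2).2 = x.2.2 ∧
      c.1.1 % 3 = (col a c.2).1.1 % 3 ∧ x.2.1.1 ≠ x.1.1 ∧ x.2.2.1 / 3 ≠ x.1.1 := by
  obtain ⟨r, -, rfl⟩ := mem_image.1 hc
  simp only [idx, mem_filter, mem_univ, true_and] at hx
  have := r.2
  have h1 : x.2.1.1 ≠ x.1.1 := fun h => hx.1 (Fin.ext h)
  simp only [cell, col, Equiv.symm_apply_apply]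
  refine ⟨by omega, by omega, trivial, by omega, h1, hx.2⟩

lemma simple : (G0 a).Simple := by
  constructor
  · intro e he c hc h1
    obtain ⟨x, hx, rfl⟩ := mem_edges a he
    have := cell_facts a hx hc
    simp only [G0, E1, mem_filter, mem_univ, true_and] at h1
    rcases h1 with h1 | ⟨h1, -⟩
    · rw [← h1] at this; omega
    · rw [← this.2.2.1, ← h1] at this; omega
  · intro e he e' he' hne
    obtain ⟨x, hx, rfl⟩ := mem_edges a he
    obtain ⟨x', hx', rfl⟩ := mem_edges a he'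
    rw [disjoint_left]
    intro c hc hc'
    have h1 := cell_facts a hx hc
    have h2 := cell_facts a hx' hc'
    apply hne
    congr 1
    obtain ⟨t, s, y⟩ := x
    obtain ⟨t', s', y'⟩ := x'
    simp only at h1 h2
    rw [Fin.ext (h1.1.symm.trans h2.1), Fin.ext (h1.2.1.symm.trans h2.2.1), h1.2.2.1.symm.trans h2.2.2.1]

lemma noC4 : ¬ HasC4 (E1 a) := by
  rintro ⟨i, k, j, l, hik, hjl, h1, h2, h3, h4⟩
  simp only [E1, mem_filter, mem_univ, true_and] at h1 h2 h3 h4
  apply hjl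
  apply (finProdFinEquiv.symm : Fin ((3 * a) * (3 * a)) ≃ _).injective
  change col a j = col a l
  generalize col a j = x at *
  generalize col a l = y at *
  obtain ⟨x1, x2⟩ := x
  obtain ⟨y1, y2⟩ := y
  simp only [Fin.ext_iff, Fin.lt_def, ne_eq, Prod.mk.injEq] at *
  omega

lemma noCond2 : ¬ (G0 a).Cond2 := by
  rintro ⟨i, k, j, l, hik, hjl, e, he, e', he', hne, hsub, h1, h2⟩
  obtain ⟨x, hx, rfl⟩ := mem_edges a he
  obtain ⟨x', hx', rfl⟩ := mem_edges a he'
  have key : ∀ c ∈ ({(i, j), (i, l), (k, j), (k, l)} : Finset (Fin (3 * a) × Fin ((3 * a) * (3 * a)))),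
      c.1.1 % 3 = (col a c.2).1.1 % 3 := by
    intro c hc
    rcases mem_union.1 (hsub hc) with h | h
    · exact (cell_facts a hx h).2.2.2.1
    · exact (cell_facts a hx' h).2.2.2.1
  have k1 := key (i, j) (by simp)
  have k2 := key (i, l) (by simp)
  have k3 := key (k, j) (by simp)
  simp only at k1 k2 k3
  obtain ⟨c, c', hcc, hset⟩ := card_eq_two.1 h1
  have hc : c ∈ edge a x ∩ {(i, j), (i, l), (k, j), (k, l)} := by rw [hset]; simp
  have hc' : c' ∈ edge a x ∩ {(i, j), (i, l), (k, j), (k, l)} := by rw [hset]; simp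
  rw [mem_inter] at hc hc'
  have f1 := cell_facts a hx hc.1
  have f2 := cell_facts a hx hc'.1
  have m1 : c.1.1 % 3 = i.1 % 3 := by
    have := hc.2
    simp only [mem_insert, mem_singleton] at this
    rcases this with rfl | rfl | rfl | rfl <;> simp only <;> omega
  have m2 : c'.1.1 % 3 = i.1 % 3 := by
    have := hc'.2
    simp only [mem_insert, mem_singleton] at this
    rcases this with rfl | rfl | rfl | rfl <;> simp only <;> omega
  apply hcc
  apply Prod.ext
  · apply Fin.ext; omega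
  · apply (finProdFinEquiv.symm : Fin ((3 * a) * (3 * a)) ≃ _).injective
    change col a c.2 = col a c'.2
    apply Prod.ext
    · apply Fin.ext; omega
    · rw [f1.2.2.1, f2.2.2.1]

lemma noCond3 : ¬ (G0 a).Cond3 := by
  rintro ⟨i, j, p, q, k, l, h, -⟩
  simp [G0] at h

lemma occ_facts {c : Fin (3 * a) × Fin ((3 * a) * (3 * a))} (h : (G0 a).Occ c) :
    c.1.1 = (col a c.2).1.1 ∨ c.1.1 = (col a c.2).2.1 ∨
      (c.1.1 % 3 = (col a c.2).1.1 % 3 ∧ (col a c.2).1.1 / 3 ≠ c.1.1 / 3 ∧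
        (col a c.2).2.1 / 3 ≠ c.1.1 / 3) := by
  rcases h with h | ⟨e, he, hc⟩
  · simp only [G0, E1, mem_filter, mem_univ, true_and] at h
    rcases h with h | ⟨h, -⟩
    · left; rw [← h]
    · right; left; rw [← h]
  · obtain ⟨x, hx, rfl⟩ := mem_edges a he
    have := cell_facts a hx hc
    right; right
    rw [this.2.2.1]
    omega

lemma noCond4 : ¬ (G0 a).Cond4 := by
  rintro ⟨i, j, p, q, u, v, k, l, h, -, -, -, -, -, -, -, -, -, -, h1, h2, h3, -⟩
  obtain ⟨x, hx, hxe⟩ := mem_image.1 h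
  have key : ∀ r : Fin 3, (G0 a).Occ ((cell a x.1 x.2.1 x.2.2 r).1, l) := by
    intro r
    have : cell a x.1 x.2.1 x.2.2 r ∈ edge a x := mem_image.2 ⟨r, mem_univ _, rfl⟩
    rw [hxe] at this
    simp only [mem_insert, mem_singleton] at this
    rcases this with h | h | h <;> rw [h] <;> assumption
  have k0 := occ_facts a (key 0)
  have k1 := occ_facts a (key 1)
  have k2 := occ_facts a (key 2)
  simp only [cell, Fin.val_zero, Fin.val_one, Fin.val_two] at k0 k1 k2
  omega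

lemma cycleFree : (G0 a).CycleFree := ⟨noC4 a, noCond2 a, noCond3 a, noCond4 a⟩

lemma card_E1 : (3 * a) * (3 * a) + (univ.filter (fun p : Fin (3 * a) × Fin (3 * a) => p.1 < p.2)).card
    ≤ (E1 a).card := by
  have h1 : (univ.image (fun j : Fin ((3 * a) * (3 * a)) => ((col a j).1, j))).card = (3 * a) * (3 * a) := by
    rw [card_image_of_injective _ (fun j j' h => (Prod.mk.inj h).2)]; simp
  have h2 : ((univ.filter (fun p : Fin (3 * a) × Fin (3 * a) => p.1 < p.2)).image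
      (fun p => (p.2, finProdFinEquiv p))).card =
      (univ.filter (fun p : Fin (3 * a) × Fin (3 * a) => p.1 < p.2)).card := by
    rw [card_image_of_injective _ (fun j j' h => finProdFinEquiv.injective (Prod.mk.inj h).2)]
  refine le_trans (le_of_eq (congrArg₂ (· + ·) h1.symm h2.symm)) ?_
  rw [← card_union_of_disjoint]
  · apply card_le_card
    intro c hc
    simp only [mem_union, mem_image, mem_univ, true_and, mem_filter] at hc
    simp only [E1, mem_filter, mem_univ, true_and]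
    rcases hc with ⟨j, rfl⟩ | ⟨p, hp, rfl⟩
    · left; rfl
    · right; simp [col, hp]
  · rw [disjoint_left]
    intro c hc hc'
    simp only [mem_image, mem_univ, true_and, mem_filter] at hc hc'
    obtain ⟨j, rfl⟩ := hc
    obtain ⟨p, hp, h⟩ := hc'
    obtain ⟨h1, rfl⟩ := Prod.mk.inj h
    simp only [col, Equiv.symm_apply_apply] at h1
    exact hp.ne' h1

lemma E1_extremal : (E1 a).card = z (3 * a) ((3 * a) * (3 * a)) := by
  symm
  apply IsGreatest.csSup_eq
  refine ⟨⟨E1 a, noC4 a, rfl⟩, ?_⟩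
  rintro t ⟨E, hE, rfl⟩
  exact (card_le_of_noC4 E hE).trans (card_E1 a)

lemma card_idx : a * ((a - 1) * (a - 1)) ≤ (idx a).card := by
  have : ((univ : Finset (Fin a)).sigma (fun t => (univ.erase t) ×ˢ (univ.erase t))).card
      ≤ (idx a).card := by
    apply card_le_card_of_injOn (fun x => (x.1, x.2.1, (⟨3 * x.2.2.1, by omega⟩ : Fin (3 * a))))
    · rintro ⟨t, s, y⟩ hx
      simp only [coe_sigma, Set.mem_sigma_iff, coe_univ, Set.mem_univ, true_and, coe_product,
        Set.mem_prod, mem_coe, mem_erase, mem_univ, and_true] at hx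
      simp only [idx, coe_filter, mem_univ, true_and, Set.mem_ofPred_eq]
      refine ⟨hx.1, ?_⟩
      have : y.1 ≠ t.1 := fun h => hx.2 (Fin.ext h)
      omega
    · rintro ⟨t, s, y⟩ - ⟨t', s', y'⟩ - h
      simp only [Prod.mk.injEq, Fin.mk.injEq] at h
      obtain ⟨rfl, rfl, h⟩ := h
      rw [Fin.ext (show y.1 = y'.1 by omega)]
  simpa [card_sigma, card_erase_of_mem] using this

end

lemma bdd {m n : ℕ} (G : Aug m n) :
    G.E1.card + G.E2.card + G.E3.card ≤ m * n + 2 ^ (m * n) + 2 ^ (m * n) := by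
  have h1 := card_le_univ G.E1
  have h2 := card_le_univ G.E2
  have h3 := card_le_univ G.E3
  simp only [Fintype.card_prod, Fintype.card_fin, Fintype.card_finset] at h1 h2 h3
  omega

lemma card_G0 (a : ℕ) : a * ((a - 1) * (a - 1)) ≤ (G0 a).E1.card + (G0 a).E2.card + (G0 a).E3.card := by
  have : (G0 a).E3.card = (idx a).card := card_image_of_injective _ (edge_inj a)
  have := card_idx a
  omega

lemma z3L_ge (a : ℕ) : a * ((a - 1) * (a - 1)) ≤ z3L (3 * a) ((3 * a) * (3 * a)) := by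
  refine (card_G0 a).trans (le_csSup ⟨(3 * a) * ((3 * a) * (3 * a)) + 2 ^ ((3 * a) * ((3 * a) * (3 * a))) + 2 ^ ((3 * a) * ((3 * a) * (3 * a))), ?_⟩
    ⟨G0 a, simple a, cycleFree a, E1_extremal a, rfl⟩)
  rintro t ⟨G, -, -, -, rfl⟩
  exact bdd G

lemma z3A_ge (a : ℕ) : a * ((a - 1) * (a - 1)) ≤ z3A (3 * a) ((3 * a) * (3 * a)) := by
  refine (card_G0 a).trans (le_csSup ⟨(3 * a) * ((3 * a) * (3 * a)) + 2 ^ ((3 * a) * ((3 * a) * (3 * a))) + 2 ^ ((3 * a) * ((3 * a) * (3 * a))), ?_⟩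
    ⟨G0 a, simple a, cycleFree a, rfl⟩)
  rintro t ⟨G, -, -, rfl⟩
  exact bdd G

lemma unbounded (f : ℕ → ℕ → ℕ) (hf : ∀ a, a * ((a - 1) * (a - 1)) ≤ f (3 * a) ((3 * a) * (3 * a))) :
    ¬ ∃ C : ℝ, ∀ m n : ℕ, 2 ≤ m → 2 ≤ n → (f m n : ℝ) ≤ C * (m * Real.sqrt n + n) := by
  rintro ⟨C, hC⟩
  obtain ⟨t, ht⟩ := exists_nat_gt (max (72 * C) 1)
  have ht1 : (1 : ℝ) < t := lt_of_le_of_lt (le_max_right _ _) ht
  have ht2 : 72 * C < t := lt_of_le_of_lt (le_max_left _ _) ht
  have ht3 : 1 < t := by exact_mod_cast ht1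
  have h := hC (3 * (t + 1)) ((3 * (t + 1)) * (3 * (t + 1))) (by omega) (by nlinarith)
  have hl := hf (t + 1)
  rw [Nat.add_sub_cancel] at hl
  have hl' := (Nat.cast_le (α := ℝ)).2 hl
  have hs : Real.sqrt (((3 * (t + 1)) * (3 * (t + 1)) : ℕ) : ℝ) = 3 * (t + 1) := by
    rw [show (((3 * (t + 1)) * (3 * (t + 1)) : ℕ) : ℝ) = (3 * (t + 1)) ^ 2 by push_cast; ring]
    exact Real.sqrt_sq (by positivity)
  rw [hs] at h
  have h2 := hl'.trans h
  push_cast at h2
  have h3 : (t : ℝ) * t ≤ 18 * C * (t + 1) := by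
    by_contra hh
    push Not at hh
    have : (0 : ℝ) < t + 1 := by positivity
    nlinarith
  nlinarith

end Pool.Agent.H13.AugZar
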