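import Mathlib

set_option autoImplicit false

namespace Pool.Agent.H13.AugZar

/-- An augmented graph on the grid with m rows and n columns. -/
structure Aug (m n : ℕ) where
  E1 : Finset (Fin m × Fin n)
  E2 : Finset (Finset (Fin m × Fin n))
  E3 : Finset (Finset (Fin m × Fin n))
  card2 : ∀ e ∈ E2, e.card = 2
  card3 : ∀ e ∈ E3, e.card = 3

variable {m n : ℕ}

/-- No cell lies in more than one edge. -/
def Aug.Simple (G : Aug m n) : Prop :=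
  (∀ e ∈ G.E2 ∪ G.E3, ∀ c ∈ e, c ∉ G.E1) ∧
  ∀ e ∈ G.E2 ∪ G.E3, ∀ e' ∈ G.E2 ∪ G.E3, e ≠ e' → Disjoint e e'

/-- The cell lies in E1 or in a 2-edge or in a 3-edge. -/
def Aug.Occ (G : Aug m n) (c : Fin m × Fin n) : Prop :=
  c ∈ G.E1 ∨ ∃ e ∈ G.E2 ∪ G.E3, c ∈ e

/-- The cell lies in E1 or in a 2-edge. -/
def Aug.Occ2 (G : Aug m n) (c : Fin m × Fin n) : Prop :=
  c ∈ G.E1 ∨ ∃ e ∈ G.E2, c ∈ e

/-- Four cells of E on a rectangle (a 4-cycle of the bipartite graph E). -/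
def HasC4 (E : Finset (Fin m × Fin n)) : Prop :=
  ∃ i k j l, i ≠ k ∧ j ≠ l ∧ (i, j) ∈ E ∧ (i, l) ∈ E ∧ (k, j) ∈ E ∧ (k, l) ∈ E

/-- Forbidden configuration 2. -/
def Aug.Cond2 (G : Aug m n) : Prop :=
  ∃ i k j l, i ≠ k ∧ j ≠ l ∧ ∃ e ∈ G.E2 ∪ G.E3, ∃ e' ∈ G.E2 ∪ G.E3, e ≠ e' ∧
    ({(i, j), (i, l), (k, j), (k, l)} : Finset (Fin m × Fin n)) ⊆ e ∪ e' ∧
    (e ∩ {(i, j), (i, l), (k, j), (k, l)}).card = 2 ∧
    (e' ∩ {(i, j), (i, l), (k, j), (k, l)}).card = 2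

/-- Forbidden configuration 3. -/
def Aug.Cond3 (G : Aug m n) : Prop :=
  ∃ i j p q k l, ({(i, j), (p, q)} : Finset (Fin m × Fin n)) ∈ G.E2 ∧
    k ≠ i ∧ k ≠ p ∧ l ≠ j ∧ l ≠ q ∧
    G.Occ2 (k, j) ∧ G.Occ2 (k, l) ∧ G.Occ2 (k, q) ∧ G.Occ2 (i, l) ∧ G.Occ2 (p, l) ∧
    (i ≠ p ∧ j ≠ q → [(k, j), (k, l), (k, q), (i, l), (p, l)].Nodup)

/-- Forbidden configuration 4. -/
def Aug.Cond4 (G : Aug m n) : Prop :=
  ∃ i j p q u v k l, ({(i, j), (p, q), (u, v)} : Finset (Fin m × Fin n)) ∈ G.E3 ∧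
    k ≠ i ∧ k ≠ p ∧ k ≠ u ∧ l ≠ j ∧ l ≠ q ∧ l ≠ v ∧
    G.Occ (k, j) ∧ G.Occ (k, l) ∧ G.Occ (k, q) ∧ G.Occ (k, v) ∧
    G.Occ (i, l) ∧ G.Occ (p, l) ∧ G.Occ (u, l) ∧
    ([i, p, u].Nodup ∧ [j, q, v].Nodup →
      [(k, j), (k, l), (k, q), (k, v), (i, l), (p, l), (u, l)].Nodup)

/-- Generalized cycle-free. -/
def Aug.CycleFree (G : Aug m n) : Prop :=
  ¬ HasC4 G.E1 ∧ ¬ G.Cond2 ∧ ¬ G.Cond3 ∧ ¬ G.Cond4

/-- The Zarankiewicz number. -/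
noncomputable def z (m n : ℕ) : ℕ :=
  sSup {t | ∃ E : Finset (Fin m × Fin n), ¬ HasC4 E ∧ E.card = t}

/-- The 3-augmented Zarankiewicz number. -/
noncomputable def z3A (m n : ℕ) : ℕ :=
  sSup {t | ∃ G : Aug m n, G.Simple ∧ G.CycleFree ∧ G.E1.card + G.E2.card + G.E3.card = t}

/-- The limited 3-augmented Zarankiewicz number. -/
noncomputable def z3L (m n : ℕ) : ℕ :=
  sSup {t | ∃ G : Aug m n, G.Simple ∧ G.CycleFree ∧ G.E1.card = z m n ∧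
    G.E1.card + G.E2.card + G.E3.card = t}

end Pool.Agent.H13.AugZar
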