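import Mathlib

set_option autoImplicit false

namespace Pool.Agent.H13.CycMod

/-- G has a cycle whose length is congruent to l modulo k. -/
def HasCycleMod {V : Type} (G : SimpleGraph V) (l k : ℕ) : Prop :=
  ∃ (v : V) (p : G.Walk v v), p.IsCycle ∧ p.length ≡ l [MOD k]

/-- G has no cycle of length exactly l. -/
def NoCycleOfLength {V : Type} (G : SimpleGraph V) (l : ℕ) : Prop :=
  ∀ (v : V) (p : G.Walk v v), p.IsCycle → p.length ≠ l

/-- c_{l,k}: infimum of all c such that every graph on n ≥ 1 vertices with average degree at
least c has a cycle of length l mod k (computed in the extended nonnegative reals). -/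
noncomputable def cc (l k : ℕ) : ENNReal :=
  sInf {c : ENNReal | ∀ n : ℕ, 1 ≤ n → ∀ G : SimpleGraph (Fin n),
    c * n ≤ 2 * (Nat.card G.edgeSet : ENNReal) → HasCycleMod G l k}

/-- d_{l,k}: maximum average degree of a graph on k vertices with no cycle of length l. -/
noncomputable def dd (l k : ℕ) : ENNReal :=
  ⨆ H : {H : SimpleGraph (Fin k) // NoCycleOfLength H l},
    2 * (Nat.card H.1.edgeSet : ENNReal) / k

end Pool.Agent.H13.CycMod
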