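import Pool.Agent.H13.Hexagon
import Pool.Agent.H13.CycModDefs

set_option autoImplicit false

namespace Pool.Agent.H13.CycMod

open SimpleGraph Finset Pool.Agent.H13.Hexagon

lemma no_six {V : Type} {G : SimpleGraph V} (hG : HexFree G) : NoCycleOfLength G 6 := by
  intro v p hp hl
  rcases p with _ | ⟨h1, _ | ⟨h2, _ | ⟨h3, _ | ⟨h4, _ | ⟨h5, _ | ⟨h6, _ | ⟨h7, p⟩⟩⟩⟩⟩⟩⟩ <;>
    simp only [Walk.length_cons, Walk.length_nil] at hl <;> try omega
  have := hp.support_nodup
  simp only [Walk.support_cons, Walk.support_nil, List.tail_cons, List.nodup_cons, List.mem_cons,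
    List.not_mem_nil] at this
  refine hG _ _ _ _ _ _ h1 h2 h3 h4 h5 h6 ?_ ?_ ?_ ?_ ?_ ?_ ?_ ?_ ?_ <;> grind

lemma walk_count {A B : Type} {G : SimpleGraph (A ⊕ B)}
    (hG : ∀ u v, G.Adj u v → u.isLeft ≠ v.isLeft) {u v : A ⊕ B} (p : G.Walk u v) :
    2 * p.support.tail.countP Sum.isLeft + (if u.isLeft then 1 else 0) =
      p.length + (if v.isLeft then 1 else 0) := by
  induction p with
  | nil => simp
  | @cons a b c h p ih =>
    have h1 := hG _ _ h
    have h2 : p.support = b :: p.support.tail := (Walk.cons_tail_support p).symm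
    simp only [Walk.support_cons, List.tail_cons, Walk.length_cons]
    rw [h2, List.countP_cons]
    rcases a with a | a <;> rcases b with b | b <;> simp at h1 ih ⊢ <;> omega

lemma cycle_len {A B : Type} [Fintype A] {G : SimpleGraph (A ⊕ B)}
    (hG : ∀ u v, G.Adj u v → u.isLeft ≠ v.isLeft) {v : A ⊕ B} (p : G.Walk v v) (hp : p.IsCycle) :
    ∃ j, j ≤ Fintype.card A ∧ p.length = 2 * j := by
  classical
  refine ⟨p.support.tail.countP Sum.isLeft, ?_, by have := walk_count hG p; omega⟩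
  rw [List.countP_eq_length_filter, ← List.toFinset_card_of_nodup (hp.support_nodup.filter _)]
  calc _ ≤ #((univ : Finset A).image (Sum.inl : A → A ⊕ B)) := by
        apply card_le_card
        rintro (a | b) h
        · simp
        · simp at h
    _ ≤ _ := card_image_le

section constr
variable (F : Type) [Field F]

def Inc (p l : F × F × F) : Prop := p.2.1 = l.2.1 + l.1 * p.1 ∧ p.2.2 = l.2.2 + l.1 ^ 2 * p.1

def W : SimpleGraph ((F × F × F) ⊕ ((F × F × F) × Bool)) where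
  Adj u v := match u, v with
    | .inl p, .inr l => Inc F p l.1
    | .inr l, .inl p => Inc F p l.1
    | _, _ => False
  symm := ⟨by rintro (a | a) (b | b) h <;> exact h⟩
  loopless := ⟨by rintro (a | a) h <;> exact h⟩

variable {F}

lemma tri_lines {p q r l m n : F × F × F} (hpq : p ≠ q) (hqr : q ≠ r) (hpr : p ≠ r)
    (h1 : Inc F p l) (h2 : Inc F q l) (h3 : Inc F q m) (h4 : Inc F r m) (h5 : Inc F r n)
    (h6 : Inc F p n) : l = m ∧ m = n := by
  obtain ⟨p0, p1, p2⟩ := p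
  obtain ⟨q0, q1, q2⟩ := q
  obtain ⟨r0, r1, r2⟩ := r
  obtain ⟨s, a, b⟩ := l
  obtain ⟨t, c, d⟩ := m
  obtain ⟨u, e, f⟩ := n
  simp only [Inc, ne_eq, Prod.mk.injEq] at *
  have x1 : p0 - q0 ≠ 0 := fun h => hpq (by
    have : p0 = q0 := by linear_combination h
    subst this; exact ⟨rfl, h1.1.trans h2.1.symm, h1.2.trans h2.2.symm⟩)
  have x2 : q0 - r0 ≠ 0 := fun h => hqr (by
    have : q0 = r0 := by linear_combination h
    subst this; exact ⟨rfl, h3.1.trans h4.1.symm, h3.2.trans h4.2.symm⟩)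
  have x3 : r0 - p0 ≠ 0 := fun h => hpr (by
    have : p0 = r0 := by linear_combination -h
    subst this; exact ⟨rfl, h6.1.trans h5.1.symm, h6.2.trans h5.2.symm⟩)
  have e1 : s * (p0 - q0) + t * (q0 - r0) + u * (r0 - p0) = 0 := by
    linear_combination h2.1 - h1.1 + h4.1 - h3.1 + h6.1 - h5.1
  have e2 : s ^ 2 * (p0 - q0) + t ^ 2 * (q0 - r0) + u ^ 2 * (r0 - p0) = 0 := by
    linear_combination h2.2 - h1.2 + h4.2 - h3.2 + h6.2 - h5.2
  have k1 : (p0 - q0) * ((s - t) * (s - u)) = 0 := by linear_combination e2 - (t + u) * e1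
  have k2 : (q0 - r0) * ((t - s) * (t - u)) = 0 := by linear_combination e2 - (s + u) * e1
  have k3 : (r0 - p0) * ((u - s) * (u - t)) = 0 := by linear_combination e2 - (s + t) * e1
  simp only [mul_eq_zero, x1, x2, x3, false_or, sub_eq_zero] at k1 k2 k3
  have : s = t ∧ t = u := by grind
  obtain ⟨rfl, rfl⟩ := this
  refine ⟨⟨rfl, ?_, ?_⟩, rfl, ?_, ?_⟩
  · linear_combination h3.1 - h2.1
  · linear_combination h3.2 - h2.2
  · linear_combination h5.1 - h4.1
  · linear_combination h5.2 - h4.2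

lemma W_hex : HexFree (W F) := by
  have key : ∀ (p q r : F × F × F) (l m n : (F × F × F) × Bool), p ≠ q → q ≠ r → p ≠ r →
      Inc F p l.1 → Inc F q l.1 → Inc F q m.1 → Inc F r m.1 → Inc F r n.1 → Inc F p n.1 →
      l ≠ m → m ≠ n → l ≠ n → False := by
    rintro p q r ⟨l, x⟩ ⟨m, y⟩ ⟨n, z⟩ n1 n2 n3 h1 h2 h3 h4 h5 h6 k1 k2 k3
    obtain ⟨rfl, rfl⟩ := tri_lines n1 n2 n3 h1 h2 h3 h4 h5 h6
    cases x <;> cases y <;> cases z <;> simp at k1 k2 k3
  rintro (a | a) (b | b) c d e f h1 h2 h3 h4 h5 h6 n1 n2 n3 n4 n5 n6 n7 n8 n9 <;>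
    first | exact h1 | skip
  all_goals
    rcases c with c | c <;> first | exact h2 | skip
    rcases d with d | d <;> first | exact h3 | skip
    rcases e with e | e <;> first | exact h4 | skip
    rcases f with f | f <;> first | exact h5 | skip
    simp only [ne_eq, Sum.inl.injEq, Sum.inr.injEq] at n1 n3 n4 n6 n7 n9
  · exact key a c e b d f n1 n7 n3 h1 h2 h3 h4 h5 h6 n4 n9 n6
  · exact key b d f c e a n4 n9 n6 h2 h3 h4 h5 h6 h1 n7 (Ne.symm n3) (Ne.symm n1)

lemma W_bip (u v) (h : (W F).Adj u v) : u.isLeft ≠ v.isLeft := by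
  rcases u with u | u <;> rcases v with v | v <;> first | exact absurd h id | simp

lemma W_edges [Fintype F] : 2 * Fintype.card F ^ 4 ≤ Nat.card (W F).edgeSet := by
  have := Nat.card_le_card_of_injective (α := ((F × F × F) × Bool) × F) (β := (W F).edgeSet)
    (fun x => ⟨s(.inl (x.2, x.1.1.2.1 + x.1.1.1 * x.2, x.1.1.2.2 + x.1.1.1 ^ 2 * x.2), .inr x.1),
      ⟨rfl, rfl⟩⟩) (by
      rintro ⟨l, x⟩ ⟨m, y⟩ h
      simp only [Subtype.mk.injEq, Sym2.eq_iff, Sum.inl.injEq, Prod.mk.injEq, Sum.inr.injEq,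
        reduceCtorEq, and_self, or_false] at h
      exact Prod.ext h.2 h.1.1)
  refine le_trans (le_of_eq ?_) this
  simp [Nat.card_eq_fintype_card]; ring

lemma W_nomod [Fintype F] (h2 : 2 ≤ Fintype.card F) (hodd : Odd (Fintype.card F)) :
    ¬ HasCycleMod (W F) 6 (Fintype.card F ^ 3) := by
  rintro ⟨v, p, hp, hm⟩
  obtain ⟨j, hj, hl⟩ := cycle_len W_bip p hp
  have h6 := no_six W_hex v p hp
  have hk : Fintype.card (F × F × F) = Fintype.card F ^ 3 := by simp; ring
  rw [hk] at hj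
  have h8 : 2 ^ 3 ≤ Fintype.card F ^ 3 := Nat.pow_le_pow_left h2 3
  obtain ⟨t, ht⟩ : Odd (Fintype.card F ^ 3) := hodd.pow
  generalize Fintype.card F ^ 3 = k at *
  rw [hl] at hm h6
  unfold Nat.ModEq at hm
  rw [Nat.mod_eq_of_lt (show 6 < k by omega)] at hm
  have := Nat.div_add_mod (2 * j) k
  rw [hm] at this
  generalize 2 * j / k = s at this
  rcases s with _ | _ | s
  · omega
  · omega
  · nlinarith

end constr

lemma cc_ge (q : ℕ) (hq : q.Prime) (hodd : Odd q) : (4 * q / 3 : ENNReal) ≤ cc 6 (q ^ 3) := by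
  have : Fact q.Prime := ⟨hq⟩
  refine le_sInf fun c hc => ?_
  by_contra hlt
  push Not at hlt
  let V := (ZMod q × ZMod q × ZMod q) ⊕ ((ZMod q × ZMod q × ZMod q) × Bool)
  let φ : Fin (Fintype.card V) ≃ V := (Fintype.equivFin V).symm
  have hV : Fintype.card V = 3 * q ^ 3 := by simp [V]; ring
  have hq0 := hq.pos
  let iso : ((W (ZMod q)).comap φ) ≃g W (ZMod q) := ⟨φ, Iff.rfl⟩
  obtain ⟨v, p, hp, hm⟩ := hc (Fintype.card V) (by rw [hV]; exact Nat.succ_le_of_lt (by positivity))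
    ((W (ZMod q)).comap φ) (by
      rw [Nat.card_congr iso.mapEdgeSet, hV]
      have h1 := W_edges (F := ZMod q)
      rw [ZMod.card] at h1
      have h2 : ((2 * q ^ 4 : ℕ) : ENNReal) ≤ Nat.card (W (ZMod q)).edgeSet := by exact_mod_cast h1
      refine le_trans (mul_le_mul_left hlt.le _) (le_trans (le_of_eq ?_) (mul_le_mul_right h2 2))
      push_cast
      rw [div_eq_mul_inv]
      have : (3 : ENNReal)⁻¹ * 3 = 1 := ENNReal.inv_mul_cancel (by norm_num) (by norm_num)
      calc 4 * (q : ENNReal) * 3⁻¹ * (3 * q ^ 3) = 4 * q ^ 4 * (3⁻¹ * 3) := by ring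
        _ = _ := by rw [this]; ring)
  apply W_nomod (F := ZMod q) (by rw [ZMod.card]; exact hq.two_le) (by rwa [ZMod.card])
  rw [ZMod.card]
  exact ⟨φ v, p.map iso.toHom, hp.map iso.injective, by simpa using hm⟩

lemma dd_le (q : ℕ) (hq : 0 < q) : dd 6 (q ^ 3) ≤ ENNReal.ofReal (131 / 100 * q + 240) := by
  refine iSup_le fun H => ?_
  have h := turan_hex (131 / 100 * q) (by positivity) (q ^ 3) _ H.1 (by simp) (hexFree_of H.2) (by
    push_cast
    have : (0 : ℝ) ≤ (q : ℝ) ^ 3 := by positivity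
    nlinarith)
  have hk : (0 : ℝ) < ((q ^ 3 : ℕ) : ℝ) := by positivity
  rw [← div_le_iff₀ hk] at h
  refine le_trans (le_of_eq ?_) (ENNReal.ofReal_le_ofReal h)
  rw [ENNReal.ofReal_div_of_pos hk, ENNReal.ofReal_mul (by norm_num), ENNReal.ofReal_natCast,
    ENNReal.ofReal_natCast]
  simp

lemma gap (K : ℕ) : ∃ k, K ≤ k ∧ 101 / 100 ≤ cc 6 k / dd 6 k := by
  obtain ⟨q, hq1, hq⟩ := Nat.exists_infinite_primes (K + 100000)
  have hodd : Odd q := hq.odd_of_ne_two (by omega)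
  refine ⟨q ^ 3, le_trans (by omega) (Nat.le_self_pow (by norm_num) q), ?_⟩
  have h1 := cc_ge q hq hodd
  have h2 := dd_le q hq.pos
  refine le_trans ?_ (ENNReal.div_le_div h1 h2)
  have hq' : (100000 : ℝ) ≤ q := by exact_mod_cast (by omega : 100000 ≤ q)
  have e1 : (4 * q / 3 : ENNReal) = ENNReal.ofReal (4 * q / 3) := by
    rw [ENNReal.ofReal_div_of_pos (by norm_num), ENNReal.ofReal_mul (by norm_num)]; simp
  have e2 : (101 / 100 : ENNReal) = ENNReal.ofReal (101 / 100) := by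
    rw [ENNReal.ofReal_div_of_pos (by norm_num)]; simp
  rw [e1, e2, ← ENNReal.ofReal_div_of_pos (by positivity)]
  apply ENNReal.ofReal_le_ofReal
  rw [le_div_iff₀ (by positivity)]
  linarith

end Pool.Agent.H13.CycMod
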