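import Mathlib

set_option autoImplicit false

namespace Pool.Agent.H13.CycPow

open Filter

/-- The r-th power of the cycle on ZMod n: distinct vertices at cyclic distance at most r. -/
def cycPow (n r : ℕ) : SimpleGraph (ZMod n) where
  Adj a b := a ≠ b ∧ ((a - b).val ≤ r ∨ (b - a).val ≤ r)
  symm := ⟨fun _ _ h => ⟨h.1.symm, h.2.symm⟩⟩
  loopless := ⟨fun _ h => h.1 rfl⟩

/-- f(n,r): least m such that every subgraph of the cycle power with m edges has a triangle. -/
noncomputable def f (n r : ℕ) : ℕ :=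
  sInf {m : ℕ | ∀ Γ : SimpleGraph (ZMod n), Γ ≤ cycPow n r → Nat.card Γ.edgeSet = m →
    ¬ Γ.CliqueFree 3}

/-- c = limsup over r of limsup over n of f(n,r)/(rn). -/
noncomputable def c : ℝ :=
  limsup (fun r : ℕ => limsup (fun n : ℕ => (f n r : ℝ) / ((r : ℝ) * n)) atTop) atTop

end Pool.Agent.H13.CycPow
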