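import Pool.Agent.H13.Super3
import Pool.Agent.H13.CycPowDefs

set_option autoImplicit false

namespace Pool.Agent.H13.CycPow

open Finset SimpleGraph Filter

def Fw {n : ℕ} (r : ℕ) (a b : ZMod n) : Prop := ∃ u, 0 < u ∧ u ≤ r ∧ b = a + (u : ℕ)

lemma fw_of {n r : ℕ} [NeZero n] {a b : ZMod n} (h : (cycPow n r).Adj a b) : Fw r a b ∨ Fw r b a := by
  obtain ⟨h1, h2 | h2⟩ := h
  · exact Or.inr ⟨(a - b).val, by simpa [ZMod.val_pos, sub_eq_zero] using h1, h2, by simp⟩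
  · exact Or.inl ⟨(b - a).val, by simpa [ZMod.val_pos, sub_eq_zero] using h1.symm, h2, by simp⟩

lemma edges_le (n r : ℕ) [NeZero n] : Nat.card (cycPow n r).edgeSet ≤ r * n := by
  classical
  rw [Nat.card_eq_fintype_card, ← edgeFinset_card]
  calc _ ≤ #((univ : Finset (Fin r × ZMod n)).image
        (fun p => s(p.2, p.2 + ((p.1.val + 1 : ℕ) : ZMod n)))) := by
        apply card_le_card
        intro e he
        induction e using Sym2.ind with
        | _ a b =>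
          rw [mem_edgeFinset, mem_edgeSet] at he
          rcases fw_of he with ⟨u, h0, h1, rfl⟩ | ⟨u, h0, h1, rfl⟩
          · exact mem_image.2 ⟨(⟨u - 1, by omega⟩, a), mem_univ _, by
              simp only [Nat.sub_add_cancel h0]⟩
          · exact mem_image.2 ⟨(⟨u - 1, by omega⟩, b), mem_univ _, by
              simp only [Nat.sub_add_cancel h0]; exact Sym2.eq_swap⟩
    _ ≤ _ := card_image_le.trans (by simp)

lemma f_mem (n r : ℕ) [NeZero n] : f n r ≤ r * n + 1 ∧ ∀ Γ : SimpleGraph (ZMod n), Γ ≤ cycPow n r →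
    Γ.CliqueFree 3 → Nat.card Γ.edgeSet ≤ f n r := by
  classical
  have h0 : r * n + 1 ∈ {m : ℕ | ∀ Γ : SimpleGraph (ZMod n), Γ ≤ cycPow n r →
      Nat.card Γ.edgeSet = m → ¬ Γ.CliqueFree 3} := by
    intro Γ h1 h2
    have := Nat.card_mono (Set.toFinite _) (edgeSet_mono h1)
    have := edges_le n r
    omega
  refine ⟨Nat.sInf_le h0, fun Γ h1 h2 => ?_⟩
  have h3 := Nat.sInf_mem ⟨_, h0⟩
  by_contra hlt
  push Not at hlt
  rw [Nat.card_eq_fintype_card, ← edgeFinset_card] at hlt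
  obtain ⟨s, hs, hc⟩ := exists_subset_card_eq hlt.le
  have hle : fromEdgeSet (s : Set (Sym2 (ZMod n))) ≤ Γ := by
    intro a b h
    rw [fromEdgeSet_adj] at h
    simpa using hs h.1
  refine h3 (fromEdgeSet s) (hle.trans h1) ?_ (h2.anti hle)
  have : (fromEdgeSet (s : Set (Sym2 (ZMod n)))).edgeSet = s := by
    rw [edgeSet_fromEdgeSet]
    apply sdiff_eq_left.2
    rw [Set.disjoint_left]
    intro e he hd
    exact Γ.not_isDiag_of_mem_edgeSet (mem_edgeFinset.1 (hs he)) hd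
  rw [this, Nat.card_coe_set_eq, Set.ncard_coe_finset, hc]
  rfl

lemma base_vertex {n r : ℕ} [NeZero n] (hn : 3 * r < n) {a b c : ZMod n}
    (h1 : (cycPow n r).Adj a b) (h2 : (cycPow n r).Adj a c) (h3 : (cycPow n r).Adj b c) :
    ∃ z : ZMod n, ∀ x, x = a ∨ x = b ∨ x = c → ∃ u, u ≤ r ∧ x = z + (u : ℕ) := by
  have cyc : ∀ a b c : ZMod n, Fw r a b → Fw r b c → Fw r c a → False := by
    rintro a _ _ ⟨u, u0, u1, rfl⟩ ⟨v, v0, v1, rfl⟩ ⟨w, w0, w1, h⟩
    have : ((u + v + w : ℕ) : ZMod n) = 0 := by push_cast; linear_combination -h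
    rw [ZMod.natCast_eq_zero_iff] at this
    have := Nat.le_of_dvd (by omega) this
    omega
  have src : ∀ a b c : ZMod n, Fw r a b → Fw r a c →
      ∀ x, x = a ∨ x = b ∨ x = c → ∃ u, u ≤ r ∧ x = a + (u : ℕ) := by
    rintro a b c ⟨u, -, u1, hu⟩ ⟨v, -, v1, hv⟩ x (rfl | rfl | rfl)
    exacts [⟨0, by omega, by simp⟩, ⟨u, u1, hu⟩, ⟨v, v1, hv⟩]
  rcases fw_of h1 with k1 | k1 <;> rcases fw_of h2 with k2 | k2 <;> rcases fw_of h3 with k3 | k3
  · exact ⟨a, src a b c k1 k2⟩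
  · exact ⟨a, src a b c k1 k2⟩
  · exact (cyc a b c k1 k3 k2).elim
  · exact ⟨c, fun x hx => src c a b k2 k3 x (by tauto)⟩
  · exact ⟨b, fun x hx => src b a c k1 k3 x (by tauto)⟩
  · exact (cyc a c b k2 k3 k1).elim
  · exact ⟨b, fun x hx => src b a c k1 k3 x (by tauto)⟩
  · exact ⟨c, fun x hx => src c a b k2 k3 x (by tauto)⟩

lemma windows {W : Type} [Fintype W] (H : SimpleGraph W) (hH : H.Colorable 3) (δ : ℝ) (hδ : 0 < δ) :
    ∃ M : ℕ, ∀ r, M ≤ r → ∀ n, 3 * r < n → ∀ Γ : SimpleGraph (ZMod n), Γ ≤ cycPow n r → ¬ H ⊑ Γ →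
      (Nat.card Γ.edgeSet : ℝ) ≤ f n r + 8 * δ * r * n := by
  classical
  obtain ⟨M, hM⟩ := Super3.remove H hH δ hδ
  refine ⟨M + 1, fun r hr n hn Γ hΓ hfree => ?_⟩
  have : NeZero n := ⟨by omega⟩
  let ι : ℕ → Fin (2 * r) → ZMod n := fun j i => ((j * r + i.val : ℕ) : ZMod n)
  have hι : ∀ j, Function.Injective (ι j) := by
    intro j a b h
    simp only [ι] at h
    push_cast at h
    have h2 := add_left_cancel h
    have := (ZMod.natCast_eq_natCast_iff' _ _ _).1 h2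
    rw [Nat.mod_eq_of_lt (by omega), Nat.mod_eq_of_lt (by omega)] at this
    exact Fin.ext this
  have hw : ∀ j, ¬ H ⊑ Γ.comap (ι j) := fun j h =>
    hfree (h.trans ⟨⟨⟨ι j, fun h => h⟩, hι j⟩⟩)
  choose s hs1 hs2 using fun j => hM (2 * r) (by omega) _ (hw j)
  let D : Finset (Sym2 (ZMod n)) := (range (n / r + 1)).biUnion (fun j => (s j).image (Sym2.map (ι j)))
  have hD : (#D : ℝ) ≤ 8 * δ * r * n := by
    have h1 : #D ≤ ∑ j ∈ range (n / r + 1), #(s j) :=
      card_biUnion_le.trans (sum_le_sum fun j _ => card_image_le)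
    have h2 : (#D : ℝ) ≤ ∑ j ∈ range (n / r + 1), δ * ((2 * r : ℕ) : ℝ) ^ 2 :=
      le_trans (by exact_mod_cast h1) (sum_le_sum fun j _ => hs2 j)
    rw [sum_const, card_range, nsmul_eq_mul] at h2
    have h3 : (n / r + 1) * r ≤ 2 * n := by
      have := Nat.div_mul_le_self n r
      nlinarith
    have h4 : ((n / r + 1 : ℕ) : ℝ) * r ≤ 2 * n := by exact_mod_cast h3
    have h5 : (0 : ℝ) ≤ δ * r := by positivity
    have h6 := mul_le_mul_of_nonneg_left h4 h5
    generalize ((n / r + 1 : ℕ) : ℝ) = y at *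
    push_cast at h2
    nlinarith
  have hT : (Γ.deleteEdges D).CliqueFree 3 := by
    intro t ht
    obtain ⟨a, b, c, k1, k2, k3, -⟩ := is3Clique_iff.1 ht
    obtain ⟨z, hz⟩ := base_vertex hn (hΓ k1.1) (hΓ k2.1) (hΓ k3.1)
    have hr0 : 0 < r := by omega
    have hx : ∀ x, x = a ∨ x = b ∨ x = c → ∃ i, ι (z.val / r) i = x := by
      intro x hx
      obtain ⟨u, hu, rfl⟩ := hz x hx
      have := Nat.mod_lt z.val hr0
      refine ⟨⟨z.val % r + u, by omega⟩, ?_⟩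
      simp only [ι]
      rw [← add_assoc, Nat.div_add_mod']
      simp
    obtain ⟨i1, rfl⟩ := hx a (by tauto)
    obtain ⟨i2, rfl⟩ := hx b (by tauto)
    obtain ⟨i3, rfl⟩ := hx c (by tauto)
    have key : ∀ i j, (Γ.deleteEdges D).Adj (ι (z.val / r) i) (ι (z.val / r) j) →
        ((Γ.comap (ι (z.val / r))).deleteEdges (s (z.val / r))).Adj i j := by
      intro i j h
      rw [deleteEdges_adj] at h ⊢
      refine ⟨h.1, fun hh => h.2 ?_⟩
      refine mem_coe.2 (mem_biUnion.2 ⟨z.val / r, ?_, mem_image.2 ⟨_, hh, rfl⟩⟩)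
      exact mem_range.2 (Nat.lt_succ_of_le (Nat.div_le_div_right (ZMod.val_lt z).le))
    exact hs1 (z.val / r) _ (is3Clique_iff.2 ⟨i1, i2, i3, key _ _ k1, key _ _ k2, key _ _ k3, rfl⟩)
  have h1 := (f_mem n r).2 _ ((deleteEdges_le _).trans hΓ) hT
  have h2 : Nat.card Γ.edgeSet ≤ Nat.card (Γ.deleteEdges D).edgeSet + #D := by
    rw [edgeSet_deleteEdges, Nat.card_coe_set_eq, Nat.card_coe_set_eq, ← Set.ncard_coe_finset]
    exact Set.ncard_le_ncard_diff_add_ncard _ _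
  have h3 : (Nat.card Γ.edgeSet : ℝ) ≤ f n r + #D := by exact_mod_cast (by omega)
  linarith

lemma ratio_le (r : ℕ) (hr : 1 ≤ r) : ∀ᶠ n : ℕ in atTop, (f n r : ℝ) / ((r : ℝ) * n) ≤ 2 := by
  filter_upwards [eventually_ge_atTop 1] with n hn
  have : NeZero n := ⟨by omega⟩
  have h1 : f n r ≤ 2 * (r * n) := by have := (f_mem n r).1; have := Nat.mul_le_mul hr hn; omega
  rw [div_le_iff₀ (by positivity)]
  exact_mod_cast h1

theorem main {W : Type} [Fintype W] (H : SimpleGraph W) (hH : H.Colorable 3) (ε : ℝ) (hε : 0 < ε) :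
    ∃ r₀ : ℕ, ∀ r, r₀ ≤ r → ∃ n₀ : ℕ, ∀ n, n₀ ≤ n → ∀ Γ : SimpleGraph (ZMod n), Γ ≤ cycPow n r →
      (c + ε) * r * n ≤ (Nat.card Γ.edgeSet : ℝ) → H ⊑ Γ := by
  obtain ⟨M, hM⟩ := windows H hH (ε / 16) (by positivity)
  have h1 := eventually_lt_of_limsup_lt (show c < c + ε / 2 by linarith)
    (isBoundedUnder_of_eventually_le (a := 2) (by
      filter_upwards [eventually_ge_atTop 1] with r hr
      exact limsup_le_of_le (isCoboundedUnder_le_of_le _ (x := 0) (fun n => by positivity))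
        (ratio_le r hr)))
  obtain ⟨r1, hr1⟩ := eventually_atTop.1 h1
  refine ⟨M + r1 + 1, fun r hr => ?_⟩
  obtain ⟨n1, hn1⟩ := eventually_atTop.1 (eventually_lt_of_limsup_lt (hr1 r (by omega))
    (isBoundedUnder_of_eventually_le (ratio_le r (by omega))))
  refine ⟨n1 + 3 * r + 1, fun n hn Γ hΓ hc => ?_⟩
  by_contra hfree
  have h2 := hM r (by omega) n (by omega) Γ hΓ hfree
  have h3 := hn1 n (by omega)
  have : 0 < r := by omega
  have : 0 < n := by omega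
  rw [div_lt_iff₀ (by positivity)] at h3
  nlinarith

end Pool.Agent.H13.CycPow
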