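import Mathlib

set_option autoImplicit false

/-! A six vertex graph that is DP-colourable from lists of sizes (2,4,3,4,3,2). -/

namespace Pool.Agent.H13.DPCore

def Cov (a z w s u t v s' u' t' v' : Fin 4) : Prop :=
  ∀ c : Fin 4, c ≠ a → c ≠ z → ∀ d : Fin 4, d ≠ w → c ≠ d →
    (c = s ∧ d = u) ∨ (c = t ∧ d = v) ∨ (c = s' ∧ d = u') ∨ (c = t' ∧ d = v')

instance (a z w s u t v s' u' t' v' : Fin 4) : Decidable (Cov a z w s u t v s' u' t' v') := by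
  unfold Cov; infer_instance

lemma g1 : ∀ a z w s t : Fin 4, s < t → ∀ u v : Fin 4,
    (a ≠ z ∧ (w = a ∨ w = z) ∧ s ≠ a ∧ s ≠ z ∧ t ≠ a ∧ t ≠ z) ∨
    3 ≤ (Finset.univ.filter (fun p : Fin 4 × Fin 4 => p.1 ≠ a ∧ p.1 ≠ z ∧ p.2 ≠ w ∧ p.1 ≠ p.2 ∧
      ¬ (p.1 = s ∧ p.2 = u) ∧ ¬ (p.1 = t ∧ p.2 = v))).card := by
  decide +kernel

lemma g2 (a z w s u t v s' u' t' v' : Fin 4) (h : s < t) (hc : Cov a z w s u t v s' u' t' v') :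
    a ≠ z ∧ (w = a ∨ w = z) ∧ s ≠ a ∧ s ≠ z ∧ t ≠ a ∧ t ≠ z := by
  rcases g1 a z w s t h u v with h1 | h1
  · exact h1
  · exfalso
    have : (Finset.univ.filter (fun p : Fin 4 × Fin 4 => p.1 ≠ a ∧ p.1 ≠ z ∧ p.2 ≠ w ∧ p.1 ≠ p.2 ∧
      ¬ (p.1 = s ∧ p.2 = u) ∧ ¬ (p.1 = t ∧ p.2 = v))) ⊆ {(s', u'), (t', v')} := by
      rintro ⟨c, d⟩ hp
      simp only [Finset.mem_filter, Finset.mem_univ, true_and] at hp
      obtain ⟨h1, h2, h3, h4, h5, h6⟩ := hp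
      rcases hc c h1 h2 d h3 h4 with e | e | e | e
      · exact absurd e h5
      · exact absurd e h6
      · simp [e.1, e.2]
      · simp [e.1, e.2]
    have h2 := Finset.card_le_card this
    have h3 : ({(s', u'), (t', v')} : Finset (Fin 4 × Fin 4)).card ≤ 2 := Finset.card_le_two
    omega

lemma cov_swap (a z w s u t v s' u' t' v' : Fin 4) (hc : Cov a z w s u t v s' u' t' v') :
    Cov a z w s' u' t' v' s u t v := by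
  intro c h1 h2 d h3 h4
  rcases hc c h1 h2 d h3 h4 with e | e | e | e <;> simp [e]

def Con (s t u v s2 t2 u2 v2 : Fin 4) : Prop :=
  (s = s2 ↔ v = v2) ∧ (s = t2 ↔ v = u2) ∧ (t = s2 ↔ u = v2) ∧ (t = t2 ↔ u = u2)

instance (s t u v s2 t2 u2 v2 : Fin 4) : Decidable (Con s t u v s2 t2 u2 v2) := by
  unfold Con; infer_instance

def Fin3 (a z w z2 w2 s t s2 t2 : Fin 4) : Prop :=
  ∀ u v : Fin 4, u ≠ v → ∀ u' v' : Fin 4, u' ≠ v' → Cov a z w s u t v s u' t v' →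
    ∀ u2 v2 : Fin 4, Con s t u v s2 t2 u2 v2 → ∀ u2' v2' : Fin 4, Con s t u' v' s2 t2 u2' v2' →
      ¬ Cov a z2 w2 s2 u2 t2 v2 s2 u2' t2 v2'

instance (a z w z2 w2 s t s2 t2 : Fin 4) : Decidable (Fin3 a z w z2 w2 s t s2 t2) := by
  unfold Fin3; infer_instance

def Out (a z s t : Fin 4) : Prop := s < t ∧ s ≠ a ∧ s ≠ z ∧ t ≠ a ∧ t ≠ z

instance (a z s t : Fin 4) : Decidable (Out a z s t) := by unfold Out; infer_instance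

lemma g3 : ∀ a z : Fin 4, a ≠ z → ∀ z2 : Fin 4, a ≠ z2 → z ≠ z2 → ∀ w : Fin 4, (w = a ∨ w = z) →
    ∀ w2 : Fin 4, (w2 = a ∨ w2 = z2) → w ≠ w2 → ∀ s t : Fin 4, Out a z s t →
    ∀ s2 t2 : Fin 4, Out a z2 s2 t2 → Fin3 a z w z2 w2 s t s2 t2 := by
  decide +kernel

lemma out_uniq : ∀ a z : Fin 4, a ≠ z → ∀ s t : Fin 4, Out a z s t → ∀ s' t' : Fin 4,
    Out a z s' t' → s' = s ∧ t' = t := by
  decide +kernel

lemma two : ∀ x y : Fin 4, ∃ s t : Fin 4, s < t ∧ s ≠ x ∧ s ≠ y ∧ t ≠ x ∧ t ≠ y := by decide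

/-- the colouring problem left after the first vertex is coloured -/
def Good (q r : Fin 4 → Fin 4) (a z w x y x' y' : Fin 4) : Prop :=
  ∃ c1 c2 c3 c4 : Fin 4, c1 ≠ x ∧ c1 ≠ y ∧ c4 ≠ x' ∧ c4 ≠ y' ∧ c2 ≠ a ∧ c2 ≠ z ∧ c3 ≠ w ∧
    c1 ≠ c2 ∧ c2 ≠ c3 ∧ c4 ≠ c2 ∧ q c1 ≠ c3 ∧ r c4 ≠ c3

lemma free (q : Fin 4 → Fin 4) (hq : Function.Injective q) (s t c d : Fin 4) (h : s < t)
    (h1 : ¬ (c = s ∧ d = q t)) (h2 : ¬ (c = t ∧ d = q s)) :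
    ∃ c1, (c1 = s ∨ c1 = t) ∧ c1 ≠ c ∧ q c1 ≠ d := by
  by_cases b1 : s = c
  · exact ⟨t, Or.inr rfl, fun e => h.ne (b1.trans e.symm), fun e => h1 ⟨b1.symm, e.symm⟩⟩
  · by_cases b2 : t = c
    · exact ⟨s, Or.inl rfl, b1, fun e => h2 ⟨b2.symm, e.symm⟩⟩
    · by_cases b3 : q s = d
      · exact ⟨t, Or.inr rfl, b2, fun e => h.ne (hq (b3.trans e.symm))⟩
      · exact ⟨s, Or.inl rfl, b1, b3⟩

lemma cov_of (q r : Fin 4 → Fin 4) (hq : Function.Injective q) (hr : Function.Injective r)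
    (a z w x y x' y' : Fin 4) (h : ¬ Good q r a z w x y x' y') :
    ∃ s t : Fin 4, a ≠ z ∧ (w = a ∨ w = z) ∧ Out a z s t ∧
      Cov a z w s (q t) t (q s) s (r t) t (r s) := by
  obtain ⟨s, t, h1, h2, h3, h4, h5⟩ := two x y
  obtain ⟨s', t', k1, k2, k3, k4, k5⟩ := two x' y'
  have hc : Cov a z w s (q t) t (q s) s' (r t') t' (r s') := by
    intro c a1 a2 d a3 a4
    by_contra hn
    apply h
    obtain ⟨c1, e1, e2, e3⟩ := free q hq s t c d h1 (fun e => hn (Or.inl e))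
      (fun e => hn (Or.inr (Or.inl e)))
    obtain ⟨c4, f1, f2, f3⟩ := free r hr s' t' c d k1 (fun e => hn (Or.inr (Or.inr (Or.inl e))))
      (fun e => hn (Or.inr (Or.inr (Or.inr e))))
    refine ⟨c1, c, d, c4, ?_, ?_, ?_, ?_, a1, a2, a3, e2, a4, f2, e3, f3⟩
    · rcases e1 with e | e <;> rw [e] <;> assumption
    · rcases e1 with e | e <;> rw [e] <;> assumption
    · rcases f1 with e | e <;> rw [e] <;> assumption
    · rcases f1 with e | e <;> rw [e] <;> assumption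
  obtain ⟨p1, p2, p3⟩ := g2 _ _ _ _ _ _ _ _ _ _ _ h1 hc
  obtain ⟨-, -, p4⟩ := g2 _ _ _ _ _ _ _ _ _ _ _ k1 (cov_swap _ _ _ _ _ _ _ _ _ _ _ hc)
  obtain ⟨e1, e2⟩ := out_uniq a z p1 s t ⟨h1, p3⟩ s' t' ⟨k1, p4⟩
  subst e1 e2
  exact ⟨s', t', p1, p2, ⟨h1, p3⟩, hc⟩

lemma con_of (q : Fin 4 → Fin 4) (hq : Function.Injective q) (s t s2 t2 : Fin 4) :
    Con s t (q t) (q s) s2 t2 (q t2) (q s2) := by
  simp [Con, hq.eq_iff]

lemma core (q r : Fin 4 → Fin 4) (hq : Function.Injective q) (hr : Function.Injective r)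
    (a z w x y x' y' z2 w2 x2 y2 x2' y2' : Fin 4) (hz : z ≠ z2) (hw : w ≠ w2) :
    Good q r a z w x y x' y' ∨ Good q r a z2 w2 x2 y2 x2' y2' := by
  by_contra hn
  rw [not_or] at hn
  obtain ⟨s, t, p1, p2, p3, p4⟩ := cov_of q r hq hr _ _ _ _ _ _ _ hn.1
  obtain ⟨s2, t2, k1, k2, k3, k4⟩ := cov_of q r hq hr _ _ _ _ _ _ _ hn.2
  exact g3 a z p1 z2 k1 hz w p2 w2 k2 hw s t p3 s2 t2 k3 _ _ (fun e => p3.1.ne' (hq e)) _ _
    (fun e => p3.1.ne' (hr e)) p4 _ _ (con_of q hq _ _ _ _) _ _ (con_of r hr _ _ _ _) k4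

lemma one : ∀ x y : Fin 4, ∀ z : Fin 4, ∃ s : Fin 4, s ≠ x ∧ s ≠ y ∧ s ≠ z := by decide

/-- colouring of the gadget for arbitrary permutations on its eleven edges -/
theorem gadget (p01 p02 p03 p04 p05 p12 p13 p15 p23 p24 p34 : Equiv.Perm (Fin 4))
    (a0 b0 a2 a4 a5 b5 : Fin 4) :
    ∃ c0 c1 c2 c3 c4 c5 : Fin 4, (c0 ≠ a0 ∧ c0 ≠ b0 ∧ c2 ≠ a2 ∧ c4 ≠ a4 ∧ c5 ≠ a5 ∧ c5 ≠ b5) ∧
      p01 c0 ≠ c1 ∧ p02 c0 ≠ c2 ∧ p03 c0 ≠ c3 ∧ p04 c0 ≠ c4 ∧ p05 c0 ≠ c5 ∧ p12 c1 ≠ c2 ∧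
      p13 c1 ≠ c3 ∧ p15 c1 ≠ c5 ∧ p23 c2 ≠ c3 ∧ p24 c2 ≠ c4 ∧ p34 c3 ≠ c4 := by
  obtain ⟨s, t, h1, h2, h3, h4, h5⟩ := two a0 b0
  choose e he using fun c0 => one a5 b5 (p05 c0)
  have key : ∀ c0, c0 ≠ a0 → c0 ≠ b0 →
      Good (fun i => p23.symm (p13 (p12.symm i))) (fun i => p23.symm (p34.symm (p24 i))) a2 (p02 c0)
        (p23.symm (p03 c0)) (p12 (p01 c0)) (p12 (p15.symm (e c0))) (p24.symm a4)
        (p24.symm (p04 c0)) →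
      ∃ c0 c1 c2 c3 c4 c5 : Fin 4, (c0 ≠ a0 ∧ c0 ≠ b0 ∧ c2 ≠ a2 ∧ c4 ≠ a4 ∧ c5 ≠ a5 ∧ c5 ≠ b5) ∧
      p01 c0 ≠ c1 ∧ p02 c0 ≠ c2 ∧ p03 c0 ≠ c3 ∧ p04 c0 ≠ c4 ∧ p05 c0 ≠ c5 ∧ p12 c1 ≠ c2 ∧
      p13 c1 ≠ c3 ∧ p15 c1 ≠ c5 ∧ p23 c2 ≠ c3 ∧ p24 c2 ≠ c4 ∧ p34 c3 ≠ c4 := by
    rintro c0 k1 k2 ⟨c1, c2, c3, c4, q1, q2, q3, q4, q5, q6, q7, q8, q9, q10, q11, q12⟩
    refine ⟨c0, p12.symm c1, c2, p23 c3, p24 c4, e c0, ⟨k1, k2, q5, ?_, (he c0).1, (he c0).2.1⟩,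
      ?_, q6.symm, ?_, ?_, (he c0).2.2.symm, ?_, ?_, ?_, ?_, ?_, ?_⟩
    · intro h; apply q3; rw [← h]; simp
    · intro h; apply q1; rw [h]; simp
    · intro h; apply q7; rw [h]; simp
    · intro h; apply q4; rw [h]; simp
    · simpa using q8
    · intro h; apply q11; simp only; rw [h]; simp
    · intro h; apply q2; rw [← h]; simp
    · intro h; exact q9 (p23.injective h)
    · intro h; exact q10 (p24.injective h).symm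
    · intro h; apply q12; simp only; rw [← h]; simp
  rcases core (fun i => p23.symm (p13 (p12.symm i))) (fun i => p23.symm (p34.symm (p24 i)))
    (p23.symm.injective.comp (p13.injective.comp p12.symm.injective))
    (p23.symm.injective.comp (p34.symm.injective.comp p24.injective)) a2 (p02 s)
    (p23.symm (p03 s)) (p12 (p01 s)) (p12 (p15.symm (e s))) (p24.symm a4) (p24.symm (p04 s))
    (p02 t) (p23.symm (p03 t)) (p12 (p01 t)) (p12 (p15.symm (e t))) (p24.symm a4)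
    (p24.symm (p04 t)) (fun h => h1.ne (p02.injective h))
    (fun h => h1.ne (p03.injective (p23.symm.injective h))) with h | h
  · exact key s h2 h3 h
  · exact key t h4 h5 h

lemma ext_perm (R : Fin 4 → Fin 4 → Prop) (h1 : ∀ i j k, R i j → R i k → j = k)
    (h2 : ∀ i j k, R j i → R k i → j = k) : ∃ σ : Equiv.Perm (Fin 4), ∀ i j, R i j → σ i = j := by
  have hf : Function.Injective (fun p : {p : Fin 4 × Fin 4 // R p.1 p.2} => p.1.1) := by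
    rintro ⟨⟨a, b⟩, h⟩ ⟨⟨c, d⟩, k⟩ e
    simp only at e h k
    subst e
    have := h1 _ _ _ h k
    subst this; rfl
  have hg : Function.Injective (fun p : {p : Fin 4 × Fin 4 // R p.1 p.2} => p.1.2) := by
    rintro ⟨⟨a, b⟩, h⟩ ⟨⟨c, d⟩, k⟩ e
    simp only at e h k
    subst e
    have := h2 _ _ _ h k
    subst this; rfl
  obtain ⟨σ, hσ⟩ := Equiv.Perm.exists_extending_pair _ _ hf hg
  exact ⟨σ, fun i j h => hσ ⟨(i, j), h⟩⟩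

end Pool.Agent.H13.DPCore
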