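import Pool.Agent.H13.DPCore

set_option autoImplicit false

/-! A graph that is (4,1)-DP-colourable and not (8,2)-DP-colourable. -/

namespace Pool.Agent.H13.DPMain

open Pool.Agent.H13.DPCore

/-- edges of the gadget -/
def E (u v : Fin 6) : Prop :=
  (u.1, v.1) ∈ [(0,1),(0,2),(0,3),(0,4),(0,5),(1,2),(1,3),(1,5),(2,3),(2,4),(3,4),
    (1,0),(2,0),(3,0),(4,0),(5,0),(2,1),(3,1),(5,1),(3,2),(4,2),(4,3)]

instance (u v : Fin 6) : Decidable (E u v) := by unfold E; infer_instance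

lemma E_symm : ∀ u v : Fin 6, E u v → E v u := by decide
lemma E_irr : ∀ u : Fin 6, ¬ E u u := by decide

/-- neighbours of the two apex vertices -/
def D (s : Bool) (v : Fin 6) : Prop := v = 0 ∨ v = 5 ∨ (s = true ∧ (v = 2 ∨ v = 4))

abbrev C := Bool → Fin 8 × Fin 8
abbrev V := Bool ⊕ (C × Fin 6)

def adj : V → V → Prop
  | .inl _, .inl _ => False
  | .inl s, .inr p => D s p.2
  | .inr p, .inl s => D s p.2
  | .inr p, .inr q => p.1 = q.1 ∧ E p.2 q.2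

def G : SimpleGraph V where
  Adj := adj
  symm := ⟨by
    rintro (s | p) (t | q) h
    · exact h
    · exact h
    · exact h
    · exact ⟨h.1.symm, E_symm _ _ h.2⟩⟩
  loopless := ⟨by
    rintro (s | p) h
    · exact h
    · exact E_irr _ h.2⟩

theorem pos (H : SimpleGraph (V × Fin 4))
    (h1 : ∀ x y : V × Fin 4, H.Adj x y → G.Adj x.1 y.1)
    (h2 : ∀ (x : V × Fin 4) (v : V) (j k : Fin 4), H.Adj x (v, j) → H.Adj x (v, k) → j = k) :
    ∃ f : V → Finset (Fin 4), (∀ v, (f v).card = 1) ∧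
      ∀ (u v : V), ∀ i ∈ f u, ∀ j ∈ f v, ¬ H.Adj (u, i) (v, j) := by
  have hp : ∀ u v : V, ∃ σ : Equiv.Perm (Fin 4), ∀ i j, H.Adj (u, i) (v, j) → σ i = j :=
    fun u v => ext_perm (fun i j => H.Adj (u, i) (v, j)) (fun i j k a b => h2 _ _ _ _ a b)
      (fun i j k a b => h2 _ _ _ _ a.symm b.symm)
  choose σ hσ using hp
  have hc : ∀ c : C, ∃ g : Fin 6 → Fin 4,
      (∀ s v, D s v → ¬ H.Adj (.inl s, 0) (.inr (c, v), g v)) ∧
      ∀ u v, E u v → ¬ H.Adj (.inr (c, u), g u) (.inr (c, v), g v) := by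
    intro c
    obtain ⟨c0, c1, c2, c3, c4, c5, ⟨a1, a2, a3, a4, a5, a6⟩, b1, b2, b3, b4, b5, b6, b7, b8, b9,
      b10, b11⟩ := gadget (σ (.inr (c, 0)) (.inr (c, 1))) (σ (.inr (c, 0)) (.inr (c, 2)))
      (σ (.inr (c, 0)) (.inr (c, 3))) (σ (.inr (c, 0)) (.inr (c, 4)))
      (σ (.inr (c, 0)) (.inr (c, 5))) (σ (.inr (c, 1)) (.inr (c, 2)))
      (σ (.inr (c, 1)) (.inr (c, 3))) (σ (.inr (c, 1)) (.inr (c, 5)))
      (σ (.inr (c, 2)) (.inr (c, 3))) (σ (.inr (c, 2)) (.inr (c, 4)))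
      (σ (.inr (c, 3)) (.inr (c, 4)))
      (σ (.inl true) (.inr (c, 0)) 0) (σ (.inl false) (.inr (c, 0)) 0)
      (σ (.inl true) (.inr (c, 2)) 0) (σ (.inl true) (.inr (c, 4)) 0)
      (σ (.inl true) (.inr (c, 5)) 0) (σ (.inl false) (.inr (c, 5)) 0)
    refine ⟨![c0, c1, c2, c3, c4, c5], ?_, ?_⟩
    · intro s v hD hA
      have := hσ _ _ _ _ hA
      rcases hD with rfl | rfl | ⟨rfl, rfl | rfl⟩
      · cases s
        · exact a2 this.symm
        · exact a1 this.symm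
      · cases s
        · exact a6 this.symm
        · exact a5 this.symm
      · exact a3 this.symm
      · exact a4 this.symm
    · intro u v hE hA
      have e1 := hσ _ _ _ _ hA
      have e2 := hσ _ _ _ _ hA.symm
      fin_cases u <;> fin_cases v <;>
        first
        | exact absurd hE (by decide)
        | exact b1 e1 | exact b2 e1 | exact b3 e1 | exact b4 e1 | exact b5 e1 | exact b6 e1
        | exact b7 e1 | exact b8 e1 | exact b9 e1 | exact b10 e1 | exact b11 e1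
        | exact b1 e2 | exact b2 e2 | exact b3 e2 | exact b4 e2 | exact b5 e2 | exact b6 e2
        | exact b7 e2 | exact b8 e2 | exact b9 e2 | exact b10 e2 | exact b11 e2
  choose g hg using hc
  refine ⟨fun v => {Sum.elim (fun _ => 0) (fun p => g p.1 p.2) v}, fun v => by simp, ?_⟩
  rintro (s | ⟨c, u⟩) (t | ⟨d, v⟩) i hi j hj hA <;>
    simp only [Finset.mem_singleton, Sum.elim_inl, Sum.elim_inr] at hi hj <;> subst hi hj
  · exact h1 _ _ hA
  · exact (hg d).1 s v (h1 _ _ hA) hA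
  · exact (hg c).1 t u (h1 _ _ hA) hA.symm
  · obtain ⟨e, hE⟩ := h1 _ _ hA
    simp only at e hE
    subst e
    exact (hg c).2 u v hE hA

def tab : ℕ := 33286586472725913198486633524716756799282292180617100600867869555702875017120059558688674824126522301927936144459570059188153794333966892467218665187695840603754647573173708627240220566927149542975138042614078040457552708692344832

/-- matchings of the bad cover -/
def M (u v : Fin 6) (i j : Fin 8) : Prop := E u v ∧ (tab >>> (3 * ((u.1 * 6 + v.1) * 8 + i.1))) % 8 = j.1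

instance (u v : Fin 6) (i j : Fin 8) : Decidable (M u v i j) := by unfold M; infer_instance

lemma M_symm : ∀ (u v : Fin 6) (i j : Fin 8), M u v i j → M v u j i := by decide +kernel

def lo (s : Bool) : Fin 8 := if s then 6 else 4
def hi (s : Bool) : Fin 8 := if s then 7 else 5

def N (s : Bool) (i : Fin 8) (p : C × Fin 6) (j : Fin 8) : Prop :=
  D s p.2 ∧ (p.1 s).1 ≠ (p.1 s).2 ∧ ((i = (p.1 s).1 ∧ j = lo s) ∨ (i = (p.1 s).2 ∧ j = hi s))

def hadj : V × Fin 8 → V × Fin 8 → Prop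
  | (.inl _, _), (.inl _, _) => False
  | (.inl s, i), (.inr p, j) => N s i p j
  | (.inr p, j), (.inl s, i) => N s i p j
  | (.inr p, i), (.inr q, j) => p.1 = q.1 ∧ M p.2 q.2 i j

def H8 : SimpleGraph (V × Fin 8) where
  Adj := hadj
  symm := ⟨by
    rintro ⟨s | p, i⟩ ⟨t | q, j⟩ h
    · exact h
    · exact h
    · exact h
    · exact ⟨h.1.symm, M_symm _ _ _ _ h.2⟩⟩
  loopless := ⟨by
    rintro ⟨s | p, i⟩ h
    · exact h
    · exact E_irr _ h.2.1⟩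

def Ok (u v : Fin 6) (a b c d : Fin 8) : Prop :=
  ¬ M u v a c ∧ ¬ M u v a d ∧ ¬ M u v b c ∧ ¬ M u v b d

instance (u v : Fin 6) (a b c d : Fin 8) : Decidable (Ok u v a b c d) := by
  unfold Ok; infer_instance

def Last (a0 b0 a1 b1 a2 b2 a3 b3 : Fin 8) : Prop :=
  ∀ b4 : Fin 8, b4 < 6 → ∀ a4 : Fin 8, a4 < b4 → Ok 0 4 a0 b0 a4 b4 → Ok 2 4 a2 b2 a4 b4 →
    Ok 3 4 a3 b3 a4 b4 → ∀ b5 : Fin 8, b5 < 4 → ∀ a5 : Fin 8, a5 < b5 → Ok 0 5 a0 b0 a5 b5 →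
    ¬ Ok 1 5 a1 b1 a5 b5

instance (a0 b0 a1 b1 a2 b2 a3 b3 : Fin 8) : Decidable (Last a0 b0 a1 b1 a2 b2 a3 b3) := by
  unfold Last; infer_instance

def Mid (a0 b0 a1 b1 : Fin 8) : Prop :=
  ∀ b2 : Fin 8, b2 < 6 → ∀ a2 : Fin 8, a2 < b2 → Ok 0 2 a0 b0 a2 b2 → Ok 1 2 a1 b1 a2 b2 →
    ∀ b3 a3 : Fin 8, a3 < b3 → Ok 0 3 a0 b0 a3 b3 → Ok 1 3 a1 b1 a3 b3 → Ok 2 3 a2 b2 a3 b3 →
    Last a0 b0 a1 b1 a2 b2 a3 b3

instance (a0 b0 a1 b1 : Fin 8) : Decidable (Mid a0 b0 a1 b1) := by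
  unfold Mid; infer_instance

lemma search : ∀ b0 : Fin 8, b0 < 4 → ∀ a0 : Fin 8, a0 < b0 → ∀ b1 a1 : Fin 8, a1 < b1 →
    Ok 0 1 a0 b0 a1 b1 → Mid a0 b0 a1 b1 := by
  decide +kernel

lemma pick (S : Finset (Fin 8)) (h : S.card = 2) : ∃ a b, a < b ∧ a ∈ S ∧ b ∈ S := by
  obtain ⟨x, y, hne, rfl⟩ := Finset.card_eq_two.mp h
  rcases lt_or_gt_of_ne hne with e | e
  · exact ⟨x, y, e, by simp, by simp⟩
  · exact ⟨y, x, e, by simp, by simp⟩

lemma lt6 : ∀ b : Fin 8, b ≠ 6 → b ≠ 7 → b < 6 := by decide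
lemma lt4 : ∀ b : Fin 8, b ≠ 4 → b ≠ 5 → b < 6 → b < 4 := by decide

theorem neg : ¬ ∃ f : V → Finset (Fin 8), (∀ v, (f v).card = 2) ∧
      ∀ (u v : V), ∀ i ∈ f u, ∀ j ∈ f v, ¬ H8.Adj (u, i) (v, j) := by
  rintro ⟨f, hf, hI⟩
  choose a b hab ha hb using fun v => pick (f v) (hf v)
  let c : C := fun s => (a (.inl s), b (.inl s))
  have hN : ∀ s v, D s v → b (.inr (c, v)) ≠ lo s ∧ b (.inr (c, v)) ≠ hi s := by
    intro s v hD
    exact ⟨fun e => hI (.inl s) (.inr (c, v)) _ (ha _) _ (hb _)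
        ⟨hD, (hab _).ne, Or.inl ⟨rfl, e⟩⟩,
      fun e => hI (.inl s) (.inr (c, v)) _ (hb _) _ (hb _) ⟨hD, (hab _).ne, Or.inr ⟨rfl, e⟩⟩⟩
  have h6 : ∀ v, D true v → b (.inr (c, v)) < 6 := fun v h => lt6 _ (hN _ _ h).1 (hN _ _ h).2
  have h4 : ∀ v, D true v → D false v → b (.inr (c, v)) < 4 :=
    fun v h k => lt4 _ (hN _ _ k).1 (hN _ _ k).2 (h6 v h)
  have ok : ∀ u v, Ok u v (a (.inr (c, u))) (b (.inr (c, u))) (a (.inr (c, v))) (b (.inr (c, v))) :=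
    fun u v => ⟨fun e => hI (.inr (c, u)) (.inr (c, v)) _ (ha _) _ (ha _) ⟨rfl, e⟩, fun e => hI (.inr (c, u)) (.inr (c, v)) _ (ha _) _ (hb _) ⟨rfl, e⟩,
      fun e => hI (.inr (c, u)) (.inr (c, v)) _ (hb _) _ (ha _) ⟨rfl, e⟩, fun e => hI (.inr (c, u)) (.inr (c, v)) _ (hb _) _ (hb _) ⟨rfl, e⟩⟩
  exact search _ (h4 0 (by simp [D]) (by simp [D])) _ (hab _) _ _ (hab (.inr (c, 1))) (ok 0 1)
    _ (h6 2 (by simp [D])) _ (hab _) (ok 0 2) (ok 1 2) _ _ (hab (.inr (c, 3))) (ok 0 3) (ok 1 3)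
    (ok 2 3) _ (h6 4 (by simp [D])) _ (hab _) (ok 0 4) (ok 2 4) (ok 3 4)
    _ (h4 5 (by simp [D]) (by simp [D])) _ (hab _) (ok 0 5) (ok 1 5)

theorem cov1 (x y : V × Fin 8) (h : H8.Adj x y) : G.Adj x.1 y.1 := by
  obtain ⟨s | p, i⟩ := x <;> obtain ⟨t | q, j⟩ := y
  · exact h
  · exact h.1
  · exact h.1
  · exact ⟨h.1, h.2.1⟩

theorem cov2 (x : V × Fin 8) (v : V) (j k : Fin 8) (h : H8.Adj x (v, j)) (h' : H8.Adj x (v, k)) :
    j = k := by
  obtain ⟨s | p, i⟩ := x <;> obtain t | q := v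
  · exact h.elim
  · obtain ⟨-, e, h | h⟩ := h <;> obtain ⟨-, -, h' | h'⟩ := h'
    · exact h.2.trans h'.2.symm
    · exact absurd (h.1.symm.trans h'.1) e
    · exact absurd (h'.1.symm.trans h.1) e
    · exact h.2.trans h'.2.symm
  · have lh : lo t ≠ hi t := by cases t <;> decide
    obtain ⟨-, e, h | h⟩ := h <;> obtain ⟨-, -, h' | h'⟩ := h'
    · exact h.1.trans h'.1.symm
    · exact absurd (h.2.symm.trans h'.2) lh
    · exact absurd (h'.2.symm.trans h.2) lh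
    · exact h.1.trans h'.1.symm
  · exact Fin.ext (h.2.2.symm.trans h'.2.2)

end Pool.Agent.H13.DPMain
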