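import Pool.Agent.H81.Maclaurin

/-! Concentration of the cost of permutational walks in weighted automata. -/

namespace Pool.Agent.H13.Dfa
open Finset Pool.Agent.H81.Maclaurin

/-- cost of the walk from `v` reading a word -/
def cost {V α : Type} (δ : V → α → V) (c : V → α → ℕ) : V → List α → ℕ
  | _, [] => 0
  | v, t :: l => c v t + cost δ c (δ v t) l

variable {α : Type} [DecidableEq α]

/-- orderings of length `n` of distinct elements of `R` -/
def ords : ℕ → Finset α → Finset (List α)
  | 0, _ => {[]}
  | n + 1, R => R.biUnion (fun t => (ords n (R.erase t)).image (fun l => t :: l))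

lemma mem_ords (l : List α) (R : Finset α) (h1 : l.Nodup) (h2 : ∀ x ∈ l, x ∈ R) :
    l ∈ ords l.length R := by
  induction l generalizing R with
  | nil => simp [ords]
  | cons t l ih =>
    rw [List.nodup_cons] at h1
    simp only [List.length_cons, ords, mem_biUnion, mem_image]
    refine ⟨t, h2 t (by simp), l, ih _ h1.2 ?_, rfl⟩
    intro x hx
    exact mem_erase.2 ⟨fun e => h1.1 (e ▸ hx), h2 x (by simp [hx])⟩

lemma card_filter_succ (n : ℕ) (R : Finset α) (P : List α → Prop) [DecidablePred P] :
    ((ords (n + 1) R).filter P).card ≤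
      ∑ t ∈ R, ((ords n (R.erase t)).filter (fun l => P (t :: l))).card := by
  rw [ords, filter_biUnion]
  refine card_biUnion_le.trans (sum_le_sum fun t _ => ?_)
  rw [filter_image]
  exact card_image_le

lemma card_ords (n : ℕ) (R : Finset α) (h : R.card = n) : (ords n R).card ≤ n.factorial := by
  induction n generalizing R with
  | zero => simp [ords]
  | succ n ih =>
    have := card_filter_succ n R (fun _ => True)
    simp only [filter_true] at this
    refine this.trans ((sum_le_sum fun t ht => ih _ (by rw [card_erase_of_mem ht, h]; rfl)).trans ?_)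
    simp [h, Nat.factorial_succ]

lemma es_erase (m : ℕ) (R : Finset α) (x : α → ℝ) :
    ∑ t ∈ R, es m (R.erase t) x = ((R.card : ℝ) - m) * es m R x := by
  unfold es
  have : ∀ t ∈ R, ∑ I ∈ (R.erase t).powersetCard m, ∏ i ∈ I, x i =
      ∑ I ∈ R.powersetCard m, if t ∈ R \ I then ∏ i ∈ I, x i else 0 := by
    intro t ht
    rw [← sum_filter]
    apply sum_congr _ fun _ _ => rfl
    ext I
    simp [mem_powersetCard, subset_erase, ht]; tauto
  rw [sum_congr rfl this, sum_comm, mul_sum]
  apply sum_congr rfl; intro I hI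
  rw [mem_powersetCard] at hI
  rw [← sum_filter, filter_mem_eq_inter, inter_eq_right.2 sdiff_subset, sum_const, nsmul_eq_mul,
    cast_card_sdiff hI.1, hI.2]

lemma exp_neg_le (y : ℝ) (h0 : 0 ≤ y) (h1 : y ≤ 1) : Real.exp (-y) ≤ 1 - y + y ^ 2 := by
  have := Real.abs_exp_sub_one_sub_id_le (x := -y) (by rw [abs_neg, abs_of_nonneg h0]; exact h1)
  have := (abs_le.1 this).2
  linarith [neg_sq y]

theorem main {V : Type} [Fintype V] (δ : V → α → V) (c : V → α → ℕ) (k μ θ T : ℝ)
    (hc : ∀ v t, (c v t : ℝ) ≤ k) (hθ : 0 ≤ θ) (hθk : θ * k ≤ 1)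
    (n : ℕ) (R : Finset α) (hR : R.card = n) (v : V) (b : ℝ) :
    (((ords n R).filter (fun l => (cost δ c v l : ℝ) ≤ b)).card : ℝ) ≤
      n.factorial * Real.exp (θ * b - ∑ m ∈ range n, (θ * (μ - T / (m + 1)) - θ ^ 2 * k ^ 2)) +
      ∑ m ∈ range (n + 1), m.factorial * (n - m).factorial *
        ∑ u, Real.exp (-θ * T) * es m R (fun t => Real.exp (-θ * (c u t - μ))) := by
  have esn : ∀ (m : ℕ) (R : Finset α) (u : V),
      0 ≤ Real.exp (-θ * T) * es m R (fun t => Real.exp (-θ * (c u t - μ))) := fun m R u =>
    mul_nonneg (Real.exp_pos _).le (sum_nonneg fun I _ => prod_nonneg fun i _ => (Real.exp_pos _).le)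
  have tn : ∀ (n m : ℕ) (R : Finset α), (0:ℝ) ≤ m.factorial * (n - m).factorial *
      ∑ u, Real.exp (-θ * T) * es m R (fun t => Real.exp (-θ * (c u t - μ))) := fun n m R =>
    mul_nonneg (by positivity) (sum_nonneg fun u _ => esn m R u)
  induction n generalizing R v b with
  | zero =>
    have := sum_nonneg fun m (_ : m ∈ range (0 + 1)) => tn 0 m R
    refine le_trans ?_ (le_add_of_nonneg_right this)
    by_cases hb : 0 ≤ b
    · have h1 : (((ords 0 R).filter (fun l => (cost δ c v l : ℝ) ≤ b)).card : ℝ) ≤ 1 := by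
        exact_mod_cast (card_filter_le _ _).trans (by simp [ords])
      have := Real.one_le_exp (mul_nonneg hθ hb)
      simp; linarith
    · simp [ords, filter_singleton, cost, hb, (Real.exp_pos _).le]
  | succ n ih =>
    rw [sum_range_succ _ (n + 1)]
    by_cases hbad : ∑ t ∈ R, ((c v t : ℝ) - μ) < -T
    · have h1 : (((ords (n + 1) R).filter (fun l => (cost δ c v l : ℝ) ≤ b)).card : ℝ) ≤
          (n + 1).factorial := by
        exact_mod_cast (card_filter_le _ _).trans (card_ords _ R hR)
      have h2 : 1 ≤ ∑ u, Real.exp (-θ * T) * es (n + 1) R (fun t => Real.exp (-θ * (c u t - μ))) := by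
        refine le_trans ?_ (single_le_sum (fun u _ => esn (n + 1) R u) (mem_univ v))
        unfold es
        rw [← hR, powersetCard_self, sum_singleton, ← Real.exp_sum, ← Real.exp_add, ← mul_sum]
        apply Real.one_le_exp
        nlinarith
      have h3 := sum_nonneg fun m (_ : m ∈ range (n + 1)) => tn (n + 1) m R
      have h4 : (0:ℝ) ≤ (n + 1).factorial * Real.exp (θ * b - ∑ m ∈ range (n + 1),
        (θ * (μ - T / (m + 1)) - θ ^ 2 * k ^ 2)) := by positivity
      have h5 := mul_le_mul_of_nonneg_left h2 (Nat.cast_nonneg (α := ℝ) (n + 1).factorial)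
      rw [Nat.sub_self, Nat.factorial_zero, Nat.cast_one, mul_one]
      linarith
    · refine le_trans ?_ (add_le_add_right (le_add_of_nonneg_right (tn (n + 1) (n + 1) R)) _)
      have h1 : (((ords (n + 1) R).filter (fun l => (cost δ c v l : ℝ) ≤ b)).card : ℝ) ≤
          ∑ t ∈ R, (((ords n (R.erase t)).filter
            (fun l => (cost δ c (δ v t) l : ℝ) ≤ b - c v t)).card : ℝ) := by
        have := card_filter_succ n R (fun l => (cost δ c v l : ℝ) ≤ b)
        simp only [cost, Nat.cast_add, ← le_sub_iff_add_le'] at this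
        exact_mod_cast this
      refine h1.trans ((sum_le_sum fun t ht =>
        ih (R.erase t) (by rw [card_erase_of_mem ht, hR]; rfl) (δ v t) (b - c v t)).trans ?_)
      rw [sum_add_distrib]
      apply add_le_add
      · set A := ∑ m ∈ range n, (θ * (μ - T / (m + 1)) - θ ^ 2 * k ^ 2)
        have hn : (0:ℝ) < n + 1 := by positivity
        have e1 : ∑ t ∈ R, Real.exp (-(θ * c v t)) ≤
            (n + 1) * Real.exp (-(θ * (μ - T / (n + 1)) - θ ^ 2 * k ^ 2)) := by
          have a1 : ∑ t ∈ R, Real.exp (-(θ * c v t)) ≤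
              ∑ t ∈ R, (1 - θ * (c v t - μ) - θ * μ + θ ^ 2 * k ^ 2) := by
            apply sum_le_sum; intro t _
            have b0 : 0 ≤ θ * c v t := by positivity
            have b1 : θ * c v t ≤ θ * k := mul_le_mul_of_nonneg_left (hc v t) hθ
            have := exp_neg_le _ b0 (b1.trans hθk)
            nlinarith
          simp only [sum_add_distrib, sum_sub_distrib, ← mul_sum, sum_const, nsmul_eq_mul, hR,
            mul_one] at a1 hbad
          have a2 := Real.add_one_le_exp (-(θ * (μ - T / (n + 1)) - θ ^ 2 * k ^ 2))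
          have a3 := mul_le_mul_of_nonneg_left a2 hn.le
          have a4 : ((n:ℝ) + 1) * (-(θ * (μ - T / (n + 1)) - θ ^ 2 * k ^ 2) + 1) =
            (n + 1) * (1 - θ * μ + θ ^ 2 * k ^ 2) + θ * T := by field_simp; ring
          have a5 := mul_le_mul_of_nonneg_left (not_lt.1 hbad) hθ
          push_cast at a1 a5
          nlinarith
        calc ∑ t ∈ R, (n.factorial : ℝ) * Real.exp (θ * (b - c v t) - A)
            = n.factorial * Real.exp (θ * b - A) * ∑ t ∈ R, Real.exp (-(θ * c v t)) := by
              rw [mul_sum]; apply sum_congr rfl; intro t _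
              rw [mul_assoc, ← Real.exp_add]; congr 2; ring
          _ ≤ n.factorial * Real.exp (θ * b - A) *
              ((n + 1) * Real.exp (-(θ * (μ - T / (n + 1)) - θ ^ 2 * k ^ 2))) :=
              mul_le_mul_of_nonneg_left e1 (by positivity)
          _ = _ := by
              rw [sum_range_succ, Nat.factorial_succ, ← sub_sub, sub_eq_add_neg (θ * b - A),
                Real.exp_add]
              push_cast; ring
      · rw [sum_comm]
        apply le_of_eq
        apply sum_congr rfl; intro m hm
        have hm' : m ≤ n := by simpa [Nat.lt_succ_iff] using hm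
        rw [← mul_sum, sum_comm]
        simp only [← mul_sum, es_erase, hR]
        rw [show n + 1 - m = (n - m) + 1 by omega, Nat.factorial_succ]
        simp only [mul_left_comm _ (((n + 1 : ℕ) : ℝ) - m), ← mul_sum]
        push_cast [hm']; ring

end Pool.Agent.H13.Dfa
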