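import Pool.Agent.H13.DfaA

/-! Asymptotic form of the concentration bound. -/

namespace Pool.Agent.H13.Dfa
open Finset Filter Topology Pool.Agent.H81.Maclaurin

lemma fixed (k : ℕ) (u : ℝ) (hu : 1 ≤ u) (huk : u ^ 10 = k) (hlog : 2 + 10 * Real.log u ≤ u)
    {V : Type} [Fintype V] (hV : Fintype.card V ≤ k ^ 2) (δ : V → Fin k → V) (c : V → Fin k → ℕ)
    (hc : ∀ v t, c v t ≤ k) (hs : ∀ v, ∑ t, (c v t : ℝ) = k * (k + 1) / 2) (v : V) :
    (((ords k univ).filter (fun l => (cost δ c v l : ℝ) ≤ (k : ℝ) ^ 2 / 2 - u ^ 17)).card : ℝ) ≤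
      k.factorial * (3 * u ^ 30 * Real.exp (1 - u)) := by
  have hu0 : 0 < u := by linarith
  have hk1 : (1:ℝ) ≤ k := by rw [← huk]; exact one_le_pow₀ hu
  set θ : ℝ := 1 / u ^ 15 with hθ
  have hθ0 : 0 ≤ θ := by positivity
  have hθk : θ * k ≤ 1 := by
    rw [hθ, ← huk, div_mul_eq_mul_div, one_mul, div_le_one (by positivity)]
    exact pow_le_pow_right₀ hu (by norm_num)
  have t1 : θ ^ 2 * k ^ 2 * k = 1 := by rw [hθ, ← huk]; field_simp
  have t2 : θ * u ^ 16 = u := by rw [hθ]; field_simp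
  have t3 : θ * u ^ 17 = u ^ 2 := by rw [hθ]; field_simp
  have hc' : ∀ v t, (c v t : ℝ) ≤ k := fun v t => by exact_mod_cast hc v t
  refine (main δ c k ((k + 1) / 2) θ (u ^ 16) hc' hθ0 hθk k univ (by simp) v _).trans ?_
  have e1 : θ * ((k : ℝ) ^ 2 / 2 - u ^ 17) -
      ∑ m ∈ range k, (θ * ((k + 1) / 2 - u ^ 16 / (m + 1)) - θ ^ 2 * k ^ 2) ≤ 1 - u := by
    have h1 : ∑ m ∈ range k, (θ * ((k + 1) / 2 - u ^ 16 / (m + 1)) - θ ^ 2 * k ^ 2) =
        θ * (k * (k + 1) / 2) - u * (harmonic k : ℝ) - 1 := by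
      simp only [harmonic, sum_sub_distrib, mul_sub, sum_const, card_range, nsmul_eq_mul]
      push_cast
      have : ∑ x ∈ range k, θ * (u ^ 16 / ((x : ℝ) + 1)) = u * ∑ x ∈ range k, ((x : ℝ) + 1)⁻¹ := by
        rw [mul_sum]; apply sum_congr rfl; intro x _
        rw [div_eq_mul_inv, ← mul_assoc, t2]
      rw [this]
      linear_combination -t1
    have h2 := harmonic_le_one_add_log k
    rw [← huk, Real.log_pow] at h2
    have h3 := mul_le_mul_of_nonneg_left h2 hu0.le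
    have h4 := mul_le_mul_of_nonneg_left hlog hu0.le
    have h5 : 0 ≤ θ * k := by positivity
    push_cast at h3
    rw [h1]
    nlinarith
  have e2 : ∀ m ∈ range (k + 1), (m.factorial : ℝ) * (k - m).factorial *
      ∑ w, Real.exp (-θ * u ^ 16) * es m univ (fun t => Real.exp (-θ * (c w t - (k + 1) / 2))) ≤
      k.factorial * (k ^ 2 * Real.exp (1 - u)) := by
    intro m hm
    have hm' : m ≤ k := by simpa [Nat.lt_succ_iff] using hm
    have a1 : ∀ w, es m univ (fun t => Real.exp (-θ * (c w t - (k + 1) / 2))) ≤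
        k.choose m * Real.exp 1 := by
      intro w
      refine (mac _ _ (fun t _ => (Real.exp_pos _).le) m).trans ?_
      simp only [card_univ, Fintype.card_fin]
      apply mul_le_mul_of_nonneg_left _ (Nat.cast_nonneg _)
      have b1 : ∑ t, Real.exp (-θ * (c w t - (k + 1) / 2)) ≤
          ∑ t, (1 - θ * (c w t - (k + 1) / 2) + θ ^ 2 * k ^ 2) := by
        apply sum_le_sum; intro t _
        have c0 : (0:ℝ) ≤ c w t := Nat.cast_nonneg _
        have c1 := hc' w t
        have c2 : |(c w t : ℝ) - (k + 1) / 2| ≤ k := by rw [abs_le]; constructor <;> linarith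
        have c3 : |-θ * ((c w t : ℝ) - (k + 1) / 2)| ≤ θ * k := by
          rw [abs_mul, abs_neg, abs_of_nonneg hθ0]; exact mul_le_mul_of_nonneg_left c2 hθ0
        have c4 := (abs_le.1 (Real.abs_exp_sub_one_sub_id_le (c3.trans hθk))).2
        have c5 : (-θ * ((c w t : ℝ) - (k + 1) / 2)) ^ 2 ≤ (θ * k) ^ 2 :=
          sq_le_sq' (abs_le.1 c3).1 (abs_le.1 c3).2
        nlinarith
      simp only [sum_add_distrib, sum_sub_distrib, ← mul_sum, sum_const, nsmul_eq_mul, card_univ,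
        Fintype.card_fin, hs] at b1
      have b2 : (∑ t, Real.exp (-θ * (c w t - (k + 1) / 2))) / k ≤ Real.exp (θ ^ 2 * k ^ 2) := by
        rw [div_le_iff₀ (by linarith)]
        have := Real.add_one_le_exp (θ ^ 2 * k ^ 2)
        nlinarith
      refine (pow_le_pow_left₀ (by positivity) b2 m).trans ?_
      rw [← Real.exp_nat_mul, Real.exp_le_exp, ← t1, mul_comm]
      exact mul_le_mul_of_nonneg_left (by exact_mod_cast hm') (by positivity)
    have a2 : ∑ w, Real.exp (-θ * u ^ 16) *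
        es m univ (fun t => Real.exp (-θ * (c w t - (k + 1) / 2))) ≤
        k ^ 2 * (k.choose m * Real.exp (1 - u)) := by
      refine (sum_le_sum fun w _ => mul_le_mul_of_nonneg_left (a1 w) (Real.exp_pos _).le).trans ?_
      rw [sum_const, nsmul_eq_mul, card_univ, neg_mul, t2, sub_eq_add_neg, Real.exp_add]
      have : (Fintype.card V : ℝ) ≤ k ^ 2 := by exact_mod_cast hV
      refine (mul_le_mul_of_nonneg_right this (by positivity)).trans (le_of_eq (by ring))
    refine (mul_le_mul_of_nonneg_left a2 (by positivity)).trans (le_of_eq ?_)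
    rw [← Nat.choose_mul_factorial_mul_factorial hm']
    push_cast; ring
  have e3 := sum_le_sum e2
  rw [sum_const, card_range, nsmul_eq_mul] at e3
  have e4 := mul_le_mul_of_nonneg_left (Real.exp_le_exp.2 e1) (Nat.cast_nonneg (α := ℝ) k.factorial)
  have e5 : 1 + ((k:ℝ) + 1) * k ^ 2 ≤ 3 * u ^ 30 := by
    rw [show u ^ 30 = (u ^ 10) ^ 3 by ring, huk]; nlinarith
  have e6 := mul_le_mul_of_nonneg_right e5
    (show (0:ℝ) ≤ k.factorial * Real.exp (1 - u) by positivity)
  push_cast at e3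
  nlinarith

theorem core (ε : ℝ) (hε : 0 < ε) : ∀ᶠ k : ℕ in atTop, ∀ (V : Type) [Fintype V],
    Fintype.card V ≤ k ^ 2 → ∀ (δ : V → Fin k → V) (c : V → Fin k → ℕ), (∀ v t, c v t ≤ k) →
    (∀ v, ∑ t, (c v t : ℝ) = k * (k + 1) / 2) → ∀ v : V,
    k * (((ords k univ).filter
      (fun l => (cost δ c v l : ℝ) ≤ (k : ℝ) ^ 2 / 2 - (k : ℝ) ^ (1.7 : ℝ))).card : ℝ) ≤
      ε * k.factorial := by
  have hu : Tendsto (fun k : ℕ => (k : ℝ) ^ (0.1 : ℝ)) atTop atTop :=
    (tendsto_rpow_atTop (by norm_num)).comp tendsto_natCast_atTop_atTop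
  have h1 : ∀ᶠ u : ℝ in atTop, 2 + 10 * Real.log u ≤ u := by
    filter_upwards [Real.isLittleO_log_id_atTop.bound (show (0:ℝ) < 1 / 20 by norm_num),
      eventually_ge_atTop 4] with u h h4
    simp only [id, Real.norm_eq_abs] at h
    rw [abs_of_nonneg (by linarith : (0:ℝ) ≤ u)] at h
    linarith [le_abs_self (Real.log u)]
  have h2 : ∀ᶠ u : ℝ in atTop, 3 * Real.exp 1 * (u ^ 40 * Real.exp (-u)) < ε := by
    have := (Real.tendsto_pow_mul_exp_neg_atTop_nhds_zero 40).const_mul (3 * Real.exp 1)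
    rw [mul_zero] at this
    exact this.eventually (gt_mem_nhds hε)
  filter_upwards [hu.eventually h1, hu.eventually h2, hu.eventually (eventually_ge_atTop 1)]
    with k a1 a2 a3 V _ hV δ c hc hs v
  set u := (k : ℝ) ^ (0.1 : ℝ) with hu'
  have hk : (0:ℝ) ≤ k := Nat.cast_nonneg k
  have e10 : u ^ 10 = k := by
    rw [hu', ← Real.rpow_natCast, ← Real.rpow_mul hk]; norm_num
  have e17 : u ^ 17 = (k : ℝ) ^ (1.7 : ℝ) := by
    rw [hu', ← Real.rpow_natCast, ← Real.rpow_mul hk]; norm_num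
  have := fixed k u a3 e10 a1 hV δ c hc hs v
  rw [e17] at this
  refine (mul_le_mul_of_nonneg_left this hk).trans ?_
  have e : (k : ℝ) * (k.factorial * (3 * u ^ 30 * Real.exp (1 - u))) =
      3 * Real.exp 1 * (u ^ 40 * Real.exp (-u)) * k.factorial := by
    rw [sub_eq_add_neg, Real.exp_add]
    nth_rewrite 1 [← e10]; ring
  rw [e]
  exact mul_le_mul_of_nonneg_right a2.le (Nat.cast_nonneg _)

lemma perm_sum {k : ℕ} (π : Fin k → Fin k) (h : Function.Bijective π) :
    ∑ t, (((π t : ℕ) + 1 : ℕ) : ℝ) = k * (k + 1) / 2 := by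
  rw [h.sum_comp (fun t : Fin k => (((t : ℕ) + 1 : ℕ) : ℝ)),
    Fin.sum_univ_eq_sum_range (fun t => ((t + 1 : ℕ) : ℝ))]
  clear h π
  induction k with
  | zero => simp
  | succ k ih => rw [sum_range_succ, ih]; push_cast; ring

end Pool.Agent.H13.Dfa
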