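import Mathlib

set_option autoImplicit false
set_option linter.unusedSectionVars false

namespace Pool.Agent.H13.Disc

open Finset

open Classical in
noncomputable def ind (P : Prop) : ℝ := if P then 1 else 0

lemma ind_pos {P : Prop} (h : P) : ind P = 1 := by simp [ind, h]
lemma ind_neg {P : Prop} (h : ¬ P) : ind P = 0 := by simp [ind, h]
lemma ind_and (P Q : Prop) : ind (P ∧ Q) = ind P * ind Q := by
  by_cases h : P <;> by_cases h' : Q <;> simp [ind, h, h']
lemma ind_not (P : Prop) : ind (¬ P) = 1 - ind P := by by_cases h : P <;> simp [ind, h]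
lemma ind_nonneg (P : Prop) : 0 ≤ ind P := by by_cases h : P <;> simp [ind, h]
lemma ind_le_one (P : Prop) : ind P ≤ 1 := by by_cases h : P <;> simp [ind, h]
lemma ind_congr {P Q : Prop} (h : P ↔ Q) : ind P = ind Q := by rw [propext h]
lemma sum_ind_mul {α : Type} (s : Finset α) (P : α → Prop) [DecidablePred P] (g : α → ℝ) :
    ∑ a ∈ s, ind (P a) * g a = ∑ a ∈ s.filter P, g a := by
  rw [sum_filter]
  exact sum_congr rfl fun a _ => by by_cases h : P a <;> simp [ind, h]

lemma ramsey_defect {α : Type} [DecidableEq α] (bad red : α → α → Prop) [DecidableRel bad]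
    (hb : ∀ x y, bad x y → bad y x) (hr : ∀ x y, red x y ↔ red y x) (β : ℕ) :
    ∀ (s a b : ℕ), a + b = s → ∀ Y : Finset α, (∀ y ∈ Y, #(Y.filter (bad y)) ≤ β) →
      (2 ^ s - 1) * (β + 1) ≤ #Y →
      (∃ Z ⊆ Y, #Z = a ∧ ∀ x ∈ Z, ∀ y ∈ Z, x ≠ y → ¬ bad x y ∧ red x y) ∨
      (∃ Z ⊆ Y, #Z = b ∧ ∀ x ∈ Z, ∀ y ∈ Z, x ≠ y → ¬ bad x y ∧ ¬ red x y) := by
  classical
  intro s
  induction s with
  | zero => intro a b h Y _ _; exact Or.inl ⟨∅, by simp, by simp; omega, by simp⟩
  | succ s ih =>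
    intro a b h Y hY hc
    rcases a with _ | a
    · exact Or.inl ⟨∅, by simp, by simp, by simp⟩
    rcases b with _ | b
    · exact Or.inr ⟨∅, by simp, by simp, by simp⟩
    obtain ⟨u, hu⟩ : ∃ u, 2 ^ s = u + 1 := ⟨2 ^ s - 1, by have := Nat.one_le_two_pow (n := s); omega⟩
    have e1 : (2 ^ (s + 1) - 1) * (β + 1) = 2 * (u * (β + 1)) + β + 1 := by
      rw [pow_succ, hu, show (u + 1) * 2 - 1 = 2 * u + 1 by omega]; ring
    rw [hu, Nat.add_sub_cancel] at ih
    obtain ⟨y, hy⟩ : Y.Nonempty := card_pos.1 (by omega)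
    let Y' := (Y.erase y).filter (fun z => ¬ bad y z)
    have h1 : 2 * (u * (β + 1)) ≤ #Y' := by
      have a1 := card_filter_add_card_filter_not (s := Y.erase y) (bad y)
      have a2 := card_erase_add_one hy
      have a3 := (card_le_card (filter_subset_filter (bad y) (erase_subset y Y))).trans (hY y hy)
      simp only [Y']; omega
    have hsub : ∀ q : α → Prop, ∀ [DecidablePred q], Y'.filter q ⊆ Y := fun q _ =>
      (filter_subset _ _).trans ((filter_subset _ _).trans (erase_subset _ _))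
    have hdeg : ∀ q : α → Prop, ∀ [DecidablePred q], ∀ z ∈ Y'.filter q,
        #((Y'.filter q).filter (bad z)) ≤ β := fun q _ z hz =>
      (card_le_card (filter_subset_filter _ (hsub q))).trans (hY z (hsub q hz))
    have ext : ∀ (q : α → α → Prop) [DecidablePred (q y)], (∀ x y, q x y ↔ q y x) →
        ∀ Z ⊆ Y'.filter (q y),
        (∀ x ∈ Z, ∀ y ∈ Z, x ≠ y → ¬ bad x y ∧ q x y) → insert y Z ⊆ Y ∧ #(insert y Z) = #Z + 1 ∧
          ∀ x ∈ insert y Z, ∀ w ∈ insert y Z, x ≠ w → ¬ bad x w ∧ q x w := by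
      intro q _ hq Z hZ h2
      have h3 : ∀ z ∈ Z, z ≠ y ∧ ¬ bad y z ∧ q y z := fun z hz => by
        have := hZ hz
        simp only [Y', mem_filter, mem_erase] at this
        tauto
      refine ⟨insert_subset hy (hZ.trans (hsub _)), card_insert_of_notMem fun h => (h3 y h).1 rfl, ?_⟩
      intro x hx w hw hxw
      rcases mem_insert.1 hx with rfl | hx' <;> rcases mem_insert.1 hw with rfl | hw'
      · exact absurd rfl hxw
      · exact (h3 w hw').2
      · exact ⟨fun h => (h3 x hx').2.1 (hb _ _ h), (hq _ _).1 (h3 x hx').2.2⟩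
      · exact h2 x hx' w hw' hxw
    have h2 := card_filter_add_card_filter_not (s := Y') (red y)
    rcases le_or_gt (u * (β + 1)) #(Y'.filter (red y)) with h3 | h3
    · rcases ih a (b + 1) (by omega) _ (hdeg _) h3 with ⟨Z, z1, z2, z3⟩ | ⟨Z, z1, z2, z3⟩
      · obtain ⟨k1, k2, k3⟩ := ext red hr Z z1 z3
        exact Or.inl ⟨_, k1, by omega, k3⟩
      · exact Or.inr ⟨Z, z1.trans (hsub _), z2, z3⟩
    · rcases ih (a + 1) b (by omega) (Y'.filter (fun z => ¬ red y z)) (hdeg _) (by omega) with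
        ⟨Z, z1, z2, z3⟩ | ⟨Z, z1, z2, z3⟩
      · exact Or.inl ⟨Z, z1.trans (hsub _), z2, z3⟩
      · obtain ⟨k1, k2, k3⟩ := ext (fun x y => ¬ red x y) (fun x y => not_congr (hr x y)) Z z1 z3
        exact Or.inr ⟨_, k1, by omega, k3⟩

def Reg {V : Type} (R : V → V → Prop) (ε : ℝ) (S T : Finset V) (p : ℝ) : Prop :=
  ∀ A ⊆ S, ∀ B ⊆ T, |∑ a ∈ A, ∑ b ∈ B, (ind (R a b) - p)| ≤ ε * #S * #T

lemma Reg.not {V : Type} {R : V → V → Prop} {ε : ℝ} {S T : Finset V} {p : ℝ} (h : Reg R ε S T p) :
    Reg (fun a b => ¬ R a b) ε S T (1 - p) := by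
  intro A hA B hB
  have := h A hA B hB
  rw [← abs_neg, ← sum_neg_distrib] at this
  refine le_trans (le_of_eq ?_) this
  congr 1
  refine sum_congr rfl fun a _ => ?_
  rw [← sum_neg_distrib]
  exact sum_congr rfl fun b _ => by rw [ind_not]; ring

lemma reg_of_uniform {V : Type} [DecidableEq V] (G : SimpleGraph V) [DecidableRel G.Adj] {ε : ℝ}
    (hε : 0 < ε) {S T : Finset V} (h : G.IsUniform ε S T) :
    Reg G.Adj ε S T (G.edgeDensity S T) := by
  intro A hA B hB
  have e : ∑ a ∈ A, ∑ b ∈ B, (ind (G.Adj a b) - (G.edgeDensity S T : ℝ)) =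
      #A * #B * ((G.edgeDensity A B : ℝ) - G.edgeDensity S T) := by
    have : ∑ a ∈ A, ∑ b ∈ B, ind (G.Adj a b) = #(G.interedges A B) := by
      rw [SimpleGraph.interedges_def, card_filter, sum_product]
      push_cast
      exact sum_congr rfl fun a _ => sum_congr rfl fun b _ => by
        by_cases h : G.Adj a b <;> simp [ind, h]
    simp only [sum_sub_distrib, this, sum_const, nsmul_eq_mul]
    rw [SimpleGraph.edgeDensity_def G A B]
    push_cast
    rcases eq_or_ne ((#A : ℝ) * #B) 0 with h0 | h0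
    · have : #(G.interedges A B) ≤ #A * #B := G.card_interedges_le_mul A B
      have h1 : (#(G.interedges A B) : ℝ) ≤ #A * #B := by exact_mod_cast this
      have h2 : (#(G.interedges A B) : ℝ) = 0 := le_antisymm (h0 ▸ h1) (by positivity)
      rw [← mul_assoc, h0, h2]; simp
    · rw [mul_sub, mul_div_cancel₀ _ h0, mul_assoc]
  rw [e, abs_mul, abs_of_nonneg (by positivity)]
  have a1 : (#A : ℝ) ≤ #S := by exact_mod_cast card_le_card hA
  have a2 : (#B : ℝ) ≤ #T := by exact_mod_cast card_le_card hB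
  have d : |(G.edgeDensity A B : ℝ) - G.edgeDensity S T| ≤ 1 := by
    have b1 : (0 : ℝ) ≤ G.edgeDensity A B := by exact_mod_cast G.edgeDensity_nonneg A B
    have b2 : (0 : ℝ) ≤ G.edgeDensity S T := by exact_mod_cast G.edgeDensity_nonneg S T
    have b3 : (G.edgeDensity A B : ℝ) ≤ 1 := by exact_mod_cast G.edgeDensity_le_one A B
    have b4 : (G.edgeDensity S T : ℝ) ≤ 1 := by exact_mod_cast G.edgeDensity_le_one S T
    rw [abs_le]; constructor <;> linarith
  by_cases h1 : (#S : ℝ) * ε ≤ #A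
  · by_cases h2 : (#T : ℝ) * ε ≤ #B
    · calc _ ≤ (#S : ℝ) * #T * ε := by gcongr; exact (h hA hB h1 h2).le
        _ = _ := by ring
    · calc _ ≤ (#S : ℝ) * (#T * ε) * 1 := by gcongr; exact (not_le.1 h2).le
        _ = _ := by ring
  · calc _ ≤ (#S : ℝ) * ε * #T * 1 := by gcongr; exact (not_le.1 h1).le
      _ = _ := by ring

lemma find_parts (v : ℕ) (ε : ℝ) (hε : 0 < ε) : ∃ K : ℕ, 0 < K ∧ ∀ (V : Type) [Fintype V]
    (G : SimpleGraph V), K ≤ Fintype.card V → ∃ (S : Fin v → Finset V) (p : Fin v → Fin v → ℝ),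
      (∀ i j, i ≠ j → Disjoint (S i) (S j)) ∧ (∀ i, Fintype.card V ≤ K * #(S i)) ∧
      (∀ i j, i ≠ j → Reg G.Adj ε (S i) (S j) (p i j)) ∧ (∀ i j, 0 ≤ p i j ∧ p i j ≤ 1) ∧
      ((∀ i j, i ≠ j → 1 / 2 ≤ p i j) ∨ (∀ i j, i ≠ j → p i j ≤ 1 / 2)) := by
  classical
  set δ : ℝ := min ε (1 / (8 * 4 ^ v)) with hδ
  have hδ0 : 0 < δ := lt_min hε (by positivity)
  have hb := SzemerediRegularity.bound_pos δ (4 * 4 ^ v)
  have hl := SzemerediRegularity.le_bound δ (4 * 4 ^ v)
  refine ⟨2 * SzemerediRegularity.bound δ (4 * 4 ^ v), by omega, fun V _ G hV => ?_⟩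
  obtain ⟨P, h1, h2, h3, h4⟩ := szemeredi_regularity G hδ0 (l := 4 * 4 ^ v) (by omega)
  set k := #P.parts with hk
  let bad : Finset V → Finset V → Prop := fun U W => U ≠ W ∧ ¬ G.IsUniform δ U W
  let β := k / (4 * 4 ^ v)
  let Y := P.parts.filter (fun U => #(P.parts.filter (bad U)) ≤ β)
  have hβ : k < 4 * 4 ^ v * (β + 1) := Nat.lt_mul_div_succ _ (by positivity)
  have hβ2 : 4 * 4 ^ v * β ≤ k := Nat.mul_div_le _ _
  have hY : k ≤ 2 * #Y := by
    have a1 := card_filter_add_card_filter_not (s := P.parts)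
      (fun U => #(P.parts.filter (bad U)) ≤ β)
    have a2 : #(P.parts.filter (fun U => ¬ #(P.parts.filter (bad U)) ≤ β)) * (β + 1) ≤
        #(P.nonUniforms G δ) := by
      calc _ ≤ ∑ U ∈ P.parts.filter (fun U => ¬ #(P.parts.filter (bad U)) ≤ β),
            #(P.parts.filter (bad U)) := by
            rw [← smul_eq_mul]
            exact card_nsmul_le_sum _ _ _ fun U hU => by have := (mem_filter.1 hU).2; omega
        _ ≤ ∑ U ∈ P.parts, #(P.parts.filter (bad U)) := sum_le_sum_of_subset (filter_subset _ _)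
        _ ≤ _ := by
            rw [← card_sigma]
            refine card_le_card_of_injOn (fun x => (x.1, x.2)) ?_ ?_
            · rintro ⟨U, W⟩ h
              simp only [coe_sigma, Set.mem_sigma_iff, mem_coe, mem_filter, bad] at h
              simp only [mem_coe, Finpartition.mk_mem_nonUniforms]
              tauto
            · rintro ⟨U, W⟩ _ ⟨U', W'⟩ _ h
              simp only [Prod.mk.injEq] at h
              obtain ⟨rfl, rfl⟩ := h
              rfl
    have a3 : 8 * 4 ^ v * #(P.nonUniforms G δ) ≤ k * k := by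
      have b1 : (#(P.nonUniforms G δ) : ℝ) ≤ (k * k : ℕ) * (1 / (8 * 4 ^ v)) :=
        h4.trans (mul_le_mul (Nat.cast_le.2 (Nat.mul_le_mul_left _ (Nat.sub_le _ _)))
          (min_le_right _ _) hδ0.le (by positivity))
      rw [mul_one_div, le_div_iff₀ (by positivity)] at b1
      rw [mul_comm]; exact_mod_cast b1
    simp only [Y]
    by_contra hc
    have a4 : k + 1 ≤ 2 * #(P.parts.filter (fun U => ¬ #(P.parts.filter (bad U)) ≤ β)) := by omega
    generalize #(P.parts.filter (fun U => ¬ #(P.parts.filter (bad U)) ≤ β)) = x at *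
    nlinarith
  have hR := ramsey_defect bad (fun U W => (1 / 2 : ℝ) ≤ G.edgeDensity U W)
    (fun x y h => ⟨h.1.symm, fun h' => h.2 h'.symm⟩) (fun x y => by rw [G.edgeDensity_comm])
    β (v + v) v v rfl Y (fun y hy => (card_le_card (filter_subset_filter _ (filter_subset _ _))).trans
      (mem_filter.1 hy).2) (by
      have : 2 ^ (v + v) = 4 ^ v := by rw [← two_mul, pow_mul]; norm_num
      rw [this]
      have := Nat.mul_le_mul_right (β + 1) (Nat.sub_le (4 ^ v) 1)
      nlinarith)
  have fin : ∀ Z ⊆ Y, #Z = v → (∀ x ∈ Z, ∀ y ∈ Z, x ≠ y → ¬ bad x y) →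
      ∃ S : Fin v → Finset V, (∀ i, S i ∈ Z) ∧ Function.Injective S ∧
      (∀ i j, i ≠ j → Disjoint (S i) (S j)) ∧
      (∀ i, Fintype.card V ≤ 2 * SzemerediRegularity.bound δ (4 * 4 ^ v) * #(S i)) ∧
      (∀ i j, i ≠ j → Reg G.Adj ε (S i) (S j) (G.edgeDensity (S i) (S j))) := by
    intro Z z1 z2 z3
    let e := (Z.equivFinOfCardEq z2).symm
    have inj : Function.Injective (fun i => (e i).1) := Subtype.val_injective.comp e.injective
    have hm : ∀ i, (e i).1 ∈ P.parts := fun i => (mem_filter.1 (z1 (e i).2)).1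
    refine ⟨fun i => (e i).1, fun i => (e i).2, inj,
      fun i j h => P.disjoint (hm i) (hm j) (inj.ne h), fun i => ?_, fun i j h => ?_⟩
    · have b1 := h1.average_le_card_part (hm i)
      rw [card_univ, ← hk] at b1
      have b2 : Fintype.card V < k * (Fintype.card V / k + 1) := Nat.lt_mul_div_succ _ (by
        have : 0 < 4 ^ v := by positivity
        omega)
      have b3 := card_pos.2 (P.nonempty_of_mem_parts (hm i))
      nlinarith
    · refine reg_of_uniform G hε (SimpleGraph.IsUniform.mono (ε := δ) (min_le_left _ _) ?_)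
      by_contra hc
      exact z3 _ (e i).2 _ (e j).2 (inj.ne h) ⟨inj.ne h, hc⟩
  have hp : ∀ U W : Finset V, (0 : ℝ) ≤ G.edgeDensity U W ∧ (G.edgeDensity U W : ℝ) ≤ 1 :=
    fun U W => ⟨by exact_mod_cast G.edgeDensity_nonneg U W, by exact_mod_cast G.edgeDensity_le_one U W⟩
  rcases hR with ⟨Z, z1, z2, z3⟩ | ⟨Z, z1, z2, z3⟩
  · obtain ⟨S, s1, s2, s3, s4, s5⟩ := fin Z z1 z2 fun x hx y hy h => (z3 x hx y hy h).1
    exact ⟨S, fun i j => G.edgeDensity (S i) (S j), s3, s4, s5, fun i j => hp _ _,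
      Or.inl fun i j h => (z3 _ (s1 i) _ (s1 j) (s2.ne h)).2⟩
  · obtain ⟨S, s1, s2, s3, s4, s5⟩ := fin Z z1 z2 fun x hx y hy h => (z3 x hx y hy h).1
    exact ⟨S, fun i j => G.edgeDensity (S i) (S j), s3, s4, s5, fun i j => hp _ _,
      Or.inr fun i j h => (not_le.1 (z3 _ (s1 i) _ (s1 j) (s2.ne h)).2).le⟩

section counting
variable {V I : Type} [Fintype I] [DecidableEq I] [DecidableEq V]

lemma resample (S : I → Finset V) (i : I) (F : (I → V) → ℝ) :
    ∑ f ∈ Fintype.piFinset S, ∑ a ∈ S i, F (Function.update f i a) =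
      #(S i) * ∑ f ∈ Fintype.piFinset S, F f := by
  have : #(S i) * ∑ f ∈ Fintype.piFinset S, F f = ∑ f ∈ Fintype.piFinset S, ∑ a ∈ S i, F f := by
    simp [mul_sum]
  rw [this, ← sum_product', ← sum_product']
  refine sum_bij' (fun p _ => (Function.update p.1 i p.2, p.1 i))
    (fun p _ => (Function.update p.1 i p.2, p.1 i)) ?_ ?_ ?_ ?_ ?_
  any_goals
    rintro ⟨f, a⟩ h
    simp only [mem_product, Fintype.mem_piFinset] at h ⊢
  · refine ⟨fun j => ?_, h.1 i⟩
    by_cases hj : j = i
    · subst hj; simpa using h.2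
    · simpa [hj] using h.1 j
  · refine ⟨fun j => ?_, h.1 i⟩
    by_cases hj : j = i
    · subst hj; simpa using h.2
    · simpa [hj] using h.1 j
  · simp
  · simp

lemma counting [LinearOrder I] (S : I → Finset V) (hS : ∀ i, 0 < #(S i)) (R : I × I → V → V → Prop)
    (q : I × I → ℝ) (hq : ∀ e, 0 ≤ q e ∧ q e ≤ 1) (ε : ℝ) (E : Finset (I × I))
    (hE : ∀ e ∈ E, e.1 < e.2 ∧ Reg (R e) ε (S e.1) (S e.2) (q e)) :
    |∑ f ∈ Fintype.piFinset S, ind (∀ e ∈ E, R e (f e.1) (f e.2)) -
      (∏ e ∈ E, q e) * #(Fintype.piFinset S)| ≤ #E * ε * #(Fintype.piFinset S) := by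
  classical
  induction E using Finset.induction_on with
  | empty => simp [ind]
  | insert e E he ih =>
    have ih := ih fun e' h => hE e' (mem_insert_of_mem h)
    obtain ⟨hlt, hreg⟩ := hE e (mem_insert_self _ _)
    obtain ⟨i, j⟩ := e
    simp only at hlt hreg
    have hij : i ≠ j := hlt.ne
    have key : |∑ f ∈ Fintype.piFinset S, ind (∀ e ∈ E, R e (f e.1) (f e.2)) *
        (ind (R (i, j) (f i) (f j)) - q (i, j))| ≤ ε * #(Fintype.piFinset S) := by
      have p1 : (0 : ℝ) < #(S i) := by exact_mod_cast hS i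
      have p2 : (0 : ℝ) < #(S j) := by exact_mod_cast hS j
      apply le_of_mul_le_mul_left _ (mul_pos p1 p2)
      rw [← abs_of_pos (mul_pos p1 p2), ← abs_mul, abs_of_pos (mul_pos p1 p2), mul_assoc,
        ← resample S j, ← resample S i]
      refine (abs_sum_le_sum_abs _ _).trans ?_
      rw [show (#(S i) : ℝ) * #(S j) * (ε * #(Fintype.piFinset S)) =
        ∑ f ∈ Fintype.piFinset S, ε * #(S i) * #(S j) by simp; ring]
      refine sum_le_sum fun f _ => le_trans (le_of_eq ?_) (hreg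
        ((S i).filter fun a => ∀ e ∈ E, e.1 ≠ j ∧ e.2 ≠ j →
          R e (Function.update f i a e.1) (Function.update f i a e.2)) (filter_subset _ _)
        ((S j).filter fun b => ∀ e ∈ E, e.1 = j ∨ e.2 = j →
          R e (Function.update f j b e.1) (Function.update f j b e.2)) (filter_subset _ _))
      congr 1
      rw [← sum_ind_mul]
      refine sum_congr rfl fun a _ => ?_
      rw [← sum_ind_mul, mul_sum]
      refine sum_congr rfl fun b _ => ?_
      rw [← mul_assoc, ← ind_and, Function.update_self, Function.update_of_ne hij,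
        Function.update_self]
      congr 1
      apply ind_congr
      have h2 : ∀ e ∈ E, e.1 = j ∨ e.2 = j → e.1 ≠ i ∧ e.2 ≠ i := by
        rintro ⟨x, y⟩ h1 h2
        have h3 : x < y := (hE _ (mem_insert_of_mem h1)).1
        rcases h2 with rfl | rfl
        · exact ⟨hij.symm, fun h => absurd (hlt.trans h3) (by simp only at h; simp [h])⟩
        · exact ⟨fun h => he (by simp only at h; rwa [h] at h1), hij.symm⟩
      have h3 : ∀ x, x ≠ i → Function.update (Function.update f i a) j b x =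
          Function.update f j b x := by
        intro x hx
        by_cases hj : x = j
        · simp [hj]
        · simp [hj, hx]
      constructor
      · intro h
        refine ⟨fun e h1 h4 => ?_, fun e h1 h4 => ?_⟩
        · have := h e h1
          rwa [Function.update_of_ne h4.1, Function.update_of_ne h4.2] at this
        · have := h e h1
          rwa [h3 _ (h2 e h1 h4).1, h3 _ (h2 e h1 h4).2] at this
      · intro h e h1
        by_cases h4 : e.1 = j ∨ e.2 = j
        · rw [h3 _ (h2 e h1 h4).1, h3 _ (h2 e h1 h4).2]; exact h.2 e h1 h4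
        · push Not at h4
          rw [Function.update_of_ne h4.1, Function.update_of_ne h4.2]; exact h.1 e h1 h4
    rw [prod_insert he, card_insert_of_notMem he]
    simp only [forall_mem_insert, ind_and]
    simp only [mul_sub, sum_sub_distrib, ← sum_mul] at key
    simp only [mul_comm (ind (R (i, j) _ _))]
    have h5 := mul_le_mul (hq (i, j)).2 ih (abs_nonneg _) zero_le_one
    rw [← abs_of_nonneg (hq (i, j)).1, ← abs_mul] at h5
    rw [abs_le] at key h5 ⊢
    push_cast
    constructor <;> linarith [key.1, key.2, h5.1, h5.2]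

end counting

end Pool.Agent.H13.Disc
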