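import Pool.Agent.H13.DiscA

set_option autoImplicit false
set_option linter.unusedSectionVars false

namespace Pool.Agent.H13.Disc

open Finset

variable {α β : Type} [DecidableEq α] [DecidableEq β]

def Zs (s : Finset α) (φ : α → ℝ) (B : Finset α) : ℝ := ∑ y ∈ s, if y ∈ B then φ y else -φ y

lemma sum_Zs (F : ℝ → ℝ) {s : Finset α} {a : α} (ha : a ∉ s) (φ : α → ℝ) :
    ∑ B ∈ (insert a s).powerset, F (Zs (insert a s) φ B) =
      ∑ B ∈ s.powerset, F (-φ a + Zs s φ B) + ∑ B ∈ s.powerset, F (φ a + Zs s φ B) := by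
  rw [sum_powerset_insert ha]
  congr 1
  · refine sum_congr rfl fun B hB => ?_
    rw [Zs, sum_insert ha, if_neg (fun h => ha (mem_powerset.1 hB h))]; rfl
  · refine sum_congr rfl fun B hB => ?_
    rw [Zs, sum_insert ha, if_pos (mem_insert_self _ _), Zs]
    congr 2
    refine sum_congr rfl fun y hy => ?_
    simp [show y ≠ a from fun h => ha (h ▸ hy)]

lemma moments (φ : α → ℝ) (s : Finset α) : ∀ c : ℝ,
    ∑ B ∈ s.powerset, (c + Zs s φ B) ^ 2 = 2 ^ #s * (c ^ 2 + ∑ y ∈ s, φ y ^ 2) ∧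
    ∑ B ∈ s.powerset, (c + Zs s φ B) ^ 4 ≤
      2 ^ #s * (c ^ 4 + 6 * c ^ 2 * ∑ y ∈ s, φ y ^ 2 + 3 * (∑ y ∈ s, φ y ^ 2) ^ 2) := by
  induction s using Finset.induction_on with
  | empty => intro c; simp [Zs]
  | insert a s ha ih =>
    intro c
    rw [sum_Zs (fun z => (c + z) ^ 2) ha, sum_Zs (fun z => (c + z) ^ 4) ha, sum_insert ha,
      card_insert_of_notMem ha, pow_succ]
    simp only [← add_assoc]
    refine ⟨by rw [(ih _).1, (ih _).1]; ring, (add_le_add (ih _).2 (ih _).2).trans ?_⟩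
    have : (0 : ℝ) ≤ 2 ^ #s * φ a ^ 4 := by positivity
    nlinarith

lemma khintchine (φ : α → ℝ) (s : Finset α) :
    2 ^ #s * Real.sqrt (∑ y ∈ s, φ y ^ 2) / 2 ≤ ∑ B ∈ s.powerset, |Zs s φ B| := by
  obtain ⟨h1, h2⟩ := moments φ s 0
  have h3 := Real.sq_sqrt (show 0 ≤ ∑ y ∈ s, φ y ^ 2 by positivity)
  have h4 := Real.sqrt_nonneg (∑ y ∈ s, φ y ^ 2)
  rw [← h3] at h1 h2
  generalize Real.sqrt (∑ y ∈ s, φ y ^ 2) = σ at *
  rcases eq_or_lt_of_le h4 with h | h
  · rw [← h]; simp only [mul_zero, zero_div]; positivity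
  have key : ∀ z : ℝ, 3 / 4 * σ ^ 2 * z ^ 2 - 1 / 16 * z ^ 4 ≤ σ ^ 3 * |z| := by
    intro z
    have e : z ^ 4 = |z| ^ 4 := (Even.pow_abs (by decide) z).symm
    rw [← sq_abs z, e]
    have := abs_nonneg z
    generalize |z| = t at *
    have : 0 ≤ t * ((t - 2 * σ) ^ 2 * (t + 4 * σ)) := by positivity
    nlinarith
  have h5 := sum_le_sum (s := s.powerset) fun B _ => key (Zs s φ B)
  simp only [zero_add] at h1 h2
  rw [sum_sub_distrib, ← mul_sum, ← mul_sum, ← mul_sum, h1] at h5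
  apply le_of_mul_le_mul_left _ (pow_pos h 3)
  have : (0 : ℝ) ≤ 2 ^ #s * σ ^ 4 := by positivity
  nlinarith

lemma rect (Φ : α → β → ℝ) (S : Finset α) (T : Finset β) (M : ℝ)
    (h : ∀ A ⊆ S, ∀ B ⊆ T, |∑ x ∈ A, ∑ y ∈ B, Φ x y| ≤ M) :
    ∑ x ∈ S, ∑ y ∈ T, |Φ x y| ≤ 8 * M * Real.sqrt #T := by
  have h1 : ∀ B ∈ T.powerset, ∑ x ∈ S, |Zs T (Φ x) B| ≤ 4 * M := by
    intro B _
    have e : ∀ A ⊆ S, |∑ x ∈ A, Zs T (Φ x) B| ≤ 2 * M := by
      intro A hA
      simp only [Zs, sum_ite, sum_add_distrib, sum_neg_distrib]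
      have a1 := h A hA _ (filter_subset (· ∈ B) T)
      have a2 := h A hA _ (filter_subset (· ∉ B) T)
      rw [abs_le] at a1 a2 ⊢
      constructor <;> linarith [a1.1, a1.2, a2.1, a2.2]
    rw [← sum_filter_add_sum_filter_not S (fun x => 0 ≤ Zs T (Φ x) B),
      sum_congr rfl (fun x hx => abs_of_nonneg (mem_filter.1 hx).2),
      sum_congr rfl (fun x hx => abs_of_neg (not_le.1 (mem_filter.1 hx).2)), sum_neg_distrib]
    have a1 := abs_le.1 (e _ (filter_subset (fun x => 0 ≤ Zs T (Φ x) B) S))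
    have a2 := abs_le.1 (e _ (filter_subset (fun x => ¬ 0 ≤ Zs T (Φ x) B) S))
    linarith [a1.2, a2.1]
  have h2 := sum_le_sum h1
  rw [sum_comm, sum_const, card_powerset, nsmul_eq_mul] at h2
  have h3 := (sum_le_sum fun x _ => khintchine (Φ x) T).trans h2
  rw [← sum_div, ← mul_sum] at h3
  push_cast at h3
  have h4 : ∑ x ∈ S, Real.sqrt (∑ y ∈ T, Φ x y ^ 2) ≤ 8 * M := by
    apply le_of_mul_le_mul_left _ (show (0 : ℝ) < 2 ^ #T by positivity)
    linarith
  refine le_trans ?_ (mul_le_mul_of_nonneg_right h4 (Real.sqrt_nonneg _))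
  rw [sum_mul]
  refine sum_le_sum fun x _ => ?_
  rw [← Real.sqrt_mul (by positivity)]
  apply Real.le_sqrt_of_sq_le
  have := sq_sum_le_card_mul_sum_sq (s := T) (f := fun y => |Φ x y|)
  simp only [sq_abs] at this
  linarith

lemma mgf (c : ℝ) (s : Finset α) : ∀ F : Finset α → ℝ, (∀ a B, |F (insert a B) - F B| ≤ c) →
    ∑ B ∈ s.powerset, Real.exp (F B) ≤
      2 ^ #s * Real.exp ((∑ B ∈ s.powerset, F B) / 2 ^ #s + #s * (c ^ 2 / 8)) := by
  induction s using Finset.induction_on with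
  | empty => intro F _; simp
  | insert a s ha ih =>
    intro F hF
    have := ih (fun B => (F B + F (insert a B)) / 2) (fun b B => by
      have h1 := abs_le.1 (hF b B)
      have h2 := abs_le.1 (hF b (insert a B))
      rw [insert_comm a b, abs_le]
      constructor <;> linarith [h1.1, h1.2, h2.1, h2.2])
    rw [sum_powerset_insert ha, sum_powerset_insert ha, card_insert_of_notMem ha, ← sum_add_distrib]
    have h1 : ∀ B, Real.exp (F B) + Real.exp (F (insert a B)) ≤
        2 * Real.exp (c ^ 2 / 8) * Real.exp ((F B + F (insert a B)) / 2) := by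
      intro B
      have h2 := Real.cosh_le_exp_half_sq ((F (insert a B) - F B) / 2)
      have h3 : ((F (insert a B) - F B) / 2) ^ 2 / 2 ≤ c ^ 2 / 8 := by
        have := sq_le_sq' (abs_le.1 (hF a B)).1 (abs_le.1 (hF a B)).2
        nlinarith
      have h4 := mul_le_mul_of_nonneg_right (h2.trans (Real.exp_le_exp.2 h3))
        (Real.exp_pos ((F B + F (insert a B)) / 2)).le
      rw [Real.cosh_eq, div_mul_eq_mul_div, add_mul, ← Real.exp_add, ← Real.exp_add] at h4
      rw [show (F (insert a B) - F B) / 2 + (F B + F (insert a B)) / 2 = F (insert a B) by ring,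
        show -((F (insert a B) - F B) / 2) + (F B + F (insert a B)) / 2 = F B by ring] at h4
      linarith
    refine (sum_le_sum fun B _ => h1 B).trans ?_
    rw [← mul_sum]
    refine (mul_le_mul_of_nonneg_left this (by positivity)).trans (le_of_eq ?_)
    rw [← sum_div, sum_add_distrib, mul_mul_mul_comm, ← Real.exp_add, pow_succ, mul_comm (2 : ℝ)]
    congr 2
    push_cast
    field_simp
    ring

lemma exists_small [Fintype α] {J : Type} [Fintype J] (F : J → Finset α → ℝ) (c t l : ℝ) (hl : 0 ≤ l)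
    (hF : ∀ j a B, |F j (insert a B) - F j B| ≤ c) (h0 : ∀ j, ∑ B, F j B = 0)
    (h : 2 * Fintype.card J * Real.exp (Fintype.card α * ((l * c) ^ 2 / 8) - l * t) < 1) :
    ∃ B, ∀ j, |F j B| ≤ t := by
  by_contra hc
  push Not at hc
  have h1 : ∀ B, 1 ≤ ∑ j, (Real.exp (l * F j B) + Real.exp (-l * F j B)) * Real.exp (-(l * t)) := by
    intro B
    obtain ⟨j, hj⟩ := hc B
    refine le_trans ?_ (single_le_sum (f := fun j => (Real.exp (l * F j B) + Real.exp (-l * F j B)) *
      Real.exp (-(l * t))) (fun j _ => by positivity) (mem_univ j))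
    rw [add_mul, ← Real.exp_add, ← Real.exp_add]
    rcases lt_abs.1 hj with h | h
    · exact le_add_of_le_of_nonneg (Real.one_le_exp (by nlinarith)) (by positivity)
    · exact le_add_of_nonneg_of_le (by positivity) (Real.one_le_exp (by nlinarith))
  have h2 : ∀ j, ∀ r : ℝ, |r| = l → ∑ B, Real.exp (r * F j B) ≤
      2 ^ Fintype.card α * Real.exp (Fintype.card α * ((l * c) ^ 2 / 8)) := by
    intro j r hr
    have := mgf (l * c) univ (fun B => r * F j B) (fun a B => by
      rw [← mul_sub, abs_mul, hr]; exact mul_le_mul_of_nonneg_left (hF j a B) hl)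
    rwa [powerset_univ, ← mul_sum, h0, mul_zero, zero_div, zero_add, card_univ] at this
  have h3 := sum_le_sum (s := univ) fun B _ => h1 B
  rw [sum_comm] at h3
  have h4 : ∀ j ∈ (univ : Finset J), ∑ B, (Real.exp (l * F j B) + Real.exp (-l * F j B)) *
      Real.exp (-(l * t)) ≤ 2 ^ Fintype.card α *
        (2 * Real.exp (Fintype.card α * ((l * c) ^ 2 / 8) - l * t)) := by
    intro j _
    rw [← sum_mul, sum_add_distrib, sub_eq_add_neg, Real.exp_add]
    have := mul_le_mul_of_nonneg_right (add_le_add (h2 j l (abs_of_nonneg hl))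
      (h2 j (-l) (by rw [abs_neg, abs_of_nonneg hl]))) (Real.exp_pos (-(l * t))).le
    linarith
  have h5 := h3.trans (sum_le_sum h4)
  simp only [sum_const, card_univ, Fintype.card_finset, nsmul_eq_mul, mul_one] at h5
  push_cast at h5
  have : (0 : ℝ) < 2 ^ Fintype.card α := by positivity
  nlinarith

lemma polar {I : Type} [Fintype I] [DecidableEq I] (a : (I → α) → ℝ) (M : ℝ)
    (hM : ∀ S : Finset α, |∑ f ∈ Fintype.piFinset (fun _ : I => S), a f| ≤ M)
    (S : I → Finset α) (hS : ∀ i j, i ≠ j → Disjoint (S i) (S j)) :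
    |∑ σ : Equiv.Perm I, ∑ f ∈ Fintype.piFinset (fun i => S (σ i)), a f| ≤ 2 ^ Fintype.card I * M := by
  classical
  let U := univ.biUnion S
  have e1 : ∀ T : I → Finset α, (∀ i, T i ⊆ U) → ∑ f ∈ Fintype.piFinset T, a f =
      ∑ f ∈ Fintype.piFinset (fun _ : I => U), ind (∀ i, f i ∈ T i) * a f := by
    intro T hT
    rw [sum_ind_mul]
    congr 1
    ext f
    simp only [mem_filter, Fintype.mem_piFinset]
    exact ⟨fun h => ⟨fun i => hT i (h i), h⟩, fun h => h.2⟩
  have e2 : ∀ f ∈ Fintype.piFinset (fun _ : I => U), ∑ σ : Equiv.Perm I, ind (∀ i, f i ∈ S (σ i)) =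
      ∑ J : Finset I, (-1) ^ #J * ind (∀ i, f i ∈ U \ J.biUnion S) := by
    intro f hf
    rw [Fintype.mem_piFinset] at hf
    have b1 := prod_one_add (s := univ) (f := fun j => -ind (∀ i, f i ∉ S j))
    rw [powerset_univ] at b1
    have b2 : ∀ J : Finset I, ∏ j ∈ J, -ind (∀ i, f i ∉ S j) =
        (-1) ^ #J * ind (∀ i, f i ∈ U \ J.biUnion S) := by
      intro J
      rw [prod_neg]
      congr 1
      by_cases h : ∀ i, f i ∈ U \ J.biUnion S
      · rw [ind_pos h]
        exact prod_eq_one fun j hj => ind_pos fun i hi =>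
          (mem_sdiff.1 (h i)).2 (mem_biUnion.2 ⟨j, hj, hi⟩)
      · rw [ind_neg h]
        simp only [mem_sdiff, hf, true_and, not_forall, not_not, mem_biUnion] at h
        obtain ⟨i, j, hj, hi⟩ := h
        exact prod_eq_zero hj (ind_neg fun h => h i hi)
    rw [← sum_congr rfl fun J _ => b2 J, ← b1]
    by_cases h : ∃ σ : Equiv.Perm I, ∀ i, f i ∈ S (σ i)
    · obtain ⟨σ, hσ⟩ := h
      rw [sum_eq_single σ, ind_pos hσ, eq_comm]
      · refine prod_eq_one fun j _ => ?_
        rw [ind_neg fun h => h (σ.symm j) (by simpa using hσ (σ.symm j))]; simp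
      · intro τ _ hτ
        refine ind_neg fun h => hτ (Equiv.ext fun i => ?_)
        by_contra hne
        exact disjoint_left.1 (hS _ _ hne) (h i) (hσ i)
      · simp
    · rw [sum_eq_zero fun σ _ => ind_neg fun h' => h ⟨σ, h'⟩, eq_comm]
      choose c hc using fun i => mem_biUnion.1 (hf i)
      have : ¬ Function.Surjective c := fun hs => h ⟨Equiv.ofBijective c
        ⟨Finite.injective_iff_surjective.2 hs, hs⟩, fun i => (hc i).2⟩
      obtain ⟨j, hj⟩ := not_forall.1 this
      refine prod_eq_zero (mem_univ j) ?_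
      rw [ind_pos]; · simp
      intro i hi
      by_cases h' : c i = j
      · exact hj ⟨i, h'⟩
      · exact disjoint_left.1 (hS _ _ h') (hc i).2 hi
  rw [sum_congr rfl fun σ _ => e1 _ (fun i => subset_biUnion_of_mem S (mem_univ (σ i))), sum_comm]
  simp only [← sum_mul]
  rw [sum_congr rfl fun f hf => by rw [e2 f hf, sum_mul], sum_comm]
  refine (abs_sum_le_sum_abs _ _).trans ?_
  calc _ ≤ ∑ J : Finset I, M := sum_le_sum fun J _ => by
        simp only [mul_assoc, ← mul_sum]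
        rw [← e1 (fun _ => U \ J.biUnion S) (fun _ => sdiff_subset), abs_mul, abs_neg_one_pow, one_mul]
        exact hM _
    _ = _ := by simp

end Pool.Agent.H13.Disc
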