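import Mathlib

set_option autoImplicit false

namespace Pool.Agent.H13.Disc

/-- h(F[S]): number of (not necessarily induced) subgraphs of F[S] isomorphic to H. -/
noncomputable def hc {v n : ℕ} (H : SimpleGraph (Fin v)) (F : SimpleGraph (Fin n))
    (S : Finset (Fin n)) : ℕ :=
  Nat.card {K : (F.induce (S : Set (Fin n))).Subgraph // Nonempty (H ≃g K.coe)}

/-- disc_H(G) = max over S of |h(G[S]) - h(complement G [S])|. -/
noncomputable def disc {v n : ℕ} (H : SimpleGraph (Fin v)) (G : SimpleGraph (Fin n)) : ℕ :=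
  Finset.univ.sup (fun S : Finset (Fin n) => ((hc H G S : ℤ) - (hc H Gᶜ S : ℤ)).natAbs)

/-- f_H(n) = min of disc_H over graphs on n vertices. -/
noncomputable def fH {v : ℕ} (H : SimpleGraph (Fin v)) (n : ℕ) : ℕ :=
  sInf {d : ℕ | ∃ G : SimpleGraph (Fin n), disc H G = d}

end Pool.Agent.H13.Disc
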