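import Mathlib

set_option autoImplicit false

namespace Pool.Agent.H13.Unique

/-- F is a unique spanning subgraph of G. -/
def IsUniqueSub {n : ℕ} (G F : SimpleGraph (Fin n)) : Prop :=
  F ≤ G ∧ ∀ F' : SimpleGraph (Fin n), F' ≤ G → Nonempty (F' ≃g F) → F' = F

/-- u(G): number of unique subgraphs of G. -/
noncomputable def u {n : ℕ} (G : SimpleGraph (Fin n)) : ℕ := Nat.card {F // IsUniqueSub G F}

/-- m_n = C(n,2) - floor(n log_2 n). -/
noncomputable def m (n : ℕ) : ℕ := n.choose 2 - ⌊(n : ℝ) * Real.logb 2 n⌋₊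

/-- Probability that a uniform graph on Fin n with m_n edges has u(G) ≥ c 2^{m_n}. -/
noncomputable def prob (c : ℝ) (n : ℕ) : ℝ :=
  (Nat.card {G : SimpleGraph (Fin n) // Nat.card G.edgeSet = m n ∧ c * 2 ^ m n ≤ (u G : ℝ)} : ℝ) /
    (Nat.card {G : SimpleGraph (Fin n) // Nat.card G.edgeSet = m n} : ℝ)

end Pool.Agent.H13.Unique
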