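import Pool.Agent.H13.UniqueB
import Pool.Agent.H13.UniqueDefs

set_option autoImplicit false
set_option linter.unusedSectionVars false

namespace Pool.Agent.H13.Unique

open Finset Filter Topology

variable {n : ℕ}

def gr (S : Finset (Pr n)) : SimpleGraph (Fin n) := SimpleGraph.fromEdgeSet (Subtype.val '' (S : Set (Pr n)))

lemma gr_edge (S : Finset (Pr n)) : (gr S).edgeSet = Subtype.val '' (S : Set (Pr n)) := by
  rw [gr, SimpleGraph.edgeSet_fromEdgeSet]
  apply sdiff_eq_left.2
  rw [Set.disjoint_left]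
  rintro _ ⟨e, -, rfl⟩ h
  exact e.2 h

lemma mem_gr (S : Finset (Pr n)) (e : Pr n) : e.1 ∈ (gr S).edgeSet ↔ e ∈ S := by
  rw [gr_edge, Subtype.val_injective.mem_set_image]; rfl

lemma gr_le {S T : Finset (Pr n)} : gr S ≤ gr T ↔ S ⊆ T := by
  rw [← SimpleGraph.edgeSet_subset_edgeSet, gr_edge, gr_edge,
    Set.image_subset_image_iff Subtype.val_injective, coe_subset]

lemma gr_card (S : Finset (Pr n)) : Nat.card (gr S).edgeSet = #S := by
  rw [gr_edge, Nat.card_coe_set_eq, Set.ncard_image_of_injective _ Subtype.val_injective,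
    Set.ncard_coe_finset]

lemma gr_bij : Function.Bijective (gr : Finset (Pr n) → SimpleGraph (Fin n)) := by
  classical
  refine ⟨fun S T h => Subset.antisymm (gr_le.1 h.le) (gr_le.1 h.ge), fun G =>
    ⟨univ.filter (fun e => e.1 ∈ G.edgeSet), SimpleGraph.edgeSet_injective ?_⟩⟩
  rw [gr_edge]
  ext e
  simp only [coe_filter, mem_univ, true_and, Set.mem_image, Set.mem_ofPred_eq]
  exact ⟨fun ⟨x, h1, h2⟩ => h2 ▸ h1, fun h => ⟨⟨e, G.not_isDiag_of_mem_edgeSet h⟩, h, rfl⟩⟩

lemma card_gr (q : SimpleGraph (Fin n) → Prop) [DecidablePred (fun S : Finset (Pr n) => q (gr S))] :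
    Nat.card {G // q G} = #(univ.filter (fun S : Finset (Pr n) => q (gr S))) := by
  rw [← Nat.card_congr ((Equiv.ofBijective gr gr_bij).subtypeEquiv (p := fun S => q (gr S))
    (fun _ => Iff.rfl)), Nat.card_eq_fintype_card, Fintype.card_subtype]

lemma u_ge (T : Finset (Pr n)) :
    (2 : ℝ) ^ (n.choose 2 - #T) ≤ u (gr Tᶜ) + 2 ^ (n.choose 2 - #T) / 2 ^ #T *
      ∑ π ∈ univ.filter (fun π : Equiv.Perm (Fin n) => π ≠ 1),
        (2 : ℝ) ^ #(T.filter (fun e => act π e ∈ T)) := by
  classical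
  have h1 : Tᶜ.powerset ⊆ univ.filter (fun S : Finset (Pr n) => IsUniqueSub (gr Tᶜ) (gr S)) ∪
      (univ.filter (fun π : Equiv.Perm (Fin n) => π ≠ 1)).biUnion
        (fun π => (T ∪ T.image (act π))ᶜ.powerset) := by
    intro S hS
    rw [mem_powerset] at hS
    by_cases hu : IsUniqueSub (gr Tᶜ) (gr S)
    · exact mem_union_left _ (by simpa using hu)
    apply mem_union_right
    simp only [IsUniqueSub, gr_le, hS, true_and, not_forall] at hu
    obtain ⟨F, hF, ⟨φ⟩, hne⟩ := hu
    refine mem_biUnion.2 ⟨φ.toEquiv, mem_filter.2 ⟨mem_univ _, fun h => hne ?_⟩, ?_⟩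
    · ext a b
      have := φ.map_adj_iff (v := a) (w := b)
      have e : ∀ x, φ x = x := fun x => congrFun (congrArg (fun f : Equiv.Perm (Fin n) => ⇑f) h) x
      rw [e, e] at this
      exact this.symm
    · rw [mem_powerset, compl_union, subset_inter_iff]
      refine ⟨hS, fun e he => mem_compl.2 fun h => ?_⟩
      obtain ⟨⟨a, ha⟩, h2, rfl⟩ := mem_image.1 h
      rw [← mem_gr] at he
      induction a using Sym2.ind with
      | _ x y =>
        have h3 : F.Adj x y := φ.map_adj_iff.1 he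
        exact mem_compl.1 ((mem_gr Tᶜ ⟨s(x, y), ha⟩).1 (hF h3)) h2
  have h2 := (card_le_card h1).trans ((card_union_le _ _).trans
    (Nat.add_le_add_left card_biUnion_le _))
  rw [← card_gr (IsUniqueSub (gr Tᶜ)), card_powerset, card_compl, card_Pr] at h2
  have h3 : ((2 ^ (n.choose 2 - #T) : ℕ) : ℝ) ≤ _ := Nat.cast_le.2 h2
  push_cast at h3
  refine h3.trans (le_of_eq ?_)
  rw [u, mul_sum]
  congr 1
  refine sum_congr rfl fun π _ => ?_
  rw [card_powerset, card_compl, card_Pr, div_mul_eq_mul_div, eq_div_iff (by positivity)]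
  norm_cast
  rw [← pow_add, ← pow_add]
  congr 1
  have a1 := card_union_add_card_inter T (T.image (act π))
  have a2 : #(T ∪ T.image (act π)) ≤ n.choose 2 := by rw [← card_Pr]; exact card_le_univ _
  have a3 : #T ≤ n.choose 2 := by rw [← card_Pr]; exact card_le_univ _
  have a4 : T ∩ T.image (act π) = (T.filter (fun e => act π e ∈ T)).image (act π) := by
    ext e
    simp only [mem_inter, mem_image, mem_filter]
    exact ⟨fun ⟨h, a, h1, h2⟩ => ⟨a, ⟨h1, h2 ▸ h⟩, h2⟩, fun ⟨a, h1, h2⟩ => ⟨h2 ▸ h1.2, a, h1.1, h2⟩⟩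
  rw [a4, card_image_of_injective _ (act π).injective,
    card_image_of_injective _ (act π).injective] at a1
  omega

lemma prob_ge (c : ℝ) (hc : c < 1) (n : ℕ) (hL : 700 ≤ Real.log n) :
    1 - 3 * Real.exp (-Real.log n / 20) / (1 - c) ≤ prob c n ∧ prob c n ≤ 1 := by
  classical
  set t := ⌊(n : ℝ) * Real.logb 2 n⌋₊ with ht
  have l1 := Real.log_two_gt_d9
  have hn0 : (0 : ℝ) ≤ n * Real.log n := by positivity
  have ht1 : n * Real.log n ≤ (t + 1) * Real.log 2 := by
    have := Nat.lt_floor_add_one ((n : ℝ) * Real.logb 2 n)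
    rw [← ht, Real.logb, mul_div_assoc', div_lt_iff₀ (by linarith)] at this
    exact this.le
  have ht2 : (t : ℝ) ≤ 3 / 2 * n * Real.log n := by
    have := Nat.floor_le (a := (n : ℝ) * Real.logb 2 n) (by rw [Real.logb]; positivity)
    rw [← ht, Real.logb, mul_div_assoc', le_div_iff₀ (by linarith)] at this
    have : (0 : ℝ) ≤ t := by positivity
    nlinarith
  have htN := (t_le n t hL ht2).1
  have hm : m n = n.choose 2 - t := rfl
  have hcompl : ∀ (q : SimpleGraph (Fin n) → Prop)
      [DecidablePred (fun T : Finset (Pr n) => q (gr Tᶜ))],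
      Nat.card {G : SimpleGraph (Fin n) // Nat.card G.edgeSet = m n ∧ q G} =
      #((powersetCard t univ).filter (fun T : Finset (Pr n) => q (gr Tᶜ))) := by
    intro q _
    rw [card_gr (fun G => Nat.card G.edgeSet = m n ∧ q G)]
    refine card_bij (fun S _ => Sᶜ) ?_ (fun a _ b _ h => compl_injective h) (fun T hT => ⟨Tᶜ, ?_, compl_compl T⟩)
    · intro S hS
      simp only [mem_filter, mem_univ, true_and, gr_card, mem_powersetCard, subset_univ,
        compl_compl, card_compl, card_Pr] at hS ⊢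
      exact ⟨by omega, hS.2⟩
    · simp only [mem_filter, mem_univ, true_and, gr_card, mem_powersetCard, subset_univ,
        card_compl, card_Pr] at hT ⊢
      exact ⟨by omega, hT.2⟩
  have hall := hcompl (fun _ => True)
  simp only [and_true, filter_true, card_powersetCard, card_univ, card_Pr] at hall
  have hC : (0 : ℝ) < (n.choose 2).choose t := by exact_mod_cast Nat.choose_pos htN
  rw [prob, hcompl (fun G => c * 2 ^ m n ≤ (u G : ℝ)), hall]
  have hsplit := card_filter_add_card_filter_not (s := powersetCard t (univ : Finset (Pr n)))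
    (fun T => c * 2 ^ m n ≤ (u (gr Tᶜ) : ℝ))
  rw [card_powersetCard, card_univ, card_Pr] at hsplit
  have hsplit' := congrArg (Nat.cast : ℕ → ℝ) hsplit
  push_cast at hsplit'
  constructor
  swap
  · rw [div_le_one hC]; exact Nat.cast_le.2 (by omega)
  have h1 := total n t hL ht1 ht2
  rw [sum_comm] at h1
  have h2 : (#((powersetCard t (univ : Finset (Pr n))).filter
      (fun T => ¬ c * 2 ^ m n ≤ (u (gr Tᶜ) : ℝ))) : ℝ) * ((1 - c) * 2 ^ t) ≤
      (n.choose 2).choose t * 2 ^ t * (3 * Real.exp (-Real.log n / 20)) := by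
    refine le_trans ?_ h1
    rw [← nsmul_eq_mul, ← sum_const]
    refine le_trans (sum_le_sum fun T hT => ?_) (sum_le_sum_of_subset_of_nonneg (filter_subset _ _)
      fun T _ _ => by positivity)
    rw [mem_filter, mem_powersetCard] at hT
    have := u_ge T
    rw [hT.1.2, ← hm] at this
    have h3 := not_le.1 hT.2
    have h4 : (0 : ℝ) < 2 ^ m n / 2 ^ t := by positivity
    apply le_of_mul_le_mul_left _ h4
    have : (2 : ℝ) ^ m n / 2 ^ t * ((1 - c) * 2 ^ t) = (1 - c) * 2 ^ m n := by field_simp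
    linarith
  rw [le_div_iff₀ hC]
  have h5 : (0 : ℝ) < (1 - c) * 2 ^ t := by have : 0 < 1 - c := by linarith
                                            positivity
  rw [← le_div_iff₀ h5] at h2
  have : (n.choose 2).choose t * 2 ^ t * (3 * Real.exp (-Real.log n / 20)) / ((1 - c) * 2 ^ t) =
      3 * Real.exp (-Real.log n / 20) / (1 - c) * (n.choose 2).choose t := by
    have : 1 - c ≠ 0 := by linarith
    field_simp
  linarith

theorem q1 (c : ℝ) (hc : c < 1) : Tendsto (prob c) atTop (𝓝 1) := by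
  have hl := Real.tendsto_log_atTop.comp tendsto_natCast_atTop_atTop
  have h0 : Tendsto (fun n : ℕ => Real.exp (-Real.log n / 20)) atTop (𝓝 0) :=
    Real.tendsto_exp_atBot.comp ((tendsto_neg_atTop_atBot.comp hl).atBot_div_const (by norm_num))
  have h1 : Tendsto (fun n : ℕ => 1 - 3 * Real.exp (-Real.log n / 20) / (1 - c)) atTop (𝓝 1) := by
    simpa using ((h0.const_mul 3).div_const (1 - c)).const_sub 1
  refine tendsto_of_tendsto_of_tendsto_of_le_of_le' h1 tendsto_const_nhds ?_ ?_
  · filter_upwards [hl.eventually_ge_atTop 700] with n hn using (prob_ge c hc n hn).1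
  · filter_upwards [hl.eventually_ge_atTop 700] with n hn using (prob_ge c hc n hn).2

theorem q2 (c : ℝ) (hc : c < 1) : ∃ n₀ : ℕ, ∀ n, n₀ ≤ n → ∃ G : SimpleGraph (Fin n),
    Nat.card G.edgeSet = m n ∧ c * 2 ^ m n ≤ (u G : ℝ) := by
  obtain ⟨n₀, h⟩ := eventually_atTop.1 ((q1 c hc).eventually (lt_mem_nhds (show (0 : ℝ) < 1 by norm_num)))
  refine ⟨n₀, fun n hn => ?_⟩
  by_contra hcon
  have := h n hn
  have e : IsEmpty {G : SimpleGraph (Fin n) // Nat.card G.edgeSet = m n ∧ c * 2 ^ m n ≤ (u G : ℝ)} :=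
    ⟨fun G => hcon ⟨G.1, G.2⟩⟩
  rw [prob, Nat.card_of_isEmpty] at this
  simp at this

end Pool.Agent.H13.Unique
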