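import Pool.Agent.H13.DiscB
import Pool.Agent.H13.DiscDefs
import Pool.Agent.H13.UniqueC

set_option autoImplicit false
set_option linter.unusedSectionVars false

namespace Pool.Agent.H13.Disc

open Finset SimpleGraph

lemma card_copy {W V : Type} [Finite W] [Finite V] (H : SimpleGraph W) (F : SimpleGraph V) :
    Nat.card (Copy H F) = Nat.card (H ≃g H) * Nat.card {K : F.Subgraph // Nonempty (H ≃g K.coe)} := by
  classical
  let g : (Σ K : {K : F.Subgraph // Nonempty (H ≃g K.coe)}, H ≃g K.1.coe) → Copy H F :=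
    fun x => ⟨x.1.1.hom.comp x.2.toHom, Subgraph.hom_injective.comp x.2.injective⟩
  have h1 : ∀ x, (g x).toSubgraph = x.1.1 := fun x => by
    simp [g, Copy.toSubgraph, Subgraph.map_comp]
  have hg : Function.Bijective g := by
    constructor
    · rintro ⟨⟨K, hK⟩, φ⟩ ⟨⟨K', hK'⟩, φ'⟩ h
      obtain rfl : K = K' := (h1 _).symm.trans ((congrArg Copy.toSubgraph h).trans (h1 _))
      obtain rfl : φ = φ' := by
        ext w
        exact congrArg (fun c : Copy H F => c w) h
      rfl
    · intro f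
      exact ⟨⟨⟨f.toSubgraph, ⟨f.isoToSubgraph⟩⟩, f.isoToSubgraph⟩, by ext w; rfl⟩
  have := Fintype.ofFinite V
  have := Fintype.ofFinite {K : F.Subgraph // Nonempty (H ≃g K.coe)}
  have : ∀ K : {K : F.Subgraph // Nonempty (H ≃g K.coe)}, Finite (H ≃g K.1.coe) := fun K =>
    Finite.of_injective (fun φ => (φ : W → K.1.verts)) DFunLike.coe_injective
  rw [← Nat.card_congr (Equiv.ofBijective g hg), Nat.card_sigma, sum_congr rfl
    (g := fun _ => Nat.card (H ≃g H)), sum_const, card_univ, smul_eq_mul, mul_comm,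
    Nat.card_eq_fintype_card (α := {K : F.Subgraph // _})]
  rintro ⟨K, ⟨φ⟩⟩ _
  exact Nat.card_congr ⟨fun ψ => ψ.trans φ.symm, fun ψ => ψ.trans φ, fun ψ => by ext; simp,
    fun ψ => by ext; simp⟩

variable {v : ℕ} (H : SimpleGraph (Fin v))

def cp {V : Type} (F : SimpleGraph V) (f : Fin v → V) : Prop :=
  Function.Injective f ∧ ∀ i j, H.Adj i j → F.Adj (f i) (f j)

noncomputable def aa {V : Type} (G : SimpleGraph V) (f : Fin v → V) : ℝ :=
  ind (cp H G f) - ind (cp H Gᶜ f)

lemma sum_cp {n : ℕ} (F : SimpleGraph (Fin n)) (S : Finset (Fin n)) :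
    ∑ f ∈ Fintype.piFinset (fun _ : Fin v => S), ind (cp H F f) = Nat.card (H ≃g H) * hc H F S := by
  classical
  have := sum_ind_mul (Fintype.piFinset (fun _ : Fin v => S)) (cp H F) (fun _ => 1)
  simp only [mul_one, sum_const, nsmul_eq_mul] at this
  rw [this, hc, ← Nat.cast_mul, ← card_copy, ← Nat.card_eq_finsetCard]
  congr 1
  refine Nat.card_congr ⟨fun f => ⟨⟨fun i => ⟨f.1 i, Fintype.mem_piFinset.1 (mem_filter.1 f.2).1 i⟩,
    fun {i j} h => (mem_filter.1 f.2).2.2 i j h⟩, fun i j h => (mem_filter.1 f.2).2.1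
      (congrArg Subtype.val h)⟩, fun c => ⟨fun i => (c i).1, mem_filter.2
        ⟨Fintype.mem_piFinset.2 fun i => (c i).2, Subtype.val_injective.comp c.injective,
          fun i j h => c.toHom.map_adj h⟩⟩, fun f => rfl, fun c => rfl⟩

lemma abs_D {n : ℕ} (G : SimpleGraph (Fin n)) (S : Finset (Fin n)) :
    |∑ f ∈ Fintype.piFinset (fun _ : Fin v => S), aa H G f| =
      Nat.card (H ≃g H) * (((hc H G S : ℤ) - (hc H Gᶜ S : ℤ)).natAbs : ℝ) := by
  simp only [aa, sum_sub_distrib, sum_cp, ← mul_sub, abs_mul, Nat.abs_cast, Nat.cast_natAbs]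
  push_cast
  rfl

open Classical in
noncomputable def EE : Finset (Fin v × Fin v) := univ.filter (fun e => e.1 < e.2 ∧ H.Adj e.1 e.2)

lemma corr {V : Type} [DecidableEq V] (G : SimpleGraph V) (ε : ℝ) (hε : 0 ≤ ε) (S : Fin v → Finset V)
    (p : Fin v → Fin v → ℝ) (h0 : ∀ i, 0 < #(S i)) (h1 : ∀ i j, i ≠ j → Disjoint (S i) (S j))
    (h2 : ∀ i j, i ≠ j → Reg G.Adj ε (S i) (S j) (p i j)) (h3 : ∀ i j, 0 ≤ p i j ∧ p i j ≤ 1)
    (h4 : (∀ i j, i ≠ j → 1 / 2 ≤ p i j) ∨ (∀ i j, i ≠ j → p i j ≤ 1 / 2)) (u w : Fin v)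
    (huw : u < w) :
    (ind (H.Adj u w) * (1 / 2) ^ #(EE H) - 6 * (#(EE H) + 1) * ε) * #(Fintype.piFinset S) ≤
      ∑ f ∈ Fintype.piFinset S, (2 * ind (G.Adj (f u) (f w)) - 1) * aa H G f := by
  classical
  have hE : ∀ e ∈ EE H, e.1 < e.2 := fun e he => (mem_filter.1 he).2.1
  have hE' : ∀ e ∈ insert (u, w) (EE H), e.1 < e.2 := fun e he => by
    rcases mem_insert.1 he with rfl | h
    exacts [huw, hE e h]
  have c1 := fun E (h : ∀ e ∈ E, e.1 < e.2) => abs_le.1 (counting S h0 (fun _ => G.Adj)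
    (fun e => p e.1 e.2) (fun e => h3 _ _) ε E fun e he => ⟨h e he, h2 _ _ (h e he).ne⟩)
  have c2 := fun E (h : ∀ e ∈ E, e.1 < e.2) => abs_le.1 (counting S h0 (fun _ a b => ¬ G.Adj a b)
    (fun e => 1 - p e.1 e.2) (fun e => by have := h3 e.1 e.2; constructor <;> linarith) ε E
    fun e he => ⟨h e he, (h2 _ _ (h e he).ne).not⟩)
  have e1 : ∀ f ∈ Fintype.piFinset S, (2 * ind (G.Adj (f u) (f w)) - 1) * aa H G f =
      2 * ind (∀ e ∈ insert (u, w) (EE H), G.Adj (f e.1) (f e.2)) -
      ind (∀ e ∈ EE H, G.Adj (f e.1) (f e.2)) - ind (∀ e ∈ EE H, ¬ G.Adj (f e.1) (f e.2)) +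
      2 * ind (∀ e ∈ insert (u, w) (EE H), ¬ G.Adj (f e.1) (f e.2)) := by
    intro f hf
    rw [Fintype.mem_piFinset] at hf
    have hinj : Function.Injective f := fun i j h => by
      by_contra hne
      exact disjoint_left.1 (h1 i j hne) (hf i) (h ▸ hf j)
    have gen : ∀ F : SimpleGraph V, cp H F f ↔ ∀ e ∈ EE H, F.Adj (f e.1) (f e.2) := by
      intro F
      refine ⟨fun h e he => h.2 _ _ (mem_filter.1 he).2.2, fun h => ⟨hinj, fun i j hij => ?_⟩⟩
      rcases lt_or_gt_of_ne hij.ne with h' | h'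
      · exact h (i, j) (mem_filter.2 ⟨mem_univ _, h', hij⟩)
      · exact (h (j, i) (mem_filter.2 ⟨mem_univ _, h', hij.symm⟩)).symm
    have : cp H Gᶜ f ↔ ∀ e ∈ EE H, ¬ G.Adj (f e.1) (f e.2) := by
      rw [gen]
      exact forall₂_congr fun e he => by rw [compl_adj]; exact and_iff_right (hinj.ne (hE e he).ne)
    simp only [aa, forall_mem_insert, ind_and, ind_not, gen G, this]
    ring
  rw [sum_congr rfl e1]
  simp only [sum_add_distrib, sum_sub_distrib, ← mul_sum]
  have hc : (#(insert (u, w) (EE H)) : ℝ) ≤ #(EE H) + 1 := by exact_mod_cast card_insert_le _ _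
  have key : ind (H.Adj u w) * (1 / 2) ^ #(EE H) ≤ 2 * ∏ e ∈ insert (u, w) (EE H), p e.1 e.2 -
      ∏ e ∈ EE H, p e.1 e.2 - ∏ e ∈ EE H, (1 - p e.1 e.2) +
      2 * ∏ e ∈ insert (u, w) (EE H), (1 - p e.1 e.2) := by
    have n1 : 0 ≤ ∏ e ∈ EE H, p e.1 e.2 := prod_nonneg fun e _ => (h3 _ _).1
    have n2 : 0 ≤ ∏ e ∈ EE H, (1 - p e.1 e.2) := prod_nonneg fun e _ => sub_nonneg.2 (h3 _ _).2
    by_cases h : H.Adj u w
    · have hm : (u, w) ∈ EE H := mem_filter.2 ⟨mem_univ _, huw, h⟩
      rw [insert_eq_of_mem hm, ind_pos h, ← prod_const]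
      rcases h4 with h4 | h4
      · have := prod_le_prod (s := EE H) (f := fun _ => (1 / 2 : ℝ)) (g := fun e => p e.1 e.2)
          (fun _ _ => by norm_num) fun e he => h4 _ _ (hE e he).ne
        linarith
      · have := prod_le_prod (s := EE H) (f := fun _ => (1 / 2 : ℝ)) (g := fun e => 1 - p e.1 e.2)
          (fun _ _ => by norm_num) fun e he => by have := h4 _ _ (hE e he).ne; linarith
        linarith
    · have hn : (u, w) ∉ EE H := fun h' => h (mem_filter.1 h').2.2
      rw [ind_neg h, prod_insert hn, prod_insert hn]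
      rcases h4 with h4 | h4
      · have := prod_le_prod (s := EE H) (f := fun e => 1 - p e.1 e.2) (g := fun e => p e.1 e.2)
          (fun e _ => sub_nonneg.2 (h3 _ _).2) fun e he => by have := h4 _ _ (hE e he).ne; linarith
        have := h4 _ _ huw.ne
        nlinarith
      · have := prod_le_prod (s := EE H) (g := fun e => 1 - p e.1 e.2) (f := fun e => p e.1 e.2)
          (fun e _ => (h3 _ _).1) fun e he => by have := h4 _ _ (hE e he).ne; linarith
        have := h4 _ _ huw.ne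
        nlinarith
  have hN : (0 : ℝ) ≤ #(Fintype.piFinset S) := by positivity
  have k1 := mul_le_mul_of_nonneg_right key hN
  have k2 := mul_le_mul_of_nonneg_right hc (mul_nonneg hε hN)
  have k3 := mul_nonneg hε hN
  nlinarith [(c1 _ hE).2, (c2 _ hE).2, (c1 _ hE').1, (c2 _ hE').1]

lemma sum_pt {V : Type} [DecidableEq V] (X Y : Finset V) (g : V → V → ℝ) (p q : V) :
    ∑ x ∈ X, ∑ y ∈ Y, g x y * ind (p = x ∧ q = y) = ind (p ∈ X ∧ q ∈ Y) * g p q := by
  have : ∀ x y, g x y * ind (p = x ∧ q = y) = if p = x then if q = y then g x y else 0 else 0 := by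
    intro x y
    by_cases h : p = x <;> by_cases h' : q = y <;> simp [ind, h, h']
  simp only [this, sum_ite_irrel, sum_ite_eq, sum_const_zero]
  by_cases h : p ∈ X <;> by_cases h' : q ∈ Y <;> simp [ind, h, h']

theorem lower (hH : H ≠ ⊥) : ∃ c : ℝ, 0 < c ∧ ∃ n₀ : ℕ, ∀ n, n₀ ≤ n → ∀ G : SimpleGraph (Fin n),
    c * n ^ v ≤ disc H G * Real.sqrt n := by
  classical
  obtain ⟨i0, j0, hij, hadj⟩ : ∃ i j, i < j ∧ H.Adj i j := by
    obtain ⟨i, j, h⟩ := ne_bot_iff_exists_adj.1 hH
    rcases lt_or_gt_of_ne h.ne with h' | h'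
    exacts [⟨i, j, h', h⟩, ⟨j, i, h', h.symm⟩]
  set ε : ℝ := (1 / 2) ^ #(EE H) / (12 * (#(EE H) + 1) * v.factorial) with hε
  have hε0 : 0 < ε := by positivity
  obtain ⟨K, hK, hP⟩ := find_parts v ε hε0
  have : Finite (H ≃g H) := Finite.of_injective (fun φ => (φ : Fin v → Fin v)) DFunLike.coe_injective
  have hA : (0 : ℝ) < Nat.card (H ≃g H) := by
    have : Nonempty (H ≃g H) := ⟨Iso.refl⟩
    exact_mod_cast Nat.card_pos
  refine ⟨(1 / 2) ^ #(EE H) / 2 / K ^ v / (8 * (2 ^ v * Nat.card (H ≃g H))), by positivity, K,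
    fun n hn G => ?_⟩
  obtain ⟨S, p, h1, h2, h3, h4, h5⟩ := hP (Fin n) G (by simpa using hn)
  rw [Fintype.card_fin] at h2
  have h0 : ∀ i, 0 < #(S i) := fun i => by
    have := h2 i
    by_contra h
    rw [Nat.eq_zero_of_not_pos h] at this
    omega
  let Φ : Fin n → Fin n → ℝ := fun x y => ∑ σ : Equiv.Perm (Fin v),
    ∑ f ∈ Fintype.piFinset (fun i => S (σ i)), ind (f (σ.symm i0) = x ∧ f (σ.symm j0) = y) * aa H G f
  have e1 : ∀ (X Y : Finset (Fin n)) (g : Fin n → Fin n → ℝ), ∑ x ∈ X, ∑ y ∈ Y, g x y * Φ x y =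
      ∑ σ : Equiv.Perm (Fin v), ∑ f ∈ Fintype.piFinset (fun i => S (σ i)),
        ind (f (σ.symm i0) ∈ X ∧ f (σ.symm j0) ∈ Y) * (g (f (σ.symm i0)) (f (σ.symm j0)) * aa H G f) := by
    intro X Y g
    simp only [Φ, mul_sum, ← mul_assoc, ← sum_pt, sum_mul]
    rw [sum_congr rfl fun x _ => sum_comm, sum_comm]
    refine sum_congr rfl fun σ _ => ?_
    rw [sum_congr rfl fun x _ => sum_comm, sum_comm]
  have r := rect Φ (S i0) (S j0) (2 ^ v * (Nat.card (H ≃g H) * disc H G)) (by
    intro A hA B hB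
    have a1 := e1 A B (fun _ _ => 1)
    simp only [one_mul] at a1
    let S' := Function.update (Function.update S i0 A) j0 B
    have hS' : ∀ i, S' i ⊆ S i := fun i => by
      by_cases h : i = j0
      · simpa [S', h] using hB
      · by_cases h' : i = i0
        · simpa [S', h', hij.ne] using hA
        · simp [S', h, h']
    have a2 := polar (aa H G) (Nat.card (H ≃g H) * disc H G) (fun T => by
      rw [abs_D]
      refine mul_le_mul_of_nonneg_left (Nat.cast_le.2 ?_) (by positivity)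
      exact le_sup (f := fun S : Finset (Fin n) => ((hc H G S : ℤ) - (hc H Gᶜ S : ℤ)).natAbs)
        (mem_univ T)) S' (fun i j h => (h1 i j h).mono (hS' i) (hS' j))
    rw [Fintype.card_fin] at a2
    rw [a1]
    refine le_trans (le_of_eq ?_) a2
    congr 1
    refine sum_congr rfl fun σ _ => ?_
    rw [sum_ind_mul]
    congr 1
    ext f
    simp only [mem_filter, Fintype.mem_piFinset]
    constructor
    · rintro ⟨b1, b2, b3⟩ i
      by_cases h : σ i = j0
      · have : i = σ.symm j0 := by simp [← h]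
        simpa [S', this] using b3
      · by_cases h' : σ i = i0
        · have : i = σ.symm i0 := by simp [← h']
          simpa [S', this, hij.ne] using b2
        · simpa [S', h, h'] using b1 i
    · intro h
      exact ⟨fun i => hS' _ (h i), by simpa [S', hij.ne] using h (σ.symm i0),
        by simpa [S'] using h (σ.symm j0)⟩)
  have a3 : ∑ x ∈ S i0, ∑ y ∈ S j0, (2 * ind (G.Adj x y) - 1) * Φ x y ≤
      ∑ x ∈ S i0, ∑ y ∈ S j0, |Φ x y| := by
    refine sum_le_sum fun x _ => sum_le_sum fun y _ => (le_abs_self _).trans ?_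
    rw [abs_mul]
    refine mul_le_of_le_one_left (abs_nonneg _) (abs_le.2 ?_)
    have := ind_nonneg (G.Adj x y); have := ind_le_one (G.Adj x y)
    constructor <;> linarith
  rw [e1] at a3
  have a4 : ∀ σ : Equiv.Perm (Fin v), (ind (σ = 1) * (1 / 2) ^ #(EE H) - 6 * (#(EE H) + 1) * ε) *
      ∏ i, (#(S i) : ℝ) ≤ ∑ f ∈ Fintype.piFinset (fun i => S (σ i)),
        ind (f (σ.symm i0) ∈ S i0 ∧ f (σ.symm j0) ∈ S j0) *
          ((2 * ind (G.Adj (f (σ.symm i0)) (f (σ.symm j0))) - 1) * aa H G f) := by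
    intro σ
    rw [sum_congr rfl (g := fun f => (2 * ind (G.Adj (f (σ.symm i0)) (f (σ.symm j0))) - 1) * aa H G f)
      fun f hf => by
        rw [Fintype.mem_piFinset] at hf
        rw [ind_pos ⟨by simpa using hf (σ.symm i0), by simpa using hf (σ.symm j0)⟩, one_mul]]
    have b := corr H G ε hε0.le (fun i => S (σ i)) (fun i j => p (σ i) (σ j)) (fun i => h0 _)
      (fun i j h => h1 _ _ (σ.injective.ne h)) (fun i j h => h3 _ _ (σ.injective.ne h))
      (fun i j => h4 _ _) (h5.imp (fun h i j h' => h _ _ (σ.injective.ne h'))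
        (fun h i j h' => h _ _ (σ.injective.ne h')))
    rw [Fintype.card_piFinset, Equiv.prod_comp σ (fun i => #(S i)), Nat.cast_prod] at b
    have b0 : ind (σ = 1) ≤ ind (H.Adj (σ.symm i0) (σ.symm j0)) := by
      by_cases h : σ = 1
      · rw [ind_pos h, ind_pos (by subst h; exact hadj)]
      · rw [ind_neg h]; exact ind_nonneg _
    refine le_trans (mul_le_mul_of_nonneg_right (sub_le_sub_right
      (mul_le_mul_of_nonneg_right b0 (by positivity)) _)
      (prod_nonneg fun i _ => Nat.cast_nonneg _)) ?_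
    rcases lt_or_gt_of_ne (σ.symm.injective.ne hij.ne) with h | h
    · exact b _ _ h
    · have b2 := b _ _ h
      rw [H.adj_comm] at b2
      exact b2.trans (le_of_eq (sum_congr rfl fun f _ => by rw [G.adj_comm]))
  have a5 := ((sum_le_sum fun σ _ => a4 σ).trans a3).trans r
  rw [← sum_mul, sum_sub_distrib, ← sum_mul, sum_eq_single 1 (fun σ _ h => ind_neg h) (by simp),
    ind_pos rfl, sum_const, card_univ, Fintype.card_perm, Fintype.card_fin, nsmul_eq_mul] at a5
  have a6 : 1 * (1 / 2 : ℝ) ^ #(EE H) - v.factorial * (6 * (#(EE H) + 1) * ε) =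
      (1 / 2) ^ #(EE H) / 2 := by rw [hε]; field_simp; ring
  have a7 : (n : ℝ) ^ v / K ^ v ≤ ∏ i, (#(S i) : ℝ) := by
    rw [← div_pow]
    have := prod_le_prod (s := univ) (f := fun _ : Fin v => (n : ℝ) / K) (g := fun i => (#(S i) : ℝ))
      (fun _ _ => by positivity) fun i _ => by
        rw [div_le_iff₀ (by positivity), mul_comm]; exact_mod_cast h2 i
    rwa [prod_const, card_univ, Fintype.card_fin] at this
  have a8 : Real.sqrt #(S j0) ≤ Real.sqrt n :=
    Real.sqrt_le_sqrt (by exact_mod_cast (card_le_univ _).trans (by simp))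
  rw [a6] at a5
  rw [div_mul_eq_mul_div, div_le_iff₀ (by positivity)]
  calc _ = (1 / 2) ^ #(EE H) / 2 * ((n : ℝ) ^ v / K ^ v) := by ring
    _ ≤ _ := mul_le_mul_of_nonneg_left a7 (by positivity)
    _ ≤ _ := a5
    _ ≤ 8 * (2 ^ v * (Nat.card (H ≃g H) * disc H G)) * Real.sqrt n := by gcongr
    _ = _ := by ring

open Pool.Agent.H13.Unique in
theorem upper (n : ℕ) (hn : 0 < n) : ∃ G : SimpleGraph (Fin n),
    disc H G * Real.sqrt n ≤ 4 * (v + 1) ^ 2 * n ^ v := by
  classical
  have hn' : (1 : ℝ) ≤ n := by exact_mod_cast hn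
  have adj : ∀ (B : Finset (Pr n)) (a b : Fin n) (h : a ≠ b), (gr B).Adj a b ↔
      (⟨s(a, b), by simpa using h⟩ : Pr n) ∈ B := fun B a b h => by rw [← mem_gr]; rfl
  have hcompl : ∀ B : Finset (Pr n), gr Bᶜ = (gr B)ᶜ := by
    intro B
    ext a b
    by_cases h : a = b
    · simp [h]
    · rw [compl_adj, adj _ _ _ h, adj _ _ _ h, mem_compl, and_iff_right h]
  have hs := Real.sq_sqrt (show (0 : ℝ) ≤ n by linarith)
  have hs1 : 1 ≤ Real.sqrt n := Real.one_le_sqrt.2 hn'
  set c : ℝ := 2 * (v + 1) ^ 2 * (n ^ v / n ^ 2) with hc'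
  have hc0 : 0 < c := by positivity
  obtain ⟨B, hB⟩ := exists_small (fun (S : Finset (Fin n)) (B : Finset (Pr n)) =>
    ∑ f ∈ Fintype.piFinset (fun _ : Fin v => S), aa H (gr B) f) c (2 * c * n * Real.sqrt n)
    (4 * Real.sqrt n / (c * n)) (by positivity) (by
      rintro S ⟨e, he⟩ B
      induction e using Sym2.ind with
      | _ x y =>
      rw [← sum_sub_distrib]
      refine (abs_sum_le_sum_abs _ _).trans ?_
      have b1 : ∀ f : Fin v → Fin n, |aa H (gr (insert ⟨s(x, y), he⟩ B)) f - aa H (gr B) f| ≤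
          2 * ∑ i, ∑ j, ind (i ≠ j) * ind (f i = x ∧ f j = y) := by
        intro f
        have nn : ∀ i j, 0 ≤ ind (i ≠ j) * ind (f i = x ∧ f j = y) := fun i j =>
          mul_nonneg (ind_nonneg _) (ind_nonneg _)
        by_cases h : ∃ i j, i ≠ j ∧ f i = x ∧ f j = y
        · obtain ⟨i, j, h1, h2⟩ := h
          have : 1 ≤ ∑ i, ∑ j, ind (i ≠ j) * ind (f i = x ∧ f j = y) := by
            refine le_trans ?_ (single_le_sum (f := fun i => ∑ j, ind (i ≠ j) * ind (f i = x ∧ f j = y))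
              (fun i _ => sum_nonneg fun j _ => nn i j) (mem_univ i))
            refine le_trans ?_ (single_le_sum (fun j _ => nn i j) (mem_univ j))
            rw [ind_pos h1, ind_pos h2, one_mul]
          have g := fun F => And.intro (ind_nonneg (cp H F f)) (ind_le_one (cp H F f))
          simp only [aa]
          rw [abs_le]
          constructor <;> linarith [g (gr B), g (gr B)ᶜ, g (gr (insert ⟨s(x, y), he⟩ B)),
            g (gr (insert ⟨s(x, y), he⟩ B))ᶜ]
        · have k : ∀ i j, i ≠ j → ((gr (insert ⟨s(x, y), he⟩ B)).Adj (f i) (f j) ↔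
              (gr B).Adj (f i) (f j)) := by
            intro i j hij
            by_cases h' : f i = f j
            · simp [h']
            · rw [adj _ _ _ h', adj _ _ _ h', mem_insert, or_iff_right]
              intro h2
              rcases Sym2.eq_iff.1 (congrArg Subtype.val h2) with h3 | h3
              exacts [h ⟨i, j, hij, h3⟩, h ⟨j, i, hij.symm, h3.symm⟩]
          have k1 : cp H (gr (insert ⟨s(x, y), he⟩ B)) f ↔ cp H (gr B) f :=
            and_congr_right fun _ => forall₂_congr fun i j => forall_congr' fun h => k i j h.ne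
          have k2 : cp H (gr (insert ⟨s(x, y), he⟩ B))ᶜ f ↔ cp H (gr B)ᶜ f :=
            and_congr_right fun _ => forall₂_congr fun i j => forall_congr' fun h => by
              rw [compl_adj, compl_adj, k i j h.ne]
          simp only [aa, k1, k2, sub_self, abs_zero]
          exact mul_nonneg zero_le_two (sum_nonneg fun i _ => sum_nonneg fun j _ => nn i j)
      have b2 : ∀ i j : Fin v, ∑ f ∈ Fintype.piFinset (fun _ : Fin v => (univ : Finset (Fin n))),
          ind (i ≠ j) * ind (f i = x ∧ f j = y) ≤ n ^ v / n ^ 2 := by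
        intro i j
        by_cases h : i = j
        · simp only [ind_neg (not_not.2 h), zero_mul, sum_const_zero]; positivity
        rw [le_div_iff₀ (by positivity), ind_pos h]
        have r1 := resample (fun _ : Fin v => (univ : Finset (Fin n))) j
          (fun f => 1 * ind (f i = x ∧ f j = y))
        have r2 := resample (fun _ : Fin v => (univ : Finset (Fin n))) i
          (fun f => ∑ b, 1 * ind (Function.update f j b i = x ∧ Function.update f j b j = y))
        rw [r1] at r2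
        simp only [Function.update_self, Function.update_of_ne h, eq_comm (b := x), eq_comm (b := y)] at r2
        have r3 := sum_pt univ univ (fun _ _ => 1) x y
        simp only [r3, mem_univ, and_self, ind_pos trivial, sum_const, Fintype.card_piFinset,
          card_univ, Fintype.card_fin, prod_const, nsmul_eq_mul] at r2
        simp only [eq_comm (b := x), eq_comm (b := y)]
        push_cast at r2
        linarith
      calc _ ≤ ∑ f ∈ Fintype.piFinset (fun _ : Fin v => (univ : Finset (Fin n))),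
            |aa H (gr (insert ⟨s(x, y), he⟩ B)) f - aa H (gr B) f| :=
            sum_le_sum_of_subset_of_nonneg (Fintype.piFinset_subset _ _ fun _ => subset_univ _)
              fun _ _ _ => abs_nonneg _
        _ ≤ _ := sum_le_sum fun f _ => b1 f
        _ ≤ 2 * ∑ i : Fin v, ∑ j : Fin v, (n : ℝ) ^ v / n ^ 2 := by
            rw [← mul_sum, sum_comm]
            refine mul_le_mul_of_nonneg_left (sum_le_sum fun i _ => ?_) zero_le_two
            rw [sum_comm]
            exact sum_le_sum fun j _ => b2 i j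
        _ ≤ c := by
            simp only [sum_const, card_univ, Fintype.card_fin, nsmul_eq_mul, hc']
            have : (0 : ℝ) ≤ (n : ℝ) ^ v / n ^ 2 := by positivity
            have : (0 : ℝ) ≤ v := by positivity
            nlinarith) (by
      intro S
      have := (Equiv.ofBijective _ (compl_bijective (α := Finset (Pr n)))).sum_comp
        (fun B => ∑ f ∈ Fintype.piFinset (fun _ : Fin v => S), aa H (gr B) f)
      simp only [Equiv.ofBijective_apply, hcompl, aa, compl_compl, sum_sub_distrib] at this ⊢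
      linarith) (by
      rw [Fintype.card_finset, Fintype.card_fin, card_Pr]
      have e1 : (4 * Real.sqrt n / (c * n) * c) ^ 2 / 8 = 2 / n := by
        rw [show 4 * Real.sqrt n / (c * n) * c = 4 * Real.sqrt n / n by field_simp, div_pow, mul_pow,
          hs]
        field_simp; norm_num
      have e2 : 4 * Real.sqrt n / (c * n) * (2 * c * n * Real.sqrt n) = 8 * n := by
        field_simp; linarith
      have e3 : (n.choose 2 : ℝ) * (2 / n) ≤ 2 * n := by
        rw [Nat.cast_choose_two, mul_div_assoc', div_le_iff₀ (by linarith)]; nlinarith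
      rw [e1, e2]
      have e4 : Real.exp ((n.choose 2 : ℝ) * (2 / n) - 8 * n) ≤ Real.exp (-6) ^ n := by
        rw [← Real.exp_nat_mul, Real.exp_le_exp]; linarith
      have e5 : Real.exp (-6) ≤ 1 / 7 := by
        rw [Real.exp_neg, one_div]
        exact inv_anti₀ (by norm_num) (by linarith [Real.add_one_le_exp 6])
      have e6 : (2 * (1 / 7) : ℝ) ^ n ≤ 2 * (1 / 7) := pow_le_of_le_one (by norm_num) (by norm_num) hn.ne'
      push_cast
      calc _ ≤ 2 * (2 : ℝ) ^ n * (1 / 7) ^ n := by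
            gcongr; exact e4.trans (pow_le_pow_left₀ (by positivity) e5 n)
        _ < 1 := by rw [mul_assoc, ← mul_pow]; linarith)
  refine ⟨gr B, ?_⟩
  obtain ⟨S, -, hS⟩ := exists_mem_eq_sup univ univ_nonempty
    (fun S : Finset (Fin n) => ((hc H (gr B) S : ℤ) - (hc H (gr B)ᶜ S : ℤ)).natAbs)
  have h1 := hB S
  rw [abs_D, ← hS] at h1
  have : Finite (H ≃g H) := Finite.of_injective (fun φ => (φ : Fin v → Fin v)) DFunLike.coe_injective
  have hA : (1 : ℝ) ≤ Nat.card (H ≃g H) := by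
    have : Nonempty (H ≃g H) := ⟨Iso.refl⟩
    exact_mod_cast Nat.card_pos
  have h2 : (disc H (gr B) : ℝ) ≤ 2 * c * n * Real.sqrt n :=
    (le_mul_of_one_le_left (by positivity) hA).trans h1
  refine (mul_le_mul_of_nonneg_right h2 (by positivity)).trans (le_of_eq ?_)
  rw [mul_assoc, ← sq, hs, hc']
  field_simp; norm_num

theorem main (hH : H ≠ ⊥) : ∃ c C : ℝ, 0 < c ∧ 0 < C ∧ ∃ n₀ : ℕ, ∀ n, n₀ ≤ n →
    c * (n : ℝ) ^ ((v : ℝ) - 1 / 2) ≤ fH H n ∧ (fH H n : ℝ) ≤ C * (n : ℝ) ^ ((v : ℝ) - 1 / 2) := by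
  obtain ⟨c, hc, n₀, h⟩ := lower H hH
  refine ⟨c, 4 * (v + 1) ^ 2, hc, by positivity, n₀ + 1, fun n hn => ?_⟩
  have hn' : (0 : ℝ) < n := by exact_mod_cast (by omega : 0 < n)
  have e : (n : ℝ) ^ ((v : ℝ) - 1 / 2) = n ^ v / Real.sqrt n := by
    rw [Real.rpow_sub hn', Real.rpow_natCast, Real.sqrt_eq_rpow]
  have hs := Real.sqrt_pos.2 hn'
  rw [e, mul_div_assoc', mul_div_assoc', div_le_iff₀ hs, le_div_iff₀ hs]
  constructor
  · obtain ⟨G, hG⟩ := Nat.sInf_mem (s := {d : ℕ | ∃ G : SimpleGraph (Fin n), disc H G = d})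
      ⟨_, ⊥, rfl⟩
    rw [fH, ← hG]
    exact h n (by omega) G
  · obtain ⟨G, hG⟩ := upper H n (by omega)
    have : fH H n ≤ disc H G := Nat.sInf_le ⟨G, rfl⟩
    exact (mul_le_mul_of_nonneg_right (Nat.cast_le.2 this) hs.le).trans hG

theorem edgeless (n : ℕ) : fH (⊥ : SimpleGraph (Fin v)) n = 0 := by
  refine Nat.eq_zero_of_le_zero (Nat.sInf_le ⟨⊥, Nat.eq_zero_of_le_zero (Finset.sup_le fun S _ => ?_)⟩)
  have := abs_D (⊥ : SimpleGraph (Fin v)) (⊥ : SimpleGraph (Fin n)) S
  have hf : Finite ((⊥ : SimpleGraph (Fin v)) ≃g (⊥ : SimpleGraph (Fin v))) :=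
    Finite.of_injective (fun φ => (φ : Fin v → Fin v)) DFunLike.coe_injective
  have hA : 0 < Nat.card ((⊥ : SimpleGraph (Fin v)) ≃g (⊥ : SimpleGraph (Fin v))) := by
    have : Nonempty ((⊥ : SimpleGraph (Fin v)) ≃g (⊥ : SimpleGraph (Fin v))) := ⟨Iso.refl⟩
    exact Nat.card_pos
  simp only [aa, cp, bot_adj, false_imp_iff, implies_true, sub_self, sum_const_zero, abs_zero,
    zero_eq_mul, Nat.cast_eq_zero] at this
  omega

end Pool.Agent.H13.Disc
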