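import Mathlib

set_option autoImplicit false

namespace Pool.Agent.H13.Eul
open Finset Polynomial Equiv

def des {n : ℕ} (π : Perm (Fin n)) : ℕ :=
  ((Finset.univ : Finset (Fin n × Fin n)).filter
    (fun p => p.2.val = p.1.val + 1 ∧ π p.2 < π p.1)).card

noncomputable def P (n : ℕ) (s : ℤˣ) : ℝ[X] :=
  ∑ π ∈ univ.filter (fun π : Perm (Fin n) => Perm.sign π = s), X ^ des π

def D {N : ℕ} (π : Perm (Fin (N + 1))) : Finset (Fin N) :=
  univ.filter (fun l => π l.succ < π l.castSucc)

lemma des_eq {N : ℕ} (π : Perm (Fin (N + 1))) : des π = (D π).card := by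
  symm
  apply Finset.card_bij (fun l _ => (l.castSucc, l.succ))
  · intro l hl
    simp only [D, mem_filter, mem_univ, true_and] at hl ⊢
    exact ⟨by simp, hl⟩
  · intro a _ b _ h
    exact Fin.castSucc_injective _ (Prod.ext_iff.1 h).1
  · rintro ⟨a, b⟩ h
    simp only [mem_filter, mem_univ, true_and] at h
    obtain ⟨h1, h2⟩ := h
    have hb := b.2
    have e1 : (⟨a.val, by omega⟩ : Fin N).castSucc = a := Fin.ext rfl
    have e2 : (⟨a.val, by omega⟩ : Fin N).succ = b := Fin.ext (by simp [h1])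
    refine ⟨⟨a.val, by omega⟩, ?_, by rw [e1, e2]⟩
    simp only [D, mem_filter, mem_univ, true_and]
    rw [e1, e2]; exact h2

lemma des_le {N : ℕ} (π : Perm (Fin (N + 1))) : des π ≤ N := by
  rw [des_eq]; simpa using card_le_univ (D π)

def asc {N : ℕ} (π : Perm (Fin (N + 1))) (i : ℕ) : ℕ :=
  (univ.filter (fun l : Fin N => l.val < i ∧ l ∉ D π)).card

lemma asc_zero {N : ℕ} (π : Perm (Fin (N + 1))) : asc π 0 = 0 := by simp [asc]

lemma asc_succ {N : ℕ} (π : Perm (Fin (N + 1))) (l : Fin N) :
    asc π (l.val + 1) = asc π l.val + if l ∈ D π then 0 else 1 := by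
  unfold asc
  split_ifs with h
  · rw [add_zero]; congr 1; ext x
    simp only [mem_filter, mem_univ, true_and]
    constructor
    · rintro ⟨h1, h2⟩
      refine ⟨?_, h2⟩
      rcases Nat.lt_succ_iff_lt_or_eq.1 h1 with h3 | h3
      · exact h3
      · exact absurd (Fin.ext h3 ▸ h) h2
    · rintro ⟨h1, h2⟩; exact ⟨by omega, h2⟩
  · rw [← card_insert_of_notMem (a := l) (by simp)]
    congr 1; ext x
    simp only [mem_filter, mem_univ, true_and, mem_insert]
    constructor
    · rintro ⟨h1, h2⟩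
      rcases Nat.lt_succ_iff_lt_or_eq.1 h1 with h3 | h3
      · exact Or.inr ⟨h3, h2⟩
      · exact Or.inl (Fin.ext h3)
    · rintro (rfl | ⟨h1, h2⟩)
      · exact ⟨by omega, h⟩
      · exact ⟨by omega, h2⟩

lemma asc_last {N : ℕ} (π : Perm (Fin (N + 1))) : asc π N + des π = N := by
  rw [des_eq, asc]
  have : (univ.filter (fun l : Fin N => l.val < N ∧ l ∉ D π)) = (D π)ᶜ := by
    ext x; simp
  rw [this, card_compl]
  have := card_le_univ (D π)
  simp at this ⊢; omega

lemma asc_mono {N : ℕ} (π : Perm (Fin (N + 1))) {i j : ℕ} (h : i ≤ j) : asc π i ≤ asc π j := by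
  apply card_le_card; intro x; simp only [mem_filter, mem_univ, true_and]
  rintro ⟨h1, h2⟩; exact ⟨by omega, h2⟩

lemma sort_iff {N k : ℕ} (π : Perm (Fin (N + 1))) (g : Fin (N + 1) → Fin (k + 1)) :
    π = Tuple.sort g ↔ StrictMono (fun i : Fin (N + 1) => (g (π i)).val + asc π i.val) := by
  rw [Tuple.eq_sort_iff, Fin.strictMono_iff_lt_succ]
  constructor
  · rintro ⟨h1, h2⟩ l
    have a1 : g (π l.castSucc) ≤ g (π l.succ) := h1 (Fin.castSucc_le_succ l)
    simp only [Fin.val_succ, Fin.val_castSucc, asc_succ]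
    split_ifs with h
    · have : g (π l.castSucc) ≠ g (π l.succ) := fun e => by
        have := h2 _ _ (Fin.castSucc_lt_succ (i := l)) e
        simp only [D, mem_filter, mem_univ, true_and] at h
        exact absurd this (not_lt.2 h.le)
      have := lt_of_le_of_ne a1 this
      rw [Fin.lt_def] at this; omega
    · rw [Fin.le_def] at a1; omega
  · intro h
    have key : StrictMono (fun i : Fin (N + 1) => toLex (g (π i), π i)) := by
      rw [Fin.strictMono_iff_lt_succ]
      intro l
      have := h l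
      simp only [Fin.val_succ, Fin.val_castSucc, asc_succ] at this
      rw [Prod.Lex.toLex_lt_toLex]
      split_ifs at this with hd
      · left; rw [Fin.lt_def]; simp only; omega
      · simp only [D, mem_filter, mem_univ, true_and, not_lt] at hd
        have hne : π l.castSucc ≠ π l.succ := fun e => by
          have := π.injective e
          exact absurd this (Fin.castSucc_lt_succ (i := l)).ne
        have hle : g (π l.castSucc) ≤ g (π l.succ) := by rw [Fin.le_def]; omega
        rcases hle.lt_or_eq with h3 | h3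
        · exact Or.inl h3
        · exact Or.inr ⟨h3, lt_of_le_of_ne hd hne⟩
    refine ⟨fun i j hij => ?_, fun i j hij e => ?_⟩
    · have := key.monotone hij
      simp only [Prod.Lex.toLex_le_toLex] at this
      rcases this with h3 | h3
      · exact h3.le
      · exact h3.1.le
    · have := key hij
      simp only [Prod.Lex.toLex_lt_toLex] at this
      rcases this with h3 | h3
      · exact absurd e h3.ne
      · exact h3.2

lemma card_fib {N k : ℕ} (π : Perm (Fin (N + 1))) :
    (univ.filter (fun g : Fin (N + 1) → Fin (k + 1) => Tuple.sort g = π)).card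
      = (k + (N + 1) - des π).choose (N + 1) := by
  have hc : Nat.card (Fin (N + 1) ↪o Fin (k + (N + 1) - des π))
      = (k + (N + 1) - des π).choose (N + 1) := by
    rw [Nat.card_congr Set.powersetCard.ofFinEmbEquiv, Set.powersetCard.card]; simp
  rw [← hc, ← Fintype.card_subtype, ← Nat.card_eq_fintype_card]
  have hl := asc_last π
  have bd : ∀ (g : Fin (N + 1) → Fin (k + 1)) (i : Fin (N + 1)),
      (g (π i)).val + asc π i.val < k + (N + 1) - des π := by
    intro g i
    have := asc_mono π (show i.val ≤ N by omega)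
    have := (g (π i)).2
    omega
  let F : {g : Fin (N + 1) → Fin (k + 1) // Tuple.sort g = π} →
      (Fin (N + 1) ↪o Fin (k + (N + 1) - des π)) := fun g =>
    OrderEmbedding.ofStrictMono (fun i => ⟨(g.1 (π i)).val + asc π i.val, bd g.1 i⟩)
      (fun i j hij => (sort_iff π g.1).1 g.2.symm hij)
  apply Nat.card_eq_of_bijective F
  constructor
  · intro g g' h
    apply Subtype.ext; funext x
    have := congrArg (fun w => (w (π.symm x)).val) h
    simp only [F, OrderEmbedding.coe_ofStrictMono, apply_symm_apply] at this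
    exact Fin.ext (by omega)
  · intro w
    have hm : Monotone (fun i : Fin (N + 1) => ((w i).val : ℤ) - asc π i.val) := by
      rw [Fin.monotone_iff_le_succ]
      intro l
      have := w.strictMono (Fin.castSucc_lt_succ (i := l))
      rw [Fin.lt_def] at this
      simp only [Fin.val_succ, Fin.val_castSucc, asc_succ]
      split_ifs <;> push_cast <;> omega
    have h0 : ∀ i : Fin (N + 1), asc π i.val ≤ (w i).val := by
      intro i
      have := hm (Fin.zero_le i)
      simp only [Fin.val_zero, asc_zero] at this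
      omega
    have h1 : ∀ i : Fin (N + 1), (w i).val - asc π i.val < k + 1 := by
      intro i
      have := hm (Fin.le_last i)
      simp only [Fin.val_last] at this
      have := (w (Fin.last N)).2
      have := des_le π
      omega
    let g : Fin (N + 1) → Fin (k + 1) := fun x => ⟨(w (π.symm x)).val - asc π (π.symm x).val, h1 _⟩
    have hg : ∀ i, (g (π i)).val + asc π i.val = (w i).val := by
      intro i; simp only [g, symm_apply_apply]; have := h0 i; omega
    refine ⟨⟨g, ((sort_iff π g).2 ?_).symm⟩, ?_⟩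
    · intro i j hij; simp only [hg]; exact w.strictMono hij
    · ext i; simp only [F, OrderEmbedding.coe_ofStrictMono, hg]

def ep {k : ℕ} (x y : Fin k) : ℤ := if x ≤ y then 1 else -1

lemma sign_sort {n k : ℕ} (g : Fin n → Fin k) :
    ((Perm.sign (Tuple.sort g) : ℤˣ) : ℤ) = ∏ a, ∏ b ∈ Ioi a, ep (g a) (g b) := by
  rw [← Perm.sign_inv, Perm.sign_eq_prod_prod_Ioi]
  push_cast
  refine prod_congr rfl fun a _ => prod_congr rfl fun b hb => ?_
  have hab : a < b := mem_Ioi.1 hb
  obtain ⟨h1, h2⟩ := (Tuple.eq_sort_iff (f := g) (σ := Tuple.sort g)).1 rfl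
  set σ := Tuple.sort g
  have ea : σ (σ⁻¹ a) = a := by simp
  have eb : σ (σ⁻¹ b) = b := by simp
  have : σ⁻¹ a < σ⁻¹ b ↔ g a ≤ g b := by
    constructor
    · intro h
      have := h1 h.le
      simpa only [Function.comp, ea, eb] using this
    · intro h
      by_contra hc
      have hne : σ⁻¹ b ≠ σ⁻¹ a := fun e => hab.ne' (σ⁻¹.injective e)
      have hlt : σ⁻¹ b < σ⁻¹ a := lt_of_le_of_ne (not_lt.1 hc) hne
      have h3 := h1 hlt.le
      simp only [Function.comp, ea, eb] at h3
      have := h2 _ _ hlt (by rw [ea, eb]; exact le_antisymm h3 h)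
      rw [ea, eb] at this
      exact absurd this (not_lt.2 hab.le)
  unfold ep
  by_cases h : g a ≤ g b
  · rw [if_pos h, if_pos (this.2 h)]; simp
  · rw [if_neg h, if_neg (fun x => h (this.1 x))]; simp

def W (n k : ℕ) : ℤ := ∑ g : Fin n → Fin k, ∏ a, ∏ b ∈ Ioi a, ep (g a) (g b)

lemma prod_cons {n k : ℕ} (x : Fin k) (g : Fin n → Fin k) :
    (∏ a, ∏ b ∈ Ioi a, ep ((Fin.cons x g : Fin (n + 1) → Fin k) a)
      ((Fin.cons x g : Fin (n + 1) → Fin k) b))
      = (∏ b, ep x (g b)) * ∏ a, ∏ b ∈ Ioi a, ep (g a) (g b) := by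
  rw [Fin.prod_univ_succ, Fin.prod_Ioi_zero]
  simp only [Fin.cons_zero, Fin.cons_succ, Fin.prod_Ioi_succ]

lemma sum_cons {n k : ℕ} (F : (Fin (n + 1) → Fin k) → ℤ) :
    ∑ g, F g = ∑ g : Fin n → Fin k, ∑ x : Fin k, F (Fin.cons x g) := by
  rw [← (Fin.consEquiv (fun _ : Fin (n + 1) => Fin k)).sum_comp, Fintype.sum_prod_type, sum_comm]
  rfl

lemma pair_sum {k : ℕ} (φ : Fin k → ℤ) (h : ∀ x, φ x * φ x = 1) :
    ∑ y, ∑ x, ep x y * (φ x * φ y) = k := by
  have h2 : ∑ y, ∑ x, ep x y * (φ x * φ y) = ∑ y, ∑ x, ep y x * (φ x * φ y) := by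
    rw [sum_comm]; refine sum_congr rfl fun y _ => sum_congr rfl fun x _ => by ring
  have h3 : (∑ y, ∑ x, ep x y * (φ x * φ y)) + ∑ y, ∑ x, ep y x * (φ x * φ y) = 2 * k := by
    rw [← sum_add_distrib]
    have : ∀ y, (∑ x, ep x y * (φ x * φ y)) + ∑ x, ep y x * (φ x * φ y) = 2 := by
      intro y
      rw [← sum_add_distrib, sum_eq_single y]
      · simp [ep, h y]
      · intro x _ hx
        unfold ep
        rcases lt_or_gt_of_ne hx with h1 | h1
        · simp [h1.le, not_le.2 h1]
        · simp [h1.le, not_le.2 h1]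
      · simp
    simp [this]; ring
  linarith

lemma W_eq (k : ℕ) : ∀ n, W n k = (k : ℤ) ^ ((n + 1) / 2)
  | 0 => by simp [W]
  | 1 => by
    unfold W
    rw [sum_cons]; simp
  | n + 2 => by
    have ih := W_eq k n
    have e : (n + 2 + 1) / 2 = (n + 1) / 2 + 1 := by omega
    rw [e, pow_succ, ← ih]
    unfold W
    rw [sum_cons, sum_cons, sum_mul]
    refine sum_congr rfl fun g _ => ?_
    have : ∀ (y x : Fin k), (∏ a, ∏ b ∈ Ioi a,
        ep ((Fin.cons x (Fin.cons y g : Fin (n + 1) → Fin k) : Fin (n + 2) → Fin k) a)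
          ((Fin.cons x (Fin.cons y g : Fin (n + 1) → Fin k) : Fin (n + 2) → Fin k) b))
        = (ep x y * ∏ b, ep x (g b)) * ((∏ b, ep y (g b)) * ∏ a, ∏ b ∈ Ioi a, ep (g a) (g b)) := by
      intro y x
      rw [prod_cons, prod_cons, Fin.prod_univ_succ]
      simp only [Fin.cons_zero, Fin.cons_succ]
    simp only [this]
    rw [← pair_sum (fun x => ∏ b, ep x (g b)), mul_sum]
    · refine sum_congr rfl fun y _ => ?_
      rw [mul_sum]; refine sum_congr rfl fun x _ => by ring
    · intro x
      rw [← prod_mul_distrib]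
      apply prod_eq_one; intro b _; unfold ep; split_ifs <;> simp

lemma count {N : ℕ} (s : ℤˣ) (k : ℕ) :
    2 * ∑ π ∈ univ.filter (fun π : Perm (Fin (N + 1)) => Perm.sign π = s),
      (((k + (N + 1) - des π).choose (N + 1) : ℕ) : ℤ)
      = ((k : ℤ) + 1) ^ (N + 1) + (s : ℤ) * ((k : ℤ) + 1) ^ ((N + 2) / 2) := by
  have hW := W_eq (k + 1) (N + 1)
  unfold W at hW
  simp only [← sign_sort] at hW
  push_cast at hW
  rw [← hW, ← sum_fiberwise (s := univ) (g := fun g : Fin (N + 1) → Fin (k + 1) => Tuple.sort g)]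
  have h1 : ((k : ℤ) + 1) ^ (N + 1) = ∑ π : Perm (Fin (N + 1)),
      (((k + (N + 1) - des π).choose (N + 1) : ℕ) : ℤ) := by
    have := card_eq_sum_card_fiberwise (s := (univ : Finset (Fin (N + 1) → Fin (k + 1))))
      (t := univ) (f := fun g => Tuple.sort g) (by simp)
    simp only [card_fib] at this
    rw [← Nat.cast_sum, ← this]; simp
  rw [h1, mul_sum (a := (s : ℤ)), ← sum_add_distrib, sum_filter, mul_sum]
  refine sum_congr rfl fun π _ => ?_
  rw [sum_congr rfl (g := fun _ => ((Perm.sign π : ℤˣ) : ℤ))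
    (fun g hg => by rw [(mem_filter.1 hg).2]), sum_const, card_fib]
  rcases Int.units_eq_one_or s with rfl | rfl <;>
    rcases Int.units_eq_one_or (Perm.sign π) with h | h <;> simp [h] <;> ring

lemma hasSum_one {n d : ℕ} (hd : d ≤ n) {t : ℝ} (ht : |t| < 1) :
    HasSum (fun k : ℕ => (((k + n - d).choose n : ℕ) : ℝ) * t ^ k) (t ^ d / (1 - t) ^ (n + 1)) := by
  rw [← hasSum_nat_add_iff' d]
  have h0 : ∑ i ∈ range d, (((i + n - d).choose n : ℕ) : ℝ) * t ^ i = 0 := by
    apply sum_eq_zero; intro i hi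
    rw [Nat.choose_eq_zero_of_lt (by have := mem_range.1 hi; omega)]; simp
  rw [h0, sub_zero]
  have := (hasSum_choose_mul_geometric_of_norm_lt_one n (r := t) (by simpa using ht)).mul_left (t ^ d)
  rw [mul_one_div] at this
  have e : (fun k : ℕ => (((k + d + n - d).choose n : ℕ) : ℝ) * t ^ (k + d))
      = fun i => t ^ d * (((i + n).choose n : ℕ) * t ^ i) := by
    funext k; rw [show k + d + n - d = k + n by omega]; ring
  rw [e]; exact this

lemma eval_P (n : ℕ) (s : ℤˣ) (t : ℝ) :
    (P n s).eval t = ∑ π ∈ univ.filter (fun π : Perm (Fin n) => Perm.sign π = s), t ^ des π := by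
  simp [P, eval_finset_sum]

lemma hasSum_P {N : ℕ} (s : ℤˣ) {t : ℝ} (ht : |t| < 1) :
    HasSum (fun k : ℕ => (((k : ℝ) + 1) ^ (N + 1) + ((s : ℤ) : ℝ) * ((k : ℝ) + 1) ^ ((N + 2) / 2)) * t ^ k)
      (2 * (P (N + 1) s).eval t / (1 - t) ^ (N + 2)) := by
  have := (hasSum_sum (s := univ.filter (fun π : Perm (Fin (N + 1)) => Perm.sign π = s))
    (fun π _ => hasSum_one (n := N + 1) (d := des π) ((des_le π).trans (Nat.le_succ N)) ht)).mul_left 2
  rw [eval_P, mul_div_assoc, sum_div]
  have e : (fun k : ℕ => (((k : ℝ) + 1) ^ (N + 1) + ((s : ℤ) : ℝ) * ((k : ℝ) + 1) ^ ((N + 2) / 2)) * t ^ k)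
      = fun k : ℕ => 2 * ∑ π ∈ univ.filter (fun π : Perm (Fin (N + 1)) => Perm.sign π = s),
        (((k + (N + 1) - des π).choose (N + 1) : ℕ) : ℝ) * t ^ k := by
    funext k
    have := congrArg (fun z : ℤ => (z : ℝ)) (count (N := N) s k)
    push_cast at this
    rw [← this, ← sum_mul]; ring
  rw [e]; exact this

lemma natDegree_P {N : ℕ} (s : ℤˣ) : (P (N + 1) s).natDegree ≤ N := by
  apply natDegree_sum_le_of_forall_le
  intro π _; simpa using des_le π

lemma pos_one {N : ℕ} (s : ℤˣ) : 0 < (P (N + 2) s).eval 1 := by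
  rw [eval_P]
  apply sum_pos (by simp)
  rcases Int.units_eq_one_or s with rfl | rfl
  · exact ⟨1, by simp⟩
  · exact ⟨swap 0 1, by simp [Perm.sign_swap (show (0 : Fin (N + 2)) ≠ 1 by simp)]⟩

lemma des_rev {N : ℕ} (π : Perm (Fin (N + 1))) : des (Fin.revPerm * π) + des π = N := by
  rw [des_eq, des_eq]
  have : D (Fin.revPerm * π) = (D π)ᶜ := by
    ext l
    simp only [D, mem_filter, mem_univ, true_and, mem_compl, Perm.mul_apply, Fin.revPerm_apply,
      Fin.rev_lt_rev, not_lt]
    have hne : π l.castSucc ≠ π l.succ := fun e =>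
      absurd (π.injective e) (Fin.castSucc_lt_succ (i := l)).ne
    exact ⟨fun h => h.le, fun h => lt_of_le_of_ne h hne⟩
  rw [this, card_compl]
  have := card_le_univ (D π)
  simp at this ⊢; omega

lemma symm_P {N : ℕ} (s : ℤˣ) : ∃ s' : ℤˣ, ∀ t : ℝ, t ≠ 0 →
    (P (N + 1) s).eval t⁻¹ * t ^ N = (P (N + 1) s').eval t := by
  refine ⟨Perm.sign (Fin.revPerm : Perm (Fin (N + 1))) * s, fun t ht => ?_⟩
  rw [eval_P, eval_P, sum_mul]
  apply sum_bij (fun π _ => Fin.revPerm * π)
  · intro π h
    simp only [mem_filter, mem_univ, true_and] at h ⊢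
    rw [Perm.sign_mul, h]
  · intro a _ b _ h; exact mul_left_cancel h
  · intro b h
    simp only [mem_filter, mem_univ, true_and] at h
    refine ⟨Fin.revPerm⁻¹ * b, ?_, by simp⟩
    simp only [mem_filter, mem_univ, true_and]
    rw [Perm.sign_mul, h, Perm.sign_inv, ← mul_assoc, Int.units_mul_self, one_mul]
  · intro π _
    have := des_rev π
    rw [show t ^ N = t ^ des π * t ^ des (Fin.revPerm * π) by rw [← pow_add]; congr 1; omega,
      ← mul_assoc, ← mul_pow, inv_mul_cancel₀ ht, one_pow, one_mul]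

def co (n : ℕ) (s : ℤ) (i : ℕ) : ℤ :=
  ∑ l ∈ range (i + 1), (-1) ^ l * (((n + 1).descFactorial l / l.factorial : ℕ) : ℤ) *
    (((i - l + 1) ^ n : ℕ) + s * ((i - l + 1) ^ ((n + 1) / 2) : ℕ))

lemma ps_one {n d : ℕ} (hd : d ≤ n) :
    (1 - PowerSeries.X) ^ (n + 1) * (PowerSeries.mk fun k => (((k + n - d).choose n : ℕ) : ℝ))
      = PowerSeries.X ^ d := by
  have : (PowerSeries.mk fun k => (((k + n - d).choose n : ℕ) : ℝ))
      = PowerSeries.X ^ d * PowerSeries.mk fun k => (((n + k).choose n : ℕ) : ℝ) := by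
    ext k
    rw [PowerSeries.coeff_X_pow_mul', PowerSeries.coeff_mk]
    split_ifs with h
    · rw [PowerSeries.coeff_mk, show n + (k - d) = k + n - d by omega]
    · rw [Nat.choose_eq_zero_of_lt (by omega)]; simp
  rw [this, mul_left_comm, mul_comm ((1 - PowerSeries.X) ^ (n + 1)),
    PowerSeries.mk_add_choose_mul_one_sub_pow_eq_one, mul_one]

lemma coeff_one_sub (M l : ℕ) :
    PowerSeries.coeff l ((1 - PowerSeries.X : PowerSeries ℝ) ^ M) = (-1) ^ l * (M.choose l : ℝ) := by
  have : (1 - PowerSeries.X : PowerSeries ℝ) ^ M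
      = PowerSeries.rescale (-1) ((1 + PowerSeries.X) ^ M) := by
    rw [map_pow, map_add, map_one, PowerSeries.rescale_neg_one_X]; ring
  have h2 : ((1 + PowerSeries.X : PowerSeries ℝ) ^ M) = (((1 + X : ℝ[X]) ^ M : ℝ[X]) : PowerSeries ℝ) := by
    simp
  rw [this, PowerSeries.coeff_rescale, h2, Polynomial.coeff_coe, coeff_one_add_X_pow]

lemma coeff_P {N : ℕ} (s : ℤˣ) (i : ℕ) : 2 * (P (N + 1) s).coeff i = (co (N + 1) s i : ℝ) := by
  have h1 : (1 - PowerSeries.X) ^ (N + 2) * (PowerSeries.mk fun k : ℕ =>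
      ((k : ℝ) + 1) ^ (N + 1) + ((s : ℤ) : ℝ) * ((k : ℝ) + 1) ^ ((N + 2) / 2))
      = PowerSeries.C 2 * ∑ π ∈ univ.filter (fun π : Perm (Fin (N + 1)) => Perm.sign π = s),
        PowerSeries.X ^ des π := by
    rw [← sum_congr rfl (fun π _ => ps_one (n := N + 1) ((des_le π).trans (Nat.le_succ N))),
      ← mul_sum, mul_left_comm]
    congr 1
    ext k
    have := congrArg (fun z : ℤ => (z : ℝ)) (count (N := N) s k)
    push_cast at this
    rw [PowerSeries.coeff_mk, ← this, PowerSeries.coeff_C_mul, map_sum]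
    simp only [PowerSeries.coeff_mk]
  have h2 := congrArg (PowerSeries.coeff i) h1
  rw [PowerSeries.coeff_C_mul, map_sum, PowerSeries.coeff_mul,
    Finset.Nat.sum_antidiagonal_eq_sum_range_succ (fun a b => PowerSeries.coeff a ((1 - PowerSeries.X : PowerSeries ℝ) ^ (N + 2)) * PowerSeries.coeff b (PowerSeries.mk fun k : ℕ =>
      ((k : ℝ) + 1) ^ (N + 1) + ((s : ℤ) : ℝ) * ((k : ℝ) + 1) ^ ((N + 2) / 2)))] at h2
  have h3 : (P (N + 1) s).coeff i = ∑ π ∈ univ.filter (fun π : Perm (Fin (N + 1)) => Perm.sign π = s),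
        PowerSeries.coeff i ((PowerSeries.X : PowerSeries ℝ) ^ des π) := by
    rw [P, finset_sum_coeff]
    refine sum_congr rfl fun π _ => ?_
    rw [coeff_X_pow, PowerSeries.coeff_X_pow]
  rw [h3, ← h2, co]
  simp only [← Nat.choose_eq_descFactorial_div_factorial]
  push_cast
  refine sum_congr rfl fun l _ => ?_
  rw [coeff_one_sub, PowerSeries.coeff_mk]

/-- alternating signs at `N` decreasing points. -/
def Good (p : ℝ[X]) (N : ℕ) : Prop :=
  ∃ x : ℕ → ℝ, (∀ i, i + 1 < N → x (i + 1) < x i) ∧ ∀ i, i < N → 0 < (-1) ^ i * p.eval (x i)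

lemma real_of_good {p : ℝ[X]} {N : ℕ} (hN : 1 ≤ N) (hd : p.natDegree ≤ N) (h : Good p N)
    (z : ℂ) (hz : aeval z p = 0) : z.im = 0 := by
  obtain ⟨x, h1, h2⟩ := h
  have hp : p ≠ 0 := by rintro rfl; simpa using h2 0 hN
  have hr : ∀ i, ∃ y : ℝ, i + 1 < N → (x (i + 1) < y ∧ y < x i ∧ p.eval y = 0) := by
    intro i
    by_cases hi : i + 1 < N
    · have a1 := h2 i (by omega)
      have a2 := h2 (i + 1) hi
      have hc : ContinuousOn (fun t => (-1 : ℝ) ^ i * p.eval t) (Set.Icc (x (i + 1)) (x i)) :=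
        (continuous_const.mul p.continuous).continuousOn
      obtain ⟨y, hy, hy0⟩ := intermediate_value_Ioo (h1 i hi).le hc
        (show (0 : ℝ) ∈ Set.Ioo _ _ from ⟨by rw [pow_succ] at a2; linarith, a1⟩)
      refine ⟨y, fun _ => ⟨hy.1, hy.2, ?_⟩⟩
      simpa using hy0
    · exact ⟨0, fun h => absurd h hi⟩
  choose y hy using hr
  have hanti : ∀ j i, i < j → j + 1 < N → y j < y i := by
    intro j
    induction j with
    | zero => intro i h; omega
    | succ j ih =>
      intro i hi hj
      have a : y (j + 1) < y j := ((hy (j + 1) hj).2.1).trans (hy j (by omega)).1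
      rcases Nat.lt_succ_iff_lt_or_eq.1 hi with h | h
      · exact a.trans (ih i h (by omega))
      · rw [h]; exact a
  by_contra him
  classical
  let Z : Finset ℂ := insert z (insert (starRingEnd ℂ z) ((range (N - 1)).image fun i => (y i : ℂ)))
  have hc : Z.card = N + 1 := by
    rw [card_insert_of_notMem, card_insert_of_notMem, card_image_of_injOn, card_range]
    · omega
    · intro i hi j hj e
      have e' : y i = y j := Complex.ofReal_injective e
      have hi' := mem_range.1 (mem_coe.1 hi)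
      have hj' := mem_range.1 (mem_coe.1 hj)
      rcases lt_trichotomy i j with h | h | h
      · exact absurd e' (hanti j i h (by omega)).ne'
      · exact h
      · exact absurd e' (hanti i j h (by omega)).ne
    · simp only [mem_image, not_exists, not_and]
      intro i _ e
      have := congrArg Complex.im e
      simp at this; exact him this
    · simp only [mem_insert, mem_image, not_or, not_exists, not_and]
      constructor
      · intro e
        have := congrArg Complex.im e
        simp at this; apply him; linarith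
      · intro i _ e
        have := congrArg Complex.im e
        simp at this; exact him this.symm
  have hq : p.map (algebraMap ℝ ℂ) ≠ 0 := by simpa using hp
  have := card_le_degree_of_subset_roots (p := p.map (algebraMap ℝ ℂ)) (Z := Z) (by
    intro w hw
    rw [mem_roots hq, IsRoot, eval_map_algebraMap]
    have hw' : w ∈ Z := hw
    simp only [Z, mem_insert, mem_image] at hw'
    rcases hw' with rfl | rfl | ⟨i, hi, rfl⟩
    · exact hz
    · rw [aeval_conj, hz, map_zero]
    · have := (hy i (by have := mem_range.1 hi; omega)).2.2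
      rw [show ((y i : ℝ) : ℂ) = algebraMap ℝ ℂ (y i) from rfl, aeval_algebraMap_apply_eq_algebraMap_eval,
        this, map_zero])
  rw [natDegree_map] at this
  omega

end Pool.Agent.H13.Eul
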