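import Mathlib

set_option autoImplicit false

namespace Pool.Agent.H13.Eul
open Finset Real

lemma up_ineq {y : ℝ} (h0 : 0 ≤ y) (h1 : y ≤ 1 / 2) : (1 + y) * exp (-y) ≤ exp (-(y ^ 2 / 3)) := by
  have h : 1 + y ≤ exp (y - y ^ 2 / 3) := by
    have := Real.quadratic_le_exp_of_nonneg (x := y - y ^ 2 / 3) (by nlinarith)
    nlinarith [mul_nonneg (sq_nonneg y) (show 0 ≤ (1 - y / 3) ^ 2 / 2 - 1 / 3 by nlinarith)]
  calc (1 + y) * exp (-y) ≤ exp (y - y ^ 2 / 3) * exp (-y) := by gcongr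
    _ = _ := by rw [← exp_add]; congr 1; ring

lemma down_ineq {y : ℝ} (h0 : 0 ≤ y) (h1 : y ≤ 1) : (1 - y) * exp y ≤ exp (-(y ^ 2 / 2)) := by
  have h := Real.exp_bound' h0 h1 (n := 3) (by norm_num)
  simp only [sum_range_succ, range_zero, sum_empty, Nat.factorial] at h
  norm_num at h
  have h2 := Real.add_one_le_exp (-(y ^ 2 / 2))
  have : (1 - y) * exp y ≤ (1 - y) * (1 + y + y ^ 2 / 2 + y ^ 3 * 4 / 18) := by
    apply mul_le_mul_of_nonneg_left _ (by linarith); linarith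
  nlinarith [pow_nonneg h0 3, pow_nonneg h0 4]

lemma e43 : exp (-(4 / 3)) ≤ 7 / 25 := by
  have := Real.sum_le_exp_of_nonneg (x := 4 / 3) (by norm_num) 4
  simp only [sum_range_succ, range_zero, sum_empty, Nat.factorial] at this
  rw [exp_neg, inv_le_comm₀ (exp_pos _) (by norm_num)]
  norm_num at this ⊢; linarith

lemma e2 : exp (-2) ≤ 1 / 7 := by
  have := Real.sum_le_exp_of_nonneg (x := 2) (by norm_num) 5
  simp only [sum_range_succ, range_zero, sum_empty, Nat.factorial] at this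
  rw [exp_neg, inv_le_comm₀ (exp_pos _) (by norm_num)]
  norm_num at this ⊢; linarith

lemma summ (k : ℕ) {t : ℝ} (ht : |t| < 1) : Summable (fun j : ℕ => (j : ℝ) ^ k * t ^ j) :=
  summable_pow_mul_geometric_of_norm_lt_one k (by simpa using ht)

lemma regA {n j : ℕ} (hj : 2 ≤ j) (hn : 4 * j ^ 2 ≤ n) {s : ℝ} (hs : |s| ≤ 1) :
    0 < (-1) ^ j * ∑' k : ℕ, ((k : ℝ) ^ n + s * (k : ℝ) ^ ((n + 1) / 2)) * (-exp (-(n / j))) ^ k := by
  set x := exp (-((n : ℝ) / j)) with hx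
  have hj' : (2 : ℝ) ≤ j := by exact_mod_cast hj
  have hn' : 4 * (j : ℝ) ^ 2 ≤ n := by exact_mod_cast hn
  have hx0 : 0 < x := exp_pos _
  have hx1 : x < 1 := by
    rw [hx, ← exp_zero]; apply exp_lt_exp.2
    have : 0 < (n : ℝ) / j := by apply div_pos <;> nlinarith
    linarith
  set a : ℕ → ℝ := fun k => (k : ℝ) ^ n * x ^ k with ha
  set b : ℕ → ℝ := fun k => (k : ℝ) ^ ((n + 1) / 2) * x ^ k with hb
  have a0 : ∀ k, 0 ≤ a k := fun k => by positivity
  have b0 : ∀ k, 0 ≤ b k := fun k => by positivity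
  have sa : Summable a := summ n (by rw [abs_of_pos hx0]; exact hx1)
  have sb : Summable b := summ _ (by rw [abs_of_pos hx0]; exact hx1)
  have hxe : x = exp (-(1 / (j : ℝ))) ^ n := by rw [← exp_nat_mul, hx]; congr 1; ring
  have hy : 4 ≤ (n : ℝ) * (1 / j) ^ 2 := by
    rw [div_pow, one_pow, mul_one_div, le_div_iff₀ (by positivity)]; linarith
  have hy0 : (0 : ℝ) ≤ 1 / j := by positivity
  have hy1 : (1 : ℝ) / j ≤ 1 / 2 := one_div_le_one_div_of_le (by norm_num) hj'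
  have up : ∀ k, j ≤ k → a (k + 1) ≤ 7 / 25 * a k := by
    intro k hk
    have hk' : (j : ℝ) ≤ k := by exact_mod_cast hk
    have h1 : ((k : ℝ) + 1) ≤ (1 + 1 / j) * k := by
      have : (1 : ℝ) ≤ 1 / j * k := by rw [one_div, inv_mul_eq_div, le_div_iff₀ (by linarith)]; linarith
      linarith
    have h2 : (1 + 1 / (j : ℝ)) ^ n * x ≤ 7 / 25 := by
      rw [hxe, ← mul_pow]
      calc _ ≤ exp (-((1 / (j : ℝ)) ^ 2 / 3)) ^ n := by
            gcongr; exact up_ineq hy0 hy1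
        _ = exp (n * -((1 / (j : ℝ)) ^ 2 / 3)) := by rw [exp_nat_mul]
        _ ≤ exp (-(4 / 3)) := by apply exp_le_exp.2; linarith
        _ ≤ _ := e43
    simp only [ha]; push_cast
    calc ((k : ℝ) + 1) ^ n * x ^ (k + 1) ≤ ((1 + 1 / j) * k) ^ n * x ^ (k + 1) := by gcongr
      _ = ((1 + 1 / (j : ℝ)) ^ n * x) * ((k : ℝ) ^ n * x ^ k) := by rw [mul_pow]; ring
      _ ≤ _ := by gcongr
  have down : ∀ k, k + 1 ≤ j → a k ≤ 1 / 7 * a (k + 1) := by
    intro k hk
    have hk' : (k : ℝ) + 1 ≤ j := by exact_mod_cast hk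
    have h1 : (k : ℝ) ≤ (1 - 1 / j) * (k + 1) := by
      have : 1 / j * ((k : ℝ) + 1) ≤ 1 := by
        rw [one_div, inv_mul_eq_div, div_le_iff₀ (by linarith)]; linarith
      linarith
    have h2 : (1 - 1 / (j : ℝ)) ^ n ≤ 1 / 7 * x := by
      have h3 : ((1 - 1 / (j : ℝ)) * exp (1 / j)) ^ n ≤ 1 / 7 := by
        calc _ ≤ exp (-((1 / (j : ℝ)) ^ 2 / 2)) ^ n := by
              gcongr
              · exact mul_nonneg (by linarith) (exp_pos _).le
              · exact down_ineq hy0 (by linarith)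
          _ = exp (n * -((1 / (j : ℝ)) ^ 2 / 2)) := by rw [exp_nat_mul]
          _ ≤ exp (-2) := by apply exp_le_exp.2; linarith
          _ ≤ _ := e2
      have h4 : (1 - 1 / (j : ℝ)) ^ n = ((1 - 1 / (j : ℝ)) * exp (1 / j)) ^ n * x := by
        rw [hxe, ← mul_pow, mul_assoc, ← exp_add]; simp
      rw [h4]; gcongr
    simp only [ha]; push_cast
    calc (k : ℝ) ^ n * x ^ k ≤ ((1 - 1 / j) * (k + 1)) ^ n * x ^ k := by gcongr
      _ = (1 - 1 / (j : ℝ)) ^ n * (((k : ℝ) + 1) ^ n * x ^ k) := by rw [mul_pow]; ring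
      _ ≤ (1 / 7 * x) * (((k : ℝ) + 1) ^ n * x ^ k) := by gcongr
      _ = _ := by ring
  have left : ∀ i, i ≤ j → ∑ k ∈ range i, a k ≤ a i / 6 := by
    intro i
    induction i with
    | zero => intro _; simp only [range_zero, sum_empty]; have := a0 0; linarith
    | succ i ih =>
      intro hi
      rw [sum_range_succ]
      have := ih (by omega); have := down i hi; linarith
  have right : ∑' k, a (k + j) ≤ a j * (25 / 18) := by
    have h1 : ∀ k, a (k + j) ≤ a j * (7 / 25) ^ k := by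
      intro k
      induction k with
      | zero => simp
      | succ k ih =>
        have := up (k + j) (by omega)
        rw [show k + 1 + j = k + j + 1 by ring, pow_succ]; linarith
    have h2 := (hasSum_geometric_of_lt_one (r := 7 / 25) (by norm_num) (by norm_num)).mul_left (a j)
    have := ((summable_nat_add_iff j).2 sa).tsum_le_tsum h1 h2.summable
    rw [h2.tsum_eq] at this; linarith
  have tota : ∑' k, a k ≤ a j * (14 / 9) := by
    rw [← sa.sum_add_tsum_nat_add j]; have := left j le_rfl; linarith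
  have a1 : a 1 ≤ a j / 6 :=
    (single_le_sum (f := a) (fun k _ => a0 k) (mem_range.2 (by omega))).trans (left j le_rfl)
  have totb : ∑' k, b k ≤ a 1 + (∑' k, a k) / 16 := by
    have h1 : ∀ k, b k ≤ (if k = 1 then a 1 else 0) + a k / 16 := by
      intro k
      rcases k with _ | _ | k
      · have : (n + 1) / 2 ≠ 0 := by have : 4 ≤ j ^ 2 := by nlinarith
                                     omega
        have := a0 0
        simp [hb, *]; positivity
      · simp only [ha, hb]; simp; positivity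
      · rw [if_neg (by omega), zero_add]
        simp only [ha, hb]
        have h4 : 4 ≤ j ^ 2 := by nlinarith
        obtain ⟨r, hr⟩ : ∃ r, n = (n + 1) / 2 + (4 + r) := ⟨n - (n + 1) / 2 - 4, by omega⟩
        set y : ℝ := ((k + 1 + 1 : ℕ) : ℝ)
        have y2 : 2 ≤ y := by simp only [y]; push_cast; linarith [Nat.cast_nonneg (α := ℝ) k]
        have : 16 ≤ y ^ (4 + r) := by
          calc (16 : ℝ) = 2 ^ 4 := by norm_num
            _ ≤ y ^ 4 := by gcongr
            _ ≤ y ^ (4 + r) := pow_le_pow_right₀ (by linarith) (by omega)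
        have e : y ^ n = y ^ ((n + 1) / 2) * y ^ (4 + r) := by rw [← pow_add, ← hr]
        rw [e]
        have : 0 ≤ y ^ ((n + 1) / 2) * x ^ (k + 1 + 1) := by positivity
        nlinarith
    have h2 := (hasSum_ite_eq 1 (a 1)).add (sa.hasSum.div_const 16)
    have := sb.tsum_le_tsum h1 h2.summable
    rwa [h2.tsum_eq] at this
  have sc : Summable (fun k : ℕ => ((k : ℝ) ^ n + s * (k : ℝ) ^ ((n + 1) / 2)) * (-x) ^ k) := by
    have h1 := summ n (t := -x) (by rw [abs_neg, abs_of_pos hx0]; exact hx1)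
    have h2 := (summ ((n + 1) / 2) (t := -x) (by rw [abs_neg, abs_of_pos hx0]; exact hx1)).mul_left s
    exact (h1.add h2).congr fun k => by ring
  rw [← tsum_mul_left]
  have h3 := ((hasSum_ite_eq j (2 * a j)).sub sa.hasSum).sub sb.hasSum
  have h4 := h3.summable.tsum_le_tsum (g := fun k : ℕ => (-1) ^ j *
    (((k : ℝ) ^ n + s * (k : ℝ) ^ ((n + 1) / 2)) * (-x) ^ k)) (fun k => by
      have e : (-1) ^ j * (((k : ℝ) ^ n + s * (k : ℝ) ^ ((n + 1) / 2)) * (-x) ^ k)
          = (-1) ^ (j + k) * a k + ((-1) ^ (j + k) * s) * b k := by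
        simp only [ha, hb]; rw [neg_pow x]; ring
      rw [e]
      have q1 : -1 ≤ (-1 : ℝ) ^ (j + k) * s := by
        have : |(-1 : ℝ) ^ (j + k) * s| ≤ 1 := by simpa [abs_mul] using hs
        exact (abs_le.1 this).1
      have q2 : - b k ≤ ((-1) ^ (j + k) * s) * b k := by nlinarith [b0 k]
      split_ifs with h
      · subst h
        have q4 : (-1 : ℝ) ^ (k + k) = 1 := by rw [← two_mul, pow_mul]; norm_num
        rw [q4] at q2 ⊢; linarith
      · have q3 : -1 ≤ (-1 : ℝ) ^ (j + k) := by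
          rcases neg_one_pow_eq_or ℝ (j + k) with h | h <;> rw [h] <;> norm_num
        nlinarith [a0 k]) (sc.mul_left _)
  rw [h3.tsum_eq] at h4
  have aj : 0 < a j := by simp only [ha]; positivity
  linarith

lemma pow_lb {y : ℝ} (hy : 0 ≤ y) (K : ℕ) : 1 + K * y + K * (K - 1) / 2 * y ^ 2 ≤ (1 + y) ^ K := by
  induction K with
  | zero => simp
  | succ K ih =>
    rw [pow_succ (1 + y)]; push_cast
    have h1 : (0 : ℝ) ≤ K * (K - 1) := by
      rcases K with _ | K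
      · simp
      · push_cast; have := Nat.cast_nonneg (α := ℝ) K; nlinarith
    have := mul_le_mul_of_nonneg_right ih (show 0 ≤ 1 + y by linarith)
    nlinarith [mul_nonneg h1 (pow_nonneg hy 3)]

lemma tele : Summable (fun j : ℕ => 1 / (((j : ℝ) + 1) * (j + 2))) ∧
    ∑' j : ℕ, 1 / (((j : ℝ) + 1) * (j + 2)) ≤ 1 := by
  have h : ∀ n : ℕ, ∑ j ∈ range n, 1 / (((j : ℝ) + 1) * (j + 2)) = 1 - 1 / (n + 1) := by
    intro n
    induction n with
    | zero => simp
    | succ n ih => rw [sum_range_succ, ih]; push_cast; field_simp; ring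
  have h2 : ∀ n : ℕ, ∑ j ∈ range n, 1 / (((j : ℝ) + 1) * (j + 2)) ≤ 1 := by
    intro n; rw [h]; have : (0 : ℝ) ≤ 1 / (n + 1) := by positivity
    linarith
  exact ⟨summable_of_sum_range_le (fun j => by positivity) h2,
    Real.tsum_le_of_sum_range_le (fun j => by positivity) h2⟩

noncomputable def w (u : ℝ) (j : ℕ) : ℂ := (u : ℂ) + (2 * j + 1) * π * Complex.I

lemma norm_w {u R σ : ℝ} (hR : 0 < R) (h : R ^ 2 = u ^ 2 + π ^ 2) (hσ : σ * R ^ 2 = π ^ 2) (K j : ℕ)
    (hK : 2 ≤ K) : ‖1 / w u (j + 1) ^ K‖ ≤ (1 / R ^ K) / (2 * K * σ) * (1 / ((j + 1) * (j + 2))) := by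
  have hσ0 : 0 < σ := by
    have : 0 < σ * R ^ 2 := by rw [hσ]; positivity
    exact (mul_pos_iff_of_pos_right (by positivity)).1 this
  set y : ℝ := 4 * ((j + 1) * (j + 2)) * σ with hy
  have hy0 : 0 < y := by positivity
  have h1 : ‖w u (j + 1)‖ ^ 2 = R ^ 2 * (1 + y) := by
    rw [Complex.sq_norm, Complex.normSq_apply]
    simp [w]; rw [hy]; nlinarith
  have hK' : (2 : ℝ) ≤ K := by exact_mod_cast hK
  have h2 : (R ^ K * (K * y / 2)) ^ 2 ≤ (‖w u (j + 1)‖ ^ K) ^ 2 := by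
    rw [← pow_mul, mul_comm K 2, pow_mul, h1, mul_pow, mul_pow, ← pow_mul, ← pow_mul, mul_comm K 2]
    gcongr
    have := pow_lb hy0.le K
    nlinarith [mul_nonneg (mul_nonneg (show (0 : ℝ) ≤ K by linarith) (show (0 : ℝ) ≤ K - 2 by linarith)) (sq_nonneg y), mul_pos (show (0 : ℝ) < K by linarith) hy0]
  have h3 := (pow_le_pow_iff_left₀ (by positivity) (by positivity) two_ne_zero).1 h2
  rw [norm_div, norm_one, norm_pow]
  calc 1 / ‖w u (j + 1)‖ ^ K ≤ 1 / (R ^ K * (K * y / 2)) :=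
        one_div_le_one_div_of_le (by positivity) h3
    _ = _ := by rw [hy]; field_simp; ring

lemma lip {u R σ : ℝ} (hu : 0 < u) (hR : 0 < R) (h : R ^ 2 = u ^ 2 + π ^ 2) (hσ : σ * R ^ 2 = π ^ 2)
    (k : ℕ) (hk : 1 ≤ k) :
    |∑' j : ℕ, (j : ℝ) ^ k * (-exp (-u)) ^ j - k.factorial * (2 * (1 / w u 0 ^ (k + 1)).re)|
      ≤ k.factorial * (2 * ((1 / R ^ (k + 1)) / (2 * (k + 1 : ℕ) * σ))) := by
  have hb := fun j => norm_w hR h hσ (k + 1) j (by omega)
  set c := (1 / R ^ (k + 1)) / (2 * (k + 1 : ℕ) * σ) with hc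
  have hσ0 : 0 < σ := by
    have : 0 < σ * R ^ 2 := by rw [hσ]; positivity
    exact (mul_pos_iff_of_pos_right (by positivity)).1 this
  have c0 : 0 ≤ c := by positivity
  have s1 : Summable (fun j : ℕ => ‖1 / w u (j + 1) ^ (k + 1)‖) :=
    Summable.of_nonneg_of_le (fun _ => norm_nonneg _) hb (tele.1.mul_left c)
  have s2 : Summable (fun j : ℕ => 1 / w u j ^ (k + 1)) :=
    (summable_nat_add_iff 1).1 s1.of_norm
  let z : UpperHalfPlane := ⟨1 / 2 + u / (2 * π) * Complex.I, by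
    have : ((1 / 2 + u / (2 * π) * Complex.I : ℂ)).im = u / (2 * π) := by
      have : ((u : ℂ) / (2 * π)) = ((u / (2 * π) : ℝ) : ℂ) := by push_cast; rfl
      rw [this]; simp only [Complex.add_im, Complex.mul_im, Complex.ofReal_re, Complex.I_im, Complex.ofReal_im, Complex.I_re]; norm_num
    rw [this]; positivity⟩
  have hz : (z : ℂ) = 1 / 2 + u / (2 * π) * Complex.I := rfl
  have hpi : (π : ℂ) ≠ 0 := by exact_mod_cast pi_ne_zero
  have key := EisensteinSeries.qExpansion_identity hk z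
  have e1 : Complex.exp (2 * π * Complex.I * z) = ((-exp (-u) : ℝ) : ℂ) := by
    have : 2 * π * Complex.I * (z : ℂ) = π * Complex.I + (-u : ℝ) := by
      rw [hz]; push_cast; field_simp
      linear_combination (u : ℂ) * Complex.I_sq
    rw [this, Complex.exp_add, Complex.exp_pi_mul_I]; push_cast; ring
  have hI : (-2 * π * Complex.I : ℂ) ≠ 0 := by simp [hpi]
  have f1 : ∀ j : ℕ, 1 / ((z : ℂ) + ((-(j + 1 : ℤ) : ℤ) : ℂ)) ^ (k + 1)
      = (-2 * π * Complex.I) ^ (k + 1) * (1 / w u j ^ (k + 1)) := by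
    intro j
    have : w u j = (-2 * π * Complex.I) * ((z : ℂ) + ((-(j + 1 : ℤ) : ℤ) : ℂ)) := by
      rw [hz, w]; push_cast; field_simp
      linear_combination (u : ℂ) * Complex.I_sq
    rw [this, mul_pow (-2 * π * Complex.I : ℂ) ((z : ℂ) + ((-(j + 1 : ℤ) : ℤ) : ℂ)), ← one_div_mul_one_div, ← mul_assoc, mul_one_div_cancel (pow_ne_zero _ hI), one_mul]
  have f2 : ∀ j : ℕ, 1 / ((z : ℂ) + ((j : ℤ) : ℂ)) ^ (k + 1)
      = (-2 * π * Complex.I) ^ (k + 1) * (starRingEnd ℂ) (1 / w u j ^ (k + 1)) := by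
    intro j
    have : (starRingEnd ℂ) (w u j) = (-2 * π * Complex.I) * ((z : ℂ) + ((j : ℤ) : ℂ)) := by
      rw [hz, w]
      simp only [map_add, map_mul, Complex.conj_ofReal, Complex.conj_I, map_ofNat, map_natCast, map_one]
      push_cast; field_simp
      linear_combination (u : ℂ) * Complex.I_sq
    rw [map_div₀, map_pow, this, mul_pow (-2 * π * Complex.I : ℂ) ((z : ℂ) + ((j : ℤ) : ℂ)), map_one, ← one_div_mul_one_div, ← mul_assoc,
      mul_one_div_cancel (pow_ne_zero _ hI), one_mul]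
  have s3 : HasSum (fun j : ℕ => (starRingEnd ℂ) (1 / w u j ^ (k + 1)))
      ((starRingEnd ℂ) (∑' j, 1 / w u j ^ (k + 1))) := Complex.hasSum_conj'.2 s2.hasSum
  have s4 := HasSum.of_nat_of_neg_add_one (f := fun n : ℤ => 1 / ((z : ℂ) + n) ^ (k + 1))
    (by simp only [f2]; exact s3.mul_left _) (by simp only [f1]; exact s2.hasSum.mul_left _)
  rw [s4.tsum_eq, e1, ← mul_add, div_mul_eq_mul_div, mul_div_assoc,
    mul_right_inj' (pow_ne_zero _ hI), eq_div_iff (by exact_mod_cast k.factorial_ne_zero),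
    add_comm, Complex.add_conj] at key
  have e2 : ∑' n : ℕ, (n : ℂ) ^ k * ((-exp (-u) : ℝ) : ℂ) ^ n
      = ((∑' n : ℕ, (n : ℝ) ^ k * (-exp (-u)) ^ n : ℝ) : ℂ) := by
    rw [Complex.ofReal_tsum]; push_cast; rfl
  rw [e2] at key
  have key' : 2 * (∑' j, 1 / w u j ^ (k + 1)).re * k.factorial
      = ∑' n : ℕ, (n : ℝ) ^ k * (-exp (-u)) ^ n := by exact_mod_cast key
  rw [← key', s2.tsum_eq_zero_add, Complex.add_re]
  have t1 : ‖∑' j : ℕ, 1 / w u (j + 1) ^ (k + 1)‖ ≤ c := by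
    calc _ ≤ ∑' j : ℕ, ‖1 / w u (j + 1) ^ (k + 1)‖ := norm_tsum_le_tsum_norm s1
      _ ≤ ∑' j : ℕ, c * (1 / (((j : ℝ) + 1) * (j + 2))) := s1.tsum_le_tsum hb (tele.1.mul_left c)
      _ ≤ c * 1 := by rw [tsum_mul_left]; gcongr; exact tele.2
      _ = c := mul_one c
  have t2 := (Complex.abs_re_le_norm _).trans t1
  rw [show ∀ A B F : ℝ, 2 * (A + B) * F - F * (2 * A) = F * (2 * B) from fun A B F => by ring,
    abs_mul, abs_mul, abs_of_nonneg (Nat.cast_nonneg _), abs_two]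
  gcongr

lemma regB {n j : ℕ} (hn : 36 ≤ n) (hj : n < 4 * j ^ 2) (hj2 : 2 * j ≤ n + 1) {s : ℝ} (hs : |s| ≤ 1) :
    0 < (-1) ^ j * ∑' k : ℕ, ((k : ℝ) ^ n + s * (k : ℝ) ^ ((n + 1) / 2)) *
      (-exp (-(π / tan ((j - 1 / 6) * π / (n + 1))))) ^ k := by
  set α : ℝ := (j - 1 / 6) * π / (n + 1) with hα
  have j4 : 4 ≤ j := by by_contra hc; have : j ≤ 3 := by omega
                        nlinarith
  have j4' : (4 : ℝ) ≤ j := by exact_mod_cast j4
  have hj' : (n : ℝ) + 1 ≤ 4 * j ^ 2 := by exact_mod_cast hj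
  have hj2' : 2 * (j : ℝ) ≤ n + 1 := by exact_mod_cast hj2
  have n0 : (0 : ℝ) < n + 1 := by positivity
  have α0 : 0 < α := by apply div_pos (mul_pos (by linarith) pi_pos) n0
  have α1 : α < π / 2 := by rw [hα, div_lt_iff₀ n0]; nlinarith [pi_pos]
  have sp : 0 < sin α := sin_pos_of_pos_of_lt_pi α0 (by linarith [pi_pos])
  have cp : 0 < cos α := cos_pos_of_mem_Ioo ⟨by linarith [pi_pos], α1⟩
  set u := π / tan α with hu
  set R := π / sin α with hR
  have hu' : u = R * cos α := by rw [hu, hR, tan_eq_sin_div_cos]; field_simp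
  have hpi : π = R * sin α := by rw [hR]; field_simp
  have R0 : 0 < R := div_pos pi_pos sp
  have u0 : 0 < u := by rw [hu']; positivity
  have hR2 : R ^ 2 = u ^ 2 + π ^ 2 := by
    rw [hu']; nth_rewrite 1 [hpi]; nlinarith [sin_sq_add_cos_sq α]
  have hσ : sin α ^ 2 * R ^ 2 = π ^ 2 := by nth_rewrite 1 [hpi]; ring
  have hw : ∀ K : ℕ, (1 / w u 0 ^ K).re = 1 / R ^ K * cos (K * α) := by
    intro K
    have : w u 0 = R * Complex.exp (α * Complex.I) := by
      rw [Complex.exp_mul_I, w, hu', ← Complex.ofReal_cos, ← Complex.ofReal_sin]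
      nth_rewrite 1 [hpi]; push_cast; ring
    have e : 1 / w u 0 ^ K = ((1 / R ^ K : ℝ) : ℂ) * Complex.exp ((-(K * α) : ℝ) * Complex.I) := by
      rw [this, mul_pow, ← Complex.exp_nat_mul]; push_cast
      rw [neg_mul, Complex.exp_neg, mul_assoc]; field_simp
    rw [e, Complex.re_ofReal_mul, Complex.exp_ofReal_mul_I_re, cos_neg]
  set m := (n + 1) / 2 with hm
  have hm' : (n : ℝ) + 1 ≤ 2 * (m + 1) := by
    have : n + 1 ≤ 2 * (m + 1) := by omega
    exact_mod_cast this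
  have L1 := lip u0 R0 hR2 hσ n (by omega)
  have L2 := lip u0 R0 hR2 hσ m (by omega)
  rw [hw] at L1 L2
  have hx : |-exp (-u)| < 1 := by
    rw [abs_neg, abs_of_pos (exp_pos _), ← exp_zero]; exact exp_lt_exp.2 (by linarith)
  have e : ∑' k : ℕ, ((k : ℝ) ^ n + s * (k : ℝ) ^ m) * (-exp (-u)) ^ k
      = ∑' k : ℕ, (k : ℝ) ^ n * (-exp (-u)) ^ k + s * ∑' k : ℕ, (k : ℝ) ^ m * (-exp (-u)) ^ k := by
    rw [← tsum_mul_left, ← (summ n hx).tsum_add ((summ m hx).mul_left s)]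
    congr 1; funext k; ring
  rw [e]
  set A := ∑' k : ℕ, (k : ℝ) ^ n * (-exp (-u)) ^ k
  set B := ∑' k : ℕ, (k : ℝ) ^ m * (-exp (-u)) ^ k
  have hcos : cos (((n + 1 : ℕ) : ℝ) * α) = (-1) ^ j * (√3 / 2) := by
    have : ((n + 1 : ℕ) : ℝ) * α = j * π - π / 6 := by rw [hα]; push_cast; field_simp
    rw [this, cos_nat_mul_pi_sub, cos_pi_div_six]
  have s3 : 1.73 ≤ √3 := Real.le_sqrt_of_sq_le (by norm_num)
  have hsin : 2 * (j - 1 / 6) / (n + 1) ≤ sin α := by
    have := mul_le_sin α0.le α1.le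
    rwa [show 2 / π * α = 2 * (j - 1 / 6) / (n + 1) by rw [hα]; field_simp] at this
  have hσ1 : 0.918 ≤ (n + 1) * sin α ^ 2 := by
    have h1 : (2 * (j - 1 / 6) / (n + 1 : ℝ)) ^ 2 ≤ sin α ^ 2 := by
      gcongr; apply div_nonneg <;> linarith
    have h2 : 0.918 ≤ (n + 1) * (2 * (j - 1 / 6) / (n + 1 : ℝ)) ^ 2 := by
      rw [show (n + 1) * (2 * (j - 1 / 6) / (n + 1 : ℝ)) ^ 2 = 4 * (j - 1 / 6) ^ 2 / (n + 1) by
        field_simp; ring, le_div_iff₀ n0]
      nlinarith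
    nlinarith
  set p := (n.factorial : ℝ) * (1 / R ^ (n + 1)) with hp
  set q := (m.factorial : ℝ) * (1 / R ^ (m + 1)) with hq
  have q0 : 0 < q := by positivity
  have pq : 7 * q ≤ p := by
    obtain ⟨r, hr⟩ : ∃ r, n = m + (18 + r) := ⟨n - m - 18, by omega⟩
    have h1 : (m.factorial : ℝ) * ((m : ℝ) + 1) ^ (18 + r) ≤ n.factorial := by
      have := Nat.factorial_mul_pow_le_factorial (m := m) (n := 18 + r)
      rw [← hr] at this; exact_mod_cast this
    have h2 : 1.2 * R ≤ m + 1 := by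
      rw [hR, ← mul_div_assoc, div_le_iff₀ sp]
      have h3 : (j - 1 / 6 : ℝ) ≤ (m + 1) * sin α := by
        rw [div_le_iff₀ n0] at hsin; nlinarith
      nlinarith [pi_lt_d2]
    have h3 : 7 * R ^ (18 + r) ≤ ((m : ℝ) + 1) ^ (18 + r) := by
      calc 7 * R ^ (18 + r) ≤ 1.2 ^ (18 + r) * R ^ (18 + r) := by
            gcongr
            calc (7 : ℝ) ≤ 1.2 ^ 18 := by norm_num
              _ ≤ _ := pow_le_pow_right₀ (by norm_num) (by omega)
        _ = (1.2 * R) ^ (18 + r) := (mul_pow _ _ _).symm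
        _ ≤ _ := by gcongr
    have h4 : R ^ (n + 1) = R ^ (m + 1) * R ^ (18 + r) := by rw [← pow_add]; congr 1; omega
    rw [hp, hq, h4, mul_one_div, mul_one_div, ← mul_div_assoc, div_le_div_iff₀ (by positivity) (by positivity)]
    have : (0 : ℝ) < m.factorial := by positivity
    have h5 : (m.factorial : ℝ) * (7 * R ^ (18 + r)) ≤ n.factorial := le_trans (by gcongr) h1
    nlinarith [pow_pos R0 (m + 1)]
  have b1 : (n.factorial : ℝ) * (2 * (1 / R ^ (n + 1) / (2 * ((n + 1 : ℕ) : ℝ) * sin α ^ 2))) ≤ p * 1.09 := by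
    rw [hp, mul_assoc (n.factorial : ℝ)]; apply mul_le_mul_of_nonneg_left _ (Nat.cast_nonneg _)
    rw [← mul_div_assoc, div_le_iff₀ (by positivity)]; push_cast
    have : 0 < 1 / R ^ (n + 1) := by positivity
    nlinarith
  have b2 : (m.factorial : ℝ) * (2 * (1 / R ^ (m + 1) / (2 * ((m + 1 : ℕ) : ℝ) * sin α ^ 2))) ≤ q * 2.18 := by
    rw [hq, mul_assoc (m.factorial : ℝ)]; apply mul_le_mul_of_nonneg_left _ (Nat.cast_nonneg _)
    rw [← mul_div_assoc, div_le_iff₀ (by positivity)]; push_cast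
    have : 0 < 1 / R ^ (m + 1) := by positivity
    have : 0.918 ≤ 2 * (m + 1) * sin α ^ 2 := by nlinarith [sq_nonneg (sin α)]
    nlinarith
  have hB : |B| ≤ q * 4.18 := by
    have h1 : |(m.factorial : ℝ) * (2 * (1 / R ^ (m + 1) * cos (((m + 1 : ℕ) : ℝ) * α)))| ≤ 2 * q := by
      rw [show (m.factorial : ℝ) * (2 * (1 / R ^ (m + 1) * cos (((m + 1 : ℕ) : ℝ) * α)))
        = 2 * q * cos (((m + 1 : ℕ) : ℝ) * α) by rw [hq]; ring, abs_mul, abs_of_pos (by positivity)]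
      have := abs_cos_le_one (((m + 1 : ℕ) : ℝ) * α)
      nlinarith
    have := abs_sub_abs_le_abs_sub B ((m.factorial : ℝ) * (2 * (1 / R ^ (m + 1) * cos (((m + 1 : ℕ) : ℝ) * α))))
    linarith
  have hA : p * 0.64 ≤ (-1) ^ j * A := by
    rw [hcos, show (n.factorial : ℝ) * (2 * (1 / R ^ (n + 1) * ((-1) ^ j * (√3 / 2))))
      = (-1) ^ j * (p * √3) by rw [hp]; ring] at L1
    have p0 : 0 < p := by linarith
    have h1 := abs_le.1 (L1.trans b1)
    rcases neg_one_pow_eq_or ℝ j with h | h <;> rw [h] at h1 ⊢ <;> nlinarith [h1.1, h1.2]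
  have hsB : |(-1) ^ j * (s * B)| ≤ q * 4.18 := by
    rw [abs_mul, abs_mul, abs_pow, abs_neg, abs_one, one_pow, one_mul]
    nlinarith [abs_nonneg s, abs_nonneg B]
  have := (abs_le.1 hsB).1
  rw [mul_add]; linarith

end Pool.Agent.H13.Eul
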