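import Mathlib

set_option autoImplicit false
set_option linter.unusedSectionVars false

namespace Pool.Agent.H13.Hexagon

open SimpleGraph Finset

variable {V : Type}

def HexFree (G : SimpleGraph V) : Prop :=
  ∀ a b c d e f, G.Adj a b → G.Adj b c → G.Adj c d → G.Adj d e → G.Adj e f → G.Adj f a →
    a ≠ c → a ≠ d → a ≠ e → b ≠ d → b ≠ e → b ≠ f → c ≠ e → c ≠ f → d ≠ f → False

lemma hexFree_of {G : SimpleGraph V}
    (h : ∀ (v : V) (p : G.Walk v v), p.IsCycle → p.length ≠ 6) : HexFree G := by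
  intro a b c d e f h1 h2 h3 h4 h5 h6 n1 n2 n3 n4 n5 n6 n7 n8 n9
  refine h a (.cons h1 (.cons h2 (.cons h3 (.cons h4 (.cons h5 (.cons h6 .nil)))))) ?_ rfl
  have := h1.ne; have := h2.ne; have := h3.ne; have := h4.ne; have := h5.ne; have := h6.ne
  rw [Walk.cons_isCycle_iff, Walk.isPath_def]
  simp only [Walk.support_cons, Walk.support_nil, List.nodup_cons, List.mem_cons,
    List.not_mem_nil, Walk.edges_cons, Walk.edges_nil, Sym2.eq_iff, List.nodup_nil]
  constructor
  · refine ⟨?_, ?_, ?_, ?_, ?_, ?_⟩ <;> grind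
  · grind

variable [Fintype V] [DecidableEq V] (G : SimpleGraph V) [DecidableRel G.Adj]

def co (x b : V) : Finset V := univ.filter (fun z => G.Adj x z ∧ G.Adj b z)

def Bad (x b : V) : Prop := x = b ∨ G.Adj x b ∨ 3 ≤ #(co G x b)

instance (x b : V) : Decidable (Bad G x b) := by unfold Bad; infer_instance

lemma exists_avoid {s t : Finset V} (h : #t < #s) : ∃ z ∈ s, z ∉ t :=
  exists_mem_notMem_of_card_lt_card h

variable {G}

lemma far_le (hG : HexFree G) {a b : V} (hab : G.Adj b a) :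
    #(univ.filter (fun x => G.Adj a x ∧ x ≠ b ∧ ¬ G.Adj x b ∧ 3 ≤ #(co G x b))) ≤ 1 := by
  rw [card_le_one]
  intro x hx y hy
  by_contra hxy
  simp only [mem_filter, mem_univ, true_and] at hx hy
  obtain ⟨p, hp, hp'⟩ := exists_avoid (s := co G x b) (t := {a}) (by simp; omega)
  obtain ⟨q, hq, hq'⟩ := exists_avoid (s := co G y b) (t := {a, p})
    (lt_of_le_of_lt card_le_two (by omega))
  simp only [co, mem_filter, mem_univ, true_and, mem_singleton, mem_insert, not_or] at hp hq hp' hq'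
  refine hG b p x a y q hp.2 hp.1.symm hx.1.symm hy.1 hq.1 hq.2.symm hx.2.1.symm hab.ne
    hy.2.1.symm hp' ?_ (Ne.symm hq'.2) hxy ?_ (Ne.symm hq'.1)
  · rintro rfl; exact hy.2.2.1 hp.2.symm
  · rintro rfl; exact hx.2.2.1 hq.2.symm

lemma high_le (hG : HexFree G) {a b : V} (hab : G.Adj b a) :
    #((co G a b).filter (fun x => ¬ #(co G x b) ≤ 3)) ≤ 1 := by
  rw [card_le_one]
  intro x hx y hy
  by_contra hxy
  simp only [co, mem_filter, mem_univ, true_and] at hx hy
  obtain ⟨p, hp, hp'⟩ := exists_avoid (s := co G x b) (t := {a, y})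
    (lt_of_le_of_lt card_le_two (by unfold co; omega))
  obtain ⟨q, hq, hq'⟩ := exists_avoid (s := co G y b) (t := {a, x, p})
    (lt_of_le_of_lt card_le_three (by unfold co; omega))
  simp only [co, mem_filter, mem_univ, true_and, mem_singleton, mem_insert, not_or] at hp hq hp' hq'
  exact hG b p x a y q hp.2 hp.1.symm hx.1.1.symm hy.1.1 hq.1 hq.2.symm hx.1.2.ne hab.ne
    hy.1.2.ne hp'.1 hp'.2 (Ne.symm hq'.2.2) hxy (Ne.symm hq'.2.1) (Ne.symm hq'.1)

lemma tri_le (hG : HexFree G) (b : V) :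
    ∑ a ∈ G.neighborFinset b, #(co G a b) ≤ 4 * G.degree b := by
  have h1 : ∀ a ∈ G.neighborFinset b,
      #(co G a b) ≤ #((co G a b).filter (fun x => #(co G x b) ≤ 3)) + 1 := by
    intro a ha
    have := card_filter_add_card_filter_not (s := co G a b) (fun x => #(co G x b) ≤ 3)
    have := high_le hG (by simpa using ha)
    omega
  have h2 : ∑ a ∈ G.neighborFinset b, #((co G a b).filter (fun x => #(co G x b) ≤ 3)) ≤
      3 * G.degree b := by
    calc _ = ∑ a ∈ G.neighborFinset b, ∑ x ∈ G.neighborFinset b,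
          if G.Adj a x ∧ #(co G x b) ≤ 3 then 1 else 0 := by
          refine sum_congr rfl fun a _ => ?_
          rw [← card_filter]
          congr 1
          ext x
          simp only [co, mem_filter, mem_univ, true_and, mem_neighborFinset]
          tauto
      _ = ∑ x ∈ G.neighborFinset b, ∑ a ∈ G.neighborFinset b,
          if G.Adj a x ∧ #(co G x b) ≤ 3 then 1 else 0 := sum_comm
      _ ≤ ∑ x ∈ G.neighborFinset b, 3 := by
          refine sum_le_sum fun x _ => ?_
          rw [← card_filter]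
          by_cases h : #(co G x b) ≤ 3
          · refine le_trans (card_le_card ?_) h
            intro a ha
            simp only [co, mem_filter, mem_univ, true_and, mem_neighborFinset] at ha ⊢
            exact ⟨ha.2.1.symm, ha.1⟩
          · simp [h]
      _ = _ := by simp [mul_comm]
  have h3 := sum_le_sum h1
  rw [sum_add_distrib] at h3
  simp only [sum_const, card_neighborFinset_eq_degree, smul_eq_mul] at h3
  omega

variable (G)
def bad (a b : V) : ℕ := #(univ.filter (fun x => G.Adj a x ∧ Bad G x b))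
def good (a b : V) : ℕ := #(univ.filter (fun x => G.Adj a x ∧ ¬ Bad G x b))

lemma bad_add_good (a b : V) : bad G a b + good G a b = G.degree a := by
  have := card_filter_add_card_filter_not (s := G.neighborFinset a) (fun x => Bad G x b)
  rw [card_neighborFinset_eq_degree, neighborFinset_eq_filter, filter_filter, filter_filter] at this
  exact this

variable {G}

lemma cherry_le (hG : HexFree G) (b : V) :
    ∑ a ∈ G.neighborFinset b, bad G a b ≤ 6 * G.degree b := by
  have h1 : ∀ a ∈ G.neighborFinset b, bad G a b ≤ #(co G a b) + 2 := by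
    intro a ha
    have h := far_le hG (by simpa using ha)
    have : univ.filter (fun x => G.Adj a x ∧ Bad G x b) ⊆ {b} ∪ (co G a b ∪
        univ.filter (fun x => G.Adj a x ∧ x ≠ b ∧ ¬ G.Adj x b ∧ 3 ≤ #(co G x b))) := by
      intro x hx
      simp only [Bad, mem_filter, mem_univ, true_and] at hx
      simp only [mem_union, mem_singleton, mem_filter, mem_univ, true_and]
      by_cases h1 : x = b
      · exact Or.inl h1
      by_cases h2 : G.Adj x b
      · exact Or.inr (Or.inl (by simp [co, hx.1, h2.symm]))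
      · exact Or.inr (Or.inr ⟨hx.1, h1, h2, by tauto⟩)
    have h2 := (card_le_card this).trans ((card_union_le _ _).trans
      (Nat.add_le_add_left (card_union_le _ _) _))
    rw [card_singleton] at h2
    unfold bad
    omega
  have h3 := sum_le_sum h1
  rw [sum_add_distrib] at h3
  simp only [sum_const, card_neighborFinset_eq_degree, smul_eq_mul] at h3
  have := tri_le hG b
  omega

lemma good_le (hG : HexFree G) :
    ∑ a, ∑ b ∈ G.neighborFinset a, good G a b * good G b a ≤ 2 * Fintype.card V ^ 2 := by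
  let S : Finset ((V × V) × V × V) := univ.filter (fun t => G.Adj t.1.1 t.1.2 ∧
    (G.Adj t.1.1 t.2.1 ∧ ¬ Bad G t.2.1 t.1.2) ∧ (G.Adj t.1.2 t.2.2 ∧ ¬ Bad G t.2.2 t.1.1))
  have e : ∑ a, ∑ b ∈ G.neighborFinset a, good G a b * good G b a = #S := by
    rw [card_filter, Fintype.sum_prod_type, Fintype.sum_prod_type]
    refine sum_congr rfl fun a _ => ?_
    rw [neighborFinset_eq_filter, sum_filter]
    refine sum_congr rfl fun b _ => ?_
    rw [Fintype.sum_prod_type]
    by_cases h : G.Adj a b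
    · simp only [h, if_true, true_and, good, card_filter, sum_mul_sum]
      refine sum_congr rfl fun x _ => sum_congr rfl fun y _ => ?_
      split_ifs <;> tauto
    · simp [h]
  rw [e]
  have := card_le_mul_card_image_of_maps_to (s := S) (t := (univ : Finset (V × V)))
    (f := Prod.snd) (fun _ _ => mem_univ _) 2 ?_
  · simpa [sq] using this
  rintro ⟨x, y⟩ -
  by_contra hc
  push Not at hc
  obtain ⟨⟨⟨a1, b1⟩, t1⟩, ⟨⟨a2, b2⟩, t2⟩, ⟨⟨a3, b3⟩, t3⟩, h1, h2, h3, n12, n13, n23⟩ :=
    two_lt_card_iff.1 hc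
  simp only [S, mem_filter, mem_univ, true_and] at h1 h2 h3
  obtain ⟨h1, rfl⟩ := h1
  obtain ⟨h2, rfl⟩ := h2
  obtain ⟨h3, rfl⟩ := h3
  simp only [Bad, not_or, ne_eq, Prod.mk.injEq, and_true] at h1 h2 h3 n12 n13 n23
  have key : ∀ a b a' b', G.Adj a b → G.Adj a x → x ≠ b → ¬ G.Adj x b → G.Adj b y → y ≠ a →
      ¬ G.Adj y a → G.Adj a' b' → G.Adj a' x → x ≠ b' → ¬ G.Adj x b' → G.Adj b' y → y ≠ a' →
      a = a' ∨ b = b' := by
    intro a b a' b' k1 k2 k3 k4 k5 k6 k7 l1 l2 l3 l4 l5 l6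
    by_contra hcon
    push Not at hcon
    refine hG x a b y b' a' k2.symm k1 k5 l5.symm l1.symm l2 k3 ?_ l3 k6.symm ?_ hcon.1 hcon.2 ?_ l6
    · rintro rfl; exact k4 k5.symm
    · rintro rfl; exact l4 k2.symm
    · rintro rfl; exact k4 l2.symm
  have k12 := key a1 b1 a2 b2 h1.1 h1.2.1.1 h1.2.1.2.1 h1.2.1.2.2.1 h1.2.2.1 h1.2.2.2.1
    h1.2.2.2.2.1 h2.1 h2.2.1.1 h2.2.1.2.1 h2.2.1.2.2.1 h2.2.2.1 h2.2.2.2.1
  have k13 := key a1 b1 a3 b3 h1.1 h1.2.1.1 h1.2.1.2.1 h1.2.1.2.2.1 h1.2.2.1 h1.2.2.2.1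
    h1.2.2.2.2.1 h3.1 h3.2.1.1 h3.2.1.2.1 h3.2.1.2.2.1 h3.2.2.1 h3.2.2.2.1
  have k23 := key a2 b2 a3 b3 h2.1 h2.2.1.1 h2.2.1.2.1 h2.2.1.2.2.1 h2.2.2.1 h2.2.2.2.1
    h2.2.2.2.2.1 h3.1 h3.2.1.1 h3.2.1.2.1 h3.2.1.2.2.1 h3.2.2.1 h3.2.2.2.1
  have : (a1 = a2 ∧ a1 = a3) ∨ (b1 = b2 ∧ b1 = b3) := by grind
  rcases this with ⟨rfl, rfl⟩ | ⟨rfl, rfl⟩
  · apply h1.2.2.2.2.2
    exact two_lt_card_iff.2 ⟨b1, b2, b3, by simp [co, h1.1, h1.2.2.1.symm],
      by simp [co, h2.1, h2.2.2.1.symm], by simp [co, h3.1, h3.2.2.1.symm],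
      by grind, by grind, by grind⟩
  · apply h1.2.1.2.2.2
    exact two_lt_card_iff.2 ⟨a1, a2, a3, by simp [co, h1.1.symm, h1.2.1.1.symm],
      by simp [co, h2.1.symm, h2.2.1.1.symm], by simp [co, h3.1.symm, h3.2.1.1.symm],
      by grind, by grind, by grind⟩

lemma sum_swap_nb {M : Type} [AddCommMonoid M] (f : V → V → M) :
    ∑ a, ∑ b ∈ G.neighborFinset a, f a b = ∑ b, ∑ a ∈ G.neighborFinset b, f a b := by
  simp only [neighborFinset_eq_filter, sum_filter]
  rw [sum_comm]
  simp only [G.adj_comm]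

lemma walks_le (hG : HexFree G) :
    ∑ a, ∑ b ∈ G.neighborFinset a, G.degree a * G.degree b ≤
      2 * Fintype.card V ^ 2 + 12 * ∑ a, G.degree a * G.degree a := by
  have h1 : ∑ a, ∑ b ∈ G.neighborFinset a, bad G b a * G.degree a ≤
      6 * ∑ a, G.degree a * G.degree a := by
    rw [mul_sum]
    refine sum_le_sum fun a _ => ?_
    rw [← sum_mul, ← mul_assoc]
    exact Nat.mul_le_mul_right _ (cherry_le hG a)
  have h2 := sum_swap_nb (G := G) (fun a b => bad G a b * G.degree b)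
  have h3 := good_le hG
  have h4 : ∑ a, ∑ b ∈ G.neighborFinset a, G.degree a * G.degree b ≤
      ∑ a, ∑ b ∈ G.neighborFinset a, (bad G a b * G.degree b + bad G b a * G.degree a +
        good G a b * good G b a) := by
    refine sum_le_sum fun a _ => sum_le_sum fun b _ => ?_
    rw [← bad_add_good G a b, ← bad_add_good G b a]
    nlinarith [Nat.zero_le (bad G a b * bad G b a)]
  simp only [sum_add_distrib] at h4
  omega

lemma amgm3 (x y D : ℝ) (hx : 0 < x) (hy : 0 < y) (hD : 0 < D) :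
    3 * D ^ 2 ≤ x * y + D ^ 3 / x + D ^ 3 / y := by
  have h1 : 0 < D / x := by positivity
  have h2 : 0 < D / y := by positivity
  have l1 := Real.log_le_sub_one_of_pos h1
  have l2 := Real.log_le_sub_one_of_pos h2
  have l3 := Real.log_le_sub_one_of_pos (show 0 < x * y / D ^ 2 by positivity)
  rw [Real.log_div hD.ne' hx.ne'] at l1
  rw [Real.log_div hD.ne' hy.ne'] at l2
  rw [Real.log_div (by positivity) (by positivity), Real.log_mul hx.ne' hy.ne', Real.log_pow] at l3
  have h3 : 3 ≤ x * y / D ^ 2 + D / x + D / y := by push_cast at l3; linarith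
  have : x * y + D ^ 3 / x + D ^ 3 / y = D ^ 2 * (x * y / D ^ 2 + D / x + D / y) := by
    field_simp
  rw [this]
  nlinarith [sq_pos_of_pos hD]

lemma dense_case (hG : HexFree G) (hd : ∀ v, 120 ≤ G.degree v) (r : ℝ) (hr0 : 0 ≤ r)
    (hr : 20 / 9 * (Fintype.card V : ℝ) ≤ r ^ 3) :
    ((∑ v, G.degree v : ℕ) : ℝ) ≤ r * Fintype.card V := by
  rcases isEmpty_or_nonempty V with hV | hV
  · simp
  have hn : (0 : ℝ) < Fintype.card V := by exact_mod_cast Fintype.card_pos
  have h1 := walks_le hG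
  have h2 : 120 * ∑ a, G.degree a * G.degree a ≤
      ∑ a, ∑ b ∈ G.neighborFinset a, G.degree a * G.degree b := by
    rw [mul_sum]
    refine sum_le_sum fun a _ => ?_
    calc 120 * (G.degree a * G.degree a) = ∑ b ∈ G.neighborFinset a, G.degree a * 120 := by
          simp; ring
      _ ≤ _ := sum_le_sum fun b _ => Nat.mul_le_mul_left _ (hd b)
  have h3 : 9 * ∑ a, ∑ b ∈ G.neighborFinset a, G.degree a * G.degree b ≤
      20 * Fintype.card V ^ 2 := by omega
  have h3' : 9 * ∑ a, ∑ b ∈ G.neighborFinset a, (G.degree a : ℝ) * G.degree b ≤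
      20 * (Fintype.card V : ℝ) ^ 2 := by exact_mod_cast h3
  by_contra hc
  push Not at hc
  push_cast at hc
  set n : ℝ := (Fintype.card V : ℝ) with hnn
  set D : ℝ := (∑ v, (G.degree v : ℝ)) / n with hD
  have hDr : r < D := by rw [hD, lt_div_iff₀ hn]; exact hc
  have hD0 : 0 < D := by linarith
  have hdp : ∀ v, (0 : ℝ) < G.degree v := fun v => by
    have := hd v; exact_mod_cast (by omega : 0 < G.degree v)
  have amgm : ∀ a b, 3 * D ^ 2 ≤ (G.degree a : ℝ) * G.degree b + D ^ 3 / G.degree a +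
      D ^ 3 / G.degree b := by
    intro a b
    have := amgm3 (G.degree a) (G.degree b) D (hdp a) (hdp b) hD0
    exact this
  have hs : ∑ a, ∑ b ∈ G.neighborFinset a, 3 * D ^ 2 ≤ ∑ a, ∑ b ∈ G.neighborFinset a,
      ((G.degree a : ℝ) * G.degree b + D ^ 3 / G.degree a + D ^ 3 / G.degree b) :=
    sum_le_sum fun a _ => sum_le_sum fun b _ => amgm a b
  have e1 : ∑ a, ∑ b ∈ G.neighborFinset a, D ^ 3 / (G.degree a : ℝ) = n * D ^ 3 := by
    rw [sum_congr rfl (g := fun _ => D ^ 3)]
    · simp [n]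
    · intro a _
      have := (hdp a).ne'
      simp only [sum_const, card_neighborFinset_eq_degree, nsmul_eq_mul]
      field_simp
  have e2 := sum_swap_nb (G := G) (fun _ b => D ^ 3 / (G.degree b : ℝ))
  have e3 : ∑ a, ∑ b ∈ G.neighborFinset a, 3 * D ^ 2 = 3 * (n * D ^ 3) := by
    simp only [sum_const, card_neighborFinset_eq_degree, nsmul_eq_mul]
    rw [← sum_mul]
    have : ∑ v, (G.degree v : ℝ) = n * D := by rw [hD]; field_simp
    rw [this]; ring
  simp only [sum_add_distrib] at hs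
  have h5 : r ^ 3 < D ^ 3 := pow_lt_pow_left₀ hDr hr0 (by norm_num)
  have h6 : n * D ^ 3 ≤ 20 / 9 * n ^ 2 := by linarith
  nlinarith

theorem turan_hex (r : ℝ) (hr0 : 0 ≤ r) : ∀ (n : ℕ) (V : Type) [Fintype V] (G : SimpleGraph V),
    Fintype.card V = n → HexFree G → 20 / 9 * (n : ℝ) ≤ r ^ 3 →
      2 * (Nat.card G.edgeSet : ℝ) ≤ (r + 240) * n := by
  intro n
  induction n with
  | zero =>
    intro V _ G hn _ _
    have : IsEmpty V := Fintype.card_eq_zero_iff.1 hn
    simp [Nat.card_of_isEmpty]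
  | succ n ih =>
    intro V _ G hn hG hr
    classical
    have hc : ∀ {W : Type} (H : SimpleGraph W) [Fintype H.edgeSet],
        Nat.card H.edgeSet = #H.edgeFinset :=
      fun H _ => by rw [Nat.card_eq_fintype_card, edgeFinset_card]
    by_cases hd : ∀ v, 120 ≤ G.degree v
    · have := dense_case hG hd r hr0 (by rw [hn]; exact hr)
      rw [sum_degrees_eq_twice_card_edges, hn] at this
      rw [hc]
      push_cast at this ⊢
      have : (0 : ℝ) ≤ n := by positivity
      nlinarith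
    · push Not at hd
      obtain ⟨v, hv⟩ := hd
      have h1 := ih ({v}ᶜ : Set V) (G.induce {v}ᶜ) (by rw [Fintype.card_compl_set]; simp [hn])
        (fun a b c d e f h1 h2 h3 h4 h5 h6 n1 n2 n3 n4 n5 n6 n7 n8 n9 =>
          hG a b c d e f h1 h2 h3 h4 h5 h6 (Subtype.coe_ne_coe.2 n1) (Subtype.coe_ne_coe.2 n2)
            (Subtype.coe_ne_coe.2 n3) (Subtype.coe_ne_coe.2 n4) (Subtype.coe_ne_coe.2 n5)
            (Subtype.coe_ne_coe.2 n6) (Subtype.coe_ne_coe.2 n7) (Subtype.coe_ne_coe.2 n8)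
            (Subtype.coe_ne_coe.2 n9)) (by push_cast at hr; linarith)
      have h2 := card_edgeFinset_induce_compl_singleton G v
      rw [card_edgeFinset_deleteIncidenceSet] at h2
      have h3 : Nat.card G.edgeSet ≤ Nat.card (G.induce {v}ᶜ).edgeSet + 120 := by
        rw [← hc, ← hc] at h2
        omega
      have h4 : (Nat.card G.edgeSet : ℝ) ≤ Nat.card (G.induce {v}ᶜ).edgeSet + 120 := by
        exact_mod_cast h3
      push_cast
      linarith

end Pool.Agent.H13.Hexagon
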