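import Mathlib

/-! Core of the block-system theorem for multi-way isoperimetric constants. -/

namespace Pool.Agent.H13.Iso
open Finset
open scoped Pointwise

variable {V : Type*} [Fintype V] [DecidableEq V]

/-- weight from `u` to the outside of `X` -/
noncomputable def dout (a : V → V → ℝ) (X : Finset V) (u : V) : ℝ := ∑ v ∈ Xᶜ, a u v
/-- weighted boundary -/
noncomputable def Bd (a : V → V → ℝ) (X : Finset V) : ℝ := ∑ u ∈ X, dout a X u
/-- separation indicator -/
noncomputable def sep (X : Finset V) (u v : V) : ℝ := if (u ∈ X ↔ v ∈ X) then 0 else 1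

lemma two_Bd (a : V → V → ℝ) (hs : ∀ u v, a u v = a v u) (X : Finset V) :
    2 * Bd a X = ∑ u, ∑ v, a u v * sep X u v := by
  have h1 : Bd a X = ∑ u, ∑ v, a u v * (if u ∈ X ∧ v ∉ X then 1 else 0) := by
    unfold Bd dout
    rw [← Finset.sum_add_sum_compl X]
    have : ∑ u ∈ Xᶜ, ∑ v, a u v * (if u ∈ X ∧ v ∉ X then (1:ℝ) else 0) = 0 := by
      apply Finset.sum_eq_zero; intro u hu
      apply Finset.sum_eq_zero; intro v _
      rw [Finset.mem_compl] at hu
      simp [hu]
    rw [this, add_zero]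
    apply Finset.sum_congr rfl; intro u hu
    rw [← Finset.sum_add_sum_compl X]
    have : ∑ v ∈ X, a u v * (if u ∈ X ∧ v ∉ X then (1:ℝ) else 0) = 0 := by
      apply Finset.sum_eq_zero; intro v hv
      simp [hv]
    rw [this, zero_add]
    apply Finset.sum_congr rfl; intro v hv
    rw [Finset.mem_compl] at hv
    simp [hu, hv]
  have h2 : Bd a X = ∑ u, ∑ v, a u v * (if v ∈ X ∧ u ∉ X then 1 else 0) := by
    rw [h1, Finset.sum_comm]
    apply Finset.sum_congr rfl; intro u _
    apply Finset.sum_congr rfl; intro v _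
    rw [hs]
  rw [two_mul]
  nth_rewrite 1 [h1]
  rw [h2, ← Finset.sum_add_distrib]
  apply Finset.sum_congr rfl; intro u _
  rw [← Finset.sum_add_distrib]
  apply Finset.sum_congr rfl; intro v _
  unfold sep
  by_cases hu : u ∈ X <;> by_cases hv : v ∈ X <;> simp [hu, hv]

lemma Bd_ineq (a : V → V → ℝ) (hs : ∀ u v, a u v = a v u) (h0 : ∀ u v, 0 ≤ a u v)
    (X Y Z W : Finset V) (h : ∀ u v, sep X u v + sep Y u v ≤ sep Z u v + sep W u v) :
    Bd a X + Bd a Y ≤ Bd a Z + Bd a W := by
  have : 2 * Bd a X + 2 * Bd a Y ≤ 2 * Bd a Z + 2 * Bd a W := by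
    rw [two_Bd a hs, two_Bd a hs, two_Bd a hs, two_Bd a hs, ← Finset.sum_add_distrib,
      ← Finset.sum_add_distrib]
    apply Finset.sum_le_sum; intro u _
    rw [← Finset.sum_add_distrib, ← Finset.sum_add_distrib]
    apply Finset.sum_le_sum; intro v _
    rw [← mul_add, ← mul_add]
    exact mul_le_mul_of_nonneg_left (h u v) (h0 u v)
  linarith

lemma Bd_empty (a : V → V → ℝ) : Bd a ∅ = 0 := by simp [Bd]

lemma dout_nonneg (a : V → V → ℝ) (h0 : ∀ u v, 0 ≤ a u v) (X : Finset V) (u : V) :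
    0 ≤ dout a X u := Finset.sum_nonneg fun v _ => h0 u v

lemma Bd_nonneg (a : V → V → ℝ) (h0 : ∀ u v, 0 ≤ a u v) (X : Finset V) : 0 ≤ Bd a X :=
  Finset.sum_nonneg fun u _ => dout_nonneg a h0 X u

lemma posi (a : V → V → ℝ) (hs : ∀ u v, a u v = a v u) (h0 : ∀ u v, 0 ≤ a u v)
    (A C : Finset V) : Bd a (A \ C) + Bd a (C \ A) ≤ Bd a A + Bd a C := by
  apply Bd_ineq a hs h0
  intro u v
  unfold sep
  by_cases h1 : u ∈ A <;> by_cases h2 : v ∈ A <;> by_cases h3 : u ∈ C <;> by_cases h4 : v ∈ C <;>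
    simp [h1, h2, h3, h4]

lemma Bd_inter (a : V → V → ℝ) (hs : ∀ u v, a u v = a v u) (h0 : ∀ u v, 0 ≤ a u v)
    (A C : Finset V) : Bd a (A ∩ C) ≤ Bd a A + Bd a C := by
  have := Bd_ineq a hs h0 (A ∩ C) ∅ A C (by
    intro u v
    unfold sep
    by_cases h1 : u ∈ A <;> by_cases h2 : v ∈ A <;> by_cases h3 : u ∈ C <;>
      by_cases h4 : v ∈ C <;> simp [h1, h2, h3, h4])
  rw [Bd_empty] at this; linarith

lemma dout_mono (a : V → V → ℝ) (h0 : ∀ u v, 0 ≤ a u v) {X Y : Finset V} (h : X ⊆ Y) (u : V) :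
    dout a Y u ≤ dout a X u :=
  Finset.sum_le_sum_of_subset_of_nonneg (Finset.compl_subset_compl.2 h) fun v _ _ => h0 u v

lemma dout_inter (a : V → V → ℝ) (h0 : ∀ u v, 0 ≤ a u v) (X Y : Finset V) (u : V) :
    dout a (X ∩ Y) u ≤ dout a X u + dout a Y u := by
  unfold dout
  rw [Finset.compl_inter, ← Finset.sum_union_inter]
  have : 0 ≤ ∑ v ∈ Xᶜ ∩ Yᶜ, a u v := Finset.sum_nonneg fun v _ => h0 u v
  linarith

variable {G : Type*} [Group G] [Fintype G] [MulAction G V]

omit [Fintype G] in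
lemma dout_smul (a : V → V → ℝ) (hi : ∀ (g : G) u v, a (g • u) (g • v) = a u v) (g : G)
    (X : Finset V) (u : V) : dout a (g • X) (g • u) = dout a X u := by
  unfold dout
  symm
  refine Finset.sum_bij' (fun v _ => g • v) (fun v _ => g⁻¹ • v) ?_ ?_ ?_ ?_ ?_
  · intro v hv
    rw [Finset.mem_compl] at hv ⊢
    rwa [Finset.smul_mem_smul_finset_iff]
  · intro v hv
    rw [Finset.mem_compl] at hv ⊢
    rwa [Finset.inv_smul_mem_iff]
  · intro v _; simp
  · intro v _; simp
  · intro v _; rw [hi]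

omit [Fintype G] in
lemma Bd_smul (a : V → V → ℝ) (hi : ∀ (g : G) u v, a (g • u) (g • v) = a u v) (g : G)
    (X : Finset V) : Bd a (g • X) = Bd a X := by
  unfold Bd
  symm
  refine Finset.sum_bij' (fun v _ => g • v) (fun v _ => g⁻¹ • v) ?_ ?_ ?_ ?_ ?_
  · intro v hv
    rwa [Finset.smul_mem_smul_finset_iff]
  · intro v hv
    rwa [Finset.inv_smul_mem_iff]
  · intro v _; simp
  · intro v _; simp
  · intro v _; rw [dout_smul a hi]

omit [DecidableEq V] in
lemma avg (ht : ∀ u v : V, ∃ g : G, g • u = v) (F : G → V → ℝ)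
    (hF : ∀ k g u, F (k * g) (k • u) = F g u) (u : V) :
    (Fintype.card V : ℝ) * ∑ g, F g u = ∑ g, ∑ v, F g v := by
  have h : ∀ v, ∑ g, F g v = ∑ g, F g u := by
    intro v
    obtain ⟨k, rfl⟩ := ht u v
    rw [← Equiv.sum_comp (Equiv.mulLeft k)]
    apply Finset.sum_congr rfl; intro g _
    exact hF k g u
  rw [Finset.sum_comm]
  simp [h]

omit [Fintype V] [Fintype G] in
lemma card_sdiff_smul (A : Finset V) (g : G) :
    ((g • A \ A).card : ℝ) = (A \ g • A).card := by
  have h1 := Finset.card_sdiff_add_card_inter (g • A) A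
  have h2 := Finset.card_sdiff_add_card_inter A (g • A)
  rw [Finset.card_smul_finset, Finset.inter_comm] at h1
  have : (g • A \ A).card = (A \ g • A).card := by omega
  rw [this]

omit [Fintype V] [Fintype G] in
lemma card_sdiff_inv (A : Finset V) (g : G) :
    ((A \ g⁻¹ • A).card : ℝ) = (A \ g • A).card := by
  rw [← card_sdiff_smul A g, ← Finset.card_smul_finset g (A \ g⁻¹ • A), Finset.smul_finset_sdiff,
    smul_inv_smul]

omit [Fintype V] in
lemma card_split (A C : Finset V) : ((A \ C).card : ℝ) + (A ∩ C).card = A.card := by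
  exact_mod_cast Finset.card_sdiff_add_card_inter A C

omit [Fintype G] in
/-- dichotomy for translates of a part -/
lemma dich (a : V → V → ℝ) (hs : ∀ u v, a u v = a v u) (h0 : ∀ u v, 0 ≤ a u v)
    (hi : ∀ (g : G) u v, a (g • u) (g • v) = a u v) (A : Finset V) (h h' : ℝ)
    (hA : Bd a A ≤ h * A.card)
    (HS : ∀ P, P ⊆ A → h' * P.card ≤ Bd a P ∨ h' * (A \ P).card ≤ Bd a (A \ P)) (g : G) :
    h' * (A ∩ g • A).card ≤ 2 * h * A.card ∨ h' * (A \ g • A).card ≤ h * A.card := by
  by_contra hc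
  push Not at hc
  obtain ⟨c1, c2⟩ := hc
  have key : ∀ k : G, 2 * h * A.card < h' * (A ∩ k • A).card →
      h' * (A \ k • A).card ≤ Bd a (A \ k • A) := by
    intro k hk
    rcases HS (A ∩ k • A) Finset.inter_subset_left with h1 | h1
    · have := Bd_inter a hs h0 A (k • A)
      rw [Bd_smul a hi] at this
      linarith
    · rwa [Finset.sdiff_inter_self_left] at h1
  have e1 := key g c1
  have hc' : ((A ∩ g⁻¹ • A).card : ℝ) = (A ∩ g • A).card := by
    have := card_split A (g⁻¹ • A)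
    have := card_split A (g • A)
    have := card_sdiff_inv A g
    linarith
  have e2 := key g⁻¹ (by rw [hc']; exact c1)
  rw [card_sdiff_inv, ← Bd_smul a hi g (A \ g⁻¹ • A), Finset.smul_finset_sdiff,
    smul_inv_smul] at e2
  have := posi a hs h0 A (g • A)
  rw [Bd_smul a hi] at this
  linarith

/-- averaging bound -/
lemma avg_bound (a : V → V → ℝ) (h0 : ∀ u v, 0 ≤ a u v)
    (hi : ∀ (g : G) u v, a (g • u) (g • v) = a u v) (ht : ∀ u v : V, ∃ g : G, g • u = v)
    (A : Finset V) :
    (Fintype.card V : ℝ) * ∑ g : G, Bd a (A ∩ g • A) ≤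
      2 * Fintype.card G * A.card * Bd a A := by
  have h1 : ∀ g : G, Bd a (A ∩ g • A) ≤
      ∑ u ∈ A, ((if u ∈ g • A then (1:ℝ) else 0) * dout a A u +
        (if u ∈ g • A then dout a (g • A) u else 0)) := by
    intro g
    unfold Bd
    rw [← Finset.filter_mem_eq_inter, Finset.sum_filter]
    apply Finset.sum_le_sum; intro u _
    rw [Finset.filter_mem_eq_inter]
    split_ifs
    · have := dout_inter a h0 A (g • A) u
      linarith
    · simp
  have h2 : ∀ u : V, (Fintype.card V : ℝ) * ∑ g : G, (if u ∈ g • A then (1:ℝ) else 0) =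
      Fintype.card G * A.card := by
    intro u
    rw [avg ht (fun g u => if u ∈ g • A then (1:ℝ) else 0)]
    · simp [Finset.card_smul_finset]
    · intro k g u
      simp only [mul_smul, Finset.smul_mem_smul_finset_iff]
  have h3 : ∀ u : V, (Fintype.card V : ℝ) *
      ∑ g : G, (if u ∈ g • A then dout a (g • A) u else 0) = Fintype.card G * Bd a A := by
    intro u
    rw [avg ht (fun g u => if u ∈ g • A then dout a (g • A) u else 0)]
    · have : ∀ g : G, ∑ v, (if v ∈ g • A then dout a (g • A) v else 0) = Bd a A := by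
        intro g
        rw [← Bd_smul a hi g A, ← Finset.sum_filter, Finset.filter_mem_eq_inter, Finset.univ_inter]
        rfl
      simp only [this]
      simp
    · intro k g u
      simp only [mul_smul, Finset.smul_mem_smul_finset_iff, dout_smul a hi]
  calc (Fintype.card V : ℝ) * ∑ g : G, Bd a (A ∩ g • A)
      ≤ (Fintype.card V : ℝ) * ∑ g : G, ∑ u ∈ A, ((if u ∈ g • A then (1:ℝ) else 0) * dout a A u +
        (if u ∈ g • A then dout a (g • A) u else 0)) :=
        mul_le_mul_of_nonneg_left (Finset.sum_le_sum fun g _ => h1 g) (Nat.cast_nonneg _)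
    _ = ∑ u ∈ A, (Fintype.card G * A.card * dout a A u + Fintype.card G * Bd a A) := by
        rw [Finset.sum_comm, Finset.mul_sum]
        apply Finset.sum_congr rfl; intro u _
        rw [Finset.sum_add_distrib, ← Finset.sum_mul, mul_add, ← mul_assoc, h2, h3]
    _ = _ := by
        rw [Finset.sum_add_distrib, ← Finset.mul_sum, Finset.sum_const, nsmul_eq_mul]
        unfold Bd; ring

lemma avg_card (ht : ∀ u v : V, ∃ g : G, g • u = v) (A : Finset V) (u : V) :
    (Fintype.card V : ℝ) * ∑ g : G, (if u ∈ g • A then (1:ℝ) else 0) =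
      Fintype.card G * A.card := by
  rw [avg ht (fun g u => if u ∈ g • A then (1:ℝ) else 0)]
  · simp [Finset.card_smul_finset]
  · intro k g u
    simp only [mul_smul, Finset.smul_mem_smul_finset_iff]

lemma avg_inter (ht : ∀ u v : V, ∃ g : G, g • u = v) (A : Finset V) :
    (Fintype.card V : ℝ) * ∑ g : G, ((A ∩ g • A).card : ℝ) =
      Fintype.card G * A.card * A.card := by
  have : ∀ g : G, ((A ∩ g • A).card : ℝ) = ∑ u ∈ A, (if u ∈ g • A then (1:ℝ) else 0) := by
    intro g
    rw [← Finset.filter_mem_eq_inter, Finset.card_filter]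
    push_cast; rfl
  simp only [this]
  rw [Finset.sum_comm, Finset.mul_sum]
  simp only [avg_card ht A]
  rw [Finset.sum_const, nsmul_eq_mul]; ring

end Pool.Agent.H13.Iso
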