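import Pool.Agent.H13.IsoA

/-! The majority block. -/

namespace Pool.Agent.H13.Iso
open Finset
open scoped Pointwise

variable {V : Type*} [Fintype V] [DecidableEq V]
variable {G : Type*} [Group G] [Fintype G] [MulAction G V]

lemma exists_block (a : V → V → ℝ) (hs : ∀ u v, a u v = a v u) (h0 : ∀ u v, 0 ≤ a u v)
    (hi : ∀ (g : G) u v, a (g • u) (g • v) = a u v) (ht : ∀ u v : V, ∃ g : G, g • u = v)
    (A : Finset V) (hne : A.Nonempty) (h h' : ℝ) (hh : 0 ≤ h) (h6 : 6 * h < h')
    (hA : Bd a A ≤ h * A.card)
    (HS : ∀ P, P ⊆ A → h' * P.card ≤ Bd a P ∨ h' * (A \ P).card ≤ Bd a (A \ P)) :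
    ∃ W : Finset V, (∀ g : G, g • W = W ∨ Disjoint W (g • W)) ∧
      h' * (A \ W).card ≤ 2 * h * A.card ∧ h' * (W \ A).card ≤ 2 * h * A.card := by
  classical
  have ha : (0:ℝ) < A.card := by exact_mod_cast hne.card_pos
  have hha : 0 ≤ h * A.card := mul_nonneg hh ha.le
  have h6a : 6 * h * A.card < h' * A.card := mul_lt_mul_of_pos_right h6 ha
  have hp : 0 < h' := by linarith
  set H : Finset G := Finset.univ.filter (fun g => h' * (A \ g • A).card ≤ h * A.card) with hH
  have memH : ∀ g, g ∈ H ↔ h' * (A \ g • A).card ≤ h * A.card := by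
    intro g; simp [hH]
  have H1 : (1:G) ∈ H := by rw [memH]; simpa using hha
  have Hinv : ∀ g ∈ H, g⁻¹ ∈ H := by
    intro g hg; rw [memH] at hg ⊢; rwa [card_sdiff_inv]
  have Hmul : ∀ g ∈ H, ∀ k ∈ H, g * k ∈ H := by
    intro g hg k hk
    rw [memH] at hg hk ⊢
    rcases dich a hs h0 hi A h h' hA HS (g * k) with c | c
    · exfalso
      have e1 : ((A \ (g * k) • A).card : ℝ) ≤ (A \ g • A).card + (A \ k • A).card := by
        rw [← Finset.card_smul_finset g (A \ k • A), Finset.smul_finset_sdiff, ← mul_smul]
        have : A \ (g * k) • A ⊆ (A \ g • A) ∪ (g • A \ (g * k) • A) := by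
          intro x hx
          simp only [Finset.mem_sdiff, Finset.mem_union] at hx ⊢
          tauto
        exact_mod_cast (Finset.card_le_card this).trans (Finset.card_union_le _ _)
      have e2 := card_split A ((g * k) • A)
      have e3 := mul_le_mul_of_nonneg_left e1 hp.le
      have e4 : h' * ((A \ (g * k) • A).card : ℝ) + h' * (A ∩ (g * k) • A).card = h' * A.card := by
        rw [← mul_add, e2]
      linarith
    · exact c
  have hHpos : (0:ℝ) < H.card := by exact_mod_cast Finset.card_pos.2 ⟨1, H1⟩
  -- the averaging inequality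
  have star : (Fintype.card G : ℝ) * A.card * (h' - 2 * h) ≤ h' * H.card * Fintype.card V := by
    have e1 : ∀ g : G, h' * ((A ∩ g • A).card : ℝ) ≤
        (if g ∈ H then h' * A.card else 0) + Bd a (A ∩ g • A) := by
      intro g
      split_ifs with hg
      · have := Bd_nonneg a h0 (A ∩ g • A)
        have e : ((A ∩ g • A).card : ℝ) ≤ A.card := by
          exact_mod_cast Finset.card_le_card Finset.inter_subset_left
        have := mul_le_mul_of_nonneg_left e hp.le
        linarith
      · rw [zero_add]
        rcases HS (A ∩ g • A) Finset.inter_subset_left with c | c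
        · exact c
        · exfalso
          rw [Finset.sdiff_inter_self_left] at c
          rcases dich a hs h0 hi A h h' hA HS g with d | d
          · have e2 := card_split A (g • A)
            have e4 : h' * ((A \ g • A).card : ℝ) + h' * (A ∩ g • A).card = h' * A.card := by
              rw [← mul_add, e2]
            have e5 := posi a hs h0 A (g • A)
            rw [Bd_smul a hi] at e5
            have := Bd_nonneg a h0 (g • A \ A)
            linarith
          · exact hg ((memH g).2 d)
    have e2 := Finset.sum_le_sum fun g (_ : g ∈ (Finset.univ : Finset G)) => e1 g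
    rw [Finset.sum_add_distrib, ← Finset.mul_sum, ← Finset.sum_filter, Finset.filter_mem_eq_inter,
      Finset.univ_inter, Finset.sum_const, nsmul_eq_mul] at e2
    have e3 := avg_bound a h0 hi ht A
    have e4 := avg_inter ht A
    have hN : (0:ℝ) ≤ Fintype.card V := Nat.cast_nonneg _
    have e5 := mul_le_mul_of_nonneg_left e2 hN
    have e6 : 2 * Fintype.card G * A.card * Bd a A ≤
        2 * Fintype.card G * A.card * (h * A.card) :=
      mul_le_mul_of_nonneg_left hA (by positivity)
    have e7 : (Fintype.card V : ℝ) * (h' * ∑ g : G, ((A ∩ g • A).card : ℝ)) =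
        h' * (Fintype.card G * A.card * A.card) := by rw [← e4]; ring
    have e8 : (Fintype.card G : ℝ) * A.card * (h' - 2 * h) * A.card ≤
        h' * H.card * Fintype.card V * A.card := by nlinarith
    exact le_of_mul_le_mul_right e8 ha
  -- majority set
  set f : V → ℝ := fun v => ∑ k ∈ H, (if v ∈ k • A then (1:ℝ) else 0) with hf
  set W : Finset V := Finset.univ.filter (fun v => (H.card : ℝ) < 2 * f v) with hW
  have memW : ∀ v, v ∈ W ↔ (H.card : ℝ) < 2 * f v := by intro v; simp [hW]
  have finv : ∀ k ∈ H, ∀ v, f (k • v) = f v := by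
    intro k hk v
    simp only [hf]
    symm
    refine Finset.sum_bij' (fun g _ => k * g) (fun g _ => k⁻¹ * g) ?_ ?_ ?_ ?_ ?_
    · intro g hg; exact Hmul k hk g hg
    · intro g hg; exact Hmul _ (Hinv k hk) g hg
    · intro g _; simp
    · intro g _; simp
    · intro g _; simp only [mul_smul, Finset.smul_mem_smul_finset_iff]
  have Winv : ∀ k ∈ H, k • W = W := by
    intro k hk
    ext v
    rw [← Finset.inv_smul_mem_iff, memW, memW, finv _ (Hinv k hk)]
  have sumH : h' * ∑ k ∈ H, ((A \ k • A).card : ℝ) ≤ H.card * (h * A.card) := by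
    rw [Finset.mul_sum, ← nsmul_eq_mul, ← Finset.sum_const]
    exact Finset.sum_le_sum fun k hk => (memH k).1 hk
  have b1 : h' * (A \ W).card ≤ 2 * h * A.card := by
    have e1 : ∑ k ∈ H, ((A \ k • A).card : ℝ) = ∑ v ∈ A, (H.card - f v) := by
      have : ∀ k : G, ((A \ k • A).card : ℝ) = ∑ v ∈ A, (1 - if v ∈ k • A then (1:ℝ) else 0) := by
        intro k
        rw [Finset.sdiff_eq_filter, Finset.card_filter]
        push_cast
        apply Finset.sum_congr rfl; intro v _
        split_ifs <;> simp_all
      simp only [this]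
      rw [Finset.sum_comm]
      apply Finset.sum_congr rfl; intro v _
      rw [Finset.sum_sub_distrib]; simp [hf]
    have e2 : ((A \ W).card : ℝ) * (H.card / 2) ≤ ∑ v ∈ A, (H.card - f v) := by
      calc ((A \ W).card : ℝ) * (H.card / 2) = ∑ v ∈ A \ W, ((H.card : ℝ) / 2) := by
            rw [Finset.sum_const, nsmul_eq_mul]
        _ ≤ ∑ v ∈ A \ W, (H.card - f v) := by
            apply Finset.sum_le_sum; intro v hv
            have := (Finset.mem_sdiff.1 hv).2
            rw [memW] at this
            linarith
        _ ≤ _ := by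
            apply Finset.sum_le_sum_of_subset_of_nonneg Finset.sdiff_subset
            intro v _ _
            have : f v ≤ ∑ k ∈ H, (1:ℝ) :=
              Finset.sum_le_sum fun k _ => by split_ifs <;> norm_num
            simp at this
            linarith
    rw [← e1] at e2
    have e3 := mul_le_mul_of_nonneg_left e2 hp.le
    have e4 : h' * (A \ W).card * H.card ≤ 2 * h * A.card * H.card := by nlinarith
    exact le_of_mul_le_mul_right e4 hHpos
  have b2 : h' * (W \ A).card ≤ 2 * h * A.card := by
    have e1 : ∑ k ∈ H, ((A \ k • A).card : ℝ) = ∑ v ∈ Aᶜ, f v := by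
      have : ∀ k : G, ((A \ k • A).card : ℝ) = ∑ v ∈ Aᶜ, (if v ∈ k • A then (1:ℝ) else 0) := by
        intro k
        rw [← card_sdiff_smul, Finset.sdiff_eq_inter_compl, Finset.inter_comm,
          ← Finset.filter_mem_eq_inter, Finset.card_filter]
        push_cast; rfl
      simp only [this]
      rw [Finset.sum_comm]
    have e2 : ((W \ A).card : ℝ) * (H.card / 2) ≤ ∑ v ∈ Aᶜ, f v := by
      calc ((W \ A).card : ℝ) * (H.card / 2) = ∑ v ∈ W \ A, ((H.card : ℝ) / 2) := by
            rw [Finset.sum_const, nsmul_eq_mul]
        _ ≤ ∑ v ∈ W \ A, f v := by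
            apply Finset.sum_le_sum; intro v hv
            have := (Finset.mem_sdiff.1 hv).1
            rw [memW] at this
            linarith
        _ ≤ _ := by
            apply Finset.sum_le_sum_of_subset_of_nonneg
            · intro v hv; exact Finset.mem_compl.2 (Finset.mem_sdiff.1 hv).2
            · intro v _ _
              exact Finset.sum_nonneg fun k _ => by split_ifs <;> norm_num
    rw [← e1] at e2
    have e3 := mul_le_mul_of_nonneg_left e2 hp.le
    have e4 : h' * (W \ A).card * H.card ≤ 2 * h * A.card * H.card := by nlinarith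
    exact le_of_mul_le_mul_right e4 hHpos
  refine ⟨W, ?_, b1, b2⟩
  intro g
  by_cases hg : g ∈ H
  · exact Or.inl (Winv g hg)
  right
  rw [Finset.disjoint_left]
  intro v hv1 hv2
  have e1 := avg_card ht W v
  have e2 : 2 * (H.card : ℝ) ≤ ∑ k : G, (if v ∈ k • W then (1:ℝ) else 0) := by
    have hd : Disjoint H (H.image (fun k => g * k)) := by
      rw [Finset.disjoint_left]
      intro x hx hx'
      obtain ⟨k, hk, rfl⟩ := Finset.mem_image.1 hx'
      apply hg
      have := Hmul _ hx _ (Hinv k hk)
      simpa using this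
    have hc : ((H ∪ H.image (fun k => g * k)).card : ℝ) = 2 * H.card := by
      rw [Finset.card_union_of_disjoint hd, Finset.card_image_of_injective _ (mul_right_injective g)]
      push_cast; ring
    rw [← hc, ← Finset.sum_filter]
    simp only [Finset.sum_const, nsmul_eq_mul, mul_one]
    have : H ∪ H.image (fun k => g * k) ⊆ Finset.univ.filter (fun k : G => v ∈ k • W) := by
      intro x hx
      simp only [Finset.mem_filter, Finset.mem_univ, true_and]
      rcases Finset.mem_union.1 hx with hx | hx
      · rwa [Winv x hx]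
      · obtain ⟨k, hk, rfl⟩ := Finset.mem_image.1 hx
        rwa [mul_smul, Winv k hk]
    exact_mod_cast Finset.card_le_card this
  have e3 : (W.card : ℝ) ≤ (W \ A).card + A.card := by
    have := card_split W A
    have e : ((W ∩ A).card : ℝ) ≤ A.card := by
      exact_mod_cast Finset.card_le_card Finset.inter_subset_right
    linarith
  have hN : (0:ℝ) ≤ Fintype.card V := Nat.cast_nonneg _
  have hM : (0:ℝ) < Fintype.card G := by exact_mod_cast Fintype.card_pos
  have e4 := mul_le_mul_of_nonneg_left e2 hN
  rw [e1] at e4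
  have e5 : h' * W.card ≤ (h' + 2 * h) * A.card := by nlinarith
  have e6 := mul_le_mul_of_nonneg_left e4 hp.le
  have e7 := mul_le_mul_of_nonneg_left e5 hM.le
  have e8 := mul_lt_mul_of_pos_left h6a hM
  nlinarith

end Pool.Agent.H13.Iso
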