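import Pool.Agent.H13.IsoB

/-! The block system is a realizer. -/

namespace Pool.Agent.H13.Iso
open Finset
open scoped Pointwise

variable {V : Type*} [Fintype V] [DecidableEq V]
variable {G : Type*} [Group G] [Fintype G] [MulAction G V]

/-- colour class -/
def cls {n : ℕ} (c : V → Fin n) (i : Fin n) : Finset V := Finset.univ.filter (fun v => c v = i)

lemma mem_cls {n : ℕ} (c : V → Fin n) (i : Fin n) (v : V) : v ∈ cls c i ↔ c v = i := by
  simp [cls]

lemma split {n : ℕ} (a : V → V → ℝ) (h0 : ∀ u v, 0 ≤ a u v) (c : V → Fin n)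
    (hc : Function.Surjective c) (h h' : ℝ) (hlt : h < h')
    (hA : ∀ i, Bd a (cls c i) ≤ h * (cls c i).card)
    (H' : ∀ c' : V → Fin (n + 1), Function.Surjective c' →
      ∃ i, h' * (cls c' i).card ≤ Bd a (cls c' i)) (j : Fin n) (P : Finset V)
    (hP : P ⊆ cls c j) :
    h' * P.card ≤ Bd a P ∨ h' * (cls c j \ P).card ≤ Bd a (cls c j \ P) := by
  rcases P.eq_empty_or_nonempty with rfl | ⟨p, hp⟩
  · left; simp [Bd_empty]
  rcases (cls c j \ P).eq_empty_or_nonempty with e | ⟨q, hq⟩
  · right; rw [e]; simp [Bd_empty]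
  have hq1 := (mem_cls c j q).1 (Finset.mem_sdiff.1 hq).1
  have hq2 := (Finset.mem_sdiff.1 hq).2
  let c' : V → Fin (n + 1) := fun v => if v ∈ P then Fin.last n else (c v).castSucc
  have hs : Function.Surjective c' := by
    intro i
    induction i using Fin.lastCases with
    | last => exact ⟨p, by simp [c', hp]⟩
    | cast i =>
      by_cases hij : i = j
      · exact ⟨q, by simp [c', hq2, hq1, hij]⟩
      · obtain ⟨v, hv⟩ := hc i
        have : v ∉ P := fun hv' => hij (hv ▸ (mem_cls c j v).1 (hP hv'))
        exact ⟨v, by simp [c', this, hv]⟩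
  obtain ⟨i, hi⟩ := H' c' hs
  induction i using Fin.lastCases with
  | last =>
    left
    have : cls c' (Fin.last n) = P := by
      ext v; rw [mem_cls]
      by_cases hv : v ∈ P <;> simp [c', hv, Fin.castSucc_ne_last]
    rwa [this] at hi
  | cast i =>
    by_cases hij : i = j
    · right
      have : cls c' i.castSucc = cls c j \ P := by
        ext v; rw [mem_cls, Finset.mem_sdiff, mem_cls]
        by_cases hv : v ∈ P <;> simp [c', hv, hij, (Fin.castSucc_ne_last j).symm]
      rwa [this] at hi
    · exfalso
      have : cls c' i.castSucc = cls c i := by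
        ext v; rw [mem_cls, mem_cls]
        by_cases hv : v ∈ P
        · have := (mem_cls c j v).1 (hP hv)
          simp [c', hv, (Fin.castSucc_ne_last i).symm, this, Ne.symm hij]
        · simp [c', hv]
      rw [this] at hi
      obtain ⟨v, hv⟩ := hc i
      have hpos : (0:ℝ) < (cls c i).card := by
        exact_mod_cast Finset.card_pos.2 ⟨v, (mem_cls c i v).2 hv⟩
      have := hA i
      have := mul_lt_mul_of_pos_right hlt hpos
      linarith

/-- boundary of a piece of a set: either leaves the set or crosses inside -/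
lemma Bd_piece (a : V → V → ℝ) (h0 : ∀ u v, 0 ≤ a u v) (A C : Finset V) :
    Bd a (A ∩ C) ≤ ∑ u ∈ A ∩ C, dout a A u + ∑ u ∈ A ∩ C, ∑ v ∈ A \ C, a u v := by
  unfold Bd
  rw [← Finset.sum_add_distrib]
  apply Finset.sum_le_sum; intro u _
  unfold dout
  rw [← Finset.sum_union]
  · apply Finset.sum_le_sum_of_subset_of_nonneg
    · intro v hv
      simp only [Finset.mem_compl, Finset.mem_inter, Finset.mem_union, Finset.mem_sdiff] at hv ⊢
      tauto
    · intro v _ _; exact h0 u v
  · rw [Finset.disjoint_left]; intro v hv hv'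
    exact (Finset.mem_compl.1 hv) (Finset.mem_sdiff.1 hv').1

theorem main {n : ℕ} (hn : 0 < n) (a : V → V → ℝ) (hs : ∀ u v, a u v = a v u)
    (h0 : ∀ u v, 0 ≤ a u v)
    (hi : ∀ (g : G) u v, a (g • u) (g • v) = a u v) (ht : ∀ u v : V, ∃ g : G, g • u = v)
    (c : V → Fin n) (hc : Function.Surjective c) (h h' : ℝ) (hh : 0 ≤ h) (h6 : 6 * h < h')
    (hA : ∀ i, Bd a (cls c i) ≤ h * (cls c i).card)
    (H' : ∀ c' : V → Fin (n + 1), Function.Surjective c' →
      ∃ i, h' * (cls c' i).card ≤ Bd a (cls c' i)) :
    ∃ d : V → Fin n, Function.Surjective d ∧ (∀ (g : G) i, ∃ j, g • cls d i = cls d j) ∧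
      ∀ i, Bd a (cls d i) ≤ h * (cls d i).card := by
  classical
  have hp : 0 < h' := by linarith
  have HS := split a h0 c hc h h' (by linarith) hA H'
  have hpos : ∀ i, (0:ℝ) < (cls c i).card := by
    intro i
    obtain ⟨v, hv⟩ := hc i
    exact_mod_cast Finset.card_pos.2 ⟨v, (mem_cls c i v).2 hv⟩
  obtain ⟨i0, -, hi0⟩ := Finset.exists_min_image Finset.univ (fun i => (cls c i).card)
    ⟨⟨0, hn⟩, Finset.mem_univ _⟩
  set A := cls c i0 with hAdef
  have ha : (0:ℝ) < A.card := hpos i0
  have hne : A.Nonempty := Finset.card_pos.1 (by exact_mod_cast ha)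
  obtain ⟨W, hblock, b1, b2⟩ := exists_block a hs h0 hi ht A hne h h' hh h6 (hA i0) (HS i0)
  have h6a : 6 * h * A.card < h' * A.card := mul_lt_mul_of_pos_right h6 ha
  have hha : 0 ≤ h * A.card := mul_nonneg hh ha.le
  have s3 : 3 * ((A \ W).card : ℝ) ≤ A.card := by
    have : h' * (3 * ((A \ W).card : ℝ)) ≤ h' * A.card := by linarith
    exact le_of_mul_le_mul_left this hp
  have t3 : 3 * ((W \ A).card : ℝ) ≤ A.card := by
    have : h' * (3 * ((W \ A).card : ℝ)) ≤ h' * A.card := by linarith
    exact le_of_mul_le_mul_left this hp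
  have sp := card_split A W
  obtain ⟨w0, hw0⟩ : (A ∩ W).Nonempty := by
    apply Finset.card_pos.1
    have : (0:ℝ) < (A ∩ W).card := by linarith
    exact_mod_cast this
  have hw : w0 ∈ W := (Finset.mem_inter.1 hw0).2
  choose γ hγ using ht w0
  set blk : V → Finset V := fun v => γ v • W with hblk
  have two : ∀ (g k : G) v, v ∈ g • W → v ∈ k • W → g • W = k • W := by
    intro g k v h1 h2
    rcases hblock (g⁻¹ * k) with e | e
    · rw [mul_smul, inv_smul_eq_iff] at e; exact e.symm
    · exfalso
      rw [Finset.disjoint_left] at e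
      apply e (Finset.inv_smul_mem_iff.2 h1)
      rwa [mul_smul, Finset.smul_mem_smul_finset_iff]
  have self : ∀ v, v ∈ blk v := by
    intro v
    have : γ v • w0 ∈ γ v • W := Finset.smul_mem_smul_finset hw
    rwa [hγ] at this
  have same : ∀ u v, u ∈ blk v → blk u = blk v := fun u v huv => two _ _ u (self u) huv
  have equi : ∀ (g : G) v, blk (g • v) = g • blk v := by
    intro g v
    have : g • v ∈ (g * γ v) • W := by
      rw [mul_smul]; exact Finset.smul_mem_smul_finset (self v)
    have e := two _ _ _ (self (g • v)) this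
    rw [mul_smul] at e; exact e
  have bW : ∀ u ∈ W, blk u = W := by
    intro u hu
    have := two (γ u) 1 u (self u) (by simpa using hu)
    simpa using this
  have bcard : ∀ v, (blk v).card = W.card := fun v => Finset.card_smul_finset _ _
  set β := dout a W w0 with hβ
  have hβ0 : 0 ≤ β := dout_nonneg a h0 W w0
  have dβ : ∀ v, dout a (blk v) v = β := by
    intro v
    have := dout_smul a hi (γ v) W w0
    rwa [hγ] at this
  -- crossing weight between the inside and outside of a block
  have cross : ∀ (X : Finset V) (w : V), ∑ u ∈ X ∩ blk w, ∑ v ∈ X \ blk w, a u v ≤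
      β * (X \ blk w).card := by
    intro X w
    rw [Finset.sum_comm, mul_comm, ← nsmul_eq_mul, ← Finset.sum_const]
    apply Finset.sum_le_sum; intro v hv
    rw [← dβ v]
    unfold dout
    simp only [fun u => hs u v]
    apply Finset.sum_le_sum_of_subset_of_nonneg
    · intro u hu
      rw [Finset.mem_compl]; intro hu'
      apply (Finset.mem_sdiff.1 hv).2
      rw [← same u w (Finset.mem_inter.1 hu).2, same u v hu']; exact self v
    · intro u _ _; exact h0 v u
  have piece2 : ∀ (X : Finset V) (w : V), Bd a (X \ blk w) ≤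
      ∑ u ∈ X \ blk w, dout a X u + β * (X \ blk w).card := by
    intro X w
    have e1 := Bd_piece a h0 X (blk w)ᶜ
    rw [← Finset.sdiff_eq_inter_compl, sdiff_compl, Finset.sum_comm (s := X \ blk w)] at e1
    have e2 := cross X w
    have e3 : ∑ y ∈ X ⊓ blk w, ∑ x ∈ X \ blk w, a x y =
        ∑ u ∈ X ∩ blk w, ∑ v ∈ X \ blk w, a u v := by
      apply Finset.sum_congr rfl; intro u _
      apply Finset.sum_congr rfl; intro v _
      exact hs v u
    linarith
  have hβh : β ≤ h := by
    have eW := bW w0 hw
    have cr := cross A w0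
    have p2 := piece2 A w0
    have p1 := Bd_piece a h0 A W
    rw [eW] at cr p2
    have sB : ∑ u ∈ A \ W, dout a A u + ∑ u ∈ A ∩ W, dout a A u = Bd a A := by
      unfold Bd
      rw [add_comm, Finset.sum_inter_add_sum_sdiff]
    have lo : β * (A ∩ W).card ≤ Bd a (A ∩ W) := by
      rw [mul_comm, ← nsmul_eq_mul, ← Finset.sum_const]
      apply Finset.sum_le_sum; intro u hu
      rw [← dβ u, bW u (Finset.mem_inter.1 hu).2]
      exact dout_mono a h0 Finset.inter_subset_right u
    have n1 : 0 ≤ ∑ u ∈ A \ W, dout a A u := Finset.sum_nonneg fun u _ => dout_nonneg a h0 A u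
    have hA0 : Bd a A ≤ h * A.card := hA i0
    have hs0 : (0:ℝ) ≤ (A \ W).card := Nat.cast_nonneg _
    have k1 : β ≤ 3 * h := by
      have : β * A.card ≤ 3 * h * A.card := by nlinarith
      exact le_of_mul_le_mul_right this ha
    have k2 : h' * (A \ W).card ≤ Bd a (A \ W) := by
      rcases HS i0 (A \ W) Finset.sdiff_subset with e | e
      · exact e
      · exfalso
        rw [← hAdef, Finset.sdiff_sdiff_self_left] at e
        have e4 : h' * ((A \ W).card : ℝ) + h' * (A ∩ W).card = h' * A.card := by
          rw [← mul_add, sp]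
        nlinarith
    have k3 : β * A.card + (h' - 3 * β) * (A \ W).card ≤ h * A.card := by
      have : β * (A ∩ W).card = β * A.card - β * (A \ W).card := by rw [← sp]; ring
      linarith
    have k4 : 2 * β ≤ 3 * h := by
      have : 2 * β * A.card ≤ 3 * h * A.card := by nlinarith
      exact le_of_mul_le_mul_right this ha
    have : β * A.card ≤ h * A.card := by nlinarith
    exact le_of_mul_le_mul_right this ha
  -- colourings constant on blocks have small boundary
  have uni : ∀ {m : ℕ} (d : V → Fin m), (∀ u v, blk u = blk v → d u = d v) →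
      ∀ i, Bd a (cls d i) ≤ h * (cls d i).card := by
    intro m d hd i
    rw [mul_comm, ← nsmul_eq_mul, ← Finset.sum_const]
    apply Finset.sum_le_sum; intro u hu
    refine le_trans (dout_mono a h0 ?_ u) ((dβ u).le.trans hβh)
    intro v hv
    rw [mem_cls] at hu ⊢
    rw [hd v u (same v u hv), hu]
  set 𝓑 : Finset (Finset V) := Finset.univ.image blk with h𝓑
  let bl : V → 𝓑 := fun v => ⟨blk v, Finset.mem_image_of_mem _ (Finset.mem_univ v)⟩
  have blsurj : Function.Surjective bl := by
    rintro ⟨B, hB⟩
    obtain ⟨v, -, rfl⟩ := Finset.mem_image.1 hB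
    exact ⟨v, rfl⟩
  have up : Fintype.card 𝓑 ≤ n := by
    by_contra hlt
    have hle : Fintype.card (Fin (n + 1)) ≤ Fintype.card 𝓑 := by simp at hlt ⊢; omega
    obtain ⟨e⟩ := Function.Embedding.nonempty_of_card_le hle
    have hsurj := Function.invFun_surjective e.injective
    obtain ⟨i, hi'⟩ := H' _ (hsurj.comp blsurj)
    have h1 := uni (Function.invFun e ∘ bl) (by
      intro u v huv
      have : bl u = bl v := Subtype.ext huv
      simp [this]) i
    obtain ⟨v, hv⟩ := (hsurj.comp blsurj) i
    have hpos' : (0:ℝ) < (cls (Function.invFun e ∘ bl) i).card := by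
      exact_mod_cast Finset.card_pos.2 ⟨v, (mem_cls _ i v).2 hv⟩
    have := mul_lt_mul_of_pos_right (show h < h' by linarith) hpos'
    linarith
  have major : ∀ j, ∃ w, 5 * ((cls c j \ blk w).card : ℝ) ≤ (cls c j).card := by
    intro j
    set X := cls c j with hX
    have ex : ∃ w, Bd a (X ∩ blk w) < h' * (X ∩ blk w).card := by
      by_contra hcon
      push Not at hcon
      have e1 : ∑ B ∈ 𝓑, h' * ((X ∩ B).card : ℝ) ≤ ∑ B ∈ 𝓑, Bd a (X ∩ B) := by
        apply Finset.sum_le_sum; intro B hB
        obtain ⟨v, -, rfl⟩ := Finset.mem_image.1 hB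
        exact hcon v
      have fib : ∀ B ∈ 𝓑, X ∩ B = X.filter (fun u => blk u = B) := by
        intro B hB
        obtain ⟨v, -, rfl⟩ := Finset.mem_image.1 hB
        ext u
        simp only [Finset.mem_inter, Finset.mem_filter]
        exact and_congr_right fun _ => ⟨same u v, fun e => e ▸ self u⟩
      have mp : ∀ u ∈ X, blk u ∈ 𝓑 := fun u _ => Finset.mem_image_of_mem _ (Finset.mem_univ u)
      have e2 : ∑ B ∈ 𝓑, h' * ((X ∩ B).card : ℝ) = h' * X.card := by
        rw [← Finset.mul_sum, Finset.card_eq_sum_card_fiberwise mp]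
        push_cast
        congr 1
        apply Finset.sum_congr rfl; intro B hB; rw [fib B hB]
      have e3 : ∑ B ∈ 𝓑, Bd a (X ∩ B) ≤ ∑ u ∈ X, (dout a X u + h) := by
        rw [← Finset.sum_fiberwise_of_maps_to mp]
        apply Finset.sum_le_sum; intro B hB
        unfold Bd
        rw [← fib B hB]
        apply Finset.sum_le_sum; intro u hu
        have e := dout_inter a h0 X B u
        have : blk u = B := by
          rw [fib B hB] at hu; exact (Finset.mem_filter.1 hu).2
        rw [← this, dβ u] at e
        rw [← this]; linarith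
      rw [Finset.sum_add_distrib, Finset.sum_const, nsmul_eq_mul] at e3
      have e4 : ∑ u ∈ X, dout a X u ≤ h * X.card := hA j
      have e5 : (0:ℝ) < X.card := hpos j
      nlinarith
    obtain ⟨w, hw'⟩ := ex
    refine ⟨w, ?_⟩
    rcases HS j (X ∩ blk w) Finset.inter_subset_left with e | e
    · linarith
    · rw [← hX, Finset.sdiff_inter_self_left] at e
      have p2 := piece2 X w
      have e4 : ∑ u ∈ X \ blk w, dout a X u ≤ h * X.card :=
        le_trans (Finset.sum_le_sum_of_subset_of_nonneg Finset.sdiff_subset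
          fun u _ _ => dout_nonneg a h0 X u) (hA j)
      have hs0 : (0:ℝ) ≤ (X \ blk w).card := Nat.cast_nonneg _
      have e5 : (0:ℝ) < X.card := hpos j
      have e6 : (h' - h) * (5 * ((X \ blk w).card : ℝ)) ≤ (h' - h) * X.card := by nlinarith
      exact le_of_mul_le_mul_left e6 (by linarith)
  choose w hw5 using major
  have low : n ≤ Fintype.card 𝓑 := by
    have hinj : Function.Injective (fun j => bl (w j)) := by
      intro j k hjk
      by_contra hne'
      have e : blk (w j) = blk (w k) := congrArg Subtype.val hjk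
      have hd : Disjoint (cls c j ∩ blk (w j)) (cls c k ∩ blk (w j)) := by
        rw [Finset.disjoint_left]; intro v h1 h2
        exact hne' (((mem_cls c j v).1 (Finset.mem_inter.1 h1).1).symm.trans
          ((mem_cls c k v).1 (Finset.mem_inter.1 h2).1))
      have e1 : (cls c j ∩ blk (w j)).card + (cls c k ∩ blk (w j)).card ≤ W.card := by
        rw [← Finset.card_union_of_disjoint hd, ← bcard (w j)]
        exact Finset.card_le_card (Finset.union_subset Finset.inter_subset_right
          Finset.inter_subset_right)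
      have e1' : ((cls c j ∩ blk (w j)).card : ℝ) + (cls c k ∩ blk (w j)).card ≤ W.card := by
        exact_mod_cast e1
      have e2 := hw5 j
      have e3 := hw5 k
      rw [← e] at e3
      have e4 := card_split (cls c j) (blk (w j))
      have e5 := card_split (cls c k) (blk (w j))
      have e6 : (A.card : ℝ) ≤ (cls c j).card := by exact_mod_cast hi0 j (Finset.mem_univ _)
      have e7 : (A.card : ℝ) ≤ (cls c k).card := by exact_mod_cast hi0 k (Finset.mem_univ _)
      have e8 := card_split W A
      have e9 : ((W ∩ A).card : ℝ) ≤ A.card := by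
        exact_mod_cast Finset.card_le_card Finset.inter_subset_right
      linarith
    simpa using Fintype.card_le_of_injective _ hinj
  obtain ⟨e⟩ : Nonempty (𝓑 ≃ Fin n) := ⟨Fintype.equivFinOfCardEq (le_antisymm up low)⟩
  have clsb : ∀ v, cls (e ∘ bl) (e (bl v)) = blk v := by
    intro v; ext u
    rw [mem_cls, Function.comp_apply, e.apply_eq_iff_eq, Subtype.ext_iff]
    exact ⟨fun h1 => by have := self u; rwa [show blk u = blk v from h1] at this, same u v⟩
  refine ⟨e ∘ bl, e.surjective.comp blsurj, ?_, ?_⟩
  · intro g i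
    obtain ⟨v, rfl⟩ := (e.surjective.comp blsurj) i
    exact ⟨e (bl (g • v)), by rw [Function.comp_apply, clsb, clsb, equi]⟩
  · apply uni
    intro u v huv
    have : bl u = bl v := Subtype.ext huv
    simp [this]

end Pool.Agent.H13.Iso
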