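import Mathlib

/-! Multi-way isoperimetric constants: definitions. -/

namespace Pool.Agent.H13.Iso

variable {V : Type*}

/-- `|∂A|`: the number of edges with one endpoint in `A` and the other outside `A`. -/
noncomputable def edgeBd (Γ : SimpleGraph V) (A : Set V) : ℕ :=
  {e ∈ Γ.edgeSet | ∃ u ∈ A, ∃ v ∉ A, e = s(u, v)}.ncard

/-- `max_i |∂A_i| / |A_i|` for the partition into the fibres `A_i` of `c`. -/
noncomputable def width (Γ : SimpleGraph V) {n : ℕ} (c : V → Fin n) : ℝ :=
  ⨆ i, (edgeBd Γ (c ⁻¹' {i}) : ℝ) / (c ⁻¹' {i}).ncard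

/-- The `n`-way isoperimetric constant: minimum over partitions into `n` non-empty parts. -/
noncomputable def hIso (Γ : SimpleGraph V) (n : ℕ) : ℝ :=
  ⨅ c : {c : V → Fin n // Function.Surjective c}, width Γ c.1

/-- The fibres of `c` are permuted by every automorphism of `Γ`. -/
def Imprim (Γ : SimpleGraph V) {n : ℕ} (c : V → Fin n) : Prop :=
  ∀ g : Γ ≃g Γ, ∀ i, ∃ j, g '' (c ⁻¹' {i}) = c ⁻¹' {j}

end Pool.Agent.H13.Iso
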