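import Pool.Agent.H13.IsoC
import Pool.Agent.H13.IsoDefs

/-! Transfer to graphs. -/

namespace Pool.Agent.H13.Iso
open Finset
open scoped Pointwise

variable {V : Type*} [Fintype V] [DecidableEq V]

open Classical in
/-- adjacency weights -/
noncomputable def adj (Γ : SimpleGraph V) (u v : V) : ℝ := if Γ.Adj u v then 1 else 0

lemma edgeBd_eq (Γ : SimpleGraph V) (A : Finset V) : (edgeBd Γ (A : Set V) : ℝ) = Bd (adj Γ) A := by
  classical
  have h1 : Bd (adj Γ) A = (((A ×ˢ Aᶜ).filter (fun p => Γ.Adj p.1 p.2)).card : ℝ) := by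
    unfold Bd dout adj
    rw [Finset.card_filter, Finset.sum_product]
    push_cast; rfl
  rw [h1]
  have h2 : {e ∈ Γ.edgeSet | ∃ u ∈ (A : Set V), ∃ v ∉ (A : Set V), e = s(u, v)} =
      ((((A ×ˢ Aᶜ).filter (fun p => Γ.Adj p.1 p.2)).image (fun p => s(p.1, p.2)) :
        Finset (Sym2 V)) : Set (Sym2 V)) := by
    ext e
    simp only [Set.mem_setOf_eq, Finset.coe_image, Set.mem_image, Finset.mem_coe,
      Finset.mem_filter, Finset.mem_product, Finset.mem_compl]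
    constructor
    · rintro ⟨he, u, hu, v, hv, rfl⟩
      exact ⟨(u, v), ⟨⟨hu, hv⟩, he⟩, rfl⟩
    · rintro ⟨⟨u, v⟩, ⟨⟨hu, hv⟩, he⟩, rfl⟩
      exact ⟨he, u, hu, v, hv, rfl⟩
  unfold edgeBd
  rw [h2, Set.ncard_coe_finset, Finset.card_image_of_injOn]
  rintro ⟨u, v⟩ hp ⟨u', v'⟩ hq hpq
  simp only [Finset.coe_filter, Finset.mem_product, Finset.mem_compl, Set.mem_setOf_eq] at hp hq
  rcases Sym2.eq_iff.1 hpq with ⟨rfl, rfl⟩ | ⟨rfl, rfl⟩
  · rfl
  · exact absurd hp.1.1 hq.1.2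

omit [DecidableEq V] in
lemma pre_eq {n : ℕ} (c : V → Fin n) (i : Fin n) : c ⁻¹' {i} = (cls c i : Set V) := by
  ext v; simp [cls]

lemma width_eq (Γ : SimpleGraph V) {n : ℕ} (c : V → Fin n) :
    width Γ c = ⨆ i, Bd (adj Γ) (cls c i) / (cls c i).card := by
  unfold width
  simp only [pre_eq, edgeBd_eq, Set.ncard_coe_finset]

omit [DecidableEq V] in
lemma cls_pos {n : ℕ} (c : V → Fin n) (hc : Function.Surjective c) (i : Fin n) :
    (0:ℝ) < (cls c i).card := by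
  obtain ⟨v, hv⟩ := hc i
  exact_mod_cast Finset.card_pos.2 ⟨v, by simp [cls, hv]⟩

theorem graph_main (Γ : SimpleGraph V) (n : ℕ) (hn : 0 < n) (hV : n + 1 ≤ Fintype.card V)
    (ht : ∀ u v : V, ∃ g : Γ ≃g Γ, g u = v) (h6 : 6 * hIso Γ n < hIso Γ (n + 1)) :
    ∃ c : V → Fin n, Function.Surjective c ∧ width Γ c = hIso Γ n ∧ Imprim Γ c := by
  classical
  haveI : Nonempty (Fin n) := ⟨⟨0, hn⟩⟩
  haveI : Finite (Γ ≃g Γ) :=
    Finite.of_injective (fun g : Γ ≃g Γ => (g : V → V)) DFunLike.coe_injective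
  haveI : Fintype (Γ ≃g Γ) := Fintype.ofFinite _
  have h0 : ∀ u v, 0 ≤ adj Γ u v := fun u v => by unfold adj; split_ifs <;> norm_num
  have hs : ∀ u v, adj Γ u v = adj Γ v u := fun u v => by unfold adj; simp only [Γ.adj_comm]
  have hi : ∀ (g : Γ ≃g Γ) u v, adj Γ (g • u) (g • v) = adj Γ u v := fun g u v => by
    unfold adj
    have : Γ.Adj (g • u) (g • v) ↔ Γ.Adj u v := g.map_rel_iff
    simp only [this]
  haveI : Nonempty {c : V → Fin n // Function.Surjective c} := by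
    have hle : Fintype.card (Fin n) ≤ Fintype.card V := by simp; omega
    obtain ⟨e⟩ := Function.Embedding.nonempty_of_card_le hle
    exact ⟨⟨_, Function.invFun_surjective e.injective⟩⟩
  obtain ⟨⟨c, hc⟩, hmin⟩ := exists_eq_ciInf_of_finite
    (f := fun c : {c : V → Fin n // Function.Surjective c} => width Γ c.1)
  have hmin' : width Γ c = hIso Γ n := hmin
  have hA : ∀ i, Bd (adj Γ) (cls c i) ≤ hIso Γ n * (cls c i).card := by
    intro i
    rw [← div_le_iff₀ (cls_pos c hc i), ← hmin', width_eq]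
    exact le_ciSup (f := fun i => Bd (adj Γ) (cls c i) / (cls c i).card)
      (Finite.bddAbove_range _) i
  have hh : 0 ≤ hIso Γ n := by
    have h1 := hA ⟨0, hn⟩
    have h2 := Bd_nonneg _ h0 (cls c ⟨0, hn⟩)
    exact nonneg_of_mul_nonneg_left (h2.trans h1) (cls_pos c hc _)
  obtain ⟨d, hd, him, hw⟩ := main (G := Γ ≃g Γ) hn (adj Γ) hs h0 hi ht c hc _ _ hh h6 hA (by
    intro c' hc'
    obtain ⟨i, hi'⟩ := exists_eq_ciSup_of_finite
      (f := fun i => Bd (adj Γ) (cls c' i) / (cls c' i).card)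
    refine ⟨i, ?_⟩
    rw [← le_div_iff₀ (cls_pos c' hc' i), hi', ← width_eq]
    exact ciInf_le (f := fun c : {c : V → Fin (n + 1) // Function.Surjective c} => width Γ c.1)
      (Finite.bddBelow_range _) ⟨c', hc'⟩)
  refine ⟨d, hd, le_antisymm ?_ ?_, ?_⟩
  · rw [width_eq]
    exact ciSup_le fun i => (div_le_iff₀ (cls_pos d hd i)).2 (hw i)
  · exact ciInf_le (f := fun c : {c : V → Fin n // Function.Surjective c} => width Γ c.1)
      (Finite.bddBelow_range _) ⟨d, hd⟩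
  · intro g i
    obtain ⟨j, hj⟩ := him g i
    refine ⟨j, ?_⟩
    rw [pre_eq, pre_eq, ← hj, Finset.coe_smul_finset]
    rfl

lemma hIso_nonneg (Γ : SimpleGraph V) (n : ℕ) : 0 ≤ hIso Γ n :=
  Real.iInf_nonneg fun _ => Real.iSup_nonneg fun _ => by positivity

end Pool.Agent.H13.Iso
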