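import Mathlib

/-! Fibonacci polynomials over `ZMod 2` and their shifts. -/

namespace Pool.Agent.H13.Lights
open Polynomial

/-- Fibonacci polynomials modulo two -/
noncomputable def F : ℕ → (ZMod 2)[X]
  | 0 => 0
  | 1 => 1
  | j + 2 => X * F (j + 1) + F j

lemma F_deg (j : ℕ) : (F (j + 1)).Monic ∧ (F (j + 1)).natDegree = j ∧ (F j).degree < j := by
  induction j with
  | zero => simp [F]
  | succ j ih =>
    obtain ⟨h1, h2, h3⟩ := ih
    have h4 : (X * F (j + 1)).Monic := monic_X.mul h1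
    have h5 : (X * F (j + 1)).natDegree = j + 1 := by
      rw [monic_X.natDegree_mul h1, natDegree_X, h2, add_comm]
    have h6 : (F j).degree < (X * F (j + 1)).degree := by
      rw [degree_eq_natDegree h4.ne_zero, h5]
      exact h3.trans (by exact_mod_cast Nat.lt_succ_self j)
    refine ⟨h4.add_of_left h6, ?_, ?_⟩
    · rw [F, natDegree_add_eq_left_of_degree_lt h6, h5]
    · rw [degree_eq_natDegree h1.ne_zero, h2]; exact_mod_cast Nat.lt_succ_self j

lemma F_low (j : ℕ) : (F (2 * j)).coeff 0 = 0 ∧ (F (2 * j + 1)).coeff 0 = 1 ∧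
    (F (2 * j)).coeff 1 = j := by
  induction j with
  | zero => simp [F]
  | succ j ih =>
    obtain ⟨h1, h2, h3⟩ := ih
    have a : (F (2 * j + 2)).coeff 0 = 0 := by simp [F, h1]
    refine ⟨a, ?_, ?_⟩
    · rw [show 2 * (j + 1) + 1 = 2 * j + 1 + 2 by ring, F]; simp [h2]
    · rw [show 2 * (j + 1) = 2 * j + 2 by ring, F, coeff_add, coeff_X_mul, h2, h3]
      push_cast; ring

variable {K : Type} [Field K] [Algebra (ZMod 2) K]

lemma F_eval (z : K) (hz : z ≠ 0) (j : ℕ) :
    aeval (z + z⁻¹) (F j) * (z - z⁻¹) = z ^ j + (z⁻¹) ^ j := by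
  have c2 : (2 : K) = 0 := by
    have : (algebraMap (ZMod 2) K) 2 = 2 := map_ofNat _ 2
    rw [← this, show (2 : ZMod 2) = 0 from rfl, map_zero]
  induction j using Nat.twoStepInduction with
  | zero => simp [F]; linear_combination -c2
  | one => simp [F]; linear_combination -z⁻¹ * c2
  | more j h1 h2 =>
    rw [F, map_add, map_mul, aeval_X, add_mul, mul_assoc, h1, h2]
    have := mul_inv_cancel₀ hz
    linear_combination (z ^ j + z⁻¹ ^ j) * this + (z ^ j + z⁻¹ ^ j) * c2

lemma lte (a : ℕ) : ∃ c, 4 ^ 3 ^ a = 1 + 3 ^ (a + 1) * (3 * c + 1) := by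
  induction a with
  | zero => exact ⟨0, by norm_num⟩
  | succ a ih =>
    obtain ⟨c, hc⟩ := ih
    refine ⟨c + 3 ^ a * (3 * c + 1) ^ 2 + 3 ^ (2 * a) * (3 * c + 1) ^ 3, ?_⟩
    rw [pow_succ 3 a, pow_mul, hc]; ring

lemma no_pair [CharP K 2] (k : ℕ) (z w : K) (hz : z ^ 3 ^ k = 1) (hw : w ^ 3 ^ k = 1)
    (z1 : z ≠ 1) (w1 : w ≠ 1) : z + z⁻¹ + 1 ≠ w + w⁻¹ := by
  classical
  have c2 : (2 : K) = 0 := CharP.cast_eq_zero K 2
  have nz : ∀ (k : ℕ) (z : K), z ^ 3 ^ k = 1 → z ≠ 0 := fun k z h e => by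
    rw [e, zero_pow (by positivity)] at h; exact zero_ne_one h
  have one : ∀ z : K, z ≠ 0 → z + z⁻¹ = 0 → z = 1 := by
    intro z h0 h
    have : (z - 1) ^ 2 = 0 := by
      have := mul_inv_cancel₀ h0
      linear_combination z * h - this - z * c2
    exact sub_eq_zero.1 (pow_eq_zero_iff (by norm_num) |>.1 this)
  have cube : ∀ z : K, z ^ 3 = 1 → z ≠ 1 → z ^ 2 + z + 1 = 0 := by
    intro z h h1
    have : (z - 1) * (z ^ 2 + z + 1) = 0 := by linear_combination h
    exact (mul_eq_zero.1 this).resolve_left (sub_ne_zero.2 h1)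
  induction k with
  | zero => exact absurd (by simpa using hz) z1
  | succ k ih =>
    intro h
    have z0 := nz _ z hz
    have w0 := nz _ w hw
    cases k with
    | zero =>
      have t : ∀ z : K, z ^ 3 ^ (0 + 1) = 1 → z ≠ 1 → z + z⁻¹ = 1 := by
        intro z h h1
        have h3 : z ^ 3 = 1 := by simpa using h
        have e : z⁻¹ = z ^ 2 := inv_eq_of_mul_eq_one_right (by linear_combination h3)
        rw [e]; linear_combination cube z h3 h1 - c2
      rw [t z hz z1, t w hw w1] at h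
      exact one_ne_zero (α := K) (by linear_combination h)
    | succ a =>
      obtain ⟨c, hc⟩ := lte a
      let φ : K →+* K := iterateFrobenius K 2 (2 * 3 ^ a)
      have hφ : ∀ x : K, x ^ 3 ^ (a + 1 + 1) = 1 → φ x = x * x ^ 3 ^ (a + 1) := by
        intro x hx
        show x ^ 2 ^ (2 * 3 ^ a) = _
        rw [pow_mul, show (2:ℕ) ^ 2 = 4 from rfl, hc,
          show 1 + 3 ^ (a + 1) * (3 * c + 1) = 3 ^ (a + 1 + 1) * c + (3 ^ (a + 1) + 1) by ring,
          pow_add, pow_mul, hx, one_pow, one_mul, pow_succ']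
      have tr : ∀ x : K, x ^ 3 ^ (a + 1 + 1) = 1 →
          x + φ x + φ (φ x) = if x ^ 3 ^ (a + 1) = 1 then x else 0 := by
        intro x hx
        have h3 : (x ^ 3 ^ (a + 1)) ^ 3 = 1 := by rw [← pow_mul, ← pow_succ, hx]
        have e : φ (x ^ 3 ^ (a + 1)) = x ^ 3 ^ (a + 1) := by
          rw [map_pow, hφ x hx, mul_pow, ← pow_mul, pow_succ 3 a, mul_comm (3 ^ a) 3,
            ← mul_assoc, pow_mul x (3 * 3 ^ a * 3),
            show 3 * 3 ^ a * 3 = 3 ^ (a + 1 + 1) by ring, hx, one_pow, mul_one]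
        rw [hφ x hx, map_mul, e, hφ x hx]
        split_ifs with h1
        · rw [h1]; linear_combination x * c2
        · linear_combination x * cube _ h3 h1
      have a1 := tr z hz
      have a2 := tr z⁻¹ (by rw [inv_pow, hz, inv_one])
      have a3 := tr w hw
      have a4 := tr w⁻¹ (by rw [inv_pow, hw, inv_one])
      have b1 := congrArg φ h
      have b2 := congrArg φ b1
      simp only [map_add, map_one] at b1 b2
      simp only [inv_pow, inv_eq_one] at a2 a4
      by_cases c1 : z ^ 3 ^ (a + 1) = 1 <;> by_cases c3 : w ^ 3 ^ (a + 1) = 1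
      · exact ih c1 c3 h
      · rw [if_pos c1] at a1 a2; rw [if_neg c3] at a3 a4
        exact w1 (one w w0 (by
          linear_combination b1 + b2 - a1 - a2 + a3 + a4 - c2))
      · rw [if_neg c1] at a1 a2; rw [if_pos c3] at a3 a4
        exact z1 (one z z0 (by
          linear_combination -(b1 + b2 - a1 - a2 + a3 + a4) + c2))
      · rw [if_neg c1] at a1 a2; rw [if_neg c3] at a3 a4
        exact one_ne_zero (α := K) (by
          linear_combination h + b1 + b2 - a1 - a2 + a3 + a4 - c2)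

theorem key (k : ℕ) (R : (ZMod 2)[X])
    (h : F (2 * 3 ^ k) ∣ (F (2 * 3 ^ k)).comp (X + 1) * R) : F (2 * 3 ^ k) ∣ X * (X + 1) * R := by
  obtain ⟨h0, -, h1⟩ := F_low (3 ^ k)
  obtain ⟨g, hg⟩ := X_dvd_iff.2 h0
  have g0 : g.coeff 0 = 1 := by
    rw [hg, coeff_X_mul] at h1
    rw [h1]; push_cast; rw [show (3 : ZMod 2) = 1 from rfl, one_pow]
  let K := AlgebraicClosure (ZMod 2)
  have root : ∀ t : K, aeval t g = 0 → ∃ z : K, z ^ 3 ^ k = 1 ∧ z ≠ 1 ∧ t = z + z⁻¹ := by
    intro t ht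
    have c2 : (2 : K) = 0 := CharP.cast_eq_zero K 2
    obtain ⟨z, hz⟩ := IsAlgClosed.exists_root (C 1 * X ^ 2 + C (-t) * X + C 1 : K[X])
      (by rw [degree_quadratic one_ne_zero]; norm_num)
    simp only [IsRoot, eval_add, eval_mul, eval_C, eval_pow, eval_X] at hz
    have z0 : z ≠ 0 := by rintro rfl; simp at hz
    have tz : t = z + z⁻¹ := by
      have := mul_inv_cancel₀ z0
      linear_combination -z⁻¹ * hz + (z - t) * this
    have e := F_eval z z0 (2 * 3 ^ k)
    rw [← tz, hg, map_mul, ht, mul_zero, zero_mul] at e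
    refine ⟨z, ?_, ?_, tz⟩
    · set y := z ^ 3 ^ k with hy
      have y0 : y ≠ 0 := pow_ne_zero _ z0
      rw [inv_pow, mul_comm, pow_mul, ← hy] at e
      have e1 : y ^ 4 + 1 = 0 := by
        have := mul_inv_cancel₀ (pow_ne_zero 2 y0)
        linear_combination -(y ^ 2) * e - this
      have e2 : (y - 1) ^ 4 = 0 := by
        linear_combination e1 + (-2 * y ^ 3 + 3 * y ^ 2 - 2 * y) * c2
      exact sub_eq_zero.1 (pow_eq_zero_iff (by norm_num) |>.1 e2)
    · rintro rfl
      have t0 : t = 0 := by rw [tz, inv_one]; linear_combination c2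
      rw [t0, ← coeff_zero_eq_aeval_zero', g0] at ht
      simp at ht
  have cop : IsCoprime g (g.comp (X + 1)) := by
    rw [Polynomial.isCoprime_iff_aeval_ne_zero_of_isAlgClosed (ZMod 2) K]
    intro t
    by_contra hc
    push Not at hc
    obtain ⟨z, a1, a2, a3⟩ := root t hc.1
    obtain ⟨w, b1, b2, b3⟩ := root (t + 1) (by simpa [aeval_comp] using hc.2)
    exact no_pair k z w a1 b1 a2 b2 (by rw [← a3, ← b3])
  rw [hg] at h ⊢
  rw [mul_assoc]
  apply mul_dvd_mul_left
  apply cop.dvd_of_dvd_mul_left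
  refine (dvd_mul_left g X).trans (h.trans (dvd_of_eq ?_))
  simp only [mul_comp, X_comp]; ring

end Pool.Agent.H13.Lights
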