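import Mathlib

set_option autoImplicit false

namespace Pool.Agent.H13.LinSpace

open Finset

/-- Finite core: sets of size at most d, pairwise intersections of size between 4 and c,
triple intersections of size one. -/
lemma core {m : ℕ} {B : Type} [DecidableEq B] (N : Fin m → Finset B) (c d : ℕ)
    (hd : ∀ u, (N u).card ≤ d) (hlo : ∀ u v, u ≠ v → 4 ≤ (N u ∩ N v).card)
    (hhi : ∀ u v, u ≠ v → (N u ∩ N v).card ≤ c)
    (h3 : ∀ u v w, u ≠ v → u ≠ w → v ≠ w → (N u ∩ N v ∩ N w).card = 1)
    (hm : c * c + 2 < m) (hm2 : d < 3 * (m - 1)) : False := by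
  classical
  have hm3 : 3 ≤ m := by omega
  set u : Fin m := ⟨0, by omega⟩
  set v : Fin m := ⟨1, by omega⟩
  have huv : u ≠ v := by simp [u, v]
  -- uniqueness of the common element of a triple
  have uniq : ∀ x y z : Fin m, x ≠ y → x ≠ z → y ≠ z → ∀ a b, a ∈ N x → a ∈ N y → a ∈ N z →
      b ∈ N x → b ∈ N y → b ∈ N z → a = b := by
    intro x y z h1 h2 h4 a b a1 a2 a3 b1 b2 b3
    exact card_le_one.1 (h3 x y z h1 h2 h4).le a (by simp [a1, a2, a3]) b (by simp [b1, b2, b3])
  have ex : ∀ x y z : Fin m, x ≠ y → x ≠ z → y ≠ z → ∃ a, a ∈ N x ∧ a ∈ N y ∧ a ∈ N z := by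
    intro x y z h1 h2 h4
    obtain ⟨a, ha⟩ := card_pos.1 (show 0 < (N x ∩ N y ∩ N z).card by rw [h3 x y z h1 h2 h4]; norm_num)
    simp only [mem_inter] at ha
    exact ⟨a, ha.1.1, ha.1.2, ha.2⟩
  -- some block through u, v is large
  have hbig : ∃ L ∈ N u ∩ N v, c < ((univ.erase u).filter (fun w => L ∈ N w)).card := by
    by_contra hcon
    push Not at hcon
    have hsub : (univ.erase u).erase v ⊆
        (N u ∩ N v).biUnion (fun L => (univ.erase u).filter (fun w => L ∈ N w)) := by
      intro w hw
      simp only [mem_erase, mem_univ, and_true] at hw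
      obtain ⟨a, a1, a2, a3⟩ := ex u v w huv hw.2.symm hw.1.symm
      simp only [mem_biUnion, mem_inter, mem_filter, mem_erase, mem_univ, and_true]
      exact ⟨a, ⟨a1, a2⟩, hw.2, a3⟩
    have h1 := card_le_card hsub
    have h2 := card_biUnion_le_card_mul (N u ∩ N v)
      (fun L => (univ.erase u).filter (fun w => L ∈ N w)) c hcon
    have h4 := hhi u v huv
    rw [card_erase_of_mem (by simp [huv.symm]), card_erase_of_mem (by simp)] at h1
    simp only [card_univ, Fintype.card_fin] at h1
    have := Nat.mul_le_mul_right c h4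
    omega
  obtain ⟨L, hL, hbig⟩ := hbig
  rw [mem_inter] at hL
  -- it contains every point
  have hall : ∀ p, L ∈ N p := by
    intro p
    by_contra hp
    have hpu : u ≠ p := fun h => hp (h ▸ hL.1)
    have ex' : ∀ w : Fin m, ∃ a, w ∈ (univ.erase u).filter (fun w => L ∈ N w) →
        a ∈ N u ∧ a ∈ N p ∧ a ∈ N w := by
      intro w
      by_cases hw : w ∈ (univ.erase u).filter (fun w => L ∈ N w)
      · simp only [mem_filter, mem_erase, mem_univ, and_true] at hw
        obtain ⟨a, ha⟩ := ex u p w hpu hw.1.symm (fun h => hp (h ▸ hw.2))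
        exact ⟨a, fun _ => ha⟩
      · exact ⟨L, fun h => absurd h hw⟩
    choose g hg using ex'
    have : ((univ.erase u).filter (fun w => L ∈ N w)).card ≤ (N u ∩ N p).card := by
      apply card_le_card_of_injOn g
      · intro w hw
        have := hg w hw
        simp [this.1, this.2.1]
      · intro w hw w' hw' hww
        by_contra hne
        have k1 := hg w hw
        have k2 := hg w' hw'
        simp only [coe_filter, mem_erase, mem_univ, and_true, Set.mem_ofPred_eq] at hw hw'
        have := uniq u w w' hw.1.symm hw'.1.symm hne (g w) L k1.1 k1.2.2 (hww ▸ k2.2.2) hL.1 hw.2 hw'.2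
        exact hp (this ▸ k1.2.1)
    have := hhi u p hpu
    omega
  -- now count the blocks through u
  have hdisj : ((univ.erase u : Finset (Fin m)) : Set (Fin m)).PairwiseDisjoint
      (fun w => (N u ∩ N w).erase L) := by
    intro w hw w' hw' hne
    simp only [coe_erase, coe_univ, Set.mem_diff, Set.mem_univ, Set.mem_singleton_iff, true_and] at hw hw'
    rw [Function.onFun, disjoint_left]
    intro a ha ha'
    simp only [mem_erase, mem_inter] at ha ha'
    exact ha.1 (uniq u w w' (Ne.symm hw) (Ne.symm hw') hne a L ha.2.1 ha.2.2 ha'.2.2 (hall _) (hall _) (hall _))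
  have h1 : ((univ.erase u).biUnion (fun w => (N u ∩ N w).erase L)).card ≤ (N u).card := by
    apply card_le_card
    intro a ha
    simp only [mem_biUnion, mem_erase, mem_inter] at ha
    obtain ⟨w, -, -, h, -⟩ := ha
    exact h
  rw [card_biUnion hdisj] at h1
  have h2 : (univ.erase u).card * 3 ≤ ∑ w ∈ univ.erase u, ((N u ∩ N w).erase L).card := by
    rw [← smul_eq_mul]
    apply card_nsmul_le_sum
    intro w hw
    have := hlo u w (mem_erase.1 hw).1.symm
    rw [card_erase_of_mem (by simp [hall])]
    omega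
  rw [card_erase_of_mem (by simp)] at h2
  simp only [card_univ, Fintype.card_fin] at h2
  have := hd u
  omega

end Pool.Agent.H13.LinSpace
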