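import Mathlib

namespace Pool.Agent.H13.LogC

open Polynomial Finset

/-- strong log-concavity of the coefficient sequence -/
def LC (p : ℝ[X]) : Prop :=
  (∀ i, 0 ≤ p.coeff i) ∧ ∀ i j, i ≤ j → p.coeff i * p.coeff (j + 2) ≤ p.coeff (i + 1) * p.coeff (j + 1)

theorem LC.mul_lin {p : ℝ[X]} (h : LC p) {c : ℝ} (hc : 0 ≤ c) : LC ((X + C c) * p) := by
  have e0 : ((X + C c) * p).coeff 0 = c * p.coeff 0 := by simp [add_mul]
  have e1 : ∀ k, ((X + C c) * p).coeff (k + 1) = p.coeff k + c * p.coeff (k + 1) := fun k => by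
    simp [add_mul, coeff_X_mul]
  obtain ⟨h0, h1⟩ := h
  constructor
  · intro i
    cases i with
    | zero => rw [e0]; exact mul_nonneg hc (h0 _)
    | succ i => rw [e1]; exact add_nonneg (h0 _) (mul_nonneg hc (h0 _))
  · intro i j hij
    have q := mul_le_mul_of_nonneg_left (h1 i j hij) (mul_nonneg hc hc)
    cases i with
    | zero =>
      rw [e0, e1, e1, e1]
      have := mul_nonneg (h0 0) (h0 j)
      have := mul_nonneg hc (mul_nonneg (h0 (0 + 1)) (h0 j))
      nlinarith
    | succ i =>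
      obtain ⟨j, rfl⟩ : ∃ t, j = t + 1 := ⟨j - 1, by omega⟩
      rw [e1, e1, e1, e1]
      have a := h1 i j (by omega)
      have b : p.coeff i * p.coeff (j + 1 + 2) ≤ p.coeff (i + 1 + 1) * p.coeff (j + 1) := by
        have b1 := h1 i (j + 1) (by omega)
        rcases Nat.eq_or_lt_of_le hij with e | e
        · obtain rfl : i = j := by omega
          linarith
        · exact b1.trans (h1 (i + 1) j (by omega))
      have := mul_le_mul_of_nonneg_left b hc
      nlinarith

theorem LC.prod {p : ℝ[X]} (h : LC p) (c : ℕ → ℝ) (hc : ∀ s, 0 ≤ c s) (n : ℕ) :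
    LC ((∏ s ∈ range n, (X + C (c s))) * p) := by
  induction n with
  | zero => simpa using h
  | succ n ih => rw [prod_range_succ, mul_comm _ (X + C (c n)), mul_assoc]; exact ih.mul_lin (hc n)

theorem rr (y : ℕ → ℝ) (hy : StrictAnti y) (h0 : y 0 ≤ 0) : ∀ (r : ℕ) (p : ℝ[X]),
    p.natDegree ≤ r + 1 → 0 ≤ p.coeff (r + 1) → (∀ j ≤ r, 0 < (-1) ^ j * p.eval (y j)) → LC p := by
  intro r
  induction r with
  | zero =>
    intro p hd hc hs
    have e := eq_X_add_C_of_natDegree_le_one hd
    have s := hs 0 le_rfl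
    rw [e] at s
    simp only [pow_zero, eval_add, eval_mul, eval_C, eval_X, one_mul] at s
    have z : ∀ k, p.coeff (k + 2) = 0 := fun k => coeff_eq_zero_of_natDegree_lt (by omega)
    have nn : ∀ i, 0 ≤ p.coeff i := fun i => by
      match i with
      | 0 => have := mul_nonpos_of_nonneg_of_nonpos hc h0; simp only [zero_add] at this; linarith
      | 1 => exact hc
      | k + 2 => rw [z]
    exact ⟨nn, fun i j _ => by rw [z, mul_zero]; exact mul_nonneg (nn _) (nn _)⟩
  | succ r ih =>
    intro p hd hc hs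
    have s1 := hs r (by omega)
    have s2 := hs (r + 1) le_rfl
    have lt := hy (show r < r + 1 by omega)
    obtain ⟨x, hx, ex⟩ : ∃ x ∈ Set.Ioo (y (r + 1)) (y r), (-1) ^ r * p.eval x = 0 := by
      apply intermediate_value_Ioo lt.le (f := fun x => (-1) ^ r * p.eval x) (by fun_prop)
      rw [pow_succ] at s2
      constructor <;> linarith
    have root : p.IsRoot x := (mul_eq_zero.1 ex).resolve_left (by positivity)
    have e := (mul_divByMonic_eq_iff_isRoot.2 root).symm
    set q := p /ₘ (X - C x) with hq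
    have xn : 0 ≤ -x := by
      have := hy.antitone (Nat.zero_le r)
      have := hx.2; linarith
    have dq : q.natDegree ≤ r + 1 := by
      rw [hq, natDegree_divByMonic _ (monic_X_sub_C x), natDegree_X_sub_C]; omega
    rw [e, sub_eq_add_neg, ← C_neg]
    refine (ih q dq ?_ fun j hj => ?_).mul_lin xn
    · rw [e, sub_mul, coeff_sub, coeff_X_mul, coeff_C_mul,
        coeff_eq_zero_of_natDegree_lt (show q.natDegree < r + 1 + 1 by omega)] at hc
      simpa using hc
    · have a := hs j (by omega)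
      rw [e, eval_mul, eval_sub, eval_X, eval_C, mul_left_comm] at a
      have := hy.antitone hj
      have := hx.2
      exact (pos_iff_pos_of_mul_pos a).1 (by linarith)

noncomputable def aa (m : ℝ) (i : ℕ) : ℝ := (∏ s ∈ range i, (m + s)) / i.factorial

theorem aa_succ (m : ℝ) (i : ℕ) : (i + 1) * aa m (i + 1) = (m + i) * aa m i := by
  unfold aa
  rw [prod_range_succ, Nat.factorial_succ]
  have : (i.factorial : ℝ) ≠ 0 := by positivity
  push_cast; field_simp

theorem vdm (m : ℝ) (n : ℕ) : ∑ x ∈ antidiagonal n, aa m x.1 * aa m x.2 = aa (2 * m) n := by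
  induction n with
  | zero => simp [aa]
  | succ n ih =>
    apply mul_left_cancel₀ (show (n : ℝ) + 1 ≠ 0 by positivity)
    rw [aa_succ, ← ih, mul_sum, mul_sum]
    have : ∑ x ∈ antidiagonal (n + 1), ((n : ℝ) + 1) * (aa m x.1 * aa m x.2) =
        ∑ x ∈ antidiagonal (n + 1), (x.1 : ℝ) * aa m x.1 * aa m x.2 +
        ∑ x ∈ antidiagonal (n + 1), aa m x.1 * (x.2 * aa m x.2) := by
      rw [← sum_add_distrib]
      apply sum_congr rfl
      intro x hx
      have : (x.1 : ℝ) + x.2 = n + 1 := by exact_mod_cast mem_antidiagonal.1 hx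
      rw [← this]; ring
    rw [this, Nat.sum_antidiagonal_succ, Nat.sum_antidiagonal_succ']
    simp only [Nat.cast_zero, zero_mul, mul_zero, zero_add, Nat.cast_add, Nat.cast_one, aa_succ]
    rw [← sum_add_distrib]
    apply sum_congr rfl
    intro x hx
    have : (x.1 : ℝ) + x.2 = n := by exact_mod_cast mem_antidiagonal.1 hx
    rw [← this]; ring

theorem half (m : ℝ) (r : ℕ) :
    2 * ∑ i ∈ range (r + 1), aa m i * aa m (2 * r + 1 - i) = aa (2 * m) (2 * r + 1) := by
  rw [← vdm, Nat.sum_antidiagonal_eq_sum_range_succ (fun a b => aa m a * aa m b),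
    show (2 * r + 1).succ = (r + 1) + (r + 1) by omega, sum_range_add _ (r + 1) (r + 1), two_mul,
    ← sum_range_reflect (fun x => aa m (r + 1 + x) * aa m (2 * r + 1 - (r + 1 + x)))]
  congr 1
  apply sum_congr rfl
  intro i hi
  rw [mem_range] at hi
  rw [mul_comm]
  congr 2 <;> omega

theorem gosper (m : ℝ) (n t : ℕ) (ht : t ≤ n) :
    m * ∑ i ∈ range t, ((n : ℝ) - 2 * i) * (aa m i * aa m (n - i)) =
      t * aa m t * ((m + (n - t : ℕ)) * aa m (n - t)) := by
  induction t with
  | zero => simp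
  | succ t ih =>
    rw [sum_range_succ, mul_add, ih (by omega), ← aa_succ m (n - (t + 1)),
      show n - (t + 1) + 1 = n - t by omega, Nat.cast_succ t, aa_succ,
      Nat.cast_sub (show t ≤ n by omega), Nat.cast_sub ht]
    push_cast; ring

theorem dup (m : ℝ) (r : ℕ) : ∏ s ∈ range (2 * r + 1), (2 * m + s) =
    2 * 4 ^ r * (∏ s ∈ range (r + 1), (m + s)) * ∏ s ∈ range r, (m + (s + 1 / 2)) := by
  induction r with
  | zero => simp
  | succ r ih =>
    rw [show 2 * (r + 1) + 1 = 2 * r + 1 + 1 + 1 by omega, prod_range_succ, prod_range_succ, ih,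
      prod_range_succ _ (r + 1), prod_range_succ (fun s : ℕ => m + (s + 1 / 2))]
    push_cast; ring

theorem ident (m : ℝ) (r : ℕ) :
    m * ∑ i ∈ range r, ((r : ℝ) - i) * (aa m i * aa m (2 * r + 1 - i)) =
      m * ((∏ s ∈ range (r + 1), (m + s)) * (1 / (2 * (r.factorial : ℝ) ^ 2) *
        ∏ s ∈ range r, (m + (s + 1)) - 4 ^ r / (2 * (2 * r + 1).factorial) *
        ∏ s ∈ range r, (m + (s + 1 / 2)))) := by
  have g := gosper m (2 * r + 1) (r + 1) (by omega)
  have h := half m r
  have e : ∑ i ∈ range (r + 1), (((2 * r + 1 : ℕ) : ℝ) - 2 * i) * (aa m i * aa m (2 * r + 1 - i)) =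
      2 * ∑ i ∈ range r, ((r : ℝ) - i) * (aa m i * aa m (2 * r + 1 - i)) +
      ∑ i ∈ range (r + 1), aa m i * aa m (2 * r + 1 - i) := by
    have : ∑ i ∈ range r, ((r : ℝ) - i) * (aa m i * aa m (2 * r + 1 - i)) =
        ∑ i ∈ range (r + 1), ((r : ℝ) - i) * (aa m i * aa m (2 * r + 1 - i)) := by
      rw [sum_range_succ]; simp
    rw [this, mul_sum, ← sum_add_distrib]
    apply sum_congr rfl
    intro i _; push_cast; ring
  rw [e, show 2 * r + 1 - (r + 1) = r by omega] at g
  have f0 : (r.factorial : ℝ) ≠ 0 := by positivity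
  have f1 : ((2 * r + 1).factorial : ℝ) ≠ 0 := by positivity
  have a1 : ((r + 1 : ℕ) : ℝ) * aa m (r + 1) = m * (∏ s ∈ range r, (m + (s + 1))) / r.factorial := by
    unfold aa
    rw [prod_range_succ', Nat.factorial_succ]
    push_cast; field_simp; ring
  have a2 : (m + r) * aa m r = (∏ s ∈ range (r + 1), (m + s)) / r.factorial := by
    unfold aa; rw [prod_range_succ]; ring
  rw [a1, a2] at g
  rw [show aa (2 * m) (2 * r + 1) = _ / _ from rfl, dup] at h
  have : ∑ i ∈ range (r + 1), aa m i * aa m (2 * r + 1 - i) = 4 ^ r *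
      (∏ s ∈ range (r + 1), (m + s)) * (∏ s ∈ range r, (m + (s + 1 / 2))) /
        (2 * r + 1).factorial := by
    apply mul_left_cancel₀ (two_ne_zero' ℝ)
    rw [h]; ring
  rw [this] at g
  have k : m * ∑ i ∈ range r, ((r : ℝ) - i) * (aa m i * aa m (2 * r + 1 - i)) =
      (m * (∏ s ∈ range r, (m + (s + 1))) / r.factorial *
        ((∏ s ∈ range (r + 1), (m + s)) / r.factorial) - m * (4 ^ r *
      (∏ s ∈ range (r + 1), (m + s)) * (∏ s ∈ range r, (m + (s + 1 / 2))) /
        (2 * r + 1).factorial)) / 2 := by linarith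
  rw [k]
  generalize ∏ s ∈ range r, (m + ((s : ℝ) + 1 / 2)) = w
  field_simp

theorem sgn (j r : ℕ) : 0 < (-1) ^ (min j r) * ∏ s ∈ range r, (-(1 / 2 : ℝ) - j + (s + 1)) := by
  induction r with
  | zero => simp
  | succ r ih =>
    rw [prod_range_succ]
    rcases Nat.lt_or_ge r j with h | h
    · rw [min_eq_right h.le] at ih
      rw [min_eq_right h, pow_succ]
      have : (r : ℝ) + 1 ≤ j := by exact_mod_cast h
      nlinarith
    · rw [min_eq_left h] at ih
      rw [min_eq_left (by omega), ← mul_assoc]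
      have : (j : ℝ) ≤ r := by exact_mod_cast h
      exact mul_pos ih (by linarith)

theorem lcR (r : ℕ) : LC (C (1 / (2 * ((r + 1).factorial : ℝ) ^ 2)) *
    ∏ s ∈ range (r + 1), (X + C ((s : ℝ) + 1)) -
    C ((4 : ℝ) ^ (r + 1) / (2 * (2 * (r + 1) + 1).factorial)) *
    ∏ s ∈ range (r + 1), (X + C ((s : ℝ) + 1 / 2))) := by
  have mo : ∀ c : ℕ → ℝ, (∏ s ∈ range (r + 1), (X + C (c s))).Monic ∧
      (∏ s ∈ range (r + 1), (X + C (c s))).natDegree = r + 1 := fun c =>
    ⟨monic_prod_of_monic _ _ fun s _ => monic_X_add_C _, by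
      rw [natDegree_prod_of_monic _ _ fun s _ => monic_X_add_C _]; simp⟩
  have co : ∀ c : ℕ → ℝ, (∏ s ∈ range (r + 1), (X + C (c s))).coeff (r + 1) = 1 := fun c => by
    have := (mo c).1.coeff_natDegree
    rwa [(mo c).2] at this
  apply rr (fun j => -(1 / 2) - j) (fun a b h => by
    have : (a : ℝ) < b := by exact_mod_cast h
    simp only; linarith) (by norm_num) r
  · refine (natDegree_sub_le _ _).trans (max_le ?_ ?_) <;>
      exact (natDegree_C_mul_le _ _).trans (mo _).2.le
  · rw [coeff_sub, coeff_C_mul, coeff_C_mul, co, co, mul_one, mul_one, sub_nonneg,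
      div_le_div_iff₀ (by positivity) (by positivity)]
    generalize r + 1 = n
    have a := Nat.four_pow_le_two_mul_add_one_mul_central_binom n
    have b := Nat.add_choose_mul_factorial_mul_factorial n n
    rw [← two_mul] at b
    have : 4 ^ n * (2 * n.factorial ^ 2) ≤ 1 * (2 * (2 * n + 1).factorial) := by
      rw [Nat.factorial_succ, ← b]
      calc 4 ^ n * (2 * n.factorial ^ 2) ≤ (2 * n + 1) * (2 * n).choose n * (2 * n.factorial ^ 2) :=
            Nat.mul_le_mul_right _ a
        _ = _ := by ring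
    exact_mod_cast this
  · intro j hj
    simp only [eval_sub, eval_mul, eval_C, eval_prod, eval_add, eval_X]
    rw [prod_eq_zero (f := fun s : ℕ => -(1 / 2 : ℝ) - j + (s + 1 / 2))
      (mem_range.2 (show j < r + 1 by omega)) (by ring), mul_zero, sub_zero, mul_left_comm]
    have := sgn j (r + 1)
    rw [min_eq_left (by omega)] at this
    positivity

end Pool.Agent.H13.LogC
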