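import Pool.Agent.H13.OddGadget

set_option autoImplicit false

namespace Pool.Agent.H13.OddGirth

open SimpleGraph

def cyc (n : ℕ) : SimpleGraph (ZMod n) := fromRel (fun a b => b = a + 1)

lemma cyc_adj_succ {n : ℕ} (hn : 1 < n) (a : ZMod n) : (cyc n).Adj a (a + 1) := by
  have : Fact (1 < n) := ⟨hn⟩
  rw [cyc, fromRel_adj]
  exact ⟨by simp, Or.inl rfl⟩

lemma cyc_walk {n : ℕ} {a b : ZMod n} (p : (cyc n).Walk a b) :
    ∃ z : ℤ, |z| ≤ p.length ∧ Even (z + p.length) ∧ b = a + z := by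
  induction p with
  | nil => exact ⟨0, by simp⟩
  | @cons u v w h p ih =>
    obtain ⟨z, h1, h2, h3⟩ := ih
    rw [cyc, fromRel_adj] at h
    rw [abs_le] at h1
    obtain ⟨t, ht⟩ := h2
    rcases h.2 with h | h
    · refine ⟨z + 1, ?_, ⟨t + 1, ?_⟩, ?_⟩
      · rw [abs_le]; simp only [Walk.length_cons]; push_cast; omega
      · simp only [Walk.length_cons]; push_cast; omega
      · rw [h3, h]; push_cast; ring
    · refine ⟨z - 1, ?_, ⟨t, ?_⟩, ?_⟩
      · rw [abs_le]; simp only [Walk.length_cons]; push_cast; omega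
      · simp only [Walk.length_cons]; push_cast; omega
      · rw [h3, h]; push_cast; ring

lemma cyc_OG (n : ℕ) : OG (cyc n) n := by
  intro a p hp
  obtain ⟨z, h1, h2, h3⟩ := cyc_walk p
  have hz : (z : ZMod n) = 0 := by simpa using h3
  rw [ZMod.intCast_zmod_eq_zero_iff_dvd] at hz
  have hz0 : z ≠ 0 := by
    rintro rfl
    obtain ⟨t, ht⟩ := h2
    obtain ⟨s, hs⟩ := hp
    omega
  have := Int.le_of_dvd (abs_pos.2 hz0) ((dvd_abs _ _).2 hz)
  omega

lemma cyc_not_two {n : ℕ} (hn : 1 < n) (hodd : Odd n) (c : ZMod n → Fin 3) (z : Fin 3)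
    (hz : ∀ a, c a ≠ z) (hc : ∀ a b, (cyc n).Adj a b → c a ≠ c b) : False := by
  have step : ∀ a, c (a + 1 + 1) = c a := by
    intro a
    have h1 := hc _ _ (cyc_adj_succ hn a)
    have h2 := hc _ _ (cyc_adj_succ hn (a + 1))
    have h3 := hz a
    have h4 := hz (a + 1)
    have h5 := hz (a + 1 + 1)
    revert h1 h2 h3 h4 h5
    generalize c a = x
    generalize c (a + 1) = y
    generalize c (a + 1 + 1) = w
    intro h1 h2 h3 h4 h5
    omega
  have all : ∀ j : ℕ, c ((2 * j : ℕ) : ZMod n) = c 0 := by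
    intro j
    induction j with
    | zero => simp
    | succ j ih =>
      rw [← ih, ← step ((2 * j : ℕ) : ZMod n)]
      congr 1
      push_cast; ring
  obtain ⟨t, ht⟩ := hodd
  have := all (t + 1)
  have e : ((2 * (t + 1) : ℕ) : ZMod n) = 0 + 1 := by
    have : 2 * (t + 1) = n + 1 := by omega
    rw [this]; simp
  rw [e] at this
  exact hc _ _ (cyc_adj_succ hn 0) this.symm

lemma cyc_three {n : ℕ} (hn : 1 < n) (i : ZMod n) (x y z : Fin 3) (hxy : x ≠ y) (hxz : x ≠ z)
    (hyz : y ≠ z) : ∃ c : ZMod n → Fin 3, (∀ a b, (cyc n).Adj a b → c a ≠ c b) ∧ c i = x ∧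
      ∀ a, a ≠ i → c a ≠ x := by
  have : Fact (1 < n) := ⟨hn⟩
  have : NeZero n := ⟨by omega⟩
  have key : ∀ a : ZMod n, a ≠ a + 1 →
      (if a = i then x else if (a - i).val % 2 = 0 then y else z) ≠
      (if a + 1 = i then x else if (a + 1 - i).val % 2 = 0 then y else z) := by
    intro a ha
    by_cases h1 : a = i
    · have : ¬ a + 1 = i := fun h => ha (h1.trans h.symm)
      simp only [h1, if_true]
      rw [if_neg (h1 ▸ this)]
      split_ifs <;> assumption
    · by_cases h2 : a + 1 = i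
      · simp only [h1, h2, if_true, if_false]
        split_ifs
        exacts [hxy.symm, hxz.symm]
      · simp only [h1, h2, if_false]
        have e : a + 1 - i = (a - i) + 1 := by ring
        have hlt : (a - i).val + 1 < n := by
          by_contra hge
          have h3 := ZMod.val_lt (a - i)
          have h4 : (a - i).val + 1 = n := by omega
          apply h2
          have : ((((a - i).val + 1 : ℕ)) : ZMod n) = 0 := by rw [h4]; simp
          push_cast at this
          rw [ZMod.natCast_val, ZMod.cast_id] at this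
          linear_combination this
        rw [e, ZMod.val_add_of_lt (by rw [ZMod.val_one]; exact hlt), ZMod.val_one]
        split_ifs <;> omega
  refine ⟨fun a => if a = i then x else if (a - i).val % 2 = 0 then y else z, ?_, by simp, ?_⟩
  · intro a b h
    rw [cyc, fromRel_adj] at h
    rcases h with ⟨h1, rfl | rfl⟩
    · exact key a h1
    · exact (key b h1.symm).symm
  · intro a ha
    simp only [ha, if_false]
    split_ifs
    exacts [hxy.symm, hxz.symm]

section base
variable {l L : ℕ} (g : Gadget 3 l (Option (ZMod L)))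

def tgtSide : ZMod L ⊕ g.W → ZMod L ⊕ g.W → Prop
  | .inl a, .inl b => (cyc L).Adj a b
  | .inr a, .inr b => g.G.Adj a b
  | .inl a, .inr b => b = g.r (some a)
  | .inr a, .inl b => a = g.r (some b)

def tgt : SimpleGraph (Bool × (ZMod L ⊕ g.W)) where
  Adj u v := (u.1 = v.1 ∧ tgtSide g u.2 v.2) ∨
    (u.1 ≠ v.1 ∧ u.2 = .inr (g.r none) ∧ v.2 = .inr (g.r none))
  symm := ⟨by
    rintro ⟨s, u⟩ ⟨t, v⟩ (⟨h1, h2⟩ | ⟨h1, h2, h3⟩)
    · refine Or.inl ⟨h1.symm, ?_⟩
      rcases u with u | u <;> rcases v with v | v <;> first | exact h2.symm | exact h2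
    · exact Or.inr ⟨h1.symm, h3, h2⟩⟩
  loopless := ⟨by
    rintro ⟨s, u⟩ (⟨h1, h2⟩ | ⟨h1, h2, h3⟩)
    · rcases u with u | u <;> exact h2.ne rfl
    · exact h1 rfl⟩

def plusRel : ZMod L ⊕ g.W → ZMod L ⊕ g.W → Prop
  | .inr a, .inr b => g.G.Adj a b
  | _, _ => False

def twoG : SimpleGraph (Bool × (ZMod L ⊕ g.W)) where
  Adj u v := u.1 = v.1 ∧ plusRel g u.2 v.2
  symm := ⟨by
    rintro ⟨s, u⟩ ⟨t, v⟩ ⟨h1, h2⟩
    refine ⟨h1.symm, ?_⟩
    rcases u with u | u <;> rcases v with v | v <;> first | exact h2.symm | exact h2⟩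
  loopless := ⟨by
    rintro ⟨s, u⟩ ⟨h1, h2⟩
    rcases u with u | u
    exacts [h2, h2.ne rfl]⟩

lemma tgt_OG (hL : 1 < L) (hl : l ≤ L) : OG (tgt g) l := by
  classical
  have h1 : OG (twoG g) l := g.og.of_map (fun u => Sum.elim (fun _ => g.r none) id u.2) (by
    rintro ⟨s, u | u⟩ ⟨t, v | v⟩ ⟨-, h⟩ <;> first | exact absurd h id | exact h)
  let ψ : Bool × (ZMod L ⊕ Option (ZMod L)) → ZMod L := fun j => match j with
    | (_, .inl a) => a
    | (_, .inr (some a)) => a + 1
    | (s, .inr none) => if s then 0 + 1 else 0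
  have h2 : OG ((cyc L).comap ψ) l := fun v p hp =>
    hl.trans ((cyc_OG L).of_map ψ (fun u v h => h) v p hp)
  refine overlay h1 h2 (fun j => (j.1, Sum.map id g.r j.2))
    (fun i w => if i.1 = w.1 then (match i.2, w.2 with
      | .inl a, .inl b => if a = b then 0 else 2 * l
      | .inl _, .inr _ => 2 * l
      | .inr _, .inl _ => 2 * l
      | .inr a, .inr b => g.d a b) else 2 * l) ?_ ?_ ?_ _ ?_
  · rintro ⟨s, i | i⟩ <;> simp [g.d0]
  · rintro ⟨s, i | i⟩ ⟨t, u | u⟩ ⟨t', v | v⟩ ⟨h0, h⟩ <;> first | exact absurd h id | skip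
    · simp only at h0 ⊢
      split_ifs <;> omega
    · simp only at h0 ⊢
      subst h0
      split_ifs
      · exact g.lip i u v h
      · omega
  · rintro ⟨s, i⟩ ⟨t, j⟩ ⟨s', w⟩ hij
    simp only
    by_cases h1 : s = s' <;> by_cases h2 : t = s'
    · have hne : i ≠ j := fun h => hij (by rw [h, h1, h2])
      simp only [h1, h2, if_true]
      rcases i with i | i <;> rcases j with j | j <;> rcases w with w | w
      · have : i ≠ j := fun h => hne (by rw [h])
        simp only
        split_ifs with h1 h2 <;> first | omega | exact absurd (h1.trans h2.symm) this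
      all_goals first | (simp; done) | exact g.sep i j w (fun h => hne (by rw [h]))
    all_goals simp [h1, h2]
  · rintro ⟨s, u⟩ ⟨t, v⟩ (⟨h0, h⟩ | ⟨h0, h3, h4⟩)
    · simp only at h0 h
      subst h0
      rcases u with u | u <;> rcases v with v | v
      · exact Or.inr ⟨(s, .inl u), (s, .inl v), h, rfl, rfl⟩
      · refine Or.inr ⟨(s, .inl u), (s, .inr (some u)), cyc_adj_succ hL u, rfl, ?_⟩
        have : v = g.r (some u) := h
        rw [this]; rfl
      · refine Or.inr ⟨(s, .inr (some v)), (s, .inl v), (cyc_adj_succ hL v).symm, ?_, rfl⟩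
        have : u = g.r (some v) := h
        rw [this]; rfl
      · exact Or.inl ⟨rfl, h⟩
    · simp only at h0 h3 h4
      subst h3 h4
      refine Or.inr ⟨(s, .inr none), (t, .inr none), ?_, rfl, rfl⟩
      cases s <;> cases t
      · exact absurd rfl h0
      · exact cyc_adj_succ hL 0
      · exact (cyc_adj_succ hL 0).symm
      · exact absurd rfl h0

variable {n : ℕ} (π : ZMod n → ZMod L)

def famSide : ZMod n ⊕ ZMod n × g.W → ZMod n ⊕ ZMod n × g.W → Prop
  | .inl a, .inl b => (cyc n).Adj a b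
  | .inr a, .inr b => a.1 = b.1 ∧ g.G.Adj a.2 b.2
  | .inl a, .inr b => b = (a, g.r (some (π a)))
  | .inr a, .inl b => a = (b, g.r (some (π b)))

def fam : SimpleGraph (Bool × (ZMod n ⊕ ZMod n × g.W)) where
  Adj u v := (u.1 = v.1 ∧ famSide g π u.2 v.2) ∨
    (u.1 ≠ v.1 ∧ ∃ i j, u.2 = .inr (i, g.r none) ∧ v.2 = .inr (j, g.r none))
  symm := ⟨by
    rintro ⟨s, u⟩ ⟨t, v⟩ (⟨h1, h2⟩ | ⟨h1, i, j, h2, h3⟩)
    · refine Or.inl ⟨h1.symm, ?_⟩
      rcases u with u | u <;> rcases v with v | v <;>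
        first | exact h2.symm | exact h2 | exact ⟨h2.1.symm, h2.2.symm⟩
    · exact Or.inr ⟨h1.symm, j, i, h3, h2⟩⟩
  loopless := ⟨by
    rintro ⟨s, u⟩ (⟨h1, h2⟩ | ⟨h1, -⟩)
    · rcases u with u | u
      exacts [h2.ne rfl, h2.2.ne rfl]
    · exact h1 rfl⟩

lemma fam_hom (hπ : ∀ a b, (cyc n).Adj a b → (cyc L).Adj (π a) (π b)) (u v) (h : (fam g π).Adj u v) :
    (tgt g).Adj (u.1, Sum.map π Prod.snd u.2) (v.1, Sum.map π Prod.snd v.2) := by
  obtain ⟨s, u⟩ := u
  obtain ⟨t, v⟩ := v
  rcases h with ⟨h1, h2⟩ | ⟨h1, i, j, h2, h3⟩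
  · refine Or.inl ⟨h1, ?_⟩
    rcases u with u | u <;> rcases v with v | v
    · exact hπ _ _ h2
    · have : v = (u, g.r (some (π u))) := h2
      rw [this]; rfl
    · have : u = (v, g.r (some (π v))) := h2
      rw [this]; rfl
    · exact h2.2
  · simp only at h2 h3
    subst h2 h3
    exact Or.inr ⟨h1, rfl, rfl⟩

lemma fam_not_col (hn : 1 < n) (hodd : Odd n) : ¬ (fam g π).Colorable 3 := by
  rw [colorable_iff]
  rintro ⟨c, hc⟩
  have side : ∀ s, ∃ i, c (s, .inr (i, g.r none)) ≠ c (s, .inr (0, g.r none)) := by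
    intro s
    by_contra hcon
    push Not at hcon
    refine cyc_not_two hn hodd (fun a => c (s, .inl a)) (c (s, .inr (0, g.r none))) ?_ ?_
    · intro a
      rw [← hcon a, g.force (fun w => c (s, .inr (a, w)))
        (fun u v h => hc _ _ (Or.inl ⟨rfl, rfl, h⟩)) none (some (π a))]
      exact hc _ _ (Or.inl ⟨rfl, rfl⟩)
    · intro a b h
      exact hc _ _ (Or.inl ⟨rfl, h⟩)
  obtain ⟨i, hi⟩ := side false
  obtain ⟨j, hj⟩ := side true
  have cross : ∀ a b, c (false, .inr (a, g.r none)) ≠ c (true, .inr (b, g.r none)) :=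
    fun a b => hc _ _ (Or.inr ⟨by simp, a, b, rfl, rfl⟩)
  have h1 := cross i j
  have h2 := cross i 0
  have h3 := cross 0 j
  have h4 := cross 0 0
  revert hi hj h1 h2 h3 h4
  generalize c (false, .inr (i, g.r none)) = x
  generalize c (false, .inr (0, g.r none)) = y
  generalize c (true, .inr (j, g.r none)) = z
  generalize c (true, .inr (0, g.r none)) = w
  intro h1 h2 h3 h4 h5 h6
  omega

lemma fam_crit (hn : 1 < n) (i j : ZMod n) :
    ((fam g π).deleteEdges {s((false, .inr (i, g.r none)), (true, .inr (j, g.r none)))}).Colorable 3 := by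
  classical
  choose cz hcz using g.col
  obtain ⟨c0, h0, h0i, h0n⟩ := cyc_three hn i 0 1 2 (by decide) (by decide) (by decide)
  obtain ⟨c1, h1, h1i, h1n⟩ := cyc_three hn j 1 0 2 (by decide) (by decide) (by decide)
  let cc : Bool → ZMod n → Fin 3 := fun s => if s then c1 else c0
  let ca : Bool → ZMod n → Fin 3 := fun s a =>
    if s then (if a = j then 2 else 1) else (if a = i then 2 else 0)
  have hne : ∀ s a, cc s a ≠ ca s a := by
    intro s a
    cases s
    · by_cases h : a = i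
      · simp [cc, ca, h, h0i]
      · simpa [cc, ca, h] using h0n a h
    · by_cases h : a = j
      · simp [cc, ca, h, h1i]
      · simpa [cc, ca, h] using h1n a h
  refine (colorable_iff _ _).2
    ⟨fun u => Sum.elim (cc u.1) (fun x => cz (ca u.1 x.1) x.2) u.2, ?_⟩
  rintro ⟨s, u⟩ ⟨t, v⟩ h
  rw [deleteEdges_adj] at h
  obtain ⟨h, hE⟩ := h
  rcases h with ⟨h2, h3⟩ | ⟨h2, a, b, h3, h4⟩
  · simp only at h2 h3
    subst h2
    rcases u with u | u <;> rcases v with v | v
    · cases s
      · exact h0 u v h3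
      · exact h1 u v h3
    · have : v = (u, g.r (some (π u))) := h3
      simp only [this, Sum.elim_inl, Sum.elim_inr, (hcz _).2]
      exact hne s u
    · have : u = (v, g.r (some (π v))) := h3
      simp only [this, Sum.elim_inl, Sum.elim_inr, (hcz _).2]
      exact (hne s v).symm
    · simp only [Sum.elim_inr, h3.1]
      exact (hcz _).1 _ _ h3.2
  · simp only at h2 h3 h4
    subst h3 h4
    simp only [Sum.elim_inr, (hcz _).2]
    simp only [Set.mem_singleton_iff, Sym2.eq_iff, Prod.mk.injEq, Sum.inr.injEq, and_true] at hE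
    cases s <;> cases t
    · exact absurd rfl h2
    · simp only [ca]
      by_cases ha : a = i <;> by_cases hb : b = j <;> simp_all
    · simp only [ca]
      by_cases ha : a = j <;> by_cases hb : b = i <;> simp_all
    · exact absurd rfl h2

end base

lemma fam_base (l : ℕ) : ∃ g, 1 ≤ g ∧ Fam l g 3 := by
  classical
  set L := 2 * l + 3 with hL
  have : NeZero L := ⟨by omega⟩
  obtain ⟨γ⟩ := exists_gadget 3 l (by norm_num) (Option (ZMod L))
  have := γ.fin
  refine ⟨2 * (1 + Fintype.card γ.W), by omega, Bool × (ZMod L ⊕ γ.W), inferInstance, tgt γ,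
    tgt_OG γ (by omega) (by omega), 0, fun m0 => ?_⟩
  set n := L * (2 * m0 + 1) with hn
  have hn1 : 2 * m0 + 1 < n := by nlinarith
  have : NeZero n := ⟨by omega⟩
  have hodd : Odd n := Odd.mul ⟨l + 1, by omega⟩ ⟨m0, rfl⟩
  let π : ZMod n →+* ZMod L := ZMod.castHom (Dvd.intro _ rfl) (ZMod L)
  refine ⟨n, by omega, Bool × (ZMod n ⊕ ZMod n × γ.W), inferInstance, fam γ π,
    fun u => (u.1, Sum.map π Prod.snd u.2), fam_hom γ π ?_, fam_not_col γ π (by omega) hodd, ?_,
    Finset.univ.image (fun p : ZMod n × ZMod n =>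
      s((false, .inr (p.1, γ.r none)), (true, .inr (p.2, γ.r none)))), ?_, ?_⟩
  · intro a b h
    rw [cyc, fromRel_adj] at h
    rcases h with ⟨-, rfl | rfl⟩
    · rw [map_add, map_one]; exact cyc_adj_succ (by omega) _
    · rw [map_add, map_one]; exact (cyc_adj_succ (by omega) _).symm
  · simp only [Fintype.card_prod, Fintype.card_bool, Fintype.card_sum, ZMod.card]
    nlinarith
  · rw [Finset.card_image_of_injective]
    · simp
    · rintro ⟨a, b⟩ ⟨c, d⟩ h
      simpa using h
  · intro e he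
    obtain ⟨p, -, rfl⟩ := Finset.mem_image.1 he
    exact fam_crit γ π (by omega) _ _

lemma fam_all (l : ℕ) : ∃ g, 1 ≤ g ∧ ∀ k, 3 ≤ k → Fam l g k := by
  obtain ⟨g, hg, h⟩ := fam_base l
  refine ⟨g, hg, fun k hk => ?_⟩
  induction k, hk using Nat.le_induction with
  | base => exact h
  | succ k _ ih => exact ih.succ

end Pool.Agent.H13.OddGirth
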