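import Pool.Agent.H13.OddBase

set_option autoImplicit false

namespace Pool.Agent.H13.OddGirth

open SimpleGraph

lemma to_fin {V : Type} [Fintype V] (G : SimpleGraph V) (k l : ℕ) (hk : 1 ≤ k)
    (h1 : ¬ G.Colorable k) (h2 : ∀ e ∈ G.edgeSet, (G.deleteEdges {e}).Colorable k) (h3 : OG G l) :
    ∃ n, n ≤ Fintype.card V ∧ ∃ G' : SimpleGraph (Fin n), G'.Colorable (k + 1) ∧ ¬ G'.Colorable k ∧
      (∀ e ∈ G'.edgeSet, (G'.deleteEdges {e}).Colorable k) ∧ (∀ v, ∃ w, G'.Adj v w) ∧ OG G' l ∧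
      Nat.card G.edgeSet ≤ Nat.card G'.edgeSet := by
  classical
  let S := {v : V // ∃ w, G.Adj v w}
  let φ : Fin (Fintype.card S) ≃ S := (Fintype.equivFin S).symm
  let f : Fin (Fintype.card S) → V := fun i => (φ i).1
  have finj : Function.Injective f := Subtype.val_injective.comp φ.injective
  have hsur : ∀ {u v}, G.Adj u v → ∃ i, f i = u := fun {u v} h => ⟨φ.symm ⟨u, v, h⟩, by simp [f]⟩
  have hdel : ∀ e ∈ (G.comap f).edgeSet, ((G.comap f).deleteEdges {e}).Colorable k := by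
    intro e he
    induction e using Sym2.ind with
    | _ a b =>
      obtain ⟨c, hc⟩ := (colorable_iff _ _).1 (h2 s(f a, f b) he)
      refine (colorable_iff _ _).2 ⟨fun i => c (f i), fun u v h => hc _ _ ?_⟩
      simp only [deleteEdges_adj, Set.mem_singleton_iff, comap_adj] at h ⊢
      refine ⟨h.1, fun hh => h.2 ?_⟩
      exact Sym2.map.injective finj (by simpa using hh)
  have hnot : ¬ (G.comap f).Colorable k := by
    intro h
    apply h1
    obtain ⟨c, hc⟩ := (colorable_iff _ _).1 h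
    refine (colorable_iff _ _).2
      ⟨fun v => if h : ∃ w, G.Adj v w then c (φ.symm ⟨v, h⟩) else ⟨0, hk⟩, fun u v h => ?_⟩
    have hu : ∃ w, G.Adj u w := ⟨v, h⟩
    have hv : ∃ w, G.Adj v w := ⟨u, h.symm⟩
    simp only [hu, hv, dif_pos]
    apply hc
    simpa [f] using h
  refine ⟨Fintype.card S, Fintype.card_subtype_le _, G.comap f, ?_, hnot, hdel, ?_,
    h3.of_map f (fun _ _ h => h), ?_⟩
  · by_cases hE : ∃ a b, (G.comap f).Adj a b
    · obtain ⟨a, b, hab⟩ := hE
      obtain ⟨c, hc⟩ := (colorable_iff _ _).1 (hdel s(a, b) hab)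
      refine (colorable_iff _ _).2
        ⟨fun v => if v = a then Fin.last k else (c v).castSucc, fun u v h => ?_⟩
      by_cases hu : u = a <;> by_cases hv : v = a
      · exact absurd (hu.trans hv.symm) h.ne
      · simp only [hu, hv, if_true, if_false]; exact (Fin.castSucc_ne_last _).symm
      · simp only [hu, hv, if_true, if_false]; exact Fin.castSucc_ne_last _
      · simp only [hu, hv, if_false, ne_eq, Fin.castSucc_inj]
        apply hc
        simp only [deleteEdges_adj, Set.mem_singleton_iff, Sym2.eq_iff]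
        exact ⟨h, by tauto⟩
    · push Not at hE
      exact (colorable_iff _ _).2 ⟨fun _ => 0, fun u v h => absurd h (hE u v)⟩
  · intro v
    obtain ⟨w, hw⟩ := (φ v).2
    obtain ⟨j, rfl⟩ := hsur hw.symm
    exact ⟨j, hw⟩
  · refine Nat.card_le_card_of_surjective
      (fun e : (G.comap f).edgeSet => (⟨e.1.map f, ?_⟩ : G.edgeSet)) ?_
    · obtain ⟨e, he⟩ := e
      induction e using Sym2.ind with
      | _ a b => exact he
    · rintro ⟨e, he⟩
      induction e using Sym2.ind with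
      | _ a b =>
        have h : G.Adj a b := he
        obtain ⟨i, rfl⟩ := hsur h
        obtain ⟨j, rfl⟩ := hsur h.symm
        exact ⟨⟨s(i, j), h⟩, rfl⟩

lemma main (l : ℕ) : ∃ c : ℝ, 0 < c ∧ ∀ k : ℕ, 4 ≤ k → ∀ N : ℕ, ∃ n : ℕ, N ≤ n ∧
      ∃ G : SimpleGraph (Fin n),
        G.chromaticNumber = (k : ℕ∞) ∧
        (∀ e ∈ G.edgeSet, (G.deleteEdges {e}).Colorable (k - 1)) ∧
        (∀ v : Fin n, ∃ w : Fin n, G.Adj v w) ∧ OG G l ∧
        c * (n : ℝ) ^ 2 ≤ (Nat.card G.edgeSet : ℝ) := by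
  classical
  obtain ⟨g, hg, hF⟩ := fam_all l
  have hg' : (1 : ℝ) ≤ g := by exact_mod_cast hg
  refine ⟨1 / (4 * (g : ℝ) ^ 2), by positivity, fun k hk N => ?_⟩
  obtain ⟨k, rfl⟩ : ∃ j, k = j + 1 := ⟨k - 1, by omega⟩
  obtain ⟨I, _, H, hH, C, hC⟩ := hF k (by omega)
  obtain ⟨m, hm, V, _, G, f, hf, hcol, hcard, E, hE, hcrit⟩ := hC (max N C)
  obtain ⟨G1, hle, hc1, hd1⟩ := exists_critical G k hcol
  have hEsub : ∀ e ∈ E, e ∈ G1.edgeSet := by
    intro e he
    by_contra hne
    apply hc1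
    refine (hcrit e he).mono_left ?_
    intro u v h
    simp only [deleteEdges_adj, Set.mem_singleton_iff]
    exact ⟨hle h, fun hh => hne (hh ▸ h)⟩
  have hcardE : m * m ≤ Nat.card G1.edgeSet := by
    refine hE.trans ?_
    rw [← Nat.card_eq_finsetCard]
    exact Nat.card_le_card_of_injective (fun e => ⟨e.1, hEsub _ e.2⟩)
      (fun a b h => Subtype.ext (by simpa using h))
  obtain ⟨n, hn, G', a1, a2, a3, a4, a5, a6⟩ := to_fin G1 k l (by omega) hc1 hd1
    (hH.of_map f (fun u v h => hf u v (hle h)))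
  have hup : Nat.card G'.edgeSet ≤ n * n := by
    have : Nat.card G'.edgeSet ≤ Nat.card (Fin n × Fin n) := by
      refine (Nat.card_le_card_of_injective Subtype.val Subtype.val_injective).trans ?_
      exact Nat.card_le_card_of_surjective (fun p : Fin n × Fin n => s(p.1, p.2))
        (fun e => by induction e using Sym2.ind with | _ a b => exact ⟨(a, b), rfl⟩)
    simpa using this
  have hmn : m ≤ n := by
    by_contra h
    push Not at h
    nlinarith
  have hN : N ≤ m := le_trans (le_max_left _ _) hm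
  have hCm : C ≤ m := le_trans (le_max_right _ _) hm
  refine ⟨n, hN.trans hmn, G', ?_, by simpa using a3, a4, a5, ?_⟩
  · push_cast
    exact chromaticNumber_eq_iff_colorable_not_colorable.2 ⟨a1, a2⟩
  · have h1 : n ≤ 2 * g * m := by nlinarith
    have h2 : n * n ≤ 4 * g ^ 2 * Nat.card G'.edgeSet := by
      calc n * n ≤ (2 * g * m) * (2 * g * m) := Nat.mul_le_mul h1 h1
        _ = 4 * g ^ 2 * (m * m) := by ring
        _ ≤ _ := Nat.mul_le_mul_left _ (hcardE.trans a6)
    have h3 : (n : ℝ) * n ≤ 4 * (g : ℝ) ^ 2 * (Nat.card G'.edgeSet : ℝ) := by exact_mod_cast h2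
    rw [div_mul_eq_mul_div, div_le_iff₀ (by positivity)]
    nlinarith

end Pool.Agent.H13.OddGirth
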