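import Pool.Agent.H13.OddGirth

set_option autoImplicit false

namespace Pool.Agent.H13.OddGirth

open SimpleGraph

section chain
variable {V : Type} [DecidableEq V] (Z : SimpleGraph V) (x y : V) (T : ℕ)

def phi (t : Fin T) (a : V) : Fin (T + 1) × V := if a = y then (t.succ, x) else (t.castSucc, a)

lemma phi_inj (t : Fin T) : Function.Injective (phi x y T t) := by
  intro a b h
  unfold phi at h
  split_ifs at h with h1 h2 h2
  · rw [h1, h2]
  · simp only [Prod.mk.injEq, Fin.ext_iff, Fin.val_succ, Fin.val_castSucc] at h; omega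
  · simp only [Prod.mk.injEq, Fin.ext_iff, Fin.val_succ, Fin.val_castSucc] at h; omega
  · exact (Prod.mk.inj h).2

def chain : SimpleGraph (Fin (T + 1) × V) where
  Adj u v := ∃ t a b, Z.Adj a b ∧ phi x y T t a = u ∧ phi x y T t b = v
  symm := ⟨fun _ _ ⟨t, a, b, h, h1, h2⟩ => ⟨t, b, a, h.symm, h2, h1⟩⟩
  loopless := ⟨fun _ ⟨t, _, _, h, h1, h2⟩ => h.ne (phi_inj x y T t (h1.trans h2.symm))⟩

lemma chain_height {u v : Fin (T + 1) × V} (h : (chain Z x y T).Adj u v) :
    u.1.1 ≤ v.1.1 + 1 ∧ v.1.1 ≤ u.1.1 + 1 := by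
  obtain ⟨t, a, b, -, rfl, rfl⟩ := h
  unfold phi
  split_ifs <;> simp <;> omega

lemma chain_OG {l : ℕ} (h : OG Z l) : OG (chain Z x y T) l := by
  intro a p hp
  by_contra hlt
  push Not at hlt
  have : Even p.length := by
    apply even_of_classes (fun u v => min u.1.1 v.1.1)
    intro j
    apply weak_even h (fun u => if u.1.1 < j then x else if u.1.1 = j then u.2 else y)
      (fun u v => decide (min u.1.1 v.1.1 = j)) Set.univ _ p (by simp) hlt
    rintro u v - - ⟨t, a, b, hab, rfl, rfl⟩
    have hne := hab.ne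
    unfold phi
    by_cases ha : a = y <;> by_cases hb : b = y
    · exact absurd (ha.trans hb.symm) hne
    · subst ha
      simp only [if_true, hb, if_false, Fin.val_succ, Fin.val_castSucc, decide_eq_true_eq,
        decide_eq_false_iff_not]
      constructor
      · intro hj
        have : t.1 = j := by omega
        subst this
        simpa using hab
      · intro hj
        split_ifs <;> first | rfl | omega
    · subst hb
      simp only [if_true, ha, if_false, Fin.val_succ, Fin.val_castSucc, decide_eq_true_eq,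
        decide_eq_false_iff_not]
      constructor
      · intro hj
        have : t.1 = j := by omega
        subst this
        simpa using hab
      · intro hj
        split_ifs <;> first | rfl | omega
    · simp only [ha, hb, if_false, Fin.val_castSucc, decide_eq_true_eq,
        decide_eq_false_iff_not, min_self]
      constructor
      · intro hj
        subst hj
        simpa using hab
      · intro hj
        split_ifs <;> rfl
  exact (Nat.not_even_iff_odd.2 hp) this

lemma chain_col {k : ℕ} (c : V → Fin k) (hc : ∀ u v, Z.Adj u v → c u ≠ c v) (hxy : c x = c y) :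
    ∀ u v, (chain Z x y T).Adj u v → c u.2 ≠ c v.2 := by
  rintro u v ⟨t, a, b, hab, rfl, rfl⟩
  have e : ∀ a, c (phi x y T t a).2 = c a := by
    intro a
    unfold phi
    split_ifs with h
    · rw [h, hxy]
    · rfl
  rw [e, e]
  exact hc a b hab

lemma chain_force {k : ℕ} (hne : x ≠ y)
    (hZ : ∀ c : V → Fin k, (∀ u v, Z.Adj u v → c u ≠ c v) → c x = c y)
    (c : Fin (T + 1) × V → Fin k) (hc : ∀ u v, (chain Z x y T).Adj u v → c u ≠ c v) :
    ∀ t, c (t, x) = c (0, x) := by
  intro t
  induction t using Fin.induction with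
  | zero => rfl
  | succ t ih =>
    have := hZ (fun a => c (phi x y T t a)) (fun u v h => hc _ _ ⟨t, u, v, h, rfl, rfl⟩)
    simp only [phi, hne, if_false, if_true] at this
    rw [← this, ih]

end chain

/-- A graph with far apart terminals that get the same colour in every k-colouring. -/
structure Gadget (k l : ℕ) (I : Type) where
  W : Type
  fin : Fintype W
  G : SimpleGraph W
  r : I → W
  d : I → W → ℕ
  og : OG G l
  d0 : ∀ i, d i (r i) = 0
  lip : ∀ i u v, G.Adj u v → d i v ≤ d i u + 1
  sep : ∀ i j w, i ≠ j → 2 * l ≤ d i w + d j w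
  col : ∀ z : Fin k, ∃ c : W → Fin k, (∀ u v, G.Adj u v → c u ≠ c v) ∧ ∀ i, c (r i) = z
  force : ∀ c : W → Fin k, (∀ u v, G.Adj u v → c u ≠ c v) → ∀ i j, c (r i) = c (r j)

lemma exists_gadget (k l : ℕ) (hk : 1 ≤ k) (I : Type) [Fintype I] : Nonempty (Gadget k l I) := by
  classical
  obtain ⟨V, _, D, rk, -, hog, hcol⟩ := exists_shift l k
  obtain ⟨Z, hZ, hZc, hcrit⟩ := exists_critical _ k hcol
  have hZog : OG Z l := fun v p hp => by
    have := (hog.of_map id (fun u v h => hZ h)) v p hp
    omega
  obtain ⟨x, y, hxy⟩ : ∃ x y, Z.Adj x y := by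
    by_contra hcon
    push Not at hcon
    exact hZc ((colorable_iff _ _).2 ⟨fun _ => ⟨0, hk⟩, fun u v h => absurd h (hcon u v)⟩)
  set Z' := Z.deleteEdges {s(x, y)} with hZ'
  have hforce : ∀ c : V → Fin k, (∀ u v, Z'.Adj u v → c u ≠ c v) → c x = c y := by
    intro c hc
    by_contra hne
    apply hZc
    refine (colorable_iff _ _).2 ⟨c, fun u v h => ?_⟩
    by_cases he : s(u, v) = s(x, y)
    · rcases Sym2.eq_iff.1 he with ⟨rfl, rfl⟩ | ⟨rfl, rfl⟩
      · exact hne
      · exact Ne.symm hne
    · exact hc u v (by simp [hZ', h, he])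
  obtain ⟨c0, hc0⟩ := (colorable_iff _ _).1 (hcrit s(x, y) hxy)
  let e := Fintype.equivFin I
  let T := Fintype.card I * (2 * l)
  have hT : ∀ i : I, (e i).1 * (2 * l) < T + 1 := fun i =>
    Nat.lt_succ_of_le (Nat.mul_le_mul_right _ (e i).2.le)
  refine ⟨⟨Fin (T + 1) × V, inferInstance, chain Z' x y T, fun i => (⟨_, hT i⟩, x),
    fun i w => Nat.dist w.1.1 ((e i).1 * (2 * l)),
    chain_OG _ _ _ _ (hZog.of_map id (fun u v h => deleteEdges_le _ h)), ?_, ?_, ?_, ?_, ?_⟩⟩
  · intro i; simp
  · intro i u v h
    have := chain_height _ _ _ _ h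
    unfold Nat.dist
    omega
  · intro i j w hij
    have hne : (e i).1 ≠ (e j).1 := fun h => hij (e.injective (Fin.ext h))
    unfold Nat.dist
    rcases lt_or_gt_of_ne hne with h | h
    · have := Nat.mul_le_mul_right (2 * l) (Nat.succ_le_of_lt h)
      rw [Nat.succ_mul] at this
      omega
    · have := Nat.mul_le_mul_right (2 * l) (Nat.succ_le_of_lt h)
      rw [Nat.succ_mul] at this
      omega
  · intro z
    refine ⟨fun w => Equiv.swap (c0 x) z (c0 w.2), fun u v h => ?_, fun i => by simp⟩
    exact (Equiv.swap (c0 x) z).injective.ne (chain_col _ _ _ _ c0 hc0 (hforce c0 hc0) u v h)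
  · intro c hc i j
    exact (chain_force _ _ _ _ hxy.ne hforce c hc _).trans
      (chain_force _ _ _ _ hxy.ne hforce c hc _).symm

section cone
variable {k l : ℕ} {I V : Type} (g : Gadget k l I) (G : SimpleGraph V) (f : V → I)

def cone : SimpleGraph (V ⊕ g.W) where
  Adj u v := match u, v with
    | .inl a, .inl b => G.Adj a b
    | .inr a, .inr b => g.G.Adj a b
    | .inl a, .inr b => b = g.r (f a)
    | .inr a, .inl b => a = g.r (f b)
  symm := ⟨by rintro (a | a) (b | b) h <;> first | exact h.symm | exact h⟩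
  loopless := ⟨by rintro (a | a) h <;> exact h.ne rfl⟩

/-- H with a pendant edge at each vertex -/
def pend (H : SimpleGraph I) : SimpleGraph (I ⊕ I) where
  Adj u v := match u, v with
    | .inl a, .inl b => H.Adj a b
    | .inr _, .inr _ => False
    | .inl a, .inr b => a = b
    | .inr a, .inl b => a = b
  symm := ⟨by rintro (a | a) (b | b) h <;> first | exact h.symm | exact h⟩
  loopless := ⟨by rintro (a | a) h; exacts [h.ne rfl, h]⟩

lemma pend_OG {H : SimpleGraph I} (h : OG H l) : OG (pend H) l := by
  intro a p hp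
  by_contra hlt
  push Not at hlt
  have : Even p.length := by
    apply even_of_classes (fun u v => u.isLeft && v.isLeft)
    intro j
    cases j with
    | true =>
      apply weak_even h (Sum.elim id id) (fun u v => decide ((u.isLeft && v.isLeft) = true))
        Set.univ _ p (by simp) hlt
      rintro (u | u) (v | v) - - h <;> simp_all [pend]
    | false =>
      apply weak_even (OG_bool l) Sum.isLeft (fun u v => decide ((u.isLeft && v.isLeft) = false))
        Set.univ _ p (by simp) hlt
      rintro (u | u) (v | v) - - h <;> simp_all [pend]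
  exact (Nat.not_even_iff_odd.2 hp) this

/-- the gadget together with isolated vertices -/
def plus (J : Type) : SimpleGraph (J ⊕ g.W) where
  Adj u v := match u, v with
    | .inr a, .inr b => g.G.Adj a b
    | _, _ => False
  symm := ⟨by rintro (a | a) (b | b) h <;> first | exact h.symm | exact h⟩
  loopless := ⟨by rintro (a | a) h; exacts [h, h.ne rfl]⟩

lemma plus_OG (J : Type) : OG (plus g J) l := by
  intro a p hp
  cases a with
  | inl a =>
    cases p with
    | nil => simp at hp
    | @cons _ b _ h _ => cases b <;> exact absurd h id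
  | inr a =>
    exact (g.og.of_map (G := plus g J) (Sum.elim (fun _ => a) id) (by
      rintro (u | u) (v | v) h <;> first | exact absurd h id | exact h)) _ p hp

lemma cone_OG {H : SimpleGraph I} (h : OG H l) : OG (cone g H id) l := by
  classical
  refine overlay (plus_OG g I) (pend_OG h) (Sum.map id g.r)
    (fun i w => match i, w with
      | .inl a, .inl b => if a = b then 0 else 2 * l
      | .inl _, .inr _ => 2 * l
      | .inr _, .inl _ => 2 * l
      | .inr a, .inr b => g.d a b) ?_ ?_ ?_ _ ?_
  · rintro (i | i) <;> simp [g.d0]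
  · rintro (i | i) (u | u) (v | v) h <;> first | exact absurd h id | exact g.lip i u v h | simp
  · rintro (i | i) (j | j) (w | w) hij
    · have : i ≠ j := fun h => hij (by rw [h])
      simp only
      split_ifs with h1 h2 <;> first | omega | exact absurd (h1.trans h2.symm) this
    all_goals first | (simp; done) | exact g.sep i j w (fun h => hij (by rw [h]))
  · rintro (u | u) (v | v) h
    · exact Or.inr ⟨.inl u, .inl v, h, rfl, rfl⟩
    · exact Or.inr ⟨.inl u, .inr u, rfl, rfl, congrArg Sum.inr h⟩
    · exact Or.inr ⟨.inr v, .inl v, rfl, congrArg Sum.inr h, rfl⟩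
    · exact Or.inl h

end cone

/-- The inductive statement. -/
def Fam (l g k : ℕ) : Prop :=
  ∃ (I : Type) (_ : Fintype I) (H : SimpleGraph I), OG H l ∧ ∃ C : ℕ, ∀ m0 : ℕ, ∃ m, m0 ≤ m ∧
    ∃ (V : Type) (_ : Fintype V) (G : SimpleGraph V) (f : V → I),
      (∀ u v, G.Adj u v → H.Adj (f u) (f v)) ∧ ¬ G.Colorable k ∧ Fintype.card V ≤ g * m + C ∧
      ∃ E : Finset (Sym2 V), m * m ≤ E.card ∧ ∀ e ∈ E, (G.deleteEdges {e}).Colorable k

lemma Fam.succ {l g k : ℕ} (h : Fam l g k) : Fam l g (k + 1) := by
  classical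
  obtain ⟨I, _, H, hH, C, hC⟩ := h
  obtain ⟨γ⟩ := exists_gadget (k + 1) l (by omega) I
  have := γ.fin
  refine ⟨I ⊕ γ.W, inferInstance, cone γ H id, cone_OG γ hH, C + Fintype.card γ.W, fun m0 => ?_⟩
  obtain ⟨m, hm, V, _, G, f, hf, hcol, hcard, E, hE, hcrit⟩ := hC m0
  refine ⟨m, hm, V ⊕ γ.W, inferInstance, cone γ G f, Sum.map f id, ?_, ?_, ?_,
    E.image (Sym2.map Sum.inl), ?_, ?_⟩
  · rintro (u | u) (v | v) h
    · exact hf u v h
    all_goals exact h
  · rw [colorable_iff]
    rintro ⟨c, hc⟩
    apply hcol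
    rcases isEmpty_or_nonempty V with hV | ⟨⟨v0⟩⟩
    · exact Colorable.of_isEmpty _
    have hz : ∀ v, c (.inl v) ≠ c (.inr (γ.r (f v0))) := by
      intro v
      rw [γ.force (fun w => c (.inr w)) (fun u v h => hc (.inr u) (.inr v) h) (f v0) (f v)]
      exact hc (.inl v) (.inr _) rfl
    have C : G.Coloring {z : Fin (k + 1) // z ≠ c (.inr (γ.r (f v0)))} :=
      Coloring.mk (fun v => ⟨c (.inl v), hz v⟩) (fun {u v} h hh =>
        hc (.inl u) (.inl v) h (congrArg Subtype.val hh))
    simpa using C.colorable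
  · simp only [Fintype.card_sum]; omega
  · rwa [Finset.card_image_of_injective _ (Sym2.map.injective Sum.inl_injective)]
  · intro e he
    obtain ⟨e, he', rfl⟩ := Finset.mem_image.1 he
    obtain ⟨c1, hc1⟩ := (colorable_iff _ _).1 (hcrit e he')
    obtain ⟨c2, hc2, hc3⟩ := γ.col (Fin.last k)
    refine (colorable_iff _ _).2 ⟨Sum.elim (fun v => (c1 v).castSucc) c2, ?_⟩
    rintro (u | u) (v | v) h
    · simp only [deleteEdges_adj, Set.mem_singleton_iff] at h
      simp only [Sum.elim_inl, ne_eq, Fin.castSucc_inj]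
      apply hc1
      simp only [deleteEdges_adj, Set.mem_singleton_iff]
      exact ⟨h.1, fun hh => h.2 (by rw [← hh]; rfl)⟩
    · have : v = γ.r (f u) := h.1
      simp only [Sum.elim_inl, Sum.elim_inr, this, hc3]
      exact Fin.castSucc_ne_last _
    · have : u = γ.r (f v) := h.1
      simp only [Sum.elim_inl, Sum.elim_inr, this, hc3]
      exact (Fin.castSucc_ne_last _).symm
    · exact hc2 u v h.1

end Pool.Agent.H13.OddGirth
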