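import Mathlib

set_option autoImplicit false

namespace Pool.Agent.H13.OddGirth

open SimpleGraph

variable {V W : Type}

/-- No odd closed walk shorter than l. -/
def OG (G : SimpleGraph V) (l : ℕ) : Prop :=
  ∀ (v : V) (p : G.Walk v v), Odd p.length → l ≤ p.length

lemma colorable_iff (G : SimpleGraph V) (k : ℕ) :
    G.Colorable k ↔ ∃ c : V → Fin k, ∀ u v, G.Adj u v → c u ≠ c v :=
  ⟨fun ⟨c⟩ => ⟨c, fun _ _ h => c.valid h⟩, fun ⟨c, h⟩ => ⟨Coloring.mk c (fun {u v} => h u v)⟩⟩

lemma OG.of_map {G : SimpleGraph V} {H : SimpleGraph W} {l : ℕ} (h : OG H l) (f : V → W)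
    (hf : ∀ u v, G.Adj u v → H.Adj (f u) (f v)) : OG G l := by
  intro v p hp
  have := h (f v) (p.map (⟨f, fun {u v} => hf u v⟩ : G →g H)) (by simpa using hp)
  simpa using this

lemma weak_walk {G : SimpleGraph V} {H : SimpleGraph W} (f : V → W) (P : V → V → Bool) (S : Set V)
    (hf : ∀ u v, u ∈ S → v ∈ S → G.Adj u v →
      (P u v = true → H.Adj (f u) (f v)) ∧ (P u v = false → f u = f v))
    {a b : V} (p : G.Walk a b) (hS : ∀ x ∈ p.support, x ∈ S) :
    ∃ q : H.Walk (f a) (f b), q.length = p.darts.countP (fun d => P d.fst d.snd) := by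
  induction p with
  | nil => exact ⟨Walk.nil, by simp⟩
  | @cons u v w h p ih =>
    obtain ⟨q, hq⟩ := ih (fun x hx => hS x (by simp [hx]))
    have h1 := hf u v (hS u (by simp)) (hS v (by simp)) h
    cases hP : P u v with
    | true => exact ⟨Walk.cons (h1.1 hP) q, by simp [hq, hP]⟩
    | false => exact ⟨q.copy (h1.2 hP).symm rfl, by simp [hq, hP]⟩

lemma weak_even {G : SimpleGraph V} {H : SimpleGraph W} {l : ℕ} (hH : OG H l) (f : V → W)
    (P : V → V → Bool) (S : Set V)
    (hf : ∀ u v, u ∈ S → v ∈ S → G.Adj u v →
      (P u v = true → H.Adj (f u) (f v)) ∧ (P u v = false → f u = f v))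
    {a : V} (p : G.Walk a a) (hS : ∀ x ∈ p.support, x ∈ S) (hl : p.length < l) :
    Even (p.darts.countP (fun d => P d.fst d.snd)) := by
  obtain ⟨q, hq⟩ := weak_walk f P S hf p hS
  rw [← hq]
  by_contra hodd
  have h1 := hH _ q (Nat.not_even_iff_odd.1 hodd)
  have h2 : p.darts.countP (fun d => P d.fst d.snd) ≤ p.darts.length := List.countP_le_length
  rw [Walk.length_darts] at h2
  omega

lemma even_of_classes {G : SimpleGraph V} {J : Type} [DecidableEq J] (cls : V → V → J) {a b : V}
    (p : G.Walk a b) (h : ∀ j, Even (p.darts.countP (fun d => decide (cls d.fst d.snd = j)))) :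
    Even p.length := by
  have := List.sum_toFinset_count_eq_length (p.darts.map (fun d => cls d.fst d.snd))
  rw [List.length_map, Walk.length_darts] at this
  rw [← this]
  apply Finset.even_sum
  intro j _
  have := h j
  rw [List.count, List.countP_map]
  have e : ((fun x => x == j) ∘ fun d : G.Dart => cls d.fst d.snd) =
      fun d => decide (cls d.fst d.snd = j) := by
    funext d
    simp [Bool.beq_eq_decide_eq]
  rw [e]
  exact this

lemma OG_bool (l : ℕ) : OG (⊤ : SimpleGraph Bool) l := by
  intro v p hp
  have c : (⊤ : SimpleGraph Bool).Coloring Bool := Coloring.mk id (fun h => h)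
  have := (c.odd_length_iff_not_congr p).1 hp
  simp at this

/-- Overlaying a graph H on far apart terminals of a graph G keeps the odd girth. -/
lemma overlay {I : Type} {G : SimpleGraph W} {H : SimpleGraph I} {l : ℕ} (hG : OG G l) (hH : OG H l)
    (r : I → W) (d : I → W → ℕ) (hd0 : ∀ i, d i (r i) = 0)
    (hlip : ∀ i u v, G.Adj u v → d i v ≤ d i u + 1)
    (hsep : ∀ i j w, i ≠ j → 2 * l ≤ d i w + d j w)
    (K : SimpleGraph W) (hK : ∀ u v, K.Adj u v → G.Adj u v ∨ ∃ i j, H.Adj i j ∧ u = r i ∧ v = r j) :
    OG K l := by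
  classical
  intro a p hp
  by_contra hlt
  push Not at hlt
  by_cases hex : ∃ i, r i ∈ p.support
  · obtain ⟨i0, hi0⟩ := hex
    set q := p.rotate (r i0) hi0 with hq
    have hlen : q.length = p.length := by simp [hq]
    have near : ∀ {x y : W} (w : K.Walk x y) (n : ℕ), (∃ i, d i x ≤ n) →
        ∀ z ∈ w.support, ∃ i, d i z ≤ n + w.length := by
      intro x y w
      induction w with
      | nil => intro n hn z hz; simp at hz; subst hz; simpa using hn
      | @cons u v t h w ih =>
        intro n hn z hz
        rw [Walk.support_cons, List.mem_cons] at hz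
        rcases hz with rfl | hz
        · obtain ⟨i, hi⟩ := hn
          exact ⟨i, by omega⟩
        · have : ∃ i, d i v ≤ n + 1 := by
            rcases hK u v h with h1 | ⟨i, j, -, -, rfl⟩
            · obtain ⟨i, hi⟩ := hn
              exact ⟨i, by have := hlip i u v h1; omega⟩
            · exact ⟨j, by rw [hd0]; omega⟩
          obtain ⟨i, hi⟩ := ih (n + 1) this z hz
          exact ⟨i, by simp only [Walk.length_cons]; omega⟩
    -- a sharper bound is not needed: use the set of points at height at most l - 1
    let S : Set W := {z | ∃ i, d i z + 1 ≤ l}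
    have hS : ∀ z ∈ q.support, z ∈ S := by
      intro z hz
      obtain ⟨i, hi⟩ := near q 0 ⟨i0, by rw [hd0]⟩ z hz
      exact ⟨i, by omega⟩
    let idx : W → I := fun z => if h : ∃ i, d i z + 1 ≤ l then h.choose else i0
    have hidx : ∀ z ∈ S, d (idx z) z + 1 ≤ l := by
      intro z hz
      have hz' : ∃ i, d i z + 1 ≤ l := hz
      simp only [idx, dif_pos hz']
      exact hz'.choose_spec
    have hidx_r : ∀ i, r i ∈ S → idx (r i) = i := by
      intro i hi
      by_contra hne
      have h1 := hsep _ _ (r i) hne
      have h2 := hidx _ hi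
      rw [hd0] at h1
      omega
    have hidx_adj : ∀ u v, u ∈ S → v ∈ S → G.Adj u v → idx u = idx v := by
      intro u v hu hv h
      by_contra hne
      have h1 := hsep _ _ v hne
      have h2 := hidx _ hu
      have h3 := hidx _ hv
      have h4 := hlip (idx u) u v h
      omega
    have : Even q.length := by
      apply even_of_classes (fun u v => if G.Adj u v then some (idx u) else none)
      intro j
      cases j with
      | none =>
        apply weak_even hH idx (fun u v => decide ((if G.Adj u v then some (idx u) else none) = none))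
          S _ q hS (by omega)
        intro u v hu hv h
        by_cases hG' : G.Adj u v
        · simp [hG', hidx_adj u v hu hv hG']
        · rcases hK u v h with h1 | ⟨i, j, hij, rfl, rfl⟩
          · exact absurd h1 hG'
          · simp [hG', hidx_r i hu, hidx_r j hv, hij]
      | some i =>
        apply weak_even hG (fun z => if idx z = i then z else r i)
          (fun u v => decide ((if G.Adj u v then some (idx u) else none) = some i))
          S _ q hS (by omega)
        intro u v hu hv h
        by_cases hG' : G.Adj u v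
        · have := hidx_adj u v hu hv hG'
          by_cases hi : idx u = i
          · simp [hG', hi, this ▸ hi]
          · have hi' : ¬ idx v = i := this ▸ hi
            simp [hG', hi, hi']
        · rcases hK u v h with h1 | ⟨a, b, hab, rfl, rfl⟩
          · exact absurd h1 hG'
          · simp only [hG', if_false, hidx_r a hu, hidx_r b hv]
            refine ⟨by simp, fun _ => ?_⟩
            split_ifs with h1 h2 h2 <;> simp_all
    rw [hlen] at this
    exact (Nat.not_even_iff_odd.2 hp) this
  · push Not at hex
    have := weak_even hG id (fun _ _ => true) {z | ∀ i, z ≠ r i} (by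
      intro u v hu hv h
      rcases hK u v h with h1 | ⟨i, j, -, rfl, -⟩
      · simpa using h1
      · exact absurd rfl (hu i)) p (fun x hx i hi => hex i (hi ▸ hx)) hlt
    simp only [List.countP_true, Walk.length_darts] at this
    exact (Nat.not_even_iff_odd.2 hp) this

/-- the line digraph step -/
lemma arc_step {D : V → V → Prop} (rk : V → ℕ) (hrk : ∀ u v, D u v → rk u < rk v) {l : ℕ}
    (h : OG (fromRel D) l) :
    OG (fromRel (fun e f : V × V => D e.1 e.2 ∧ D f.1 f.2 ∧ e.2 = f.1)) (l + 2) := by
  classical
  set G' := fromRel (fun e f : V × V => D e.1 e.2 ∧ D f.1 f.2 ∧ e.2 = f.1) with hG'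
  have hom : ∀ e f, G'.Adj e f → (fromRel D).Adj e.2 f.2 := by
    intro e f hef
    rw [hG', fromRel_adj] at hef
    rw [fromRel_adj]
    rcases hef.2 with ⟨h1, h2, h3⟩ | ⟨h1, h2, h3⟩
    · rw [← h3] at h2
      exact ⟨fun hh => by have := hrk _ _ h2; rw [hh] at this; omega, Or.inl h2⟩
    · rw [← h3] at h2
      exact ⟨fun hh => by have := hrk _ _ h2; rw [hh] at this; omega, Or.inr h2⟩
  intro a p hp
  obtain ⟨e, he, hmax⟩ := Finset.exists_max_image p.support.toFinset (fun e => rk e.1) ⟨a, by simp⟩
  simp only [List.mem_toFinset] at he hmax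
  have hlen : (p.rotate e he).length = p.length := by simp
  have hmax' : ∀ x ∈ (p.rotate e he).support, rk x.1 ≤ rk e.1 := fun x hx =>
    hmax x ((Walk.mem_support_rotate_iff p e he).1 hx)
  rw [← hlen] at hp ⊢
  generalize p.rotate e he = q at hp hmax'
  have down : ∀ x, G'.Adj e x → rk x.1 ≤ rk e.1 → x.2 = e.1 := by
    intro x hx hle
    rw [hG', fromRel_adj] at hx
    rcases hx.2 with ⟨h1, h2, h3⟩ | ⟨h1, h2, h3⟩
    · have := hrk _ _ h1
      rw [h3] at this
      omega
    · exact h3
  cases q with
  | nil => simp at hp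
  | @cons _ x _ h1 q =>
    have hx := down x h1 (hmax' x (by simp))
    have hsup : ∀ z ∈ q.reverse.support, rk z.1 ≤ rk e.1 := by
      intro z hz
      apply hmax'
      simp only [Walk.support_reverse, List.mem_reverse] at hz
      simp [hz]
    have hl : q.reverse.length = q.length := by simp
    simp only [Walk.length_cons] at hp ⊢
    rw [← hl] at hp ⊢
    generalize q.reverse = q' at hsup hp
    cases q' with
    | nil => exact absurd h1 (G'.loopless.irrefl _)
    | @cons _ y _ h2 q'' =>
      have hy := down y h2 (hsup y (by simp))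
      have := h _ ((q''.map (⟨Prod.snd, fun {u v} => hom u v⟩ : G' →g fromRel D)).copy hy hx)
        (by
          simp only [Walk.length_copy, Walk.length_map]
          simp only [Walk.length_cons] at hp
          rcases hp with ⟨t, ht⟩
          exact ⟨t - 1, by omega⟩)
      simp only [Walk.length_copy, Walk.length_map] at this
      simp only [Walk.length_cons]
      omega

lemma exists_shift (l : ℕ) : ∀ k : ℕ, ∃ (V : Type) (_ : Fintype V) (D : V → V → Prop) (rk : V → ℕ),
    (∀ u v, D u v → rk u < rk v) ∧ OG (fromRel D) (2 * l) ∧ ¬ (fromRel D).Colorable k := by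
  classical
  induction l with
  | zero =>
    intro k
    refine ⟨Fin (k + 1), inferInstance, fun u v => u < v, fun u => u.1, fun u v h => h,
      fun _ _ _ => Nat.zero_le _, ?_⟩
    rw [colorable_iff]
    rintro ⟨c, hc⟩
    have : Function.Injective c := by
      intro u v huv
      by_contra hne
      exact hc u v (by rw [fromRel_adj]; exact ⟨hne, lt_or_gt_of_ne hne⟩) huv
    have := Fintype.card_le_of_injective c this
    simp at this
  | succ l ih =>
    intro k
    obtain ⟨V, _, D, rk, hrk, hog, hcol⟩ := ih (2 ^ k)
    refine ⟨V × V, inferInstance, fun e f => D e.1 e.2 ∧ D f.1 f.2 ∧ e.2 = f.1, fun e => rk e.1,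
      ?_, arc_step rk hrk hog, ?_⟩
    · rintro e f ⟨h1, -, h3⟩
      show rk e.1 < rk f.1
      rw [← h3]; exact hrk _ _ h1
    · rw [colorable_iff]
      rintro ⟨c, hc⟩
      apply hcol
      have key : ∀ u v, D u v → (Finset.univ.filter (fun x => ∃ w, D u w ∧ c (u, w) = x)) ≠
          (Finset.univ.filter (fun x => ∃ w, D v w ∧ c (v, w) = x)) := by
        intro u v huv heq
        have : c (u, v) ∈ (Finset.univ.filter (fun x => ∃ w, D u w ∧ c (u, w) = x)) := by
          simp only [Finset.mem_filter, Finset.mem_univ, true_and]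
          exact ⟨v, huv, rfl⟩
        rw [heq] at this
        simp only [Finset.mem_filter, Finset.mem_univ, true_and] at this
        obtain ⟨w, hw, hcw⟩ := this
        refine hc (u, v) (v, w) ?_ hcw.symm
        rw [fromRel_adj]
        refine ⟨fun hh => ?_, Or.inl ⟨huv, hw, rfl⟩⟩
        have := hrk _ _ huv
        rw [(Prod.mk.inj hh).1] at this
        omega
      have C : (fromRel D).Coloring (Finset (Fin k)) :=
        Coloring.mk (fun u => Finset.univ.filter (fun x => ∃ w, D u w ∧ c (u, w) = x)) (by
          intro u v huv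
          rw [fromRel_adj] at huv
          rcases huv.2 with h | h
          · exact key u v h
          · exact (key v u h).symm)
      simpa using C.colorable

lemma exists_critical [Fintype V] (G : SimpleGraph V) (k : ℕ) (h : ¬ G.Colorable k) :
    ∃ G' : SimpleGraph V, G' ≤ G ∧ ¬ G'.Colorable k ∧
      ∀ e ∈ G'.edgeSet, (G'.deleteEdges {e}).Colorable k := by
  classical
  obtain ⟨G', hG', hmin⟩ := exists_minimal_of_wellFoundedLT (fun H : SimpleGraph V => H ≤ G ∧ ¬ H.Colorable k)
    ⟨G, le_rfl, h⟩
  refine ⟨G', hG'.1, hG'.2, ?_⟩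
  intro e he
  by_contra hc
  have h1 : G'.deleteEdges {e} ≤ G' := deleteEdges_le _
  have h2 := hmin ⟨h1.trans hG'.1, hc⟩ h1
  have := edgeSet_mono h2 he
  simp at this

end Pool.Agent.H13.OddGirth
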