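import Mathlib

set_option autoImplicit false

namespace Pool.Agent.H13.Pairing

/-- The bipartite graph with sides Fin (2n) and Fin m, given by the neighbourhoods N a of the
vertices a of the first side, has the pairing property. -/
def PairingProp (n m : ℕ) (N : Fin (2 * n) → Finset (Fin m)) : Prop :=
  ∀ e : Fin n × Bool ≃ Fin (2 * n), ∃ k : Fin n → Fin m, Function.Injective k ∧
    ∀ s, k s ∈ N (e (s, false)) ∧ k s ∈ N (e (s, true))

/-- lambda(n,m): least maximum degree on the first side among graphs with the pairing property. -/
noncomputable def lamNM (n m : ℕ) : ℕ :=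
  sInf {r : ℕ | ∃ N : Fin (2 * n) → Finset (Fin m), PairingProp n m N ∧
    Finset.univ.sup (fun a => (N a).card) = r}

/-- lambda(n): least value of lambda(n,m) over m ≥ n. -/
noncomputable def lam (n : ℕ) : ℕ := sInf {r : ℕ | ∃ m, n ≤ m ∧ lamNM n m = r}

end Pool.Agent.H13.Pairing
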