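import Mathlib

set_option autoImplicit false
set_option linter.unusedSectionVars false

namespace Pool.Agent.H13.Pairing

open Finset

section bern
variable {U : Type} [Fintype U] [DecidableEq U]

noncomputable def wt (p : U → ℝ) (Z : Finset U) : ℝ := (∏ a ∈ Z, p a) * ∏ a ∈ Zᶜ, (1 - p a)

lemma wt_nonneg {p : U → ℝ} (h0 : ∀ a, 0 ≤ p a) (h1 : ∀ a, p a ≤ 1) (Z : Finset U) : 0 ≤ wt p Z :=
  mul_nonneg (prod_nonneg fun a _ => h0 a) (prod_nonneg fun a _ => sub_nonneg.2 (h1 a))

lemma sum_wt_ind (p : U → ℝ) (S : Finset U) :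
    ∑ Z, wt p Z * (if S ⊆ Z then 1 else 0) = ∏ a ∈ S, p a := by
  have h := Fintype.prod_add p (fun a => if a ∈ S then 0 else 1 - p a)
  have e1 : ∏ a, (p a + if a ∈ S then 0 else 1 - p a) = ∏ a ∈ S, p a := by
    rw [← prod_ite_mem_eq S p]
    refine prod_congr rfl fun a _ => ?_
    split_ifs <;> ring
  rw [← e1, h]
  refine sum_congr rfl fun Z _ => ?_
  split_ifs with hS
  · rw [mul_one, wt]
    congr 1
    refine prod_congr rfl fun a ha => ?_
    rw [if_neg fun h => (mem_compl.1 ha) (hS h)]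
  · obtain ⟨a, ha, haZ⟩ := not_subset.1 hS
    rw [mul_zero, prod_eq_zero (f := fun a => if a ∈ S then 0 else 1 - p a) (mem_compl.2 haZ)
      (if_pos ha), mul_zero]

end bern

variable {I B : Type} [Fintype I] [DecidableEq I] [Fintype B] [DecidableEq B]

def Shr (e f : I × I) : Prop := f ≠ e ∧ (f.1 = e.1 ∨ f.2 = e.2)

instance (e f : I × I) : Decidable (Shr e f) := by unfold Shr; infer_instance

lemma matching_le (N1 N2 : I → Finset B)
    (hP : ∀ τ : Equiv.Perm I, ∃ k : I → B, Function.Injective k ∧ ∀ i, k i ∈ N1 i ∧ k i ∈ N2 (τ i))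
    (F : Finset (I × I)) (Y : Finset B) (hF : ∀ e ∈ F, N1 e.1 ∩ N2 e.2 ⊆ Y) :
    #F ≤ #Y + ∑ e ∈ F, #(F.filter (Shr e)) := by
  let M := F.filter (fun e => F.filter (Shr e) = ∅)
  have hM : ∀ e ∈ M, ∀ f ∈ M, f.1 = e.1 ∨ f.2 = e.2 → f = e := by
    intro e he f hf h
    by_contra hne
    have := filter_eq_empty_iff.1 (mem_filter.1 he).2 (mem_filter.1 hf).1
    exact this ⟨hne, h⟩
  obtain ⟨τ, hτ⟩ := Equiv.Perm.exists_extending_pair (fun e : M => e.1.1) (fun e : M => e.1.2)
    (fun a b h => Subtype.ext (hM _ b.2 _ a.2 (Or.inl h)))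
    (fun a b h => Subtype.ext (hM _ b.2 _ a.2 (Or.inr h)))
  obtain ⟨k, hk, hk2⟩ := hP τ
  have h1 : #M ≤ #Y := by
    refine card_le_card_of_injOn (fun e => k e.1) (fun e he => ?_) (fun a ha b hb h => ?_)
    · refine hF e (mem_filter.1 he).1 (mem_inter.2 ⟨(hk2 _).1, ?_⟩)
      have := (hk2 e.1).2
      rwa [hτ ⟨e, he⟩] at this
    · exact hM _ hb _ ha (Or.inl (hk h))
  have h2 := card_filter_add_card_filter_not (s := F) (fun e => F.filter (Shr e) = ∅)
  have h3 : #(F.filter (fun e => ¬ F.filter (Shr e) = ∅)) ≤ ∑ e ∈ F, #(F.filter (Shr e)) := by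
    rw [card_filter]
    refine sum_le_sum fun e _ => ?_
    split_ifs with h
    · omega
    · exact card_pos.2 (nonempty_iff_ne_empty.2 h)
  simp only [M] at h1
  omega

lemma first_moment (N1 N2 : I → Finset B)
    (hP : ∀ τ : Equiv.Perm I, ∃ k : I → B, Function.Injective k ∧ ∀ i, k i ∈ N1 i ∧ k i ∈ N2 (τ i))
    (π : B → ℝ) (q : I × I → ℝ) (h0 : ∀ b, 0 ≤ π b) (h1 : ∀ b, π b ≤ 1) (h2 : ∀ e, 0 ≤ q e)
    (h3 : ∀ e, q e ≤ 1) (B' : Finset B) (hB : ∀ i, N1 i ⊆ B') :
    ∑ e : I × I, (∏ b ∈ N1 e.1 ∩ N2 e.2, π b) * q e ≤ ∑ b ∈ B', π b +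
      ∑ e : I × I, ∑ f ∈ univ.filter (Shr e),
        (∏ b ∈ (N1 e.1 ∩ N2 e.2) ∪ (N1 f.1 ∩ N2 f.2), π b) * (q e * q f) := by
  let p : B ⊕ I × I → ℝ := Sum.elim π q
  let C : I × I → Finset B := fun e => N1 e.1 ∩ N2 e.2
  have key : ∀ Z : Finset (B ⊕ I × I),
      ∑ e : I × I, (if (C e).disjSum {e} ⊆ Z then (1 : ℝ) else 0) ≤
      ∑ b ∈ B', (if ({b} : Finset B).disjSum ∅ ⊆ Z then (1 : ℝ) else 0) +
      ∑ e : I × I, ∑ f ∈ univ.filter (Shr e),
        (if (C e ∪ C f).disjSum {e, f} ⊆ Z then (1 : ℝ) else 0) := by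
    intro Z
    have := matching_le N1 N2 hP (univ.filter (fun e => (C e).disjSum {e} ⊆ Z))
      (B'.filter (fun b => ({b} : Finset B).disjSum ∅ ⊆ Z)) (by
        intro e he b hb
        simp only [mem_filter, mem_univ, true_and, disjSum_subset] at he ⊢
        exact ⟨hB _ (mem_inter.1 hb).1, by simpa using he.1 hb, by simp⟩)
    simp only [sum_boole]
    norm_cast
    refine this.trans (Nat.add_le_add_left ?_ _)
    rw [sum_filter]
    refine sum_le_sum fun e _ => ?_
    split_ifs with h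
    · apply card_le_card
      intro f hf
      simp only [mem_filter, mem_univ, true_and, disjSum_subset] at hf h ⊢
      exact ⟨hf.2, union_subset h.1 hf.1.1, insert_subset (by simpa using h.2) hf.1.2⟩
    · omega
  have hs := sum_le_sum (s := univ) fun Z _ => mul_le_mul_of_nonneg_left (key Z)
    (wt_nonneg (p := p) (by rintro (a | a); exacts [h0 a, h2 a]) (by rintro (a | a); exacts [h1 a, h3 a]) Z)
  simp only [mul_add, mul_sum, sum_add_distrib] at hs
  rw [sum_comm, sum_comm (t := B'), sum_comm (t := (univ : Finset (I × I)))] at hs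
  simp only [sum_wt_ind] at hs
  refine le_trans (le_of_eq ?_) (hs.trans (le_of_eq ?_))
  · simp [prod_disjSum, p, C]
  · congr 1
    · simp [p]
    · refine sum_congr rfl fun e _ => ?_
      rw [sum_comm]
      refine sum_congr rfl fun f hf => ?_
      rw [sum_wt_ind, prod_disjSum, prod_pair (mem_filter.1 hf).2.1.symm]
      rfl

lemma sum_inter (N : I → Finset B) (S : Finset B) (l : B → ℝ) :
    ∑ j, ∑ b ∈ S ∩ N j, l b = ∑ b ∈ S, l b * #(univ.filter (fun j => b ∈ N j)) := by
  simp only [← sum_ite_mem]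
  rw [sum_comm]
  refine sum_congr rfl fun b _ => ?_
  rw [← sum_filter]; simp [mul_comm]

lemma le_of_sq_le_sq_aux (a b : ℝ) (hb : 0 ≤ b) (h : a ^ 2 ≤ b ^ 2) : a ≤ b :=
  le_trans (le_abs_self a) (abs_le_of_sq_le_sq' h hb |> fun h => abs_le.2 h)

theorem lower (N1 N2 : I → Finset B)
    (hP : ∀ τ : Equiv.Perm I, ∃ k : I → B, Function.Injective k ∧ ∀ i, k i ∈ N1 i ∧ k i ∈ N2 (τ i))
    (R L : ℝ) (hR : 0 < R) (hL : 150 ≤ L) (hn : (Fintype.card I : ℝ) = Real.exp L)
    (hRL : R ^ 2 = Real.exp L * L / 400) (d1 : ∀ i, (#(N1 i) : ℝ) ≤ R) (d2 : ∀ i, (#(N2 i) : ℝ) ≤ R) :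
    False := by
  set n : ℝ := Real.exp L with hndef
  have hn0 : 0 < n := Real.exp_pos L
  let a1 : B → ℝ := fun b => #(univ.filter (fun j => b ∈ N1 j))
  let a2 : B → ℝ := fun b => #(univ.filter (fun j => b ∈ N2 j))
  have a10 : ∀ b, 0 ≤ a1 b := fun b => Nat.cast_nonneg _
  have a20 : ∀ b, 0 ≤ a2 b := fun b => Nat.cast_nonneg _
  let l : B → ℝ := fun b => max 0 (Real.log (50 * R / (a1 b + a2 b)))
  have l0 : ∀ b, 0 ≤ l b := fun b => le_max_left _ _
  have hl : ∀ b, l b * (a1 b + a2 b) ≤ 50 * R ∧ l b * (a1 b + a2 b) ≤ l b * (50 * R) := by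
    intro b
    have := a10 b; have := a20 b
    rcases eq_or_lt_of_le (show 0 ≤ a1 b + a2 b by positivity) with h | h
    · rw [← h]; have := l0 b; constructor <;> simp <;> positivity
    · rcases le_total (Real.log (50 * R / (a1 b + a2 b))) 0 with h1 | h1
      · simp only [l, max_eq_left h1]; constructor <;> simp; positivity
      · have h2 := Real.log_le_sub_one_of_pos (show 0 < 50 * R / (a1 b + a2 b) by positivity)
        have h3 : 1 ≤ 50 * R / (a1 b + a2 b) := by linarith
        rw [le_div_iff₀ h] at h3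
        refine ⟨?_, mul_le_mul_of_nonneg_left (by linarith) (l0 b)⟩
        simp only [l, max_eq_right h1]
        have h4 := mul_le_mul_of_nonneg_right h2 h.le
        rw [sub_mul, div_mul_cancel₀ _ h.ne'] at h4
        linarith
  let w : I × I → ℝ := fun e => ∑ b ∈ N1 e.1 ∩ N2 e.2, l b
  have w0 : ∀ e, 0 ≤ w e := fun e => sum_nonneg fun b _ => l0 b
  let G : Finset (I × I) := univ.filter (fun e => w e ≤ L / 4)
  have hG : n ^ 2 / 2 ≤ #G := by
    have e1 : ∑ e, w e ≤ n * (R * (50 * R)) := by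
      rw [Fintype.sum_prod_type, ← hn, ← card_univ, ← nsmul_eq_mul, ← sum_const]
      refine sum_le_sum fun i _ => ?_
      simp only [w]
      rw [sum_inter]
      calc _ ≤ ∑ b ∈ N1 i, 50 * R := sum_le_sum fun b _ => by
            have := (hl b).1; have := mul_nonneg (l0 b) (a10 b); simp only [a2] at *; nlinarith
        _ ≤ _ := by rw [sum_const, nsmul_eq_mul]; exact mul_le_mul_of_nonneg_right (d1 i) (by positivity)
    have e2 : ∑ e : I × I, (if w e ≤ L / 4 then 0 else L / 4) ≤ ∑ e, w e :=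
      sum_le_sum fun e _ => by split_ifs with h; exacts [w0 e, by linarith]
    have e3 : ∑ e : I × I, (if w e ≤ L / 4 then 0 else L / 4) = (n ^ 2 - #G) * (L / 4) := by
      have : (n ^ 2 - #G) * (L / 4) = ∑ e : I × I, (L / 4 - if w e ≤ L / 4 then L / 4 else 0) := by
        rw [sum_sub_distrib, ← sum_filter]
        simp only [sum_const, card_univ, Fintype.card_prod, nsmul_eq_mul, Nat.cast_mul, hn, G]
        ring
      rw [this]
      exact sum_congr rfl fun e _ => by split_ifs <;> ring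
    have e4 : (n ^ 2 - #G) * (L / 4) ≤ (n ^ 2 / 2) * (L / 4) := by nlinarith
    have := le_of_mul_le_mul_right e4 (by linarith)
    linarith
  set t := Real.exp (L / 4) with ht
  have ht0 : 0 < t := Real.exp_pos _
  have ht4 : n = t ^ 4 := by
    rw [ht, ← Real.exp_nat_mul, hndef]; exact congrArg Real.exp (by push_cast; ring)
  have htn : t ≤ n := Real.exp_le_exp.2 (by linarith)
  have hbig : t * (50 * R * (L / 4)) ≤ n := by
    have h1 : (L / 2) ^ 4 / 24 ≤ t ^ 2 := by
      have := Real.pow_div_factorial_le_exp (L / 2) (by linarith) 4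
      rw [ht, ← Real.exp_nat_mul]
      norm_num [Nat.factorial] at this ⊢
      rwa [show 2 * (L / 4) = L / 2 by ring]
    apply le_of_sq_le_sq_aux _ _ hn0.le
    have h2 : (t * (50 * R * (L / 4))) ^ 2 = t ^ 6 * (25 / 64 * L ^ 3) := by
      rw [mul_pow, mul_pow, mul_pow, hRL, ht4]; ring
    have h3 : 25 / 64 * L ^ 3 ≤ t ^ 2 := by
      have : 0 ≤ L ^ 3 := by positivity
      nlinarith
    rw [h2, ht4]
    have : 0 ≤ t ^ 6 := by positivity
    nlinarith
  let q : I × I → ℝ := fun e => if w e ≤ L / 4 then Real.exp (w e) / (6 * n) else 0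
  have fm := first_moment N1 N2 hP (fun b => Real.exp (-l b)) q (fun b => (Real.exp_pos _).le)
    (fun b => Real.exp_le_one_iff.2 (by linarith [l0 b]))
    (fun e => by simp only [q]; split_ifs <;> positivity)
    (fun e => by
      simp only [q]; split_ifs with h
      · rw [div_le_one (by positivity)]
        have := Real.exp_le_exp.2 h
        linarith
      · norm_num)
    (univ.filter (fun b => 0 < a1 b + a2 b)) (fun i b hb => by
      have : 0 < a1 b := by
        simp only [a1]; exact_mod_cast card_pos.2 ⟨i, by simpa using hb⟩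
      have := a20 b
      simp only [mem_filter, mem_univ, true_and]; linarith)
  simp only [← Real.exp_sum, sum_neg_distrib] at fm
  have s1 : ∑ e : I × I, Real.exp (-∑ b ∈ N1 e.1 ∩ N2 e.2, l b) * q e = #G / (6 * n) := by
    rw [card_filter]; push_cast; rw [sum_div]
    refine sum_congr rfl fun e _ => ?_
    simp only [q]
    split_ifs
    · rw [mul_div_assoc', ← Real.exp_add]; simp [w]
    · simp
  have s2 : ∑ b ∈ univ.filter (fun b => 0 < a1 b + a2 b), Real.exp (-l b) ≤ n / 25 := by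
    have c : ∀ N : I → Finset B, (∀ i, (#(N i) : ℝ) ≤ R) →
        ∑ b, (#(univ.filter (fun j => b ∈ N j)) : ℝ) ≤ n * R := by
      intro N hN
      have := sum_inter N univ (fun _ => 1)
      simp only [univ_inter, sum_const, nsmul_eq_mul, mul_one, one_mul] at this
      rw [← this, ← hn, ← card_univ, ← nsmul_eq_mul, ← sum_const]
      exact sum_le_sum fun i _ => hN i
    calc _ ≤ ∑ b ∈ univ.filter (fun b => 0 < a1 b + a2 b), (a1 b + a2 b) / (50 * R) := by
          refine sum_le_sum fun b hb => ?_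
          have hb := (mem_filter.1 hb).2
          calc _ ≤ Real.exp (-Real.log (50 * R / (a1 b + a2 b))) :=
                Real.exp_le_exp.2 (neg_le_neg (le_max_right _ _))
            _ = _ := by rw [Real.exp_neg, Real.exp_log (by positivity), inv_div]
      _ ≤ ∑ b, (a1 b + a2 b) / (50 * R) := sum_le_sum_of_subset_of_nonneg (filter_subset _ _)
          (fun b _ _ => by have := a10 b; have := a20 b; positivity)
      _ ≤ _ := by
          rw [← sum_div, sum_add_distrib, div_le_iff₀ (by positivity)]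
          have := c N1 d1; have := c N2 d2
          simp only [a1, a2]; linarith
  have s3 : ∑ e : I × I, ∑ f ∈ univ.filter (Shr e),
      Real.exp (-∑ b ∈ (N1 e.1 ∩ N2 e.2) ∪ (N1 f.1 ∩ N2 f.2), l b) * (q e * q f) ≤ #G / (12 * n) := by
    rw [card_filter]; push_cast; rw [sum_div]
    refine sum_le_sum fun e _ => ?_
    split_ifs with he
    swap
    · simp [q, he]
    let v : I × I → ℝ := fun f => ∑ b ∈ (N1 e.1 ∩ N2 e.2) ∩ (N1 f.1 ∩ N2 f.2), l b
    have v0 : ∀ f, 0 ≤ v f := fun f => sum_nonneg fun b _ => l0 b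
    have hv : ∀ f, Real.exp (-∑ b ∈ (N1 e.1 ∩ N2 e.2) ∪ (N1 f.1 ∩ N2 f.2), l b) * (q e * q f) ≤
        (1 + t * v f) / (6 * n) ^ 2 := by
      intro f
      have := v0 f
      simp only [q, he, if_true]
      split_ifs
      swap
      · simp only [mul_zero]; positivity
      have e1 := sum_union_inter (s₁ := N1 e.1 ∩ N2 e.2) (s₂ := N1 f.1 ∩ N2 f.2) (f := l)
      rw [div_mul_div_comm, mul_div_assoc', ← Real.exp_add, ← Real.exp_add, ← sq]
      apply div_le_div_of_nonneg_right _ (by positivity)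
      have e2 : -∑ b ∈ (N1 e.1 ∩ N2 e.2) ∪ (N1 f.1 ∩ N2 f.2), l b + (w e + w f) = v f := by
        simp only [w, v]; linarith
      rw [e2]
      have e3 : v f ≤ L / 4 := le_trans (sum_le_sum_of_subset_of_nonneg inter_subset_left
        fun b _ _ => l0 b) he
      have e4 := Real.exp_le_exp.2 e3
      have e5 := Real.add_one_le_exp (-v f)
      have e6 : Real.exp (v f) * Real.exp (-v f) = 1 := by rw [← Real.exp_add]; simp
      nlinarith [Real.exp_pos (v f)]
    have hnn : ∀ f, 0 ≤ (1 + t * v f) / (6 * n) ^ 2 := fun f => by have := v0 f; positivity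
    have u1 : ∑ j, v (e.1, j) ≤ ∑ b ∈ N1 e.1 ∩ N2 e.2, l b * a2 b := by
      rw [← sum_inter]
      exact sum_le_sum fun j _ => sum_le_sum_of_subset_of_nonneg
        (inter_subset_inter_left inter_subset_right) fun b _ _ => l0 b
    have u2 : ∑ i, v (i, e.2) ≤ ∑ b ∈ N1 e.1 ∩ N2 e.2, l b * a1 b := by
      rw [← sum_inter]
      exact sum_le_sum fun j _ => sum_le_sum_of_subset_of_nonneg
        (inter_subset_inter_left inter_subset_left) fun b _ _ => l0 b
    have u3 : ∑ b ∈ N1 e.1 ∩ N2 e.2, l b * a1 b + ∑ b ∈ N1 e.1 ∩ N2 e.2, l b * a2 b ≤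
        50 * R * (L / 4) := by
      rw [← sum_add_distrib]
      calc _ ≤ ∑ b ∈ N1 e.1 ∩ N2 e.2, l b * (50 * R) :=
            sum_le_sum fun b _ => by have := (hl b).2; linarith
        _ = w e * (50 * R) := by rw [← sum_mul]
        _ ≤ _ := by nlinarith
    calc _ ≤ ∑ f ∈ univ.filter (Shr e), (1 + t * v f) / (6 * n) ^ 2 := sum_le_sum fun f _ => hv f
      _ ≤ ∑ f ∈ univ.image (fun j => (e.1, j)) ∪ univ.image (fun i => (i, e.2)),
          (1 + t * v f) / (6 * n) ^ 2 := by
          refine sum_le_sum_of_subset_of_nonneg (fun f hf => ?_) fun f _ _ => hnn f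
          rcases (mem_filter.1 hf).2.2 with h | h
          · exact mem_union_left _ (mem_image.2 ⟨f.2, mem_univ _, by rw [← h]⟩)
          · exact mem_union_right _ (mem_image.2 ⟨f.1, mem_univ _, by rw [← h]⟩)
      _ ≤ ∑ j, (1 + t * v (e.1, j)) / (6 * n) ^ 2 + ∑ i, (1 + t * v (i, e.2)) / (6 * n) ^ 2 := by
          rw [← sum_image (g := fun j => (e.1, j)) (f := fun f => (1 + t * v f) / (6 * n) ^ 2)
            (fun a _ b _ h => (Prod.ext_iff.1 h).2),
            ← sum_image (g := fun i => (i, e.2)) (f := fun f => (1 + t * v f) / (6 * n) ^ 2)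
            (fun a _ b _ h => (Prod.ext_iff.1 h).1), ← sum_union_inter]
          exact le_add_of_nonneg_right (sum_nonneg fun f _ => hnn f)
      _ ≤ 1 / (12 * n) := by
          rw [← sum_div, ← sum_div, ← add_div, sum_add_distrib, sum_add_distrib, ← mul_sum,
            ← mul_sum, div_le_div_iff₀ (by positivity) (by positivity)]
          simp only [sum_const, card_univ, nsmul_eq_mul, hn]
          have : t * ∑ j, v (e.1, j) + t * ∑ i, v (i, e.2) ≤ n := by nlinarith
          nlinarith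
  rw [s1] at fm
  have f1 : (#G : ℝ) / (6 * n) = 2 * (#G / (12 * n)) := by field_simp; ring
  have f2 : n / 24 ≤ #G / (12 * n) := by rw [le_div_iff₀ (by positivity)]; nlinarith
  linarith

end Pool.Agent.H13.Pairing
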