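import Pool.Agent.H13.PairLow
import Pool.Agent.H13.PairDefs

set_option autoImplicit false
set_option linter.unusedSectionVars false

namespace Pool.Agent.H13.Pairing

open Finset

lemma restrict {J A X : Type} [Fintype J] [Fintype A] [Fintype X] [DecidableEq J] [DecidableEq A]
    (ι : J → A) (hι : Function.Injective ι) (F : (J → X) → ℝ) :
    (∑ χ : A → X, F (χ ∘ ι)) * Fintype.card (J → X) = Fintype.card (A → X) * ∑ ψ, F ψ := by
  classical
  let R := {a // ¬ a ∈ Set.range ι}
  let e : J ⊕ R ≃ A := ((Equiv.ofInjective ι hι).sumCongr (Equiv.refl R)).trans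
    (Equiv.sumCompl (· ∈ Set.range ι))
  let E : (J → X) × (R → X) ≃ (A → X) :=
    (Equiv.sumArrowEquivProdArrow J R X).symm.trans (e.arrowCongr (Equiv.refl X))
  have hE : ∀ p, E p ∘ ι = p.1 := by
    intro p
    funext j
    have : e.symm (ι j) = .inl j := by rw [Equiv.symm_apply_eq]; rfl
    simp only [E, Function.comp, Equiv.trans_apply, Equiv.arrowCongr_apply, this]
    rfl
  rw [← E.sum_comp, ← Fintype.card_congr E]
  simp only [hE, Fintype.sum_prod_type, sum_const, card_univ, nsmul_eq_mul, Fintype.card_prod]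
  rw [← mul_sum]
  push_cast
  ring

lemma block {r q l : ℕ} (hq : 0 < q) (Y : Finset (Fin r × Fin q)) :
    ∑ ψ : Fin l × Bool → Fin r → Fin q, (if ∀ s i, ψ (s, false) i = ψ (s, true) i →
      (i, ψ (s, false) i) ∈ Y then (1 : ℝ) else 0) ≤
      Fintype.card (Fin l × Bool → Fin r → Fin q) * Real.exp (-(l * ((r * q - #Y) / q ^ 2))) := by
  let E : (Fin l × Fin r → Fin q × Fin q) ≃ (Fin l × Bool → Fin r → Fin q) :=
    { toFun := fun φ p i => if p.2 then (φ (p.1, i)).2 else (φ (p.1, i)).1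
      invFun := fun ψ p => (ψ (p.1, false) p.2, ψ (p.1, true) p.2)
      left_inv := fun φ => by funext p; simp
      right_inv := fun ψ => by funext ⟨s, b⟩ i; cases b <;> simp }
  rw [← E.sum_comp, ← Fintype.card_congr E]
  have h1 := prod_univ_sum (R := ℝ) (fun _ : Fin l × Fin r => (univ : Finset (Fin q × Fin q)))
    (fun p z => if z.1 = z.2 → (p.2, z.1) ∈ Y then 1 else 0)
  rw [Fintype.piFinset_univ] at h1
  have hq' : (0 : ℝ) < q := by exact_mod_cast hq
  let y : Fin r → ℝ := fun i => #(univ.filter (fun x => (i, x) ∈ Y))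
  have hy : ∑ i, y i = #Y := by
    simp only [y, card_filter]
    push_cast
    rw [← Fintype.sum_prod_type (f := fun p : Fin r × Fin q => if p ∈ Y then (1 : ℝ) else 0)]
    simp
  calc _ = ∏ p : Fin l × Fin r, ∑ z : Fin q × Fin q,
        (if z.1 = z.2 → (p.2, z.1) ∈ Y then (1 : ℝ) else 0) := by
        rw [h1]
        refine sum_congr rfl fun φ _ => ?_
        rw [prod_boole]
        simp [E]
    _ ≤ ∏ p : Fin l × Fin r, (q : ℝ) ^ 2 * Real.exp (-((q - y p.2) / q ^ 2)) := by
        refine prod_le_prod (fun p _ => sum_nonneg fun z _ => by split_ifs <;> norm_num) fun p _ => ?_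
        have e1 : ∑ z : Fin q × Fin q, (if z.1 = z.2 → (p.2, z.1) ∈ Y then (1 : ℝ) else 0) =
            q ^ 2 - q + y p.2 := by
          have : ∀ z : Fin q × Fin q, (if z.1 = z.2 → (p.2, z.1) ∈ Y then (1 : ℝ) else 0) =
              1 - (if z.1 = z.2 then 1 else 0) +
                (if z.1 = z.2 then (if (p.2, z.1) ∈ Y then 1 else 0) else 0) := by
            intro z
            by_cases h1 : z.1 = z.2 <;> by_cases h2 : (p.2, z.1) ∈ Y <;> simp [h1, h2]
          simp only [this, sum_add_distrib, sum_sub_distrib, Fintype.sum_prod_type, sum_ite_eq,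
            mem_univ, if_true]
          simp [y, sq]
        rw [e1]
        have := Real.add_one_le_exp (-((q - y p.2) / q ^ 2))
        have h2 := mul_le_mul_of_nonneg_left this (show (0 : ℝ) ≤ q ^ 2 by positivity)
        refine le_trans (le_of_eq ?_) h2
        field_simp
        ring
    _ = _ := by
        rw [prod_mul_distrib, ← Real.exp_sum, Fintype.sum_prod_type]
        congr 1
        · simp [sq]
        · congr 1
          simp only [sum_neg_distrib, ← sum_div, sum_sub_distrib, hy, sum_const, card_univ,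
            Fintype.card_fin, nsmul_eq_mul]
          ring

lemma exists_good (n r q : ℕ) (hq : 0 < q) (hr : 0 < r)
    (h : (2 * n * (2 * n * (r * q)) : ℝ) * Real.exp (-((r * q - n) / q ^ 2)) ≤ 1 / (n + 1)) :
    ∃ χ : Fin (2 * n) → Fin r → Fin q, ∀ e : Fin n × Bool ≃ Fin (2 * n),
      ∃ k : Fin n → Fin r × Fin q, Function.Injective k ∧
        ∀ s, χ (e (s, false)) (k s).1 = (k s).2 ∧ χ (e (s, true)) (k s).1 = (k s).2 := by
  classical
  by_contra hcon
  push Not at hcon
  have : Nonempty (Fin r × Fin q) := ⟨(⟨0, hr⟩, ⟨0, hq⟩)⟩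
  have : Nonempty (Fin q) := ⟨⟨0, hq⟩⟩
  let ι : ∀ l, (Fin l → Fin (2 * n) × Fin (2 * n) × (Fin r × Fin q)) → Fin l × Bool → Fin (2 * n) :=
    fun l σ p => if p.2 then (σ p.1).2.1 else (σ p.1).1
  let F : ∀ l, (Fin l → Fin (2 * n) × Fin (2 * n) × (Fin r × Fin q)) →
      (Fin l × Bool → Fin r → Fin q) → ℝ := fun l σ ψ =>
    if ∀ s i, ψ (s, false) i = ψ (s, true) i →
      (i, ψ (s, false) i) ∈ univ.image (fun s => (σ s).2.2) then 1 else 0
  have F0 : ∀ l σ ψ, 0 ≤ F l σ ψ := fun l σ ψ => by simp only [F]; split_ifs <;> norm_num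
  have key : ∀ χ : Fin (2 * n) → Fin r → Fin q, (1 : ℝ) ≤ ∑ l ∈ Icc 1 n, ∑ σ,
      if Function.Injective (ι l σ) then F l σ (χ ∘ ι l σ) else 0 := by
    intro χ
    obtain ⟨e, he⟩ := hcon χ
    let t : Fin n → Finset (Fin r × Fin q) := fun s =>
      univ.filter (fun b => χ (e (s, false)) b.1 = b.2 ∧ χ (e (s, true)) b.1 = b.2)
    have : ¬ ∀ S : Finset (Fin n), #S ≤ #(S.biUnion t) := by
      rw [all_card_le_biUnion_card_iff_exists_injective]
      rintro ⟨k, hk, hk2⟩
      obtain ⟨s, hs⟩ := he k hk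
      have := (mem_filter.1 (hk2 s)).2
      exact hs this.1 this.2
    push Not at this
    obtain ⟨S, hS⟩ := this
    obtain ⟨g⟩ : Nonempty (S.biUnion t ↪ Fin #S) :=
      Function.Embedding.nonempty_of_card_le (by rw [Fintype.card_coe, Fintype.card_fin]; exact hS.le)
    let y : Fin #S → Fin r × Fin q := Function.extend g Subtype.val (fun _ => Classical.arbitrary _)
    let u := S.orderEmbOfFin rfl
    let σ : Fin #S → Fin (2 * n) × Fin (2 * n) × (Fin r × Fin q) :=
      fun j => (e (u j, false), e (u j, true), y j)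
    have hσ : ι _ σ = fun p => e (u p.1, p.2) := by
      funext ⟨j, b⟩; cases b <;> rfl
    have hinj : Function.Injective (ι _ σ) := by
      rw [hσ]
      rintro ⟨a, b⟩ ⟨c, d⟩ h
      simpa using h
    have hF : F _ σ (χ ∘ ι _ σ) = 1 := by
      refine if_pos fun s i hi => ?_
      rw [hσ] at hi ⊢
      have hm : (i, χ (e (u s, false)) i) ∈ S.biUnion t :=
        mem_biUnion.2 ⟨u s, orderEmbOfFin_mem _ _ _, mem_filter.2 ⟨mem_univ _, rfl, hi.symm⟩⟩
      exact mem_image.2 ⟨g ⟨_, hm⟩, mem_univ _,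
        g.injective.extend_apply Subtype.val (fun _ => Classical.arbitrary _) ⟨_, hm⟩⟩
    have nn : ∀ l σ, 0 ≤ if Function.Injective (ι l σ) then F l σ (χ ∘ ι l σ) else 0 :=
      fun l σ => by split_ifs; exacts [F0 _ _ _, le_rfl]
    refine le_trans ?_ (single_le_sum (f := fun l => ∑ σ,
      if Function.Injective (ι l σ) then F l σ (χ ∘ ι l σ) else 0)
      (fun l _ => sum_nonneg fun σ _ => nn l σ)
      (mem_Icc.2 ⟨show 1 ≤ #S by omega, by simpa using card_le_univ S⟩))
    refine le_trans ?_ (single_le_sum (fun σ _ => nn _ σ) (mem_univ σ))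
    rw [if_pos hinj, hF]
  have hs := sum_le_sum (s := univ) fun χ _ => key χ
  set Ω : ℝ := (Fintype.card (Fin (2 * n) → Fin r → Fin q) : ℝ) with hΩ
  have hΩ0 : 0 < Ω := by rw [hΩ]; exact_mod_cast Fintype.card_pos
  rw [sum_const, card_univ, nsmul_eq_mul, mul_one, sum_comm, ← hΩ] at hs
  have hl : ∀ l ∈ Icc 1 n, ∑ χ : Fin (2 * n) → Fin r → Fin q, ∑ σ,
      (if Function.Injective (ι l σ) then F l σ (χ ∘ ι l σ) else 0) ≤ Ω * (1 / (n + 1)) := by
    intro l hl
    rw [mem_Icc] at hl
    rw [sum_comm]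
    calc _ ≤ ∑ σ : Fin l → Fin (2 * n) × Fin (2 * n) × (Fin r × Fin q),
          Ω * Real.exp (-((r * q - n) / q ^ 2)) ^ l := by
          refine sum_le_sum fun σ _ => ?_
          split_ifs with hinj
          · have h1 := restrict _ hinj (F l σ)
            have h2 := block (l := l) hq (univ.image (fun s => (σ s).2.2))
            have h3 : (0 : ℝ) < Fintype.card (Fin l × Bool → Fin r → Fin q) := by
              exact_mod_cast Fintype.card_pos
            have h4 : (#(univ.image (fun s => (σ s).2.2)) : ℝ) ≤ n := by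
              exact_mod_cast card_image_le.trans (by simpa using hl.2)
            have h5 : Real.exp (-(l * ((r * q - #(univ.image (fun s => (σ s).2.2))) / q ^ 2))) ≤
                Real.exp (-((r * q - n) / q ^ 2)) ^ l := by
              rw [← Real.exp_nat_mul, Real.exp_le_exp, mul_neg, neg_le_neg_iff]
              gcongr
            apply le_of_mul_le_mul_right _ h3
            rw [h1, mul_assoc, mul_comm (_ ^ l)]
            exact mul_le_mul_of_nonneg_left (h2.trans (mul_le_mul_of_nonneg_left h5 h3.le)) hΩ0.le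
          · simp only [sum_const_zero]; positivity
      _ = Ω * ((2 * n * (2 * n * (r * q)) : ℝ) * Real.exp (-((r * q - n) / q ^ 2))) ^ l := by
          simp only [sum_const, card_univ, nsmul_eq_mul, Fintype.card_fun, Fintype.card_prod,
            Fintype.card_fin]
          push_cast
          rw [mul_pow _ (Real.exp _)]
          ring
      _ ≤ _ := by
          refine mul_le_mul_of_nonneg_left (le_trans ?_ h) hΩ0.le
          refine pow_le_of_le_one (by positivity) (h.trans ?_) (by omega)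
          rw [div_le_one (by positivity)]; linarith [Nat.cast_nonneg (α := ℝ) n]
  have h2 := hs.trans (sum_le_sum hl)
  rw [sum_const, Nat.card_Icc, nsmul_eq_mul, Nat.add_sub_cancel, ← mul_assoc, mul_one_div,
    le_div_iff₀ (by positivity)] at h2
  nlinarith

lemma lam_le (n r q : ℕ) (hq : 0 < q) (hr : 0 < r) (hn : n ≤ r * q)
    (h : (2 * n * (2 * n * (r * q)) : ℝ) * Real.exp (-((r * q - n) / q ^ 2)) ≤ 1 / (n + 1)) :
    lam n ≤ r := by
  obtain ⟨χ, hχ⟩ := exists_good n r q hq hr h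
  have h1 : lam n ≤ lamNM n (r * q) := Nat.sInf_le ⟨r * q, hn, rfl⟩
  refine h1.trans (le_trans (show lamNM n (r * q) ≤ univ.sup (fun a : Fin (2 * n) =>
    #(univ.image (fun i => finProdFinEquiv (i, χ a i)))) from Nat.sInf_le
    ⟨fun a => univ.image (fun i => finProdFinEquiv (i, χ a i)), fun e => ?_, rfl⟩) ?_)
  · obtain ⟨k, hk, hk2⟩ := hχ e
    exact ⟨fun s => finProdFinEquiv (k s), finProdFinEquiv.injective.comp hk, fun s =>
      ⟨mem_image.2 ⟨(k s).1, mem_univ _, by rw [(hk2 s).1]⟩,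
        mem_image.2 ⟨(k s).1, mem_univ _, by rw [(hk2 s).2]⟩⟩⟩
  · exact Finset.sup_le fun a _ => card_image_le.trans (by simp)

lemma upper (n : ℕ) (hL : 150 ≤ Real.log n) : (lam n : ℝ) ≤ 56 * Real.sqrt (n * Real.log n) := by
  set L := Real.log n with hLdef
  have hn0 : (0 : ℝ) < n := by
    rcases Nat.eq_zero_or_pos n with h | h
    · simp [h] at hLdef; linarith
    · exact_mod_cast h
  have hnL : L + 1 ≤ n := by have := Real.log_le_sub_one_of_pos hn0; linarith
  have hL0 : 0 < L := by linarith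
  set x := Real.sqrt (n / L) with hx
  have hx2 : x ^ 2 * L = n := by rw [hx, Real.sq_sqrt (by positivity)]; field_simp
  have hx1 : 1 ≤ x := by rw [hx, Real.one_le_sqrt, le_div_iff₀ hL0]; linarith
  have q1 := Nat.le_ceil x
  have q2 := (Nat.ceil_lt_add_one (by linarith : 0 ≤ x)).le
  have k1 := Nat.le_ceil L
  have k2 := (Nat.ceil_lt_add_one hL0.le).le
  have hq : 0 < ⌈x⌉₊ := Nat.ceil_pos.2 (by linarith)
  have hk : 0 < ⌈L⌉₊ := Nat.ceil_pos.2 hL0
  generalize ⌈x⌉₊ = q at *
  generalize ⌈L⌉₊ = k at *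
  have hq' : (0 : ℝ) < q := by exact_mod_cast hq
  have q3 : x ^ 2 ≤ (q : ℝ) ^ 2 := by gcongr
  have q4 : (q : ℝ) ^ 2 ≤ (2 * x) ^ 2 := by gcongr; linarith
  have m1 : (n : ℝ) ≤ q ^ 2 * L := by nlinarith
  have m2 : (q : ℝ) ^ 2 * k ≤ 8 * n := by
    have : (q : ℝ) ^ 2 * k ≤ (2 * x) ^ 2 * (2 * L) := by gcongr; linarith
    nlinarith
  have := lam_le n (14 * q * k) q hq (by positivity) (by
    have : (n : ℝ) ≤ 14 * q * k * q := by nlinarith
    exact_mod_cast this) (by
    push_cast
    have e1 : 13 * L ≤ (14 * q * k * q - n) / (q : ℝ) ^ 2 := by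
      rw [le_div_iff₀ (by positivity)]; nlinarith
    have e2 : Real.exp (-((14 * q * k * q - n) / (q : ℝ) ^ 2)) ≤ 1 / (n : ℝ) ^ 13 := by
      refine (Real.exp_le_exp.2 (neg_le_neg e1)).trans (le_of_eq ?_)
      rw [Real.exp_neg, one_div, show (13 : ℝ) * L = (13 : ℕ) * L by norm_num, Real.exp_nat_mul,
        hLdef, Real.exp_log hn0]
    have e3 : (2 * n * (2 * n * (14 * q * k * q)) : ℝ) ≤ 448 * n ^ 3 := by
      have := mul_le_mul_of_nonneg_left m2 (show (0 : ℝ) ≤ n ^ 2 by positivity)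
      nlinarith
    refine (mul_le_mul e3 e2 (by positivity) (by positivity)).trans ?_
    rw [mul_one_div, div_le_div_iff₀ (by positivity) (by positivity)]
    have e4 : (151 : ℝ) ^ 2 ≤ (n : ℝ) ^ 2 := by gcongr; linarith
    have e5 : (n : ℝ) ^ 6 ≤ n ^ 13 := pow_le_pow_right₀ (by linarith) (by norm_num)
    have e6 : (0 : ℝ) < n ^ 3 := by positivity
    have e7 : 448 * ((n : ℝ) + 1) ≤ n ^ 3 := by nlinarith
    nlinarith)
  have h1 : (lam n : ℝ) ≤ 14 * q * k := by exact_mod_cast this
  have h2 : Real.sqrt (n * L) = x * L := by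
    rw [Real.sqrt_eq_iff_mul_self_eq (by positivity) (by positivity)]; nlinarith
  rw [h2]
  have : (q : ℝ) * k ≤ (2 * x) * (2 * L) := by gcongr <;> linarith
  nlinarith

lemma lower' (n : ℕ) (hL : 150 ≤ Real.log n) : 1 / 20 * Real.sqrt (n * Real.log n) ≤ (lam n : ℝ) := by
  have hn0 : (0 : ℝ) < n := by
    rcases Nat.eq_zero_or_pos n with h | h
    · simp [h] at hL; linarith
    · exact_mod_cast h
  obtain ⟨m, hm, h1⟩ := Nat.sInf_mem (s := {r : ℕ | ∃ m, n ≤ m ∧ lamNM n m = r}) ⟨_, n, le_rfl, rfl⟩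
  obtain ⟨N, hN, h2⟩ := Nat.sInf_mem (s := {r : ℕ | ∃ N : Fin (2 * n) → Finset (Fin m),
    PairingProp n m N ∧ Finset.univ.sup (fun a => (N a).card) = r})
    ⟨_, fun _ => univ, fun e => ⟨Fin.castLE hm, Fin.castLE_injective hm, by simp⟩, rfl⟩
  have h3 : ∀ a, #(N a) ≤ lam n := fun a => by
    rw [lam, ← h1, lamNM, ← h2]; exact le_sup (f := fun a => #(N a)) (mem_univ a)
  by_contra hc
  push Not at hc
  let e0 : Fin n × Bool ≃ Fin (2 * n) := Fintype.equivFinOfCardEq (by simp [mul_comm])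
  have h4 : ∀ a, (#(N a) : ℝ) ≤ 1 / 20 * Real.sqrt (n * Real.log n) := fun a =>
    le_trans (by exact_mod_cast h3 a) hc.le
  refine lower (fun i => N (e0 (i, false))) (fun i => N (e0 (i, true))) (fun τ => ?_)
    (1 / 20 * Real.sqrt (n * Real.log n)) (Real.log n) (by positivity) hL
    (by simp [Real.exp_log hn0]) ?_ (fun i => h4 _) (fun i => h4 _)
  · exact hN ((Equiv.prodCongrLeft (fun b : Bool => if b then τ else Equiv.refl _)).trans e0)
  · rw [mul_pow, Real.sq_sqrt (by positivity), Real.exp_log hn0]; ring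

end Pool.Agent.H13.Pairing
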