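import Mathlib

/-!
The cyclic group of order `n` is the full, transitive automorphism group of a quasigroup
if and only if `n` is odd; additive groups of finite fields with more than two elements also
occur; a finite abelian group that occurs has total sum zero.
-/

namespace Pool.Agent.H13.QAut

/-- `op` is a quasigroup operation. -/
def IsQuasigroup {Q : Type} (op : Q → Q → Q) : Prop :=
  (∀ a b, ∃! x, op a x = b) ∧ (∀ a b, ∃! y, op y a = b)

/-- The automorphism group of `(Q, op)`. -/
def Aut {Q : Type} (op : Q → Q → Q) : Subgroup (Equiv.Perm Q) where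
  carrier := {φ | ∀ x y, φ (op x y) = op (φ x) (φ y)}
  one_mem' := fun _ _ => rfl
  mul_mem' := by
    intro φ ψ hφ hψ x y
    simp only [Equiv.Perm.mul_apply]
    rw [hψ, hφ]
  inv_mem' := by
    intro φ hφ x y
    apply φ.injective
    rw [hφ]
    simp

/-- `G` admits a transitive representation by a quasigroup. -/
def Admits (G : Type) [Group G] : Prop :=
  ∃ (Q : Type) (op : Q → Q → Q), Nonempty Q ∧ IsQuasigroup op ∧ Nonempty (G ≃* Aut op) ∧
    ∀ x y : Q, ∃ φ ∈ Aut op, φ x = y

theorem odd_of_sum (n : ℕ) [NeZero n] (h : ∑ z : ZMod n, z = 0) : Odd n := by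
  obtain ⟨k, rfl⟩ := Nat.exists_eq_succ_of_ne_zero (NeZero.ne n)
  have h1 : ∑ z : ZMod (k + 1), z = ((∑ i ∈ Finset.range (k + 1), i : ℕ) : ZMod (k + 1)) := by
    rw [← Fin.sum_univ_eq_sum_range (fun i => i) (k + 1), Nat.cast_sum]
    exact Finset.sum_congr rfl (fun z _ => (ZMod.natCast_zmod_val z).symm)
  have h' : ((∑ i ∈ Finset.range (k + 1), i : ℕ) : ZMod (k + 1)) = 0 := h1 ▸ h
  rw [ZMod.natCast_eq_zero_iff] at h'
  obtain ⟨c, hc⟩ := h'
  have h2 := Finset.sum_range_id_mul_two (k + 1)
  rw [hc, mul_assoc] at h2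
  have h3 := Nat.eq_of_mul_eq_mul_left (Nat.succ_pos k) h2
  exact ⟨c, by omega⟩

theorem necessity (G : Type) [AddCommGroup G] [Fintype G] (h : Admits (Multiplicative G)) :
    ∑ z : G, z = 0 := by
  obtain ⟨Q, op, ⟨q0⟩, ⟨hl, hr⟩, ⟨e⟩, htr⟩ := h
  let a : G → Equiv.Perm Q := fun t => (e (Multiplicative.ofAdd t) : Equiv.Perm Q)
  have ha : ∀ s t x, a (s + t) x = a s (a t x) := by
    intro s t x
    simp only [a, ofAdd_add, map_mul, Subgroup.coe_mul, Equiv.Perm.mul_apply]
  have hop : ∀ t x y, a t (op x y) = op (a t x) (a t y) := fun t => (e (Multiplicative.ofAdd t)).2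
  let g : G → Q := fun t => a t q0
  have hg : ∀ s t, a s (g t) = g (s + t) := fun s t => (ha s t q0).symm
  have gs : Function.Surjective g := by
    intro y
    obtain ⟨φ, hφ, hy⟩ := htr q0 y
    obtain ⟨t, ht⟩ := e.surjective ⟨φ, hφ⟩
    refine ⟨t.toAdd, ?_⟩
    simp only [g, a, ofAdd_toAdd, ht, hy]
  have gi : Function.Injective g := by
    intro s t hst
    have : a s = a t := by
      ext y
      obtain ⟨r, rfl⟩ := gs y
      rw [hg, hg, add_comm s, add_comm t, ← hg, ← hg, hst]
    exact Multiplicative.ofAdd.injective (e.injective (Subtype.ext this))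
  choose θ hθ using fun z => gs (op (g 0) (g z))
  have i1 : Function.Injective θ := by
    intro z w h
    have : op (g 0) (g z) = op (g 0) (g w) := by rw [← hθ, ← hθ, h]
    exact gi ((hl (g 0) (op (g 0) (g w))).unique this rfl)
  have key : ∀ z, op (g (-z)) (g 0) = g (θ z - z) := by
    intro z
    have := hop (-z) (g 0) (g z)
    rw [← hθ, hg, hg, hg, add_zero, neg_add_cancel] at this
    rw [← this, sub_eq_neg_add]
  have i2 : Function.Injective (fun z => θ z - z) := by
    intro z w h
    have h' : θ z - z = θ w - w := h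
    have : op (g (-z)) (g 0) = op (g (-w)) (g 0) := by rw [key, key, h']
    exact neg_injective (gi ((hr (g 0) (op (g (-w)) (g 0))).unique this rfl))
  have s1 := Equiv.sum_comp (Equiv.ofBijective θ (Finite.injective_iff_bijective.mp i1))
    (fun z => z)
  have s2 := Equiv.sum_comp (Equiv.ofBijective _ (Finite.injective_iff_bijective.mp i2))
    (fun z => z)
  simp only [Equiv.ofBijective_apply, Finset.sum_sub_distrib] at s1 s2
  rw [← s2, s1, sub_self]

theorem sufficiency (n : ℕ) [NeZero n] (h : Odd n) : Admits (Multiplicative (ZMod n)) := by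
  obtain ⟨k, hk⟩ := h
  have h2 : (2 : ZMod n) * ((k : ZMod n) + 1) = 1 := by
    have : ((2 * k + 1 : ℕ) : ZMod n) = 0 := by rw [← hk]; exact ZMod.natCast_self n
    push_cast at this
    linear_combination this
  let op : ZMod n → ZMod n → ZMod n := fun x y => 2 * y - x + 1
  have tr : ∀ t : ZMod n, Equiv.addLeft t ∈ Aut op := by
    intro t x y
    simp only [op, Equiv.coe_addLeft]
    ring
  let f : Multiplicative (ZMod n) →* Aut op :=
    MonoidHom.mk' (fun t => ⟨Equiv.addLeft t.toAdd, tr _⟩) (by
      intro s t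
      apply Subtype.ext
      ext x
      simp [add_assoc])
  refine ⟨ZMod n, op, ⟨0⟩, ⟨?_, ?_⟩, ⟨MulEquiv.ofBijective f ⟨?_, ?_⟩⟩, ?_⟩
  · intro a b
    refine ⟨((k : ZMod n) + 1) * (b + a - 1), ?_, ?_⟩
    · simp only [op]
      linear_combination (b + a - 1) * h2
    · intro x hx
      simp only [op] at hx
      linear_combination ((k : ZMod n) + 1) * hx - x * h2
  · intro a b
    refine ⟨2 * a + 1 - b, ?_, ?_⟩
    · simp only [op]
      ring
    · intro x hx
      simp only [op] at hx
      linear_combination -hx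
  · intro s t hst
    have h1 : s.toAdd + 0 = t.toAdd + 0 :=
      congrArg (fun φ : Aut op => (φ : Equiv.Perm (ZMod n)) 0) hst
    exact Multiplicative.toAdd.injective (by simpa using h1)
  · rintro ⟨φ, hφ⟩
    have hs : ∀ x, φ (x + 1) = φ x + 1 := by
      intro x
      have h1 : φ (op x x) = op (φ x) (φ x) := hφ x x
      have e1 : ∀ y, op y y = y + 1 := by
        intro y
        simp only [op]
        ring
      rwa [e1, e1] at h1
    have hn : ∀ m : ℕ, φ (m : ZMod n) = φ 0 + m := by
      intro m
      induction m with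
      | zero => simp
      | succ m ih => rw [Nat.cast_succ, hs, ih, add_assoc]
    refine ⟨Multiplicative.ofAdd (φ 0), Subtype.ext ?_⟩
    ext x
    show φ 0 + x = φ x
    rw [← ZMod.natCast_zmod_val x, hn]
  · intro x y
    exact ⟨Equiv.addLeft (y - x), tr _, by simp⟩

theorem field_case (F : Type) [Field F] [Fintype F] (hF : 2 < Fintype.card F) :
    Admits (Multiplicative F) := by
  classical
  obtain ⟨g, hg⟩ := IsCyclic.exists_monoid_generator (α := Fˣ)
  have hg1 : (1 : F) - g ≠ 0 := by
    intro h
    have h1 : g = 1 := Units.ext (by rw [Units.val_one]; exact (sub_eq_zero.mp h).symm)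
    have h2 : Fintype.card Fˣ ≤ 1 := by
      rw [Fintype.card_le_one_iff]
      intro a b
      obtain ⟨m, hm⟩ := hg a
      obtain ⟨m', hm'⟩ := hg b
      simp only [h1, one_pow] at hm hm'
      rw [← hm, ← hm']
    rw [Fintype.card_units] at h2
    omega
  have hg0 : (g : F) ≠ 0 := g.ne_zero
  let op : F → F → F := fun x y => (1 - g) * x + g * y + 1
  have tr : ∀ t : F, Equiv.addLeft t ∈ Aut op := by
    intro t x y
    simp only [op, Equiv.coe_addLeft]
    ring
  let f : Multiplicative F →* Aut op :=
    MonoidHom.mk' (fun t => ⟨Equiv.addLeft t.toAdd, tr _⟩) (by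
      intro s t
      apply Subtype.ext
      ext x
      simp [add_assoc])
  refine ⟨F, op, ⟨0⟩, ⟨?_, ?_⟩, ⟨MulEquiv.ofBijective f ⟨?_, ?_⟩⟩, ?_⟩
  · intro a b
    refine ⟨(b - 1 - (1 - g) * a) / g, ?_, ?_⟩
    · simp only [op]
      rw [mul_div_cancel₀ _ hg0]
      ring
    · intro x hx
      simp only [op] at hx
      rw [eq_div_iff hg0]
      linear_combination hx
  · intro a b
    refine ⟨(b - 1 - g * a) / (1 - g), ?_, ?_⟩
    · simp only [op]
      rw [mul_div_cancel₀ _ hg1]
      ring
    · intro x hx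
      simp only [op] at hx
      rw [eq_div_iff hg1]
      linear_combination hx
  · intro s t hst
    have h1 : s.toAdd + 0 = t.toAdd + 0 :=
      congrArg (fun φ : Aut op => (φ : Equiv.Perm F) 0) hst
    exact Multiplicative.toAdd.injective (by simpa using h1)
  · rintro ⟨φ, hφ⟩
    have hs : ∀ x, φ (x + 1) = φ x + 1 := by
      intro x
      have h1 : φ (op x x) = op (φ x) (φ x) := hφ x x
      have e1 : ∀ y, op y y = y + 1 := by
        intro y
        simp only [op]
        ring
      rwa [e1, e1] at h1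
    have hm : ∀ y, φ (g * y) = (1 - g) * φ 0 + g * φ y := by
      intro y
      have h1 : φ (op 0 y) = op (φ 0) (φ y) := hφ 0 y
      simp only [op, mul_zero, zero_add] at h1
      rw [hs] at h1
      exact add_right_cancel h1
    have hn : ∀ m : ℕ, φ ((g : F) ^ m) = φ 0 + (g : F) ^ m := by
      intro m
      induction m with
      | zero => simpa using hs 0
      | succ m ih => rw [pow_succ', hm, ih]; ring
    refine ⟨Multiplicative.ofAdd (φ 0), Subtype.ext ?_⟩
    ext x
    show φ 0 + x = φ x
    by_cases hx : x = 0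
    · rw [hx, add_zero]
    · obtain ⟨m, hm'⟩ := hg (Units.mk0 x hx)
      have : x = (g : F) ^ m := by
        have := congrArg (fun u : Fˣ => (u : F)) hm'
        simpa using this.symm
      rw [this, hn]
  · intro x y
    exact ⟨Equiv.addLeft (y - x), tr _, by simp⟩

end Pool.Agent.H13.QAut
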