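import Mathlib

set_option autoImplicit false

namespace Pool.Agent.H13.Rainbow

abbrev E := EuclideanSpace ℝ (Fin 2)

lemma half {v : Fin 3 → E} {x : E} (hx : x ∈ interior (convexHull ℝ (Set.range v))) (α β γ : ℝ)
    (h : ∀ i, α * v i 0 + β * v i 1 ≤ γ) (hn : 0 < α ^ 2 + β ^ 2) : α * x 0 + β * x 1 < γ := by
  have hs : convexHull ℝ (Set.range v) ⊆ {y : E | α * y 0 + β * y 1 ≤ γ} := by
    apply convexHull_min
    · rintro _ ⟨i, rfl⟩; exact h i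
    · intro y hy z hz a b ha hb hab
      simp only [Set.mem_setOf_eq, PiLp.add_apply, PiLp.smul_apply, smul_eq_mul] at hy hz ⊢
      have : γ = a * γ + b * γ := by rw [← add_mul, hab, one_mul]
      nlinarith [mul_le_mul_of_nonneg_left hy ha, mul_le_mul_of_nonneg_left hz hb]
  have hm := Filter.mem_of_superset (mem_interior_iff_mem_nhds.1 hx) hs
  have hc : Filter.Tendsto (fun t : ℝ => x + t • (!₂[α, β] : E)) (nhdsWithin 0 (Set.Ioi 0)) (nhds x) := by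
    apply Filter.Tendsto.mono_left _ nhdsWithin_le_nhds
    have : Continuous (fun t : ℝ => x + t • (!₂[α, β] : E)) := by fun_prop
    simpa using this.tendsto 0
  obtain ⟨t, h1, h2⟩ := ((hc.eventually hm).and self_mem_nhdsWithin).exists
  simp at h1 h2
  nlinarith [mul_pos h2 hn]

def cr (a b c : E) : ℝ := (b 0 - a 0) * (c 1 - a 1) - (b 1 - a 1) * (c 0 - a 0)

lemma flat {v : Fin 3 → E} {x : E} (hx : x ∈ interior (convexHull ℝ (Set.range v))) (α β γ : ℝ)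
    (h : ∀ i, α * v i 0 + β * v i 1 = γ) (hn : 0 < α ^ 2 + β ^ 2) : False := by
  have h1 := half hx α β γ (fun i => (h i).le) hn
  have h2 := half hx (-α) (-β) (-γ) (fun i => by linarith [h i]) (by linarith)
  linarith

lemma nondeg {v : Fin 3 → E} {x : E} (hx : x ∈ interior (convexHull ℝ (Set.range v))) :
    cr (v 0) (v 1) (v 2) ≠ 0 := by
  intro h
  unfold cr at h
  by_cases h1 : 0 < (v 1 1 - v 0 1) ^ 2 + (v 0 0 - v 1 0) ^ 2
  · refine flat hx _ _ ((v 1 1 - v 0 1) * v 0 0 + (v 0 0 - v 1 0) * v 0 1) (fun i => ?_) h1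
    fin_cases i <;> simp <;> linarith
  · have a1 : v 1 1 - v 0 1 = 0 := by nlinarith [sq_nonneg (v 1 1 - v 0 1), sq_nonneg (v 0 0 - v 1 0)]
    have a2 : v 0 0 - v 1 0 = 0 := by nlinarith [sq_nonneg (v 1 1 - v 0 1), sq_nonneg (v 0 0 - v 1 0)]
    have b1 : v 1 1 = v 0 1 := by linarith
    have b2 : v 1 0 = v 0 0 := by linarith
    by_cases h2 : 0 < (v 2 1 - v 0 1) ^ 2 + (v 0 0 - v 2 0) ^ 2
    · refine flat hx _ _ ((v 2 1 - v 0 1) * v 0 0 + (v 0 0 - v 2 0) * v 0 1) (fun i => ?_) h2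
      fin_cases i <;> simp [b1, b2]; linarith
    · have a3 : v 2 0 = v 0 0 := by nlinarith [sq_nonneg (v 2 1 - v 0 1), sq_nonneg (v 0 0 - v 2 0)]
      refine flat hx 1 0 (v 0 0) (fun i => ?_) (by norm_num)
      fin_cases i <;> simp [b2, a3]

lemma pos_of (D p q : ℝ) (s t : ℝ) (hD : D ≠ 0) (h : D = p * s - q * t) : 0 < (D * q) ^ 2 + (-(D * p)) ^ 2 := by
  by_contra hc
  have a1 : D * q = 0 := by nlinarith [sq_nonneg (D * q), sq_nonneg (D * p)]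
  have a2 : D * p = 0 := by nlinarith [sq_nonneg (D * q), sq_nonneg (D * p)]
  have b1 : q = 0 := (mul_eq_zero.1 a1).resolve_left hD
  have b2 : p = 0 := (mul_eq_zero.1 a2).resolve_left hD
  rw [b1, b2] at h; simp at h; exact hD h

lemma all3 {p : Fin 3 → Prop} (h0 : p 0) (h1 : p 1) (h2 : p 2) : ∀ i, p i := by
  intro i; fin_cases i <;> assumption

lemma tri {v : Fin 3 → E} {x : E} (hx : x ∈ interior (convexHull ℝ (Set.range v))) :
    0 < cr (v 0) (v 1) (v 2) * cr (v 0) (v 1) x ∧ 0 < cr (v 0) (v 1) (v 2) * cr (v 1) (v 2) x ∧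
    0 < cr (v 0) (v 1) (v 2) * cr (v 2) (v 0) x := by
  have hD := nondeg hx
  have hp : 0 ≤ cr (v 0) (v 1) (v 2) ^ 2 := sq_nonneg _
  set D := cr (v 0) (v 1) (v 2) with e
  unfold cr at e
  refine ⟨?_, ?_, ?_⟩
  · have := half hx (D * (v 1 1 - v 0 1)) (-(D * (v 1 0 - v 0 0)))
      (D * (v 1 1 - v 0 1) * v 0 0 - D * (v 1 0 - v 0 0) * v 0 1) (by
        have : D ^ 2 = D * ((v 1 0 - v 0 0) * (v 2 1 - v 0 1) - (v 1 1 - v 0 1) * (v 2 0 - v 0 0)) := by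
          rw [← e]; ring
        exact all3 (by linarith) (by linarith) (by linarith)) (pos_of D _ _ _ _ hD e)
    unfold cr; linarith
  · have e' : D = (v 2 0 - v 1 0) * (v 0 1 - v 1 1) - (v 2 1 - v 1 1) * (v 0 0 - v 1 0) := by rw [e]; ring
    have := half hx (D * (v 2 1 - v 1 1)) (-(D * (v 2 0 - v 1 0)))
      (D * (v 2 1 - v 1 1) * v 1 0 - D * (v 2 0 - v 1 0) * v 1 1) (by
        have : D ^ 2 = D * ((v 2 0 - v 1 0) * (v 0 1 - v 1 1) - (v 2 1 - v 1 1) * (v 0 0 - v 1 0)) := by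
          rw [← e']; ring
        exact all3 (by linarith) (by linarith) (by linarith)) (pos_of D _ _ _ _ hD e')
    unfold cr; linarith
  · have e' : D = (v 0 0 - v 2 0) * (v 1 1 - v 2 1) - (v 0 1 - v 2 1) * (v 1 0 - v 2 0) := by rw [e]; ring
    have := half hx (D * (v 0 1 - v 2 1)) (-(D * (v 0 0 - v 2 0)))
      (D * (v 0 1 - v 2 1) * v 2 0 - D * (v 0 0 - v 2 0) * v 2 1) (by
        have : D ^ 2 = D * ((v 0 0 - v 2 0) * (v 1 1 - v 2 1) - (v 0 1 - v 2 1) * (v 1 0 - v 2 0)) := by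
          rw [← e']; ring
        exact all3 (by linarith) (by linarith) (by linarith)) (pos_of D _ _ _ _ hD e')
    unfold cr; linarith

lemma inside {v : Fin 3 → E} {x : E} (hD : 0 < cr (v 0) (v 1) (v 2)) (h1 : 0 < cr (v 0) (v 1) x)
    (h2 : 0 < cr (v 1) (v 2) x) (h3 : 0 < cr (v 2) (v 0) x) :
    x ∈ interior (convexHull ℝ (Set.range v)) := by
  have ho : IsOpen {y : E | 0 < cr (v 0) (v 1) y ∧ 0 < cr (v 1) (v 2) y ∧ 0 < cr (v 2) (v 0) y} := by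
    unfold cr
    refine IsOpen.and (isOpen_lt continuous_const ?_) (IsOpen.and (isOpen_lt continuous_const ?_)
      (isOpen_lt continuous_const ?_)) <;> fun_prop
  refine interior_maximal ?_ ho ⟨h1, h2, h3⟩
  rintro y ⟨y1, y2, y3⟩
  set D := cr (v 0) (v 1) (v 2) with e
  have := (convex_convexHull ℝ (Set.range v)).sum_mem (t := Finset.univ)
    (w := ![cr (v 1) (v 2) y / D, cr (v 2) (v 0) y / D, cr (v 0) (v 1) y / D]) (z := v)
    (fun i _ => by fin_cases i <;> simp <;> positivity)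
    (by rw [Fin.sum_univ_three]; simp; field_simp; rw [e]; unfold cr; ring)
    (fun i _ => subset_convexHull ℝ _ ⟨i, rfl⟩)
  have e2 : ∑ i, (![cr (v 1) (v 2) y / D, cr (v 2) (v 0) y / D, cr (v 0) (v 1) y / D] : Fin 3 → ℝ) i • v i = y := by
    rw [Fin.sum_univ_three]
    ext k
    fin_cases k <;> simp <;> field_simp <;> rw [e] <;> unfold cr <;> ring
  rwa [e2] at this

def C : Fin 3 → Fin 3 → E :=
  ![![!₂[0, 1], !₂[-2, 0], !₂[1, -1]], ![!₂[1, 0], !₂[-2, 2], !₂[0, -2]], ![!₂[-1, 1], !₂[0, -1], !₂[2, 0]]]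

lemma C_inj : Function.Injective (Function.uncurry C) := by
  rintro ⟨a, b⟩ ⟨c, d⟩ h
  have h0 := congrArg (fun p : E => p 0) h
  have h1 := congrArg (fun p : E => p 1) h
  fin_cases a <;> fin_cases b <;> fin_cases c <;> fin_cases d <;> simp [C] at h0 h1 ⊢ <;> linarith

lemma C_in (i : Fin 3) : (0 : E) ∈ interior (convexHull ℝ (Set.range (C i))) := by
  fin_cases i <;> apply inside <;> simp [cr, C] <;> norm_num

lemma perm3 : ∀ τ : Equiv.Perm (Fin 3), (τ 0 = 0 ∧ τ 1 = 1 ∧ τ 2 = 2) ∨ (τ 0 = 0 ∧ τ 1 = 2 ∧ τ 2 = 1) ∨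
    (τ 0 = 1 ∧ τ 1 = 0 ∧ τ 2 = 2) ∨ (τ 0 = 1 ∧ τ 1 = 2 ∧ τ 2 = 0) ∨ (τ 0 = 2 ∧ τ 1 = 0 ∧ τ 2 = 1) ∨
    (τ 0 = 2 ∧ τ 1 = 1 ∧ τ 2 = 0) := by decide

lemma none (σ : Fin 3 → Equiv.Perm (Fin 3)) (x : E)
    (h : ∀ j, x ∈ interior (convexHull ℝ (Set.range fun i => C i (σ i j)))) : False := by
  have t0 := tri (h ((σ 0).symm 0))
  have t1 := tri (h ((σ 0).symm 1))
  have t2 := tri (h ((σ 0).symm 2))
  have p1 := perm3 ((σ 0).symm.trans (σ 1))
  have p2 := perm3 ((σ 0).symm.trans (σ 2))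
  simp only [Equiv.trans_apply, Equiv.apply_symm_apply] at t0 t1 t2 p1 p2
  rcases p1 with ⟨a, b, c⟩ | ⟨a, b, c⟩ | ⟨a, b, c⟩ | ⟨a, b, c⟩ | ⟨a, b, c⟩ | ⟨a, b, c⟩ <;>
  rcases p2 with ⟨d, e, f⟩ | ⟨d, e, f⟩ | ⟨d, e, f⟩ | ⟨d, e, f⟩ | ⟨d, e, f⟩ | ⟨d, e, f⟩ <;>
  rw [a, d] at t0 <;> rw [b, e] at t1 <;> rw [c, f] at t2 <;>
  simp only [cr, C, Matrix.cons_val_zero, Matrix.cons_val_one, Matrix.cons_val_two, Matrix.cons_val,
    PiLp.toLp_apply, Matrix.head_cons, Matrix.tail_cons] at t0 t1 t2 <;>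
  linarith [t0.1, t0.2.1, t0.2.2, t1.1, t1.2.1, t1.2.2, t2.1, t2.2.1, t2.2.2]

end Pool.Agent.H13.Rainbow
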