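import Mathlib

namespace Pool.Agent.H13.RainbowFac

/-- `f 0, f 1, …` is a cycle of length `N` with distinct colours in the flip graph on 2-subsets
of `Fin n` (for `N = n.choose 2`: a rainbow Hamilton cycle) -/
def Rainbow (n N : ℕ) (f : ZMod N → Finset (Fin n)) : Prop :=
  Function.Injective f ∧ (∀ i, (f i).card = 2) ∧ (∀ i, (f i \ f (i + 1)).card = 1) ∧
    Function.Injective fun i => symmDiff (f i) (f (i + 1))

/-- `m` pairwise edge-disjoint such cycles of length `N` exist -/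
def Fam (n m N : ℕ) : Prop :=
  ∃ F : Fin m → ZMod N → Finset (Fin n), (∀ a, Rainbow n N (F a)) ∧
    ∀ a b, a ≠ b → ∀ i j, s(F a i, F a (i + 1)) ≠ s(F b j, F b (j + 1))

/-- `n - 2` pairwise edge-disjoint rainbow Hamilton cycles exist -/
def Fac (n : ℕ) : Prop := Fam n (n - 2) (n.choose 2)

def code (A : Finset (Fin 5)) : ℕ := ∑ i ∈ A, 2 ^ (i : ℕ)
def L : List ℕ := [3, 5, 9, 17, 6, 10, 18, 12, 20, 24]
def C : List (List ℕ) := [[18, 6, 12, 20, 17, 24, 10, 9, 5, 3], [10, 18, 17, 20, 6, 12, 24, 9, 5, 3], [10, 6, 20, 12, 9, 24, 18, 17, 5, 3], [18, 10, 9, 12, 6, 20, 24, 17, 5, 3], [17, 20, 24, 9, 10, 18, 6, 12, 5, 3], [9, 24, 10, 6, 18, 17, 20, 12, 5, 3], [9, 12, 24, 17, 18, 10, 6, 20, 5, 3], [17, 24, 18, 6, 10, 9, 12, 20, 5, 3], [18, 10, 12, 24, 17, 20, 6, 5, 9, 3], [6, 18, 17, 24, 10, 12, 20, 5, 9, 3], [6, 10, 24, 12, 5, 20, 18, 17, 9, 3], [18, 6, 5, 12, 10, 24, 20, 17, 9, 3], [17, 24, 20,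 5, 6, 18, 10, 12, 9, 3], [5, 20, 6, 10, 18, 17, 24, 12, 9, 3], [5, 12, 20, 17, 18, 6, 10, 24, 9, 3], [17, 20, 18, 10, 6, 5, 12, 24, 9, 3], [10, 18, 20, 24, 9, 12, 6, 5, 17, 3], [6, 10, 9, 24, 18, 20, 12, 5, 17, 3], [6, 18, 24, 20, 5, 12, 10, 9, 17, 3], [10, 6, 5, 20, 18, 24, 12, 9, 17, 3], [9, 24, 12, 5, 6, 10, 18, 20, 17, 3], [5, 12, 6, 18, 10, 9, 24, 20, 17, 3], [5, 20, 12, 9, 10, 6, 18, 24, 17, 3], [9, 12, 10, 18, 6, 5, 20, 24, 17, 3], [17, 5, 12, 20, 18, 24, 9, 10, 6, 3], [9, 17, 18, 20, 5, 12, 24, 10, 6, 3], [9, 5, 20, 12, 10, 24, 17, 18, 6, 3], [17, 9, 10, 12, 5, 20, 24, 18, 6, 3], [18, 20, 24, 10, 9, 17, 5, 12, 6, 3], [10, 24, 9, 5, 17, 18, 20, 12, 6, 3], [10, 12, 24, 18, 17, 9, 5, 20, 6, 3], [18, 24, 17, 5, 9, 10, 12, 20, 6, 3], [17, 9, 12, 24, 18, 20, 5, 6, 10, 3], [5, 17, 18, 24, 9, 12, 20, 6, 10, 3], [5, 9, 24, 12, 6, 20, 17, 18, 10, 3], [17, 5, 6, 12, 9, 24, 20, 18, 10, 3],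 [18, 24, 20, 6, 5, 17, 9, 12, 10, 3], [6, 20, 5, 9, 17, 18, 24, 12, 10, 3], [6, 12, 20, 18, 17, 5, 9, 24, 10, 3], [18, 20, 17, 9, 5, 6, 12, 24, 10, 3], [9, 17, 20, 24, 10, 12, 5, 6, 18, 3], [5, 9, 10, 24, 17, 20, 12, 6, 18, 3], [5, 17, 24, 20, 6, 12, 9, 10, 18, 3], [9, 5, 6, 20, 17, 24, 12, 10, 18, 3], [10, 24, 12, 6, 5, 9, 17, 20, 18, 3], [6, 12, 5, 17, 9, 10, 24, 20, 18, 3], [6, 20, 12, 10, 9, 5, 17, 24, 18, 3], [10, 12, 9, 17, 5, 6, 20, 24, 18, 3]]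

lemma c0 (A B : Finset (Fin 5)) (h : code A = code B) : A = B := by
  have : ∀ A : Finset (Fin 5), Finset.univ.filter (fun i : Fin 5 => (code A).testBit i) = A := by
    decide +kernel
  rw [← this A, h, this]

lemma c1 (A B : Finset (Fin 5)) (hA : A.card = 2) (hB : B.card = 2) :
    code (symmDiff A B) = code A ^^^ code B ∧ code A ∈ L ∧
      ((A \ B).card = 1 → code A ^^^ code B ∈ L) := by
  have : ∀ A ∈ (Finset.univ : Finset (Fin 5)).powersetCard 2,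
      ∀ B ∈ (Finset.univ : Finset (Fin 5)).powersetCard 2,
      code (symmDiff A B) = code A ^^^ code B ∧ code A ∈ L ∧
      ((A \ B).card = 1 → code A ^^^ code B ∈ L) := by decide +kernel
  exact this A (by simp [hA]) B (by simp [hB])

def go : ℕ → List ℕ → List ℕ → Bool
  | 0, p, cs => !L.contains (p.headD 0 ^^^ 3) || cs.contains (p.headD 0 ^^^ 3) || C.contains p
  | k + 1, p, cs => L.all fun b => !L.contains (p.headD 0 ^^^ b) || p.contains b ||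
      cs.contains (p.headD 0 ^^^ b) || go k (b :: p) ((p.headD 0 ^^^ b) :: cs)

lemma c2 : go 9 [3] [] = true := by decide +kernel

def ed (p : List ℕ) : List (ℕ × ℕ) := (p.getLastD 0, p.headD 0) :: p.zip p.tail

def dis (p q : List (ℕ × ℕ)) : Bool := p.all fun e => q.all fun d =>
  !(e.1 == d.1 && e.2 == d.2) && !(e.1 == d.2 && e.2 == d.1)

lemma c3 : ((C.map ed).all fun p => (C.map ed).all fun q =>
    !dis p q || (C.map ed).all fun r => !dis p r || !dis q r) = true := by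
  decide +kernel

def pa (g : ℕ → ℕ) : ℕ → List ℕ
  | 0 => [g 0]
  | j + 1 => g (j + 1) :: pa g j
def co (g : ℕ → ℕ) : ℕ → List ℕ
  | 0 => []
  | j + 1 => (g j ^^^ g (j + 1)) :: co g j

lemma m1 (g : ℕ → ℕ) (j x : ℕ) : x ∈ pa g j → ∃ i ≤ j, x = g i := by
  induction j with
  | zero => simp [pa]
  | succ j ih =>
    simp only [pa, List.mem_cons]
    rintro (h | h)
    · exact ⟨_, le_rfl, h⟩
    · obtain ⟨i, a, b⟩ := ih h; exact ⟨i, by omega, b⟩

lemma m2 (g : ℕ → ℕ) (j x : ℕ) : x ∈ co g j → ∃ i < j, x = g i ^^^ g (i + 1) := by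
  induction j with
  | zero => simp [co]
  | succ j ih =>
    simp only [co, List.mem_cons]
    rintro (h | h)
    · exact ⟨_, by omega, h⟩
    · obtain ⟨i, a, b⟩ := ih h; exact ⟨i, by omega, b⟩

lemma snd (g : ℕ → ℕ) (h1 : ∀ i, g i ∈ L) (h2 : ∀ i, g i ^^^ g (i + 1) ∈ L) (h0 : g 10 = 3)
    (h3 : ∀ i j, i < j → j < 10 → g j ≠ g i)
    (h4 : ∀ i j, i < j → j < 10 → g j ^^^ g (j + 1) ≠ g i ^^^ g (i + 1)) (k j : ℕ) (e : j + k = 9)
    (h : go k (pa g j) (co g j) = true) : pa g 9 ∈ C := by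
  have hd : ∀ j, (pa g j).headD 0 = g j := fun j => by cases j <;> rfl
  induction k generalizing j with
  | zero =>
    obtain rfl : j = 9 := by omega
    simp only [go, hd, ← h0, Bool.or_eq_true, Bool.not_eq_true', List.contains_eq_mem,
      decide_eq_true_eq, decide_eq_false_iff_not] at h
    rcases h with (h | h) | h
    · exact absurd (h2 9) h
    · obtain ⟨i, a, b⟩ := m2 _ _ _ h
      exact absurd b (h4 i 9 a (by omega))
    · exact h
  | succ k ih =>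
    simp only [go, hd, List.all_eq_true, Bool.or_eq_true, Bool.not_eq_true', List.contains_eq_mem,
      decide_eq_true_eq, decide_eq_false_iff_not] at h
    rcases h _ (h1 (j + 1)) with ((h | h) | h) | h
    · exact absurd (h2 j) h
    · obtain ⟨i, a, b⟩ := m1 _ _ _ h
      exact absurd b (h3 i (j + 1) (by omega) (by omega))
    · obtain ⟨i, a, b⟩ := m2 _ _ _ h
      exact absurd b (h4 i j a (by omega))
    · exact ih (j + 1) (by omega) h

lemma one (f : ZMod 10 → Finset (Fin 5)) (h : Rainbow 5 10 f) :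
    ∃ s : ZMod 10, f s = {0, 1} ∧ pa (fun i => code (f (s + i))) 9 ∈ C := by
  obtain ⟨h1, h2, h3, h4⟩ := h
  have : Finset.univ.image f = Finset.univ.powersetCard 2 := by
    apply Finset.eq_of_subset_of_card_le
    · intro A hA
      obtain ⟨i, -, rfl⟩ := Finset.mem_image.1 hA
      simp [h2]
    · rw [Finset.card_image_of_injective _ h1]; decide
  obtain ⟨s, -, hs⟩ := Finset.mem_image.1 (this ▸ (by decide) :
    ({0, 1} : Finset (Fin 5)) ∈ Finset.univ.image f)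
  have ne : ∀ i j : ℕ, i < j → j < 10 → s + j ≠ s + i := by
    intro i j a b c
    have := (ZMod.natCast_eq_natCast_iff' _ _ _).1 (add_left_cancel c)
    omega
  refine ⟨s, hs, snd _ (fun i => (c1 _ _ (h2 _) (h2 0)).2.1) (fun i => ?_) ?_ (fun i j a b c => ?_)
    (fun i j a b c => ?_) 9 0 rfl ?_⟩
  · simpa [add_assoc] using (c1 _ _ (h2 (s + i)) (h2 (s + i + 1))).2.2 (h3 _)
  · have : ((10 : ℕ) : ZMod 10) = 0 := rfl
    simp only [this, add_zero, hs]; decide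
  · exact ne i j a b (h1 (c0 _ _ c))
  · rw [← (c1 _ _ (h2 _) (h2 _)).1, ← (c1 _ _ (h2 _) (h2 _)).1] at c
    exact ne i j a b (h4 (by simpa [add_assoc] using c0 _ _ c))
  · simpa [pa, co, hs, show code {0, 1} = 3 by decide] using c2

lemma edm (f : ZMod 10 → Finset (Fin 5)) (s : ZMod 10) (e : ℕ × ℕ)
    (h : e ∈ ed (pa (fun i => code (f (s + i))) 9)) :
    ∃ x, e = (code (f (x + 1)), code (f x)) := by
  have st : ∀ i : ℕ, s + ((i + 1 : ℕ) : ZMod 10) = s + i + 1 := by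
    intro i; push_cast; ring
  have en : s + ((0 : ℕ) : ZMod 10) = s + (8 + 1 : ℕ) + 1 :=
    (by decide : ∀ s : ZMod 10, s + ((0 : ℕ) : ZMod 10) = s + (8 + 1 : ℕ) + 1) s
  simp only [ed, pa, List.getLastD_cons, List.getLastD_nil, List.headD_cons, List.tail_cons,
    List.zip_cons_cons, List.zip_nil_right, List.mem_cons, List.not_mem_nil, or_false] at h
  rcases h with h | h | h | h | h | h | h | h | h | h
  · exact ⟨_, by rw [h, en]⟩
  all_goals exact ⟨_, by rw [h, st]⟩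

lemma two (f g : ZMod 10 → Finset (Fin 5)) (s t : ZMod 10)
    (h : ∀ i j, s(f i, f (i + 1)) ≠ s(g j, g (j + 1))) :
    dis (ed (pa (fun i => code (f (s + i))) 9)) (ed (pa (fun i => code (g (t + i))) 9)) = true := by
  simp only [dis, List.all_eq_true, Bool.and_eq_true, Bool.not_eq_true',
    ← Bool.not_eq_true, beq_iff_eq]
  intro e he d hd
  obtain ⟨i, rfl⟩ := edm _ _ _ he
  obtain ⟨j, rfl⟩ := edm _ _ _ hd
  constructor
  · rintro ⟨a, b⟩
    exact h i j (by rw [c0 _ _ a, c0 _ _ b])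
  · rintro ⟨a, b⟩
    exact h i j (by rw [c0 _ _ a, c0 _ _ b, Sym2.eq_swap])

def W : Fin 5 → List (Fin 7 × Fin 7) := ![[(0, 1), (0, 2), (1, 2), (1, 6), (1, 5), (1, 4), (4, 5), (2, 5), (2, 3), (3, 5), (0, 5), (5, 6), (0, 6), (4, 6), (3, 4), (1, 3), (3, 6), (2, 6), (2, 4), (0, 4), (0, 3)],
  [(0, 1), (0, 4), (4, 6), (2, 4), (2, 3), (1, 3), (0, 3), (0, 2), (2, 5), (2, 6), (0, 6), (3, 6), (1, 6), (1, 4), (1, 2), (1, 5), (5, 6), (3, 5), (3, 4), (4, 5), (0, 5)],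
  [(0, 1), (0, 6), (0, 2), (0, 5), (2, 5), (2, 4), (1, 4), (0, 4), (3, 4), (0, 3), (3, 5), (3, 6), (4, 6), (2, 6), (2, 3), (1, 2), (1, 3), (1, 5), (4, 5), (5, 6), (1, 6)],
  [(0, 1), (1, 2), (2, 6), (1, 6), (4, 6), (4, 5), (2, 4), (0, 2), (2, 3), (3, 4), (1, 4), (1, 3), (3, 5), (2, 5), (5, 6), (3, 6), (0, 3), (0, 6), (0, 4), (0, 5), (1, 5)],
  [(0, 1), (1, 3), (1, 6), (0, 6), (0, 5), (0, 3), (2, 3), (3, 6), (3, 4), (2, 4), (1, 2), (2, 5), (1, 5), (3, 5), (4, 5), (0, 4), (0, 2), (2, 6), (5, 6), (4, 6), (1, 4)]]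

def T (a : Fin 5) (i : ZMod 21) : ℕ := ((![[3, 5, 6, 66, 34, 18, 48, 36, 12, 40, 33, 96, 65, 80, 24, 10, 72, 68, 20, 17, 9],
  [3, 17, 80, 20, 12, 10, 9, 5, 36, 68, 65, 72, 66, 18, 6, 34, 96, 40, 24, 48, 33],
  [3, 65, 5, 33, 36, 20, 18, 17, 24, 9, 40, 72, 80, 68, 12, 6, 10, 34, 48, 96, 66],
  [3, 6, 68, 66, 80, 48, 20, 5, 12, 24, 18, 10, 40, 36, 96, 72, 9, 65, 17, 33, 34],
  [3, 10, 66, 65, 33, 9, 12, 72, 24, 20, 6, 36, 34, 40, 48, 17, 5, 68, 96, 80, 18]] : Fin 5 → List ℕ) a).getD i.val 0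

def G (a : Fin 5) (i : ZMod 21) : Finset (Fin 7) :=
  {((W a).getD i.val 0).1, ((W a).getD i.val 0).2}

def cd (A : Finset (Fin 7)) : ℕ := ∑ i ∈ A, 2 ^ (i : ℕ)

lemma d1 : ∀ a i, cd (G a i) = T a i ∧ (G a i).card = 2 ∧ (G a i \ G a (i + 1)).card = 1 ∧
    cd (symmDiff (G a i) (G a (i + 1))) = T a i ^^^ T a (i + 1) := by decide +kernel

lemma d2 : ∀ a i j, (T a i = T a j → i = j) ∧
    (T a i ^^^ T a (i + 1) = T a j ^^^ T a (j + 1) → i = j) := by decide +kernel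

lemma d3 : ∀ a b, a ≠ b → ∀ i j, ¬ (T a i = T b j ∧ T a (i + 1) = T b (j + 1)) ∧
    ¬ (T a i = T b (j + 1) ∧ T a (i + 1) = T b j) := by decide +kernel

theorem main : ¬ Fac 5 ∧ Fac 7 := by
  have e1 : Nat.choose 5 2 = 10 := rfl
  have e2 : Nat.choose 7 2 = 21 := rfl
  unfold Fac
  rw [e1, e2]
  show ¬ Fam 5 3 10 ∧ Fam 7 5 21
  constructor
  · rintro ⟨F, h1, h2⟩
    choose s a b using fun x => one (F x) (h1 x)
    have t := fun x y e => two (F x) (F y) (s x) (s y) (h2 x y e)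
    have := c3
    simp only [List.all_eq_true, Bool.or_eq_true, Bool.not_eq_true'] at this
    have b' := fun x => List.mem_map_of_mem (f := ed) (b x)
    rcases this _ (b' 0) _ (b' 1) with e | e
    · simp [t 0 1 (by decide)] at e
    · rcases e _ (b' 2) with e | e
      · simp [t 0 2 (by decide)] at e
      · simp [t 1 2 (by decide)] at e
  · refine ⟨G, fun a => ⟨fun i j h => (d2 a i j).1 ?_, fun i => (d1 a i).2.1,
      fun i => (d1 a i).2.2.1, fun i j h => (d2 a i j).2 ?_⟩, fun a b e i j h => ?_⟩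
    · rw [← (d1 a i).1, h, (d1 a j).1]
    · rw [← (d1 a i).2.2.2, ← (d1 a j).2.2.2]; exact congrArg cd h
    · have := d3 a b e i j
      simp only [← fun a i => (d1 a i).1] at this
      rcases Sym2.eq_iff.1 h with ⟨x, y⟩ | ⟨x, y⟩
      · exact this.1 ⟨congrArg cd x, congrArg cd y⟩
      · exact this.2 ⟨congrArg cd x, congrArg cd y⟩

end Pool.Agent.H13.RainbowFac
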