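import Pool.Agent.H13.RipsDefs

set_option autoImplicit false

namespace Pool.Agent.H13.Rips

open Finset

/-- Working form of rigid facet over an arbitrary index type. -/
def RF {ι : Type} [Fintype ι] [DecidableEq ι] (r : ℕ) (σ : Finset (ι → Bool)) : Prop :=
  σ.Nonempty ∧ (∀ x ∈ σ, ∀ y ∈ σ, hammingDist x y ≤ r) ∧
    (∀ z, z ∉ σ → ∃ y ∈ σ, r < hammingDist z y) ∧ ∀ x ∈ σ, ∃ y ∈ σ, hammingDist x y = r

lemma RF.rigidFacet {n r : ℕ} {σ : Finset (Fin n → Bool)} (h : RF r σ) : IsRigidFacet r σ := by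
  obtain ⟨h0, h1, h2, h3⟩ := h
  refine ⟨⟨⟨h0, h1⟩, ?_⟩, ?_⟩
  · intro τ hτ hle z hz
    by_contra hzσ
    obtain ⟨y, hy, hlt⟩ := h2 z hzσ
    have := hτ.2 z hz y (hle hy)
    omega
  · intro x hx
    apply le_antisymm
    · exact Finset.sup_le (fun y hy => h1 x hx y hy)
    · obtain ⟨y, hy, he⟩ := h3 x hx
      rw [← he]
      exact Finset.le_sup (f := fun y => hammingDist x y) hy

lemma RF.maxDiam {n r : ℕ} {σ : Finset (Fin n → Bool)} (h : RF r σ) : MaxDiam r σ ∧ Rigid σ := by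
  obtain ⟨h0, h1, h2, h3⟩ := h
  have hs : ∀ x ∈ σ, σ.sup (fun y => hammingDist x y) = r := by
    intro x hx
    apply le_antisymm
    · exact Finset.sup_le (fun y hy => h1 x hx y hy)
    · obtain ⟨y, hy, he⟩ := h3 x hx
      rw [← he]
      exact Finset.le_sup (f := fun y => hammingDist x y) hy
  have hd : diam σ = r := by
    apply le_antisymm
    · exact Finset.sup_le (fun x hx => (hs x hx).le)
    · obtain ⟨x, hx⟩ := h0
      rw [← hs x hx]
      exact Finset.le_sup (f := fun x => σ.sup (fun y => hammingDist x y)) hx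
  refine ⟨⟨hd, ?_⟩, ?_⟩
  · intro z hz
    obtain ⟨y, hy, hlt⟩ := h2 z hz
    refine lt_of_lt_of_le hlt ?_
    refine le_trans ?_ (Finset.le_sup (f := fun x => (insert z σ).sup (fun y => hammingDist x y))
      (mem_insert_self z σ))
    exact Finset.le_sup (f := fun y => hammingDist z y) (mem_insert_of_mem hy)
  · intro a ha
    rw [hd, ← hs a ha]
    simp only [hammingDist_comm]

lemma hd_eq_sum {ι : Type} [Fintype ι] (x y : ι → Bool) :
    hammingDist x y = ∑ i, if x i ≠ y i then 1 else 0 := by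
  unfold hammingDist
  rw [card_filter]

lemma hd_equiv {ι κ : Type} [Fintype ι] [Fintype κ] (e : κ ≃ ι) (x y : ι → Bool) :
    hammingDist (x ∘ e) (y ∘ e) = hammingDist x y := by
  rw [hd_eq_sum, hd_eq_sum]
  exact Equiv.sum_comp e (fun i => if x i ≠ y i then 1 else 0)

lemma hd_sum {ι κ : Type} [Fintype ι] [Fintype κ] (x y : ι ⊕ κ → Bool) :
    hammingDist x y = hammingDist (x ∘ Sum.inl) (y ∘ Sum.inl) + hammingDist (x ∘ Sum.inr) (y ∘ Sum.inr) := by
  simp only [hd_eq_sum, Fintype.sum_sum_type]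
  rfl

lemma hd_neg {ι : Type} [Fintype ι] (x : ι → Bool) : hammingDist x (fun i => !x i) = Fintype.card ι := by
  simp [hd_eq_sum]

lemma hd_lt {ι : Type} [Fintype ι] (x y : ι → Bool) (h : y ≠ fun i => !x i) :
    hammingDist x y < Fintype.card ι := by
  unfold hammingDist
  rw [← card_univ]
  apply card_lt_card
  refine ⟨filter_subset _ _, ?_⟩
  intro hsub
  apply h
  funext i
  have := hsub (mem_univ i)
  simp only [mem_filter, mem_univ, true_and] at this
  revert this
  cases x i <;> cases y i <;> simp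

lemma RF.transfer {ι κ : Type} [Fintype ι] [Fintype κ] [DecidableEq ι] [DecidableEq κ] (e : κ ≃ ι)
    {r : ℕ} {σ : Finset (ι → Bool)} (h : RF r σ) :
    ∃ τ : Finset (κ → Bool), RF r τ ∧ τ.card = σ.card := by
  obtain ⟨h0, h1, h2, h3⟩ := h
  have inj : Function.Injective (fun x : ι → Bool => x ∘ e) := by
    intro x y hxy
    funext i
    simpa using congrFun hxy (e.symm i)
  refine ⟨σ.image (fun x => x ∘ e), ⟨h0.image _, ?_, ?_, ?_⟩, card_image_of_injective _ inj⟩
  · intro x hx y hy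
    obtain ⟨x, hx', rfl⟩ := mem_image.1 hx
    obtain ⟨y, hy', rfl⟩ := mem_image.1 hy
    rw [hd_equiv]; exact h1 x hx' y hy'
  · intro z hz
    have e1 : (z ∘ e.symm) ∘ e = z := by funext i; simp
    obtain ⟨y, hy, hlt⟩ := h2 (z ∘ e.symm) (fun hh => hz (mem_image.2 ⟨_, hh, e1⟩))
    refine ⟨y ∘ e, mem_image.2 ⟨y, hy, rfl⟩, ?_⟩
    rw [← e1, hd_equiv]; exact hlt
  · intro x hx
    obtain ⟨x, hx', rfl⟩ := mem_image.1 hx
    obtain ⟨y, hy, he⟩ := h3 x hx'
    exact ⟨y ∘ e, mem_image.2 ⟨y, hy, rfl⟩, by rw [hd_equiv]; exact he⟩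

lemma RF.pad {ι : Type} [Fintype ι] [DecidableEq ι] (κ : Type) [Fintype κ] [DecidableEq κ]
    {r : ℕ} {σ : Finset (ι → Bool)} (h : RF r σ) :
    ∃ τ : Finset (ι ⊕ κ → Bool), RF r τ ∧ τ.card = σ.card := by
  obtain ⟨h0, h1, h2, h3⟩ := h
  have inj : Function.Injective (fun x : ι → Bool => (Sum.elim x (fun _ => false) : ι ⊕ κ → Bool)) := by
    intro x y hxy
    funext i
    simpa using congrFun hxy (Sum.inl i)
  refine ⟨σ.image (fun x => Sum.elim x (fun _ => false)), ⟨h0.image _, ?_, ?_, ?_⟩,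
    card_image_of_injective _ inj⟩
  · intro x hx y hy
    obtain ⟨x, hx', rfl⟩ := mem_image.1 hx
    obtain ⟨y, hy', rfl⟩ := mem_image.1 hy
    rw [hd_sum]
    simpa using h1 x hx' y hy'
  · intro z hz
    by_cases hz1 : z ∘ Sum.inl ∈ σ
    · obtain ⟨y, hy, he⟩ := h3 _ hz1
      refine ⟨_, mem_image.2 ⟨y, hy, rfl⟩, ?_⟩
      rw [hd_sum]
      simp only [Sum.elim_comp_inl, Sum.elim_comp_inr, he]
      have : z ∘ Sum.inr ≠ fun _ => false := by
        intro hh
        apply hz
        refine mem_image.2 ⟨_, hz1, ?_⟩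
        rw [← hh]
        exact Sum.elim_comp_inl_inr z
      have := hammingDist_pos.2 this
      omega
    · obtain ⟨y, hy, hlt⟩ := h2 _ hz1
      refine ⟨_, mem_image.2 ⟨y, hy, rfl⟩, ?_⟩
      rw [hd_sum]
      simp only [Sum.elim_comp_inl, Sum.elim_comp_inr]
      omega
  · intro x hx
    obtain ⟨x, hx', rfl⟩ := mem_image.1 hx
    obtain ⟨y, hy, he⟩ := h3 x hx'
    refine ⟨_, mem_image.2 ⟨y, hy, rfl⟩, ?_⟩
    rw [hd_sum]
    simpa using he

lemma glue {ι κ : Type} [Fintype ι] [Fintype κ] [DecidableEq ι] [DecidableEq κ] {r : ℕ}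
    (A : (κ → Bool) → Finset (ι → Bool)) (hA : ∀ y, RF r (A y))
    (hsym : ∀ y, A (fun i => !y i) = A y)
    (hcross : ∀ y y', ∀ x ∈ A y, ∀ x' ∈ A y', hammingDist x x' ≤ r + 1) :
    ∃ τ : Finset (ι ⊕ κ → Bool), RF (r + Fintype.card κ) τ ∧ τ.card = ∑ y, (A y).card := by
  refine ⟨univ.filter (fun z => z ∘ Sum.inl ∈ A (z ∘ Sum.inr)), ⟨?_, ?_, ?_, ?_⟩, ?_⟩
  · obtain ⟨x, hx⟩ := (hA (fun _ => false)).1
    exact ⟨Sum.elim x (fun _ => false), by simpa using hx⟩
  · intro z hz w hw
    simp only [mem_filter, mem_univ, true_and] at hz hw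
    rw [hd_sum]
    by_cases h : w ∘ Sum.inr = fun i => !(z ∘ Sum.inr) i
    · rw [h, hsym] at hw
      have := (hA _).2.1 _ hz _ hw
      have h2 : hammingDist (z ∘ Sum.inr) (w ∘ Sum.inr) ≤ Fintype.card κ := hammingDist_le_card_fintype
      omega
    · have := hd_lt _ _ h
      have := hcross _ _ _ hz _ hw
      omega
  · intro z hz
    simp only [mem_filter, mem_univ, true_and] at hz
    obtain ⟨y, hy, hlt⟩ := (hA _).2.2.1 _ hz
    refine ⟨Sum.elim y (fun i => !(z ∘ Sum.inr) i), ?_, ?_⟩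
    · simp only [mem_filter, mem_univ, true_and, Sum.elim_comp_inl, Sum.elim_comp_inr, hsym, hy]
    · rw [hd_sum]
      simp only [Sum.elim_comp_inl, Sum.elim_comp_inr, hd_neg]
      omega
  · intro z hz
    simp only [mem_filter, mem_univ, true_and] at hz
    obtain ⟨y, hy, he⟩ := (hA _).2.2.2 _ hz
    refine ⟨Sum.elim y (fun i => !(z ∘ Sum.inr) i), ?_, ?_⟩
    · simp only [mem_filter, mem_univ, true_and, Sum.elim_comp_inl, Sum.elim_comp_inr, hsym, hy]
    · rw [hd_sum]
      simp only [Sum.elim_comp_inl, Sum.elim_comp_inr, hd_neg]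
      omega
  · rw [← card_sigma]
    apply card_bij (fun z _ => (⟨z ∘ Sum.inr, z ∘ Sum.inl⟩ : Σ _ : κ → Bool, ι → Bool))
    · intro z hz
      simpa using hz
    · intro z _ w _ h
      simp only [Sigma.mk.injEq, heq_eq_eq] at h
      rw [← Sum.elim_comp_inl_inr z, ← Sum.elim_comp_inl_inr w, h.1, h.2]
    · rintro ⟨y, x⟩ h
      exact ⟨Sum.elim x y, by simpa using h, by simp⟩

def bits (k a : ℕ) : Fin k → Bool := fun i => a.testBit i.1

def A8 : Finset (Fin 6 → Bool) := ([4, 15, 19, 24, 33, 42, 54, 61].map (bits 6)).toFinset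
def B16 : Finset (Fin 6 → Bool) :=
  ([8, 16, 18, 20, 22, 26, 28, 31, 38, 49, 50, 52, 56, 58, 60, 62].map (bits 6)).toFinset

instance {ι : Type} [Fintype ι] [DecidableEq ι] (r : ℕ) (σ : Finset (ι → Bool)) : Decidable (RF r σ) := by
  unfold RF; infer_instance

lemma rfA : RF 4 A8 := by decide +kernel
lemma rfB : RF 4 B16 := by decide +kernel
lemma cardA : A8.card = 8 := by decide +kernel
lemma cardB : B16.card = 16 := by decide +kernel
lemma crossAB : ∀ x ∈ A8, ∀ y ∈ B16, hammingDist x y ≤ 5 := by decide +kernel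

lemma exists_sym (t j : ℕ) (hj : j ≤ 2 ^ t) : ∃ T : Finset (Option (Fin t) → Bool),
    T.card = 2 * j ∧ ∀ y, (fun i => !y i) ∈ T ↔ y ∈ T := by
  obtain ⟨J, -, hJ⟩ := exists_subset_card_eq (s := (univ : Finset (Fin t → Bool))) (n := j)
    (by simpa using hj)
  refine ⟨univ.filter (fun y => (fun i => xor (y (some i)) (y none)) ∈ J), ?_, ?_⟩
  · rw [← hJ, show 2 = (univ : Finset Bool).card by simp, ← card_product]
    apply card_bij (fun y _ => (y none, fun i => xor (y (some i)) (y none)))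
    · intro y hy
      simpa using hy
    · intro y _ w _ h
      simp only [Prod.mk.injEq] at h
      funext i
      cases i with
      | none => exact h.1
      | some i =>
        have := congrFun h.2 i
        simp only [h.1] at this
        revert this
        cases y (some i) <;> cases w (some i) <;> cases w none <;> simp
    · rintro ⟨b, w⟩ h
      simp only [mem_product, mem_univ, true_and] at h
      have e : (fun i => xor (xor (w i) b) b) = w := by funext i; simp
      refine ⟨fun o => o.elim b (fun i => xor (w i) b), ?_, ?_⟩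
      · simpa [e] using h
      · simp
  · intro y
    simp

lemma exists_facet (t p j : ℕ) (hj : j ≤ 2 ^ t) :
    ∃ σ : Finset (Fin (t + 7 + p) → Bool), RF (t + 5) σ ∧ σ.card + 16 * j = 32 * 2 ^ t := by
  obtain ⟨T, hT, hsym⟩ := exists_sym t j hj
  obtain ⟨τ, hτ, hc⟩ := glue (r := 4) (fun y : Option (Fin t) → Bool => if y ∈ T then A8 else B16)
    (fun y => by split_ifs; exacts [rfA, rfB]) (fun y => by simp only [hsym])
    (by
      intro y y' x hx x' hx'
      split_ifs at hx hx'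
      · exact (rfA.2.1 x hx x' hx').trans (by norm_num)
      · exact crossAB x hx x' hx'
      · rw [hammingDist_comm]; exact crossAB x' hx' x hx
      · exact (rfB.2.1 x hx x' hx').trans (by norm_num))
  obtain ⟨τ', hτ', hc'⟩ := hτ.pad (Fin p)
  obtain ⟨σ, hσ, hc''⟩ := hτ'.transfer (κ := Fin (t + 7 + p))
    (Fintype.equivOfCardEq (by simp; omega))
  refine ⟨σ, ?_, ?_⟩
  · convert hσ using 1
    simp; omega
  · rw [hc'', hc', hc]
    simp only [apply_ite Finset.card, cardA, cardB]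
    rw [sum_ite]
    simp only [sum_const, smul_eq_mul, filter_mem_eq_inter, univ_inter]
    have h1 : (univ.filter (fun y => y ∉ T)).card + T.card = 2 ^ (t + 1) := by
      have : univ.filter (fun y => y ∉ T) = Tᶜ := by ext y; simp
      rw [this, card_compl]
      have := card_le_univ T
      simp only [Fintype.card_pi, Fintype.card_bool, prod_const, card_univ, Fintype.card_option,
        Fintype.card_fin] at this ⊢
      omega
    rw [pow_succ] at h1
    omega

theorem numDims_gt (r n : ℕ) (hr : 5 ≤ r) (hn : r + 2 ≤ n) : 2 ^ (r - 5) < numDims n r := by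
  obtain ⟨t, rfl⟩ : ∃ t, r = t + 5 := ⟨r - 5, by omega⟩
  obtain ⟨p, rfl⟩ : ∃ p, n = t + 7 + p := ⟨n - (t + 7), by omega⟩
  rw [Nat.add_sub_cancel, numDims]
  have hfin : {d : ℕ | ∃ σ : Finset (Fin (t + 7 + p) → Bool), IsRigidFacet (t + 5) σ ∧ σ.card - 1 = d}.Finite := by
    apply (Set.finite_range (fun σ : Finset (Fin (t + 7 + p) → Bool) => σ.card - 1)).subset
    rintro d ⟨σ, -, h⟩
    exact ⟨σ, h⟩
  have hsub : (((range (2 ^ t + 1)).image (fun j => 32 * 2 ^ t - 16 * j - 1) : Finset ℕ) : Set ℕ) ⊆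
      {d : ℕ | ∃ σ : Finset (Fin (t + 7 + p) → Bool), IsRigidFacet (t + 5) σ ∧ σ.card - 1 = d} := by
    intro d hd
    simp only [coe_image, coe_range, Set.mem_image, Set.mem_Iio] at hd
    obtain ⟨j, hj, rfl⟩ := hd
    obtain ⟨σ, hσ, hc⟩ := exists_facet t p j (by omega)
    exact ⟨σ, hσ.rigidFacet, by omega⟩
  have := Set.ncard_le_ncard hsub hfin
  rw [Set.ncard_coe_finset, card_image_of_injOn, card_range] at this
  · omega
  · intro a ha b hb hab
    simp only [coe_range, Set.mem_Iio] at ha hb hab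
    have : 0 < 2 ^ t := by positivity
    omega

end Pool.Agent.H13.Rips
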