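import Pool.Agent.H13.Rips

set_option autoImplicit false

namespace Pool.Agent.H13.Rips

open Finset

def wt8 (a0 a1 a2 a3 a4 a5 a6 a7 : Bool) : ℕ :=
  a0.toNat + a1.toNat + a2.toNat + a3.toNat + a4.toNat + a5.toNat + a6.toNat + a7.toNat

def okw (w : ℕ) : Bool := w == 2 || w == 3 || w == 8

def wt (x : Fin 8 → Bool) : ℕ := wt8 (x 0) (x 1) (x 2) (x 3) (x 4) (x 5) (x 6) (x 7)

def A85 : Finset (Fin 8 → Bool) := univ.filter (fun x => okw (wt x))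

lemma hd8 (x y : Fin 8 → Bool) : hammingDist x y =
    wt8 (xor (x 0) (y 0)) (xor (x 1) (y 1)) (xor (x 2) (y 2)) (xor (x 3) (y 3))
      (xor (x 4) (y 4)) (xor (x 5) (y 5)) (xor (x 6) (y 6)) (xor (x 7) (y 7)) := by
  have h : ∀ a b : Bool, (if a ≠ b then 1 else 0) = (xor a b).toNat := by decide
  simp only [hd_eq_sum, h, Fin.sum_univ_eight, wt8]

lemma c1 : ∀ a0 a1 a2 a3 a4 a5 a6 a7 : Bool, okw (wt8 a0 a1 a2 a3 a4 a5 a6 a7) = true →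
    ∀ b0 b1 b2 b3 b4 b5 b6 b7 : Bool, okw (wt8 b0 b1 b2 b3 b4 b5 b6 b7) = true →
    Nat.ble (wt8 (xor a0 b0) (xor a1 b1) (xor a2 b2) (xor a3 b3) (xor a4 b4) (xor a5 b5) (xor a6 b6)
      (xor a7 b7)) 6 = true := by decide +kernel

lemma c2 : ∀ a0 a1 a2 a3 a4 a5 a6 a7 : Bool, okw (wt8 a0 a1 a2 a3 a4 a5 a6 a7) = false →
    ∃ b0 b1 b2 b3 b4 b5 b6 b7 : Bool, okw (wt8 b0 b1 b2 b3 b4 b5 b6 b7) = true ∧
    Nat.ble 7 (wt8 (xor a0 b0) (xor a1 b1) (xor a2 b2) (xor a3 b3) (xor a4 b4) (xor a5 b5) (xor a6 b6)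
      (xor a7 b7)) = true := by decide +kernel

lemma c3 : ∀ a0 a1 a2 a3 a4 a5 a6 a7 : Bool, okw (wt8 a0 a1 a2 a3 a4 a5 a6 a7) = true →
    ∃ b0 b1 b2 b3 b4 b5 b6 b7 : Bool, okw (wt8 b0 b1 b2 b3 b4 b5 b6 b7) = true ∧
    (wt8 (xor a0 b0) (xor a1 b1) (xor a2 b2) (xor a3 b3) (xor a4 b4) (xor a5 b5) (xor a6 b6)
      (xor a7 b7)) = 6 := by decide +kernel

lemma rf85 : RF 6 A85 := by
  refine ⟨⟨fun _ => true, by decide⟩, ?_, ?_, ?_⟩
  · intro x hx y hy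
    simp only [A85, mem_filter, mem_univ, true_and] at hx hy
    rw [hd8]
    simpa using c1 _ _ _ _ _ _ _ _ hx _ _ _ _ _ _ _ _ hy
  · intro x hx
    simp only [A85, mem_filter, mem_univ, true_and, Bool.not_eq_true] at hx
    obtain ⟨b0, b1, b2, b3, b4, b5, b6, b7, h1, h2⟩ := c2 _ _ _ _ _ _ _ _ hx
    refine ⟨![b0, b1, b2, b3, b4, b5, b6, b7], ?_, ?_⟩
    · simp only [A85, mem_filter, mem_univ, true_and]; exact h1
    · rw [hd8]
      exact Nat.le_of_ble_eq_true h2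
  · intro x hx
    simp only [A85, mem_filter, mem_univ, true_and] at hx
    obtain ⟨b0, b1, b2, b3, b4, b5, b6, b7, h1, h2⟩ := c3 _ _ _ _ _ _ _ _ hx
    refine ⟨![b0, b1, b2, b3, b4, b5, b6, b7], ?_, ?_⟩
    · simp only [A85, mem_filter, mem_univ, true_and]; exact h1
    · rw [hd8]
      exact h2

lemma card85 : A85.card = 85 := by decide +kernel

end Pool.Agent.H13.Rips
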