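import Mathlib

set_option autoImplicit false

namespace Pool.Agent.H13.Rips

/-- A simplex of the Vietoris-Rips complex of the n-cube at scale r: a nonempty set of points with
all Hamming distances at most r. -/
def IsSimplex {n : ℕ} (r : ℕ) (σ : Finset (Fin n → Bool)) : Prop :=
  σ.Nonempty ∧ ∀ x ∈ σ, ∀ y ∈ σ, hammingDist x y ≤ r

/-- A rigid facet: an inclusion-maximal simplex in which the largest distance from each point is r. -/
def IsRigidFacet {n : ℕ} (r : ℕ) (σ : Finset (Fin n → Bool)) : Prop :=
  Maximal (IsSimplex r) σ ∧ ∀ x ∈ σ, σ.sup (fun y => hammingDist x y) = r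

/-- The number of distinct dimensions of rigid facets. -/
noncomputable def numDims (n r : ℕ) : ℕ :=
  {d : ℕ | ∃ σ : Finset (Fin n → Bool), IsRigidFacet r σ ∧ σ.card - 1 = d}.ncard

/-- The diameter of a finite subset of the n-cube. -/
def diam {n : ℕ} (A : Finset (Fin n → Bool)) : ℕ :=
  A.sup (fun x => A.sup (fun y => hammingDist x y))

/-- A has diameter r and adding any further point makes the diameter larger than r. -/
def MaxDiam {n : ℕ} (r : ℕ) (A : Finset (Fin n → Bool)) : Prop :=
  diam A = r ∧ ∀ x, x ∉ A → r < diam (insert x A)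

/-- Every point of A has largest distance diam A to the points of A. -/
def Rigid {n : ℕ} (A : Finset (Fin n → Bool)) : Prop :=
  ∀ a ∈ A, A.sup (fun x => hammingDist x a) = diam A

end Pool.Agent.H13.Rips
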