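import Mathlib

set_option autoImplicit false

namespace Pool.Agent.H13.Super3

open Finset SimpleGraph

lemma common (t : ℕ) : ∀ η : ℝ, 0 < η → ∃ η' : ℝ, 0 < η' ∧ ∃ M : ℕ, ∀ (α β : Type) [Fintype α]
    [Fintype β] (N : β → Finset α), M ≤ Fintype.card α → 0 < Fintype.card β →
    η * Fintype.card α * Fintype.card β ≤ ∑ y, (#(N y) : ℝ) →
    ∃ S : Finset α, #S = t ∧ ∃ T : Finset β, η' * Fintype.card β ≤ #T ∧
      ∀ y ∈ T, (N y).Nonempty ∧ S ⊆ N y := by
  classical
  induction t with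
  | zero =>
    intro η hη
    refine ⟨η, hη, 1, fun α β _ _ N hM hβ h =>
      ⟨∅, rfl, univ.filter (fun y => (N y).Nonempty), ?_, fun y hy => ⟨by simpa using hy, by simp⟩⟩⟩
    have hα : (0 : ℝ) < Fintype.card α := by exact_mod_cast hM
    have : ∑ y, (#(N y) : ℝ) ≤ Fintype.card α * #(univ.filter (fun y => (N y).Nonempty)) := by
      rw [card_filter]
      push_cast
      rw [mul_sum]
      refine sum_le_sum fun y _ => ?_
      split_ifs with h1
      · rw [mul_one]; exact_mod_cast card_le_univ _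
      · simp [not_nonempty_iff_eq_empty.1 h1]
    nlinarith
  | succ t ih =>
    intro η hη
    obtain ⟨η', hη', M, hM⟩ := ih (η ^ 2 / 2) (by positivity)
    obtain ⟨M', hM'⟩ := exists_nat_ge (2 / η ^ 2)
    refine ⟨η', hη', M + M' + 1, fun α β _ _ N hα hβ h => ?_⟩
    have hα0 : (0 : ℝ) < Fintype.card α := by exact_mod_cast (by omega : 0 < Fintype.card α)
    have hβ0 : (0 : ℝ) < Fintype.card β := by exact_mod_cast hβ
    have hα1 : 2 / η ^ 2 ≤ Fintype.card α :=
      hM'.trans (by exact_mod_cast (by omega : M' ≤ Fintype.card α))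
    rw [div_le_iff₀ (by positivity)] at hα1
    have cs := sq_sum_le_card_mul_sum_sq (s := univ) (f := fun y => (#(N y) : ℝ))
    have e : ∑ y, (#(N y) : ℝ) ^ 2 = ∑ z, ∑ y, (if z ∈ N y then (#(N y) : ℝ) else 0) := by
      rw [sum_comm]
      refine sum_congr rfl fun y _ => ?_
      rw [← sum_filter]
      simp [sq]
    obtain ⟨z, -, hz⟩ := exists_le_of_sum_le (s := (univ : Finset α))
      (f := fun _ => η ^ 2 * Fintype.card α * Fintype.card β)
      (g := fun z => ∑ y, (if z ∈ N y then (#(N y) : ℝ) else 0))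
      (univ_nonempty_iff.2 (Fintype.card_pos_iff.1 (by omega))) (by
        rw [← e, sum_const, card_univ, nsmul_eq_mul]
        rw [card_univ] at cs
        have h2 := pow_le_pow_left₀ (by positivity) h 2
        apply le_of_mul_le_mul_left _ hβ0
        nlinarith)
    obtain ⟨S, hS, T, hT, hN⟩ := hM α β (fun y => if z ∈ N y then (N y).erase z else ∅)
      (by omega) hβ (by
      have : ∑ y, (if z ∈ N y then (#(N y) : ℝ) else 0) ≤
          ∑ y, ((#(if z ∈ N y then (N y).erase z else ∅) : ℝ) + 1) := by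
        refine sum_le_sum fun y _ => ?_
        split_ifs with h1
        · exact_mod_cast (card_erase_add_one h1).ge
        · simp
      rw [sum_add_distrib, sum_const, card_univ, nsmul_eq_mul, mul_one] at this
      have h3 := mul_le_mul_of_nonneg_right hα1 hβ0.le
      nlinarith)
    have hz' : ∀ y ∈ T, z ∈ N y ∧ S ⊆ (N y).erase z := by
      intro y hy
      have := hN y hy
      by_cases h1 : z ∈ N y
      · simp only [h1, if_true] at this; exact ⟨h1, this.2⟩
      · simp [h1] at this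
    have hzS : z ∉ S := by
      intro hzS
      have h1 : 0 < η' * Fintype.card β := by positivity
      obtain ⟨y, hy⟩ : T.Nonempty := card_pos.1 (by exact_mod_cast h1.trans_le hT)
      simpa using (hz' y hy).2 hzS
    refine ⟨insert z S, by rw [card_insert_of_notMem hzS, hS], T, hT, fun y hy =>
      ⟨⟨z, (hz' y hy).1⟩, insert_subset (hz' y hy).1 ((hz' y hy).2.trans (erase_subset _ _))⟩⟩

lemma supersat {W : Type} [Fintype W] (H : SimpleGraph W) (hH : H.Colorable 3) (η : ℝ) (hη : 0 < η) :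
    ∃ M : ℕ, ∀ (V : Type) [Fintype V] [DecidableEq V] (G : SimpleGraph V) [DecidableRel G.Adj],
      M ≤ Fintype.card V → η * (Fintype.card V : ℝ) ^ 3 ≤ #(G.cliqueFinset 3) → H ⊑ G := by
  obtain ⟨η1, h1, M1, H1⟩ := common (Fintype.card W + 1) η hη
  obtain ⟨η2, h2, M2, H2⟩ := common (Fintype.card W + 1) η1 h1
  obtain ⟨M3, H3⟩ := exists_nat_ge ((Fintype.card W + 1 : ℝ) / η2)
  refine ⟨M1 + M2 + M3 + 1, fun V _ _ G _ hM hT => ?_⟩
  have hV : 0 < Fintype.card V := by omega
  obtain ⟨S1, c1, T1, n1, m1⟩ := H1 V (V × V)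
    (fun p => univ.filter (fun a => G.Adj a p.1 ∧ G.Adj a p.2 ∧ G.Adj p.1 p.2))
    (by omega) (by rw [Fintype.card_prod]; positivity) (by
      have : #(G.cliqueFinset 3) ≤ ∑ p : V × V,
          #(univ.filter (fun a => G.Adj a p.1 ∧ G.Adj a p.2 ∧ G.Adj p.1 p.2)) := by
        rw [← card_sigma]
        refine le_trans (card_le_card ?_) (card_image_le (f := fun q : (_ : V × V) × V =>
          ({q.2, q.1.1, q.1.2} : Finset V)))
        intro s hs
        rw [mem_cliqueFinset_iff, is3Clique_iff] at hs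
        obtain ⟨a, b, c, k1, k2, k3, rfl⟩ := hs
        exact mem_image.2 ⟨⟨(b, c), a⟩, by simp [k1, k2, k3], rfl⟩
      have h4 : (#(G.cliqueFinset 3) : ℝ) ≤ ∑ p : V × V,
          (#(univ.filter (fun a => G.Adj a p.1 ∧ G.Adj a p.2 ∧ G.Adj p.1 p.2)) : ℝ) := by
        exact_mod_cast this
      rw [Fintype.card_prod]
      push_cast
      nlinarith)
  obtain ⟨S2, c2, T2, n2, m2⟩ := H2 V V (fun c => univ.filter (fun b => (b, c) ∈ T1))
    (by omega) hV (by
      rw [Fintype.card_prod] at n1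
      push_cast at n1
      rw [mul_assoc]
      refine n1.trans ?_
      norm_cast
      rw [← card_sigma]
      refine le_trans (card_le_card ?_) (card_image_le (f := fun q : (_ : V) × V => (q.2, q.1)))
      rintro ⟨b, c⟩ hp
      exact mem_image.2 ⟨⟨c, b⟩, by simpa using hp, rfl⟩)
  obtain ⟨S3, s3, c3⟩ := exists_subset_card_eq (n := Fintype.card W + 1) (s := T2) (by
    rw [div_le_iff₀ h2] at H3
    have h5 : (M3 : ℝ) ≤ Fintype.card V := by exact_mod_cast (by omega : M3 ≤ Fintype.card V)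
    have h6 : ((Fintype.card W + 1 : ℕ) : ℝ) ≤ η2 * Fintype.card V := by push_cast; nlinarith
    exact_mod_cast h6.trans n2)
  have key : ∀ a ∈ S1, ∀ b ∈ S2, ∀ c ∈ S3, G.Adj a b ∧ G.Adj a c ∧ G.Adj b c :=
    fun a ha b hb c hc =>
      (mem_filter.1 ((m1 _ (mem_filter.1 ((m2 c (s3 hc)).2 hb)).2).2 ha)).2
  obtain ⟨a0, ha0⟩ : S1.Nonempty := card_pos.1 (by omega)
  obtain ⟨b0, hb0⟩ : S2.Nonempty := card_pos.1 (by omega)
  obtain ⟨c0, hc0⟩ : S3.Nonempty := card_pos.1 (by omega)
  let S : Fin 3 → Finset V := ![S1, S2, S3]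
  have hadj : ∀ i j, i ≠ j → ∀ x ∈ S i, ∀ y ∈ S j, G.Adj x y := by
    intro i j hij x hx y hy
    fin_cases i <;> fin_cases j <;> first
      | exact absurd rfl hij
      | exact (key x hx y hy c0 hc0).1
      | exact (key x hx b0 hb0 y hy).2.1
      | exact (key a0 ha0 x hx y hy).2.2
      | exact (key y hy x hx c0 hc0).1.symm
      | exact (key y hy b0 hb0 x hx).2.1.symm
      | exact (key a0 ha0 y hy x hx).2.2.symm
  have he : ∀ i, Nonempty (W ↪ S i) := by
    intro i
    apply Function.Embedding.nonempty_of_card_le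
    fin_cases i <;> simp [S, c1, c2, c3]
  let e : ∀ i, W ↪ S i := fun i => (he i).some
  obtain ⟨C⟩ := hH
  refine ⟨⟨⟨fun w => (e (C w) w).1, fun {u v} h => hadj _ _ (C.valid h) _ (e _ u).2 _ (e _ v).2⟩, ?_⟩⟩
  intro u v huv
  by_cases hc : C u = C v
  · have : ∀ i j, i = j → (e i u).1 = (e j v).1 → u = v := by
      rintro i _ rfl h
      exact (e i).injective (Subtype.ext h)
    exact this _ _ hc huv
  · exact absurd huv (hadj _ _ hc _ (e _ u).2 _ (e _ v).2).ne

open Classical in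
lemma remove {W : Type} [Fintype W] (H : SimpleGraph W) (hH : H.Colorable 3) (δ : ℝ) (hδ : 0 < δ) :
    ∃ M : ℕ, ∀ m, M ≤ m → ∀ G : SimpleGraph (Fin m), ¬ H ⊑ G →
      ∃ s : Finset (Sym2 (Fin m)), (G.deleteEdges s).CliqueFree 3 ∧ (#s : ℝ) ≤ δ * m ^ 2 := by
  obtain ⟨M, hM⟩ := supersat H hH _ (triangleRemovalBound_pos hδ)
  refine ⟨M, fun m hm G hG => ?_⟩
  by_contra hc
  push Not at hc
  apply hG
  refine hM (Fin m) G (by simpa using hm) (FarFromTriangleFree.le_card_cliqueFinset ?_)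
  intro s _ hs
  simpa using (hc s hs).le

end Pool.Agent.H13.Super3
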