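import Mathlib

namespace Pool.Agent.H13.TensorGaps
open Function

/-- one step `S_k ↦ S_{k+1}` for a tensor of order `d + 1`; `A u I = a_{u I_1 ⋯ I_d}` -/
def Fs {n d : ℕ} (A : Fin n → (Fin d → Fin n) → ℝ) (X : Set (Fin n)) : Set (Fin n) :=
  {u | ∃ I, (∀ t, I t ∈ X) ∧ 0 < A u I}

/-- the `k ≥ 1` with `S_k(A, j) = [n]` -/
def Ex {n d : ℕ} (A : Fin n → (Fin d → Fin n) → ℝ) (j : Fin n) : Set ℕ :=
  {k | 1 ≤ k ∧ (Fs A)^[k] {j} = Set.univ}

/-- `R_j(d + 1, n)` -/
def R (d n : ℕ) (j : Fin n) : Set ℕ :=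
  {k | ∃ A : Fin n → (Fin d → Fin n) → ℝ, (∀ u I, 0 ≤ A u I) ∧ (¬ ∀ i, (Ex A i).Nonempty) ∧
    IsLeast (Ex A j) k}

section comb
variable {α : Type} {F : Set α → Set α}

def Wk (F : Set α → Set α) (a : ℕ) (x y : α) : Prop := y ∈ F^[a] {x}

theorem Wk.sub (hF : Monotone F) {a x y} (h : Wk F a x y) (b : ℕ) :
    F^[b] {y} ⊆ F^[a + b] {x} := by
  rw [add_comm, iterate_add_apply]
  exact hF.iterate b (Set.singleton_subset_iff.2 h)

theorem Wk.trans (hF : Monotone F) {a b x y z} (h : Wk F a x y) (k : Wk F b y z) :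
    Wk F (a + b) x z := h.sub hF b k

theorem wk0 (x : α) : Wk F 0 x x := rfl

theorem Wk.mul (hF : Monotone F) {a x} (h : Wk F a x x) (c : ℕ) : Wk F (c * a) x x := by
  induction c with
  | zero => simpa using wk0 x
  | succ c ih => rw [add_mul, one_mul]; exact ih.trans hF h

theorem stay (hF : Monotone F) {a b : ℕ} {X} (h : F^[a + 1] X = Set.univ)
    (ab : a + 1 ≤ b) : F^[b] X = Set.univ := by
  have hU : F Set.univ = Set.univ := by
    rw [iterate_succ_apply'] at h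
    exact Set.eq_univ_of_univ_subset (h.ge.trans (hF (Set.subset_univ _)))
  obtain ⟨c, rfl⟩ := Nat.exists_eq_add_of_le' ab
  rw [iterate_add_apply, h, iterate_fixed hU]

theorem chain [Fintype α] (Q : ℕ → Set α) (U : Set α) (mono : ∀ t, Q t ⊆ Q (t + 1))
    (sub : ∀ t, Q t ⊆ U) (stab : ∀ t, Q (t + 1) ⊆ Q t → U ⊆ Q t) (t : ℕ) :
    U ⊆ Q t ∨ (Q 0).ncard + t ≤ (Q t).ncard := by
  induction t with
  | zero => simp
  | succ t ih =>
    by_cases e : Q (t + 1) ⊆ Q t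
    · exact Or.inl ((stab t e).trans (mono t))
    rcases ih with ih | ih
    · exact Or.inl (ih.trans (mono t))
    · have := Set.ncard_lt_ncard (⟨mono t, e⟩ : Q t ⊂ Q (t + 1)) (Set.toFinite _)
      omega

def Add (F : Set α → Set α) : Prop := ∀ X u, u ∈ F X → ∃ x ∈ X, u ∈ F {x}

theorem Wk.split (hF : Monotone F) (hA : Add F) {a b x z} (h : Wk F (a + b) x z) :
    ∃ y, Wk F a x y ∧ Wk F b y z := by
  induction b generalizing z with
  | zero => exact ⟨z, h, wk0 z⟩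
  | succ b ih =>
    rw [Wk, ← add_assoc, iterate_succ_apply'] at h
    obtain ⟨y, h1, h2⟩ := hA _ _ h
    obtain ⟨w, h3, h4⟩ := ih h1
    exact ⟨w, h3, h4.trans hF (show Wk F 1 y z from h2)⟩

theorem Wk.path (hF : Monotone F) (hA : Add F) {a x z} (h : Wk F a x z) :
    ∃ w : ℕ → α, w 0 = x ∧ w a = z ∧ ∀ i k, i ≤ k → k ≤ a → Wk F (k - i) (w i) (w k) := by
  have : ∃ w : ℕ → α, w 0 = x ∧ w a = z ∧ ∀ i < a, Wk F 1 (w i) (w (i + 1)) := by
    induction a generalizing z with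
    | zero => exact ⟨fun _ => x, rfl, h.symm, by simp⟩
    | succ a ih =>
      obtain ⟨y, h1, h2⟩ := h.split hF hA
      obtain ⟨w, a1, a2, a3⟩ := ih h1
      refine ⟨fun i => if i ≤ a then w i else z, by simpa, by simp, fun i hi => ?_⟩
      by_cases c : i < a
      · simpa [c.le, Nat.succ_le_of_lt c] using a3 i c
      · obtain rfl : i = a := by omega
        simpa [a2] using h2
  obtain ⟨w, a1, a2, a3⟩ := this
  refine ⟨w, a1, a2, fun i k ik => ?_⟩
  induction k, ik using Nat.le_induction with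
  | base => simpa using fun _ => wk0 _
  | succ k ik ih =>
    intro l
    rw [Nat.succ_sub ik]
    exact (ih (by omega)).trans hF (a3 k l)

theorem near [Fintype α] (hF : Monotone F) (hA : Add F) {U X : Set α} (XU : X ⊆ U)
    (cl : ∀ a x y, Wk F a x y → y ∈ U → x ∈ U) (re : ∀ y ∈ U, ∃ a, ∃ x ∈ X, Wk F a x y)
    {Z : Set α} (ZU : Z ⊆ U) (hZ : Z.Nonempty) {t : ℕ} (ht : U.ncard < X.ncard + t + Z.ncard) :
    ∃ z ∈ Z, ∃ a ≤ t, ∃ x ∈ X, Wk F a x z := by
  have := chain (fun t => {y ∈ U | ∃ a ≤ t, ∃ x ∈ X, Wk F a x y}) U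
    (fun t y ⟨h, a, l, r⟩ => ⟨h, a, by omega, r⟩) (fun t y h => h.1) (fun t e y hy => by
      obtain ⟨a, x, hx, h⟩ := re y hy
      induction a generalizing y with
      | zero => exact ⟨hy, 0, by omega, x, hx, h⟩
      | succ a ih =>
        obtain ⟨w, h1, h2⟩ := h.split hF hA
        obtain ⟨-, b, l, v, hv, k⟩ := ih w (cl _ _ _ h2 hy) h1
        exact e ⟨hy, b + 1, by omega, v, hv, k.trans hF h2⟩) t
  rcases this with h | h
  · obtain ⟨z, hz⟩ := hZ
    exact ⟨z, hz, (h (ZU hz)).2⟩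
  · by_contra c
    have d : Disjoint {y ∈ U | ∃ a ≤ t, ∃ x ∈ X, Wk F a x y} Z :=
      Set.disjoint_left.2 fun y h hz => c ⟨y, hz, h.2⟩
    have h1 := Set.ncard_union_eq d
    have h2 := Set.ncard_le_ncard (Set.union_subset (Set.sep_subset U _) ZU :
      {y ∈ U | ∃ a ≤ t, ∃ x ∈ X, Wk F a x y} ∪ Z ⊆ U)
    have h3 : X.ncard ≤ {y ∈ U | ∃ a ≤ 0, ∃ x ∈ X, Wk F a x y}.ncard :=
      Set.ncard_le_ncard fun x hx => ⟨XU hx, 0, le_rfl, x, hx, wk0 x⟩
    omega

theorem near1 [Fintype α] (hF : Monotone F) (hA : Add F) {U : Set α} {x : α} (XU : x ∈ U)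
    (cl : ∀ a x y, Wk F a x y → y ∈ U → x ∈ U) (re : ∀ y, ∃ a, Wk F a x y)
    {Z : Set α} (ZU : Z ⊆ U) (hZ : Z.Nonempty) {t : ℕ} (ht : U.ncard ≤ t + Z.ncard) :
    ∃ z ∈ Z, ∃ a ≤ t, Wk F a x z := by
  obtain ⟨z, h1, a, h2, y, h3, h4⟩ := near hF hA (Set.singleton_subset_iff.2 XU) cl
    (fun y _ => (re y).imp fun a h => ⟨x, rfl, h⟩) ZU hZ (t := t)
    (by rw [Set.ncard_singleton]; omega)
  exact ⟨z, h1, a, h2, (show y = x from h3) ▸ h4⟩

theorem gap [Fintype α] (hF : Monotone F) (hA : Add F) {s : ℕ} (hc : Fintype.card α = s + 1)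
    (hs : 10 ≤ s) (ev : s % 2 = 0) {j i : α} {k : ℕ} (hk : k + 3 * s = s * s)
    (hj : F^[k + 1] {j} = Set.univ) (hi : ∀ a, F^[a + 1] {i} ≠ Set.univ) :
    F^[k] {j} = Set.univ := by
  obtain ⟨C, hC⟩ : ∃ C : Set α, C = {x | ∃ a, Wk F a x j} := ⟨_, rfl⟩
  have jC : j ∈ C := hC ▸ ⟨0, wk0 j⟩
  have cl : ∀ a x y, Wk F a x y → y ∈ C → x ∈ C := fun a x y h hy => by
    rw [hC] at hy ⊢; obtain ⟨b, k⟩ := hy; exact ⟨_, h.trans hF k⟩
  have pr : ∀ x ∈ C, ∃ a, F^[a + 1] {x} = Set.univ := fun x hx => by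
    rw [hC] at hx; obtain ⟨a, h⟩ := hx
    exact ⟨a + k, Set.eq_univ_of_univ_subset (hj ▸ h.sub hF (k + 1))⟩
  have re : ∀ x ∈ C, ∀ y, ∃ a, Wk F a x y := fun x hx y => by
    obtain ⟨a, h⟩ := pr x hx
    exact ⟨a + 1, by rw [Wk, h]; trivial⟩
  have cu : (Set.univ : Set α).ncard = s + 1 := by rw [Set.ncard_univ, Nat.card_eq_fintype_card, hc]
  have cs : C.ncard ≤ s := by
    have := Set.ncard_lt_ncard (Set.ssubset_univ_iff.2 fun e : C = Set.univ => by
      obtain ⟨a, h⟩ := pr i (e ▸ Set.mem_univ i); exact hi a h) (Set.toFinite _)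
    omega
  have out : ∀ b, (∀ l, b ≤ l → ∀ y ∈ C, Wk F l j y) → b + (s + 1 - C.ncard) ≤ k →
      F^[k] {j} = Set.univ := fun b h l => Set.eq_univ_of_forall fun y => by
    obtain ⟨_, rfl, a, h1, x, h2, h3⟩ := near hF hA (Set.subset_univ C) (fun _ _ _ _ _ => trivial)
      (fun y _ => (re j jC y).imp fun a h => ⟨j, jC, h⟩)
      (Set.subset_univ {y}) ⟨y, rfl⟩ (t := s + 1 - C.ncard) (by rw [Set.ncard_singleton]; omega)
    have := (h (k - a) (by omega) x h2).trans hF h3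
    rwa [Nat.sub_add_cancel (by omega)] at this
  have dec : ∀ P : ℕ → Prop, P 0 → (∀ a l, P a → 0 < l → l ≤ C.ncard → (∃ y ∈ C, Wk F l y y) →
      P (a + l)) → ∀ a, Wk F a j j → P a := by
    intro P p0 ps a
    induction a using Nat.strong_induction_on with
    | _ a ih =>
      intro h
      by_cases c : a ≤ C.ncard
      · rcases Nat.eq_zero_or_pos a with rfl | l
        · exact p0
        · simpa using ps 0 a p0 l c ⟨j, jC, h⟩
      obtain ⟨w, w0, wa, wk⟩ := h.path hF hA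
      have wC : ∀ t ≤ a, w t ∈ C := fun t ht => cl _ _ _ (wk t a ht le_rfl) (wa ▸ jC)
      obtain ⟨x, hx, y, hy, xy, e⟩ : ∃ x ∈ Set.Iic C.ncard, ∃ y ∈ Set.Iic C.ncard, x < y ∧ w x = w y := by
        obtain ⟨x, hx, y, hy, xy, e⟩ := Set.exists_ne_map_eq_of_ncard_lt_of_maps_to
          (s := Set.Iic C.ncard) (t := C) (f := w) (by simp)
          (fun t ht => wC t (by have := Set.mem_Iic.1 ht; omega))
        rcases lt_or_gt_of_ne xy with l | l
        · exact ⟨x, hx, y, hy, l, e⟩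
        · exact ⟨y, hy, x, hx, l, e.symm⟩
      rw [Set.mem_Iic] at hx hy
      have h1 := wk 0 x (by omega) (by omega)
      have h2 := wk y a (by omega) le_rfl
      have h3 := wk x y xy.le (by omega)
      rw [← e] at h2 h3
      rw [w0] at h1
      rw [wa] at h2
      have := ps _ _ (ih _ (by omega) (h1.trans hF h2)) (by omega) (by omega) ⟨_, wC x (by omega), h3⟩
      rwa [show x - 0 + (a - y) + (y - x) = a by omega] at this
  have jj : Wk F (k + 1) j j := by rw [Wk, hj]; trivial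
  classical
  have ex : ∃ l, 0 < l ∧ ∃ y ∈ C, Wk F l y y := ⟨k + 1, by omega, j, jC, jj⟩
  obtain ⟨g, ⟨g0, gq⟩, gm⟩ : ∃ g, (0 < g ∧ ∃ y ∈ C, Wk F g y y) ∧
      ∀ l, 0 < l → (∃ y ∈ C, Wk F l y y) → g ≤ l :=
    ⟨_, Nat.find_spec ex, fun l a b => Nat.find_min' ex ⟨a, b⟩⟩
  have big : ∀ l, l < 2 * g → (∃ y ∈ C, Wk F l y y) → l ≤ {z ∈ C | Wk F l z z}.ncard := by
    rintro l hl ⟨y, yC, h⟩
    obtain ⟨w, w0, wa, wk⟩ := h.path hF hA
    have wC : ∀ t ≤ l, w t ∈ C := fun t ht => cl _ _ _ (wk t l ht le_rfl) (wa ▸ yC)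
    have lp : ∀ a b, a ≤ b → b ≤ l → Wk F (l - b + a) (w b) (w a) := fun a b h1 h2 =>
      (wk b l h2 le_rfl).trans hF (by rw [wa, ← w0]; exact wk 0 a (by omega) (by omega))
    have ne : ∀ a b, a < b → b < l → w a ≠ w b := fun a b h1 h2 e => by
      have := gm (l - b + a) (by omega) ⟨w b, wC b h2.le, by have := lp a b h1.le h2.le; rwa [e] at this⟩
      have := gm (b - a) (by omega) ⟨w b, wC b h2.le, by have := wk a b h1.le h2.le; rwa [e] at this⟩
      omega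
    have := Set.ncard_le_ncard_of_injOn (s := Set.Iio l) (t := {z ∈ C | Wk F l z z}) w
      (fun t ht => ⟨wC t (le_of_lt ht), by
        have := lp t t le_rfl (le_of_lt ht); rwa [Nat.sub_add_cancel (le_of_lt ht)] at this⟩)
      fun a ha b hb e => by
        rcases lt_trichotomy a b with c | c | c
        · exact absurd e (ne a b c hb)
        · exact c
        · exact absurd e.symm (ne b a c ha)
    simpa using this
  have bg := big g (by omega) gq
  have gs : g ≤ C.ncard := bg.trans (Set.ncard_le_ncard (Set.sep_subset _ _))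
  by_cases c1 : s - 1 ≤ g
  · obtain ⟨c, h1, h2⟩ := dec (fun a => ∃ c, c * (s - 1) ≤ a ∧ a ≤ c * s) ⟨0, by simp⟩
      (fun a l ⟨c, h1, h2⟩ l0 l1 q => ⟨c + 1, by have := gm l l0 q; rw [add_mul]; omega,
        by rw [add_mul]; omega⟩) _ jj
    obtain ⟨r, rfl⟩ : ∃ r, s = r + 3 := ⟨s - 3, by omega⟩
    rw [show r + 3 - 1 = r + 2 by omega] at h1
    rcases le_or_gt c r with l | l <;> nlinarith
  by_cases c2 : g + 2 = s ∧ C.ncard = s
  · by_cases c3 : ∃ y ∈ C, Wk F (g + 1) y y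
    · have b1 := big (g + 1) (by omega) c3
      have := Set.ncard_union_add_ncard_inter {z ∈ C | Wk F g z z} {z ∈ C | Wk F (g + 1) z z}
      have := Set.ncard_le_ncard (Set.union_subset (Set.sep_subset C _) (Set.sep_subset C _) :
        {z ∈ C | Wk F g z z} ∪ {z ∈ C | Wk F (g + 1) z z} ⊆ C)
      obtain ⟨z, ⟨⟨zC, z1⟩, -, z2⟩, a, a3, h⟩ := near1 hF hA jC cl
        (re j jC) (Z := {z ∈ C | Wk F g z z} ∩ {z ∈ C | Wk F (g + 1) z z})
        (fun _ h => h.1.1) ((Set.ncard_pos (Set.toFinite _)).1 (by omega)) (t := 3)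
        (by omega)
      refine out (3 + (s - 1) + (g - 1) * g) (fun l hl y yC => ?_) ?_
      · obtain ⟨_, rfl, b, b3, h'⟩ := near1 hF hA zC cl
          (re z zC) (Set.singleton_subset_iff.2 yC) ⟨y, rfl⟩ (t := s - 1)
          (by simp only [Set.ncard_singleton]; omega)
        have e := Nat.div_add_mod (l - a - b) g
        have lt := Nat.mod_lt (l - a - b) g0
        have : g - 1 ≤ (l - a - b) / g := (Nat.le_div_iff_mul_le g0).2 (by omega)
        obtain ⟨q, hq⟩ := Nat.exists_eq_add_of_le (show (l - a - b) % g ≤ (l - a - b) / g by omega)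
        have := ((h.trans hF (z1.mul hF q)).trans hF (z2.mul hF ((l - a - b) % g))).trans hF h'
        rwa [show a + q * g + (l - a - b) % g * (g + 1) + b = l by
          rw [hq] at e; have : a + b ≤ l := by omega
          have : g * ((l - a - b) % g + q) = q * g + (l - a - b) % g * g := by ring
          rw [mul_add_one]; omega] at this
      · obtain ⟨r, rfl⟩ : ∃ r, g = r + 1 := ⟨g - 1, by omega⟩
        obtain ⟨rfl, e⟩ := c2
        rw [e]
        simp only [add_tsub_cancel_right, show r + 1 + 2 - 1 = r + 2 by omega,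
          show r + 1 + 2 + 1 - (r + 1 + 2) = 1 by omega]
        nlinarith
    · have := dec (fun a => a % 2 = 0) rfl (fun a l h l0 l1 q => by
        have := gm l l0 q
        have : l ≠ g + 1 := fun e => c3 (e ▸ q)
        omega) _ jj
      obtain ⟨r, rfl⟩ : ∃ r, s = 2 * r := ⟨s / 2, by omega⟩
      have : 2 * r * (2 * r) = 2 * (2 * r * r) := by ring
      omega
  obtain ⟨z, ⟨zC, z1⟩, a, a3, h⟩ := near1 hF hA jC cl
    (re j jC) (Z := {z ∈ C | Wk F g z z}) (fun _ h => h.1) gq (t := C.ncard - g) (by omega)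
  have full : ∀ y ∈ C, Wk F ((C.ncard - 1) * g) z y := by
    have := chain (fun t => {y ∈ C | Wk F (t * g) z y}) C
      (fun t y h => ⟨h.1, by rw [add_mul, one_mul, add_comm]; exact z1.trans hF h.2⟩)
      (fun t y h => h.1) (fun t e => by
        have : ∀ u, ∀ y ∈ C, Wk F ((t + u) * g) z y → Wk F (t * g) z y := by
          intro u
          induction u with
          | zero => exact fun _ _ h => h
          | succ u ih =>
            intro y hy h
            rw [← add_assoc, add_mul _ 1, one_mul] at h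
            obtain ⟨w, h1, h2⟩ := h.split hF hA
            exact (e ⟨hy, by
              rw [add_mul, one_mul]; exact (ih w (cl _ _ _ h2 hy) h1).trans hF h2⟩).2
        obtain ⟨b, hb⟩ := pr z zC
        exact fun y hy => ⟨hy, this (b + 1) y hy (by
          rw [Wk, stay hF hb (by nlinarith)]; trivial)⟩) (C.ncard - 1)
    rcases this with h | h
    · exact fun y hy => (h hy).2
    · have h0 := (Set.ncard_pos (Set.toFinite {y ∈ C | Wk F (0 * g) z y})).2
        ⟨z, zC, by simpa using wk0 z⟩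
      have := Set.eq_of_subset_of_ncard_le (Set.sep_subset C fun y => Wk F ((C.ncard - 1) * g) z y)
        (by omega)
      exact fun y hy => (this.ge hy).2
  refine out (C.ncard - g + (C.ncard - 1) * g) (fun l hl y yC => ?_) ?_
  · obtain ⟨b, hb⟩ := pr j jC
    have : Wk F ((b + 1 + l - (l - a - (C.ncard - 1) * g)) + (l - a - (C.ncard - 1) * g)) j y := by
      rw [Wk, stay hF hb (by omega)]; trivial
    obtain ⟨x, -, h2⟩ := this.split hF hA
    have := (h.trans hF (full x (cl _ _ _ h2 yC))).trans hF h2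
    rwa [show a + (C.ncard - 1) * g + (l - a - (C.ncard - 1) * g) = l by omega] at this
  · obtain ⟨m, hm⟩ : ∃ m, C.ncard = m + 1 := ⟨C.ncard - 1, by omega⟩
    rw [hm] at gs cs c2 ⊢
    obtain ⟨r, rfl⟩ : ∃ r, s = r + 3 := ⟨s - 3, by omega⟩
    simp only [add_tsub_cancel_right]
    have : m * g ≤ g + r * (r + 1) := by
      by_cases c : g ≤ r
      · nlinarith [Nat.mul_le_mul (show m ≤ r + 2 by omega) (le_refl g), Nat.mul_le_mul c (le_refl (r + 1))]
      · obtain rfl : g = r + 1 := by omega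
        nlinarith [Nat.mul_le_mul (show m ≤ r + 1 by omega) (le_refl (r + 1))]
    have : (r + 3) * (r + 3) = r * (r + 1) + 5 * r + 9 := by ring
    omega

section wiel
variable {n : ℕ} [NeZero n] {σ : ZMod n → α}

def W {n : ℕ} (i j : ZMod n) : Prop := j = i + 1 ∨ (i = -1 ∧ j = 1)

theorem cast_pred : ((n - 1 : ℕ) : ZMod n) = -1 := by
  rw [Nat.cast_sub (Nat.pos_of_neZero n)]; simp

theorem w1 (hF : Monotone F) (h : ∀ i j, W i j → σ i ∈ F {σ j}) (l : ℕ) (z : ZMod n) :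
    Wk F l (σ z) (σ (z - l)) := by
  induction l with
  | zero => simpa using wk0 _
  | succ l ih => exact ih.trans hF (show Wk F 1 _ _ from h _ _ (Or.inl (by push_cast; ring)))

theorem w2 (hF : Monotone F) (h : ∀ i j, W i j → σ i ∈ F {σ j}) {z : ZMod n}
    (hz : z ≠ 0) : Wk F (n - 1) (σ z) (σ z) := by
  have p := ZMod.val_lt z
  have q : z.val ≠ 0 := by rwa [Ne, ZMod.val_eq_zero]
  have a := w1 hF h (z.val - 1) z
  have b := w1 hF h (n - 1 - z.val) (-1)
  rw [Nat.cast_sub (by omega), ZMod.natCast_zmod_val] at a b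
  rw [cast_pred, show -1 - (-1 - z) = z by ring] at b
  have := (a.trans hF (show Wk F 1 _ (σ (-1)) from h _ _ (Or.inr ⟨rfl, by simp⟩))).trans hF b
  rwa [show z.val - 1 + 1 + (n - 1 - z.val) = n - 1 by omega] at this

theorem w3 (hn : 2 ≤ n) (hF : Monotone F) (h : ∀ i j, W i j → σ i ∈ F {σ j}) {L : ℕ}
    (hL : n * (n - 1) < L) (y : ZMod n) : Wk F L (σ 0) (σ y) := by
  have : Fact (1 < n) := ⟨hn⟩
  obtain ⟨c, c1, c2⟩ : ∃ c : ℕ, c ≤ n ∧ -(L : ZMod n) - y = c :=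
    ⟨(-(L : ZMod n) - y).val, (ZMod.val_lt _).le, by simp⟩
  obtain ⟨l, rfl⟩ := Nat.exists_eq_add_of_lt ((Nat.mul_le_mul_right (n - 1) c1).trans_lt hL)
  have := ((w1 hF h 1 0).trans hF ((w2 hF h (z := 0 - (1 : ℕ)) (by simp)).mul hF c)).trans hF
      (w1 hF h l _)
  push_cast [cast_pred] at c2
  rwa [show 1 + c * (n - 1) + l = c * (n - 1) + l + 1 by ring,
      show (0 : ZMod n) - (1 : ℕ) - (l : ℕ) = y by push_cast; linear_combination c2] at this

end wiel

end comb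

variable {n d : ℕ} {A : Fin n → (Fin d → Fin n) → ℝ}

theorem Fs_mono : Monotone (Fs A) := fun _ _ h _ ⟨I, a, b⟩ => ⟨I, fun t => h (a t), b⟩

theorem persist {j : Fin n} {a b : ℕ} (h : a ∈ Ex A j) (ab : a ≤ b) : (Fs A)^[b] {j} = Set.univ := by
  obtain ⟨h1, h2⟩ := h
  obtain ⟨a, rfl⟩ : ∃ c, a = c + 1 := ⟨a - 1, by omega⟩
  exact stay Fs_mono h2 ab

theorem down (hn : 2 ≤ n) (hd : n ≤ d + 1) {j : Fin n} {k : ℕ} (h : k + 2 ∈ R d n j) :
    k + 1 ∈ R d n j := by
  obtain ⟨A, hA, np, ⟨-, hk⟩, lo⟩ := h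
  obtain ⟨Y, hY⟩ : ∃ Y, Y = (Fs A)^[k] {j} := ⟨_, rfl⟩
  have Y2 : ∀ X, Y ⊆ X → (Fs A)^[2] X = Set.univ := fun X h => Set.eq_univ_of_univ_subset (by
    rw [← hk, add_comm, iterate_add_apply, ← hY]; exact Fs_mono.iterate 2 h)
  have Yn : Y.Nonempty := by
    by_contra c
    have := Y2 ∅ (Set.not_nonempty_iff_eq_empty.1 c).le
    obtain ⟨I, a, -⟩ : j ∈ Fs A (Fs A ∅) := (this.ge (Set.mem_univ j) :)
    obtain ⟨J, b, -⟩ := a ⟨0, by omega⟩
    exact b ⟨0, by omega⟩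
  have Yc : Y.ncard ≤ d := by
    rcases Nat.eq_zero_or_pos k with rfl | k0
    · rw [hY]; simp; omega
    have := Set.ncard_lt_ncard (Set.ssubset_univ_iff.2 fun e : Y = Set.univ => by
      have := lo ⟨k0, hY ▸ e⟩; omega) (Set.toFinite _)
    simp only [Set.ncard_univ, Nat.card_eq_fintype_card, Fintype.card_fin] at this
    omega
  obtain ⟨I0, i1, i2⟩ : ∃ I : Fin d → Fin n, (∀ t, I t ∈ Y) ∧ Y ⊆ Set.range I := by
    have : Nonempty Y := Yn.to_subtype
    have := Fintype.ofFinite Y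
    obtain ⟨f, hf⟩ := Function.Embedding.nonempty_of_card_le (α := Y) (β := Fin d) (by
      rw [← Nat.card_eq_fintype_card, Nat.card_coe_set_eq, Fintype.card_fin]; exact Yc)
    exact ⟨fun t => (invFun f t).1, fun t => (invFun f t).2, fun y hy =>
      ⟨f ⟨y, hy⟩, by simp only [leftInverse_invFun hf ⟨y, hy⟩]⟩⟩
  classical
  obtain ⟨B, hB⟩ : ∃ B : Fin n → (Fin d → Fin n) → ℝ,
      B = fun u I => if Y ⊆ Set.range I then 1 else A u I := ⟨_, rfl⟩
  have b1 : ∀ X, ¬ Y ⊆ X → Fs B X = Fs A X := fun X h => Set.ext fun u => exists_congr fun I =>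
    and_congr_right fun a => by
      rw [hB]; simp only; rw [if_neg fun c => h (c.trans (Set.range_subset_iff.2 a))]
  have same : ∀ i m, (∀ l < m, (Fs A)^[l + 2] {i} ≠ Set.univ) → (Fs B)^[m] {i} = (Fs A)^[m] {i} := by
    intro i m
    induction m with
    | zero => exact fun _ => rfl
    | succ m ih =>
      intro h
      rw [iterate_succ_apply', iterate_succ_apply', ih fun l hl => h l (by omega), b1]
      exact fun c => h m (by omega) (by rw [add_comm, iterate_add_apply]; exact Y2 _ c)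
  have sj : ∀ m ≤ k, (Fs B)^[m] {j} = (Fs A)^[m] {j} := fun m hm => same j m fun l hl c => by
    have := lo ⟨by omega, c⟩; omega
  refine ⟨B, fun u I => ?_, fun c => np fun i => ?_, ⟨by omega, ?_⟩, fun m ⟨m1, m2⟩ => ?_⟩
  · rw [hB]; simp only; split_ifs; exacts [zero_le_one, hA u I]
  · by_contra e
    obtain ⟨m, m1, m2⟩ := c i
    exact e ⟨m, m1, by rw [← same i m fun l _ c => e ⟨l + 2, by omega, c⟩, m2]⟩
  · rw [iterate_succ_apply', sj k le_rfl, ← hY]
    exact Set.eq_univ_of_forall fun u => ⟨I0, i1, by rw [hB]; simp [i2]⟩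
  · by_contra c
    have := lo ⟨m1, sj m (by omega) ▸ m2⟩
    omega

theorem one_mem (hn : 2 ≤ n) (hd : 1 ≤ d) (j : Fin n) : 1 ∈ R d n j := by
  classical
  refine ⟨fun _ I => if I = fun _ => j then 1 else 0, fun u I => by dsimp only; split_ifs <;> norm_num,
    fun c => ?_, ⟨le_rfl, Set.eq_univ_of_forall fun u => ⟨fun _ => j, fun _ => rfl, by simp⟩⟩,
    fun m h => h.1⟩
  have : Nontrivial (Fin n) := Fin.nontrivial_iff_two_le.2 hn
  obtain ⟨i, hi⟩ := exists_ne j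
  obtain ⟨m, m1, m2⟩ := c i
  obtain ⟨m, rfl⟩ : ∃ c, m = c + 1 := ⟨m - 1, by omega⟩
  have e : ∀ X, j ∉ X → Fs (fun (_ : Fin n) (I : Fin d → Fin n) =>
      if I = fun _ => j then (1 : ℝ) else 0) X = ∅ := fun X h =>
    Set.eq_empty_of_forall_notMem fun u ⟨I, a, b⟩ => by
      have : I = fun _ => j := by by_contra c; simp [c] at b
      exact h (this ▸ a ⟨0, hd⟩ :)
  rw [iterate_succ_apply, e {i} fun c => hi (Set.mem_singleton_iff.1 c).symm, iterate_fixed (e ∅ (by simp))] at m2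
  exact (m2 ▸ Set.mem_univ j : j ∈ (∅ : Set (Fin n)))

theorem add1 {A : Fin n → (Fin 1 → Fin n) → ℝ} : Add (Fs A) := fun X u ⟨I, a, b⟩ =>
  ⟨I 0, a 0, I, fun t => by rw [Subsingleton.elim t 0]; rfl, b⟩

theorem high {s k : ℕ} (hs : 4 ≤ s) (hk : k + 3 * s = s * s) (j : Fin (s + 1)) :
    ∃ l ∈ R 1 (s + 1) j, k + 1 < l := by
  have : NeZero s := ⟨by omega⟩
  classical
  obtain ⟨e, he⟩ : ∃ e : Option (ZMod s) ≃ Fin (s + 1), e (some 0) = j := by
    have f : Option (ZMod s) ≃ Fin (s + 1) := Fintype.equivFinOfCardEq (by simp)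
    exact ⟨f.trans (Equiv.swap (f (some 0)) j), by simp⟩
  obtain ⟨A, hA⟩ : ∃ A : Fin (s + 1) → (Fin 1 → Fin (s + 1)) → ℝ, A = fun u I =>
      if ∃ y, I 0 = e (some y) ∧ ∀ x, u = e (some x) → W x y then 1 else 0 := ⟨_, rfl⟩
  have st : ∀ X u, u ∈ Fs A X ↔ ∃ y, e (some y) ∈ X ∧ ∀ x, u = e (some x) → W x y := fun X u => by
    refine ⟨fun ⟨I, a, b⟩ => ?_, fun ⟨y, a, b⟩ => ⟨fun _ => e (some y), fun _ => a, ?_⟩⟩
    · rw [hA] at b
      obtain ⟨y, c, d⟩ : ∃ y, I 0 = e (some y) ∧ ∀ x, u = e (some x) → W x y := by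
        by_contra c; simp only [if_neg c] at b; exact lt_irrefl _ b
      exact ⟨y, c ▸ a 0, d⟩
    · rw [hA]; simp only; rw [if_pos ⟨y, rfl, b⟩]; exact one_pos
  have ed : ∀ x y, W x y → e (some x) ∈ Fs A {e (some y)} := fun x y h =>
    (st _ _).2 ⟨y, rfl, fun z c => by rwa [← Option.some.inj (e.injective c)]⟩
  have ne : (Ex A j).Nonempty := ⟨s * (s - 1) + 1 + 1, by omega, Set.eq_univ_of_forall fun u => by
    obtain ⟨x, rfl⟩ := e.surjective u
    rw [← he]
    cases x with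
    | some x => exact w3 (σ := fun x => e (some x)) (by omega) Fs_mono ed (by omega) x
    | none =>
      rw [iterate_succ_apply', st]
      exact ⟨0, w3 (σ := fun x => e (some x)) (by omega) Fs_mono ed (by omega) 0, by simp⟩⟩
  have inv : ∀ m x, e (some x) ∈ (Fs A)^[m] {j} →
      ∃ c : ℕ, c * (s - 1) ≤ m ∧ x = -((m : ZMod s) + c) := by
    intro m
    induction m with
    | zero => exact fun x h => ⟨0, by simp, by simpa [← he] using h⟩
    | succ m ih =>
      intro x h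
      rw [iterate_succ_apply', st] at h
      obtain ⟨y, a, b⟩ := h
      obtain ⟨c, c1, c2⟩ := ih y a
      rcases b x rfl with w | ⟨w, w'⟩
      · exact ⟨c, by omega, by push_cast; linear_combination c2 - w⟩
      · refine ⟨c + 1, ?_, by push_cast; linear_combination w + c2 - w'⟩
        obtain ⟨q, hq⟩ : s ∣ m + c + 1 := (ZMod.natCast_eq_zero_iff _ _).1 (by
          push_cast; linear_combination c2 - w')
        obtain ⟨r, rfl⟩ : ∃ r, s = r + 1 := ⟨s - 1, by omega⟩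
        simp only [add_tsub_cancel_right] at *
        have : c < q := by by_contra l; nlinarith
        nlinarith
  refine ⟨sInf (Ex A j), ⟨A, fun u I => ?_, fun c => ?_, Nat.sInf_mem ne, fun m h => Nat.sInf_le h⟩,
    lt_of_not_ge fun l => ?_⟩
  · rw [hA]; simp only; split_ifs <;> norm_num
  · obtain ⟨m, m1, m2⟩ := c (e none)
    obtain ⟨m, rfl⟩ : ∃ c, m = c + 1 := ⟨m - 1, by omega⟩
    have z : ∀ X, (∀ y, e (some y) ∉ X) → Fs A X = ∅ := fun X h =>
      Set.eq_empty_of_forall_notMem fun u hu => by obtain ⟨y, a, -⟩ := (st _ _).1 hu; exact h y a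
    rw [iterate_succ_apply, z _ (by simp), iterate_fixed (z ∅ (by simp))] at m2
    exact (m2 ▸ Set.mem_univ j : j ∈ (∅ : Set (Fin (s + 1))))
  · obtain ⟨c, c1, c2⟩ := inv (k + 1) 0 (persist (Nat.sInf_mem ne) l ▸ Set.mem_univ _)
    obtain ⟨q, hq⟩ : s ∣ k + 1 + c := (ZMod.natCast_eq_zero_iff _ _).1 (by
      push_cast at c2 ⊢; linear_combination c2)
    obtain ⟨r, rfl⟩ : ∃ r, s = r + 3 := ⟨s - 3, by omega⟩
    rw [show r + 3 - 1 = r + 2 by omega] at c1
    have : c ≤ r := by by_contra l; nlinarith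
    rcases le_or_gt q r with l | l <;> nlinarith

theorem main (n : ℕ) (hn : 2 ≤ n) (j : Fin n) :
    (∀ d, n ≤ d + 1 → ∀ k l, 1 ≤ k → k ≤ l → l ∈ R d n j → k ∈ R d n j) ∧
    (11 ≤ n → Odd n → 1 ∈ R 1 n j ∧ 1 < n ^ 2 + 5 - 5 * n ∧ n ^ 2 + 5 - 5 * n ∉ R 1 n j ∧
      ∃ l ∈ R 1 n j, n ^ 2 + 5 - 5 * n < l) := by
  refine ⟨fun d hd k l k1 kl => ?_, fun h11 ⟨t, ht⟩ => ?_⟩
  · induction l, kl using Nat.le_induction with
    | base => exact id
    | succ l kl ih =>
      obtain ⟨l, rfl⟩ : ∃ c, l = c + 1 := ⟨l - 1, by omega⟩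
      exact fun h => ih (down hn hd h)
  obtain ⟨s, rfl⟩ : ∃ s, n = s + 1 := ⟨n - 1, by omega⟩
  obtain ⟨k, hk⟩ : ∃ k, k + 3 * s = s * s := ⟨s * s - 3 * s, Nat.sub_add_cancel (by nlinarith)⟩
  have e : (s + 1) ^ 2 + 5 - 5 * (s + 1) = k + 1 := by
    have : (s + 1) ^ 2 = s * s + 2 * s + 1 := by ring
    omega
  have k0 : 0 < k := by nlinarith
  rw [e]
  refine ⟨one_mem hn le_rfl j, by omega, fun ⟨A, _, np, ⟨_, h⟩, lo⟩ => ?_, high (by omega) hk j⟩
  push Not at np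
  obtain ⟨i, hi⟩ := np
  have := lo ⟨k0, gap Fs_mono add1 (Fintype.card_fin _) (by omega) (by omega) hk h (i := i)
    fun a c => (hi ▸ (⟨by omega, c⟩ : a + 1 ∈ Ex A i) : a + 1 ∈ (∅ : Set ℕ))⟩
  omega

end Pool.Agent.H13.TensorGaps
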