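import Mathlib

set_option autoImplicit false
set_option linter.unusedSectionVars false

namespace Pool.Agent.H13.Unique

open Finset

lemma ratio_step (t N : ℕ) (ht : t ≤ N) (a : ℕ) : ∀ b, a + b ≤ N →
    (t.choose (a + b) : ℝ) / N.choose (a + b) ≤ t.choose a / N.choose a * ((t : ℝ) / N) ^ b := by
  intro b
  induction b with
  | zero => simp
  | succ b ih =>
    intro h
    have h1 := ih (by omega)
    rw [pow_succ, ← mul_assoc, ← add_assoc]
    refine le_trans ?_ (mul_le_mul_of_nonneg_right h1 (by positivity))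
    have hu : a + b + 1 ≤ N := by omega
    generalize a + b = u at *
    have p1 : (0 : ℝ) < N.choose (u + 1) := by exact_mod_cast Nat.choose_pos hu
    have p2 : (0 : ℝ) < N.choose u := by exact_mod_cast Nat.choose_pos (by omega)
    have p3 : (0 : ℝ) < N := by exact_mod_cast (by omega : 0 < N)
    rw [div_mul_div_comm, div_le_div_iff₀ p1 (by positivity)]
    norm_cast
    apply Nat.le_of_mul_le_mul_right _ (Nat.succ_pos u)
    have e1 := Nat.choose_succ_right_eq t u
    have e2 := Nat.choose_succ_right_eq N u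
    have e3 : (t - u) * N ≤ t * (N - u) := by
      rcases le_total t u with h | h
      · simp [Nat.sub_eq_zero_of_le h]
      · obtain ⟨x, rfl⟩ := Nat.exists_eq_add_of_le h
        obtain ⟨y, rfl⟩ := Nat.exists_eq_add_of_le ht
        rw [Nat.add_sub_cancel_left, add_assoc, Nat.add_sub_cancel_left]; nlinarith
    calc _ = (t.choose (u + 1) * (u + 1)) * (N.choose u * N) := by simp only [Nat.succ_eq_add_one]; ring
      _ = t.choose u * N.choose u * ((t - u) * N) := by rw [e1]; ring
      _ ≤ t.choose u * N.choose u * (t * (N - u)) := Nat.mul_le_mul_left _ e3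
      _ = t.choose u * t * (N.choose u * (N - u)) := by ring
      _ = _ := by rw [← e2]; simp only [Nat.succ_eq_add_one]; ring

variable {P : Type} [Fintype P] [DecidableEq P]

lemma count_sup (t : ℕ) (U : Finset P) :
    ∑ T ∈ powersetCard t (univ : Finset P), (if U ⊆ T then (1 : ℝ) else 0) =
      (Fintype.card P).choose t * (t.choose #U / (Fintype.card P).choose #U) := by
  have p1 : (0 : ℝ) < (Fintype.card P).choose #U := by
    exact_mod_cast Nat.choose_pos (card_le_univ U)
  rw [sum_boole, mul_div_assoc', eq_div_iff p1.ne']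
  norm_cast
  rcases le_or_gt #U t with h | h
  · rw [card_filter_powersetCard_subset U univ t (subset_univ _) h, Nat.choose_mul h, card_univ,
      mul_comm]
  · rw [Nat.choose_eq_zero_of_lt h, mul_zero, filter_eq_empty_iff.2, card_empty, zero_mul]
    intro T hT hU
    have := card_le_card hU
    rw [(mem_powersetCard.1 hT).2] at this
    omega

lemma three_col (σ : Equiv.Perm P) : ∃ c : P → Fin 3, ∀ e, σ e ≠ e → c (σ e) ≠ c e := by
  have : ∀ s : Finset P, ∃ c : P → Fin 3, ∀ e ∈ s, σ e ∈ s → σ e ≠ e → c (σ e) ≠ c e := by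
    intro s
    induction s using Finset.induction_on with
    | empty => exact ⟨fun _ => 0, by simp⟩
    | insert a s ha ih =>
      obtain ⟨c, hc⟩ := ih
      obtain ⟨z, hz1, hz2⟩ : ∃ z : Fin 3, z ≠ c (σ a) ∧ z ≠ c (σ.symm a) := by
        generalize c (σ a) = x; generalize c (σ.symm a) = y
        revert x y; decide
      refine ⟨Function.update c a z, fun e h1 h2 h3 => ?_⟩
      by_cases k1 : e = a
      · subst k1
        rw [Function.update_self, Function.update_of_ne h3]; exact hz1.symm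
      · by_cases k2 : σ e = a
        · rw [Function.update_of_ne k1, k2, Function.update_self]
          rwa [← k2, Equiv.symm_apply_apply] at hz2
        · rw [Function.update_of_ne k1, Function.update_of_ne k2]
          exact hc e ((mem_insert.1 h1).resolve_left k1) ((mem_insert.1 h2).resolve_left k2) h3
  obtain ⟨c, hc⟩ := this univ
  exact ⟨c, fun e => hc e (mem_univ _) (mem_univ _)⟩

lemma pow_expand (x : ℝ) (A : Finset P) (q : P → Prop) [DecidablePred q] :
    (x + 1) ^ #(A.filter q) = ∑ S ∈ A.powerset, if ∀ e ∈ S, q e then x ^ #S else 0 := by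
  rw [← sum_pow_mul_eq_add_pow, ← sum_filter]
  simp only [one_pow, mul_one]
  refine sum_congr ?_ fun _ _ => rfl
  ext S
  simp only [mem_powerset, mem_filter, subset_iff]
  exact ⟨fun h => ⟨fun _ hx => (h hx).1, fun _ hx => (h hx).2⟩, fun h _ hx => ⟨h.1 hx, h.2 _ hx⟩⟩

lemma one_class (σ : Equiv.Perm P) (t : ℕ) (ht : t ≤ Fintype.card P) (F M : Finset P)
    (hF : ∀ e ∈ F, σ e = e) (hM : ∀ e ∈ M, σ e ≠ e ∧ σ e ∉ M) :
    ∑ T ∈ powersetCard t (univ : Finset P), (2 : ℝ) ^ #(F.filter (· ∈ T)) *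
      8 ^ #(M.filter (fun e => e ∈ T ∧ σ e ∈ T)) ≤ (Fintype.card P).choose t *
      (1 + (#F : ℝ) / Fintype.card P) ^ t * (1 + 7 * ((t : ℝ) / Fintype.card P) ^ 2) ^ #M := by
  set N := Fintype.card P with hN
  have e1 : ∀ T : Finset P, (2 : ℝ) ^ #(F.filter (· ∈ T)) *
      8 ^ #(M.filter (fun e => e ∈ T ∧ σ e ∈ T)) = ∑ S1 ∈ F.powerset, ∑ S ∈ M.powerset,
        7 ^ #S * if S1 ∪ (S ∪ S.image σ) ⊆ T then 1 else 0 := by
    intro T
    rw [show (2 : ℝ) = 1 + 1 by norm_num, show (8 : ℝ) = 7 + 1 by norm_num, pow_expand, pow_expand,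
      sum_mul_sum]
    refine sum_congr rfl fun S1 _ => sum_congr rfl fun S _ => ?_
    have : S1 ∪ (S ∪ S.image σ) ⊆ T ↔ (∀ e ∈ S1, e ∈ T) ∧ ∀ e ∈ S, e ∈ T ∧ σ e ∈ T := by
      rw [union_subset_iff, union_subset_iff, image_subset_iff]
      exact ⟨fun h => ⟨fun _ h1 => h.1 h1, fun _ h1 => ⟨h.2.1 h1, h.2.2 _ h1⟩⟩,
        fun h => ⟨fun _ h1 => h.1 _ h1, fun _ h1 => (h.2 _ h1).1, fun _ h1 => (h.2 _ h1).2⟩⟩
    simp only [this]
    split_ifs <;> simp_all
  simp only [e1]
  rw [sum_comm]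
  have e2 : ∀ S1 ∈ F.powerset, ∑ T ∈ powersetCard t (univ : Finset P), ∑ S ∈ M.powerset,
      (7 : ℝ) ^ #S * (if S1 ∪ (S ∪ S.image σ) ⊆ T then 1 else 0) ≤
      N.choose t * (t.choose #S1 / N.choose #S1) * (1 + 7 * ((t : ℝ) / N) ^ 2) ^ #M := by
    intro S1 h1
    rw [sum_comm, add_comm (1 : ℝ), ← sum_pow_mul_eq_add_pow, mul_sum]
    refine sum_le_sum fun S hS => ?_
    rw [← mul_sum, count_sup]
    rw [mem_powerset] at h1 hS
    have hc : #(S1 ∪ (S ∪ S.image σ)) = #S1 + 2 * #S := by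
      rw [card_union_of_disjoint, card_union_of_disjoint, card_image_of_injective _ σ.injective,
        two_mul]
      · rw [disjoint_right]
        intro e he h2
        obtain ⟨a, ha, rfl⟩ := mem_image.1 he
        exact (hM a (hS ha)).2 (hS h2)
      · rw [disjoint_left]
        intro e he h2
        rcases mem_union.1 h2 with h2 | h2
        · exact (hM e (hS h2)).1 (hF e (h1 he))
        · obtain ⟨a, ha, rfl⟩ := mem_image.1 h2
          exact (hM a (hS ha)).1 (σ.injective (hF _ (h1 he)))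
    have h3 := ratio_step t N ht #S1 (2 * #S) (hc ▸ card_le_univ _)
    rw [hc]
    calc _ ≤ (7 : ℝ) ^ #S * (N.choose t * (t.choose #S1 / N.choose #S1 * ((t : ℝ) / N) ^ (2 * #S))) := by
          gcongr
      _ = _ := by rw [pow_mul, mul_pow]; ring
  refine (sum_le_sum e2).trans ?_
  rw [← sum_mul, ← mul_sum]
  gcongr
  rw [sum_powerset_apply_card (fun s => (t.choose s : ℝ) / N.choose s), add_comm (1 : ℝ), add_pow]
  have hFN : #F ≤ N := card_le_univ F
  calc _ ≤ ∑ s ∈ range (#F + 1), ((#F : ℝ) / N) ^ s * 1 ^ (t - s) * t.choose s := by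
        refine sum_le_sum fun s hs => ?_
        have := ratio_step #F N hFN 0 s (by have := mem_range.1 hs; omega)
        simp only [zero_add, Nat.choose_zero_right, Nat.cast_one, div_one, one_mul] at this
        rw [nsmul_eq_mul, one_pow, mul_one, mul_div_assoc', mul_div_right_comm]
        gcongr
    _ ≤ ∑ s ∈ range (#F + 1) ∪ range (t + 1), ((#F : ℝ) / N) ^ s * 1 ^ (t - s) * t.choose s :=
        sum_le_sum_of_subset_of_nonneg subset_union_left fun _ _ _ => by positivity
    _ = _ := by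
        refine (sum_subset subset_union_right fun s _ hs => ?_).symm
        rw [Nat.choose_eq_zero_of_lt (by simpa using hs)]; simp

lemma amgm8 (a b d : ℕ) : (2 : ℝ) ^ a * 2 ^ b * 2 ^ d ≤ (8 ^ a + 8 ^ b + 8 ^ d) / 3 := by
  have e : ∀ a : ℕ, (8 : ℝ) ^ a = (2 ^ a) ^ 3 := fun a => by
    rw [← pow_mul, mul_comm, pow_mul]; norm_num
  rw [e, e, e]
  have ha : (0 : ℝ) ≤ 2 ^ a := by positivity
  have hb : (0 : ℝ) ≤ 2 ^ b := by positivity
  have hd : (0 : ℝ) ≤ 2 ^ d := by positivity
  generalize (2 : ℝ) ^ a = x at *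
  generalize (2 : ℝ) ^ b = y at *
  generalize (2 : ℝ) ^ d = z at *
  nlinarith [mul_nonneg (add_nonneg (add_nonneg ha hb) hd)
    (add_nonneg (add_nonneg (sq_nonneg (x - y)) (sq_nonneg (y - z))) (sq_nonneg (x - z)))]

lemma core (σ : Equiv.Perm P) (t : ℕ) (ht : t ≤ Fintype.card P) :
    ∑ T ∈ powersetCard t (univ : Finset P), (2 : ℝ) ^ #(T.filter (fun e => σ e ∈ T)) ≤
      (Fintype.card P).choose t * (1 + (#(univ.filter (fun e => σ e = e)) : ℝ) / Fintype.card P) ^ t *
      (1 + 7 * ((t : ℝ) / Fintype.card P) ^ 2) ^ #(univ.filter (fun e => σ e ≠ e)) := by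
  obtain ⟨c, hc⟩ := three_col σ
  let F := univ.filter (fun e => σ e = e)
  let M : Fin 3 → Finset P := fun i => univ.filter (fun e => σ e ≠ e ∧ c e = i)
  have h1 : ∀ i, ∑ T ∈ powersetCard t (univ : Finset P), (2 : ℝ) ^ #(F.filter (· ∈ T)) *
      8 ^ #((M i).filter (fun e => e ∈ T ∧ σ e ∈ T)) ≤ (Fintype.card P).choose t *
      (1 + (#F : ℝ) / Fintype.card P) ^ t *
      (1 + 7 * ((t : ℝ) / Fintype.card P) ^ 2) ^ #(univ.filter (fun e => σ e ≠ e)) := by
    intro i
    refine (one_class σ t ht F (M i) (fun e he => by simpa [F] using he) (fun e he => ?_)).trans ?_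
    · simp only [M, mem_filter, mem_univ, true_and] at he ⊢
      exact ⟨he.1, fun h => hc e he.1 (h.2.trans he.2.symm)⟩
    · refine mul_le_mul_of_nonneg_left (pow_le_pow_right₀ (le_add_of_nonneg_right (by positivity))
        (card_le_card fun e he => ?_)) (by positivity)
      simp only [M, mem_filter, mem_univ, true_and] at he ⊢
      exact he.1
  have h2 : ∀ T : Finset P, (2 : ℝ) ^ #(T.filter (fun e => σ e ∈ T)) ≤
      (2 ^ #(F.filter (· ∈ T)) * 8 ^ #((M 0).filter (fun e => e ∈ T ∧ σ e ∈ T)) +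
      2 ^ #(F.filter (· ∈ T)) * 8 ^ #((M 1).filter (fun e => e ∈ T ∧ σ e ∈ T)) +
      2 ^ #(F.filter (· ∈ T)) * 8 ^ #((M 2).filter (fun e => e ∈ T ∧ σ e ∈ T))) / 3 := by
    intro T
    have h3 : T.filter (fun e => σ e ∈ T) ⊆ F.filter (· ∈ T) ∪
        ((M 0).filter (fun e => e ∈ T ∧ σ e ∈ T) ∪ ((M 1).filter (fun e => e ∈ T ∧ σ e ∈ T) ∪
        (M 2).filter (fun e => e ∈ T ∧ σ e ∈ T))) := by
      intro e he
      simp only [F, M, mem_filter, mem_univ, true_and, mem_union] at he ⊢
      have : c e = 0 ∨ c e = 1 ∨ c e = 2 := by omega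
      tauto
    have h4 := (card_le_card h3).trans ((card_union_le _ _).trans (Nat.add_le_add_left
      ((card_union_le _ _).trans (Nat.add_le_add_left (card_union_le _ _) _)) _))
    refine (pow_le_pow_right₀ (by norm_num) h4).trans ?_
    rw [pow_add, pow_add, pow_add, ← mul_add, ← mul_add, mul_div_assoc]
    gcongr
    rw [← mul_assoc]
    exact amgm8 _ _ _
  refine (sum_le_sum fun T _ => h2 T).trans ?_
  rw [← sum_div, sum_add_distrib, sum_add_distrib]
  linarith [h1 0, h1 1, h1 2]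

end Pool.Agent.H13.Unique
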