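import Pool.Agent.H13.UniqueA

set_option autoImplicit false
set_option linter.unusedSectionVars false

namespace Pool.Agent.H13.Unique

open Finset

lemma desc_le (n : ℕ) (hn : 0 < n) (k : ℕ) :
    (n.descFactorial k : ℝ) ≤ Real.exp (k * Real.log n - k * (k - 1) / (2 * n)) := by
  have hn' : (0 : ℝ) < n := by exact_mod_cast hn
  induction k with
  | zero => simp
  | succ k ih =>
    rw [Nat.descFactorial_succ]
    have h1 : ((n - k : ℕ) : ℝ) ≤ Real.exp (Real.log n - k / n) := by
      rcases le_total k n with h | h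
      · rw [Nat.cast_sub h, sub_eq_add_neg (Real.log n), Real.exp_add, Real.exp_log hn']
        have := mul_le_mul_of_nonneg_left (Real.add_one_le_exp (-(k / n : ℝ))) hn'.le
        refine le_trans (le_of_eq ?_) this
        field_simp; ring
      · rw [Nat.sub_eq_zero_of_le h, Nat.cast_zero]; positivity
    push_cast
    refine (mul_le_mul h1 ih (by positivity) (by positivity)).trans (le_of_eq ?_)
    rw [← Real.exp_add]
    congr 1
    field_simp; ring

lemma big_n (n : ℕ) (hL : 700 ≤ Real.log n) : 20000 * Real.log n ^ 2 ≤ n := by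
  have hn0 : (0 : ℝ) < n := by
    rcases Nat.eq_zero_or_pos n with h | h
    · simp [h] at hL; linarith
    · exact_mod_cast h
  have := Real.pow_div_factorial_le_exp (Real.log n) (by linarith) 4
  rw [Real.exp_log hn0] at this
  norm_num [Nat.factorial] at this
  have h2 : (700 : ℝ) ^ 2 ≤ Real.log n ^ 2 := by gcongr
  nlinarith [sq_nonneg (Real.log n)]

lemma term_bound (n k t : ℕ) (hL : 700 ≤ Real.log n) (hk1 : 1 ≤ k) (hk : k ≤ n)
    (ht1 : n * Real.log n ≤ (t + 1) * Real.log 2) (ht2 : (t : ℝ) ≤ 3 / 2 * n * Real.log n)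
    (w : ℝ) (hw0 : 0 ≤ w) (hw : w ≤ 1 - k / n + k / n * ((k + 1) / (2 * (n - 1)))) :
    n.descFactorial k * (w ^ t * Real.exp (k * (112 * Real.log n ^ 2 / n))) ≤
      Real.exp (-Real.log n / 20) * (1 / 2) ^ (k - 1) + Real.exp (-n / 10) := by
  have hb := big_n n hL
  set L := Real.log n with hLdef
  have hn : (1000 : ℝ) ≤ n := by nlinarith
  have hd := desc_le n (by omega) k
  rw [← hLdef] at hd
  have l1 := Real.log_two_gt_d9
  have l2 := Real.log_two_lt_d9
  have hk1' : (1 : ℝ) ≤ k := by exact_mod_cast hk1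
  have hk' : (k : ℝ) ≤ n := by exact_mod_cast hk
  set x : ℝ := k / n with hx
  have hxn : x * n = k := by rw [hx]; field_simp
  have hx0 : 0 ≤ x := by positivity
  have hx1 : x ≤ 1 := by rw [hx, div_le_one (by linarith)]; exact hk'
  have hp : ∀ a : ℝ, w ≤ Real.exp a → (n.descFactorial k : ℝ) *
      (w ^ t * Real.exp (k * (112 * L ^ 2 / n))) ≤
      Real.exp (k * L - k * (k - 1) / (2 * n) + (t * a + k * (112 * L ^ 2 / n))) := by
    intro a ha
    rw [Real.exp_add, Real.exp_add, Real.exp_nat_mul a t]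
    gcongr
  have t0 : (0 : ℝ) ≤ t := by positivity
  rcases le_or_gt (2 * k) n with h | h
  · have h' : 2 * (k : ℝ) ≤ n := by exact_mod_cast h
    have h1 : (k + 1 : ℝ) / (2 * (n - 1)) ≤ 0.26 := by
      rw [div_le_iff₀ (by linarith)]; linarith
    have h2 : w ≤ Real.exp (-(0.74 * x)) := by
      have := Real.add_one_le_exp (-(0.74 * x))
      nlinarith
    refine (hp _ h2).trans (le_trans ?_ (le_add_of_nonneg_right (by positivity)))
    have e : ((1 : ℝ) / 2) ^ (k - 1) = Real.exp (-((k - 1) * Real.log 2)) := by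
      rw [Real.exp_neg, ← Nat.cast_pred hk1, Real.exp_nat_mul, Real.exp_log (by norm_num)]
      simp
    rw [e, ← Real.exp_add, Real.exp_le_exp]
    have h3 : 112 * L ^ 2 / n ≤ 1 := by rw [div_le_one (by linarith)]; nlinarith
    have h4 : 0 ≤ k * (k - 1) / (2 * (n : ℝ)) := by
      apply div_nonneg _ (by linarith); nlinarith
    have h5 : 1.4426 * (n * L) ≤ t + 1 := by
      have : (t + 1) * Real.log 2 ≤ (t + 1) * 0.6931471808 := by gcongr
      nlinarith
    have h6 := mul_le_mul_of_nonneg_left h5 hx0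
    have h7 : x * (1.4426 * (n * L)) = 1.4426 * (k * L) := by rw [← hxn]; ring
    have h8 := mul_le_mul_of_nonneg_left h3 (show (0 : ℝ) ≤ k by positivity)
    have h9 : 700 * (k : ℝ) ≤ k * L := by nlinarith
    have h10 : L ≤ k * L := by nlinarith
    nlinarith
  · have h' : (n : ℝ) < 2 * k := by exact_mod_cast h
    have hx2 : 1 / 2 ≤ x := by rw [hx, le_div_iff₀ (by linarith)]; linarith
    have h1 : x * ((k + 1) / (2 * (n - 1))) ≤ x ^ 2 / 2 + 1 / (n - 1) := by
      have : x ^ 2 / 2 + 1 / (n - 1) = (x ^ 2 * (n - 1) + 2) / (2 * (n - 1)) := by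
        have : (n : ℝ) - 1 ≠ 0 := by linarith
        field_simp
      rw [this, mul_div_assoc', div_le_div_iff_of_pos_right (by linarith), ← hxn]
      nlinarith
    have h2 : w ≤ Real.exp (-(x * Real.log 2) + 2 / (n - 1)) := by
      have a1 := Real.add_one_le_exp ((1 - x) * Real.log 2)
      have a2 : Real.exp (-(x * Real.log 2)) = Real.exp ((1 - x) * Real.log 2) / 2 := by
        rw [eq_div_iff (by norm_num)]
        conv_lhs => rw [← Real.exp_log (show (0 : ℝ) < 2 by norm_num)]
        rw [Real.log_exp, ← Real.exp_add]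
        congr 1; ring
      have a3 := Real.add_one_le_exp (2 / ((n : ℝ) - 1))
      have a4 : 0 ≤ 1 / ((n : ℝ) - 1) := by apply div_nonneg <;> linarith
      have a5 : 2 / ((n : ℝ) - 1) = 2 * (1 / (n - 1)) := by ring
      rw [Real.exp_add, a2]
      have a6 : 0 ≤ (1 - x) * Real.log 2 := by apply mul_nonneg <;> linarith
      have a7 : (1 - x) ^ 2 ≤ (1 - x) * Real.log 2 := by nlinarith
      calc w ≤ ((1 - x) * Real.log 2 + 1) / 2 * (2 / (n - 1) + 1) := by rw [a5]; nlinarith
        _ ≤ _ := mul_le_mul (by linarith) a3 (by linarith) (by positivity)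
    refine (hp _ h2).trans (le_trans ?_ (le_add_of_nonneg_left (by positivity)))
    rw [Real.exp_le_exp]
    have h3 : k * (112 * L ^ 2 / n) = x * (112 * L ^ 2) := by rw [hx]; ring
    have h4 : (n : ℝ) / 9 ≤ k * (k - 1) / (2 * n) := by
      rw [le_div_iff₀ (by linarith)]; nlinarith
    have h5 : t * (2 / ((n : ℝ) - 1)) ≤ 4 * L := by
      rw [mul_div_assoc', div_le_iff₀ (by linarith)]; nlinarith
    have h6 := mul_le_mul_of_nonneg_left ht1 hx0
    have h7 : x * (n * L) = k * L := by rw [← hxn]; ring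
    have h8 : x * (112 * L ^ 2) ≤ 112 * L ^ 2 := by nlinarith [sq_nonneg L]
    rw [h3]
    nlinarith

abbrev Pr (n : ℕ) := {e : Sym2 (Fin n) // ¬ e.IsDiag}

def act {n : ℕ} (π : Equiv.Perm (Fin n)) : Equiv.Perm (Pr n) where
  toFun e := ⟨e.1.map π, by rw [Sym2.isDiag_map π.injective]; exact e.2⟩
  invFun e := ⟨e.1.map π.symm, by rw [Sym2.isDiag_map π.symm.injective]; exact e.2⟩
  left_inv e := by apply Subtype.ext; simp [Sym2.map_map]
  right_inv e := by apply Subtype.ext; simp [Sym2.map_map]

lemma card_Pr (n : ℕ) : Fintype.card (Pr n) = n.choose 2 := by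
  rw [Sym2.card_subtype_not_diag, Fintype.card_fin]

lemma fixed_le {n : ℕ} (π : Equiv.Perm (Fin n)) :
    #(univ.filter (fun e => act π e = e)) ≤ (n - #π.support).choose 2 + #π.support := by
  have h1 := Sym2.card_image_offDiag (π.supportᶜ)
  rw [card_compl, Fintype.card_fin] at h1
  rw [← h1, ← card_image_of_injective _ Subtype.val_injective]
  refine le_trans (card_le_card ?_) ((card_union_le _ (π.support.image (fun a => s(a, π a)))).trans
    (Nat.add_le_add_left card_image_le _))
  intro e he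
  obtain ⟨⟨e, hd⟩, h2, rfl⟩ := mem_image.1 he
  induction e using Sym2.ind with
  | _ a b =>
    have h3 : s(π a, π b) = s(a, b) := congrArg Subtype.val (mem_filter.1 h2).2
    have hab : a ≠ b := by simpa using hd
    rcases Sym2.eq_iff.1 h3 with ⟨h4, h5⟩ | ⟨h4, h5⟩
    · exact mem_union_left _ (mem_image.2 ⟨(a, b), by simp [h4, h5, hab], rfl⟩)
    · exact mem_union_right _ (mem_image.2 ⟨a, by simp [h4, hab.symm], by rw [h4]⟩)

lemma moved_le {n : ℕ} (π : Equiv.Perm (Fin n)) :
    #(univ.filter (fun e => act π e ≠ e)) ≤ #π.support * n := by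
  rw [← card_image_of_injective _ Subtype.val_injective]
  refine le_trans (card_le_card ?_) ((card_image_le (s := π.support ×ˢ univ)
    (f := fun p => s(p.1, p.2))).trans (by simp))
  intro e he
  obtain ⟨⟨e, hd⟩, h2, rfl⟩ := mem_image.1 he
  induction e using Sym2.ind with
  | _ a b =>
    by_cases ha : π a = a
    · by_cases hb : π b = b
      · exact absurd (Subtype.ext (by simp [act, ha, hb])) (mem_filter.1 h2).2
      · exact mem_image.2 ⟨(b, a), by simp [hb], Sym2.eq_swap⟩
    · exact mem_image.2 ⟨(a, b), by simp [ha], rfl⟩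

lemma perm_sum {n : ℕ} (g : ℕ → ℝ) (hg : ∀ k, 0 ≤ g k) :
    ∑ π ∈ univ.filter (fun π : Equiv.Perm (Fin n) => π ≠ 1), g #π.support ≤
      ∑ k ∈ Icc 1 n, n.descFactorial k * g k := by
  rw [← sum_fiberwise_of_maps_to (t := Icc 1 n) (g := fun π : Equiv.Perm (Fin n) => #π.support)]
  · refine sum_le_sum fun k _ => ?_
    rw [sum_congr rfl (g := fun _ => g k) (fun π h => by rw [(mem_filter.1 h).2]), sum_const,
      nsmul_eq_mul]
    refine mul_le_mul_of_nonneg_right ?_ (hg k)
    norm_cast
    calc _ ≤ #((powersetCard k univ).biUnion (fun K : Finset (Fin n) => permsOfFinset K)) := by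
          apply card_le_card
          intro π h
          exact mem_biUnion.2 ⟨π.support, mem_powersetCard.2 ⟨subset_univ _, (mem_filter.1 h).2⟩,
            mem_perms_of_finset_iff.2 fun h => Equiv.Perm.mem_support.2 h⟩
      _ ≤ ∑ K ∈ powersetCard k (univ : Finset (Fin n)), #(permsOfFinset K) := card_biUnion_le
      _ = _ := by
          rw [sum_congr rfl (g := fun _ => k.factorial) (fun K h => by
            rw [card_perms_of_finset, (mem_powersetCard.1 h).2])]
          simp [Nat.descFactorial_eq_factorial_mul_choose, mul_comm]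
  · intro π h
    refine mem_Icc.2 ⟨card_pos.2 (nonempty_iff_ne_empty.2 ?_), by simpa using card_le_univ π.support⟩
    simpa [Equiv.Perm.support_eq_empty_iff] using h

lemma t_le (n t : ℕ) (hL : 700 ≤ Real.log n) (ht2 : (t : ℝ) ≤ 3 / 2 * n * Real.log n) :
    t ≤ n.choose 2 ∧ (t : ℝ) / n.choose 2 ≤ 4 * Real.log n / n := by
  have hb := big_n n hL
  have hn : (1000 : ℝ) ≤ n := by nlinarith
  have e := Nat.cast_choose_two (K := ℝ) n
  have : (0 : ℝ) < n * (n - 1) / 2 := by nlinarith
  constructor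
  · have : (t : ℝ) ≤ n.choose 2 := by rw [e]; nlinarith
    exact_mod_cast this
  · rw [e, div_le_div_iff₀ this (by linarith)]
    have := mul_le_mul_of_nonneg_right ht2 (show (0 : ℝ) ≤ n by linarith)
    have h2 : 0 ≤ (n : ℝ) * Real.log n := by positivity
    nlinarith

theorem total (n t : ℕ) (hL : 700 ≤ Real.log n)
    (ht1 : n * Real.log n ≤ (t + 1) * Real.log 2) (ht2 : (t : ℝ) ≤ 3 / 2 * n * Real.log n) :
    ∑ π ∈ univ.filter (fun π : Equiv.Perm (Fin n) => π ≠ 1),
      ∑ T ∈ powersetCard t (univ : Finset (Pr n)), (2 : ℝ) ^ #(T.filter (fun e => act π e ∈ T)) ≤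
      (n.choose 2).choose t * 2 ^ t * (3 * Real.exp (-Real.log n / 20)) := by
  have hb := big_n n hL
  have hn : (1000 : ℝ) ≤ n := by nlinarith
  obtain ⟨h1, h2⟩ := t_le n t hL ht2
  let w : ℕ → ℝ := fun k => max 0 (1 - k / n + k / n * ((k + 1) / (2 * (n - 1))))
  let g : ℕ → ℝ := fun k => w k ^ t * Real.exp (k * (112 * Real.log n ^ 2 / n))
  have w0 : ∀ k, 0 ≤ w k := fun k => le_max_left _ _
  have h3 : ∀ π : Equiv.Perm (Fin n), ∑ T ∈ powersetCard t (univ : Finset (Pr n)),
      (2 : ℝ) ^ #(T.filter (fun e => act π e ∈ T)) ≤ (n.choose 2).choose t * 2 ^ t * g #π.support := by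
    intro π
    refine (core (act π) t (by rwa [card_Pr])).trans ?_
    rw [card_Pr, mul_assoc, mul_assoc]
    refine mul_le_mul_of_nonneg_left ?_ (by positivity)
    simp only [g]
    rw [← mul_assoc, ← mul_pow]
    have f1 := fixed_le π
    have f2 := moved_le π
    have hk : #π.support ≤ n := by simpa using card_le_univ π.support
    generalize #π.support = k at *
    refine mul_le_mul (pow_le_pow_left₀ (by positivity) ?_ _) ?_ (by positivity)
      (by have := w0 k; positivity)
    · have f3 : (#(univ.filter (fun e => act π e = e)) : ℝ) ≤ (n - k) * (n - k - 1) / 2 + k := by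
        rw [← Nat.cast_sub hk, ← Nat.cast_choose_two]; exact_mod_cast f1
      have e := Nat.cast_choose_two (K := ℝ) n
      have hp : (0 : ℝ) < n * (n - 1) / 2 := by nlinarith
      refine le_trans ?_ (mul_le_mul_of_nonneg_left (le_max_right _ _) (by norm_num))
      rw [e]
      refine (add_le_add_right (div_le_div_of_nonneg_right f3 hp.le) _).trans (le_of_eq ?_)
      have : (n : ℝ) - 1 ≠ 0 := by linarith
      field_simp; ring
    · refine (pow_le_pow_right₀ (le_add_of_nonneg_right (by positivity)) f2).trans ?_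
      have a1 : 1 + 7 * ((t : ℝ) / n.choose 2) ^ 2 ≤ Real.exp (7 * (4 * Real.log n / n) ^ 2) := by
        have := Real.add_one_le_exp (7 * (4 * Real.log n / n) ^ 2)
        have : ((t : ℝ) / n.choose 2) ^ 2 ≤ (4 * Real.log n / n) ^ 2 := by gcongr
        linarith
      refine (pow_le_pow_left₀ (by positivity) a1 _).trans (le_of_eq ?_)
      rw [← Real.exp_nat_mul]
      congr 1
      push_cast
      field_simp; ring
  refine (sum_le_sum fun π _ => h3 π).trans ?_
  rw [← mul_sum]
  refine mul_le_mul_of_nonneg_left ((perm_sum g fun k => by have := w0 k; positivity).trans ?_)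
    (by positivity)
  have h4 : ∀ k ∈ Icc 1 n, n.descFactorial k * g k ≤
      Real.exp (-Real.log n / 20) * (1 / 2) ^ (k - 1) + Real.exp (-n / 10) := by
    intro k hk
    rw [mem_Icc] at hk
    refine term_bound n k t hL hk.1 hk.2 ht1 ht2 _ (w0 k) (max_le ?_ le_rfl)
    have : (k : ℝ) / n ≤ 1 := by rw [div_le_one (by linarith)]; exact_mod_cast hk.2
    have : (0 : ℝ) ≤ k / n * ((k + 1) / (2 * (n - 1))) := by
      have : (0 : ℝ) < n - 1 := by linarith
      positivity
    linarith
  refine (sum_le_sum h4).trans ?_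
  rw [sum_add_distrib, ← mul_sum, sum_const, Nat.card_Icc, Nat.add_sub_cancel, nsmul_eq_mul]
  have h5 : ∑ k ∈ Icc 1 n, ((1 : ℝ) / 2) ^ (k - 1) ≤ 2 := by
    refine le_trans (le_of_eq ?_) (sum_geometric_two_le n)
    rw [range_eq_Ico, ← Finset.Ico_add_one_right_eq_Icc, ← sum_Ico_add' _ 0 n 1]
    simp
  have h6 : (n : ℝ) * Real.exp (-n / 10) ≤ Real.exp (-Real.log n / 20) := by
    have : (n : ℝ) * Real.exp (-n / 10) = Real.exp (Real.log n + -n / 10) := by
      rw [Real.exp_add, Real.exp_log (by linarith)]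
    rw [this, Real.exp_le_exp]
    nlinarith
  have := Real.exp_pos (-Real.log n / 20)
  nlinarith

end Pool.Agent.H13.Unique
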