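import Pool.Agent.H13.UniqueC

set_option autoImplicit false

namespace Pool.Agent.H13.UniqueBoth

open Pool.Agent.H13.Unique Filter Topology

theorem main :
    (∀ c : ℝ, c < 1 → Tendsto (prob c) atTop (𝓝 1)) ∧
    (∃ c : ℝ, 0 < c ∧ Tendsto (prob c) atTop (𝓝 1)) ∧
    (∃ c : ℝ, 0 < c ∧ ∃ n₀ : ℕ, ∀ n : ℕ, n₀ ≤ n → ∃ G : SimpleGraph (Fin n),
      Nat.card G.edgeSet = m n ∧ c * 2 ^ m n ≤ (u G : ℝ)) :=
  ⟨q1, ⟨1 / 2, by norm_num, q1 _ (by norm_num)⟩, 1 / 2, by norm_num, q2 _ (by norm_num)⟩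

end Pool.Agent.H13.UniqueBoth
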