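import Pool.Agent.H13.WcsDefs

namespace Pool.Agent.H13.Wcs

variable {k : ℕ} {σ : ℕ → ℕ}

theorem IsWCS.mem (h : IsWCS k σ) {i : ℕ} (h1 : 1 ≤ i) (h2 : i ≤ k) : 1 ≤ σ i ∧ σ i ≤ k :=
  h.1.mapsTo ⟨h1, h2⟩

theorem IsWCS.inj (h : IsWCS k σ) {i j : ℕ} (h1 : 1 ≤ i) (h2 : i ≤ k) (h3 : 1 ≤ j) (h4 : j ≤ k)
    (e : σ i = σ j) : i = j := h.1.injOn ⟨h1, h2⟩ ⟨h3, h4⟩ e

theorem IsWCS.surj (h : IsWCS k σ) {m : ℕ} (h1 : 1 ≤ m) (h2 : m ≤ k) :
    ∃ i, 1 ≤ i ∧ i ≤ k ∧ σ i = m := by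
  obtain ⟨i, hi, e⟩ := h.1.surjOn (show m ∈ Set.Icc 1 k from ⟨h1, h2⟩)
  exact ⟨i, hi.1, hi.2, e⟩

theorem IsWCS.step (h : IsWCS k σ) {i j m : ℕ} (h1 : 1 ≤ i) (h2 : i ≤ k) (h3 : 1 ≤ j) (h4 : j ≤ k)
    (hm : 1 ≤ m) (hd : m ∣ σ i) (e : i ≡ j [MOD m]) : m ∣ σ j :=
  h.2 i ⟨h1, h2⟩ j ⟨h3, h4⟩ m hm hd ((Nat.modEq_iff_dvd.1 e.symm))

theorem IsWCS.of (hb : Set.BijOn σ (Set.Icc 1 k) (Set.Icc 1 k))
    (hs : ∀ i j m, 1 ≤ i → i ≤ k → 1 ≤ j → j ≤ k → 1 ≤ m → m ∣ σ i → i ≡ j [MOD m] → m ∣ σ j) :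
    IsWCS k σ :=
  ⟨hb, fun i hi j hj m hm hd e => hs i j m hi.1 hi.2 hj.1 hj.2 hm hd
    (Nat.modEq_iff_dvd.2 e).symm⟩

theorem IsWCS.card_mul (h : IsWCS k σ) (m : ℕ) :
    ((Finset.Icc 1 k).filter (fun i => m ∣ σ i)).card = k / m := by
  rw [← Nat.Ioc_filter_dvd_card_eq_div k m]
  apply Finset.card_bij (fun i _ => σ i)
  · intro i hi
    simp only [Finset.mem_filter, Finset.mem_Icc, Finset.mem_Ioc] at hi ⊢
    have := h.mem hi.1.1 hi.1.2
    exact ⟨⟨by omega, this.2⟩, hi.2⟩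
  · intro i hi j hj e
    simp only [Finset.mem_filter, Finset.mem_Icc] at hi hj
    exact h.inj hi.1.1 hi.1.2 hj.1.1 hj.1.2 e
  · intro b hb
    simp only [Finset.mem_filter, Finset.mem_Ioc] at hb
    obtain ⟨i, h1, h2, e⟩ := h.surj (m := b) (by omega) hb.1.2
    exact ⟨i, by simp only [Finset.mem_filter, Finset.mem_Icc]; exact ⟨⟨h1, h2⟩, e ▸ hb.2⟩, e⟩

theorem card_class_ge (k m r n : ℕ) (hm : 1 ≤ m) (hr : 1 ≤ r)
    (hn : ∀ t < n, r + t * m ≤ k) :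
    n ≤ ((Finset.Icc 1 k).filter (fun i => i ≡ r [MOD m])).card := by
  have : (Finset.range n).card ≤ ((Finset.Icc 1 k).filter (fun i => i ≡ r [MOD m])).card := by
    apply Finset.card_le_card_of_injOn (fun t => r + t * m)
    · intro t ht
      simp only [Finset.coe_range, Set.mem_Iio] at ht
      simp only [Finset.coe_filter, Finset.mem_Icc, Set.mem_setOf_eq]
      refine ⟨⟨by omega, hn t ht⟩, ?_⟩
      unfold Nat.ModEq; simp
    · intro a _ b _ e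
      simp only [add_right_inj] at e
      exact Nat.eq_of_mul_eq_mul_right hm e
  simpa using this

theorem IsWCS.cls (h : IsWCS k σ) {m : ℕ} (hm : 1 ≤ m) (hmk : m ≤ k) :
    ∃ r, k % m < r ∧ r ≤ m ∧ ∀ i, 1 ≤ i → i ≤ k → (m ∣ σ i ↔ i ≡ r [MOD m]) := by
  obtain ⟨i0, h1, h2, e⟩ := h.surj hm hmk
  set r := (i0 - 1) % m + 1 with hr
  have hlt : (i0 - 1) % m < m := Nat.mod_lt _ hm
  have hi0 : i0 ≡ r [MOD m] := by
    have : i0 = (i0 - 1) + 1 := by omega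
    rw [this, hr]
    exact Nat.ModEq.add_right 1 (Nat.mod_modEq _ _).symm
  have hsub : (Finset.Icc 1 k).filter (fun i => i ≡ r [MOD m]) ⊆
      (Finset.Icc 1 k).filter (fun i => m ∣ σ i) := by
    intro i hi
    simp only [Finset.mem_filter, Finset.mem_Icc] at hi ⊢
    exact ⟨hi.1, h.step h1 h2 hi.1.1 hi.1.2 hm (e ▸ dvd_rfl) (hi0.trans hi.2.symm)⟩
  have hc := h.card_mul m
  have hdm := Nat.div_add_mod k m
  have hle := Finset.card_le_card hsub
  have hr2 : k % m < r := by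
    by_contra hh
    have := card_class_ge k m r (k / m + 1) hm (by omega) (by
      intro t ht
      have : t * m ≤ k / m * m := Nat.mul_le_mul_right _ (by omega)
      rw [mul_comm (k / m)] at this
      omega)
    omega
  have hge := card_class_ge k m r (k / m) hm (by omega) (by
      intro t ht
      have : (t + 1) * m ≤ k / m * m := Nat.mul_le_mul_right _ (by omega)
      rw [mul_comm (k / m), add_mul] at this
      omega)
  have heq := Finset.eq_of_subset_of_card_le hsub (by omega)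
  refine ⟨r, hr2, by omega, fun i a b => ?_⟩
  have := Finset.ext_iff.1 heq i
  simp only [Finset.mem_filter, Finset.mem_Icc, a, b, true_and, and_self] at this
  exact this.symm

theorem IsWCS.modEq (h : IsWCS k σ) {i j m : ℕ} (h1 : 1 ≤ i) (h2 : i ≤ k) (h3 : 1 ≤ j)
    (h4 : j ≤ k) (a : m ∣ σ i) (b : m ∣ σ j) : i ≡ j [MOD m] := by
  have := h.mem h1 h2
  have hm : m ≤ k := (Nat.le_of_dvd (by omega) a).trans this.2
  have hm0 : 1 ≤ m := Nat.pos_of_dvd_of_pos a (by omega)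
  obtain ⟨r, -, -, hr⟩ := h.cls hm0 hm
  exact ((hr i h1 h2).1 a).trans ((hr j h3 h4).1 b).symm

/-- reversal -/
def rev (k : ℕ) (σ : ℕ → ℕ) : ℕ → ℕ := fun i => σ (k + 1 - i)

theorem IsWCS.rev (h : IsWCS k σ) : IsWCS k (rev k σ) := by
  apply IsWCS.of
  · refine ⟨fun i hi => ?_, fun i hi j hj e => ?_, fun m hm => ?_⟩
    · exact h.mem (i := k + 1 - i) (by have := hi.2; omega) (by have := hi.1; omega)
    · have := h.inj (i := k + 1 - i) (j := k + 1 - j) (by have := hi.2; omega)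
        (by have := hi.1; omega) (by have := hj.2; omega) (by have := hj.1; omega) e
      have := hi.2; have := hj.2; omega
    · obtain ⟨i, h1, h2, e⟩ := h.surj hm.1 hm.2
      refine ⟨k + 1 - i, ⟨by omega, by omega⟩, ?_⟩
      simp only [Wcs.rev]
      rw [show k + 1 - (k + 1 - i) = i by omega, e]
  · intro i j m h1 h2 h3 h4 hm hd e
    refine h.step (i := k + 1 - i) (j := k + 1 - j) (by omega) (by omega) (by omega) (by omega)
      hm hd ?_
    apply Nat.ModEq.add_right_cancel' (i + j)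
    rw [show k + 1 - i + (i + j) = k + 1 + j by omega, show k + 1 - j + (i + j) = k + 1 + i by omega]
    exact Nat.ModEq.add_left _ e.symm

/-- division slices -/
theorem IsWCS.slice (h : IsWCS k σ) {d : ℕ} (hd : 1 ≤ d) (hdk : d ≤ k) :
    ∃ r τ, k % d < r ∧ r ≤ d ∧ (∀ i, 1 ≤ i → i ≤ k → (d ∣ σ i ↔ i ≡ r [MOD d])) ∧
      IsWCS (k / d) τ ∧ ∀ i, 1 ≤ i → i ≤ k / d → σ (r + d * (i - 1)) = d * τ i := by
  obtain ⟨r, r1, r2, hr⟩ := h.cls hd hdk
  have hdm := Nat.div_add_mod k d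
  have pos : ∀ i, 1 ≤ i → i ≤ k / d → 1 ≤ r + d * (i - 1) ∧ r + d * (i - 1) ≤ k := by
    intro i a b
    have : d * i ≤ d * (k / d) := Nat.mul_le_mul_left _ b
    obtain ⟨t, rfl⟩ : ∃ t, i = t + 1 := ⟨i - 1, by omega⟩
    simp only [Nat.add_sub_cancel]
    rw [mul_add] at this
    omega
  have dv : ∀ i, 1 ≤ i → i ≤ k / d → σ (r + d * (i - 1)) = d * (σ (r + d * (i - 1)) / d) := by
    intro i a b
    refine (Nat.mul_div_cancel' ((hr _ (pos i a b).1 (pos i a b).2).2 ?_)).symm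
    unfold Nat.ModEq; simp
  refine ⟨r, fun i => σ (r + d * (i - 1)) / d, r1, r2, hr, ?_, dv⟩
  have maps : Set.MapsTo (fun i => σ (r + d * (i - 1)) / d) (Set.Icc 1 (k / d))
      (Set.Icc 1 (k / d)) := by
    intro i hi
    have hm := h.mem (pos i hi.1 hi.2).1 (pos i hi.1 hi.2).2
    have e := dv i hi.1 hi.2
    refine ⟨?_, Nat.div_le_div_right hm.2⟩
    by_contra hh
    have : σ (r + d * (i - 1)) / d = 0 := Nat.lt_one_iff.1 (not_le.1 hh)
    rw [this] at e; omega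
  apply IsWCS.of
  · refine ((Set.finite_Icc _ _).injOn_iff_bijOn_of_mapsTo maps).1 ?_
    intro i hi j hj e
    have e1 := dv i hi.1 hi.2
    have e2 := dv j hj.1 hj.2
    simp only at e
    rw [e, ← e2] at e1
    have := h.inj (pos i hi.1 hi.2).1 (pos i hi.1 hi.2).2 (pos j hj.1 hj.2).1
      (pos j hj.1 hj.2).2 e1
    have := Nat.eq_of_mul_eq_mul_left hd (show d * (i - 1) = d * (j - 1) by omega)
    have := hi.1; have := hj.1; omega
  · intro i j m h1 h2 h3 h4 hm hdv e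
    have a : d * m ∣ σ (r + d * (i - 1)) := by
      rw [dv i h1 h2]; exact Nat.mul_dvd_mul_left _ hdv
    have b := h.step (pos i h1 h2).1 (pos i h1 h2).2 (pos j h3 h4).1 (pos j h3 h4).2
      (Nat.mul_pos hd hm) a (by
        apply Nat.ModEq.add_left
        apply Nat.ModEq.mul_left'
        apply Nat.ModEq.add_right_cancel' 1
        rw [show i - 1 + 1 = i by omega, show j - 1 + 1 = j by omega]
        exact e)
    rw [dv j h3 h4] at b
    exact Nat.dvd_of_mul_dvd_mul_left hd b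

/-- alignment of the modulus `m` with shift `s` -/
def Al (k : ℕ) (σ : ℕ → ℕ) (s m : ℕ) : Prop := ∀ i, 1 ≤ i → i ≤ k → (m ∣ σ i ↔ m ∣ i + s)

theorem IsWCS.al_of (h : IsWCS k σ) {s m j : ℕ} (h1 : 1 ≤ j) (h2 : j ≤ k) (a : m ∣ σ j)
    (b : m ∣ j + s) : Al k σ s m := by
  intro i i1 i2
  have hm0 : 1 ≤ m := Nat.pos_of_dvd_of_pos a (h.mem h1 h2).1
  constructor
  · intro c
    have e := (h.modEq i1 i2 h1 h2 c a).add_right s
    exact (Nat.modEq_zero_iff_dvd).1 (e.trans ((Nat.modEq_zero_iff_dvd).2 b))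
  · intro c
    refine h.step h1 h2 i1 i2 hm0 a ?_
    apply Nat.ModEq.add_right_cancel' s
    exact ((Nat.modEq_zero_iff_dvd).2 b).trans ((Nat.modEq_zero_iff_dvd).2 c).symm

theorem IsWCS.first_dvd (h : IsWCS k σ) (hk : 1 ≤ k) : σ 1 ∣ k := by
  have hm := h.mem (i := 1) le_rfl hk
  obtain ⟨r, r1, r2, hr⟩ := h.cls hm.1 hm.2
  have e := (hr 1 le_rfl hk).1 dvd_rfl
  by_cases h1 : σ 1 = 1
  · rw [h1]; exact one_dvd _
  have : r = 1 := by
    rcases Nat.lt_or_ge r (σ 1) with hh | hh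
    · exact (Nat.ModEq.eq_of_lt_of_lt e (by omega) hh).symm
    · have : r = σ 1 := by omega
      rw [this] at e
      have e2 : 1 % σ 1 = σ 1 % σ 1 := e
      rw [Nat.mod_self, Nat.mod_eq_of_lt (by omega)] at e2
      omega
  exact Nat.dvd_of_mod_eq_zero (by omega)

theorem IsWCS.last_dvd (h : IsWCS k σ) (hk : 1 ≤ k) : σ k ∣ k := by
  have := h.rev.first_dvd hk
  simpa [Wcs.rev] using this

end Pool.Agent.H13.Wcs
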