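import Pool.Agent.H13.WcsA

namespace Pool.Agent.H13.Wcs

variable {k : ℕ} {σ : ℕ → ℕ}

def upd (k m r : ℕ) : ℕ → List ℕ → Option (List ℕ)
  | _, [] => some []
  | i, x :: xs =>
    if i % m == r % m then
      if Nat.lcm x m ≤ k && (List.range m).all
          (fun d => d == 0 || Nat.lcm x m % d != 0 || x % d == 0) then
        (upd k m r (i + 1) xs).map (fun w => Nat.lcm x m :: w)
      else none
    else if x % m == 0 then none else (upd k m r (i + 1) xs).map (fun w => x :: w)

def enum (k : ℕ) : ℕ → ℕ → List ℕ → List (List ℕ)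
  | 0, _, v => [v]
  | f + 1, m, v => (List.range' (k % m + 1) (m - k % m)).flatMap (fun r =>
      match upd k m r 1 v with
      | none => []
      | some w => enum k f (m + 1) w)

def allW (k : ℕ) : List (List ℕ) := enum k (k - 1) 2 (List.replicate k 1)

def Inv (σ : ℕ → ℕ) (m x j : ℕ) : Prop := x ∣ σ j ∧ ∀ d, 1 ≤ d → d < m → d ∣ σ j → d ∣ x

theorem upd_ok (h : IsWCS k σ) {m r : ℕ}
    (hr : ∀ i, 1 ≤ i → i ≤ k → (m ∣ σ i ↔ i ≡ r [MOD m])) :
    ∀ (n i : ℕ) (v : List ℕ), 1 ≤ i → i + n ≤ k + 1 →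
      List.Forall₂ (Inv σ m) v (List.range' i n) →
      ∃ w, upd k m r i v = some w ∧ List.Forall₂ (Inv σ (m + 1)) w (List.range' i n) := by
  intro n
  induction n with
  | zero =>
    intro i v _ _ hv
    simp only [List.range'_zero, List.forall₂_nil_right_iff] at hv
    subst hv
    exact ⟨[], rfl, by simp⟩
  | succ n ih =>
    intro i v h1 h2 hv
    rw [List.range'_succ] at hv ⊢
    cases hv with
    | cons hx hxs =>
      rename_i x xs
      obtain ⟨w, hw, hw2⟩ := ih (i + 1) xs (by omega) (by omega) hxs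
      have hik : i ≤ k := by omega
      have hm := h.mem h1 hik
      by_cases e : i % m = r % m
      · have hd : m ∣ σ i := (hr i h1 hik).2 e
        have hl : Nat.lcm x m ∣ σ i := Nat.lcm_dvd hx.1 hd
        refine ⟨Nat.lcm x m :: w, ?_, List.Forall₂.cons ⟨hl, ?_⟩ hw2⟩
        · have c1 : Nat.lcm x m ≤ k := (Nat.le_of_dvd (by omega) hl).trans hm.2
          have c2 : (List.range m).all
              (fun d => d == 0 || Nat.lcm x m % d != 0 || x % d == 0) = true := by
            rw [List.all_eq_true]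
            intro d hdm
            rw [List.mem_range] at hdm
            by_cases d0 : d = 0
            · simp [d0]
            by_cases d1 : Nat.lcm x m % d = 0
            · have := hx.2 d (by omega) hdm ((Nat.dvd_of_mod_eq_zero d1).trans hl)
              simp [Nat.mod_eq_zero_of_dvd this]
            · simp [d1]
          simp only [upd, e, beq_self_eq_true, if_true, c2, c1, decide_true, Bool.and_self, hw,
            Option.map_some]
        · intro d d1 d2 d3
          rcases Nat.lt_or_ge d m with hh | hh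
          · exact (hx.2 d d1 hh d3).trans (Nat.dvd_lcm_left _ _)
          · rw [show d = m by omega]; exact Nat.dvd_lcm_right _ _
      · have hd : ¬ m ∣ σ i := fun c => e ((hr i h1 hik).1 c)
        refine ⟨x :: w, ?_, List.Forall₂.cons ⟨hx.1, ?_⟩ hw2⟩
        · have c1 : ¬ x % m = 0 := fun c => hd ((Nat.dvd_of_mod_eq_zero c).trans hx.1)
          simp [upd, e, c1, hw]
        · intro d d1 d2 d3
          rcases Nat.lt_or_ge d m with hh | hh
          · exact hx.2 d d1 hh d3
          · rw [show d = m by omega] at d3; exact absurd d3 hd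

theorem leaf (h : IsWCS k σ) {m : ℕ} (hm : k < m) :
    ∀ (n i : ℕ) (v : List ℕ), 1 ≤ i → i + n ≤ k + 1 →
      List.Forall₂ (Inv σ m) v (List.range' i n) → v = (List.range' i n).map σ := by
  intro n
  induction n with
  | zero =>
    intro i v _ _ hv
    simpa using hv
  | succ n ih =>
    intro i v h1 h2 hv
    rw [List.range'_succ] at hv ⊢
    cases hv with
    | cons hx hxs =>
      rename_i x xs
      have hmem := h.mem h1 (show i ≤ k by omega)
      rw [List.map_cons, ← ih (i + 1) xs (by omega) (by omega) hxs,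
        Nat.dvd_antisymm hx.1 (hx.2 _ hmem.1 (by omega) dvd_rfl)]

theorem enum_ok (h : IsWCS k σ) : ∀ (f m : ℕ) (v : List ℕ), 1 ≤ m → k < m + f → m + f ≤ k + 2 →
    (f = 0 ∨ m + f ≤ k + 1) →
    List.Forall₂ (Inv σ m) v (List.range' 1 k) → (List.range' 1 k).map σ ∈ enum k f m v := by
  intro f
  induction f with
  | zero =>
    intro m v _ h2 _ _ hv
    rw [← leaf h (m := m) (by omega) k 1 v le_rfl (by omega) hv]
    simp [enum]
  | succ f ih =>
    intro m v h1 h2 h3 h4 hv
    obtain ⟨r, r1, r2, hr⟩ := h.cls h1 (show m ≤ k by omega)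
    obtain ⟨w, hw, hw2⟩ := upd_ok h hr k 1 v le_rfl (by omega) hv
    simp only [enum, List.mem_flatMap]
    refine ⟨r, ?_, ?_⟩
    · rw [List.mem_range'_1]; omega
    · rw [hw]
      exact ih (m + 1) w (by omega) (by omega) (by omega) (by omega) hw2

theorem allW_ok (h : IsWCS k σ) : (List.range' 1 k).map σ ∈ allW k := by
  apply enum_ok h (k - 1) 2 _ (by omega) (by omega) (by omega) (by omega)
  rw [List.forall₂_iff_get]
  refine ⟨by simp, fun i h1 h2 => ?_⟩
  simp only [List.get_eq_getElem, List.getElem_replicate]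
  refine ⟨one_dvd _, fun d d1 d2 _ => ?_⟩
  rw [show d = 1 by omega]

theorem getD_map (σ : ℕ → ℕ) {i : ℕ} (h1 : 1 ≤ i) (h2 : i ≤ k) :
    ((List.range' 1 k).map σ).getD (i - 1) 0 = σ i := by
  rw [List.getD_eq_getElem _ _ (by simp; omega)]
  simp only [List.getElem_map, List.getElem_range']
  congr 1; omega

/-- shift-`s` alignment of all small values -/
def AlS (k : ℕ) (σ : ℕ → ℕ) (s : ℕ) : Prop :=
  ∀ i, 1 ≤ i → i ≤ k → 2 * σ i + 2 ≤ k → σ i ∣ i + s

def alB (k s : ℕ) : ℕ → List ℕ → Bool
  | _, [] => true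
  | i, x :: xs => (k < 2 * x + 2 || (i + s) % x == 0) && alB k s (i + 1) xs

theorem alB_ok (k s : ℕ) (τ : ℕ → ℕ) : ∀ (n i : ℕ), alB k s i ((List.range' i n).map τ) = true →
    ∀ j, i ≤ j → j < i + n → 2 * τ j + 2 ≤ k → τ j ∣ j + s := by
  intro n
  induction n with
  | zero => intro i _ j a b; omega
  | succ n ih =>
    intro i h j a b c
    rw [List.range'_succ, List.map_cons] at h
    simp only [alB, Bool.and_eq_true, Bool.or_eq_true, decide_eq_true_eq, beq_iff_eq] at h
    rcases Nat.eq_or_lt_of_le a with e | e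
    · subst e
      rcases h.1 with q | q
      · omega
      · exact Nat.dvd_of_mod_eq_zero q
    · exact ih (i + 1) h.2 j e (by omega) c

theorem map_rev (k : ℕ) (σ : ℕ → ℕ) :
    ((List.range' 1 k).map σ).reverse = (List.range' 1 k).map (rev k σ) := by
  apply List.ext_getElem (by simp)
  intro n h1 h2
  simp only [List.length_map, List.length_range'] at h2
  simp only [List.getElem_reverse, List.getElem_map, List.getElem_range', List.length_map,
    List.length_range', rev]
  congr 1; omega

def chk (k : ℕ) (l : List ℕ) : Bool :=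
  (alB k 0 1 l || alB k 1 1 l || alB k 2 1 l || alB k 0 1 l.reverse || alB k 1 1 l.reverse ||
    alB k 2 1 l.reverse) && (l.getD 0 0 == 1 || l.getD (k - 1) 0 == 1)

theorem base_chk : (List.range' 1 39).all (fun k => (allW k).all (chk k)) = true := by
  decide +kernel

theorem base (h : IsWCS k σ) (h1 : 1 ≤ k) (h2 : k ≤ 39) :
    (∃ s ≤ 2, AlS k σ s ∨ AlS k (rev k σ) s) ∧ (σ 1 = 1 ∨ σ k = 1) := by
  have := List.all_eq_true.1 (List.all_eq_true.1 base_chk k (by rw [List.mem_range'_1]; omega)) _
    (allW_ok h)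
  simp only [chk, Bool.and_eq_true, Bool.or_eq_true, beq_iff_eq, map_rev] at this
  obtain ⟨a, b⟩ := this
  have g1 := getD_map (k := k) σ (i := 1) le_rfl h1
  have g2 := getD_map (k := k) σ (i := k) h1 le_rfl
  simp only [Nat.sub_self] at g1
  rw [g1, g2] at b
  refine ⟨?_, b⟩
  have key : ∀ s τ, alB k s 1 ((List.range' 1 k).map τ) = true → AlS k τ s :=
    fun s τ q i i1 i2 i3 => alB_ok k s τ k 1 q i i1 (by omega) i3
  rcases a with ((((a | a) | a) | a) | a) | a
  · exact ⟨0, by omega, Or.inl (key _ _ a)⟩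
  · exact ⟨1, by omega, Or.inl (key _ _ a)⟩
  · exact ⟨2, by omega, Or.inl (key _ _ a)⟩
  · exact ⟨0, by omega, Or.inr (key _ _ a)⟩
  · exact ⟨1, by omega, Or.inr (key _ _ a)⟩
  · exact ⟨2, by omega, Or.inr (key _ _ a)⟩

end Pool.Agent.H13.Wcs
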