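import Pool.Agent.H13.WcsB

namespace Pool.Agent.H13.Wcs

variable {k : ℕ} {σ : ℕ → ℕ}

theorem AlS.al (h : IsWCS k σ) {s : ℕ} (a : AlS k σ s) {m : ℕ} (hm : 1 ≤ m)
    (hk : 2 * m + 2 ≤ k) : Al k σ s m := by
  obtain ⟨i, h1, h2, e⟩ := h.surj hm (show m ≤ k by omega)
  exact h.al_of h1 h2 (e ▸ dvd_rfl) (e ▸ a i h1 h2 (by omega))

theorem no3 {p : ℕ} (hp : 3 < p) (a : p.Prime) (b : (p + 2).Prime) (c : (p + 4).Prime) : False := by
  have key : ∀ q, 3 < q → q.Prime → ¬ 3 ∣ q := fun q h1 h2 h3 => by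
    have := (Nat.prime_dvd_prime_iff_eq Nat.prime_three h2).1 h3; omega
  have := key _ hp a
  have := key _ (by omega) b
  have := key _ (by omega) c
  omega

theorem odd_of_prime {p : ℕ} (hp : 2 < p) (a : p.Prime) : p % 2 = 1 :=
  a.eq_two_or_odd.resolve_left (by omega)

/-- factorisation of a window position whose value is `p * b` -/
theorem decomp {p b y : ℕ} (hp : p.Prime) (h11 : 10 ≤ p) (hb1 : 1 ≤ b) (hb : b ≤ 4)
    (hy : y < p * p) (hy0 : 1 ≤ y) (hpy : ¬ p ∣ y)
    (hal : ∀ m, 1 ≤ m → m < p → (m ∣ p * b ↔ m ∣ y)) :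
    ∃ R, y = b * R ∧ (R = 1 ∨ (R.Prime ∧ p < R)) := by
  obtain ⟨R, hR⟩ := (hal b hb1 (by omega)).1 (Dvd.intro_left _ rfl)
  refine ⟨R, hR, ?_⟩
  by_cases h1 : R = 1
  · exact Or.inl h1
  right
  have hq := Nat.minFac_prime h1
  have hqR := Nat.minFac_dvd R
  have hR0 : 0 < R := by
    rcases Nat.eq_zero_or_pos R with e | e
    · subst e; omega
    · exact e
  set q := R.minFac with hqdef
  have hqy : q ∣ y := hR ▸ Dvd.dvd.mul_left hqR b
  have hgt : p < q := by
    by_contra hh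
    have hne : q ≠ p := fun e => hpy (e ▸ hqy)
    have hlt : q < p := by omega
    have h2 := hq.two_le
    have c1 := (hal q (by omega) hlt).2 hqy
    have cop : Nat.Coprime q p := (Nat.coprime_primes hq hp).2 hne
    have c2 : q ∣ b := cop.dvd_of_dvd_mul_left c1
    have c3 : q ≤ b := Nat.le_of_dvd (by omega) c2
    have c4 : q * b < p := by
      have : q ≠ 4 := fun e => by rw [e] at hq; norm_num at hq
      have c5 : b ≤ 4 := hb
      interval_cases b <;> interval_cases q <;> omega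
    have c6 := (hal (q * b) (Nat.mul_pos (by omega) hb1) c4).2
      (by rw [hR, mul_comm q b]; exact Nat.mul_dvd_mul_left _ hqR)
    have c7 : q ∣ p := Nat.dvd_of_mul_dvd_mul_right hb1 c6
    exact hne ((Nat.prime_dvd_prime_iff_eq hq hp).1 c7)
  have hRy : R ≤ y := by rw [hR]; exact Nat.le_mul_of_pos_left _ hb1
  have hpr : R.Prime := by
    by_contra hh
    have := Nat.minFac_sq_le_self hR0 hh
    rw [← hqdef] at this
    nlinarith
  exact ⟨hpr, lt_of_lt_of_le hgt (Nat.le_of_dvd hR0 hqR)⟩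

/-- the smallest non-aligned modulus is a prime power -/
theorem al_mul (h : IsWCS k σ) {s a b : ℕ} (cop : Nat.Coprime a b) (ha : Al k σ s a)
    (hb : Al k σ s b) : Al k σ s (a * b) := by
  intro i h1 h2
  constructor
  · intro c
    exact cop.mul_dvd_of_dvd_of_dvd ((ha i h1 h2).1 ((Dvd.intro _ rfl).trans c))
      ((hb i h1 h2).1 ((Dvd.intro_left _ rfl).trans c))
  · intro c
    exact cop.mul_dvd_of_dvd_of_dvd ((ha i h1 h2).2 ((Dvd.intro _ rfl).trans c))
      ((hb i h1 h2).2 ((Dvd.intro_left _ rfl).trans c))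

theorem ppow_of_not_al (h : IsWCS k σ) {s m : ℕ} (hm : 2 ≤ m) (hn : ¬ Al k σ s m)
    (hl : ∀ d, 1 ≤ d → d < m → d ∣ m → Al k σ s d) :
    ∃ p u, p.Prime ∧ m = u * p ∧ (u = 1 ∨ p ∣ u) ∧ ∀ z, ¬ p ∣ z → Nat.Coprime z m := by
  have hp := Nat.minFac_prime (show m ≠ 1 by omega)
  set p := m.minFac
  obtain ⟨a, w, hw, e⟩ := Nat.exists_eq_pow_mul_and_not_dvd (show m ≠ 0 by omega) p hp.ne_one
  have hpd : p ∣ m := Nat.minFac_dvd m
  have ha : a ≠ 0 := by
    rintro rfl
    simp only [pow_zero, one_mul] at e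
    exact hw (e ▸ hpd)
  have hw0 : w ≠ 0 := by rintro rfl; simp at hw
  have hpa : 2 ≤ p ^ a := hp.two_le.trans (Nat.le_self_pow ha p)
  have hw1 : w = 1 := by
    by_contra hh
    have h2 : 2 ≤ w := by omega
    apply hn
    rw [e]
    refine al_mul h (Nat.Coprime.pow_left _ ((Nat.Prime.coprime_iff_not_dvd hp).2 hw))
      (hl _ (by omega) (by rw [e]; nlinarith) (e ▸ Dvd.intro _ rfl))
      (hl _ (by omega) (by rw [e]; nlinarith) (e ▸ Dvd.intro_left _ rfl))
  rw [hw1, mul_one] at e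
  obtain ⟨c, rfl⟩ : ∃ c, a = c + 1 := ⟨a - 1, by omega⟩
  refine ⟨p, p ^ c, hp, by rw [e, pow_succ], ?_, fun z hz => ?_⟩
  · rcases Nat.eq_zero_or_pos c with q | q
    · left; rw [q, pow_zero]
    · right; exact dvd_pow_self p (by omega)
  · rw [e]
    exact (Nat.Coprime.pow_left _ ((Nat.Prime.coprime_iff_not_dvd hp).2 hz)).symm

/-- The least non-aligned modulus of level at least two. -/
theorem least_nonal (h : IsWCS k σ) {s m : ℕ} (hs : s ≤ 5) (hm : 10 ≤ m) (hk1 : 2 * m ≤ k)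
    (hk2 : k ≤ 4 * m + 3) (hn : ¬ Al k σ s m) (hl : ∀ d, 1 ≤ d → d < m → Al k σ s d) :
    m.Prime ∧ (m + 2).Prime ∧ k ≤ 2 * m + 1 ∧ s ≤ 1 ∧ σ (2 - s) = 2 * m ∧ σ (m + 2 - s) = m ∧
      k % m < 2 - s := by
  obtain ⟨r, τ, r1, r2, hr, hτ, hv⟩ := h.slice (d := m) (by omega) (by omega)
  have hdm := Nat.div_add_mod k m
  have hml : k % m < m := Nat.mod_lt _ (by omega)
  set c := k / m with hc
  have c2 : 2 ≤ c := by rw [hc, Nat.le_div_iff_mul_le (by omega)]; omega
  have c4 : c ≤ 4 := by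
    have : c < 5 := by rw [hc, Nat.div_lt_iff_lt_mul (by omega)]; omega
    omega
  have pos : ∀ i, 1 ≤ i → i ≤ c → 1 ≤ r + m * (i - 1) ∧ r + m * (i - 1) ≤ k := by
    intro i a b
    have : m * i ≤ m * c := Nat.mul_le_mul_left _ b
    obtain ⟨t, rfl⟩ : ∃ t, i = t + 1 := ⟨i - 1, by omega⟩
    simp only [Nat.add_sub_cancel]
    rw [mul_add] at this
    omega
  have nd : ∀ i, 1 ≤ i → i ≤ c → ¬ m ∣ r + m * (i - 1) + s := by
    intro i a b q
    exact hn (h.al_of (pos i a b).1 (pos i a b).2 (by rw [hv i a b]; exact Dvd.intro _ rfl) q)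
  have al : ∀ i, 1 ≤ i → i ≤ c → ∀ d, 1 ≤ d → d < m →
      (d ∣ m * τ i ↔ d ∣ r + m * (i - 1) + s) := by
    intro i a b d d1 d2
    rw [← hv i a b]
    exact hl d d1 d2 _ (pos i a b).1 (pos i a b).2
  obtain ⟨p, u, hp, e, hu, cop⟩ := ppow_of_not_al h (by omega) hn (fun d a b _ => hl d a b)
  have p2 := hp.two_le
  rcases hu with hu | hu
  swap
  · exfalso
    have u0 : 0 < u := by
      rcases Nat.eq_zero_or_pos u with q | q
      · rw [q] at e; omega
      · exact q
    have pu : p ≤ u := Nat.le_of_dvd u0 hu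
    have um : u < m := by rw [e]; nlinarith
    obtain ⟨z, hz⟩ := (al c (by omega) le_rfl u u0 um).1 (by rw [e, mul_assoc]; exact Dvd.intro _ rfl)
    have pz : ¬ p ∣ z := fun q => nd c (by omega) le_rfl (by
      rw [hz, e]; exact Nat.mul_dvd_mul_left _ q)
    have hy := pos c (by omega) le_rfl
    have u5 : 5 ≤ u := by
      by_contra hh
      have : u ≤ 4 := by omega
      have : p ≠ 4 := fun q => by rw [q] at hp; norm_num at hp
      interval_cases u <;> interval_cases p <;> omega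
    have zm : z < m := by
      by_contra hh
      have : u * m ≤ u * z := Nat.mul_le_mul_left _ (by omega)
      nlinarith
    have z0 : 1 ≤ z := by
      rcases Nat.eq_zero_or_pos z with q | q
      · rw [q] at pz; simp at pz
      · exact q
    have q1 := (al c (by omega) le_rfl z z0 zm).2 (by rw [hz]; exact Dvd.intro_left _ rfl)
    have q2 : z ∣ τ c := (cop z pz).dvd_of_dvd_mul_left q1
    have q3 := hτ.mem (i := c) (by omega) le_rfl
    have q4 : z ≤ c := (Nat.le_of_dvd (by omega) q2).trans q3.2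
    have q5 : u * (p * (c - 1)) < u * z := by
      rw [← hz, ← mul_assoc, ← e]; omega
    have q6 : p * (c - 1) < z := lt_of_mul_lt_mul_left q5 (by omega)
    have q7 : 2 * (c - 1) ≤ p * (c - 1) := Nat.mul_le_mul_right _ p2
    omega
  subst hu
  rw [one_mul] at e
  subst e
  have dec : ∀ i, 1 ≤ i → i ≤ c → ∃ R, r + m * (i - 1) + s = τ i * R ∧
      (R = 1 ∨ (R.Prime ∧ m < R)) := by
    intro i a b
    have q := hτ.mem a b
    have := pos i a b
    exact decomp hp hm q.1 (by omega) (by nlinarith) (by omega) (nd i a b) (al i a b)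
  obtain ⟨R1, e1, f1⟩ := dec 1 le_rfl (by omega)
  obtain ⟨R2, e2, f2⟩ := dec 2 (by omega) (by omega)
  have b1 := hτ.mem (i := 1) le_rfl (by omega)
  have b2 := hτ.mem (i := 2) (by omega) (by omega)
  have n12 : τ 1 ≠ τ 2 := fun q => by
    have := hτ.inj le_rfl (by omega) (by omega) (by omega) q; omega
  have v1 := hv 1 le_rfl (by omega)
  have v2 := hv 2 (by omega) (by omega)
  simp only [Nat.sub_self, mul_zero, add_zero] at e1 v1
  simp only [show 2 - 1 = 1 from rfl, mul_one] at e2 v2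
  have om := odd_of_prime (by omega) hp
  have f2' : R2.Prime ∧ m < R2 := by
    rcases f2 with q | q
    · rw [q] at e2; omega
    · exact q
  have o2 := odd_of_prime (by omega) f2'.1
  rcases f1 with f1 | f1
  · rw [f1, mul_one] at e1
    have t2 : τ 2 = 1 := by
      by_contra hh
      have : 2 * R2 ≤ τ 2 * R2 := Nat.mul_le_mul_right _ (by omega)
      omega
    rw [t2, one_mul] at e2
    rcases Nat.lt_or_ge c 3 with c3 | c3
    · have t1 : τ 1 = 2 := by omega
      have cc : c = 2 := by omega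
      rw [cc] at hdm
      refine ⟨hp, by rw [show m + 2 = R2 by omega]; exact f2'.1, by omega, by omega, ?_, ?_,
        by omega⟩
      · rw [show 2 - s = r by omega, v1, t1, mul_comm]
      · rw [show m + 2 - s = r + m by omega, v2, t2, mul_one]
    · exfalso
      obtain ⟨R3, e3, f3⟩ := dec 3 (by omega) c3
      have b3 := hτ.mem (i := 3) (by omega) c3
      have n13 : τ 1 ≠ τ 3 := fun q => by
        have := hτ.inj le_rfl (by omega) (by omega) c3 q; omega
      have n23 : τ 2 ≠ τ 3 := fun q => by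
        have := hτ.inj (by omega) (by omega) (by omega) c3 q; omega
      simp only [show 3 - 1 = 2 from rfl] at e3
      have f3' : R3.Prime ∧ m < R3 := by
        rcases f3 with q | q
        · rw [q] at e3; omega
        · exact q
      have t3 : τ 3 = 2 := by
        by_contra hh
        have : 3 * R3 ≤ τ 3 * R3 := Nat.mul_le_mul_right _ (by omega)
        omega
      rw [t3] at e3
      exact no3 (by omega) hp (by rw [show m + 2 = R3 by omega]; exact f3'.1)
        (by rw [show m + 4 = R2 by omega]; exact f2'.1)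
  · exfalso
    have o1 := odd_of_prime (by omega) f1.1
    have t1 : τ 1 = 1 := by
      by_contra hh
      have : 2 * R1 ≤ τ 1 * R1 := Nat.mul_le_mul_right _ (by omega)
      omega
    rw [t1, one_mul] at e1
    have t2 : τ 2 = 2 := by
      by_contra hh
      have : 3 * R2 ≤ τ 2 * R2 := Nat.mul_le_mul_right _ (by omega)
      omega
    rw [t2] at e2
    exact no3 (by omega) hp (by rw [show m + 2 = R2 by omega]; exact f2'.1)
      (by rw [show m + 4 = R1 by omega]; exact f1.1)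

theorem upgrade (h : IsWCS k σ) (hk : 40 ≤ k) {s : ℕ} (hs : s ≤ 5)
    (ha : ∀ m, 1 ≤ m → 2 * m + 2 ≤ k / 2 → Al k σ s m) : s ≤ 2 ∧ AlS k σ s := by
  have all : ∀ m, 1 ≤ m → 2 * m + 2 ≤ k → Al k σ s m := by
    intro m
    induction m using Nat.strong_induction_on with
    | _ m ih =>
      intro h1 h2
      by_contra hn
      have : ¬ 2 * m + 2 ≤ k / 2 := fun q => hn (ha m h1 q)
      have := least_nonal h hs (m := m) (by omega) (by omega) (by omega) hn
        (fun d a b => ih d b a (by omega))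
      omega
  refine ⟨?_, fun i h1 h2 h3 => (all _ (h.mem h1 h2).1 h3 i h1 h2).1 dvd_rfl⟩
  by_contra hh
  obtain ⟨j, j1, j2, e⟩ := h.surj (m := 3) (by omega) (by omega)
  obtain ⟨R, hR⟩ := (all 3 (by omega) (by omega) j j1 j2).1 (e ▸ dvd_rfl)
  have h1 : R ≠ 1 := by omega
  have hq := Nat.minFac_prime h1
  have hqR := Nat.minFac_dvd R
  have hle : R.minFac ≤ R := Nat.le_of_dvd (by omega) hqR
  have big : ¬ 2 * R.minFac + 2 ≤ k := by
    intro q
    have a := (all _ hq.pos q j j1 j2).2 (hR ▸ Dvd.dvd.mul_left hqR 3)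
    rw [e] at a
    have b := (Nat.prime_dvd_prime_iff_eq hq Nat.prime_three).1 a
    rw [b] at hqR
    have c := (all 9 (by omega) (by omega) j j1 j2).2 (by omega)
    rw [e] at c
    omega
  omega

theorem lift (h : IsWCS k σ) {τ : ℕ → ℕ} (hτ : IsWCS (k / 2) τ) {r t : ℕ} (r1 : 1 ≤ r)
    (r2 : r ≤ 2) (hv : ∀ i, 1 ≤ i → i ≤ k / 2 → σ (r + 2 * (i - 1)) = 2 * τ i)
    (ha : AlS (k / 2) τ t) :
    ∀ m, 1 ≤ m → 2 * m + 2 ≤ k / 2 → Al k σ (2 * t + 2 - r) m := by
  intro m h1 h2
  obtain ⟨i, i1, i2, e⟩ := hτ.surj h1 (show m ≤ k / 2 by omega)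
  have := ha i i1 i2 (by omega)
  rw [e] at this
  refine h.al_of (j := r + 2 * (i - 1)) (by omega) (by omega) ?_ ?_
  · rw [hv i i1 i2, e]; exact Dvd.intro_left _ rfl
  · rw [show r + 2 * (i - 1) + (2 * t + 2 - r) = 2 * (i + t) by omega]
    exact Dvd.dvd.mul_left this 2

theorem aligned : ∀ (k : ℕ) (σ : ℕ → ℕ), IsWCS k σ → 1 ≤ k →
    ∃ s ≤ 2, AlS k σ s ∨ AlS k (rev k σ) s := by
  intro k
  induction k using Nat.strong_induction_on with
  | _ k ih =>
    intro σ h h1
    rcases Nat.lt_or_ge k 40 with hk | hk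
    · exact (base h h1 (by omega)).1
    obtain ⟨r, τ, r1, r2, -, hτ, hv⟩ := h.slice (d := 2) (by omega) (by omega)
    obtain ⟨t, ht, a | a⟩ := ih (k / 2) (by omega) τ hτ (by omega)
    · have := upgrade h hk (by omega) (lift h hτ (by omega) r2 hv a)
      exact ⟨_, this.1, Or.inl this.2⟩
    · have := upgrade h.rev hk (s := 2 * t + 2 - (k + 3 - r - 2 * (k / 2))) (by omega)
        (lift h.rev hτ.rev (by omega) (by omega) (by
          intro i i1 i2
          simp only [rev]
          rw [← hv (k / 2 + 1 - i) (by omega) (by omega)]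
          congr 1; omega) a)
      exact ⟨_, this.1, Or.inr this.2⟩

end Pool.Agent.H13.Wcs
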