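import Pool.Agent.H13.WcsC

namespace Pool.Agent.H13.Wcs

variable {k : ℕ} {σ : ℕ → ℕ}

theorem big_div {v : ℕ} (hk : 40 ≤ k) (h1 : v ≠ 1) (hv : v ∣ k) (hb : ¬ 2 * v.minFac + 2 ≤ k) :
    v.Prime ∧ (k = v ∨ k = 2 * v) := by
  have hq := Nat.minFac_prime h1
  obtain ⟨a, ha⟩ := Nat.minFac_dvd v
  obtain ⟨b, hb'⟩ := hv
  set q := v.minFac with hqd
  have e : k = q * (a * b) := by rw [hb', ha]; ring
  have ab0 : 0 < a * b := by
    rcases Nat.eq_zero_or_pos (a * b) with z | z
    · rw [z] at e; omega
    · exact z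
  have ab2 : a * b ≤ 2 := by
    by_contra hh
    have : q * 3 ≤ q * (a * b) := Nat.mul_le_mul_left _ (by omega)
    omega
  have a0 : 0 < a := Nat.pos_of_mul_pos_right ab0
  have b0 : 0 < b := Nat.pos_of_mul_pos_left ab0
  have a1 : a = 1 := by
    by_contra hh
    have a2 : a = 2 := by
      have : a ≤ a * b := Nat.le_mul_of_pos_right _ b0
      omega
    have : q ≤ 2 := Nat.minFac_le_of_dvd le_rfl (by rw [ha, a2]; exact Dvd.intro_left _ rfl)
    omega
  rw [a1, mul_one] at ha
  rw [a1, one_mul] at ab2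
  refine ⟨ha ▸ hq, ?_⟩
  interval_cases b <;> omega

theorem half_contra (h : IsWCS k σ) (hk : 40 ≤ k) {s q j : ℕ} (a : AlS k σ s) (hq : q.Prime)
    (e : k = 2 * q) (j1 : 1 ≤ j) (j2 : j ≤ k) (hj : j + s = q + 1) (hv : σ j = 2 * q) :
    False := by
  have oq := odd_of_prime (by omega) hq
  have c := (a.al h (m := (q + 1) / 2) (by omega) (by omega) j j1 j2).2
    (by rw [hj]; exact ⟨2, by omega⟩)
  rw [hv] at c
  have cop : Nat.Coprime ((q + 1) / 2) q :=
    ((Nat.Prime.coprime_iff_not_dvd hq).2 (Nat.not_dvd_of_pos_of_lt (by omega) (by omega))).symm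
  have := Nat.le_of_dvd (by omega) (cop.dvd_of_dvd_mul_right c)
  omega

theorem second (h : IsWCS k σ) {q i j : ℕ} (hq : 1 ≤ q) (e : k < 3 * q) (i1 : 1 ≤ i) (i2 : i ≤ k)
    (j1 : 1 ≤ j) (j2 : j ≤ k) (hi : σ i = q) (hne : i ≠ j) (hij : i ≡ j [MOD q]) :
    σ j = 2 * q := by
  obtain ⟨t, ht⟩ := h.step i1 i2 j1 j2 hq (hi ▸ dvd_rfl) hij
  have hm := h.mem j1 j2
  have t3 : t < 3 := by
    by_contra hh
    have : q * 3 ≤ q * t := Nat.mul_le_mul_left _ (by omega)
    omega
  interval_cases t
  · omega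
  · exact absurd (h.inj i1 i2 j1 j2 (by omega)) hne
  · omega

theorem last_one (h : IsWCS k σ) (hk : 40 ≤ k) {s : ℕ} (s1 : 1 ≤ s) (hs : s ≤ 2)
    (a : AlS k σ s) : σ k = 1 := by
  have dk := h.last_dvd (by omega)
  have d1 := h.first_dvd (by omega)
  by_contra hn
  have hq := Nat.minFac_prime hn
  have hqd := Nat.minFac_dvd (σ k)
  have small : 2 * (σ k).minFac + 2 ≤ k → (σ k).minFac ∣ s := fun q =>
    (Nat.dvd_add_right (hqd.trans dk)).1 ((a.al h hq.pos q k (by omega) le_rfl).1 hqd)
  have a2 := a.al h (m := 2) (by omega) (by omega)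
  rcases (show s = 1 ∨ s = 2 by omega) with rfl | rfl
  · have big : ¬ 2 * (σ k).minFac + 2 ≤ k := fun q =>
      hq.ne_one (Nat.dvd_one.1 (small q))
    obtain ⟨pv, e | e⟩ := big_div hk hn dk big
    · have o := odd_of_prime (by omega) pv
      have := (a2 k (by omega) le_rfl).2 (by omega)
      omega
    · exact half_contra h hk a pv e (j := σ k) (by omega) (by omega) rfl
        (second h (i := k) (by omega) (by omega) (by omega) le_rfl (by omega) (by omega) rfl
          (by omega) (by
            unfold Nat.ModEq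
            rw [Nat.mod_self]; exact Nat.mod_eq_zero_of_dvd dk))
  · have a3 := a.al h (m := 3) (by omega) (by omega)
    have k3 : 3 ∣ k := ((a3 1 le_rfl (by omega)).2 (by omega)).trans d1
    rcases Nat.even_or_odd' k with ⟨R', e | e⟩
    · have a4 := a.al h (m := 4) (by omega) (by omega)
      have hR1 : R' + 1 ≠ 1 := by omega
      have hr := Nat.minFac_prime hR1
      have hrd := Nat.minFac_dvd (R' + 1)
      have big : ¬ 2 * (R' + 1).minFac + 2 ≤ k := by
        intro q
        have c1 := ((a.al h hr.pos q k (by omega) le_rfl).2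
          (by rw [show k + 2 = 2 * (R' + 1) by omega]; exact Dvd.dvd.mul_left hrd 2)).trans dk
        have c2 : (R' + 1).minFac ∣ 2 := (Nat.dvd_add_right c1).1
          (by rw [show k + 2 = 2 * (R' + 1) by omega]; exact Dvd.dvd.mul_left hrd 2)
        have c3 := (Nat.prime_dvd_prime_iff_eq hr Nat.prime_two).1 c2
        rw [c3] at hrd
        have := ((a4 k (by omega) le_rfl).2 (by omega)).trans dk
        omega
      obtain ⟨t, ht⟩ := hrd
      have t1 : t = 1 := by
        have : t ≠ 0 := by rintro rfl; omega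
        by_contra hh
        have : (R' + 1).minFac * 2 ≤ (R' + 1).minFac * t := Nat.mul_le_mul_left _ (by omega)
        omega
      rw [t1, mul_one] at ht
      rw [← ht] at hr
      have oR := odd_of_prime (by omega) hr
      obtain ⟨j, j1, j2, ej⟩ := h.surj (m := R' + 1) (by omega) (by omega)
      have n3 : ¬ 3 ∣ R' + 1 := by omega
      have c1 : ¬ j + (R' + 1) ≤ k := fun q => by
        have := second h (q := R' + 1) (by omega) (by omega) j1 j2 (by omega) q ej (by omega)
          (by unfold Nat.ModEq; simp)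
        have := h.mem (i := j + (R' + 1)) (by omega) q
        omega
      have c2 : ¬ R' + 1 < j := fun q => by
        have := second h (q := R' + 1) (j := j - (R' + 1)) (by omega) (by omega) j1 j2 (by omega)
          (by omega) ej (by omega) (by
            unfold Nat.ModEq
            rw [← Nat.add_mod_right (j - (R' + 1)), show j - (R' + 1) + (R' + 1) = j by omega])
        have := h.mem (i := j - (R' + 1)) (by omega) (by omega)
        omega
      have c3 := (a2 j j1 j2).2
      have c4 := (a3 j j1 j2).2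
      rw [ej] at c3 c4
      omega
    · have big : ¬ 2 * (σ k).minFac + 2 ≤ k := fun q => by
        have c1 := (Nat.prime_dvd_prime_iff_eq hq Nat.prime_two).1 (small q)
        have c2 := hqd.trans dk
        rw [c1] at c2
        omega
      obtain ⟨pv, e' | e'⟩ := big_div hk hn dk big
      · have := (Nat.prime_dvd_prime_iff_eq Nat.prime_three pv).1 (e' ▸ k3)
        omega
      · omega

theorem end_one_al (h : IsWCS k σ) (hk : 40 ≤ k) {s : ℕ} (hs : s ≤ 2)
    (a : AlS k σ s) : σ 1 = 1 ∨ σ k = 1 := by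
  rcases Nat.eq_zero_or_pos s with rfl | s1
  swap
  · exact Or.inr (last_one h hk s1 hs a)
  have dk := h.last_dvd (by omega)
  have d1 := h.first_dvd (by omega)
  by_cases hn : σ 1 = 1
  · exact Or.inl hn
  right
  have hq := Nat.minFac_prime hn
  have big : ¬ 2 * (σ 1).minFac + 2 ≤ k := fun q =>
    hq.ne_one (Nat.dvd_one.1
      ((a.al h hq.pos q 1 le_rfl (by omega)).1 (Nat.minFac_dvd _)))
  obtain ⟨pv, e | e⟩ := big_div hk hn d1 big
  · rw [e] at dk
    rcases (Nat.dvd_prime pv).1 dk with q | q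
    · rw [← e] at q; exact q
    · rw [← e] at q
      have := h.inj (i := k) (j := 1) (by omega) le_rfl le_rfl (by omega) (by omega)
      omega
  · exact (half_contra h hk a pv e (j := σ 1 + 1) (by omega) (by omega) rfl
      (second h (i := 1) (by omega) (by omega) le_rfl (by omega) (by omega) (by omega) rfl
        (by omega) (by unfold Nat.ModEq; simp))).elim

theorem end_one (h : IsWCS k σ) (h1 : 1 ≤ k) : σ 1 = 1 ∨ σ k = 1 := by
  rcases Nat.lt_or_ge k 40 with hk | hk
  · exact (base h h1 (by omega)).2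
  obtain ⟨s, hs, a | a⟩ := aligned k σ h h1
  · exact end_one_al h hk hs a
  · have := end_one_al h.rev hk hs a
    simp only [rev, Nat.add_sub_cancel, Nat.add_sub_cancel_left] at this
    exact this.symm

theorem small_pos (h : IsWCS k σ) {m i : ℕ} (hm : 1 ≤ m) (hk : m ≤ k) (i1 : 1 ≤ i) (i2 : i ≤ k)
    (e : σ i = m) : i ≤ m ∨ k - m + 1 ≤ i := by
  obtain ⟨r, τ, r1, r2, -, hτ, hv⟩ := h.slice hm hk
  have c1 : 1 ≤ k / m := (Nat.le_div_iff_mul_le hm).2 (by omega)
  have hdm := Nat.div_add_mod k m
  rcases end_one hτ c1 with q | q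
  · have := hv 1 le_rfl c1
    rw [q] at this
    simp only [Nat.sub_self, mul_zero, add_zero, mul_one] at this
    have := h.inj i1 i2 (j := r) (by omega) (by omega) (by omega)
    omega
  · have := hv _ c1 le_rfl
    rw [q, mul_one] at this
    obtain ⟨t, ht⟩ : ∃ t, k / m = t + 1 := ⟨k / m - 1, by omega⟩
    rw [ht] at this hdm
    simp only [Nat.add_sub_cancel] at this
    rw [mul_add] at hdm
    have := h.inj i1 i2 (j := r + m * t) (by omega) (by omega) (by omega)
    omega

end Pool.Agent.H13.Wcs
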