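import Mathlib

namespace Pool.Agent.H13.Wcs

/-- `σ`, read on `[k] = {1,…,k}`, is a weakly consecutive permutation of `[k]`. -/
def IsWCS (k : ℕ) (σ : ℕ → ℕ) : Prop :=
  Set.BijOn σ (Set.Icc 1 k) (Set.Icc 1 k) ∧
    ∀ i ∈ Set.Icc 1 k, ∀ j ∈ Set.Icc 1 k, ∀ m : ℕ, 0 < m →
      m ∣ σ i → (m : ℤ) ∣ (i : ℤ) - (j : ℤ) → m ∣ σ j

end Pool.Agent.H13.Wcs
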