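import Pool.Agent.H13.WcsDefs

namespace Pool.Agent.H13.Wcs

/-- exchange of the entries `a` and `b` -/
def sw (a b x : ℕ) : ℕ := if x = a then b else if x = b then a else x

/-- the four starting sequences of the problem and one extra starting sequence -/
inductive Start
  | consec | inv | twin | sophie | extra
  deriving DecidableEq

/-- lengths for which a starting sequence is available -/
def Avail (k : ℕ) : Start → Prop
  | .consec => True
  | .inv => (k + 1).Prime
  | .twin => ∃ p, (k = 2 * p ∨ k = 2 * p + 1) ∧ p.Prime ∧ (p + 2).Prime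
  | .sophie => ∃ p, k + 1 = 2 * p ∧ p.Prime ∧ (p + 2).Prime ∧ (2 * p + 1).Prime
  | .extra => ∃ p, k = 2 * p ∧ p.Prime ∧ (p + 2).Prime ∧ (2 * p + 1).Prime

/-- the starting sequences (`p = k / 2`, resp. `p = (k + 1) / 2`) -/
def start (k : ℕ) : Start → ℕ → ℕ
  | .consec, i => i
  | .inv, i => if i = k then 1 else i + 1
  | .twin, i => sw (k / 2) (k / 2 + 2) (sw 2 (2 * (k / 2)) i)
  | .sophie, i => sw ((k + 1) / 2) ((k + 1) / 2 + 2)
      (if i = k then 1 else if i = k - 1 then 2 else i + 2)
  | .extra, i => sw (k / 2) (k / 2 + 2) (sw 2 (2 * (k / 2)) (if i = k then 1 else i + 1))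

/-- a rule application: exchange of two entries, or reversal -/
inductive Move
  | swap (a b : ℕ)
  | rev
  deriving DecidableEq

def Move.act (k : ℕ) : Move → (ℕ → ℕ) → ℕ → ℕ
  | .swap a b, σ, i => sw a b (σ i)
  | .rev, σ, i => σ (k + 1 - i)

/-- when a rule may be applied to `σ` in a derivation from the start `t` -/
def Move.Ok (k : ℕ) (t : Start) (σ : ℕ → ℕ) : Move → Prop
  | .swap a b =>
      (t = .sophie ∧ b = a + 2 ∧ a.Prime ∧ b.Prime ∧ b ≤ k ∧ (k + 1) / 2 < a ∧
        ∀ i ∈ Set.Icc 1 k, (σ i = a ↔ start k t i = a) ∧ (σ i = b ↔ start k t i = b)) ∨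
      (∃ p c : ℕ, p.Prime ∧ 1 ≤ c ∧ a = p ^ (c - 1) ∧ b = p ^ c ∧ p ^ c ≤ k ∧
        k < p ^ c + p ^ (c - 1))
  | .rev => True

/-- derivations: start, list of rule applications (last one first), resulting sequence -/
inductive Der (k : ℕ) (t : Start) : List Move → (ℕ → ℕ) → Prop
  | nil : Avail k t → Der k t [] (start k t)
  | cons {l : List Move} {σ : ℕ → ℕ} {m : Move} :
      Der k t l σ → m.Ok k t σ → Der k t (m :: l) (m.act k σ)

end Pool.Agent.H13.Wcs
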