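import Pool.Agent.H13.WcsD
import Pool.Agent.H13.WcsDer

namespace Pool.Agent.H13.Wcs

variable {k : ℕ} {σ : ℕ → ℕ} {t : Start}

def PowPair (k a b : ℕ) : Prop :=
  ∃ p c : ℕ, p.Prime ∧ 1 ≤ c ∧ a = p ^ (c - 1) ∧ b = p ^ c ∧ p ^ c ≤ k ∧ k < p ^ c + p ^ (c - 1)

def TwinPair (k : ℕ) (t : Start) (a b : ℕ) : Prop :=
  t = .sophie ∧ b = a + 2 ∧ a.Prime ∧ b.Prime ∧ b ≤ k ∧ (k + 1) / 2 < a

def Valid (k : ℕ) (t : Start) (a b : ℕ) : Prop := TwinPair k t a b ∨ PowPair k a b

theorem PowPair.facts {a b : ℕ} (h : PowPair k a b) :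
    ∃ p, p.Prime ∧ b = a * p ∧ 1 ≤ a ∧ b ≤ k ∧ k < b + a ∧ (a = 1 ∨ p ∣ a) ∧
      (∀ q, q.Prime → q ∣ b → q = p) := by
  obtain ⟨p, c, hp, hc, rfl, rfl, h1, h2⟩ := h
  obtain ⟨d, rfl⟩ : ∃ d, c = d + 1 := ⟨c - 1, by omega⟩
  simp only [Nat.add_sub_cancel] at h2 ⊢
  refine ⟨p, hp, pow_succ _ _, Nat.pos_of_ne_zero (pow_ne_zero _ hp.ne_zero), h1, h2, ?_,
    fun q hq hd => (Nat.prime_dvd_prime_iff_eq hq hp).1 (hq.dvd_of_dvd_pow hd)⟩
  rcases Nat.eq_zero_or_pos d with e | e
  · left; rw [e, pow_zero]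
  · right; exact dvd_pow_self p (by omega)

theorem Valid.lt {a b : ℕ} (h : Valid k t a b) : 1 ≤ a ∧ a < b ∧ b ≤ k := by
  rcases h with h | h
  · obtain ⟨-, e, ha, -, hb, -⟩ := h
    exact ⟨ha.pos, by omega, hb⟩
  · obtain ⟨p, hp, e, a1, b1, -⟩ := h.facts
    have := hp.two_le
    exact ⟨a1, by nlinarith, b1⟩

theorem pow_disj {a b a' b' : ℕ} (h : PowPair k a b) (h' : PowPair k a' b')
    (e : a = a' ∨ b = b' ∨ a = b') : a = a' ∧ b = b' := by
  obtain ⟨p, hp, e1, a1, b1, k1, d1, u1⟩ := h.facts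
  obtain ⟨q, hq, e2, a2, b2, k2, d2, u2⟩ := h'.facts
  have p2 := hp.two_le
  have q2 := hq.two_le
  rcases e with e | e | e
  · subst e
    refine ⟨rfl, ?_⟩
    have c1 : a * q < a * (p + 1) := by rw [mul_add]; omega
    have c2 : a * p < a * (q + 1) := by rw [mul_add]; omega
    have := lt_of_mul_lt_mul_left c1 (by omega)
    have := lt_of_mul_lt_mul_left c2 (by omega)
    rw [e1, e2, show p = q by omega]
  · have : q = p := u1 q hq (by rw [e, e2]; exact Dvd.intro_left _ rfl)
    subst this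
    refine ⟨Nat.eq_of_mul_eq_mul_right hq.pos (by omega), e⟩
  · exfalso
    have : a * 2 ≤ a * p := Nat.mul_le_mul_left _ p2
    have : a' * 2 ≤ a' * q := Nat.mul_le_mul_left _ q2
    omega

theorem twin_pow (ha : Avail k t) {a b a' b' : ℕ} (h : TwinPair k t a b) (h' : PowPair k a' b') :
    a ≠ a' ∧ a ≠ b' ∧ b ≠ a' ∧ b ≠ b' := by
  obtain ⟨rfl, e, pa, pb, bk, hl⟩ := h
  obtain ⟨q, hq, e2, a2, b2, k2, d2, u2⟩ := h'.facts
  obtain ⟨p, ek, hp, hp2, hp3⟩ := ha
  have q2 := hq.two_le
  have : a' * 2 ≤ a' * q := Nat.mul_le_mul_left _ q2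
  have key : ∀ x, x.Prime → x = b' → a' = 1 := by
    intro x hx ex
    have : a' ∣ x := by rw [ex, e2]; exact Dvd.intro _ rfl
    rcases (Nat.dvd_prime hx).1 this with r | r
    · exact r
    · omega
  refine ⟨by omega, fun r => ?_, by omega, fun r => ?_⟩
  · have := key a pa r; omega
  · have := key b pb r
    have hk : k = b := by omega
    have n3 : ∀ x, 3 < x → x.Prime → ¬ 3 ∣ x := fun x h1 h2 h3 => by
      have := (Nat.prime_dvd_prime_iff_eq Nat.prime_three h2).1 h3; omega
    have p2 := hp.two_le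
    have : p ≠ 2 := by rintro rfl; norm_num at hp2
    have := n3 _ (by omega) pb
    have := n3 _ (by omega) hp2
    have := n3 _ (by omega) hp
    have : p % 3 = 0 ∨ p % 3 = 1 ∨ p % 3 = 2 := by omega
    have : b = 2 * p - 1 := by omega
    rcases ‹p % 3 = 0 ∨ _› with r | r | r <;> omega

theorem valid_disj (ha : Avail k t) {a b a' b' : ℕ} (h : Valid k t a b) (h' : Valid k t a' b')
    (ne : ¬ (a = a' ∧ b = b')) : a ≠ a' ∧ a ≠ b' ∧ b ≠ a' ∧ b ≠ b' := by
  rcases h with h | h <;> rcases h' with h' | h'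
  · obtain ⟨rfl, e, pa, pb, bk, hl⟩ := h
    obtain ⟨-, e', pa', pb', bk', hl'⟩ := h'
    obtain ⟨p, ek, hp, hp2, hp3⟩ := ha
    have p2 := hp.two_le
    have : p ≠ 2 := by rintro rfl; norm_num at hp2
    refine ⟨by omega, fun r => ?_, fun r => ?_, by omega⟩
    · exact no3 (by omega) pa' (e' ▸ pb') (by rw [show a' + 4 = b by omega]; exact pb)
    · exact no3 (by omega) pa (e ▸ pb) (by rw [show a + 4 = b' by omega]; exact pb')
  · exact twin_pow ha h h'
  · have := twin_pow ha h' h; omega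
  · refine ⟨fun r => ne (pow_disj h h' (Or.inl r)), fun r => ne (pow_disj h h' (by omega)),
      fun r => ?_, fun r => ne (pow_disj h h' (by omega))⟩
    have := pow_disj h' h (by omega); omega

def val : List Move → ℕ → ℕ
  | [], x => x
  | .swap a b :: l, x => sw a b (val l x)
  | .rev :: l, x => val l x

theorem val_fix {l : List Move} {x : ℕ} (h : ∀ a b, Move.swap a b ∈ l → x ≠ a ∧ x ≠ b) :
    ∀ y, val l y = x ↔ y = x := by
  induction l with
  | nil => intro y; rfl
  | cons m l ih =>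
    intro y
    have ih' := ih (fun a b hab => h a b (List.mem_cons_of_mem _ hab)) y
    cases m with
    | swap a b =>
      have := h a b List.mem_cons_self
      simp only [val, sw]
      rw [← ih']
      split_ifs <;> omega
    | rev => exact ih'

theorem val_swap (ha : Avail k t) {l : List Move} (nd : l.Nodup)
    (hv : ∀ a b, Move.swap a b ∈ l → Valid k t a b) {a b : ℕ} (hab : Move.swap a b ∈ l) :
    val l a = b ∧ val l b = a := by
  induction l with
  | nil => simp at hab
  | cons m l ih =>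
    have hv' : ∀ a b, Move.swap a b ∈ l → Valid k t a b :=
      fun a b h => hv a b (List.mem_cons_of_mem _ h)
    rw [List.nodup_cons] at nd
    rcases List.mem_cons.1 hab with e | e
    · subst e
      have d : ∀ a' b', Move.swap a' b' ∈ l → a ≠ a' ∧ a ≠ b' ∧ b ≠ a' ∧ b ≠ b' := by
        intro a' b' h
        refine valid_disj ha (hv a b hab) (hv' _ _ h) ?_
        rintro ⟨rfl, rfl⟩
        exact nd.1 h
      have f1 := (val_fix (x := a) (fun a' b' h => ⟨(d a' b' h).1, (d a' b' h).2.1⟩) a).2 rfl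
      have f2 := (val_fix (x := b) (fun a' b' h => ⟨(d a' b' h).2.2.1, (d a' b' h).2.2.2⟩) b).2 rfl
      simp only [val, f1, f2, sw]
      constructor <;> split_ifs <;> omega
    · have := ih nd.2 hv' e
      cases m with
      | swap a' b' =>
        have d := valid_disj ha (hv a b hab) (hv a' b' List.mem_cons_self) (by
          rintro ⟨rfl, rfl⟩
          exact nd.1 e)
        simp only [val, this.1, this.2, sw]
        constructor <;> split_ifs <;> omega
      | rev => exact this

theorem Der.avail {l : List Move} (h : Der k t l σ) : Avail k t := by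
  induction h with
  | nil h => exact h
  | cons _ _ ih => exact ih

theorem Der.valid {l : List Move} (h : Der k t l σ) :
    ∀ a b, Move.swap a b ∈ l → Valid k t a b := by
  induction h with
  | nil h => intro a b h; simp at h
  | cons _ ok ih =>
    intro a b h
    rcases List.mem_cons.1 h with e | e
    · subst e
      rcases ok with ok | ok
      · exact Or.inl ⟨ok.1, ok.2.1, ok.2.2.1, ok.2.2.2.1, ok.2.2.2.2.1, ok.2.2.2.2.2.1⟩
      · exact Or.inr ok
    · exact ih a b e

theorem Der.form {l : List Move} (h : Der k t l σ) :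
    ∃ ρ : Bool, (l.Nodup → (ρ = true ↔ Move.rev ∈ l)) ∧
      ∀ i, i ≤ k + 1 → σ i = val l (start k t (if ρ then k + 1 - i else i)) := by
  induction h with
  | nil h => exact ⟨false, by simp, fun i _ => rfl⟩
  | @cons l σ m _ ok ih =>
    obtain ⟨ρ, h1, h2⟩ := ih
    cases m with
    | swap a b =>
      refine ⟨ρ, fun nd => ?_, fun i hi => ?_⟩
      · rw [h1 (List.nodup_cons.1 nd).2]; simp
      · simp only [Move.act, val, h2 i hi]
    | rev =>
      refine ⟨!ρ, fun nd => ?_, fun i hi => ?_⟩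
      · rw [List.nodup_cons] at nd
        have := h1 nd.2
        cases ρ <;> simp_all
      · simp only [Move.act, val, h2 (k + 1 - i) (by omega)]
        cases ρ
        · simp
        · simp only [if_true, Bool.not_true, Bool.false_eq_true, if_false]
          rw [show k + 1 - (k + 1 - i) = i by omega]

theorem der_of_list (ha : Avail k t) : ∀ l : List Move, l.Nodup → Move.rev ∉ l →
    (∀ a b, Move.swap a b ∈ l → Valid k t a b) →
    Der k t l (fun i => val l (start k t i)) := by
  intro l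
  induction l with
  | nil => intro _ _ _; exact Der.nil ha
  | cons m l ih =>
    intro nd nr hv
    rw [List.nodup_cons] at nd
    have hv' : ∀ a b, Move.swap a b ∈ l → Valid k t a b :=
      fun a b h => hv a b (List.mem_cons_of_mem _ h)
    have d := ih nd.2 (fun h => nr (List.mem_cons_of_mem _ h)) hv'
    cases m with
    | rev => exact absurd List.mem_cons_self nr
    | swap a b =>
      refine Der.cons (m := .swap a b) d ?_
      have dj : ∀ a' b', Move.swap a' b' ∈ l → a ≠ a' ∧ a ≠ b' ∧ b ≠ a' ∧ b ≠ b' := by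
        intro a' b' h
        refine valid_disj ha (hv a b List.mem_cons_self) (hv' _ _ h) ?_
        rintro ⟨rfl, rfl⟩
        exact nd.1 h
      rcases hv a b List.mem_cons_self with v | v
      · exact Or.inl ⟨v.1, v.2.1, v.2.2.1, v.2.2.2.1, v.2.2.2.2.1, v.2.2.2.2.2, fun i _ =>
          ⟨val_fix (fun a' b' h => ⟨(dj a' b' h).1, (dj a' b' h).2.1⟩) _,
           val_fix (fun a' b' h => ⟨(dj a' b' h).2.2.1, (dj a' b' h).2.2.2⟩) _⟩⟩
      · exact Or.inr v

/-- normal form gives a derivation -/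
theorem der_of_nf (ha : Avail k t)
    (nf : ∀ i, 1 ≤ i → i ≤ k → σ i = start k t i ∨ ∃ a b, Valid k t a b ∧
      (start k t i = a ∨ start k t i = b) ∧
      ∀ j, 1 ≤ j → j ≤ k → (start k t j = a → σ j = b) ∧ (start k t j = b → σ j = a)) :
    ∃ l τ, Der k t l τ ∧ ∀ i, 1 ≤ i → i ≤ k → τ i = σ i := by
  classical
  let S : Finset Move := (((Finset.range (k + 1)) ×ˢ (Finset.range (k + 1))).filter
    (fun x => Valid k t x.1 x.2 ∧ ∀ j, 1 ≤ j → j ≤ k →
      (start k t j = x.1 → σ j = x.2) ∧ (start k t j = x.2 → σ j = x.1))).image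
      (fun x => Move.swap x.1 x.2)
  have mem : ∀ a b, Move.swap a b ∈ S.toList ↔ Valid k t a b ∧ ∀ j, 1 ≤ j → j ≤ k →
      (start k t j = a → σ j = b) ∧ (start k t j = b → σ j = a) := by
    intro a b
    simp only [S, Finset.mem_toList, Finset.mem_image, Finset.mem_filter, Finset.mem_product,
      Finset.mem_range, Move.swap.injEq]
    constructor
    · rintro ⟨x, hx, rfl, rfl⟩; exact hx.2
    · intro h
      have := h.1.lt
      exact ⟨(a, b), ⟨⟨by omega, by omega⟩, h⟩, rfl, rfl⟩
  have hv : ∀ a b, Move.swap a b ∈ S.toList → Valid k t a b := fun a b h => ((mem a b).1 h).1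
  refine ⟨S.toList, _, der_of_list ha _ S.nodup_toList (by simp [S]) hv, fun i h1 h2 => ?_⟩
  rcases nf i h1 h2 with e | ⟨a, b, v, e, sp⟩
  · refine (val_fix (fun a b h => ?_) _).2 e.symm
    have c := (mem a b).1 h
    have := c.1.lt
    have := c.2 i h1 h2
    omega
  · have := val_swap ha S.nodup_toList hv ((mem a b).2 ⟨v, sp⟩)
    have := sp i h1 h2
    rcases e with e | e
    · simp only [e]; omega
    · simp only [e]; omega

end Pool.Agent.H13.Wcs
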