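import Pool.Agent.H13.WcsE

namespace Pool.Agent.H13.Wcs

variable {k : ℕ} {σ : ℕ → ℕ} {t : Start}

theorem Valid.even {a b x q : ℕ} (h : Valid k t a b) (e : x = a ∨ x = b) (h2 : 2 ∣ x)
    (hq : q.Prime) (hd : q ∣ x) : q = 2 := by
  rcases h with h | h
  · have px : x.Prime := by
      rcases e with rfl | rfl
      · exact h.2.2.1
      · exact h.2.2.2.1
    rw [(Nat.prime_dvd_prime_iff_eq hq px).1 hd,
      (Nat.prime_dvd_prime_iff_eq Nat.prime_two px).1 h2]
  · obtain ⟨p, hp, e1, -, -, -, -, u⟩ := h.facts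
    have : x ∣ b := by
      rcases e with rfl | rfl
      · rw [e1]; exact Dvd.intro _ rfl
      · exact dvd_rfl
    rw [u q hq (hd.trans this), u 2 Nat.prime_two (h2.trans this)]

theorem Der.fix {l : List Move} (h : Der k t l σ) {x q : ℕ} (h2 : 2 ∣ x)
    (hq : q.Prime) (hd : q ∣ x) (hn : q ≠ 2) (y : ℕ) : val l y = x ↔ y = x :=
  val_fix (fun a b hab => ⟨fun e => hn ((h.valid a b hab).even (Or.inl e) h2 hq hd),
    fun e => hn ((h.valid a b hab).even (Or.inr e) h2 hq hd)⟩) y

def sh : Start → ℕ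
  | .consec => 0 | .inv => 1 | .twin => 0 | .sophie => 2 | .extra => 1

theorem start_eq (ha : Avail k t) (hk : 12 ≤ k) {x j : ℕ} (hx : x = 6 ∨ x = 12) (j1 : 1 ≤ j)
    (j2 : j ≤ k) : start k t j = x ↔ j + sh t = x := by
  have np : ∀ p : ℕ, p.Prime → p ≠ 6 ∧ p ≠ 12 := fun p hp =>
    ⟨by rintro rfl; norm_num at hp, by rintro rfl; norm_num at hp⟩
  cases t with
  | consec => simp [start, sh]
  | inv => simp only [start, sh]; split_ifs <;> omega
  | twin =>
    obtain ⟨p, e, h1, h2⟩ := ha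
    have := np _ h1; have := np _ h2
    simp only [start, sh, sw, show k / 2 = p by omega]; split_ifs <;> omega
  | sophie =>
    obtain ⟨p, e, h1, h2, -⟩ := ha
    have := np _ h1; have := np _ h2
    simp only [start, sh, sw, show (k + 1) / 2 = p by omega]; split_ifs <;> omega
  | extra =>
    obtain ⟨p, e, h1, h2, -⟩ := ha
    have := np _ h1; have := np _ h2
    simp only [start, sh, sw, show k / 2 = p by omega]; split_ifs <;> omega

theorem sw_sw (a b x : ℕ) : sw a b (sw a b x) = x := by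
  unfold sw; split_ifs <;> omega

theorem start_surj (ha : Avail k t) (hk : 12 ≤ k) {x : ℕ} (x1 : 1 ≤ x) (x2 : x ≤ k) :
    ∃ j, 1 ≤ j ∧ j ≤ k ∧ start k t j = x := by
  have rng : ∀ a b y, 1 ≤ a → a ≤ k → 1 ≤ b → b ≤ k → 1 ≤ y → y ≤ k →
      1 ≤ sw a b y ∧ sw a b y ≤ k := by
    intro a b y _ _ _ _ _ _; unfold sw; split_ifs <;> omega
  have s1 : ∀ y, 1 ≤ y → y ≤ k → ∃ j, 1 ≤ j ∧ j ≤ k ∧ (if j = k then 1 else j + 1) = y := by
    intro y _ _
    by_cases e : y = 1
    · exact ⟨k, by omega, le_rfl, by simp [e]⟩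
    · exact ⟨y - 1, by omega, by omega, by split_ifs <;> omega⟩
  have s2 : ∀ y, 1 ≤ y → y ≤ k → ∃ j, 1 ≤ j ∧ j ≤ k ∧
      (if j = k then 1 else if j = k - 1 then 2 else j + 2) = y := by
    intro y _ _
    by_cases e : y = 1
    · exact ⟨k, by omega, le_rfl, by simp [e]⟩
    by_cases e : y = 2
    · exact ⟨k - 1, by omega, by omega, by split_ifs <;> omega⟩
    · exact ⟨y - 2, by omega, by omega, by split_ifs <;> omega⟩
  have r1 := rng (k / 2) (k / 2 + 2) x (by omega) (by omega) (by omega) (by omega) x1 x2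
  have r2 := rng 2 (2 * (k / 2)) _ (by omega) (by omega) (by omega) (by omega) r1.1 r1.2
  have r3 := rng ((k + 1) / 2) ((k + 1) / 2 + 2) x (by omega) (by omega) (by omega) (by omega) x1 x2
  cases t with
  | consec => exact ⟨x, x1, x2, rfl⟩
  | inv => exact s1 x x1 x2
  | twin => exact ⟨_, r2.1, r2.2, by simp only [start, sw_sw]⟩
  | sophie =>
    obtain ⟨j, a, b, e⟩ := s2 _ r3.1 r3.2
    exact ⟨j, a, b, by simp only [start, e, sw_sw]⟩
  | extra =>
    obtain ⟨j, a, b, e⟩ := s1 _ r2.1 r2.2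
    exact ⟨j, a, b, by simp only [start, e, sw_sw]⟩

theorem same_start (hk : 12 ≤ k) {t' : Start} {l l' : List Move} {σ' : ℕ → ℕ}
    (h : Der k t l σ) (h' : Der k t' l' σ') (e : ∀ i, 1 ≤ i → i ≤ k → σ i = σ' i) {ρ ρ' : Bool}
    (f : ∀ i, i ≤ k + 1 → σ i = val l (start k t (if ρ then k + 1 - i else i)))
    (f' : ∀ i, i ≤ k + 1 → σ' i = val l' (start k t' (if ρ' then k + 1 - i else i))) :
    ρ = ρ' ∧ t = t' := by
  have tr : ∀ x q : ℕ, 2 ∣ x → q.Prime → q ∣ x → q ≠ 2 → ∀ i, 1 ≤ i → i ≤ k →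
      (start k t (if ρ then k + 1 - i else i) = x ↔
        start k t' (if ρ' then k + 1 - i else i) = x) := by
    intro x q a b c d i i1 i2
    rw [← h.fix a b c d, ← f i (by omega), e i i1 i2, f' i (by omega)]
    exact h'.fix a b c d _
  have s2 : ∀ u, sh u ≤ 2 := fun u => by cases u <;> simp [sh]
  have c1 := s2 t
  have c2 := s2 t'
  have key : ∀ x, x = 6 ∨ x = 12 → ∀ i, 1 ≤ i → i ≤ k →
      ((if ρ then k + 1 - i else i) + sh t = x ↔ (if ρ' then k + 1 - i else i) + sh t' = x) := by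
    intro x hx i i1 i2
    rw [← start_eq h.avail hk hx (by split_ifs <;> omega) (by split_ifs <;> omega),
      ← start_eq h'.avail hk hx (by split_ifs <;> omega) (by split_ifs <;> omega)]
    exact tr x 3 (by omega) Nat.prime_three (by omega) (by omega) i i1 i2
  have k1 := key 6 (by omega) (if ρ then k + 1 - (6 - sh t) else 6 - sh t)
    (by split_ifs <;> omega) (by split_ifs <;> omega)
  have k2 := key 12 (by omega) (if ρ then k + 1 - (12 - sh t) else 12 - sh t)
    (by split_ifs <;> omega) (by split_ifs <;> omega)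
  have m : ρ = ρ' ∧ sh t = sh t' := by
    cases ρ <;> cases ρ' <;> simp at k1 k2 ⊢ <;> omega
  obtain ⟨rfl, m⟩ := m
  refine ⟨rfl, ?_⟩
  have tr2 : ∀ p : ℕ, p.Prime → 6 ≤ p → ∀ j, 1 ≤ j → j ≤ k →
      (start k t j = 2 * p ↔ start k t' j = 2 * p) := by
    intro p hp p6 j j1 j2
    have := tr (2 * p) p (Dvd.intro _ rfl) hp (Dvd.intro_left _ rfl) (by omega)
      (if ρ then k + 1 - j else j) (by split_ifs <;> omega) (by split_ifs <;> omega)
    cases ρ
    · simpa using this
    · simp only [if_true, show k + 1 - (k + 1 - j) = j by omega] at this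
      exact this
  have a := h.avail
  have a' := h'.avail
  cases t <;> cases t' <;> simp only [sh] at m <;> first | rfl | omega | skip
  · obtain ⟨p, e, h1, h2⟩ := a'
    have := tr2 p h1 (by omega) 2 (by omega) (by omega)
    simp only [start, sw, show k / 2 = p by omega] at this
    split_ifs at this <;> omega
  · obtain ⟨p, e, h1, h2⟩ := a'
    have := tr2 p h1 (by omega) 1 (by omega) (by omega)
    simp only [start, sw, show k / 2 = p by omega] at this
    split_ifs at this <;> omega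
  · obtain ⟨p, e, h1, h2⟩ := a
    have := tr2 p h1 (by omega) 2 (by omega) (by omega)
    simp only [start, sw, show k / 2 = p by omega] at this
    split_ifs at this <;> omega
  · obtain ⟨p, e, h1, h2⟩ := a
    have := tr2 p h1 (by omega) 1 (by omega) (by omega)
    simp only [start, sw, show k / 2 = p by omega] at this
    split_ifs at this <;> omega

theorem swap_sub (hk : 12 ≤ k) {l l' : List Move} {σ' : ℕ → ℕ}
    (h : Der k t l σ) (h' : Der k t l' σ') (nd : l.Nodup)
    (e : ∀ j, 1 ≤ j → j ≤ k → val l (start k t j) = val l' (start k t j)) {a b : ℕ}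
    (hab : Move.swap a b ∈ l) : Move.swap a b ∈ l' := by
  have v := h.valid a b hab
  have lt := v.lt
  obtain ⟨j, j1, j2, ej⟩ := start_surj h.avail hk lt.1 (show a ≤ k by omega)
  have c := e j j1 j2
  rw [ej, (val_swap h.avail nd h.valid hab).1] at c
  by_contra hn
  have := (val_fix (l := l') (x := a) (fun a' b' q => by
    have := valid_disj h.avail v (h'.valid a' b' q) (by rintro ⟨rfl, rfl⟩; exact hn q)
    omega) a).2 rfl
  omega

theorem unique (hk : 12 ≤ k) {t' : Start} {l l' : List Move} {σ' : ℕ → ℕ}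
    (h : Der k t l σ) (h' : Der k t' l' σ') (nd : l.Nodup) (nd' : l'.Nodup)
    (e : ∀ i, 1 ≤ i → i ≤ k → σ i = σ' i) : t = t' ∧ ∀ m, m ∈ l ↔ m ∈ l' := by
  obtain ⟨ρ, r, f⟩ := h.form
  obtain ⟨ρ', r', f'⟩ := h'.form
  obtain ⟨rfl, rfl⟩ := same_start hk h h' e f f'
  have key : ∀ j, 1 ≤ j → j ≤ k → val l (start k t j) = val l' (start k t j) := by
    intro j j1 j2
    have := e (if ρ then k + 1 - j else j) (by split_ifs <;> omega) (by split_ifs <;> omega)
    rw [f _ (by split_ifs <;> omega), f' _ (by split_ifs <;> omega)] at this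
    cases ρ
    · simpa using this
    · simp only [if_true, show k + 1 - (k + 1 - j) = j by omega] at this
      exact this
  refine ⟨rfl, fun m => ?_⟩
  cases m with
  | rev => rw [← r nd, ← r' nd']
  | swap a b =>
    exact ⟨swap_sub hk h h' nd key, swap_sub hk h' h nd' (fun j a b => (key j a b).symm)⟩

theorem not_four (hk : 12 ≤ k) (ha : Avail k .extra) {l : List Move} (h : Der k t l σ)
    (e : ∀ i, 1 ≤ i → i ≤ k → σ i = start k .extra i) : t = .extra := by
  obtain ⟨ρ, -, f⟩ := h.form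
  exact (same_start (ρ' := false) hk h (Der.nil ha) e f (fun i _ => rfl)).2

end Pool.Agent.H13.Wcs
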