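import Pool.Agent.H13.WcsF

namespace Pool.Agent.H13.Wcs

variable {k : ℕ} {σ : ℕ → ℕ} {s : ℕ}

theorem cls_pos (h : IsWCS k σ) {m i : ℕ} (i1 : 1 ≤ i) (i2 : i ≤ k) (im : i ≤ m)
    (hd : m ∣ σ i) : k % m < i := by
  have hm := h.mem i1 i2
  obtain ⟨r, r1, r2, hr⟩ := h.cls (m := m) (by omega) ((Nat.le_of_dvd hm.1 hd).trans hm.2)
  have e : i ≡ r [MOD m] := (hr i i1 i2).1 hd
  have e2 : i - 1 ≡ r - 1 [MOD m] := by
    apply Nat.ModEq.add_right_cancel' 1
    rw [show i - 1 + 1 = i by omega, show r - 1 + 1 = r by omega]; exact e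
  have := Nat.ModEq.eq_of_lt_of_lt e2 (by omega) (by omega)
  omega

theorem cnt (h : IsWCS k σ) {m y : ℕ} (a : Al k σ s m) (h1 : s < m) (h2 : m ≤ k) (y1 : k < y)
    (y2 : y ≤ k + s) : ¬ m ∣ y := by
  have := cls_pos h (m := m) (i := m - s) (by omega) (by omega) (by omega)
    ((a _ (by omega) (by omega)).2 (by rw [show m - s + s = m by omega]))
  intro hd
  have hdm := Nat.div_add_mod k m
  have : m ∣ k % m + (y - k) := by
    rw [show y = m * (k / m) + (k % m + (y - k)) by omega] at hd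
    exact (Nat.dvd_add_right (Dvd.intro _ rfl)).1 hd
  have := Nat.le_of_dvd (by omega) this
  omega

theorem noSmall (hk : 40 ≤ k) {y : ℕ} (y1 : 2 ≤ y) (y2 : y ≤ k + 2)
    (hn : ∀ q, q.Prime → 2 * q + 2 ≤ k → ¬ q ∣ y) : y.Prime ∧ k / 2 ≤ y := by
  have hq := Nat.minFac_prime (show y ≠ 1 by omega)
  have big : ¬ 2 * y.minFac + 2 ≤ k := fun c => hn _ hq c (Nat.minFac_dvd y)
  have := Nat.minFac_le (show 0 < y by omega)
  refine ⟨?_, by omega⟩
  by_contra hh
  have := Nat.minFac_sq_le_self (by omega) hh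
  have : 20 ≤ y.minFac := by omega
  nlinarith

theorem shift1 (h : IsWCS k σ) (hk : 40 ≤ k) (a : AlS k σ 1) : (k + 1).Prime :=
  (noSmall hk (by omega) (by omega) (fun q hq c =>
    cnt h (a.al h hq.pos c) hq.one_lt (by omega) (by omega) le_rfl)).1

theorem lev1 (h : IsWCS k σ) {q i : ℕ} (hq : k < 2 * q) (i1 : 1 ≤ i) (i2 : i ≤ k)
    (e : σ i = q) : i ≤ q ∧ k < i + q := by
  have hm := h.mem i1 i2
  have c : i ≤ q := by
    by_contra hh
    have := second h (q := q) (j := i - q) (by omega) (by omega) i1 i2 (by omega)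
      (by omega) e (by omega) (by
        unfold Nat.ModEq
        rw [← Nat.add_mod_right (i - q), show i - q + q = i by omega])
    have := h.mem (i := i - q) (by omega) (by omega)
    omega
  refine ⟨c, ?_⟩
  by_contra hh
  have := second h (q := q) (j := i + q) (by omega) (by omega) i1 i2 (by omega) (by omega) e
    (by omega) (by unfold Nat.ModEq; simp)
  have := h.mem (i := i + q) (by omega) (by omega)
  omega

theorem pos_two (h : IsWCS k σ) (hk : 40 ≤ k) (hs : s ≤ 2) (a : AlS k σ s) {i : ℕ} (i1 : 1 ≤ i)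
    (i2 : i ≤ k) (e : σ i = 2) : i + s = 2 ∨ ∃ R, i + s = 2 * R ∧ R.Prime ∧ k / 2 ≤ R := by
  obtain ⟨R, hR⟩ := (a.al h (m := 2) (by omega) (by omega) i i1 i2).1 (by rw [e])
  by_cases h1 : R = 1
  · left; omega
  right
  refine ⟨R, hR, noSmall hk (by omega) (by omega) (fun q hq c hd => ?_)⟩
  have c1 := (a.al h hq.pos c i i1 i2).2 (hR ▸ Dvd.dvd.mul_left hd 2)
  rw [e] at c1
  have c2 := (Nat.prime_dvd_prime_iff_eq hq Nat.prime_two).1 c1
  rw [c2] at hd
  have := (a.al h (m := 4) (by omega) (by omega) i i1 i2).2 (by omega)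
  omega

theorem shift2 (h : IsWCS k σ) (hk : 40 ≤ k) (a : AlS k σ 2) :
    ∃ R, k + 1 = 2 * R ∧ R.Prime ∧ (R + 2).Prime ∧ (2 * R + 1).Prime ∧ σ (k - 1) = 2 ∧
      σ R = R := by
  have l1 := last_one h hk (by omega) le_rfl a
  have a2 := a.al h (m := 2) (by omega) (by omega)
  have ko : k % 2 = 1 := by
    have := (a2 k (by omega) le_rfl).2
    omega
  have p2 : (k + 2).Prime := (noSmall hk (by omega) le_rfl (fun q hq c hd => by
    have := (a.al h hq.pos c k (by omega) le_rfl).2 hd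
    rw [l1] at this
    exact hq.ne_one (Nat.dvd_one.1 this))).1
  have hR := noSmall hk (y := (k + 1) / 2) (by omega) (by omega) (fun q hq c hd => by
    have hd2 : q ∣ k + 1 := hd.trans ⟨2, by omega⟩
    by_cases q2 : q = 2
    · subst q2
      exact cnt h (a.al h (m := 4) (by omega) (by omega)) (y := k + 1) (by omega) (by omega)
        (by omega) (by omega) (by omega)
    · have := hq.two_le
      exact cnt h (a.al h hq.pos c) (by omega) (by omega) (by omega) (by omega) hd2)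
  set R := (k + 1) / 2 with hRd
  have oR := odd_of_prime (by omega) hR.1
  obtain ⟨j, j1, j2, ej⟩ := h.surj (m := R) (by omega) (by omega)
  have l := lev1 h (q := R) (by omega) j1 j2 ej
  have jR : j = R := by
    have := (a2 j j1 j2).2
    omega
  subst jR
  have p3 := noSmall hk (y := R + 2) (by omega) (by omega) (fun q hq c hd => by
    have := (a.al h hq.pos c R j1 j2).2 hd
    rw [ej] at this
    have := (Nat.prime_dvd_prime_iff_eq hq hR.1).1 this
    omega)
  refine ⟨R, by omega, hR.1, p3.1, by rw [show 2 * R + 1 = k + 2 by omega]; exact p2, ?_, ej⟩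
  obtain ⟨i, i1, i2, ei⟩ := h.surj (m := 2) (by omega) (by omega)
  rcases pos_two h hk le_rfl a i1 i2 ei with c | ⟨R', c, pR, c2⟩
  · omega
  · have := odd_of_prime (by omega) pR
    rw [show k - 1 = i by omega, ei]

theorem nonalP (h : IsWCS k σ) (hk : 40 ≤ k) (hs : s ≤ 2) (a : AlS k σ s)
    (hn : ¬ Al k σ s (k / 2)) : (k / 2).Prime ∧ (k / 2 + 2).Prime ∧ s ≤ 1 ∧
      σ (2 - s) = 2 * (k / 2) ∧ σ (k / 2 + 2 - s) = k / 2 ∧ σ (2 * (k / 2) - s) = 2 ∧
      k + s ≤ 2 * (k / 2) + 1 := by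
  obtain ⟨c1, c2, -, c4, c5, c6, c7⟩ := least_nonal h (s := s) (m := k / 2) (by omega) (by omega)
    (by omega) (by omega) hn (fun d d1 d2 => a.al h d1 (by omega))
  have c8 : k + s ≤ 2 * (k / 2) + 1 := by
    rcases Nat.even_or_odd' k with ⟨P, e | e⟩
    · omega
    · have : k / 2 = P := by omega
      rw [this, e, show 2 * P + 1 = 1 + P * 2 by ring, Nat.add_mul_mod_self_left,
        Nat.mod_eq_of_lt (by omega)] at c7
      omega
  refine ⟨c1, c2, c4, c5, c6, ?_, c8⟩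
  obtain ⟨i, i1, i2, ei⟩ := h.surj (m := 2) (by omega) (by omega)
  rcases pos_two h hk hs a i1 i2 ei with c | ⟨R', c, pR, c2⟩
  · rw [show 2 - s = i by omega] at c5; omega
  · rw [show 2 * (k / 2) - s = i by omega, ei]

theorem posY (h : IsWCS k σ) (hk : 40 ≤ k) (hs : s ≤ 2) (a : AlS k σ s) {q : ℕ} (hq : q.Prime)
    (q1 : k / 2 ≤ q) (q2 : q ≤ k) : ∃ y, s + 1 ≤ y ∧ y ≤ k ∧ σ (y - s) = q ∧
      (y = q ∨ (y = 1 ∧ s = 0 ∧ q = k) ∨ (y.Prime ∧ k / 2 ≤ y ∧ (y < q ∨ (y = q + 2 ∧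
        (s = 2 ∨ (q = k / 2 ∧ ¬ Al k σ s (k / 2))))))) := by
  have oq := odd_of_prime (by omega) hq
  have a2 := a.al h (m := 2) (by omega) (by omega)
  obtain ⟨i, i1, i2, e⟩ := h.surj (m := q) (by omega) q2
  have ee : σ (i + s - s) = q := by rw [Nat.add_sub_cancel, e]
  rcases Nat.eq_or_lt_of_le q1 with c | c
  · by_cases al : Al k σ s (k / 2)
    · obtain ⟨z, hz⟩ := (al i i1 i2).1 (by rw [e, c])
      rw [c] at hz
      have z3 : z < 3 := by
        by_contra hh
        have : q * 3 ≤ q * z := Nat.mul_le_mul_left _ (by omega)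
        omega
      have := (a2 i i1 i2).2
      have : i + s = q := by interval_cases z <;> omega
      exact ⟨i + s, by omega, by omega, ee, Or.inl this⟩
    · obtain ⟨c1, c2, c3, c4, c5, -⟩ := nonalP h hk hs a al
      refine ⟨k / 2 + 2, by omega, by omega, by omega, Or.inr (Or.inr ⟨c2, by omega,
        Or.inr ⟨by omega, Or.inr ⟨by omega, al⟩⟩⟩)⟩
  · have l := lev1 h (q := q) (by omega) i1 i2 e
    by_cases y1 : i + s = 1
    · exact ⟨i + s, by omega, by omega, ee, Or.inr (Or.inl (by omega))⟩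
    have py := noSmall hk (y := i + s) (by omega) (by omega) (fun p hp c hd => by
      have := (a.al h hp.pos c i i1 i2).2 hd
      rw [e] at this
      have := (Nat.prime_dvd_prime_iff_eq hp hq).1 this
      omega)
    have oy := odd_of_prime (by omega) py.1
    have yk : i + s ≤ k := by
      by_contra hh
      have l1 := last_one h hk (by omega) hs a
      have : i ≠ k := by rintro rfl; omega
      obtain rfl : s = 2 := by omega
      obtain ⟨R, r1, -⟩ := shift2 h hk a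
      omega
    refine ⟨i + s, by omega, yk, ee, ?_⟩
    by_cases yq : i + s = q
    · exact Or.inl yq
    · exact Or.inr (Or.inr ⟨py.1, py.2, by omega⟩)

theorem primeD (h : IsWCS k σ) (hk : 40 ≤ k) (hs : s ≤ 2) (a : AlS k σ s) : ∀ q : ℕ, q.Prime →
    k / 2 ≤ q → q ≤ k → σ (q - s) = q ∨
      (σ (q - s) = q + 2 ∧ σ (q + 2 - s) = q ∧ (q + 2).Prime ∧ q + 2 ≤ k ∧
        (s = 2 ∨ (q = k / 2 ∧ ¬ Al k σ s (k / 2)))) ∨
      (σ (q - s) = q - 2 ∧ σ (q - 2 - s) = q ∧ (q - 2).Prime ∧ k / 2 ≤ q - 2 ∧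
        (s = 2 ∨ (q - 2 = k / 2 ∧ ¬ Al k σ s (k / 2)))) ∨
      (q = k ∧ s = 0 ∧ σ 1 = k ∧ σ k = 1) := by
  intro q
  induction q using Nat.strong_induction_on with
  | _ q ih =>
    intro hq q1 q2
    obtain ⟨y, y1, y2, ey, c | c | ⟨py, y3, c | c⟩⟩ := posY h hk hs a hq q1 q2
    · left; rw [← c]; rw [← c] at ey; exact ey
    · obtain ⟨rfl, rfl, rfl⟩ := c
      have := end_one h (by omega)
      simp only [Nat.sub_zero] at ey
      exact Or.inr (Or.inr (Or.inr ⟨rfl, rfl, ey, by omega⟩))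
    · rcases ih y c py y3 y2 with d | d | d | d
      · omega
      · obtain rfl : q = y + 2 := by omega
        simp only [Nat.add_sub_cancel]
        exact Or.inr (Or.inr (Or.inl ⟨d.2.1, ey, py, y3, d.2.2.2.2⟩))
      · omega
      · omega
    · obtain ⟨rfl, c⟩ := c
      obtain ⟨z, z1, z2, ez, d | d | ⟨pz, z3, d | d⟩⟩ := posY h hk hs a py y3 y2
      · rw [d] at ez; omega
      · omega
      · have := odd_of_prime (by omega) hq
        have := odd_of_prime (by omega) pz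
        rcases Nat.lt_or_ge z q with f | f
        · rcases ih z f pz z3 z2 with g | g | g | g <;> omega
        · obtain rfl : z = q := by omega
          exact Or.inr (Or.inl ⟨ez, ey, py, y2, c⟩)
      · exact (no3 (by omega) hq py (by rw [show q + 4 = z by omega]; exact pz)).elim

def Typed (k : ℕ) (σ : ℕ → ℕ) (s a b : ℕ) : Prop :=
  PowPair k a b ∨ (b = a + 2 ∧ a.Prime ∧ b.Prime ∧ k / 2 ≤ a ∧
    (s = 2 ∨ (a = k / 2 ∧ ¬ Al k σ s (k / 2)))) ∨ (a = 2 ∧ b = 2 * (k / 2) ∧ ¬ Al k σ s (k / 2))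

theorem nonal_pair (h : IsWCS k σ) (hk : 40 ≤ k) (hs : s ≤ 2) (a : AlS k σ s) {w : ℕ}
    (w1 : 1 ≤ w) (w2 : w ≤ k) (hn : ¬ Al k σ s w) : ∃ x y, (w = x ∨ w = y) ∧ s + 1 ≤ x ∧
      x ≤ k ∧ s + 1 ≤ y ∧ y ≤ k ∧ σ (x - s) = y ∧ σ (y - s) = x ∧ Typed k σ s x y := by
  have wP : k / 2 ≤ w := by
    by_contra hh
    exact hn (a.al h w1 (by omega))
  by_cases pw : w.Prime
  · rcases primeD h hk hs a w pw wP w2 with d | d | d | d
    · exact (hn (h.al_of (j := w - s) (by omega) (by omega) (by rw [d])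
        (by rw [show w - s + s = w by omega]))).elim
    · exact ⟨w, w + 2, Or.inl rfl, by omega, by omega, by omega, by omega, d.1, d.2.1,
        Or.inr (Or.inl ⟨rfl, pw, d.2.2.1, wP, d.2.2.2.2⟩)⟩
    · exact ⟨w - 2, w, Or.inr rfl, by omega, by omega, by omega, by omega, d.2.1, d.1,
        Or.inr (Or.inl ⟨by omega, d.2.2.1, pw, d.2.2.2.1, d.2.2.2.2⟩)⟩
    · obtain ⟨rfl, rfl, d1, d2⟩ := d
      exact ⟨1, w, Or.inr rfl, by omega, by omega, by omega, by omega, d1, d2,
        Or.inl ⟨w, 1, pw, le_rfl, by simp, by simp, by simp, by simp⟩⟩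
  by_cases c2 : w = 2 * (k / 2) ∧ ¬ Al k σ s (k / 2)
  · obtain ⟨c1, -, c3, c4, c5, c6, -⟩ := nonalP h hk hs a c2.2
    exact ⟨2, 2 * (k / 2), Or.inr c2.1, by omega, by omega, by omega, by omega, c4, c6,
      Or.inr (Or.inr ⟨rfl, rfl, c2.2⟩)⟩
  have wP2 : k / 2 < w := by
    by_contra hh
    obtain rfl : w = k / 2 := by omega
    exact pw (nonalP h hk hs a hn).1
  have dv : ∀ d, 1 ≤ d → d < w → d ∣ w → Al k σ s d := by
    rintro d d1 d2 ⟨z, hz⟩
    have z2 : 2 ≤ z := by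
      by_contra hh
      interval_cases z <;> omega
    have : d * 2 ≤ d * z := Nat.mul_le_mul_left _ z2
    by_cases c : 2 * d + 2 ≤ k
    · exact a.al h d1 c
    obtain rfl : d = k / 2 := by omega
    by_contra hh
    have z3 : z < 3 := by
      by_contra h3
      have : k / 2 * 3 ≤ k / 2 * z := Nat.mul_le_mul_left _ (by omega)
      omega
    obtain rfl : z = 2 := by omega
    exact c2 ⟨by omega, hh⟩
  obtain ⟨p, u, hp, e, hu, cop⟩ := ppow_of_not_al h (by omega) hn dv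
  have p2 := hp.two_le
  have hu : p ∣ u := hu.resolve_left (by rintro rfl; rw [one_mul] at e; exact pw (e ▸ hp))
  have u0 : 0 < u := by
    rcases Nat.eq_zero_or_pos u with q | q
    · rw [q] at e; omega
    · exact q
  have pu : p ≤ u := Nat.le_of_dvd u0 hu
  have u5 : 5 ≤ u := by
    by_contra hh
    have : u * p ≤ 4 * 4 := Nat.mul_le_mul (by omega) (by omega)
    omega
  have u2 : u * 2 ≤ u * p := Nat.mul_le_mul_left _ p2
  have au := dv u u0 (by omega) (by rw [e]; exact Dvd.intro _ rfl)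
  have quo : ∀ i, 1 ≤ i → i ≤ k → u ∣ σ i → σ i ∣ w → ∃ z, i + s = u * z ∧ (z = 1 ∨ p ∣ z) := by
    intro i i1 i2 hd hw
    obtain ⟨z, hz⟩ := (au i i1 i2).1 hd
    refine ⟨z, hz, ?_⟩
    have : 5 * z ≤ u * z := Nat.mul_le_mul_right _ u5
    have z0 : 1 ≤ z := by
      rcases Nat.eq_zero_or_pos z with q | q
      · rw [q] at hz; omega
      · exact q
    have := ((a.al h z0 (by omega) i i1 i2).2 (by rw [hz]; exact Dvd.intro_left _ rfl)).trans hw
    by_cases pz : p ∣ z
    · exact Or.inr pz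
    · exact Or.inl (Nat.Coprime.eq_one_of_dvd (cop z pz) this)
  obtain ⟨i, i1, i2, ei⟩ := h.surj w1 w2
  obtain ⟨z, hz, c | c⟩ := quo i i1 i2 (by rw [ei, e]; exact Dvd.intro _ rfl) (by rw [ei])
  swap
  · exact (hn (h.al_of i1 i2 (by rw [ei]) (by rw [hz, e]; exact Nat.mul_dvd_mul_left _ c))).elim
  rw [c, mul_one] at hz
  have l := lev1 h (q := w) (by omega) i1 i2 ei
  obtain ⟨j, j1, j2, ej⟩ := h.surj u0 (show u ≤ k by omega)
  obtain ⟨z', hz', c' | ⟨t, rfl⟩⟩ := quo j j1 j2 (by rw [ej]) (by rw [ej, e]; exact Dvd.intro _ rfl)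
  · rw [c', mul_one] at hz'
    rw [show j = i by omega] at ej
    omega
  rw [← mul_assoc, ← e] at hz'
  have t1 : t = 1 := by
    have : t ≠ 0 := by rintro rfl; omega
    by_contra hh
    have : w * 2 ≤ w * t := Nat.mul_le_mul_left _ (by omega)
    omega
  rw [t1, mul_one] at hz'
  refine ⟨u, w, Or.inr rfl, by omega, by omega, by omega, by omega,
    by rw [show u - s = i by omega, ei], by rw [show w - s = j by omega, ej], Or.inl ?_⟩
  have hw := Nat.eq_prime_pow_of_unique_prime_dvd (n := w) (p := p) (by omega) (fun {d} hd hdw => by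
    by_contra hne
    have := cop d (fun q => hne ((Nat.prime_dvd_prime_iff_eq hp hd).1 q).symm)
    exact hd.ne_one (Nat.Coprime.eq_one_of_dvd this hdw))
  generalize w.primeFactorsList.length = c at hw
  have c1 : 1 ≤ c := by
    rcases Nat.eq_zero_or_pos c with q | q
    · rw [q, pow_zero] at hw; omega
    · exact q
  have hu2 : u = p ^ (c - 1) := by
    apply Nat.eq_of_mul_eq_mul_right hp.pos
    rw [← e, ← pow_succ, show c - 1 + 1 = c by omega, hw]
  exact ⟨p, c, hp, c1, hu2, hw, by omega, by omega⟩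

theorem claimF (h : IsWCS k σ) (hk : 40 ≤ k) (hs : s ≤ 2) (a : AlS k σ s) {w : ℕ}
    (w1 : s + 1 ≤ w) (w2 : w ≤ k) : σ (w - s) = w ∨ ∃ x y, (w = x ∨ w = y) ∧ s + 1 ≤ x ∧
      x ≤ k ∧ s + 1 ≤ y ∧ y ≤ k ∧ σ (x - s) = y ∧ σ (y - s) = x ∧ Typed k σ s x y := by
  by_cases al : Al k σ s w
  swap
  · exact Or.inr (nonal_pair h hk hs a (by omega) w2 al)
  have ws : w - s + s = w := by omega
  have d1 := (al (w - s) (by omega) (by omega)).2 (by rw [ws])
  have hm := h.mem (i := w - s) (by omega) (by omega)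
  by_cases al2 : Al k σ s (σ (w - s))
  · have d2 := (al2 (w - s) (by omega) (by omega)).1 dvd_rfl
    rw [ws] at d2
    exact Or.inl (Nat.dvd_antisymm d2 d1)
  obtain ⟨x, y, c, x1, x2, y1, y2, e1, e2, ty⟩ := nonal_pair h hk hs a hm.1 hm.2 al2
  refine Or.inr ⟨x, y, ?_, x1, x2, y1, y2, e1, e2, ty⟩
  rcases c with c | c
  · have := h.inj (i := w - s) (j := y - s) (by omega) (by omega) (by omega) (by omega) (by omega)
    omega
  · have := h.inj (i := w - s) (j := x - s) (by omega) (by omega) (by omega) (by omega) (by omega)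
    omega

end Pool.Agent.H13.Wcs
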