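import Pool.Agent.H13.WcsG

namespace Pool.Agent.H13.Wcs

variable {k : ℕ} {σ : ℕ → ℕ} {s : ℕ}

theorem der_of_F (h : IsWCS k σ) (hk : 40 ≤ k) (hs : s ≤ 2) (a : AlS k σ s) {t : Start}
    (ha : Avail k t) (B : ℕ → Prop)
    (b1 : ∀ i, 1 ≤ i → i ≤ k → (k < i + s ∨ B (i + s)) → σ i = start k t i)
    (b2 : ∀ j x, 1 ≤ j → j ≤ k → s + 1 ≤ x → ¬ B x → start k t j = x → j + s = x)
    (b3 : ∀ i, 1 ≤ i → i + s ≤ k → ¬ B (i + s) → start k t i = i + s)
    (b4 : ∀ y, B y → B (σ (y - s)))
    (b5 : ∀ x y, y ≤ k → Typed k σ s x y → ¬ B x → ¬ B y → Valid k t x y) :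
    ∃ l τ, Der k t l τ ∧ ∀ i, 1 ≤ i → i ≤ k → τ i = σ i := by
  apply der_of_nf ha
  intro i i1 i2
  by_cases c : k < i + s ∨ B (i + s)
  · exact Or.inl (b1 i i1 i2 c)
  rw [not_or] at c
  have st := b3 i i1 (by omega) c.2
  rcases claimF h hk hs a (w := i + s) (by omega) (by omega) with d |
    ⟨x, y, e, x1, x2, y1, y2, e1, e2, ty⟩
  · left; rw [st, ← d, Nat.add_sub_cancel]
  have nx : ¬ B x := by
    rcases e with e | e
    · rw [← e]; exact c.2
    · intro q; have := b4 x q; rw [e1, ← e] at this; exact c.2 this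
  have ny : ¬ B y := by
    rcases e with e | e
    · intro q; have := b4 y q; rw [e2, ← e] at this; exact c.2 this
    · rw [← e]; exact c.2
  refine Or.inr ⟨x, y, b5 x y y2 ty nx ny, by omega, fun j j1 j2 => ⟨fun q => ?_, fun q => ?_⟩⟩
  · rw [show j = x - s by have := b2 j x j1 j2 x1 nx q; omega, e1]
  · rw [show j = y - s by have := b2 j y j1 j2 y1 ny q; omega, e2]

theorem der_big (h : IsWCS k σ) (hk : 40 ≤ k) (hs : s ≤ 2) (a : AlS k σ s) :
    ∃ t l τ, Der k t l τ ∧ ∀ i, 1 ≤ i → i ≤ k → τ i = σ i := by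
  by_cases al : Al k σ s (k / 2)
  · rcases (show s = 0 ∨ s = 1 ∨ s = 2 by omega) with rfl | rfl | rfl
    · refine ⟨.consec, der_of_F h hk hs a trivial (fun _ => False) ?_ ?_ ?_ ?_ ?_⟩
      · rintro i _ _ (c | c)
        · omega
        · exact c.elim
      · intro j x _ _ _ _ e; exact e
      · intro i _ _ _; rfl
      · intro y c; exact c
      · rintro x y yk (c | c | c) _ _
        · exact Or.inr c
        · have := c.2.2.2.2; tauto
        · tauto
    · have l1 := last_one h hk le_rfl hs a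
      refine ⟨.inv, der_of_F h hk hs a (shift1 h hk a) (fun _ => False) ?_ ?_ ?_ ?_ ?_⟩
      · intro i _ _ c
        obtain rfl : i = k := by have := c.resolve_right id; omega
        simp [start, l1]
      · intro j x _ _ _ _ e; simp only [start] at e; split_ifs at e <;> omega
      · intro i _ _ _; simp only [start]; split_ifs <;> omega
      · intro y c; exact c
      · rintro x y yk (c | c | c) _ _
        · exact Or.inr c
        · have := c.2.2.2.2; tauto
        · tauto
    · have l1 := last_one h hk (by omega) hs a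
      obtain ⟨R, r1, r2, r3, r4, r5, r6⟩ := shift2 h hk a
      have oR := odd_of_prime (by omega) r2
      have r7 : σ (R - 2) = R + 2 := by
        rcases primeD h hk hs a R r2 (by omega) (by omega) with d | d | d | d
        · have := h.inj (i := R - 2) (j := R) (by omega) (by omega) (by omega) (by omega)
            (by omega)
          omega
        · exact d.1
        · omega
        · omega
      refine ⟨.sophie, der_of_F h hk hs a ⟨R, r1, r2, r3, r4⟩ (fun y => y = R ∨ y = R + 2)
        ?_ ?_ ?_ ?_ ?_⟩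
      · intro i _ _ c
        simp only [start, sw, show (k + 1) / 2 = R by omega]
        have : i = k ∨ i = k - 1 ∨ i = R - 2 ∨ i = R := by omega
        rcases this with rfl | rfl | rfl | rfl <;> split_ifs <;> omega
      · intro j x _ _ _ _ e
        simp only [start, sw, show (k + 1) / 2 = R by omega] at e
        split_ifs at e <;> omega
      · intro i _ _ _
        simp only [start, sw, show (k + 1) / 2 = R by omega]
        split_ifs <;> omega
      · rintro y (rfl | rfl)
        · exact Or.inr r7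
        · exact Or.inl r6
      · rintro x y yk (c | c | c) nx ny
        · exact Or.inr c
        · have := odd_of_prime (by omega) c.2.1
          exact Or.inl ⟨rfl, c.1, c.2.1, c.2.2.1, yk, by omega⟩
        · tauto
  · obtain ⟨c1, c2, c3, c4, c5, c6, c7⟩ := nonalP h hk hs a al
    have c8 : σ (k / 2 - s) = k / 2 + 2 := by
      rcases primeD h hk hs a _ c1 le_rfl (by omega) with d | d | d | d
      · have := h.inj (i := k / 2 - s) (j := k / 2 + 2 - s) (by omega) (by omega) (by omega)
          (by omega) (by omega)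
        omega
      · exact d.1
      · omega
      · omega
    have b4 : ∀ y, (y = 2 ∨ y = 2 * (k / 2) ∨ y = k / 2 ∨ y = k / 2 + 2) →
        (σ (y - s) = 2 ∨ σ (y - s) = 2 * (k / 2) ∨ σ (y - s) = k / 2 ∨ σ (y - s) = k / 2 + 2) := by
      rintro y (rfl | rfl | rfl | rfl) <;> omega
    have b5 : ∀ t x y, y ≤ k → Typed k σ s x y →
        ¬ (x = 2 ∨ x = 2 * (k / 2) ∨ x = k / 2 ∨ x = k / 2 + 2) →
        ¬ (y = 2 ∨ y = 2 * (k / 2) ∨ y = k / 2 ∨ y = k / 2 + 2) → Valid k t x y := by
      rintro t x y yk (c | c | c) nx ny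
      · exact Or.inr c
      · have := c.2.2.2.2.imp_right And.left; omega
      · have := c.1; omega
    rcases (show s = 0 ∨ s = 1 by omega) with rfl | rfl
    · refine ⟨.twin, der_of_F h hk hs a ⟨k / 2, by omega, c1, c2⟩ _ ?_ ?_ ?_ b4 (b5 _)⟩
      · intro i _ _ c
        simp only [start, sw]
        simp only [Nat.sub_zero, add_zero] at *
        have : i = 2 ∨ i = 2 * (k / 2) ∨ i = k / 2 ∨ i = k / 2 + 2 := by omega
        rcases this with rfl | rfl | rfl | rfl <;> split_ifs <;> omega
      · intro j x _ _ _ _ e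
        simp only [start, sw] at e
        split_ifs at e <;> omega
      · intro i _ _ _
        simp only [start, sw]
        split_ifs <;> omega
    · have l1 := last_one h hk le_rfl hs a
      refine ⟨.extra, der_of_F h hk hs a ⟨k / 2, by omega, c1, c2, by
        rw [show 2 * (k / 2) + 1 = k + 1 by omega]; exact shift1 h hk a⟩ _ ?_ ?_ ?_ b4 (b5 _)⟩
      · intro i _ _ c
        simp only [start, sw]
        have : i = k ∨ i = 2 - 1 ∨ i = 2 * (k / 2) - 1 ∨ i = k / 2 - 1 ∨ i = k / 2 + 2 - 1 := by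
          omega
        rcases this with rfl | rfl | rfl | rfl | rfl <;> split_ifs <;> omega
      · intro j x _ _ _ _ e
        simp only [start, sw] at e
        split_ifs at e <;> omega
      · intro i _ _ _
        simp only [start, sw]
        split_ifs <;> omega

/-! small lengths -/

def isP (n : ℕ) : Bool := 2 ≤ n && (List.range n).all (fun d => d < 2 || n % d != 0)

theorem isP_ok {n : ℕ} (h : isP n = true) : n.Prime := by
  simp only [isP, Bool.and_eq_true, decide_eq_true_eq, List.all_eq_true, List.mem_range,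
    Bool.or_eq_true, bne_iff_ne] at h
  rw [Nat.prime_def_lt']
  refine ⟨h.1, fun m a b c => ?_⟩
  rcases h.2 m b with q | q
  · omega
  · exact q (Nat.mod_eq_zero_of_dvd c)

def availB (k : ℕ) : Start → Bool
  | .consec => true
  | .inv => isP (k + 1)
  | .twin => isP (k / 2) && isP (k / 2 + 2)
  | .sophie => k % 2 == 1 && isP ((k + 1) / 2) && isP ((k + 1) / 2 + 2) && isP (k + 2)
  | .extra => k % 2 == 0 && isP (k / 2) && isP (k / 2 + 2) && isP (k + 1)

theorem availB_ok {t : Start} (h : availB k t = true) : Avail k t := by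
  cases t with
  | consec => trivial
  | inv => exact isP_ok h
  | twin =>
    simp only [availB, Bool.and_eq_true] at h
    exact ⟨k / 2, by omega, isP_ok h.1, isP_ok h.2⟩
  | sophie =>
    simp only [availB, Bool.and_eq_true, beq_iff_eq] at h
    exact ⟨(k + 1) / 2, by omega, isP_ok h.1.1.2, isP_ok h.1.2, by
      rw [show 2 * ((k + 1) / 2) + 1 = k + 2 by omega]; exact isP_ok h.2⟩
  | extra =>
    simp only [availB, Bool.and_eq_true, beq_iff_eq] at h
    exact ⟨k / 2, by omega, isP_ok h.1.1.2, isP_ok h.1.2, by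
      rw [show 2 * (k / 2) + 1 = k + 1 by omega]; exact isP_ok h.2⟩

def pairsB (k : ℕ) (t : Start) : List Move :=
  ((List.range (k + 1)).filter (fun a => t = .sophie && isP a && isP (a + 2) && a + 2 ≤ k &&
    (k + 1) / 2 < a)).map (fun a => Move.swap a (a + 2)) ++
  ((List.range (k + 1)).filter isP).flatMap (fun p => ((List.range 6).filter
    (fun c => p ^ (c + 1) ≤ k && k < p ^ (c + 1) + p ^ c)).map
      (fun c => Move.swap (p ^ c) (p ^ (c + 1))))

theorem pairsB_ok {t : Start} {m : Move} (h : m ∈ pairsB k t) :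
    ∃ a b, m = .swap a b ∧ Valid k t a b := by
  simp only [pairsB, List.mem_append, List.mem_map, List.mem_filter, List.mem_flatMap,
    Bool.and_eq_true, decide_eq_true_eq] at h
  rcases h with ⟨a, ⟨-, h⟩, rfl⟩ | ⟨p, ⟨-, hp⟩, c, ⟨-, h⟩, rfl⟩
  · exact ⟨_, _, rfl, Or.inl ⟨h.1.1.1.1, rfl, isP_ok h.1.1.1.2, isP_ok h.1.1.2, h.1.2, h.2⟩⟩
  · exact ⟨_, _, rfl, Or.inr ⟨p, c + 1, isP_ok hp, by omega, by simp, rfl, h.1, by simpa using h.2⟩⟩

def gen (k : ℕ) : List (List ℕ) :=
  ([Start.consec, .inv, .twin, .sophie, .extra].filter (availB k)).flatMap (fun t =>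
    ((pairsB k t).sublists.filter (fun l => l.Nodup)).map (fun l =>
      (List.range' 1 k).map (fun i => val l (start k t i))))

def chk2 (g : List (List ℕ)) (l : List ℕ) : Bool := g.elem l || g.elem l.reverse

theorem bg0 : (List.range' 1 12).all (fun k => (allW k).all (chk2 (gen k))) = true := by
  decide +kernel

theorem bg1 : (List.range' 13 6).all (fun k => (allW k).all (chk2 (gen k))) = true := by
  decide +kernel

theorem bg2 : (List.range' 19 4).all (fun k => (allW k).all (chk2 (gen k))) = true := by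
  decide +kernel

theorem bg3 : (List.range' 23 4).all (fun k => (allW k).all (chk2 (gen k))) = true := by
  decide +kernel

theorem bg4 : (List.range' 27 3).all (fun k => (allW k).all (chk2 (gen k))) = true := by
  decide +kernel

theorem bg5 : (List.range' 30 2).all (fun k => (allW k).all (chk2 (gen k))) = true := by
  decide +kernel

theorem bg6 : (List.range' 32 2).all (fun k => (allW k).all (chk2 (gen k))) = true := by
  decide +kernel

theorem bg7 : (List.range' 34 2).all (fun k => (allW k).all (chk2 (gen k))) = true := by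
  decide +kernel

theorem bg8 : (List.range' 36 1).all (fun k => (allW k).all (chk2 (gen k))) = true := by
  decide +kernel

theorem bg9 : (List.range' 37 1).all (fun k => (allW k).all (chk2 (gen k))) = true := by
  decide +kernel

theorem bg10 : (List.range' 38 1).all (fun k => (allW k).all (chk2 (gen k))) = true := by
  decide +kernel

theorem bg11 : (List.range' 39 1).all (fun k => (allW k).all (chk2 (gen k))) = true := by
  decide +kernel

theorem base_gen (k : ℕ) (h1 : 1 ≤ k) (h2 : k < 40) : (allW k).all (chk2 (gen k)) = true := by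
  have : (1 ≤ k ∧ k < 1 + 12) ∨ (13 ≤ k ∧ k < 13 + 6) ∨ (19 ≤ k ∧ k < 19 + 4) ∨ (23 ≤ k ∧ k < 23 + 4) ∨ (27 ≤ k ∧ k < 27 + 3) ∨ (30 ≤ k ∧ k < 30 + 2) ∨ (32 ≤ k ∧ k < 32 + 2) ∨ (34 ≤ k ∧ k < 34 + 2) ∨ (36 ≤ k ∧ k < 36 + 1) ∨ (37 ≤ k ∧ k < 37 + 1) ∨ (38 ≤ k ∧ k < 38 + 1) ∨ (39 ≤ k ∧ k < 39 + 1) := by omega
  rcases this with c | c | c | c | c | c | c | c | c | c | c | c
  · exact List.all_eq_true.1 bg0 k (List.mem_range'_1.2 c)
  · exact List.all_eq_true.1 bg1 k (List.mem_range'_1.2 c)
  · exact List.all_eq_true.1 bg2 k (List.mem_range'_1.2 c)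
  · exact List.all_eq_true.1 bg3 k (List.mem_range'_1.2 c)
  · exact List.all_eq_true.1 bg4 k (List.mem_range'_1.2 c)
  · exact List.all_eq_true.1 bg5 k (List.mem_range'_1.2 c)
  · exact List.all_eq_true.1 bg6 k (List.mem_range'_1.2 c)
  · exact List.all_eq_true.1 bg7 k (List.mem_range'_1.2 c)
  · exact List.all_eq_true.1 bg8 k (List.mem_range'_1.2 c)
  · exact List.all_eq_true.1 bg9 k (List.mem_range'_1.2 c)
  · exact List.all_eq_true.1 bg10 k (List.mem_range'_1.2 c)
  · exact List.all_eq_true.1 bg11 k (List.mem_range'_1.2 c)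

theorem gen_ok (h : (List.range' 1 k).map σ ∈ gen k) :
    ∃ t l τ, Der k t l τ ∧ ∀ i, 1 ≤ i → i ≤ k → τ i = σ i := by
  simp only [gen, List.mem_flatMap, List.mem_filter, List.mem_map, List.mem_sublists,
    decide_eq_true_eq] at h
  obtain ⟨t, ⟨-, ht⟩, l, ⟨sub, nd⟩, e⟩ := h
  refine ⟨t, l, _, der_of_list (availB_ok ht) l nd (fun q => ?_) (fun a b q => ?_),
    fun i i1 i2 => ?_⟩
  · obtain ⟨a, b, e, -⟩ := pairsB_ok (sub.subset q); cases e
  · obtain ⟨a', b', e, v⟩ := pairsB_ok (sub.subset q); cases e; exact v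
  · rw [← getD_map (k := k) σ i1 i2, ← e, getD_map _ i1 i2]

theorem der_rev (h : ∃ t l τ, Der k t l τ ∧ ∀ i, 1 ≤ i → i ≤ k → τ i = rev k σ i) :
    ∃ t l τ, Der k t l τ ∧ ∀ i, 1 ≤ i → i ≤ k → τ i = σ i := by
  obtain ⟨t, l, τ, d, e⟩ := h
  refine ⟨t, _, _, Der.cons (m := .rev) d trivial, fun i i1 i2 => ?_⟩
  simp only [Move.act]
  rw [e _ (by omega) (by omega), rev, show k + 1 - (k + 1 - i) = i by omega]

theorem der_exists (h : IsWCS k σ) (h1 : 1 ≤ k) :
    ∃ t l τ, Der k t l τ ∧ ∀ i, 1 ≤ i → i ≤ k → τ i = σ i := by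
  rcases Nat.lt_or_ge k 40 with hk | hk
  · have := List.all_eq_true.1 (base_gen k h1 hk) _ (allW_ok h)
    simp only [chk2, Bool.or_eq_true, map_rev, List.elem_eq_mem, decide_eq_true_eq] at this
    rcases this with c | c
    · exact gen_ok c
    · exact der_rev (gen_ok c)
  obtain ⟨s, hs, a | a⟩ := aligned k σ h h1
  · exact der_big h hk hs a
  · exact der_rev (der_big h.rev hk hs a)

end Pool.Agent.H13.Wcs
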