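import Mathlib

namespace Pool.Agent.H13.Wcs

open Finset

noncomputable def gg (p : ℕ) : ℝ := 1 / (p * Real.log p)

noncomputable def dd (p : ℕ) : ℝ := Real.log (1 + 1 / p) / Real.log p

theorem gg_nonneg (p : ℕ) : 0 ≤ gg p :=
  div_nonneg zero_le_one (mul_nonneg (Nat.cast_nonneg _) (Real.log_natCast_nonneg _))

theorem dd_nonneg (p : ℕ) : 0 ≤ dd p :=
  div_nonneg (Real.log_nonneg (by have : (0:ℝ) ≤ 1 / p := by positivity
                                  linarith)) (Real.log_natCast_nonneg _)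

theorem dd_le_gg (p : ℕ) : dd p ≤ gg p := by
  unfold dd gg
  rw [← div_div]
  apply div_le_div_of_nonneg_right _ (Real.log_natCast_nonneg _)
  have := Real.log_le_sub_one_of_pos (x := 1 + 1 / (p : ℝ)) (by positivity)
  linarith

theorem dyadic (i : ℕ) (hi : 1 ≤ i) :
    ∑ p ∈ (Ioc (2 ^ i) (2 ^ (i + 1))).filter Nat.Prime, gg p ≤ 2 / (Real.log 2 * i ^ 2) := by
  set S := (Ioc (2 ^ i) (2 ^ (i + 1))).filter Nat.Prime with hS
  have l2 : 0 < Real.log 2 := Real.log_pos (by norm_num)
  have i0 : (0 : ℝ) < i := by exact_mod_cast hi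
  have hd : ∏ p ∈ S, p ∣ Nat.centralBinom (2 ^ i) := by
    apply Finset.prod_primes_dvd
    · intro p hp; exact (mem_filter.1 hp).2.prime
    · intro p hp
      obtain ⟨h1, h2⟩ := mem_filter.1 hp
      rw [mem_Ioc, pow_succ] at h1
      rw [Nat.centralBinom_eq_two_mul_choose, two_mul]
      exact h2.dvd_choose_add h1.1 h1.1 (by omega)
  have hle : ∏ p ∈ S, p ≤ 4 ^ (2 ^ i) :=
    (Nat.le_of_dvd (Nat.centralBinom_pos _) hd).trans (Nat.centralBinom_le_four_pow _)
  have hlog : ∑ p ∈ S, Real.log p ≤ 2 ^ i * (2 * Real.log 2) := by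
    rw [← Real.log_prod (fun p hp => by exact_mod_cast (mem_filter.1 hp).2.ne_zero)]
    have h4 : Real.log 4 = 2 * Real.log 2 := by
      rw [show (4 : ℝ) = 2 ^ 2 by norm_num, Real.log_pow]; norm_num
    calc Real.log (∏ p ∈ S, (p : ℝ)) ≤ Real.log (4 ^ (2 ^ i)) := by
          apply Real.log_le_log
          · exact prod_pos (fun p hp => by exact_mod_cast (mem_filter.1 hp).2.pos)
          · rw [← Nat.cast_prod]; exact_mod_cast hle
      _ = _ := by rw [Real.log_pow, h4]; push_cast; ring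
  calc ∑ p ∈ S, gg p ≤ ∑ p ∈ S, Real.log p / (2 ^ i * (i * Real.log 2) ^ 2) := by
        apply sum_le_sum
        intro p hp
        obtain ⟨h1, h2⟩ := mem_filter.1 hp
        rw [mem_Ioc] at h1
        have a : (2 : ℝ) ^ i ≤ p := by exact_mod_cast h1.1.le
        have b : i * Real.log 2 ≤ Real.log p := by
          rw [← Real.log_pow]; exact Real.log_le_log (by positivity) a
        have c : 0 < i * Real.log 2 := by positivity
        unfold gg
        rw [div_le_div_iff₀ (by have : (0:ℝ) < p := lt_of_lt_of_le (by positivity) a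
                                nlinarith) (by positivity), one_mul]
        calc (2:ℝ) ^ i * (i * Real.log 2) ^ 2 ≤ p * (Real.log p) ^ 2 := by gcongr
          _ = _ := by ring
    _ = (∑ p ∈ S, Real.log p) / (2 ^ i * (i * Real.log 2) ^ 2) := by rw [sum_div]
    _ ≤ 2 ^ i * (2 * Real.log 2) / (2 ^ i * (i * Real.log 2) ^ 2) := by gcongr
    _ = _ := by field_simp

theorem tail_aux (I : ℕ) (hI : 1 ≤ I) (N : ℕ) :
    ∑ p ∈ (Ioc (2 ^ I) (2 ^ (I + N))).filter Nat.Prime, gg p ≤
      2 / Real.log 2 * (1 / (I - 1 / 2) - 1 / (I + N - 1 / 2)) := by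
  have l2 : 0 < Real.log 2 := Real.log_pos (by norm_num)
  induction N with
  | zero => simp
  | succ N ih =>
    have e : Ioc (2 ^ I) (2 ^ (I + (N + 1))) =
        Ioc (2 ^ I) (2 ^ (I + N)) ∪ Ioc (2 ^ (I + N)) (2 ^ (I + N + 1)) :=
      (Ioc_union_Ioc_eq_Ioc (Nat.pow_le_pow_right (by omega) (by omega))
        (Nat.pow_le_pow_right (by omega) (by omega))).symm
    rw [e, filter_union, sum_union (disjoint_filter_filter (by
      rw [disjoint_left]; intro x a b; rw [mem_Ioc] at a b; omega))]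
    have d := dyadic (I + N) (by omega)
    have x1 : (1 : ℝ) ≤ I + N := by exact_mod_cast (show 1 ≤ I + N by omega)
    push_cast at d ⊢
    have k : 2 / (Real.log 2 * ((I : ℝ) + N) ^ 2) ≤
        2 / Real.log 2 * (1 / (I + N - 1 / 2) - 1 / (I + (N + 1) - 1 / 2)) := by
      rw [← div_div, div_eq_mul_one_div (2 / Real.log 2)]
      apply mul_le_mul_of_nonneg_left _ (by positivity)
      rw [show (I : ℝ) + (N + 1) - 1 / 2 = (I + N) + 1 / 2 by ring]
      generalize (I : ℝ) + N = x at *
      have h1 : 0 < x - 1 / 2 := by linarith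
      rw [div_sub_div _ _ h1.ne' (by linarith), div_le_div_iff₀ (by positivity) (by positivity)]
      nlinarith
    linarith

theorem tail (I : ℕ) (hI : 1 ≤ I) (X : ℕ) :
    ∑ p ∈ (Ioc (2 ^ I) X).filter Nat.Prime, gg p ≤ 2 / Real.log 2 * (1 / (I - 1 / 2)) := by
  have l2 : 0 < Real.log 2 := Real.log_pos (by norm_num)
  have h := tail_aux I hI X
  have x1 : (1 : ℝ) ≤ I + X := by exact_mod_cast (show 1 ≤ I + X by omega)
  have : 0 ≤ 2 / Real.log 2 * (1 / ((I : ℝ) + X - 1 / 2)) :=
    mul_nonneg (by positivity) (div_nonneg zero_le_one (by linarith))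
  refine le_trans (sum_le_sum_of_subset_of_nonneg (filter_subset_filter _
    (Ioc_subset_Ioc_right ?_)) (fun p _ _ => gg_nonneg p)) (h.trans (by linarith))
  exact (Nat.lt_two_pow_self.le).trans (Nat.pow_le_pow_right (by omega) (by omega))

def cand (n : ℕ) : Bool := 11 ≤ n && [2, 3, 5, 7, 11, 13, 17, 19, 23, 29, 31, 37, 41, 43, 47, 53,
  59, 61, 67, 71, 73, 79, 83, 89].all (fun d => n % d != 0 || n == d)

def ww (n : ℕ) : ℕ := if cand n then 64000000000 / (n * Nat.log2 (n ^ 64)) + 1 else 0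

def sumr : ℕ → ℕ → ℕ
  | 0, a => ww a
  | d + 1, a => sumr d a + sumr d (a + 2 ^ d)

theorem sumr_eq (d : ℕ) : ∀ a, sumr d a = ∑ i ∈ range (2 ^ d), ww (a + i) := by
  induction d with
  | zero => intro a; simp [sumr]
  | succ d ih =>
    intro a
    rw [sumr, ih, ih, pow_succ, mul_two, sum_range_add]
    simp only [add_assoc]

theorem sumr_le : sumr 13 1 ≤ 210600000 := by decide +kernel

theorem gg_le_ww {p : ℕ} (hp : p.Prime) (h : 11 ≤ p) :
    gg p ≤ ww p / (1000000000 * Real.log 2) := by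
  have l2 : 0 < Real.log 2 := Real.log_pos (by norm_num)
  have c : cand p = true := by
    simp only [cand, Bool.and_eq_true, decide_eq_true_eq, List.all_eq_true, Bool.or_eq_true,
      bne_iff_ne, beq_iff_eq]
    refine ⟨h, fun d hd => ?_⟩
    by_cases e : p % d = 0
    · right
      rcases (Nat.dvd_prime hp).1 (Nat.dvd_of_mod_eq_zero e) with q | q
      · subst q; simp at hd
      · exact q.symm
    · exact Or.inl e
  set L := Nat.log2 (p ^ 64) with hL
  have h1 : 2 ^ L ≤ p ^ 64 := Nat.log2_self_le (pow_ne_zero _ hp.ne_zero)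
  have h2 : 1 ≤ L := by
    rw [hL, Nat.le_log2 (pow_ne_zero _ hp.ne_zero)]
    exact le_trans (by omega : 2 ^ 1 ≤ p) (Nat.le_self_pow (by omega) p)
  have h3 : L * Real.log 2 ≤ 64 * Real.log p := by
    have : Real.log ((2 : ℝ) ^ L) ≤ Real.log ((p : ℝ) ^ 64) :=
      Real.log_le_log (by positivity) (by exact_mod_cast h1)
    simpa [Real.log_pow] using this
  have h4 : 64000000000 < (64000000000 / (p * L) + 1) * (p * L) := by
    have := Nat.div_add_mod 64000000000 (p * L)
    have := Nat.mod_lt 64000000000 (show 0 < p * L by positivity)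
    nlinarith
  have h5 : (64000000000 : ℝ) < ((64000000000 / (p * L) + 1 : ℕ) : ℝ) * (p * L) := by
    exact_mod_cast h4
  simp only [ww, c, if_true, gg, ← hL]
  generalize ((64000000000 / (p * L) + 1 : ℕ) : ℝ) = w at *
  have p0 : (0 : ℝ) < p := by exact_mod_cast hp.pos
  have L0 : (0 : ℝ) < L := by exact_mod_cast h2
  have lp : 0 < Real.log p := by nlinarith
  have w0 : 0 < w := by
    by_contra hh
    have : w * (p * L) ≤ 0 := mul_nonpos_of_nonpos_of_nonneg (by linarith) (by positivity)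
    linarith
  rw [div_le_div_iff₀ (by positivity) (by positivity)]
  have h6 : w * p * (L * Real.log 2) ≤ w * p * (64 * Real.log p) := by gcongr
  nlinarith

theorem dd_le {p a b : ℕ} (hp : 2 ≤ p) (hb : 0 < b) (h : (p + 1) ^ b ≤ p ^ (a + b)) :
    dd p ≤ a / b := by
  have p1 : (1 : ℝ) < p := by exact_mod_cast hp
  have lp : 0 < Real.log p := Real.log_pos p1
  have b0 : (0 : ℝ) < b := by exact_mod_cast hb
  have h1 : Real.log (((p : ℝ) + 1) ^ b) ≤ Real.log ((p : ℝ) ^ (a + b)) :=
    Real.log_le_log (by positivity) (by exact_mod_cast h)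
  rw [Real.log_pow, Real.log_pow] at h1
  unfold dd
  rw [show 1 + 1 / (p : ℝ) = (p + 1) / p by field_simp, Real.log_div (by positivity) (by positivity),
    div_le_div_iff₀ lp b0]
  push_cast at h1
  nlinarith

theorem head (Y : ℕ) : ∑ p ∈ (Ioc 2 Y).filter Nat.Prime, dd p ≤ 0.99 := by
  have l2 := Real.log_two_gt_d9
  have sub : (Ioc 2 Y).filter Nat.Prime ⊆ ({3, 5, 7} ∪ (Ioc 10 (2 ^ 13)).filter Nat.Prime) ∪
      (Ioc (2 ^ 13) Y).filter Nat.Prime := by
    intro p hp
    simp only [mem_filter, mem_Ioc, mem_union, mem_insert, mem_singleton] at hp ⊢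
    obtain ⟨⟨h1, h2⟩, h3⟩ := hp
    rcases Nat.lt_or_ge 10 p with c | c
    · rcases Nat.lt_or_ge (2 ^ 13) p with d | d
      · exact Or.inr ⟨⟨d, h2⟩, h3⟩
      · exact Or.inl (Or.inr ⟨⟨c, d⟩, h3⟩)
    · left; left
      interval_cases p <;> first | omega | (norm_num at h3)
  have un : ∀ A B : Finset ℕ, ∑ p ∈ A ∪ B, dd p ≤ ∑ p ∈ A, dd p + ∑ p ∈ B, dd p := by
    intro A B
    rw [← sum_union_inter]
    have := sum_nonneg (s := A ∩ B) (fun p _ => dd_nonneg p)
    linarith
  have a1 : ∑ p ∈ ({3, 5, 7} : Finset ℕ), dd p ≤ 11 / 42 + 17 / 150 + 7 / 102 := by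
    rw [sum_insert (by simp), sum_insert (by simp), sum_singleton]
    have := dd_le (p := 3) (a := 11) (b := 42) (by omega) (by omega) (by decide +kernel)
    have := dd_le (p := 5) (a := 17) (b := 150) (by omega) (by omega) (by decide +kernel)
    have := dd_le (p := 7) (a := 7) (b := 102) (by omega) (by omega) (by decide +kernel)
    push_cast at *
    linarith
  have a2 : ∑ p ∈ (Ioc 10 (2 ^ 13)).filter Nat.Prime, dd p ≤
      210600000 / (1000000000 * Real.log 2) := by
    calc _ ≤ ∑ p ∈ (Ioc 10 (2 ^ 13)).filter Nat.Prime,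
          (ww p : ℝ) / (1000000000 * Real.log 2) := by
          apply sum_le_sum
          intro p hp
          simp only [mem_filter, mem_Ioc] at hp
          exact (dd_le_gg p).trans (gg_le_ww hp.2 hp.1.1)
      _ ≤ ∑ p ∈ (range (2 ^ 13)).image (fun i => 1 + i),
          (ww p : ℝ) / (1000000000 * Real.log 2) := by
          apply sum_le_sum_of_subset_of_nonneg
          · intro p hp
            simp only [mem_filter, mem_Ioc, mem_image, mem_range] at hp ⊢
            exact ⟨p - 1, by omega, by omega⟩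
          · intro p _ _; positivity
      _ = (sumr 13 1 : ℝ) / (1000000000 * Real.log 2) := by
          rw [sum_image (fun a _ b _ e => by simpa using e), ← sum_div, sumr_eq, Nat.cast_sum]
      _ ≤ _ := by
          gcongr
          exact_mod_cast sumr_le
  have a3 : ∑ p ∈ (Ioc (2 ^ 13) Y).filter Nat.Prime, dd p ≤
      2 / Real.log 2 * (1 / (13 - 1 / 2)) := by
    have := tail 13 (by omega) Y
    push_cast at this
    exact (sum_le_sum (fun p _ => dd_le_gg p)).trans (by simpa using this)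
  have b1 : 210600000 / (1000000000 * Real.log 2) ≤ 0.304 := by
    rw [div_le_iff₀ (by positivity)]; linarith
  have b2 : 2 / Real.log 2 * (1 / (13 - 1 / 2)) ≤ 0.231 := by
    have : 2 / Real.log 2 ≤ 2.886 := by rw [div_le_iff₀ (by positivity)]; linarith
    linarith
  refine (sum_le_sum_of_subset_of_nonneg sub (fun p _ _ => dd_nonneg p)).trans ((un _ _).trans
    ((add_le_add ((un _ _).trans (add_le_add a1 (a2.trans b1))) (a3.trans b2)).trans ?_))
  norm_num

end Pool.Agent.H13.Wcs
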