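import Pool.Agent.H13.WcsI
import Pool.Agent.H53.DfC

namespace Pool.Agent.H13.Wcs

open Finset Filter MeasureTheory

open Classical in
theorem freq {θ : ℝ} (hθ : Irrational θ) (β r ε : ℝ) (hr : 0 ≤ r) (hε : 0 < ε) :
    ∀ᶠ J : ℕ in atTop, (((range J).filter (fun j : ℕ => ∃ c : ℤ, |β + j * θ - c| ≤ r)).card : ℝ)
      ≤ (2 * r + 3 * ε) * J := by
  let f : C(UnitAddCircle, ℝ) := ⟨fun y => min 1 (max 0 ((r + ε - ‖y‖) / ε)), by fun_prop⟩
  have hI : ∫ y, f y ≤ 2 * (r + ε) := by
    calc ∫ y, f y ≤ ∫ y, (Metric.closedBall (0 : UnitAddCircle) (r + ε)).indicator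
          (fun _ => (1 : ℝ)) y := by
          refine integral_mono (H53.Df.intg f.continuous)
            ((integrable_const _).indicator Metric.isClosed_closedBall.measurableSet) fun y => ?_
          by_cases hy : y ∈ Metric.closedBall (0 : UnitAddCircle) (r + ε)
          · simp only [Set.indicator_of_mem hy]; exact min_le_left _ _
          · simp only [Set.indicator_of_notMem hy]
            rw [mem_closedBall_zero_iff, not_le] at hy
            refine (min_le_right _ _).trans (max_le le_rfl ?_)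
            exact div_nonpos_of_nonpos_of_nonneg (by linarith) hε.le
      _ ≤ _ := by
          rw [integral_indicator Metric.isClosed_closedBall.measurableSet]
          simp only [integral_const, MeasurableSet.univ, measureReal_restrict_apply, Set.univ_inter,
            smul_eq_mul, mul_one, Measure.real, Measure.restrict_apply]
          rw [AddCircle.volume_closedBall]
          exact ENNReal.toReal_le_of_le_ofReal (by positivity)
            (ENNReal.ofReal_le_ofReal (min_le_right _ _))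
  have h := (H53.Df.weylC hθ β f).eventually (gt_mem_nhds (show ∫ y, f y < 2 * r + 3 * ε by linarith))
  filter_upwards [h, eventually_gt_atTop 0] with J hJ J0
  have J1 : (0 : ℝ) < J := by exact_mod_cast J0
  rw [div_lt_iff₀ J1] at hJ
  refine le_trans ?_ hJ.le
  rw [card_filter, Nat.cast_sum]
  apply sum_le_sum
  intro j _
  split_ifs with c
  · obtain ⟨c, hc⟩ := c
    have : ‖((β + j * θ : ℝ) : UnitAddCircle)‖ ≤ r := by
      rw [UnitAddCircle.norm_eq]; exact (round_le _ c).trans hc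
    simp only [Nat.cast_one, f, ContinuousMap.coe_mk]
    refine le_min le_rfl (le_max_of_le_right ?_)
    rw [le_div_iff₀ hε]; linarith
  · simp only [Nat.cast_zero, f, ContinuousMap.coe_mk]
    exact le_min zero_le_one (le_max_left _ _)

theorem irr {p : ℕ} (hp : p.Prime) (h : 2 < p) : Irrational (Real.log 2 / Real.log p) := by
  rintro ⟨q, hq⟩
  have lp : 0 < Real.log p := Real.log_pos (by exact_mod_cast hp.one_lt)
  have l2 : 0 < Real.log 2 := Real.log_pos (by norm_num)
  have q0 : (0 : ℝ) < q := by rw [hq]; positivity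
  have q1 : 0 < q.num := Rat.num_pos.2 (by exact_mod_cast q0)
  obtain ⟨n, hn⟩ := Int.eq_ofNat_of_zero_le q1.le
  have d0 : (0 : ℝ) < q.den := by exact_mod_cast q.den_pos
  rw [Rat.cast_def, hn, div_eq_div_iff d0.ne' lp.ne'] at hq
  have e : Real.log ((p : ℝ) ^ n) = Real.log ((2 : ℝ) ^ q.den) := by
    rw [Real.log_pow, Real.log_pow]; push_cast at hq; linarith
  have p0 : (0 : ℝ) < p := by exact_mod_cast hp.pos
  have e2 := Real.log_injOn_pos (Set.mem_Ioi.2 (by positivity)) (Set.mem_Ioi.2 (by positivity)) e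
  have e3 : p ^ n = 2 ^ q.den := by exact_mod_cast e2
  have : p ∣ 2 ^ q.den := e3 ▸ dvd_pow_self p (by omega)
  have := Nat.le_of_dvd (by omega) (hp.dvd_of_dvd_pow this)
  omega

theorem geo {A : ℝ} (hA : 0 < A) (J : ℕ) :
    ∑ j ∈ range J, (if A < 2 ^ j then 1 / (2 : ℝ) ^ j else 0) ≤ 2 / A := by
  have : ∑ j ∈ range J, (if A < 2 ^ j then 1 / (2 : ℝ) ^ j else 0) ≤
      max 0 (2 / A - 2 / 2 ^ J) := by
    induction J with
    | zero => simp
    | succ J ih =>
      rw [sum_range_succ]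
      have e : (2 : ℝ) / 2 ^ (J + 1) = 1 / 2 ^ J := by rw [pow_succ]; field_simp
      have e2 : (2 : ℝ) / 2 ^ J = 2 * (1 / 2 ^ J) := by ring
      split_ifs with c
      · have : (2 : ℝ) / 2 ^ J ≤ 2 / A := by gcongr
        rw [max_eq_right (by linarith)] at ih
        exact le_max_of_le_right (by linarith)
      · have : 2 / A - 2 / 2 ^ J ≤ 2 / A - (2 : ℝ) / 2 ^ (J + 1) := by
          have : (0 : ℝ) < 1 / 2 ^ J := by positivity
          linarith
        rw [add_zero]
        exact ih.trans (max_le_max le_rfl this)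
  refine this.trans (max_le (by positivity) ?_)
  have : (0 : ℝ) ≤ 2 / 2 ^ J := by positivity
  linarith

theorem small_hit {p c a j t : ℕ} {ε : ℝ} (hp : 3 ≤ p) (hc : 1 ≤ c) (ha : 0 < a)
    (hε : 1 / (a : ℝ) ≤ ε) (t1 : a * 2 ^ j ≤ t) (t2 : t < (a + 1) * 2 ^ j)
    (h1 : p ^ c ≤ 12 * t + 8) (h2 : 12 * t + 8 < p ^ c + p ^ (c - 1)) :
    ∃ z : ℤ, |Real.log (12 * a) / Real.log p + ε - (dd p + ε) / 2 +
      j * (Real.log 2 / Real.log p) - z| ≤ (dd p + ε) / 2 := by
  refine ⟨c, ?_⟩
  have p3 : (3 : ℝ) ≤ p := by exact_mod_cast hp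
  have a0 : (0 : ℝ) < a := by exact_mod_cast ha
  have lp : 1 ≤ Real.log p := by
    rw [Real.le_log_iff_exp_le (by linarith)]
    have := Real.exp_one_lt_d9; linarith
  have k1 : (p : ℝ) ^ c ≤ 12 * a * (1 + 1 / a) * 2 ^ j := by
    have : p ^ c ≤ 12 * ((a + 1) * 2 ^ j) := by omega
    have : (p : ℝ) ^ c ≤ 12 * ((a + 1) * 2 ^ j) := by exact_mod_cast this
    refine this.trans (le_of_eq ?_); field_simp
  have k2 : (12 : ℝ) * a * 2 ^ j ≤ p ^ c * (1 + 1 / p) := by
    have : 12 * (a * 2 ^ j) ≤ p ^ c + p ^ (c - 1) := by omega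
    have : (12 : ℝ) * (a * 2 ^ j) ≤ p ^ c + p ^ (c - 1) := by exact_mod_cast this
    obtain ⟨d, rfl⟩ : ∃ d, c = d + 1 := ⟨c - 1, by omega⟩
    simp only [Nat.add_sub_cancel] at this
    rw [mul_assoc]
    refine this.trans (le_of_eq ?_); field_simp; ring
  have m1 := Real.log_le_log (by positivity) k1
  have m2 := Real.log_le_log (by positivity) k2
  rw [Real.log_mul (by positivity) (by positivity), Real.log_mul (by positivity) (by positivity),
    Real.log_pow, Real.log_pow] at m1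
  rw [Real.log_mul (by positivity) (by positivity),
    Real.log_mul (x := (p : ℝ) ^ c) (by positivity) (by positivity),
    Real.log_pow, Real.log_pow] at m2
  have m3 := Real.log_le_sub_one_of_pos (x := 1 + 1 / (a : ℝ)) (by positivity)
  have e0 : 0 ≤ ε := le_trans (by positivity) hε
  have n1 : (c : ℝ) ≤ (Real.log (12 * a) + j * Real.log 2) / Real.log p + ε := by
    rw [div_add' _ _ _ (by linarith), le_div_iff₀ (by linarith)]
    nlinarith
  have n2 : (Real.log (12 * a) + j * Real.log 2) / Real.log p ≤ c + dd p := by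
    unfold dd
    rw [add_div' _ _ _ (by linarith)]
    gcongr
  rw [add_div, mul_div_assoc] at n1 n2
  push_cast
  rw [abs_le]
  constructor <;> linarith

theorem cnt_le {A B N : ℕ} (hB : 12 ≤ B) :
    (((range N).filter (fun t => A ≤ 12 * t + 8 ∧ 12 * t + 8 < A + B)).card : ℝ) ≤ B / 6 := by
  have : ((range N).filter (fun t => A ≤ 12 * t + 8 ∧ 12 * t + 8 < A + B)).card ≤
      (Ico ((A + 3) / 12) ((A + 3) / 12 + (B / 12 + 1))).card := by
    apply card_le_card
    intro t ht
    simp only [mem_filter, mem_Ico] at ht ⊢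
    omega
  rw [Nat.card_Ico, Nat.add_sub_cancel_left] at this
  rw [le_div_iff₀ (by norm_num)]
  exact_mod_cast (show _ * 6 ≤ B by omega)

open Classical in
theorem cover {M Y X j : ℕ} (hM : ∃ e, M = 2 ^ e) (hY : 12 ≤ Y) (hX : 60 * M * 2 ^ j ≤ X)
    (Bs : ℕ × ℕ → Prop)
    (hB : ∀ m p c t, m < M → 3 ≤ p → 1 ≤ c → (4 * M + m) * 2 ^ j ≤ t →
      t < (4 * M + m + 1) * 2 ^ j → p ^ c ≤ 12 * t + 8 → 12 * t + 8 < p ^ c + p ^ (c - 1) →
      Bs (m, p))
    (bad : ∀ t, M ≤ t → ∃ p c : ℕ, p.Prime ∧ 1 ≤ c ∧ p ^ c ≤ 12 * t + 8 ∧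
      12 * t + 8 < p ^ c + p ^ (c - 1)) :
    (M : ℝ) ≤ (((range M ×ˢ (Ioc 2 Y).filter Nat.Prime).filter Bs).card : ℝ) +
      ∑ x ∈ ((Ioc Y X).filter Nat.Prime ×ˢ Icc 2 X).filter (fun x => x.1 ^ x.2 ≤ X),
        (x.1 : ℝ) ^ (x.2 - 1) / 6 *
          (if (x.1 : ℝ) ^ x.2 / (60 * M) < 2 ^ j then 1 / (2 : ℝ) ^ j else 0) := by
  obtain ⟨e, he⟩ := hM
  have M0 : 0 < M := by rw [he]; positivity
  have j0 : 0 < 2 ^ j := by positivity
  set S1 := (range M ×ˢ (Ioc 2 Y).filter Nat.Prime).filter Bs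
  set S2 := ((Ioc Y X).filter Nat.Prime ×ˢ Icc 2 X).filter (fun x => x.1 ^ x.2 ≤ X)
  have sub : Ico (4 * M * 2 ^ j) (5 * M * 2 ^ j) ⊆
      S1.biUnion (fun x => Ico ((4 * M + x.1) * 2 ^ j) ((4 * M + x.1 + 1) * 2 ^ j)) ∪
      S2.biUnion (fun x => (range (5 * M * 2 ^ j)).filter
        (fun t => x.1 ^ x.2 ≤ 12 * t + 8 ∧ 12 * t + 8 < x.1 ^ x.2 + x.1 ^ (x.2 - 1))) := by
    intro t ht
    rw [mem_Ico] at ht
    have MM : M ≤ M * 2 ^ j := Nat.le_mul_of_pos_right _ j0
    have t1 : 4 * (M * 2 ^ j) ≤ t := by rw [← mul_assoc]; exact ht.1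
    have t2 : t < 5 * (M * 2 ^ j) := by rw [← mul_assoc]; exact ht.2
    rw [mul_assoc] at hX
    obtain ⟨p, c, hp, hc, h1, h2⟩ := bad t (by omega)
    have c2 : 2 ≤ c := by
      by_contra hh
      obtain rfl : c = 1 := by omega
      simp only [pow_one, Nat.sub_self, pow_zero] at h1 h2
      have := hp.eq_two_or_odd
      omega
    have p3 : 3 ≤ p := by
      by_contra hh
      obtain rfl : p = 2 := by have := hp.two_le; omega
      have e1 : M * 2 ^ j = 2 ^ (e + j) := by rw [he, pow_add]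
      obtain ⟨d, rfl⟩ : ∃ d, c = d + 1 := ⟨c - 1, by omega⟩
      simp only [Nat.add_sub_cancel, pow_succ] at h1 h2
      rcases Nat.lt_or_ge (e + j + 4) d with q | q
      · have := Nat.pow_le_pow_right (show 0 < 2 by omega) (show e + j + 5 ≤ d by omega)
        rw [pow_add] at this; omega
      · have := Nat.pow_le_pow_right (show 0 < 2 by omega) q
        rw [pow_add] at this; omega
    rw [mem_union, mem_biUnion, mem_biUnion]
    rcases Nat.lt_or_ge Y p with q | q
    · right
      have : p ≤ p ^ c := Nat.le_self_pow (by omega) p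
      have : c < p ^ c := Nat.lt_pow_self (by omega)
      refine ⟨(p, c), ?_, ?_⟩
      · simp only [S2, mem_filter, mem_product, mem_Ioc, mem_Icc]
        exact ⟨⟨⟨⟨q, by omega⟩, hp⟩, c2, by omega⟩, by omega⟩
      · simp only [mem_filter, mem_range]
        exact ⟨ht.2, h1, h2⟩
    · left
      have d1 : 4 * M ≤ t / 2 ^ j := (Nat.le_div_iff_mul_le j0).2 ht.1
      have d2 : t / 2 ^ j < 5 * M := (Nat.div_lt_iff_lt_mul j0).2 ht.2
      have d3 : (4 * M + (t / 2 ^ j - 4 * M)) * 2 ^ j ≤ t := by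
        rw [Nat.add_sub_cancel' d1]; exact Nat.div_mul_le_self _ _
      have d4 : t < (4 * M + (t / 2 ^ j - 4 * M) + 1) * 2 ^ j := by
        rw [Nat.add_sub_cancel' d1, mul_comm]; exact Nat.lt_mul_div_succ _ j0
      refine ⟨(t / 2 ^ j - 4 * M, p), ?_, mem_Ico.2 ⟨d3, d4⟩⟩
      simp only [S1, mem_filter, mem_product, mem_Ioc, mem_range]
      exact ⟨⟨by omega, ⟨by omega, q⟩, hp⟩, hB _ p c t (by omega) p3 hc d3 d4 h1 h2⟩
  have c0 := (card_le_card sub).trans ((card_union_le _ _).trans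
    (add_le_add card_biUnion_le card_biUnion_le))
  have c1 : ∀ a : ℕ, (a + 1) * 2 ^ j - a * 2 ^ j = 2 ^ j := fun a => by
    rw [add_mul, one_mul, Nat.add_sub_cancel_left]
  simp only [Nat.card_Ico, c1, sum_const, smul_eq_mul] at c0
  rw [show 5 * M * 2 ^ j - 4 * M * 2 ^ j = M * 2 ^ j by
    rw [mul_assoc, mul_assoc]; omega] at c0
  have c2 : (M : ℝ) * 2 ^ j ≤ S1.card * 2 ^ j + ∑ x ∈ S2, (((range (5 * M * 2 ^ j)).filter
      (fun t => x.1 ^ x.2 ≤ 12 * t + 8 ∧ 12 * t + 8 < x.1 ^ x.2 + x.1 ^ (x.2 - 1))).card : ℝ) := by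
    exact_mod_cast c0
  have J0 : (0 : ℝ) < 2 ^ j := by positivity
  apply le_of_mul_le_mul_right _ J0
  rw [add_mul, sum_mul]
  refine c2.trans (add_le_add le_rfl (sum_le_sum fun x hx => ?_))
  simp only [S2, mem_filter, mem_product, mem_Ioc, mem_Icc] at hx
  split_ifs with q
  · rw [mul_assoc (_ / 6 : ℝ), one_div_mul_cancel J0.ne', mul_one]
    have : x.1 ≤ x.1 ^ (x.2 - 1) := Nat.le_self_pow (by omega) _
    exact_mod_cast cnt_le (A := x.1 ^ x.2) (B := x.1 ^ (x.2 - 1)) (by omega)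
  · rw [mul_zero, zero_mul, filter_false_of_mem, card_empty, Nat.cast_zero]
    intro t ht h
    apply q
    rw [div_lt_iff₀ (by positivity)]
    rw [mem_range, mul_assoc] at ht
    exact_mod_cast (show x.1 ^ x.2 < 2 ^ j * (60 * M) by
      rw [mul_comm, mul_assoc]; omega)

open Classical in
theorem exists_good (K : ℕ) : ∃ t, K ≤ t ∧ ∀ p c : ℕ, p.Prime → 1 ≤ c →
    ¬ (p ^ c ≤ 12 * t + 8 ∧ 12 * t + 8 < p ^ c + p ^ (c - 1)) := by
  by_contra hh
  have bad : ∀ t, K ≤ t → ∃ p c : ℕ, p.Prime ∧ 1 ≤ c ∧ p ^ c ≤ 12 * t + 8 ∧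
      12 * t + 8 < p ^ c + p ^ (c - 1) := by
    intro t ht
    by_contra h2
    exact hh ⟨t, ht, fun p c a b d => h2 ⟨p, c, a, b, d⟩⟩
  obtain ⟨I, hI⟩ : ∃ I : ℕ, 40000 ≤ I := ⟨_, le_rfl⟩
  have l2 := Real.log_two_gt_d9
  have l2' := Real.log_two_lt_d9
  have tl : ∀ X, ∑ p ∈ (Ioc (2 ^ I) X).filter Nat.Prime, gg p ≤ 0.0001 := by
    intro X
    refine (tail I (by omega) X).trans ?_
    have a : 2 / Real.log 2 ≤ 3 := by rw [div_le_iff₀ (by positivity)]; linarith
    have I1 : (40000 : ℝ) ≤ I := by exact_mod_cast hI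
    have b : 1 / ((I : ℝ) - 1 / 2) ≤ 1 / 30000 :=
      one_div_le_one_div_of_le (by norm_num) (by linarith)
    have : 2 / Real.log 2 * (1 / ((I : ℝ) - 1 / 2)) ≤ 3 * (1 / 30000) :=
      mul_le_mul a b (div_nonneg zero_le_one (by linarith)) (by norm_num)
    linarith
  have hY : 12 ≤ 2 ^ I := le_trans (by omega) (Nat.lt_two_pow_self (n := I)).le
  generalize 2 ^ I = Y at tl hY
  have Y0 : (0 : ℝ) < Y := by exact_mod_cast (show 0 < Y by omega)
  obtain ⟨M, hM, M1, M2⟩ : ∃ M : ℕ, (∃ e, M = 2 ^ e) ∧ K ≤ M ∧ 1000 * Y ≤ M :=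
    ⟨2 ^ (K + 1000 * Y), ⟨_, rfl⟩, by have := Nat.lt_two_pow_self (n := K + 1000 * Y); omega,
      by have := Nat.lt_two_pow_self (n := K + 1000 * Y); omega⟩
  have M0 : (0 : ℝ) < M := by exact_mod_cast (show 0 < M by omega)
  set ε : ℝ := 1 / (4000 * Y) with hε
  have ε0 : 0 < ε := by positivity
  let Bs : ℕ × ℕ → ℕ → Prop := fun x j => ∃ z : ℤ,
    |Real.log (12 * ((4 * M + x.1 : ℕ) : ℝ)) / Real.log x.2 + ε - (dd x.2 + ε) / 2 +
      j * (Real.log 2 / Real.log x.2) - z| ≤ (dd x.2 + ε) / 2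
  set P1 := range M ×ˢ (Ioc 2 Y).filter Nat.Prime with hP1
  have ev : ∀ᶠ J : ℕ in atTop, ∀ x ∈ P1, (((range J).filter (Bs x)).card : ℝ) ≤
      (2 * ((dd x.2 + ε) / 2) + 3 * ε) * J := by
    rw [eventually_all_finset]
    intro x hx
    simp only [hP1, mem_product, mem_filter, mem_Ioc] at hx
    exact freq (irr hx.2.2 hx.2.1.1) _ _ ε (by have := dd_nonneg x.2; positivity) ε0
  obtain ⟨J, hJ, J1⟩ := (ev.and (eventually_ge_atTop (60 * M))).exists
  have J0 : (0 : ℝ) < J := by exact_mod_cast (show 0 < J by omega)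
  set X := 60 * M * 2 ^ J with hX
  set S2 := ((Ioc Y X).filter Nat.Prime ×ˢ Icc 2 X).filter (fun x => x.1 ^ x.2 ≤ X) with hS2
  have cov : ∀ j ∈ range J, (M : ℝ) ≤ ((P1.filter (fun x => Bs x j)).card : ℝ) +
      ∑ x ∈ S2, (x.1 : ℝ) ^ (x.2 - 1) / 6 *
          (if (x.1 : ℝ) ^ x.2 / (60 * M) < 2 ^ j then 1 / (2 : ℝ) ^ j else 0) := by
    intro j hj
    rw [mem_range] at hj
    refine cover hM hY (Nat.mul_le_mul_left _ (Nat.pow_le_pow_right (by omega) hj.le))
      (fun x => Bs x j) (fun m p c t a b d e f g h => ?_) (fun t ht => bad t (by omega))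
    refine small_hit b d (by omega) ?_ e f g h
    apply one_div_le_one_div_of_le (by positivity)
    exact_mod_cast (show 4000 * Y ≤ 4 * M + m by omega)
  have tot := sum_le_sum cov
  rw [sum_const, card_range, nsmul_eq_mul, sum_add_distrib, sum_comm] at tot
  have s1 : ∑ j ∈ range J, ((P1.filter (fun x => Bs x j)).card : ℝ) ≤ M * (0.991 * J) := by
    calc _ = ∑ x ∈ P1, (((range J).filter (Bs x)).card : ℝ) := by
          simp only [card_filter, Nat.cast_sum]
          exact sum_comm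
      _ ≤ ∑ x ∈ P1, (dd x.2 + 4 * ε) * J :=
          sum_le_sum fun x hx => (hJ x hx).trans (le_of_eq (by ring))
      _ = M * ((∑ p ∈ (Ioc 2 Y).filter Nat.Prime, (dd p + 4 * ε)) * J) := by
          rw [hP1, sum_product]
          simp only [sum_const, card_range, nsmul_eq_mul, sum_mul]
      _ ≤ _ := by
          gcongr
          rw [sum_add_distrib, sum_const, nsmul_eq_mul]
          have a := head Y
          have b : (((Ioc 2 Y).filter Nat.Prime).card : ℝ) ≤ Y := by
            have := card_filter_le (Ioc 2 Y) Nat.Prime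
            rw [Nat.card_Ioc] at this
            exact_mod_cast (by omega : ((Ioc 2 Y).filter Nat.Prime).card ≤ Y)
          have c : (Y : ℝ) * (4 * ε) = 0.001 := by rw [hε]; field_simp; norm_num
          have : (((Ioc 2 Y).filter Nat.Prime).card : ℝ) * (4 * ε) ≤ Y * (4 * ε) := by gcongr
          linarith
  have X0 : 0 < X := by rw [hX]; have : 0 < M := by omega
                        positivity
  have lX : Real.log X ≤ 2 * J := by
    rw [hX]; push_cast
    rw [Real.log_mul (by positivity) (by positivity), Real.log_pow]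
    have := Real.log_le_sub_one_of_pos (x := 60 * (M : ℝ)) (by positivity)
    have : 60 * (M : ℝ) ≤ J := by exact_mod_cast J1
    nlinarith
  have s2 : ∑ x ∈ S2, ∑ j ∈ range J, (x.1 : ℝ) ^ (x.2 - 1) / 6 *
      (if (x.1 : ℝ) ^ x.2 / (60 * M) < 2 ^ j then 1 / (2 : ℝ) ^ j else 0) ≤
      M * (0.004 * J) := by
    calc _ ≤ ∑ x ∈ S2, 20 * (M : ℝ) / x.1 := by
          apply sum_le_sum
          intro x hx
          simp only [hS2, mem_filter, mem_product, mem_Ioc, mem_Icc] at hx
          have p0 : (0 : ℝ) < x.1 := by exact_mod_cast hx.1.1.2.pos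
          rw [← mul_sum]
          refine (mul_le_mul_of_nonneg_left (geo (by positivity) J) (by positivity)).trans
            (le_of_eq ?_)
          obtain ⟨d, hd⟩ : ∃ d, x.2 = d + 1 := ⟨x.2 - 1, by omega⟩
          rw [hd, Nat.add_sub_cancel]
          field_simp; ring
      _ = ∑ p ∈ (Ioc Y X).filter Nat.Prime, (((Icc 2 X).filter (fun c => p ^ c ≤ X)).card : ℝ) *
            (20 * (M : ℝ) / p) := by
          rw [hS2, sum_filter, sum_product]
          apply sum_congr rfl
          intro p _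
          rw [← sum_filter]
          simp only [sum_const, nsmul_eq_mul]
      _ ≤ ∑ p ∈ (Ioc Y X).filter Nat.Prime, M * (40 * J) * gg p := by
          apply sum_le_sum
          intro p hp
          simp only [mem_filter, mem_Ioc] at hp
          have p1 : (1 : ℝ) < p := by exact_mod_cast hp.2.one_lt
          have lp : 0 < Real.log p := Real.log_pos p1
          have a : ((Icc 2 X).filter (fun c => p ^ c ≤ X)).card ≤ Nat.log p X := by
            have : (Icc 2 X).filter (fun c => p ^ c ≤ X) ⊆ Ioc 0 (Nat.log p X) := by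
              intro c hc
              simp only [mem_filter, mem_Icc, mem_Ioc] at hc ⊢
              exact ⟨by omega, Nat.le_log_of_pow_le hp.2.one_lt hc.2⟩
            simpa using card_le_card this
          have b : (Nat.log p X : ℝ) * Real.log p ≤ Real.log X := by
            rw [← Real.log_pow]
            exact Real.log_le_log (by positivity) (by exact_mod_cast Nat.pow_log_le_self p X0.ne')
          have c : (((Icc 2 X).filter (fun c => p ^ c ≤ X)).card : ℝ) ≤ 2 * J / Real.log p := by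
            rw [le_div_iff₀ lp]
            have : (((Icc 2 X).filter (fun c => p ^ c ≤ X)).card : ℝ) ≤ Nat.log p X := by
              exact_mod_cast a
            nlinarith
          refine (mul_le_mul_of_nonneg_right c (by positivity)).trans (le_of_eq ?_)
          unfold gg; field_simp; ring
      _ ≤ _ := by
          rw [← mul_sum]
          have := tl X
          have : (M : ℝ) * (40 * J) * ∑ p ∈ (Ioc Y X).filter Nat.Prime, gg p ≤
            M * (40 * J) * 0.0001 := by gcongr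
          linarith
  have : 0 < (M : ℝ) * J := by positivity
  nlinarith

end Pool.Agent.H13.Wcs
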